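import Pool.Agent.IDE.SV1

set_option autoImplicit false

namespace Pool.Agent.IDE

open Finset Pool.Agent.IDS

private theorem sv2_count (n0 s l b : ℕ) (hl : 1 ≤ l) (hc : Nat.Coprime l s) :
    |(((range b).filter (fun k => l ∣ n0 + s * k)).card : ℝ) - (b : ℝ) / l| ≤ 1 := by
  obtain ⟨x, hx1, hx2⟩ := Nat.chineseRemainder (m := l) (n := s) hc.symm 0 ((l - 1) * n0)
  obtain ⟨v, rfl⟩ : s ∣ x := (Nat.modEq_zero_iff_dvd).1 hx1
  have hv : n0 + s * v ≡ 0 [MOD l] := by
    have h1 : n0 + s * v ≡ n0 + (l - 1) * n0 [MOD l] := Nat.ModEq.add_left n0 hx2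
    have h2 : n0 + (l - 1) * n0 = l * n0 := by
      obtain ⟨j, rfl⟩ : ∃ j, l = j + 1 := ⟨l - 1, by omega⟩
      simp
      ring
    rw [h2] at h1
    exact h1.trans ((Nat.modEq_zero_iff_dvd).2 (dvd_mul_right l n0))
  have hiff : ∀ k, l ∣ n0 + s * k ↔ k ≡ v [MOD l] := by
    intro k
    rw [← Nat.modEq_zero_iff_dvd]
    constructor
    · intro h
      have h1 : n0 + s * k ≡ n0 + s * v [MOD l] := h.trans hv.symm
      have h2 : s * k ≡ s * v [MOD l] := Nat.ModEq.add_left_cancel' n0 h1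
      exact Nat.ModEq.cancel_left_of_coprime hc h2
    · intro h
      have h2 : s * k ≡ s * v [MOD l] := Nat.ModEq.mul_left s h
      exact (Nat.ModEq.add_left n0 h2).trans hv
  have hcard : ((range b).filter (fun k => l ∣ n0 + s * k)).card =
      b / l + if v % l < b % l then 1 else 0 := by
    rw [← Nat.count_modEq_card b (by omega) v, Nat.count_eq_card_filter_range]
    congr 1
    apply Finset.filter_congr
    intro k _
    exact hiff k
  rw [hcard]
  have hl0 : (0 : ℝ) < l := by exact_mod_cast hl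
  have h1 : ((b / l : ℕ) : ℝ) ≤ (b : ℝ) / l := Nat.cast_div_le
  have h2 : (b : ℝ) / l < ((b / l : ℕ) : ℝ) + 1 := by
    rw [div_lt_iff₀ hl0]
    have h3 : b < (b / l + 1) * l := by
      have := Nat.lt_mul_div_succ b (show 0 < l by omega)
      rw [mul_comm] at this
      exact this
    exact_mod_cast h3
  push_cast
  rw [abs_le]
  split_ifs <;> constructor <;> norm_num <;> linarith

private theorem sv2_sieve (s z n0 b : ℕ) (hs : 1 ≤ s) (hz : 2 ≤ z) (P : Finset ℕ)
    (hP : ∀ k ∈ P, k < b ∧ (n0 + s * k).Prime ∧ z < n0 + s * k) :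
    (P.card : ℝ) ≤ (b : ℝ) * (s / ((Nat.totient s : ℝ) * Real.log z)) + (z : ℝ) ^ 2 := by
  obtain ⟨lam, h1, hle, hsupp, hquad⟩ := selberg_weights s z hs (by omega)
  have htot : (0 : ℝ) < Nat.totient s := by
    exact_mod_cast Nat.totient_pos.2 (by omega)
  have hs0 : (0 : ℝ) < s := by exact_mod_cast hs
  have hlog : 0 < Real.log z := Real.log_pos (by exact_mod_cast (by omega : 1 < z))
  set Q : ℝ := ∑ d ∈ Icc 1 z, ∑ e ∈ Icc 1 z, lam d * lam e / (Nat.lcm d e : ℝ) with hQ
  have hQle : Q ≤ s / ((Nat.totient s : ℝ) * Real.log z) := by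
    rw [le_div_iff₀ (by positivity)]
    have h3 : Q * ((Nat.totient s : ℝ) / s * Real.log z) = Q * ((Nat.totient s : ℝ) * Real.log z) / s := by
      ring
    rw [h3, div_le_one hs0] at hquad
    exact hquad
  -- pointwise
  have hpt : ∀ k ∈ P, (∑ d ∈ Icc 1 z, if d ∣ n0 + s * k then lam d else 0) = 1 := by
    intro k hk
    obtain ⟨_, hpr, hzk⟩ := hP k hk
    rw [Finset.sum_eq_single_of_mem 1 (by simp; omega)]
    · simp [h1]
    · intro d hd hd1
      rw [mem_Icc] at hd
      rw [if_neg]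
      intro hdvd
      rcases (Nat.dvd_prime hpr).1 hdvd with h | h
      · exact hd1 h
      · omega
  have hPsub : P ⊆ range b := fun k hk => mem_range.2 (hP k hk).1
  have hsq : ∀ k, (∑ d ∈ Icc 1 z, if d ∣ n0 + s * k then lam d else 0) ^ 2 =
      ∑ d ∈ Icc 1 z, ∑ e ∈ Icc 1 z, lam d * lam e *
        (if Nat.lcm d e ∣ n0 + s * k then (1 : ℝ) else 0) := by
    intro k
    rw [sq, Finset.sum_mul_sum]
    refine Finset.sum_congr rfl fun d _ => Finset.sum_congr rfl fun e _ => ?_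
    by_cases hd : d ∣ n0 + s * k <;> by_cases he : e ∣ n0 + s * k <;>
      simp [hd, he, Nat.lcm_dvd_iff]
  have hmain : (P.card : ℝ) ≤ ∑ d ∈ Icc 1 z, ∑ e ∈ Icc 1 z, lam d * lam e *
      (((range b).filter (fun k => Nat.lcm d e ∣ n0 + s * k)).card : ℝ) := by
    calc (P.card : ℝ) = ∑ k ∈ P, (∑ d ∈ Icc 1 z, if d ∣ n0 + s * k then lam d else 0) ^ 2 := by
          rw [Finset.sum_congr rfl (fun k hk => by rw [hpt k hk])]
          simp
      _ ≤ ∑ k ∈ range b, (∑ d ∈ Icc 1 z, if d ∣ n0 + s * k then lam d else 0) ^ 2 :=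
          Finset.sum_le_sum_of_subset_of_nonneg hPsub (fun _ _ _ => sq_nonneg _)
      _ = ∑ k ∈ range b, ∑ d ∈ Icc 1 z, ∑ e ∈ Icc 1 z, lam d * lam e *
            (if Nat.lcm d e ∣ n0 + s * k then (1 : ℝ) else 0) :=
          Finset.sum_congr rfl fun k _ => hsq k
      _ = ∑ d ∈ Icc 1 z, ∑ e ∈ Icc 1 z, lam d * lam e *
            (((range b).filter (fun k => Nat.lcm d e ∣ n0 + s * k)).card : ℝ) := by
          rw [Finset.sum_comm]
          refine Finset.sum_congr rfl fun d _ => ?_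
          rw [Finset.sum_comm]
          refine Finset.sum_congr rfl fun e _ => ?_
          rw [← Finset.mul_sum, Finset.sum_boole]
  refine hmain.trans ?_
  have hterm : ∀ d ∈ Icc 1 z, ∀ e ∈ Icc 1 z, lam d * lam e *
      (((range b).filter (fun k => Nat.lcm d e ∣ n0 + s * k)).card : ℝ) ≤
      (b : ℝ) * (lam d * lam e / (Nat.lcm d e : ℝ)) + 1 := by
    intro d hd e he
    by_cases hd0 : lam d = 0
    · simp [hd0]
    by_cases he0 : lam e = 0
    · simp [he0]
    obtain ⟨hd1, _, hdc⟩ := hsupp d hd0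
    obtain ⟨he1, _, hec⟩ := hsupp e he0
    have hlc : Nat.Coprime (Nat.lcm d e) s := Nat.Coprime.coprime_dvd_left (Nat.lcm_dvd_mul d e)
      (Nat.Coprime.mul_left hdc hec)
    have hl1 : 1 ≤ Nat.lcm d e := Nat.lcm_pos hd1 he1
    have hc := sv2_count n0 s (Nat.lcm d e) b hl1 hlc
    set c : ℝ := (((range b).filter (fun k => Nat.lcm d e ∣ n0 + s * k)).card : ℝ) with hcdef
    have e1 : lam d * lam e * c = (b : ℝ) * (lam d * lam e / (Nat.lcm d e : ℝ)) +
        (lam d * lam e) * (c - (b : ℝ) / (Nat.lcm d e : ℝ)) := by ring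
    rw [e1]
    have h2 : |lam d * lam e * (c - (b : ℝ) / (Nat.lcm d e : ℝ))| ≤ 1 := by
      rw [abs_mul, abs_mul]
      have h3 : |lam d| * |lam e| ≤ 1 := mul_le_one₀ (hle d) (abs_nonneg _) (hle e)
      exact mul_le_one₀ h3 (abs_nonneg _) hc
    have h4 := (abs_le.1 h2).2
    linarith
  calc ∑ d ∈ Icc 1 z, ∑ e ∈ Icc 1 z, lam d * lam e *
        (((range b).filter (fun k => Nat.lcm d e ∣ n0 + s * k)).card : ℝ)
      ≤ ∑ d ∈ Icc 1 z, ∑ e ∈ Icc 1 z, ((b : ℝ) * (lam d * lam e / (Nat.lcm d e : ℝ)) + 1) :=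
        Finset.sum_le_sum fun d hd => Finset.sum_le_sum fun e he => hterm d hd e he
    _ = (b : ℝ) * Q + (z : ℝ) ^ 2 := by
        simp only [Finset.sum_add_distrib, ← Finset.mul_sum, Finset.sum_const, Nat.card_Icc,
          nsmul_eq_mul, mul_one]
        rw [hQ]
        push_cast
        simp
        ring
    _ ≤ _ := by
        have : (0 : ℝ) ≤ b := Nat.cast_nonneg b
        linarith [mul_le_mul_of_nonneg_left hQle this]

/-- [IDE-SV2] **Brun-Titchmarsh.**

PROOF.  Let `Y = Λ/s ≥ 2`, `z = ⌊Y^{1/4}⌋₊ ≥ 1`.  The elements of `F` are `n = n₀ + s k` with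
`0 ≤ k ≤ Y` (`n₀` the smallest element of `F`); at most `z` of them are `≤ z`.  For a prime `n > z`
in the progression `(∑_{d ∣ n, d ≤ z} λ_d)² = λ_1² = 1`; so, with `A` the set of the natural numbers
`n = n₀ + s k`, `0 ≤ k ≤ Y`,
`#F ≤ z + ∑_{n ∈ A} (∑_{d ∣ n} λ_d)² = z + ∑_{d,e} λ_d λ_e #{n ∈ A : lcm(d,e) ∣ n}`.
For `l = lcm(d,e)` coprime to `s`: `#{n∈A : l ∣ n} = Y/l + O(1)`, `|O(1)| ≤ 2`.  So
`#F ≤ z + Y ∑∑ λλ/lcm + 2 z² ≤ 3 z² + Y s/(φ(s) log z)` if `z ≥ 2`.  For `Y ≥ 2^8`: `z ≥ 4`,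
`log z ≥ (1/8) log Y` and `3 z² ≤ 3√Y ≤ 12 Y/log Y ≤ 12 Y s/(φ(s) log Y)`; for `2 ≤ Y ≤ 2^8`:
`#F ≤ Y + 1 ≤ 2Y` and `log Y ≤ 6`.  Everything is `≤ 20 Y s/(φ(s) log Y) = 20 Λ/(φ(s) log (Λ/s))`. -/
theorem brun_titchmarsh :
    ∃ C : ℝ, 0 < C ∧ ∀ (s a : ℕ) (y Λ : ℝ) (F : Finset ℕ), 1 ≤ s → Nat.Coprime a s →
      2 * (s : ℝ) ≤ Λ →
      (∀ p ∈ F, p.Prime ∧ y ≤ p ∧ (p : ℝ) ≤ y + Λ ∧ p ≡ a [MOD s]) →
      (F.card : ℝ) ≤ C * Λ / ((Nat.totient s : ℝ) * Real.log (Λ / s)) := by
  refine ⟨100, by norm_num, ?_⟩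
  intro s a y Λ F hs hcop hΛ hF
  have hs0 : (0 : ℝ) < s := by exact_mod_cast hs
  have hs1 : (1 : ℝ) ≤ s := by exact_mod_cast hs
  have htot : (0 : ℝ) < Nat.totient s := by
    exact_mod_cast Nat.totient_pos.2 (by omega)
  have htots : (Nat.totient s : ℝ) ≤ s := by exact_mod_cast Nat.totient_le s
  have hΛ0 : 0 < Λ := by linarith
  obtain ⟨Y, hY⟩ : ∃ Y : ℝ, Y = Λ / s := ⟨_, rfl⟩
  rw [← hY]
  have hY2 : 2 ≤ Y := by
    rw [hY, le_div_iff₀ hs0]
    exact hΛ
  have hΛY : Λ = Y * s := by rw [hY]; field_simp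
  have hlogY : 0 < Real.log Y := Real.log_pos (by linarith)
  rcases F.eq_empty_or_nonempty with rfl | hne
  · simp
    positivity
  -- the least element
  set n0 : ℕ := F.min' hne with hn0
  have hn0F : n0 ∈ F := F.min'_mem hne
  set b : ℕ := ⌊Y⌋₊ + 1 with hb
  have hbY : (b : ℝ) ≤ Y + 1 := by
    rw [hb]
    push_cast
    have := Nat.floor_le (show (0 : ℝ) ≤ Y by linarith)
    linarith
  have hrep : ∀ p ∈ F, n0 + s * ((p - n0) / s) = p ∧ (p - n0) / s < b := by
    intro p hp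
    obtain ⟨_, hp1, hp2, hp3⟩ := hF p hp
    obtain ⟨_, hn1, hn2, hn3⟩ := hF n0 hn0F
    have hle : n0 ≤ p := F.min'_le p hp
    have hdvd : s ∣ p - n0 := (Nat.modEq_iff_dvd' hle).1 (hn3.trans hp3.symm)
    have e1 : s * ((p - n0) / s) = p - n0 := Nat.mul_div_cancel' hdvd
    refine ⟨by omega, ?_⟩
    rw [hb, Nat.lt_add_one_iff]
    apply Nat.le_floor
    have e2 : (s : ℝ) * (((p - n0) / s : ℕ) : ℝ) = (p : ℝ) - n0 := by
      have : ((s * ((p - n0) / s) : ℕ) : ℝ) = ((p - n0 : ℕ) : ℝ) := by rw [e1]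
      rw [Nat.cast_sub hle] at this
      push_cast at this
      exact this
    have e3 : (s : ℝ) * (((p - n0) / s : ℕ) : ℝ) ≤ s * Y := by
      rw [e2, mul_comm (s : ℝ) Y, ← hΛY]
      linarith
    exact le_of_mul_le_mul_left e3 hs0
  have hinj : Set.InjOn (fun p => (p - n0) / s) (F : Set ℕ) := by
    intro p hp q hq hpq
    have h1 := (hrep p hp).1
    have h2 := (hrep q hq).1
    simp only at hpq
    rw [← h1, ← h2, hpq]
  -- generic bound
  have hgoal : 100 * Λ / ((Nat.totient s : ℝ) * Real.log Y) =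
      100 * (Y / Real.log Y) * (s / Nat.totient s) := by
    rw [hΛY]
    field_simp
  rw [hgoal]
  have hsr : (1 : ℝ) ≤ s / Nat.totient s := by
    rw [le_div_iff₀ htot]
    linarith
  have hYl : 0 < Y / Real.log Y := div_pos (by linarith) hlogY
  rcases le_or_gt Y 256 with hsm | hlg
  · -- small
    have hc1 : F.card ≤ b := by
      have : (F.image (fun p => (p - n0) / s)).card ≤ (range b).card := by
        apply Finset.card_le_card
        intro k hk
        rw [mem_image] at hk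
        obtain ⟨p, hp, rfl⟩ := hk
        exact mem_range.2 (hrep p hp).2
      rwa [Finset.card_image_of_injOn hinj, card_range] at this
    have hc2 : (F.card : ℝ) ≤ 2 * Y := by
      have : (F.card : ℝ) ≤ b := by exact_mod_cast hc1
      linarith
    have hl6 : Real.log Y ≤ 6 := by
      have h1 : Real.log Y ≤ Real.log 256 := Real.log_le_log (by linarith) hsm
      have h2 : Real.log 256 = 8 * Real.log 2 := by
        rw [show (256 : ℝ) = 2 ^ 8 by norm_num, Real.log_pow]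
        norm_num
      have h3 := Real.log_two_lt_d9
      linarith
    have h12 : 2 * Y ≤ 12 * (Y / Real.log Y) := by
      rw [← mul_div_assoc, le_div_iff₀ hlogY]
      have h7 : 2 * Y * Real.log Y ≤ 2 * Y * 6 := mul_le_mul_of_nonneg_left hl6 (by linarith)
      linarith
    calc (F.card : ℝ) ≤ 12 * (Y / Real.log Y) := hc2.trans h12
      _ ≤ 100 * (Y / Real.log Y) * 1 := by linarith
      _ ≤ _ := mul_le_mul_of_nonneg_left hsr (by positivity)
  · -- large
    set z : ℕ := ⌊Y ^ ((1 : ℝ) / 4)⌋₊ with hz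
    set t : ℝ := Y ^ ((1 : ℝ) / 8) with ht
    have hY0 : 0 < Y := by linarith
    have ht0 : 0 < t := Real.rpow_pos_of_pos hY0 _
    have ht8 : t ^ 8 = Y := by
      rw [ht, ← Real.rpow_natCast, ← Real.rpow_mul hY0.le]
      norm_num
    have ht2 : 2 ≤ t := by
      by_contra hcon
      rw [not_le] at hcon
      have : t ^ 8 < 2 ^ 8 := pow_lt_pow_left₀ hcon ht0.le (by norm_num)
      rw [ht8] at this
      norm_num at this
      linarith
    have ht4 : Y ^ ((1 : ℝ) / 4) = t ^ 2 := by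
      rw [ht, ← Real.rpow_natCast, ← Real.rpow_mul hY0.le]
      norm_num
    have hz1 : (z : ℝ) ≤ t ^ 2 := by
      rw [← ht4, hz]
      exact Nat.floor_le (by positivity)
    have hz2 : t ^ 2 < (z : ℝ) + 1 := by
      rw [← ht4, hz]
      exact Nat.lt_floor_add_one _
    have h2t : 2 * t ≤ t ^ 2 := by
      rw [sq]
      exact mul_le_mul_of_nonneg_right ht2 ht0.le
    have hzt : t ≤ z := by linarith
    have hz2' : 2 ≤ z := by exact_mod_cast ht2.trans hzt
    have hlogt : Real.log Y = 8 * Real.log t := by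
      rw [← ht8, Real.log_pow]
      norm_num
    have hlogt0 : 0 < Real.log t := Real.log_pos (by linarith)
    have hlogz : Real.log t ≤ Real.log z := Real.log_le_log ht0 hzt
    have hlogt4 : Real.log t ≤ t := by
      have := Real.log_le_sub_one_of_pos ht0
      linarith
    -- split
    set F1 : Finset ℕ := F.filter (fun p => p ≤ z) with hF1
    set F2 : Finset ℕ := F.filter (fun p => ¬ p ≤ z) with hF2
    have hsplit : F.card = F1.card + F2.card := by
      rw [hF1, hF2, Finset.card_filter_add_card_filter_not]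
    have hc1 : F1.card ≤ z := by
      have : F1 ⊆ Icc 1 z := by
        intro p hp
        rw [hF1, mem_filter] at hp
        rw [mem_Icc]
        exact ⟨(hF p hp.1).1.one_lt.le, hp.2⟩
      have h2 := Finset.card_le_card this
      simpa using h2
    set P : Finset ℕ := F2.image (fun p => (p - n0) / s) with hP
    have hcP : P.card = F2.card := by
      rw [hP]
      apply Finset.card_image_of_injOn
      intro p hp q hq hpq
      have hp' : p ∈ F := (mem_filter.1 hp).1
      have hq' : q ∈ F := (mem_filter.1 hq).1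
      exact hinj hp' hq' hpq
    have hPP : ∀ k ∈ P, k < b ∧ (n0 + s * k).Prime ∧ z < n0 + s * k := by
      intro k hk
      rw [hP, mem_image] at hk
      obtain ⟨p, hp, rfl⟩ := hk
      rw [hF2, mem_filter] at hp
      obtain ⟨hpF, hpz⟩ := hp
      obtain ⟨h1, h2⟩ := hrep p hpF
      refine ⟨h2, ?_, ?_⟩
      · rw [h1]
        exact (hF p hpF).1
      · rw [h1]
        omega
    have hsv := sv2_sieve s z n0 b hs hz2' P hPP
    rw [hcP] at hsv
    have hcard : (F.card : ℝ) = F1.card + F2.card := by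
      rw [hsplit]
      push_cast
      rfl
    have hc1' : (F1.card : ℝ) ≤ z := by exact_mod_cast hc1
    have hzz : (z : ℝ) ≤ (z : ℝ) ^ 2 := le_self_pow₀ (by linarith) (by norm_num)
    have hz4 : (z : ℝ) ^ 2 ≤ t ^ 4 := by
      have e5 : t ^ 4 = (t ^ 2) ^ 2 := by ring
      rw [e5]
      exact pow_le_pow_left₀ (Nat.cast_nonneg z) hz1 2
    -- b * (s / (φ log z)) ≤ 16 (Y / log Y) (s/φ)
    have hb2 : (b : ℝ) ≤ 2 * Y := by linarith
    have hA : (b : ℝ) * (s / ((Nat.totient s : ℝ) * Real.log z)) ≤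
        16 * (Y / Real.log Y) * (s / Nat.totient s) := by
      have e1 : (b : ℝ) * (s / ((Nat.totient s : ℝ) * Real.log z)) =
          (b / Real.log z) * (s / Nat.totient s) := by
        field_simp
      rw [e1]
      apply mul_le_mul_of_nonneg_right _ (by positivity)
      rw [hlogt]
      have e2 : 16 * (Y / (8 * Real.log t)) = 2 * Y / Real.log t := by
        field_simp
        ring
      rw [e2]
      exact div_le_div₀ (by linarith) hb2 hlogt0 hlogz
    have hB : 2 * t ^ 4 ≤ 16 * (Y / Real.log Y) := by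
      rw [hlogt, ← mul_div_assoc, le_div_iff₀ (by positivity), ← ht8]
      have h1 : t * t ^ 4 ≤ t ^ 8 := by
        have e3 : t * t ^ 4 = t ^ 5 := by ring
        rw [e3]
        exact pow_le_pow_right₀ (by linarith) (by norm_num)
      have h2 : Real.log t * t ^ 4 ≤ t * t ^ 4 := mul_le_mul_of_nonneg_right hlogt4 (by positivity)
      have e4 : 2 * t ^ 4 * (8 * Real.log t) = 16 * (Real.log t * t ^ 4) := by ring
      rw [e4]
      linarith
    have hC : 16 * (Y / Real.log Y) * 1 ≤ 16 * (Y / Real.log Y) * (s / Nat.totient s) :=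
      mul_le_mul_of_nonneg_left hsr (by positivity)
    have hD : 0 < (Y / Real.log Y) * (s / Nat.totient s) := by positivity
    rw [hcard]
    linarith

end Pool.Agent.IDE
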