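import Pool.Agent.IDS.Base

set_option autoImplicit false

/-!
# Inhomogeneous Duffin-Schaeffer for all shifts: basic definitions  ([IDE], MP_3a832c_nt)
-/

namespace Pool.Agent.IDE

open Finset Pool.Agent.IDS

/-- the least `n ≥ 1` with `‖n γ‖ ≤ 1/T` -/
noncomputable def den (γ T : ℝ) : ℕ := sInf {n : ℕ | 1 ≤ n ∧ nd (n * γ) ≤ 1 / T}

/-- `‖N γ‖` for `N = den γ T` -/
noncomputable def eta (γ T : ℝ) : ℝ := nd (den γ T * γ)

/-- the nearest integer to `N γ` for `N = den γ T` -/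
noncomputable def num (γ T : ℝ) : ℤ := round (den γ T * γ)

/-- the denominators of `γ` -/
def IsDen (γ : ℝ) (N : ℕ) : Prop := ∃ T : ℝ, 1 ≤ T ∧ N = den γ T

/-- gainful: alignment at scale `R` of numbers of size `M` is a real restriction -/
def Gf (γ R : ℝ) (M : ℕ) : Prop :=
  R ^ ((3 : ℝ) / 8) < den γ (R / 8) ∨ 1 ≤ 2 * (M : ℝ) * eta γ (R / 8)

/-- `m` has no large common factor with a large denominator of `γ` -/
def Cop (γ R : ℝ) (m : ℕ) : Prop :=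
  ∀ T : ℝ, 1 ≤ T → R ^ ((3 : ℝ) / 8) < den γ T →
    (Nat.gcd (den γ T) m : ℝ) < den γ T * R ^ (-(1 : ℝ) / 8)

/-- the weight `n / φ(n)` -/
noncomputable def Fw (n : ℕ) : ℝ := (n : ℝ) / Nat.totient n

/-- squarefree divisors -/
def Sq (b : ℕ) : Finset ℕ := b.divisors.filter Squarefree

/-- the probability measure on the squarefree divisors of `b`: every prime `p ∣ b` is taken with
probability `1/p`, independently. -/
noncomputable def pb (b o : ℕ) : ℝ := (Nat.totient b : ℝ) / b / Nat.totient o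

/-- The data of the core inequality: a finite set `S` of positive integers with levels `κ`, level
weights `Ω k ≤ Λ k ^ (-ε)` and masses `0 ≤ μ v ≤ Ω (κ v) φ(v) 2^(-κ v)`.  `Λ k ≥ 1` is at least
`1 + log (number of dyadic sizes of the elements of level k)`, or at least
`1 + log (1 + log (k + 1))`. -/
structure Dat3 (ε : ℝ) (S : Finset ℕ) (κ : ℕ → ℕ) (Ω La : ℕ → ℝ) (μ : ℕ → ℝ) : Prop where
  pos : ∀ v ∈ S, 0 < v
  mu0 : ∀ v, 0 ≤ μ v
  mu1 : ∀ v ∈ S, μ v ≤ Ω (κ v) * ((Nat.totient v : ℝ) * (1 / 2 : ℝ) ^ κ v)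
  L1 : ∀ k, 1 ≤ La k
  Om0 : ∀ k, 0 ≤ Ω k
  Om1 : ∀ k, Ω k * (La k) ^ ε ≤ 1
  LS : ∀ k, 1 + Real.log (((S.filter (fun v => κ v = k)).image (Nat.log 2)).card : ℝ) ≤ La k ∨
    1 + Real.log (1 + Real.log ((k : ℝ) + 1)) ≤ La k

theorem Dat3.Om_le_one {ε : ℝ} (hε : 0 < ε) {S : Finset ℕ} {κ : ℕ → ℕ} {Ω La μ : ℕ → ℝ}
    (h : Dat3 ε S κ Ω La μ) (k : ℕ) : Ω k ≤ 1 := by
  have h1 : (1 : ℝ) ≤ (La k) ^ ε := Real.one_le_rpow (h.L1 k) hε.le
  have h2 := h.Om1 k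
  have h3 := h.Om0 k
  nlinarith

theorem Dat3.mu_le {ε : ℝ} (hε : 0 < ε) {S : Finset ℕ} {κ : ℕ → ℕ} {Ω La μ : ℕ → ℝ}
    (h : Dat3 ε S κ Ω La μ) {v : ℕ} (hv : v ∈ S) :
    μ v ≤ (Nat.totient v : ℝ) * (1 / 2 : ℝ) ^ κ v := by
  refine (h.mu1 v hv).trans ?_
  have h1 := h.Om_le_one hε (κ v)
  have h2 : 0 ≤ (Nat.totient v : ℝ) * (1 / 2 : ℝ) ^ κ v := by positivity
  nlinarith

end Pool.Agent.IDE
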