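import Pool.Agent.IDE.V2
import Pool.Agent.IDS.B1

set_option autoImplicit false

namespace Pool.Agent.IDE

open Finset Pool.Agent.IDS

/-- conditions on the edges of regime I -/
def EdI (γ R : ℝ) (e : ℕ × ℕ) : Prop :=
  nd (γ * ((rd e.2 e.1 : ℝ) - rd e.1 e.2)) ≤ 2 / R ∧
  R ^ 80 ≤ (max (rd e.1 e.2) (rd e.2 e.1) : ℝ) ∧
  Gf γ R (max (rd e.1 e.2) (rd e.2 e.1)) ∧ Cop γ R (rd e.1 e.2) ∧ Cop γ R (rd e.2 e.1)

theorem cb1_sum_le (n : ℕ) : ∀ J : Finset ℕ, J.card = n →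
    ∑ B ∈ J, 1 / ((B : ℝ) + 1) ≤ ∑ i ∈ Finset.range n, 1 / ((i : ℝ) + 1) := by
  induction n with
  | zero =>
    intro J hJ
    rw [Finset.card_eq_zero] at hJ
    rw [hJ]; simp
  | succ n ih =>
    intro J hJ
    have hne : J.Nonempty := by
      rw [← Finset.card_pos, hJ]; exact Nat.succ_pos n
    set M := J.max' hne with hM
    have hMJ : M ∈ J := J.max'_mem hne
    have hsub : J ⊆ Finset.range (M + 1) := by
      intro x hx
      rw [Finset.mem_range]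
      exact Nat.lt_succ_of_le (J.le_max' x hx)
    have hcard := Finset.card_le_card hsub
    rw [Finset.card_range, hJ] at hcard
    have hnM : n ≤ M := by omega
    have hE : (J.erase M).card = n := by
      rw [Finset.card_erase_of_mem hMJ, hJ]; rfl
    have h1 := ih (J.erase M) hE
    rw [← Finset.add_sum_erase J _ hMJ, Finset.sum_range_succ]
    have h2 : 1 / ((M : ℝ) + 1) ≤ 1 / ((n : ℝ) + 1) := by
      apply one_div_le_one_div_of_le (by positivity)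
      have : (n : ℝ) ≤ M := by exact_mod_cast hnM
      linarith
    linarith

/-- [IDE-CB1] PROOF.  `∑_{B ∈ J} 1/(B+1) ≤ 1 + log J.card` for a finite nonempty `J ⊆ ℕ` (the sum is
largest for `J = range J.card`: `∑_{i<n} 1/(i+1) ≤ 1 + log n`; e.g. by induction on `J` removing the
maximum, which is `≥ J.card - 1`). -/
theorem sum_inv_le (J : Finset ℕ) (hJ : J.Nonempty) :
    ∑ B ∈ J, 1 / ((B : ℝ) + 1) ≤ 1 + Real.log J.card := by
  have h1 := cb1_sum_le J.card J rfl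
  have h2 := harmonic_le_one_add_log J.card
  have h3 : ((harmonic J.card : ℚ) : ℝ) = ∑ i ∈ Finset.range J.card, 1 / ((i : ℝ) + 1) := by
    unfold harmonic
    push_cast
    refine Finset.sum_congr rfl ?_
    intro i _
    rw [one_div]
  rw [h3] at h2
  exact h1.trans h2

/-- [IDE-CB1] **Weighted count of a set of good pairs, first half** (edges with `m' ≤ m`).

`a, b` the common structure, `X = 2^A` the size of `n = rd v a`, `2^{A'}` the size of `n' = rd w b`,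
`J` a set containing all the dyadic sizes of `d' = rd b w`.

PROOF.  By `good_struct` `m = rd v w = α n d'`, `m' = rd w v = β n' d` with `α = rd a b`,
`β = rd b a`, `n = rd v a`, `d = rd a v ∈ Sq a`, `n' = rd w b`, `d' = rd b w ∈ Sq b`, and `e = (v, w)` is
determined by `(n, d, n', d')` (`v d = a n`, `w d' = b n'`).  Fix `(n', d)`: the pairs `(n, d')` with
`log₂ d' = B` satisfy the hypotheses of `two_var` with `ϑ = γ β n' d` (`nd (-y) = nd y`), since
`max (m, m') = m = α n d'`.  So `∑ pb b d' ≤ C 2^A R^{-1/512}/(B+1)`; sum over `B ∈ J`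
(`sum_inv_le`), over `d ∈ Sq a` with weight `pb a d` (`pb_sum`) and over the `2^{A'}` numbers `n'`. -/
theorem cell_weight :
    ∃ C : ℝ, 0 < C ∧ ∀ (γ R : ℝ) (a b A A' : ℕ) (E : Finset (ℕ × ℕ)) (J : Finset ℕ), 1 ≤ R →
      0 < a → 0 < b → (rd a b : ℝ) ≤ R ^ 16 → J.Nonempty →
      (∀ e ∈ E, 0 < e.1 ∧ 0 < e.2 ∧ Good a b e.1 e.2 ∧ EdI γ R e ∧ rd e.2 e.1 ≤ rd e.1 e.2 ∧
        2 ^ A ≤ rd e.1 a ∧ rd e.1 a < 2 ^ (A + 1) ∧
        2 ^ A' ≤ rd e.2 b ∧ rd e.2 b < 2 ^ (A' + 1) ∧ Nat.log 2 (rd b e.2) ∈ J) →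
      ∑ e ∈ E, pb a (rd a e.1) * pb b (rd b e.2) ≤
        C * 2 ^ (A + A') * R ^ (-(1 : ℝ) / 512) * (1 + Real.log J.card) := by
  obtain ⟨C, hC, hmain⟩ := two_var
  refine ⟨C, hC, ?_⟩
  intro γ R a b A A' E J hR ha hb hα hJ hE
  have hR0 : 0 < R := by linarith
  set key : ℕ × ℕ → (ℕ × ℕ) × ℕ := fun e => ((rd e.2 b, rd a e.1), Nat.log 2 (rd b e.2)) with hkey
  set T : Finset ((ℕ × ℕ) × ℕ) := (Finset.Ico (2 ^ A') (2 ^ (A' + 1)) ×ˢ Sq a) ×ˢ J with hT
  have hst : ∀ e ∈ E, Nat.lcm e.1 e.2 = Nat.lcm a b * rd e.1 a * rd e.2 b ∧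
      rd e.1 e.2 = rd a b * rd e.1 a * rd b e.2 ∧
      rd e.2 e.1 = rd b a * rd e.2 b * rd a e.1 ∧
      Squarefree (rd a e.1) ∧ Squarefree (rd b e.2) := by
    intro e he
    obtain ⟨h1, h2, h3, -⟩ := hE e he
    exact good_struct a b e.1 e.2 ha hb h1 h2 h3
  have hdvd : ∀ x y : ℕ, rd x y ∣ x := fun x y => Dvd.intro _ (rd_mul_gcd x y)
  have hmaps : ∀ e ∈ E, key e ∈ T := by
    intro e he
    obtain ⟨h1, h2, h3, h4, h5, h6, h7, h8, h9, h10⟩ := hE e he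
    obtain ⟨-, -, -, s4, s5⟩ := hst e he
    simp only [hkey, hT, Finset.mem_product, Finset.mem_Ico]
    refine ⟨⟨⟨h8, h9⟩, ?_⟩, h10⟩
    unfold Sq
    rw [Finset.mem_filter, Nat.mem_divisors]
    exact ⟨⟨hdvd _ _, ha.ne'⟩, s4⟩
  rw [← Finset.sum_fiberwise_of_maps_to hmaps]
  have hin : ∀ t ∈ T, ∑ e ∈ E.filter (fun e => key e = t), pb a (rd a e.1) * pb b (rd b e.2) ≤
      pb a t.1.2 * (C * 2 ^ A * R ^ (-(1 : ℝ) / 512) / ((t.2 : ℝ) + 1)) := by
    intro t ht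
    set Fi := E.filter (fun e => key e = t) with hFi
    have hmem : ∀ e ∈ Fi, e ∈ E ∧ rd e.2 b = t.1.1 ∧ rd a e.1 = t.1.2 ∧
        Nat.log 2 (rd b e.2) = t.2 := by
      intro e he
      rw [hFi, Finset.mem_filter] at he
      obtain ⟨h1, h2⟩ := he
      simp only [hkey] at h2
      refine ⟨h1, ?_, ?_, ?_⟩
      · rw [← h2]
      · rw [← h2]
      · rw [← h2]
    have e1 : ∑ e ∈ Fi, pb a (rd a e.1) * pb b (rd b e.2) =
        pb a t.1.2 * ∑ e ∈ Fi, pb b (rd b e.2) := by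
      rw [Finset.mul_sum]
      refine Finset.sum_congr rfl ?_
      intro e he
      rw [(hmem e he).2.2.1]
    rw [e1]
    apply mul_le_mul_of_nonneg_left _ (pb_nonneg _ _)
    set g : ℕ × ℕ → ℕ × ℕ := fun e => (rd e.1 a, rd b e.2) with hg
    have hinj : Set.InjOn g Fi := by
      intro e he f hf hef
      have he' := hmem e he
      have hf' := hmem f hf
      simp only [hg, Prod.mk.injEq] at hef
      obtain ⟨q1, q2⟩ := hef
      have p1 := rd_mul a e.1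
      have p2 := rd_mul a f.1
      have p3 := rd_mul b e.2
      have p4 := rd_mul b f.2
      rw [he'.2.2.1] at p1
      rw [hf'.2.2.1] at p2
      rw [he'.2.1] at p3
      rw [hf'.2.1] at p4
      have d1 : 0 < t.1.2 := by rw [← he'.2.2.1]; exact rd_pos ha
      have d2 : 0 < rd b f.2 := rd_pos hb
      have x1 : e.1 = f.1 := by
        apply Nat.eq_of_mul_eq_mul_right d1
        rw [p1, p2, q1]
      have x2 : e.2 = f.2 := by
        apply Nat.eq_of_mul_eq_mul_right d2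
        rw [p4, ← p3, q2]
      exact Prod.ext x1 x2
    have e2 : ∑ e ∈ Fi, pb b (rd b e.2) = ∑ q ∈ Fi.image g, pb b q.2 := by
      rw [Finset.sum_image hinj]
    rw [e2]
    apply hmain γ R (γ * ((rd b a : ℝ) * t.1.1 * t.1.2)) (rd a b) b A t.2 (Fi.image g) hR
      (rd_pos ha) hα hb
    intro q hq
    rw [Finset.mem_image] at hq
    obtain ⟨e, he, rfl⟩ := hq
    obtain ⟨heE, k1, k2, k3⟩ := hmem e he
    obtain ⟨h1, h2, h3, h4, h5, h6, h7, h8, h9, h10⟩ := hE e heE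
    obtain ⟨s1, s2, s3, s4, s5⟩ := hst e heE
    obtain ⟨g1, g2, g3, g4, g5⟩ := h4
    have hmax : max (rd e.1 e.2) (rd e.2 e.1) = rd e.1 e.2 := max_eq_left h5
    have hmaxR : max (rd e.1 e.2 : ℝ) (rd e.2 e.1 : ℝ) = (rd e.1 e.2 : ℝ) :=
      max_eq_left (by exact_mod_cast h5)
    rw [hmax] at g3
    rw [hmaxR] at g2
    have hd'0 : rd b e.2 ≠ 0 := (rd_pos hb).ne'
    have l1 : 2 ^ t.2 ≤ rd b e.2 := by rw [← k3]; exact Nat.pow_log_le_self 2 hd'0
    have l2 : rd b e.2 < 2 ^ (t.2 + 1) := by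
      rw [← k3]; exact Nat.lt_pow_succ_log_self (by norm_num) _
    simp only [hg]
    refine ⟨h6, h7, ?_, l1, l2, ?_, ?_, ?_, ?_⟩
    · unfold Sq
      rw [Finset.mem_filter, Nat.mem_divisors]
      exact ⟨⟨hdvd _ _, hb.ne'⟩, s5⟩
    · have c1 : (rd e.1 e.2 : ℝ) = (rd a b : ℝ) * rd e.1 a * rd b e.2 := by
        rw [s2]; push_cast; ring
      have c2 : (rd e.2 e.1 : ℝ) = (rd b a : ℝ) * t.1.1 * t.1.2 := by
        rw [s3, k1, k2]; push_cast; ring
      rw [← nd_neg]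
      have c3 : -(γ * ((rd a b : ℝ) * rd e.1 a * rd b e.2) - γ * ((rd b a : ℝ) * t.1.1 * t.1.2)) =
          γ * ((rd e.2 e.1 : ℝ) - rd e.1 e.2) := by
        rw [c1, c2]; ring
      rw [c3]
      exact g1
    · have c1 : (rd e.1 e.2 : ℝ) = (rd a b : ℝ) * rd e.1 a * rd b e.2 := by
        rw [s2]; push_cast; ring
      rw [← c1]; exact g2
    · rw [← s2]; exact g3
    · rw [← s2]; exact g4
  refine (Finset.sum_le_sum hin).trans ?_
  rw [hT, Finset.sum_product]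
  have hJs := sum_inv_le J hJ
  set c := C * 2 ^ A * R ^ (-(1 : ℝ) / 512) with hc
  have hc0 : 0 ≤ c := by positivity
  have e3 : ∀ x : ℕ × ℕ, ∑ B ∈ J, pb a x.2 * (c / ((B : ℝ) + 1)) =
      pb a x.2 * (c * ∑ B ∈ J, 1 / ((B : ℝ) + 1)) := by
    intro x
    rw [Finset.mul_sum, Finset.mul_sum]
    refine Finset.sum_congr rfl ?_
    intro B _
    ring
  simp only [e3]
  rw [Finset.sum_product]
  simp only [← Finset.sum_mul]
  rw [pb_sum a ha, Finset.sum_const, Nat.card_Ico]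
  have e4 : 2 ^ (A' + 1) - 2 ^ A' = 2 ^ A' := by
    rw [pow_succ]; omega
  rw [e4, nsmul_eq_mul, mul_one]
  push_cast
  have h20 : (0 : ℝ) ≤ 2 ^ A' := by positivity
  calc (2 : ℝ) ^ A' * (c * ∑ B ∈ J, 1 / ((B : ℝ) + 1))
      ≤ 2 ^ A' * (c * (1 + Real.log J.card)) :=
        mul_le_mul_of_nonneg_left (mul_le_mul_of_nonneg_left hJs hc0) h20
    _ = C * 2 ^ (A + A') * R ^ (-(1 : ℝ) / 512) * (1 + Real.log J.card) := by
        rw [hc, pow_add]; ring

end Pool.Agent.IDE
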