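import Pool.Agent.IDE.CB1

set_option autoImplicit false

namespace Pool.Agent.IDE

open Finset Pool.Agent.IDS

private lemma cb1b_rad (b : ℕ) (hb : 0 < b) :
    ∑ p ∈ b.primeFactors, Real.log p ≤ Real.log b := by
  have h1 : ∏ p ∈ b.primeFactors, (p : ℝ) ≤ b := by
    have h2 := Nat.le_of_dvd hb (Nat.prod_primeFactors_dvd b)
    have h2' : ((∏ p ∈ b.primeFactors, p : ℕ) : ℝ) ≤ b := by exact_mod_cast h2
    rwa [Nat.cast_prod] at h2'
  have h3 : ∀ p ∈ b.primeFactors, (p : ℝ) ≠ 0 := fun p hp => by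
    exact_mod_cast (Nat.prime_of_mem_primeFactors hp).ne_zero
  rw [← Real.log_prod h3]
  refine Real.log_le_log ?_ h1
  exact Finset.prod_pos fun p hp => by
    exact_mod_cast (Nat.prime_of_mem_primeFactors hp).pos

private lemma cb1b_primes (b : ℕ) (hb : 0 < b) :
    ∑ p ∈ b.primeFactors, Real.log p / p ≤ 6 * (1 + Real.log (1 + Real.log b)) := by
  classical
  have hb1 : (1 : ℝ) ≤ b := by exact_mod_cast hb
  set y : ℝ := Real.log b with hy
  have hy0 : 0 ≤ y := Real.log_nonneg hb1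
  have hL0 : 0 ≤ Real.log (1 + y) := Real.log_nonneg (by linarith)
  have hrad := cb1b_rad b hb
  rw [← hy] at hrad
  by_cases hy1 : 1 ≤ y
  · have hs := Finset.sum_filter_add_sum_filter_not b.primeFactors (fun p : ℕ => (p : ℝ) ≤ y)
      (fun p : ℕ => Real.log p / p)
    have h1 := cheb_log y hy1 (b.primeFactors.filter (fun p : ℕ => (p : ℝ) ≤ y))
      (fun p hp => ⟨Nat.prime_of_mem_primeFactors (mem_filter.1 hp).1, (mem_filter.1 hp).2⟩)
    have h2 : ∑ p ∈ b.primeFactors.filter (fun p : ℕ => ¬ (p : ℝ) ≤ y), Real.log p / p ≤ 1 := by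
      have h3 : ∑ p ∈ b.primeFactors.filter (fun p : ℕ => ¬ (p : ℝ) ≤ y), Real.log p / p ≤
          ∑ p ∈ b.primeFactors.filter (fun p : ℕ => ¬ (p : ℝ) ≤ y), Real.log p / y := by
        refine Finset.sum_le_sum fun p hp => ?_
        rw [mem_filter] at hp
        have hp1 : (1 : ℝ) ≤ p := by
          exact_mod_cast (Nat.prime_of_mem_primeFactors hp.1).one_lt.le
        exact div_le_div_of_nonneg_left (Real.log_nonneg hp1) (by linarith)
          (le_of_lt (not_le.1 hp.2))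
      refine h3.trans ?_
      rw [← Finset.sum_div, div_le_one (by linarith)]
      refine le_trans ?_ hrad
      refine Finset.sum_le_sum_of_subset_of_nonneg (Finset.filter_subset _ _) ?_
      intro p hp _
      have hp1 : (1 : ℝ) ≤ p := by
        exact_mod_cast (Nat.prime_of_mem_primeFactors hp).one_lt.le
      exact Real.log_nonneg hp1
    have h4 : Real.log y ≤ Real.log (1 + y) := Real.log_le_log (by linarith) (by linarith)
    linarith
  · push Not at hy1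
    have h5 : ∑ p ∈ b.primeFactors, Real.log p / p ≤ ∑ p ∈ b.primeFactors, Real.log p := by
      refine Finset.sum_le_sum fun p hp => ?_
      have hp1 : (1 : ℝ) ≤ p := by
        exact_mod_cast (Nat.prime_of_mem_primeFactors hp).one_lt.le
      exact div_le_self (Real.log_nonneg hp1) hp1
    linarith

/-- [IDE-CB1b] **Mean of the logarithm.**

PROOF.  `∑_{o ∈ Sq b} pb b o log o = ∑_{p ∣ b} log p ∑_{o : p ∣ o} pb b o = ∑_{p ∣ b} (log p)/p`
(under `pb` the prime `p ∣ b` divides `o` with probability `1/p`: the sum of `pb b o` over the `o ∈ Sq b`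
with `p ∣ o` is `1/p`, e.g. from the product formula; `≤ 2/p` is enough and follows from
`pb_mul_prime` and `pb_sum`; then the constant below still holds).  With `y = log b ≥ 3`:
`∑_{p ≤ y} log p/p ≤ 5 (1 + log y)` (`cheb_log`); the `p ∣ b` with `p > y` number `≤ log b/log y`, and
`log p/p ≤ log y/y` for them, so they contribute `≤ log b/y = 1`.  If `log b < 3`:
`∑_{p∣b} log p/p ≤ (1/2) ∑_{p ∣ b} log p ≤ 3/2`.  In total (with the factor `2`)
`≤ 12 (1 + log (1 + log b))`. -/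
theorem log_mean (b : ℕ) (hb : 0 < b) :
    ∑ o ∈ Sq b, pb b o * Real.log o ≤ 12 * (1 + Real.log (1 + Real.log b)) := by
  classical
  have h1 : ∀ o ∈ Sq b, pb b o * Real.log o =
      ∑ p ∈ o.primeFactors, pb b o * Real.log p := by
    intro o ho
    rw [Sq, mem_filter, Nat.mem_divisors] at ho
    have h2 : ∏ p ∈ o.primeFactors, p = o := Nat.prod_primeFactors_of_squarefree ho.2
    have h3 : Real.log o = ∑ p ∈ o.primeFactors, Real.log p := by
      conv_lhs => rw [← h2]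
      rw [Nat.cast_prod, Real.log_prod]
      intro p hp
      exact_mod_cast (Nat.prime_of_mem_primeFactors hp).ne_zero
    rw [h3, Finset.mul_sum]
  rw [Finset.sum_congr rfl h1]
  have h4 : ∑ o ∈ Sq b, ∑ p ∈ o.primeFactors, pb b o * Real.log p =
      ∑ p ∈ b.primeFactors, ∑ o ∈ (Sq b).filter (fun o => p ∣ o), pb b o * Real.log p := by
    apply Finset.sum_comm'
    intro o p
    simp only [Sq, mem_filter, Nat.mem_divisors, Nat.mem_primeFactors]
    constructor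
    · rintro ⟨⟨⟨h5, h6⟩, h7⟩, h8, h9, h10⟩
      exact ⟨⟨⟨⟨h5, h6⟩, h7⟩, h9⟩, h8, h9.trans h5, h6⟩
    · rintro ⟨⟨⟨⟨h5, h6⟩, h7⟩, h8⟩, h9, h10, h11⟩
      exact ⟨⟨⟨h5, h6⟩, h7⟩, h9, h8, fun h => by simp [h] at h7⟩
  rw [h4]
  have h5 : ∀ p ∈ b.primeFactors, ∑ o ∈ (Sq b).filter (fun o => p ∣ o), pb b o * Real.log p ≤
      2 * (Real.log p / p) := by
    intro p hp
    have hpp := Nat.prime_of_mem_primeFactors hp
    have hp1 : (1 : ℝ) < p := by exact_mod_cast hpp.one_lt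
    have hlog : 0 ≤ Real.log p := Real.log_nonneg hp1.le
    have h6 : ∀ o ∈ (Sq b).filter (fun o => p ∣ o), pb b o ≤ pb b (o / p) * (2 / p) := by
      intro o ho
      rw [mem_filter] at ho
      have h7 : p * (o / p) = o := Nat.mul_div_cancel' ho.2
      have h8 := ho.1
      have hsq : Squarefree (p * (o / p)) := by
        rw [h7]; rw [Sq, mem_filter] at h8; exact h8.2
      have h9 : ¬ p ∣ o / p := by
        intro h
        have h10 : p * p ∣ p * (o / p) := mul_dvd_mul_left p h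
        exact hpp.one_lt.ne' (Nat.isUnit_iff.1 (hsq p h10))
      have h10 := pb_mul_prime b (o / p) p hpp h9 hb (by rw [h7]; exact h8)
      rwa [h7] at h10
    have h7 : ∑ o ∈ (Sq b).filter (fun o => p ∣ o), pb b (o / p) ≤ 1 := by
      have hinj : Set.InjOn (fun o => o / p) ((Sq b).filter (fun o => p ∣ o) : Finset ℕ) := by
        intro o ho o' ho' h
        simp only [coe_filter, Set.mem_ofPred_eq] at ho ho'
        have e1 : p * (o / p) = o := Nat.mul_div_cancel' ho.2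
        have e2 : p * (o' / p) = o' := Nat.mul_div_cancel' ho'.2
        have e3 : o / p = o' / p := h
        rw [← e1, ← e2, e3]
      rw [← Finset.sum_image (f := fun o' => pb b o') hinj, ← pb_sum b hb]
      refine Finset.sum_le_sum_of_subset_of_nonneg ?_ (fun o _ _ => pb_nonneg b o)
      intro o' ho'
      rw [mem_image] at ho'
      obtain ⟨o, ho, rfl⟩ := ho'
      rw [mem_filter, Sq, mem_filter, Nat.mem_divisors] at ho
      have e4 : o / p ∣ o := Nat.div_dvd_of_dvd ho.2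
      rw [Sq, mem_filter, Nat.mem_divisors]
      exact ⟨⟨e4.trans ho.1.1.1, ho.1.1.2⟩, ho.1.2.squarefree_of_dvd e4⟩
    calc ∑ o ∈ (Sq b).filter (fun o => p ∣ o), pb b o * Real.log p
        ≤ ∑ o ∈ (Sq b).filter (fun o => p ∣ o), pb b (o / p) * (2 / p) * Real.log p :=
          Finset.sum_le_sum fun o ho => mul_le_mul_of_nonneg_right (h6 o ho) hlog
      _ = (∑ o ∈ (Sq b).filter (fun o => p ∣ o), pb b (o / p)) * (2 * (Real.log p / p)) := by
          rw [Finset.sum_mul]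
          exact Finset.sum_congr rfl fun o _ => by ring
      _ ≤ 1 * (2 * (Real.log p / p)) := mul_le_mul_of_nonneg_right h7 (by positivity)
      _ = _ := one_mul _
  refine (Finset.sum_le_sum h5).trans ?_
  rw [← Finset.mul_sum]
  have := cb1b_primes b hb
  linarith

private lemma cb1b_tail (b k : ℕ) (hb : 0 < b) (hbk : b ≤ 2 ^ k) (T : ℝ) (hT : 0 < T) :
    ∑ o ∈ (Sq b).filter (fun o => T < Nat.log 2 o), pb b o ≤
      18 * (1 + Real.log ((k : ℝ) + 1)) / T := by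
  classical
  have hlog2 : 0.6931471803 < Real.log 2 := Real.log_two_gt_d9
  have h1 : ∑ o ∈ (Sq b).filter (fun o => T < Nat.log 2 o), pb b o * (T * Real.log 2) ≤
      12 * (1 + Real.log (1 + Real.log b)) := by
    refine le_trans ?_ (log_mean b hb)
    calc ∑ o ∈ (Sq b).filter (fun o => T < Nat.log 2 o), pb b o * (T * Real.log 2)
        ≤ ∑ o ∈ (Sq b).filter (fun o => T < Nat.log 2 o), pb b o * Real.log o := by
          refine Finset.sum_le_sum fun o ho => mul_le_mul_of_nonneg_left ?_ (pb_nonneg b o)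
          rw [mem_filter] at ho
          have ho0 : o ≠ 0 := by
            rintro rfl
            have := ho.1
            simp [Sq] at this
          have h2 : 2 ^ Nat.log 2 o ≤ o := Nat.pow_log_le_self 2 ho0
          have h3 : ((2 : ℝ) ^ Nat.log 2 o) ≤ o := by exact_mod_cast h2
          have h4 := Real.log_le_log (by positivity) h3
          rw [Real.log_pow] at h4
          have h5 : T * Real.log 2 ≤ (Nat.log 2 o : ℝ) * Real.log 2 :=
            mul_le_mul_of_nonneg_right ho.2.le (by linarith)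
          linarith
      _ ≤ _ := by
          refine Finset.sum_le_sum_of_subset_of_nonneg (Finset.filter_subset _ _) ?_
          intro o ho _
          refine mul_nonneg (pb_nonneg b o) (Real.log_natCast_nonneg o)
  rw [← Finset.sum_mul] at h1
  have hb1 : (1 : ℝ) ≤ b := by exact_mod_cast hb
  have h6 : Real.log b ≤ k := by
    have h7 : (b : ℝ) ≤ 2 ^ k := by exact_mod_cast hbk
    have h8 := Real.log_le_log (by linarith) h7
    rw [Real.log_pow] at h8
    have h9 : Real.log 2 ≤ 1 := by linarith [Real.log_two_lt_d9]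
    have h10 : (k : ℝ) * Real.log 2 ≤ k * 1 := mul_le_mul_of_nonneg_left h9 (Nat.cast_nonneg k)
    linarith
  have h7 : Real.log (1 + Real.log b) ≤ Real.log ((k : ℝ) + 1) := by
    refine Real.log_le_log ?_ (by linarith)
    have := Real.log_nonneg hb1
    linarith
  have hk0 : 0 ≤ Real.log ((k : ℝ) + 1) := Real.log_nonneg (by
    have : (0 : ℝ) ≤ k := Nat.cast_nonneg k
    linarith)
  rw [le_div_iff₀ hT]
  set s := ∑ o ∈ (Sq b).filter (fun o => T < Nat.log 2 o), pb b o with hs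
  have hs0 : 0 ≤ s := Finset.sum_nonneg fun o _ => pb_nonneg b o
  have h8 : s * T * Real.log 2 ≤ 12 * (1 + Real.log ((k : ℝ) + 1)) := by nlinarith
  have h9 : s * T * 0.69 ≤ s * T * Real.log 2 :=
    mul_le_mul_of_nonneg_left (by linarith) (mul_nonneg hs0 hT.le)
  linarith

private lemma cb1b_second (a b A A' : ℕ) (E : Finset (ℕ × ℕ)) (O : Finset ℕ) (ha : 0 < a)
    (hb : 0 < b)
    (hE : ∀ e ∈ E, 0 < e.1 ∧ 0 < e.2 ∧ Good a b e.1 e.2 ∧
        2 ^ A ≤ rd e.1 a ∧ rd e.1 a < 2 ^ (A + 1) ∧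
        2 ^ A' ≤ rd e.2 b ∧ rd e.2 b < 2 ^ (A' + 1) ∧ rd b e.2 ∈ O) :
    ∑ e ∈ E, pb a (rd a e.1) * pb b (rd b e.2) ≤
      2 ^ (A + A') * ∑ o ∈ O, pb b o := by
  classical
  set Φ : ℕ × ℕ → (ℕ × ℕ) × (ℕ × ℕ) :=
    fun e => ((rd e.1 a, rd a e.1), (rd e.2 b, rd b e.2)) with hΦ
  set F : (ℕ × ℕ) × (ℕ × ℕ) → ℝ := fun z => pb a z.1.2 * pb b z.2.2 with hF
  have hinj : Set.InjOn Φ (E : Set (ℕ × ℕ)) := by
    intro e he e' he' h
    have he := hE e he
    have he' := hE e' he'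
    simp only [hΦ, Prod.mk.injEq] at h
    obtain ⟨⟨h1, h2⟩, h3, h4⟩ := h
    have k1 := rd_mul a e.1
    have k2 := rd_mul a e'.1
    have k3 := rd_mul b e.2
    have k4 := rd_mul b e'.2
    have r1 : 0 < rd a e'.1 := rd_pos ha
    have r2 : 0 < rd b e'.2 := rd_pos hb
    have m1 : e.1 = e'.1 := by
      apply Nat.eq_of_mul_eq_mul_right r1
      rw [← h2, k1, h1, ← k2, h2]
    have m2 : e.2 = e'.2 := by
      apply Nat.eq_of_mul_eq_mul_right r2
      rw [← h4, k3, h3, ← k4, h4]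
    exact Prod.ext m1 m2
  have h1 : ∑ e ∈ E, pb a (rd a e.1) * pb b (rd b e.2) = ∑ z ∈ E.image Φ, F z := by
    rw [Finset.sum_image hinj]
  rw [h1]
  have hsub : E.image Φ ⊆ ((Ico (2 ^ A) (2 ^ (A + 1))) ×ˢ (Sq a)) ×ˢ
      ((Ico (2 ^ A') (2 ^ (A' + 1))) ×ˢ O) := by
    intro z hz
    rw [mem_image] at hz
    obtain ⟨e, he, rfl⟩ := hz
    obtain ⟨p1, p2, p3, p4, p5, p6, p7, p8⟩ := hE e he
    have hs := good_struct a b e.1 e.2 ha hb p1 p2 p3
    simp only [hΦ, mem_product, mem_Ico]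
    refine ⟨⟨⟨p4, p5⟩, ?_⟩, ⟨p6, p7⟩, p8⟩
    rw [Sq, mem_filter, Nat.mem_divisors]
    refine ⟨⟨?_, ha.ne'⟩, hs.2.2.2.1⟩
    exact ⟨Nat.gcd a e.1, (rd_mul_gcd a e.1).symm⟩
  refine (Finset.sum_le_sum_of_subset_of_nonneg hsub fun z _ _ =>
    mul_nonneg (pb_nonneg _ _) (pb_nonneg _ _)).trans ?_
  have h2 : ∑ z ∈ ((Ico (2 ^ A) (2 ^ (A + 1))) ×ˢ (Sq a)) ×ˢ
      ((Ico (2 ^ A') (2 ^ (A' + 1))) ×ˢ O), F z =
      (∑ x ∈ (Ico (2 ^ A) (2 ^ (A + 1))) ×ˢ (Sq a), pb a x.2) *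
        ∑ y ∈ (Ico (2 ^ A') (2 ^ (A' + 1))) ×ˢ O, pb b y.2 := by
    rw [Finset.sum_mul_sum, Finset.sum_product]
  have h3 : ∑ x ∈ (Ico (2 ^ A) (2 ^ (A + 1))) ×ˢ (Sq a), pb a x.2 = 2 ^ A := by
    rw [Finset.sum_product]
    simp only [pb_sum a ha, Finset.sum_const, Nat.card_Ico, nsmul_eq_mul, mul_one]
    have : 2 ^ (A + 1) - 2 ^ A = 2 ^ A := by rw [pow_succ]; omega
    rw [this]; norm_num
  have h4 : ∑ y ∈ (Ico (2 ^ A') (2 ^ (A' + 1))) ×ˢ O, pb b y.2 = 2 ^ A' * ∑ o ∈ O, pb b o := by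
    rw [Finset.sum_product]
    simp only [Finset.sum_const, Nat.card_Ico, nsmul_eq_mul]
    have : 2 ^ (A' + 1) - 2 ^ A' = 2 ^ A' := by rw [pow_succ]; omega
    rw [this]; norm_num
  rw [h2, h3, h4, pow_add, mul_assoc]

/-- [IDE-CB1b] **Weighted count of a set of good pairs, without restriction on the sizes of
`d' = rd b w`**, but `b ≤ 2^k`.

PROOF.  Let `T = R^{1/1024} (1 + log (k+1)) ≥ 1`.  Edges with `log₂ d' ≤ T`: `cell_weight` with
`J = range (⌊T⌋₊ + 1)`: `≤ C 2^{A+A'} R^{-1/512} (1 + log (T + 1))`, and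
`1 + log (T+1) ≤ C' R^{1/1024} (1 + log (1 + log (k+1)))`.  Edges with `log₂ d' > T`: the weights sum up to
at most `2^{A+A'} ∑_{o ∈ Sq b, log₂ o > T} pb b o` (`e` is determined by `(n, d, n', d')`, see
`cell_weight`; `∑ pb a d ≤ 1`), and by `log_mean` (Markov)
`≤ 2^{A+A'} 12 (1 + log (1 + log b))/(T log 2)`, `log b ≤ k log 2`, so
`1 + log (1 + log b) ≤ 1 + log (1 + k)`: this is `≤ 2^{A+A'} · 18 R^{-1/1024}`. -/
theorem cell_weight_log :
    ∃ C : ℝ, 0 < C ∧ ∀ (γ R : ℝ) (a b A A' k : ℕ) (E : Finset (ℕ × ℕ)), 1 ≤ R →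
      0 < a → 0 < b → (rd a b : ℝ) ≤ R ^ 16 → b ≤ 2 ^ k →
      (∀ e ∈ E, 0 < e.1 ∧ 0 < e.2 ∧ Good a b e.1 e.2 ∧ EdI γ R e ∧ rd e.2 e.1 ≤ rd e.1 e.2 ∧
        2 ^ A ≤ rd e.1 a ∧ rd e.1 a < 2 ^ (A + 1) ∧
        2 ^ A' ≤ rd e.2 b ∧ rd e.2 b < 2 ^ (A' + 1)) →
      ∑ e ∈ E, pb a (rd a e.1) * pb b (rd b e.2) ≤
        C * 2 ^ (A + A') * R ^ (-(1 : ℝ) / 1024) *
          (1 + Real.log (1 + Real.log ((k : ℝ) + 1))) := by
  classical
  obtain ⟨C, hC, hcw⟩ := cell_weight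
  refine ⟨2 * C + 18, by positivity, ?_⟩
  intro γ R a b A A' k E hR ha hb hrd hbk hE
  have hR0 : 0 < R := by linarith
  set u : ℝ := R ^ ((1 : ℝ) / 1024) with hu
  have hu1 : 1 ≤ u := Real.one_le_rpow hR (by norm_num)
  set l : ℝ := 1 + Real.log ((k : ℝ) + 1) with hl
  have hk0 : 0 ≤ Real.log ((k : ℝ) + 1) := Real.log_nonneg (by
    have : (0 : ℝ) ≤ k := Nat.cast_nonneg k
    linarith)
  have hl1 : 1 ≤ l := by linarith
  have hll : 0 ≤ Real.log l := Real.log_nonneg hl1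
  set T : ℝ := u * l with hT
  have hT1 : 1 ≤ T := by nlinarith
  have hT0 : 0 < T := by linarith
  set E₁ := E.filter (fun e => (Nat.log 2 (rd b e.2) : ℝ) ≤ T) with hE₁
  set E₂ := E.filter (fun e => ¬ (Nat.log 2 (rd b e.2) : ℝ) ≤ T) with hE₂
  have hsplit : ∑ e ∈ E, pb a (rd a e.1) * pb b (rd b e.2) =
      ∑ e ∈ E₁, pb a (rd a e.1) * pb b (rd b e.2) +
        ∑ e ∈ E₂, pb a (rd a e.1) * pb b (rd b e.2) :=
    (Finset.sum_filter_add_sum_filter_not E _ _).symm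
  -- first part
  have hf : ∑ e ∈ E₁, pb a (rd a e.1) * pb b (rd b e.2) ≤
      C * 2 ^ (A + A') * R ^ (-(1 : ℝ) / 512) *
        (1 + Real.log ((range (⌊T⌋₊ + 1)).card : ℝ)) := by
    refine hcw γ R a b A A' E₁ (range (⌊T⌋₊ + 1)) hR ha hb hrd ⟨0, by simp⟩ ?_
    intro e he
    rw [hE₁, mem_filter] at he
    obtain ⟨p1, p2, p3, p4, p5, p6, p7, p8, p9⟩ := hE e he.1
    refine ⟨p1, p2, p3, p4, p5, p6, p7, p8, p9, ?_⟩
    rw [mem_range, Nat.lt_succ_iff]
    exact Nat.le_floor he.2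
  rw [card_range] at hf
  have hlogT : 1 + Real.log (((⌊T⌋₊ + 1 : ℕ) : ℝ)) ≤ 2 * u * (1 + Real.log l) := by
    have g1 : (((⌊T⌋₊ + 1 : ℕ) : ℝ)) ≤ 2 * T := by
      push_cast
      have := Nat.floor_le hT0.le
      linarith
    have g2 : Real.log (((⌊T⌋₊ + 1 : ℕ) : ℝ)) ≤ Real.log (2 * T) :=
      Real.log_le_log (by positivity) g1
    have g3 : Real.log (2 * T) = Real.log 2 + (Real.log u + Real.log l) := by
      rw [Real.log_mul (by norm_num) hT0.ne', hT, Real.log_mul (by linarith) (by linarith)]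
    have g4 : Real.log u ≤ u - 1 := Real.log_le_sub_one_of_pos (by linarith)
    have g5 : Real.log 2 ≤ 1 := by linarith [Real.log_two_lt_d9]
    nlinarith
  have hRR : R ^ (-(1 : ℝ) / 512) * u = R ^ (-(1 : ℝ) / 1024) := by
    rw [hu, ← Real.rpow_add hR0]; norm_num
  have hRn : 0 ≤ R ^ (-(1 : ℝ) / 512) := Real.rpow_nonneg hR0.le _
  have hf2 : ∑ e ∈ E₁, pb a (rd a e.1) * pb b (rd b e.2) ≤
      2 * C * 2 ^ (A + A') * R ^ (-(1 : ℝ) / 1024) * (1 + Real.log l) := by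
    refine hf.trans ?_
    calc C * 2 ^ (A + A') * R ^ (-(1 : ℝ) / 512) * (1 + Real.log (((⌊T⌋₊ + 1 : ℕ) : ℝ)))
        ≤ C * 2 ^ (A + A') * R ^ (-(1 : ℝ) / 512) * (2 * u * (1 + Real.log l)) :=
          mul_le_mul_of_nonneg_left hlogT (by positivity)
      _ = 2 * C * 2 ^ (A + A') * (R ^ (-(1 : ℝ) / 512) * u) * (1 + Real.log l) := by ring
      _ = _ := by rw [hRR]
  -- second part
  have hg : ∑ e ∈ E₂, pb a (rd a e.1) * pb b (rd b e.2) ≤
      2 ^ (A + A') * ∑ o ∈ (Sq b).filter (fun o => T < Nat.log 2 o), pb b o := by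
    refine cb1b_second a b A A' E₂ _ ha hb ?_
    intro e he
    rw [hE₂, mem_filter] at he
    obtain ⟨p1, p2, p3, p4, p5, p6, p7, p8, p9⟩ := hE e he.1
    refine ⟨p1, p2, p3, p6, p7, p8, p9, ?_⟩
    rw [mem_filter, Sq, mem_filter, Nat.mem_divisors]
    have hs := good_struct a b e.1 e.2 ha hb p1 p2 p3
    exact ⟨⟨⟨⟨Nat.gcd b e.2, (rd_mul_gcd b e.2).symm⟩, hb.ne'⟩, hs.2.2.2.2⟩,
      not_le.1 he.2⟩
  have hRinv : R ^ (-(1 : ℝ) / 1024) = 1 / u := by
    rw [hu, one_div, ← Real.rpow_neg hR0.le]; norm_num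
  have hg2 : ∑ e ∈ E₂, pb a (rd a e.1) * pb b (rd b e.2) ≤
      18 * 2 ^ (A + A') * R ^ (-(1 : ℝ) / 1024) * (1 + Real.log l) := by
    refine hg.trans ?_
    have h1 := cb1b_tail b k hb hbk T hT0
    have h2 : 18 * (1 + Real.log ((k : ℝ) + 1)) / T = 18 * (1 / u) := by
      rw [← hl, hT]
      field_simp
    rw [h2] at h1
    rw [hRinv]
    calc (2 : ℝ) ^ (A + A') * ∑ o ∈ (Sq b).filter (fun o => T < Nat.log 2 o), pb b o
        ≤ 2 ^ (A + A') * (18 * (1 / u)) := mul_le_mul_of_nonneg_left h1 (by positivity)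
      _ = 18 * 2 ^ (A + A') * (1 / u) * 1 := by ring
      _ ≤ 18 * 2 ^ (A + A') * (1 / u) * (1 + Real.log l) :=
          mul_le_mul_of_nonneg_left (by linarith) (by positivity)
  have hfin : (1 + Real.log (1 + Real.log ((k : ℝ) + 1))) = 1 + Real.log l := by rw [hl]
  rw [hsplit, hfin]
  linarith

end Pool.Agent.IDE
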