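import Pool.Agent.IDE.CB1b
import Pool.Agent.IDS.C2b
import Pool.Agent.IDS.C5a

set_option autoImplicit false

namespace Pool.Agent.IDE

open Finset Pool.Agent.IDS

private theorem cb2_interp (ε : ℝ) (hε : 0 < ε) (hε1 : ε ≤ 1) (w z σ X K : ℝ) (hw : 0 ≤ w)
    (hz : 1 ≤ z) (hσ : 0 < σ) (hK : 0 ≤ K) (h1 : w * z ^ ε ≤ 1) (hX1 : X ≤ K * w)
    (hX2 : X ≤ K * (w * z * σ)) : X ≤ K * σ ^ ε := by
  have hz0 : 0 < z := by linarith
  have hzε : 0 < z ^ ε := Real.rpow_pos_of_pos hz0 _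
  by_cases hc : 1 ≤ z * σ
  · refine hX1.trans (mul_le_mul_of_nonneg_left ?_ hK)
    have h2 : 1 ≤ z ^ ε * σ ^ ε := by
      rw [← Real.mul_rpow hz0.le hσ.le]
      exact Real.one_le_rpow hc hε.le
    have h3 : z ^ ε * w ≤ z ^ ε * σ ^ ε := by
      rw [mul_comm] at h1
      exact h1.trans h2
    exact le_of_mul_le_mul_left h3 hzε
  · push Not at hc
    refine hX2.trans (mul_le_mul_of_nonneg_left ?_ hK)
    have h2 : z = z ^ ε * z ^ (1 - ε) := by
      rw [← Real.rpow_add hz0]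
      simp
    have h3 : z ≤ σ⁻¹ := by
      rw [le_inv_comm₀ hz0 hσ]
      rw [← one_div, le_div_iff₀ hz0]
      linarith [mul_comm z σ]
    have h4 : z ^ (1 - ε) ≤ (σ⁻¹) ^ (1 - ε) :=
      Real.rpow_le_rpow hz0.le h3 (by linarith)
    have h5 : 0 < z ^ (1 - ε) := Real.rpow_pos_of_pos hz0 _
    calc w * z * σ = (w * z ^ ε) * (z ^ (1 - ε) * σ) := by
          conv_lhs => rw [h2]
          ring
      _ ≤ 1 * (z ^ (1 - ε) * σ) := by
          apply mul_le_mul_of_nonneg_right h1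
          positivity
      _ ≤ (σ⁻¹) ^ (1 - ε) * σ := by
          rw [one_mul]
          exact mul_le_mul_of_nonneg_right h4 hσ.le
      _ = σ ^ ε := by
          rw [Real.inv_rpow hσ.le, ← Real.rpow_neg hσ.le]
          nth_rewrite 2 [← Real.rpow_one σ]
          rw [← Real.rpow_add hσ]
          congr 1
          ring

/-- [IDE-CB2] PROOF.  `tot_le` (IDS.B2): `φ(v) φ(rd a v) ≤ rd v a φ(a)`, so
`φ(v) ≤ rd v a · a · pb a (rd a v)`. -/
theorem tot_le_pb (a v : ℕ) (ha : 0 < a) (hv : 0 < v) :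
    (Nat.totient v : ℝ) ≤ rd v a * a * pb a (rd a v) := by
  unfold pb
  have h := tot_le a v ha hv
  have h1 : (0 : ℝ) < Nat.totient (rd a v) := by
    exact_mod_cast Nat.totient_pos.2 (rd_pos ha)
  have h2 : (Nat.totient v : ℝ) * Nat.totient (rd a v) ≤ rd v a * Nat.totient a := by
    exact_mod_cast h
  have ha' : (0 : ℝ) < a := by exact_mod_cast ha
  have h3 : (rd v a : ℝ) * a * ((Nat.totient a : ℝ) / a / Nat.totient (rd a v)) =
      rd v a * Nat.totient a / Nat.totient (rd a v) := by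
    field_simp
  rw [h3, le_div_iff₀ h1]
  exact h2


private theorem cb2_good_symm {a b v w : ℕ} (h : Good a b v w) : Good b a w v := by
  intro p hp
  have := h p hp
  unfold GoodAt at this ⊢
  omega

private theorem cb2_EdI_symm {γ R : ℝ} {v w : ℕ} (h : EdI γ R (v, w)) : EdI γ R (w, v) := by
  obtain ⟨h1, h2, h3, h4, h5⟩ := h
  refine ⟨?_, ?_, ?_, h5, h4⟩
  · have e : γ * ((rd v w : ℝ) - rd w v) = -(γ * ((rd w v : ℝ) - rd v w)) := by ring
    show nd (γ * ((rd v w : ℝ) - rd w v)) ≤ 2 / R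
    rw [e, nd_neg]
    exact h1
  · show R ^ 80 ≤ (max (rd w v) (rd v w) : ℝ)
    rw [max_comm]
    exact h2
  · show Gf γ R (max (rd w v) (rd v w))
    rw [max_comm]
    exact h3

private theorem cb2_em_swap (μ : ℕ → ℝ) (P : Finset (ℕ × ℕ)) :
    em μ μ (P.image Prod.swap) = em μ μ P := by
  unfold Pool.Agent.IDS.em
  rw [Finset.sum_image (fun x _ y _ h => Prod.swap_injective h)]
  exact Finset.sum_congr rfl fun e _ => mul_comm _ _

/-- the edges with `rd w v ≤ rd v w` -/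
private theorem cb2_half : ∃ C : ℝ, 0 < C ∧ ∀ (ε γ : ℝ) (S : Finset ℕ) (κ : ℕ → ℕ)
    (Ω La μ : ℕ → ℝ), Dat3 ε S κ Ω La μ → ∀ (R : ℝ) (a b A A' k k' : ℕ) (F : Finset (ℕ × ℕ)),
      1 ≤ R → 0 < a → 0 < b → (rd a b : ℝ) ≤ R ^ 16 → b ≤ 2 ^ k' →
      (∀ e ∈ F, e.1 ∈ S ∧ e.2 ∈ S ∧ κ e.1 = k ∧ κ e.2 = k' ∧ Good a b e.1 e.2 ∧ EdI γ R e ∧
        rd e.2 e.1 ≤ rd e.1 e.2 ∧ 2 ^ A ≤ rd e.1 a ∧ rd e.1 a < 2 ^ (A + 1) ∧
        2 ^ A' ≤ rd e.2 b ∧ rd e.2 b < 2 ^ (A' + 1)) →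
      em μ μ F ≤ 12 * C * (Ω k * Ω k') *
        (a * b * 2 ^ (2 * A + 2 * A') * (1 / 2 : ℝ) ^ (k + k')) *
        R ^ (-(1 : ℝ) / 1024) * La k' := by
  classical
  obtain ⟨C1, hC1, hw⟩ := cell_weight
  obtain ⟨C2, hC2, hl⟩ := cell_weight_log
  refine ⟨C1 + C2, by positivity, ?_⟩
  intro ε γ S κ Ω La μ hD R a b A A' k k' F hR ha hb hab hbk hF
  have hR0 : 0 < R := by linarith
  have hσ : 0 < R ^ (-(1 : ℝ) / 1024) := Real.rpow_pos_of_pos hR0 _
  have hΩ1 := hD.Om0 k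
  have hΩ2 := hD.Om0 k'
  have hL2 := hD.L1 k'
  -- the weighted count
  have hcount : ∑ e ∈ F, pb a (rd a e.1) * pb b (rd b e.2) ≤
      (C1 + C2) * 2 ^ (A + A') * R ^ (-(1 : ℝ) / 1024) * (3 * La k') := by
    rcases F.eq_empty_or_nonempty with hFe | hFn
    · rw [hFe, Finset.sum_empty]
      positivity
    rcases hD.LS k' with h1 | h1
    · -- sizes
      set J := F.image (fun e => Nat.log 2 (rd b e.2)) with hJ
      have hJn : J.Nonempty := hFn.image _
      have hJc : (J.card : ℝ) ≤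
          3 * (((S.filter (fun v => κ v = k')).image (Nat.log 2)).card : ℝ) := by
        have e1 : J = (F.image Prod.snd).image (fun w => Nat.log 2 (rd b w)) := by
          rw [hJ, Finset.image_image]
          rfl
        have h2 : ((F.image Prod.snd).image (fun w => Nat.log 2 (rd b w))).card ≤
            3 * ((F.image Prod.snd).image (Nat.log 2)).card := by
          apply few_sizes b A' hb
          intro w hw'
          obtain ⟨e, he, rfl⟩ := Finset.mem_image.1 hw'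
          obtain ⟨g1, g2, g3, g4, g5, g6, g7, g8, g9, g10, g11⟩ := hF e he
          exact ⟨hD.pos _ g2, g10, g11⟩
        have h3 : ((F.image Prod.snd).image (Nat.log 2)).card ≤
            ((S.filter (fun v => κ v = k')).image (Nat.log 2)).card := by
          apply Finset.card_le_card
          apply Finset.image_subset_image
          intro w hw'
          obtain ⟨e, he, rfl⟩ := Finset.mem_image.1 hw'
          obtain ⟨g1, g2, g3, g4, g5, g6, g7, g8, g9, g10, g11⟩ := hF e he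
          exact Finset.mem_filter.2 ⟨g2, g4⟩
        rw [e1]
        have h4 : ((F.image Prod.snd).image (fun w => Nat.log 2 (rd b w))).card ≤
            3 * ((S.filter (fun v => κ v = k')).image (Nat.log 2)).card :=
          h2.trans (Nat.mul_le_mul_left _ h3)
        exact_mod_cast h4
      set s : ℝ := (((S.filter (fun v => κ v = k')).image (Nat.log 2)).card : ℝ) with hs
      have hJ1 : (1 : ℝ) ≤ J.card := by exact_mod_cast hJn.card_pos
      have hs0 : 0 < s := by linarith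
      have hs1 : 1 ≤ s := by
        have : 0 < ((S.filter (fun v => κ v = k')).image (Nat.log 2)).card := by
          rw [hs] at hs0
          exact_mod_cast hs0
        rw [hs]
        exact_mod_cast this
      have hlog3 : Real.log 3 ≤ 2 := by
        have := Real.log_le_sub_one_of_pos (show (0 : ℝ) < 3 by norm_num)
        linarith
      have hlogs : 0 ≤ Real.log s := Real.log_nonneg hs1
      have hlogJ : 1 + Real.log J.card ≤ 3 * La k' := by
        have h2 : Real.log J.card ≤ Real.log (3 * s) := Real.log_le_log (by linarith) hJc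
        rw [Real.log_mul (by norm_num) hs0.ne'] at h2
        linarith
      have h3 := hw γ R a b A A' F J hR ha hb hab hJn (fun e he => by
        obtain ⟨g1, g2, g3, g4, g5, g6, g7, g8, g9, g10, g11⟩ := hF e he
        exact ⟨hD.pos _ g1, hD.pos _ g2, g5, g6, g7, g8, g9, g10, g11,
          Finset.mem_image_of_mem _ he⟩)
      refine h3.trans ?_
      have h4 : R ^ (-(1 : ℝ) / 512) ≤ R ^ (-(1 : ℝ) / 1024) :=
        Real.rpow_le_rpow_of_exponent_le hR (by norm_num)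
      have h5 : 0 ≤ 1 + Real.log J.card := by
        have := Real.log_nonneg hJ1
        linarith
      apply mul_le_mul _ hlogJ h5 (by positivity)
      apply mul_le_mul _ h4 (Real.rpow_nonneg hR0.le _) (by positivity)
      apply mul_le_mul_of_nonneg_right _ (by positivity)
      linarith
    · have h3 := hl γ R a b A A' k' F hR ha hb hab hbk (fun e he => by
        obtain ⟨g1, g2, g3, g4, g5, g6, g7, g8, g9, g10, g11⟩ := hF e he
        exact ⟨hD.pos _ g1, hD.pos _ g2, g5, g6, g7, g8, g9, g10, g11⟩)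
      refine h3.trans ?_
      have hk0 : (0 : ℝ) ≤ k' := Nat.cast_nonneg _
      have h6 : 0 ≤ Real.log ((k' : ℝ) + 1) := Real.log_nonneg (by linarith)
      have h5 : 0 ≤ 1 + Real.log (1 + Real.log ((k' : ℝ) + 1)) := by
        have := Real.log_nonneg (show (1 : ℝ) ≤ 1 + Real.log ((k' : ℝ) + 1) by linarith)
        linarith
      apply mul_le_mul _ (by linarith) h5 (by positivity)
      apply mul_le_mul_of_nonneg_right _ hσ.le
      apply mul_le_mul_of_nonneg_right _ (by positivity)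
      linarith
  -- the masses
  have helt : ∀ e ∈ F, μ e.1 * μ e.2 ≤ (4 * (Ω k * Ω k') * (a * b) * 2 ^ (A + A') *
      (1 / 2 : ℝ) ^ (k + k')) * (pb a (rd a e.1) * pb b (rd b e.2)) := by
    intro e he
    obtain ⟨g1, g2, g3, g4, g5, g6, g7, g8, g9, g10, g11⟩ := hF e he
    have m1 := hD.mu1 _ g1
    have m2 := hD.mu1 _ g2
    rw [g3] at m1
    rw [g4] at m2
    have p1 : 0 ≤ pb a (rd a e.1) := by unfold pb; positivity
    have p2 : 0 ≤ pb b (rd b e.2) := by unfold pb; positivity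
    have t1 : (Nat.totient e.1 : ℝ) ≤ 2 ^ (A + 1) * a * pb a (rd a e.1) := by
      refine (tot_le_pb a e.1 ha (hD.pos _ g1)).trans ?_
      apply mul_le_mul_of_nonneg_right _ p1
      apply mul_le_mul_of_nonneg_right _ (Nat.cast_nonneg _)
      exact_mod_cast g9.le
    have t2 : (Nat.totient e.2 : ℝ) ≤ 2 ^ (A' + 1) * b * pb b (rd b e.2) := by
      refine (tot_le_pb b e.2 hb (hD.pos _ g2)).trans ?_
      apply mul_le_mul_of_nonneg_right _ p2
      apply mul_le_mul_of_nonneg_right _ (Nat.cast_nonneg _)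
      exact_mod_cast g11.le
    have n1 : μ e.1 ≤ Ω k * ((2 ^ (A + 1) * a * pb a (rd a e.1)) * (1 / 2 : ℝ) ^ k) := by
      refine m1.trans ?_
      apply mul_le_mul_of_nonneg_left _ hΩ1
      apply mul_le_mul_of_nonneg_right t1 (by positivity)
    have n2 : μ e.2 ≤ Ω k' * ((2 ^ (A' + 1) * b * pb b (rd b e.2)) * (1 / 2 : ℝ) ^ k') := by
      refine m2.trans ?_
      apply mul_le_mul_of_nonneg_left _ hΩ2
      apply mul_le_mul_of_nonneg_right t2 (by positivity)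
    refine (mul_le_mul n1 n2 (hD.mu0 _) (by positivity)).trans (le_of_eq ?_)
    rw [pow_add (2 : ℝ) A A', pow_succ (2 : ℝ) A, pow_succ (2 : ℝ) A',
      pow_add (1 / 2 : ℝ) k k']
    ring
  have hsum : em μ μ F ≤ (4 * (Ω k * Ω k') * (a * b) * 2 ^ (A + A') *
      (1 / 2 : ℝ) ^ (k + k')) * ∑ e ∈ F, pb a (rd a e.1) * pb b (rd b e.2) := by
    unfold Pool.Agent.IDS.em
    rw [Finset.mul_sum]
    exact Finset.sum_le_sum helt
  refine hsum.trans ((mul_le_mul_of_nonneg_left hcount (by positivity)).trans (le_of_eq ?_))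
  rw [pow_add (2 : ℝ) (2 * A) (2 * A'), pow_add (2 : ℝ) A A', two_mul A, two_mul A',
    pow_add (2 : ℝ) A A, pow_add (2 : ℝ) A' A']
  ring

/-- [IDE-CB2] **Cell bound with alignment** (regime I, `rd a b, rd b a ≤ R^16`).

PROOF.  Let `P = cell a b κ E' A k A' k'`, `L₁ = La k`, `L₂ = La k'` (`P ≠ ∅` without loss of
generality; so `k ≤ k'` and `a, b ≤ lcm a b ≤ lcm v w ≤ 2^k ≤ 2^k'` by `good_struct` and the
hypothesis `hD`).
(1) Trivial bound: IDS `cell_bound` with `c₁ = Ω k, c₂ = Ω k'`: `em P ≤ 16 Ω k Ω k' Q`,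
`Q = a b 2^{2A+2A'} (1/2)^{k+k'}`.
(2) `P = P₁ ∪ P₂`, `P₁` the edges with `rd w v ≤ rd v w`, `P₂` the others.  On `P₁`:
`μ v μ w ≤ Ω k Ω k' (1/2)^{k+k'} φ(v) φ(w) ≤ Ω k Ω k' (1/2)^{k+k'} 2^{A+1} 2^{A'+1} a b pb a (rd a v)
pb b (rd b w)` (`tot_le_pb`).  Use `LS k'` of `Dat3`.  First alternative: `cell_weight` with
`J` = the set of the `log₂ (rd b w)`, `(v, w) ∈ P`, `#J ≤ 3 #(sizes of level k')` (`few_sizes`, as in
IDS `cell_aligned`), `1 + log #J ≤ 3 L₂`.  Second alternative: `cell_weight_log` (`b ≤ 2^k'`).  In both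
cases `em P₁ ≤ 12 C Ω k Ω k' Q R^{-1/1024} L₂`.  `P₂`: the same after exchanging the roles of the two
sides (`Good a b v w ↔ Good b a w v`, `EdI` symmetric: `nd (-y) = nd y`, `max` symmetric; `LS k`,
`a ≤ 2^k`): `em P₂ ≤ 12 C Ω k Ω k' Q R^{-1/1024} L₁`.  So `em P ≤ 24 C Ω k Ω k' Q R^{-1/1024} z`,
`z = L₁ L₂ ≥ 1`; `Ω k Ω k' ≤ z^{-ε}` (`Dat3.Om1`).
(3) As in IDS `cell_aligned`: with `σ = R^{-1/1024}`, `em P ≤ C'' Q z^{-ε} min (1, z σ) ≤ C'' Q σ^ε`
(`0 < ε ≤ 1`). -/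
theorem cell_aligned (ε : ℝ) (hε : 0 < ε) (hε1 : ε ≤ 1) :
    ∃ C : ℝ, 0 < C ∧ ∀ (γ : ℝ) (S : Finset ℕ) (κ : ℕ → ℕ) (Ω La μ : ℕ → ℝ), Dat3 ε S κ Ω La μ →
      ∀ (R : ℝ) (a b : ℕ) (E' : Finset (ℕ × ℕ)), 1 ≤ R → 0 < a → 0 < b →
      (rd a b : ℝ) ≤ R ^ 16 → (rd b a : ℝ) ≤ R ^ 16 → E' ⊆ S ×ˢ S →
      (∀ e ∈ E', Good a b e.1 e.2 ∧ EdI γ R e ∧ κ e.1 ≤ κ e.2 ∧
        (Nat.lcm e.1 e.2 : ℝ) * (1 / 2 : ℝ) ^ κ e.1 ≤ 1) →
      ∀ A k A' k', em μ μ (cell a b κ E' A k A' k') ≤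
        C * R ^ (-ε / 1024) * a * b * 2 ^ (2 * A + 2 * A') * (1 / 2 : ℝ) ^ (k + k') := by
  classical
  obtain ⟨C0, hC0, hhalf⟩ := cb2_half
  refine ⟨16 + 24 * C0, by positivity, ?_⟩
  intro γ S κ Ω La μ hD R a b E' hR ha hb hab hba hE hprop A k A' k'
  have hR0 : 0 < R := by linarith
  set P := cell a b κ E' A k A' k' with hP
  have hPE : P ⊆ E' := Finset.filter_subset _ _
  have hPS : P ⊆ S ×ˢ S := hPE.trans hE
  rcases P.eq_empty_or_nonempty with hPe | hPn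
  · rw [hPe]
    unfold Pool.Agent.IDS.em
    rw [Finset.sum_empty]
    have := Real.rpow_nonneg hR0.le (-ε / 1024)
    positivity
  set σ : ℝ := R ^ (-(1 : ℝ) / 1024) with hσ
  have hσ0 : 0 < σ := Real.rpow_pos_of_pos hR0 _
  set Q : ℝ := a * b * 2 ^ (2 * A + 2 * A') * (1 / 2 : ℝ) ^ (k + k') with hQ
  have hQ0 : 0 ≤ Q := by positivity
  have hΩ1 := hD.Om0 k
  have hΩ2 := hD.Om0 k'
  have hL1 := hD.L1 k
  have hL2 := hD.L1 k'
  have hmem : ∀ e ∈ P, (2 ^ A ≤ rd e.1 a ∧ rd e.1 a < 2 ^ (A + 1) ∧ κ e.1 = k ∧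
      2 ^ A' ≤ rd e.2 b ∧ rd e.2 b < 2 ^ (A' + 1) ∧ κ e.2 = k') :=
    fun e he => (Finset.mem_filter.1 he).2
  have hS1 : ∀ e ∈ P, e.1 ∈ S ∧ e.2 ∈ S := fun e he => Finset.mem_product.1 (hPS he)
  -- sizes of `a`, `b`
  obtain ⟨e0, he0⟩ := hPn
  have hkk : k ≤ k' := by
    have h1 := (hprop e0 (hPE he0)).2.2.1
    rw [(hmem e0 he0).2.2.1, (hmem e0 he0).2.2.2.2.2] at h1
    exact h1
  have hlcm : Nat.lcm a b ≤ 2 ^ k := by
    have h1 := (hprop e0 (hPE he0)).2.2.2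
    rw [(hmem e0 he0).2.2.1] at h1
    have hv := hD.pos _ (hS1 e0 he0).1
    have hw := hD.pos _ (hS1 e0 he0).2
    have h2 := (good_struct a b e0.1 e0.2 ha hb hv hw (hprop e0 (hPE he0)).1).1
    have h3 : (Nat.lcm e0.1 e0.2 : ℝ) ≤ 2 ^ k := by
      have h4 : (1 / 2 : ℝ) ^ k = 1 / 2 ^ k := by rw [div_pow, one_pow]
      rw [h4, mul_one_div, div_le_one (by positivity)] at h1
      exact h1
    have h4 : Nat.lcm e0.1 e0.2 ≤ 2 ^ k := by exact_mod_cast h3
    refine le_trans ?_ h4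
    rw [h2]
    have r1 : 0 < rd e0.1 a := rd_pos hv
    have r2 : 0 < rd e0.2 b := rd_pos hw
    calc Nat.lcm a b = Nat.lcm a b * 1 * 1 := by ring
      _ ≤ Nat.lcm a b * rd e0.1 a * rd e0.2 b := by gcongr <;> omega
  have hak : a ≤ 2 ^ k :=
    (Nat.le_of_dvd (Nat.lcm_pos ha hb) (Nat.dvd_lcm_left a b)).trans hlcm
  have hbk : b ≤ 2 ^ k' :=
    ((Nat.le_of_dvd (Nat.lcm_pos ha hb) (Nat.dvd_lcm_right a b)).trans hlcm).trans
      (Nat.pow_le_pow_right (by norm_num) hkk)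
  -- (1)
  have hb1 : em μ μ P ≤ 16 * (Ω k * Ω k') * Q := by
    have := cell_bound S κ μ hD.mu0 E' a b ha hb hD.pos hE (fun e he => (hprop e he).1)
      A k A' k' (Ω k) (Ω k') hΩ1 hΩ2
      (fun v hv hk => by have := hD.mu1 v hv; rwa [hk] at this)
      (fun v hv hk => by have := hD.mu1 v hv; rwa [hk] at this)
    calc em μ μ P ≤ _ := this
      _ = 16 * (Ω k * Ω k') * Q := by rw [hQ]; ring
  -- (2)
  have hb2 : em μ μ P ≤ 24 * C0 * (La k * La k') * σ * (Ω k * Ω k') * Q := by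
    set P1 := P.filter (fun e => rd e.2 e.1 ≤ rd e.1 e.2) with hP1
    set P2 := P.filter (fun e => ¬ rd e.2 e.1 ≤ rd e.1 e.2) with hP2
    have hsplit : em μ μ P = em μ μ P1 + em μ μ P2 := by
      unfold Pool.Agent.IDS.em
      exact (Finset.sum_filter_add_sum_filter_not P _ _).symm
    have h1 : em μ μ P1 ≤ 12 * C0 * (Ω k * Ω k') * Q * σ * La k' := by
      refine hhalf ε γ S κ Ω La μ hD R a b A A' k k' P1 hR ha hb hab hbk ?_
      intro e he
      obtain ⟨heP, hle⟩ := Finset.mem_filter.1 he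
      obtain ⟨g1, g2, g3, g4, g5, g6⟩ := hmem e heP
      obtain ⟨p1, p2, p3, p4⟩ := hprop e (hPE heP)
      exact ⟨(hS1 e heP).1, (hS1 e heP).2, g3, g6, p1, p2, hle, g1, g2, g4, g5⟩
    have h2 : em μ μ P2 ≤ 12 * C0 * (Ω k * Ω k') * Q * σ * La k := by
      rw [← cb2_em_swap μ P2]
      have := hhalf ε γ S κ Ω La μ hD R b a A' A k' k (P2.image Prod.swap) hR hb ha hba hak ?_
      · refine this.trans (le_of_eq ?_)
        rw [hQ, Nat.add_comm k' k, Nat.add_comm (2 * A') (2 * A)]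
        ring
      · intro e he
        obtain ⟨e', he', rfl⟩ := Finset.mem_image.1 he
        obtain ⟨heP, hle⟩ := Finset.mem_filter.1 he'
        obtain ⟨g1, g2, g3, g4, g5, g6⟩ := hmem e' heP
        obtain ⟨p1, p2, p3, p4⟩ := hprop e' (hPE heP)
        exact ⟨(hS1 e' heP).2, (hS1 e' heP).1, g6, g3, cb2_good_symm p1, cb2_EdI_symm p2,
          (not_le.1 hle).le, g4, g5, g1, g2⟩
    have h3 : La k' ≤ La k * La k' := by nlinarith
    have h4 : La k ≤ La k * La k' := by nlinarith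
    have h5 : 0 ≤ 12 * C0 * (Ω k * Ω k') * Q * σ := by positivity
    have h6 := mul_le_mul_of_nonneg_left h3 h5
    have h7 := mul_le_mul_of_nonneg_left h4 h5
    rw [hsplit]
    calc em μ μ P1 + em μ μ P2 ≤ 12 * C0 * (Ω k * Ω k') * Q * σ * (La k * La k') +
          12 * C0 * (Ω k * Ω k') * Q * σ * (La k * La k') := by linarith
      _ = 24 * C0 * (La k * La k') * σ * (Ω k * Ω k') * Q := by ring
  -- (3)
  have hz : 1 ≤ La k * La k' := by nlinarith
  have hw1 : (Ω k * Ω k') * (La k * La k') ^ ε ≤ 1 := by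
    have h1 := hD.Om1 k
    have h2 := hD.Om1 k'
    rw [Real.mul_rpow (by linarith) (by linarith)]
    have h3 : 0 ≤ Ω k * (La k) ^ ε := mul_nonneg hΩ1 (Real.rpow_nonneg (by linarith) _)
    have h4 : 0 ≤ Ω k' * (La k') ^ ε := mul_nonneg hΩ2 (Real.rpow_nonneg (by linarith) _)
    calc (Ω k * Ω k') * ((La k) ^ ε * (La k') ^ ε) = (Ω k * (La k) ^ ε) * (Ω k' * (La k') ^ ε) := by
          ring
      _ ≤ 1 * 1 := mul_le_mul h1 h2 h4 (by norm_num)
      _ = 1 := one_mul 1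
  have hw0 : 0 ≤ Ω k * Ω k' := mul_nonneg hΩ1 hΩ2
  have hfin := cb2_interp ε hε hε1 (Ω k * Ω k') (La k * La k') σ (em μ μ P)
    ((16 + 24 * C0) * Q)
    hw0 hz hσ0 (by positivity) hw1 (by
      refine hb1.trans ?_
      have : 0 ≤ 24 * C0 * Q * (Ω k * Ω k') := by positivity
      nlinarith) (by
      refine hb2.trans ?_
      have : 0 ≤ 16 * Q * ((Ω k * Ω k') * (La k * La k') * σ) := by positivity
      nlinarith)
  have hσε : σ ^ ε = R ^ (-ε / 1024) := by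
    rw [hσ, ← Real.rpow_mul hR0.le]
    congr 1
    ring
  rw [hσε] at hfin
  calc em μ μ P ≤ (16 + 24 * C0) * Q * R ^ (-ε / 1024) := hfin
    _ = (16 + 24 * C0) * R ^ (-ε / 1024) * a * b * 2 ^ (2 * A + 2 * A') *
        (1 / 2 : ℝ) ^ (k + k') := by rw [hQ]; ring

end Pool.Agent.IDE
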