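import Pool.Agent.IDE.Base

set_option autoImplicit false

namespace Pool.Agent.IDE

open Finset Pool.Agent.IDS

theorem d1_dirichlet (γ T : ℝ) (hT : 1 ≤ T) :
    ∃ n : ℕ, 1 ≤ n ∧ (n : ℝ) ≤ T ∧ nd (n * γ) ≤ 1 / T := by
  have hT0 : 0 < T := by linarith
  have hfl : 0 < ⌊T⌋₊ := Nat.floor_pos.2 hT
  obtain ⟨k, hk0, hk1, hk2⟩ := Real.exists_nat_abs_mul_sub_round_le γ hfl
  refine ⟨k, hk0, ?_, ?_⟩
  · exact (Nat.cast_le.2 hk1).trans (Nat.floor_le hT0.le)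
  · have h1 : nd (k * γ) ≤ 1 / (⌊T⌋₊ + 1) := hk2
    refine h1.trans ?_
    exact one_div_le_one_div_of_le hT0 (Nat.lt_floor_add_one T).le

theorem d1_nonempty (γ T : ℝ) (hT : 0 < T) : ({n : ℕ | 1 ≤ n ∧ nd (n * γ) ≤ 1 / T}).Nonempty := by
  rcases le_or_gt 1 T with h | h
  · obtain ⟨n, h1, _, h3⟩ := d1_dirichlet γ T h
    exact ⟨n, h1, h3⟩
  · refine ⟨1, le_refl 1, ?_⟩
    refine (nd_le_half _).trans ?_
    have : (1 : ℝ) ≤ 1 / T := by
      rw [le_div_iff₀ hT]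
      linarith
    linarith

theorem d1_mem (γ T : ℝ) (hT : 0 < T) : 1 ≤ den γ T ∧ nd (den γ T * γ) ≤ 1 / T :=
  Nat.sInf_mem (d1_nonempty γ T hT)

/-- [IDE-D1] The set in the definition of `den` is nonempty for `T > 0` (if `T < 1`: `n = 1`,
`nd ≤ 1/2 ≤ 1/T`; if `T ≥ 1`: Dirichlet, `Real.exists_nat_abs_mul_sub_round_le` with `n = ⌊T⌋₊`,
`1/(⌊T⌋₊+1) ≤ 1/T`), so `Nat.sInf_mem` applies. -/
theorem den_pos (γ T : ℝ) (hT : 0 < T) : 1 ≤ den γ T := (d1_mem γ T hT).1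

/-- [IDE-D1] -/
theorem eta_nonneg (γ T : ℝ) : 0 ≤ eta γ T := nd_nonneg _

/-- [IDE-D1] -/
theorem eta_le (γ T : ℝ) (hT : 0 < T) : eta γ T ≤ 1 / T := (d1_mem γ T hT).2

/-- [IDE-D1] minimality (`Nat.sInf_le`) -/
theorem den_min (γ T : ℝ) (n : ℕ) (hn : 1 ≤ n) (h : nd (n * γ) ≤ 1 / T) : den γ T ≤ n :=
  Nat.sInf_le ⟨hn, h⟩

/-- [IDE-D1] Dirichlet (`Real.exists_nat_abs_mul_sub_round_le` with `n = ⌊T⌋₊`) and `den_min`. -/
theorem den_le (γ T : ℝ) (hT : 1 ≤ T) : (den γ T : ℝ) ≤ T := by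
  obtain ⟨n, h1, h2, h3⟩ := d1_dirichlet γ T hT
  exact (Nat.cast_le.2 (den_min γ T n h1 h3)).trans h2

/-- [IDE-D1] PROOF. `nd (den γ T' * γ) ≤ 1/T' ≤ 1/T` and `den_min`. -/
theorem den_mono (γ T T' : ℝ) (hT : 0 < T) (h : T ≤ T') : den γ T ≤ den γ T' := by
  have hT' : 0 < T' := by linarith
  have h1 := d1_mem γ T' hT'
  exact den_min γ T _ h1.1 (h1.2.trans (one_div_le_one_div_of_le hT h))

/-- [IDE-D1] -/
theorem abs_den_sub_num (γ T : ℝ) : |(den γ T : ℝ) * γ - num γ T| = eta γ T := rfl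

/-- [IDE-D1] `N = den γ T` and `P = num γ T` are coprime.

PROOF.  If `g = gcd (N, P) > 1`, `N = g N'`, `P = g P'`, then
`nd (N' γ) ≤ |N' γ - P'| = eta/g ≤ 1/T` and `1 ≤ N' < N`, contradicting `den_min`. -/
theorem num_coprime (γ T : ℝ) (hT : 0 < T) : IsCoprime ((den γ T : ℕ) : ℤ) (num γ T) := by
  rw [Int.isCoprime_iff_gcd_eq_one]
  by_contra hg
  have hN := d1_mem γ T hT
  have hab := abs_den_sub_num γ T
  have heta : eta γ T ≤ 1 / T := hN.2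
  set N := den γ T with hNdef
  set P := num γ T with hPdef
  set g := Int.gcd (N : ℤ) P with hgdef
  have hg1 : (g : ℤ) ∣ (N : ℤ) := Int.gcd_dvd_left ..
  have hg2 : (g : ℤ) ∣ P := Int.gcd_dvd_right ..
  have hg3 : g ∣ N := Int.natCast_dvd_natCast.1 hg1
  obtain ⟨N', hN'⟩ := hg3
  obtain ⟨P', hP'⟩ := hg2
  have hNpos : 0 < N := hN.1
  have hgpos : 0 < g := by
    rcases Nat.eq_zero_or_pos g with h | h
    · rw [h, zero_mul] at hN'
      omega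
    · exact h
  have hg4 : 2 ≤ g := by omega
  have hN'pos : 0 < N' := by
    rcases Nat.eq_zero_or_pos N' with h | h
    · rw [h, mul_zero] at hN'
      omega
    · exact h
  have hlt : N' < N := by
    rw [hN']
    nlinarith
  have hgR : (2 : ℝ) ≤ g := by exact_mod_cast hg4
  have h1 : (N : ℝ) * γ - P = g * (N' * γ - P') := by
    have e1 : (N : ℝ) = g * N' := by exact_mod_cast hN'
    have e2 : (P : ℝ) = g * P' := by exact_mod_cast hP'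
    rw [e1, e2]
    ring
  rw [h1, abs_mul, Nat.abs_cast] at hab
  have h2 : |(N' : ℝ) * γ - P'| ≤ 1 / T := by
    have h3 : 0 ≤ |(N' : ℝ) * γ - P'| := abs_nonneg _
    nlinarith
  have h4 : den γ T ≤ N' := den_min γ T N' hN'pos ((nd_le_abs _ P').trans h2)
  omega

end Pool.Agent.IDE
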