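import Pool.Agent.IDE.D1

set_option autoImplicit false

namespace Pool.Agent.IDE

open Finset Pool.Agent.IDS

theorem d2_nd_eq_abs (y : ℝ) (hy : |y| ≤ 1 / 2) : nd y = |y| := by
  apply le_antisymm
  · have := nd_le_abs y 0
    simpa using this
  · unfold nd
    by_cases h0 : round y = 0
    · rw [h0]
      simp
    · have h1 : (1 : ℝ) ≤ |((round y : ℤ) : ℝ)| := by
        have : (1 : ℤ) ≤ |round y| := Int.one_le_abs h0
        exact_mod_cast this
      have h2 : |((round y : ℤ) : ℝ)| ≤ |y - round y| + |y| := by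
        have h3 : ((round y : ℤ) : ℝ) = -(y - round y) + y := by ring
        calc |((round y : ℤ) : ℝ)| = |-(y - round y) + y| := by rw [← h3]
          _ ≤ |-(y - round y)| + |y| := abs_add_le _ _
          _ = |y - round y| + |y| := by rw [abs_neg]
      linarith

/-- [IDE-D2] PROOF.  `N = den γ T`, `P = num γ T`, `η = eta γ T`; `n γ = n P/N + n (γ - P/N)` and
`|n (γ - P/N)| = n η/N ≤ 1/(2N)`.  As `N ∤ n P` (`num_coprime`), `|n P/N - k| ≥ 1/N` for every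
integer `k` (`|nP - kN| ≥ 1`).  So `nd (n γ) = |n γ - round (n γ)| ≥ 1/N - 1/(2N)`. -/
theorem nd_ge_of_not_dvd (γ T : ℝ) (hT : 0 < T) (n : ℕ) (h : ¬ den γ T ∣ n)
    (hn : (n : ℝ) * eta γ T ≤ 1 / 2) : 1 / (2 * (den γ T : ℝ)) ≤ nd (n * γ) := by
  have hcop := num_coprime γ T hT
  have hab := abs_den_sub_num γ T
  have hN1 := den_pos γ T hT
  set N := den γ T with hNdef
  set P := num γ T with hPdef
  set k := round ((n : ℝ) * γ) with hk
  have hNR : (0 : ℝ) < N := by exact_mod_cast hN1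
  have hne : (n : ℤ) * P - k * N ≠ 0 := by
    intro h0
    have h1 : (N : ℤ) ∣ (n : ℤ) * P := ⟨k, by linear_combination h0⟩
    have h2 : (N : ℤ) ∣ (n : ℤ) := hcop.dvd_of_dvd_mul_right h1
    exact h (Int.natCast_dvd_natCast.1 h2)
  have h1 : (1 : ℝ) ≤ |(n : ℝ) * P - k * N| := by
    have : (1 : ℤ) ≤ |(n : ℤ) * P - k * N| := Int.one_le_abs hne
    exact_mod_cast this
  have h2 : |(n : ℝ) * P - k * N| ≤ N * |(n : ℝ) * γ - k| + n * |(N : ℝ) * γ - P| := by
    have e : (n : ℝ) * P - k * N = N * ((n : ℝ) * γ - k) - n * ((N : ℝ) * γ - P) := by ring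
    rw [e]
    refine (abs_sub _ _).trans ?_
    rw [abs_mul, abs_mul, Nat.abs_cast, Nat.abs_cast]
  rw [hab] at h2
  have h3 : nd ((n : ℝ) * γ) = |(n : ℝ) * γ - k| := rfl
  rw [h3, div_le_iff₀ (by positivity)]
  nlinarith

/-- [IDE-D2] PROOF.  `t N γ = t P + t (N γ - P)` with `|t (Nγ - P)| = t η ≤ 1/2`; and
`nd y = |y|` for `|y| ≤ 1/2` (`nd_add_int`; for `|y| ≤ 1/2`: `nd y ≤ |y - 0|`, and
`|y| ≤ |y - n|` for every integer `n`). -/
theorem nd_mul_den (γ T : ℝ) (t : ℕ) (ht : (t : ℝ) * eta γ T ≤ 1 / 2) :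
    nd (((t * den γ T : ℕ) : ℝ) * γ) = t * eta γ T := by
  have hab := abs_den_sub_num γ T
  have e : ((t * den γ T : ℕ) : ℝ) * γ =
      (t : ℝ) * ((den γ T : ℝ) * γ - num γ T) + (((t : ℤ) * num γ T : ℤ) : ℝ) := by
    push_cast
    ring
  rw [e, nd_add_int]
  have h1 : |(t : ℝ) * ((den γ T : ℝ) * γ - num γ T)| = t * eta γ T := by
    rw [abs_mul, Nat.abs_cast, hab]
  rw [d2_nd_eq_abs _ (by rw [h1]; exact ht), h1]

/-- [IDE-D2] PROOF.  `N = den γ T < N' = den γ T'`.  If `T' ≤ T` then `N' ≤ N` by `den_mono`; so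
`T < T'`.  `nd (N γ) = η > 1/T' ≥ η'` (otherwise `N' ≤ N` by `den_min`).  The integer
`Δ = N P' - N' P = N' (N γ - P) - N (N' γ - P')` is nonzero: otherwise `N P' = N' P` and
`num_coprime` for both gives `N = N'`.  So `1 ≤ |Δ| ≤ N' η + N η'` and `N η' ≤ N' η`, thus
`1 ≤ 2 N' η`.  `gcd(N, N') ∣ Δ ≠ 0`, so `gcd(N,N') ≤ |Δ| ≤ N' η + N η' ≤ T'/T + T/T' ≤ T'/T + 1`
(`N ≤ T`, `N' ≤ T'` by `den_le`, `η ≤ 1/T`, `η' ≤ 1/T'` by `eta_le`). -/
theorem two_den (γ T T' : ℝ) (hT : 1 ≤ T) (hT' : 1 ≤ T') (h : den γ T < den γ T') :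
    T < T' ∧ 1 ≤ 2 * (den γ T' : ℝ) * eta γ T ∧
      (den γ T : ℤ) * num γ T' - (den γ T' : ℤ) * num γ T ≠ 0 ∧
      (Nat.gcd (den γ T) (den γ T') : ℝ) ≤ T' / T + 1 := by
  have hT0 : 0 < T := by linarith
  have hT'0 : 0 < T' := by linarith
  have hlt : T < T' := by
    by_contra hc
    have := den_mono γ T' T hT'0 (not_lt.1 hc)
    omega
  have heta : 1 / T' < eta γ T := by
    by_contra hc
    have := den_min γ T' (den γ T) (den_pos γ T hT0) (not_lt.1 hc)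
    omega
  have heta' : eta γ T' ≤ 1 / T' := eta_le γ T' hT'0
  have heta2 : eta γ T ≤ 1 / T := eta_le γ T hT0
  have e0 := eta_nonneg γ T
  have e0' := eta_nonneg γ T'
  have hab := abs_den_sub_num γ T
  have hab' := abs_den_sub_num γ T'
  have hc := num_coprime γ T hT0
  have hc' := num_coprime γ T' hT'0
  have hN := den_pos γ T hT0
  have hNT := den_le γ T hT
  have hN'T := den_le γ T' hT'
  set N := den γ T with hNdef
  set N' := den γ T' with hN'def
  set P := num γ T with hPdef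
  set P' := num γ T' with hP'def
  have hNR : (0 : ℝ) < N := by exact_mod_cast hN
  have hNN' : (N : ℝ) < N' := by exact_mod_cast h
  have hne : (N : ℤ) * P' - (N' : ℤ) * P ≠ 0 := by
    intro h0
    have h1 : (N' : ℤ) ∣ (N : ℤ) * P' := ⟨P, by linear_combination h0⟩
    have h2 : (N' : ℤ) ∣ (N : ℤ) := hc'.dvd_of_dvd_mul_right h1
    have h3 : N' ∣ N := Int.natCast_dvd_natCast.1 h2
    have := Nat.le_of_dvd hN h3
    omega
  have h1 : (1 : ℝ) ≤ |(N : ℝ) * P' - N' * P| := by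
    have : (1 : ℤ) ≤ |(N : ℤ) * P' - (N' : ℤ) * P| := Int.one_le_abs hne
    exact_mod_cast this
  have h2 : |(N : ℝ) * P' - N' * P| ≤ N' * eta γ T + N * eta γ T' := by
    have e : (N : ℝ) * P' - N' * P = N' * ((N : ℝ) * γ - P) - N * ((N' : ℝ) * γ - P') := by ring
    rw [e]
    refine (abs_sub _ _).trans ?_
    rw [abs_mul, abs_mul, Nat.abs_cast, Nat.abs_cast, hab, hab']
  have hee : eta γ T' ≤ eta γ T := by linarith
  have h3 : (N : ℝ) * eta γ T' ≤ N' * eta γ T := by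
    apply mul_le_mul hNN'.le hee e0' (by linarith)
  refine ⟨hlt, by linarith, hne, ?_⟩
  have h4 : (Nat.gcd N N' : ℝ) ≤ |(N : ℝ) * P' - N' * P| := by
    have hd : ((Nat.gcd N N' : ℕ) : ℤ) ∣ (N : ℤ) * P' - (N' : ℤ) * P := by
      apply dvd_sub
      · exact (Int.natCast_dvd_natCast.2 (Nat.gcd_dvd_left N N')).mul_right _
      · exact (Int.natCast_dvd_natCast.2 (Nat.gcd_dvd_right N N')).mul_right _
    have h5 : ((Nat.gcd N N' : ℕ) : ℤ) ≤ |(N : ℤ) * P' - (N' : ℤ) * P| := by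
      apply Int.le_of_dvd (abs_pos.2 hne)
      exact (dvd_abs _ _).2 hd
    exact_mod_cast h5
  have h5 : (N' : ℝ) * eta γ T ≤ T' / T := by
    calc (N' : ℝ) * eta γ T ≤ T' * (1 / T) := mul_le_mul hN'T heta2 e0 hT'0.le
      _ = T' / T := by ring
  have h6 : (N : ℝ) * eta γ T' ≤ 1 := by
    calc (N : ℝ) * eta γ T' ≤ T * (1 / T') := mul_le_mul hNT heta' e0' hT0.le
      _ = T / T' := by ring
      _ ≤ 1 := by
        rw [div_le_one hT'0]
        exact hlt.le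
  linarith

end Pool.Agent.IDE
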