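import Pool.Agent.IDE.D1

set_option autoImplicit false

namespace Pool.Agent.IDE

open Finset Pool.Agent.IDS

/-- two denominators with errors of the same sign -/
theorem d3_two (γ : ℝ) (N N' : ℕ) (h : IsDen γ N) (h' : IsDen γ N') (hlt : N < N')
    (hs : 0 ≤ ((N : ℝ) * γ - round ((N : ℝ) * γ)) * ((N' : ℝ) * γ - round ((N' : ℝ) * γ))) :
    2 * N ≤ N' := by
  obtain ⟨T, hT, hN⟩ := h
  obtain ⟨T', hT', hN'⟩ := h'
  have hT0 : (0 : ℝ) < T := by linarith
  have hT0' : (0 : ℝ) < T' := by linarith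
  have hN1 : 1 ≤ N := hN ▸ den_pos γ T hT0
  have e1 : nd (N * γ) ≤ 1 / T := by
    have := eta_le γ T hT0
    rw [eta, ← hN] at this
    exact this
  have e2 : nd (N' * γ) ≤ 1 / T' := by
    have := eta_le γ T' hT0'
    rw [eta, ← hN'] at this
    exact this
  have e3 : 1 / T' < nd (N * γ) := by
    by_contra hcon
    push Not at hcon
    have := den_min γ T' N hN1 hcon
    omega
  have e4 : nd (((N' - N : ℕ) : ℝ) * γ) ≤ 1 / T := by
    refine le_trans ?_ e1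
    obtain ⟨ε, hε⟩ : ∃ ε : ℝ, ε = (N : ℝ) * γ - round ((N : ℝ) * γ) := ⟨_, rfl⟩
    obtain ⟨ε', hε'⟩ : ∃ ε' : ℝ, ε' = (N' : ℝ) * γ - round ((N' : ℝ) * γ) := ⟨_, rfl⟩
    rw [← hε, ← hε'] at hs
    have a1 : nd (N * γ) = |ε| := by rw [hε]; rfl
    have a2 : nd (N' * γ) = |ε'| := by rw [hε']; rfl
    have a3 : |ε'| < |ε| := by rw [← a1, ← a2]; linarith
    have a4 : |ε' - ε| ≤ |ε| := by
      rcases abs_cases ε with ⟨h1, h2⟩ | ⟨h1, h2⟩ <;>
      rcases abs_cases ε' with ⟨h3, h4⟩ | ⟨h3, h4⟩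
      · rw [h1, h3] at a3
        rw [h1, abs_le]
        constructor <;> linarith
      · rw [h1, h3] at a3
        have : ε * ε' < 0 := by
          apply mul_neg_of_pos_of_neg _ h4
          linarith
        linarith
      · rw [h1, h3] at a3
        rcases eq_or_lt_of_le h4 with h5 | h5
        · rw [← h5, h1, abs_le]
          constructor <;> linarith
        · have : ε * ε' < 0 := mul_neg_of_neg_of_pos h2 h5
          linarith
      · rw [h1, h3] at a3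
        rw [h1, abs_le]
        constructor <;> linarith
    have a5 : nd (((N' - N : ℕ) : ℝ) * γ) ≤ |ε' - ε| := by
      have b1 : ((N' - N : ℕ) : ℝ) * γ = (N' : ℝ) * γ - N * γ := by
        rw [Nat.cast_sub hlt.le]; ring
      have b2 := round_le (((N' - N : ℕ) : ℝ) * γ)
        (round ((N' : ℝ) * γ) - round ((N : ℝ) * γ))
      have b3 : nd (((N' - N : ℕ) : ℝ) * γ) =
        |((N' - N : ℕ) : ℝ) * γ - round (((N' - N : ℕ) : ℝ) * γ)| := rfl
      rw [b3]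
      refine b2.trans (le_of_eq ?_)
      rw [b1, hε, hε']
      push_cast
      congr 1
      ring
    rw [a1]
    linarith
  have e5 := den_min γ T (N' - N) (by omega) e4
  omega

/-- [IDE-D3] **Growth of denominators.**

PROOF.  `N i = den γ (T i)`, `ε i = N i γ - P i`, `|ε i| = η i = nd (N i γ)`.  `η 1 > 1/T 2 ≥ η 2` and
`η 2 > 1/T 3 ≥ η 3` (`den_min`), so `|ε 1| > |ε 2| > |ε 3|`.  Two of the three numbers
`ε 1, ε 2, ε 3` are both `≥ 0` or both `≤ 0`, say those with indices `i < j`.  Then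
`nd ((N j - N i) γ) ≤ |ε j - ε i| = |ε i| - |ε j| ≤ |ε i| ≤ 1/T i`, so `N j - N i ≥ N i` by
`den_min`.  Thus `N3 ≥ N j ≥ 2 N i ≥ 2 N1`. -/
theorem den_growth (γ : ℝ) (N1 N2 N3 : ℕ) (h1 : IsDen γ N1) (h2 : IsDen γ N2) (h3 : IsDen γ N3)
    (h12 : N1 < N2) (h23 : N2 < N3) : 2 * N1 ≤ N3 := by
  obtain ⟨a, ha⟩ : ∃ a : ℝ, a = (N1 : ℝ) * γ - round ((N1 : ℝ) * γ) := ⟨_, rfl⟩
  obtain ⟨b, hb⟩ : ∃ b : ℝ, b = (N2 : ℝ) * γ - round ((N2 : ℝ) * γ) := ⟨_, rfl⟩
  obtain ⟨c, hc⟩ : ∃ c : ℝ, c = (N3 : ℝ) * γ - round ((N3 : ℝ) * γ) := ⟨_, rfl⟩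
  have t1 := d3_two γ N1 N2 h1 h2 h12
  have t2 := d3_two γ N2 N3 h2 h3 h23
  have t3 := d3_two γ N1 N3 h1 h3 (h12.trans h23)
  rw [← ha, ← hb] at t1
  rw [← hb, ← hc] at t2
  rw [← ha, ← hc] at t3
  rcases le_total 0 a with h | h <;> rcases le_total 0 b with h' | h' <;>
    rcases le_total 0 c with h'' | h''
  · have := t1 (mul_nonneg h h'); omega
  · have := t1 (mul_nonneg h h'); omega
  · have := t3 (mul_nonneg h h''); omega
  · have := t2 (mul_nonneg_of_nonpos_of_nonpos h' h''); omega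
  · have := t2 (mul_nonneg h' h''); omega
  · have := t3 (mul_nonneg_of_nonpos_of_nonpos h h''); omega
  · have := t1 (mul_nonneg_of_nonpos_of_nonpos h h'); omega
  · have := t1 (mul_nonneg_of_nonpos_of_nonpos h h'); omega

/-- every dyadic interval has at most two denominators -/
theorem d3_fiber (γ : ℝ) (F : Finset ℕ) (hF : ∀ N ∈ F, IsDen γ N) (i : ℕ) :
    (F.filter (fun N => Nat.log 2 N = i)).card ≤ 2 := by
  by_contra hcon
  push Not at hcon
  obtain ⟨a, ha, b, hb, c, hc, hab, hac, hbc⟩ := Finset.two_lt_card.1 hcon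
  have hpos : ∀ N ∈ F, N ≠ 0 := by
    intro N hN
    obtain ⟨T, hT, h⟩ := hF N hN
    have := den_pos γ T (by linarith)
    omega
  have key : ∀ x ∈ F.filter (fun N => Nat.log 2 N = i), ∀ y ∈ F.filter (fun N => Nat.log 2 N = i),
      ∀ z ∈ F.filter (fun N => Nat.log 2 N = i), x < y → y < z → False := by
    intro x hx y hy z hz hxy hyz
    rw [Finset.mem_filter] at hx hy hz
    have h1 := den_growth γ x y z (hF x hx.1) (hF y hy.1) (hF z hz.1) hxy hyz
    have h2 : 2 ^ i ≤ x := by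
      have := Nat.pow_log_le_self 2 (hpos x hx.1)
      rwa [hx.2] at this
    have h3 : z < 2 ^ (i + 1) := by
      have := Nat.lt_pow_succ_log_self (b := 2) (by norm_num) z
      rwa [hz.2] at this
    rw [pow_succ] at h3
    omega
  rcases lt_or_gt_of_ne hab with h1 | h1 <;> rcases lt_or_gt_of_ne hac with h2 | h2 <;>
    rcases lt_or_gt_of_ne hbc with h3 | h3
  · exact key a ha b hb c hc h1 h3
  · exact key a ha c hc b hb h2 h3
  · omega
  · exact key c hc a ha b hb h2 h1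
  · exact key b hb a ha c hc h1 h2
  · omega
  · exact key b hb c hc a ha h3 h2
  · exact key c hc b hb a ha h3 h1

/-- [IDE-D3] PROOF. In every interval `[2^i, 2^(i+1))` there are at most two denominators of `γ`
(three `N1 < N2 < N3` would give `N3 ≥ 2 N1 ≥ 2^(i+1)`); the elements of `F` are `≥ 1` (`den_pos`), so
`log₂` of them takes at most `log₂ Z + 1` values. -/
theorem den_card (γ : ℝ) (Z : ℝ) (hZ : 1 ≤ Z) (F : Finset ℕ)
    (hF : ∀ N ∈ F, IsDen γ N ∧ (N : ℝ) ≤ Z) : (F.card : ℝ) ≤ 2 * Real.logb 2 Z + 2 := by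
  have hlog : 0 ≤ Real.logb 2 Z := Real.logb_nonneg (by norm_num) hZ
  have h1 : F.card ≤ 2 * (range (⌊Real.logb 2 Z⌋₊ + 1)).card := by
    apply Finset.card_le_mul_card_image_of_maps_to (f := fun N => Nat.log 2 N)
    · intro N hN
      rw [mem_range, Nat.lt_succ_iff]
      have hN0 : N ≠ 0 := by
        obtain ⟨T, hT, h⟩ := (hF N hN).1
        have := den_pos γ T (by linarith)
        omega
      apply Nat.le_floor
      have h2 : ((2 : ℕ) ^ Nat.log 2 N : ℕ) ≤ N := Nat.pow_log_le_self 2 hN0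
      have h3 : (2 : ℝ) ^ (Nat.log 2 N) ≤ Z := by
        refine le_trans ?_ (hF N hN).2
        exact_mod_cast h2
      rw [Real.le_logb_iff_rpow_le (by norm_num) (by linarith), Real.rpow_natCast]
      exact h3
    · intro i _
      exact d3_fiber γ F (fun N hN => (hF N hN).1) i
  rw [card_range] at h1
  have h2 : (F.card : ℝ) ≤ 2 * ((⌊Real.logb 2 Z⌋₊ : ℝ) + 1) := by exact_mod_cast h1
  have h3 : (⌊Real.logb 2 Z⌋₊ : ℝ) ≤ Real.logb 2 Z := Nat.floor_le hlog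
  linarith

/-- [IDE-D3] PROOF. With `i = ⌊log₂ N⌋` each `i` occurs for at most two `N ∈ F`, and only `i` with
`2^{i+1} > Z` occur; `N^{-a} ≤ 2^{-a i}`; so the sum is
`≤ 2 ∑_{i : 2^i > Z/2} 2^{-a i} ≤ 2 (Z/2)^{-a}/(1-2^{-a})`. -/
theorem den_sum (a : ℝ) (ha : 0 < a) :
    ∃ C : ℝ, 0 < C ∧ ∀ (γ Z : ℝ) (F : Finset ℕ), 1 ≤ Z → (∀ N ∈ F, IsDen γ N ∧ Z < N) →
      ∑ N ∈ F, (N : ℝ) ^ (-a) ≤ C * Z ^ (-a) := by
  obtain ⟨r, hr⟩ : ∃ r : ℝ, r = (2 : ℝ) ^ (-a) := ⟨_, rfl⟩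
  have hr0 : 0 < r := by rw [hr]; positivity
  have hr1 : r < 1 := by
    rw [hr]
    exact Real.rpow_lt_one_of_one_lt_of_neg (by norm_num) (by linarith)
  have h1r : 0 < 1 - r := by linarith
  refine ⟨2 * (2 : ℝ) ^ a / (1 - r), by positivity, ?_⟩
  intro γ Z F hZ hF
  have hpos : ∀ N ∈ F, N ≠ 0 := by
    intro N hN
    obtain ⟨T, hT, h⟩ := (hF N hN).1
    have := den_pos γ T (by linarith)
    omega
  have hZ0 : (0 : ℝ) < Z := by linarith
  obtain ⟨i0, hi0⟩ : ∃ i0 : ℕ, i0 = Nat.log 2 ⌊Z⌋₊ := ⟨_, rfl⟩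
  have hZi : Z < (2 : ℝ) ^ (i0 + 1) := by
    have h1 := Nat.lt_pow_succ_log_self (b := 2) (by norm_num) ⌊Z⌋₊
    rw [← hi0] at h1
    have h2 : (⌊Z⌋₊ : ℝ) + 1 ≤ (2 : ℝ) ^ (i0 + 1) := by exact_mod_cast h1
    exact (Nat.lt_floor_add_one Z).trans_le h2
  have hpow : r ^ i0 ≤ (2 : ℝ) ^ a * Z ^ (-a) := by
    have e1 : r ^ i0 = ((2 : ℝ) ^ i0) ^ (-a) := by
      rw [hr, ← Real.rpow_natCast, ← Real.rpow_natCast, ← Real.rpow_mul (by norm_num),
        ← Real.rpow_mul (by norm_num)]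
      congr 1
      ring
    have e2 : Z / 2 ≤ (2 : ℝ) ^ i0 := by
      rw [pow_succ] at hZi
      linarith
    rw [e1]
    calc ((2 : ℝ) ^ i0) ^ (-a) ≤ (Z / 2) ^ (-a) :=
          Real.rpow_le_rpow_of_nonpos (by positivity) e2 (by linarith)
      _ = (2 : ℝ) ^ a * Z ^ (-a) := by
        rw [Real.div_rpow hZ0.le (by norm_num), Real.rpow_neg (by norm_num : (0 : ℝ) ≤ 2)]
        field_simp
  have hterm : ∀ N ∈ F, (N : ℝ) ^ (-a) ≤ r ^ (Nat.log 2 N) := by
    intro N hN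
    have h1 : ((2 : ℕ) ^ Nat.log 2 N : ℕ) ≤ N := Nat.pow_log_le_self 2 (hpos N hN)
    have h2 : (2 : ℝ) ^ Nat.log 2 N ≤ N := by exact_mod_cast h1
    have e1 : r ^ (Nat.log 2 N) = ((2 : ℝ) ^ (Nat.log 2 N)) ^ (-a) := by
      rw [hr, ← Real.rpow_natCast, ← Real.rpow_natCast, ← Real.rpow_mul (by norm_num),
        ← Real.rpow_mul (by norm_num)]
      congr 1
      ring
    rw [e1]
    exact Real.rpow_le_rpow_of_nonpos (by positivity) h2 (by linarith)
  obtain ⟨M, hM⟩ : ∃ M : ℕ, ∀ N ∈ F, Nat.log 2 N < M := by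
    refine ⟨F.sup (fun N => Nat.log 2 N) + 1, fun N hN => ?_⟩
    have := Finset.le_sup (f := fun N => Nat.log 2 N) hN
    exact Nat.lt_succ_of_le this
  have hmaps : ∀ N ∈ F, Nat.log 2 N ∈ Finset.Ico i0 M := by
    intro N hN
    rw [Finset.mem_Ico]
    refine ⟨?_, hM N hN⟩
    rw [hi0]
    apply Nat.log_mono_right
    have h1 : ⌊Z⌋₊ ≤ ⌊(N : ℝ)⌋₊ := Nat.floor_mono (hF N hN).2.le
    rwa [Nat.floor_natCast] at h1
  calc ∑ N ∈ F, (N : ℝ) ^ (-a) ≤ ∑ N ∈ F, r ^ (Nat.log 2 N) := Finset.sum_le_sum hterm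
    _ = ∑ i ∈ Finset.Ico i0 M, ∑ N ∈ F with Nat.log 2 N = i, r ^ (Nat.log 2 N) :=
        (Finset.sum_fiberwise_of_maps_to hmaps _).symm
    _ ≤ ∑ i ∈ Finset.Ico i0 M, 2 * r ^ i := by
        apply Finset.sum_le_sum
        intro i _
        calc ∑ N ∈ F with Nat.log 2 N = i, r ^ (Nat.log 2 N)
            = ∑ N ∈ F with Nat.log 2 N = i, r ^ i := by
              apply Finset.sum_congr rfl
              intro N hN
              rw [(Finset.mem_filter.1 hN).2]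
          _ = ((F.filter (fun N => Nat.log 2 N = i)).card : ℝ) * r ^ i := by
              rw [Finset.sum_const, nsmul_eq_mul]
          _ ≤ 2 * r ^ i := by
              have h1 : ((F.filter (fun N => Nat.log 2 N = i)).card : ℝ) ≤ 2 := by
                exact_mod_cast d3_fiber γ F (fun N hN => (hF N hN).1) i
              exact mul_le_mul_of_nonneg_right h1 (by positivity)
    _ = 2 * ∑ i ∈ Finset.Ico i0 M, r ^ i := by rw [Finset.mul_sum]
    _ ≤ 2 * (r ^ i0 / (1 - r)) := by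
        apply mul_le_mul_of_nonneg_left _ (by norm_num)
        exact geom_sum_Ico_le_of_lt_one hr0.le hr1
    _ ≤ 2 * ((2 : ℝ) ^ a * Z ^ (-a) / (1 - r)) := by gcongr
    _ = 2 * (2 : ℝ) ^ a / (1 - r) * Z ^ (-a) := by ring

end Pool.Agent.IDE
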