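import Pool.Agent.IDE.D2

set_option autoImplicit false

namespace Pool.Agent.IDE

open Finset Pool.Agent.IDS

/-- `1024 R^{3/8} ≤ R` for `R ≥ 2^16`. -/
theorem d4_pow (R : ℝ) (hR : 2 ^ 16 ≤ R) : 1024 * R ^ ((3 : ℝ) / 8) ≤ R := by
  have hR0 : (0 : ℝ) < R := lt_of_lt_of_le (by norm_num) hR
  have h1 : (1024 : ℝ) ≤ R ^ ((5 : ℝ) / 8) := by
    have h2 : ((2 : ℝ) ^ 16) ^ ((5 : ℝ) / 8) ≤ R ^ ((5 : ℝ) / 8) :=
      Real.rpow_le_rpow (by norm_num) hR (by norm_num)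
    have h3 : ((2 : ℝ) ^ 16) ^ ((5 : ℝ) / 8) = 1024 := by
      rw [← Real.rpow_natCast, ← Real.rpow_mul (by norm_num)]
      rw [show ((16 : ℕ) : ℝ) * (5 / 8) = ((10 : ℕ) : ℝ) by norm_num, Real.rpow_natCast]
      norm_num
    linarith
  have h4 : R = R ^ ((5 : ℝ) / 8) * R ^ ((3 : ℝ) / 8) := by
    rw [← Real.rpow_add hR0]
    norm_num
  have h5 : 0 < R ^ ((3 : ℝ) / 8) := Real.rpow_pos_of_pos hR0 _
  calc 1024 * R ^ ((3 : ℝ) / 8) ≤ R ^ ((5 : ℝ) / 8) * R ^ ((3 : ℝ) / 8) :=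
        mul_le_mul_of_nonneg_right h1 h5.le
    _ = R := h4.symm

/-- [IDE-D4] **Identification of a small denominator.**

PROOF.  `N0 = den γ (R/8) ≤ N = den γ T` (`den_mono`).  Suppose `N0 < N`.  Then `N ∤ N0`,
`N0 * eta γ T ≤ N * (1/T) ≤ 8 R^{3/8}/R ≤ 1/2` and `nd_ge_of_not_dvd` gives
`nd (N0 γ) ≥ 1/(2N) ≥ R^{-3/8}/2 > 8/R` (as `R^{5/8} ≥ 2^{10} > 16`), but
`nd (N0 γ) = eta γ (R/8) ≤ 8/R`, a contradiction. -/
theorem den_eq (γ R T : ℝ) (hR : 2 ^ 16 ≤ R) (hT : R / 8 ≤ T)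
    (h : (den γ T : ℝ) ≤ R ^ ((3 : ℝ) / 8)) : den γ (R / 8) = den γ T := by
  have hR0 : (0 : ℝ) < R := lt_of_lt_of_le (by norm_num) hR
  have hR8 : 0 < R / 8 := by positivity
  have hT0 : 0 < T := hR8.trans_le hT
  have hpow := d4_pow R hR
  have h5 : 0 < R ^ ((3 : ℝ) / 8) := Real.rpow_pos_of_pos hR0 _
  have hle := den_mono γ (R / 8) T hR8 hT
  rcases hle.lt_or_eq with hlt | heq
  · exfalso
    have hN0 := den_pos γ (R / 8) hR8
    have hN := den_pos γ T hT0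
    have hnd : ¬ den γ T ∣ den γ (R / 8) := Nat.not_dvd_of_pos_of_lt (by omega) hlt
    have hNr : (1 : ℝ) ≤ den γ T := by exact_mod_cast hN
    have hltr : (den γ (R / 8) : ℝ) ≤ den γ T := by exact_mod_cast hlt.le
    have he0 := eta_nonneg γ T
    have he1 := eta_le γ T hT0
    have e1 : (den γ (R / 8) : ℝ) * eta γ T ≤ 1 / 2 := by
      calc (den γ (R / 8) : ℝ) * eta γ T ≤ R ^ ((3 : ℝ) / 8) * (1 / T) :=
            mul_le_mul (hltr.trans h) he1 he0 h5.le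
        _ ≤ R ^ ((3 : ℝ) / 8) * (1 / (R / 8)) := by
            apply mul_le_mul_of_nonneg_left _ h5.le
            exact one_div_le_one_div_of_le hR8 hT
        _ = 8 * R ^ ((3 : ℝ) / 8) / R := by field_simp
        _ ≤ 1 / 2 := by
            rw [div_le_iff₀ hR0]
            linarith
    have e2 := nd_ge_of_not_dvd γ T hT0 _ hnd e1
    have e3 : nd ((den γ (R / 8) : ℝ) * γ) ≤ 1 / (R / 8) := eta_le γ (R / 8) hR8
    have e4 : 1 / (R / 8) < 1 / (2 * (den γ T : ℝ)) := by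
      apply one_div_lt_one_div_of_lt (by positivity)
      linarith
    linarith
  · exact heq

/-- [IDE-D4] **Small multiples.**

PROOF.  Put `N = den γ T`, `η = eta γ T`, `n = s c`.  If `N ∤ n` then `nd (n γ) ≥ 1/(2N) ≥ 1/(2T)`
(`nd_ge_of_not_dvd`, `den_le`), contradiction; so `N ∣ n`, `n = t N`, `t ≥ 1`, and
`nd (n γ) = t η` (`nd_mul_den`; `t η ≤ n η ≤ 1/2`).  `N ∣ s c` gives `N/gcd(N,c) ∣ s`, so
`gcd(N, m) ≥ gcd(N, c) ≥ N/s > N R^{-1/8}`; by `Cop`: `N ≤ R^{3/8}`.  By `den_eq`,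
`den γ (R/8) = N` and `eta γ (R/8) = η`; `Gf` gives `1 ≤ 2 m η`.  Finally
`s c η = N t η < N/(2T) ≤ R^{3/8}/(2T)`. -/
theorem special (γ R T : ℝ) (s c m : ℕ) (hR : 2 ^ 48 ≤ R) (hT : R / 8 ≤ T) (hs : 1 ≤ s)
    (hs2 : (s : ℝ) < R ^ ((1 : ℝ) / 8)) (hc : 1 ≤ c) (hm : 1 ≤ m) (hcm : c ∣ m)
    (hCop : Cop γ R m) (hGf : Gf γ R m) (h1 : nd ((s * c : ℕ) * γ) < 1 / (2 * T))
    (h2 : ((s * c : ℕ) : ℝ) * eta γ T ≤ 1 / 2) :
    den γ (R / 8) = den γ T ∧ (den γ T : ℝ) ≤ R ^ ((3 : ℝ) / 8) ∧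
      1 ≤ 2 * (m : ℝ) * eta γ T ∧
      ((s * c : ℕ) : ℝ) * eta γ T < R ^ ((3 : ℝ) / 8) / (2 * T) := by
  have hR0 : (0 : ℝ) < R := lt_of_lt_of_le (by norm_num) hR
  have hR16 : (2 : ℝ) ^ 16 ≤ R := le_trans (by norm_num) hR
  have hT1 : 1 ≤ T := by
    have : (2 : ℝ) ^ 48 / 8 ≤ R / 8 := by linarith
    have h3 : (1 : ℝ) ≤ 2 ^ 48 / 8 := by norm_num
    linarith
  have hT0 : 0 < T := by linarith
  have hNpos := den_pos γ T hT0
  have hNr : (1 : ℝ) ≤ den γ T := by exact_mod_cast hNpos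
  have hNT := den_le γ T hT1
  have he0 := eta_nonneg γ T
  have hdvd : den γ T ∣ s * c := by
    by_contra hnd
    have e1 := nd_ge_of_not_dvd γ T hT0 _ hnd h2
    have e2 : 1 / (2 * T) ≤ 1 / (2 * (den γ T : ℝ)) :=
      one_div_le_one_div_of_le (by positivity) (by linarith)
    linarith
  obtain ⟨t, ht⟩ := hdvd
  have hn1 : 1 ≤ s * c := Nat.one_le_iff_ne_zero.2 (by
    have := Nat.mul_pos (show 0 < s by omega) (show 0 < c by omega)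
    omega)
  have ht1 : 1 ≤ t := by
    rcases Nat.eq_zero_or_pos t with h0 | h0
    · rw [h0, mul_zero] at ht; omega
    · exact h0
  have htle : (t : ℝ) ≤ ((s * c : ℕ) : ℝ) := by
    have : t ≤ s * c := by rw [ht]; exact Nat.le_mul_of_pos_left t (by omega)
    exact_mod_cast this
  have hteta : (t : ℝ) * eta γ T ≤ 1 / 2 := (mul_le_mul_of_nonneg_right htle he0).trans h2
  have e3 := nd_mul_den γ T t hteta
  have e4 : (t : ℝ) * eta γ T < 1 / (2 * T) := by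
    rw [← e3, mul_comm t (den γ T), ← ht]
    exact h1
  -- gcd
  have hg1 : den γ T ∣ s * Nat.gcd (den γ T) m := by
    have d1 : den γ T ∣ s * m := (Dvd.intro _ ht.symm).trans (Nat.mul_dvd_mul_left s hcm)
    have d2 : den γ T ∣ s * den γ T := Dvd.intro_left s rfl
    have d3 := Nat.dvd_gcd d2 d1
    rwa [Nat.gcd_mul_left] at d3
  have hgpos : 0 < Nat.gcd (den γ T) m := Nat.gcd_pos_of_pos_left _ (by omega)
  have hg2 : den γ T ≤ s * Nat.gcd (den γ T) m :=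
    Nat.le_of_dvd (Nat.mul_pos (by omega) hgpos) hg1
  have hR18 : 0 < R ^ ((1 : ℝ) / 8) := Real.rpow_pos_of_pos hR0 _
  have hN38 : (den γ T : ℝ) ≤ R ^ ((3 : ℝ) / 8) := by
    by_contra hcon
    push Not at hcon
    have hc1 := hCop T hT1 hcon
    have hg3 : (den γ T : ℝ) ≤ (s : ℝ) * (Nat.gcd (den γ T) m : ℝ) := by exact_mod_cast hg2
    have hgr : (0 : ℝ) < (Nat.gcd (den γ T) m : ℝ) := by exact_mod_cast hgpos
    have hc2 : (den γ T : ℝ) < R ^ ((1 : ℝ) / 8) * (Nat.gcd (den γ T) m : ℝ) :=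
      hg3.trans_lt (mul_lt_mul_of_pos_right hs2 hgr)
    have hc3 : R ^ ((1 : ℝ) / 8) * (Nat.gcd (den γ T) m : ℝ) <
        R ^ ((1 : ℝ) / 8) * (den γ T * R ^ (-(1 : ℝ) / 8)) := mul_lt_mul_of_pos_left hc1 hR18
    have hc4 : R ^ ((1 : ℝ) / 8) * (den γ T * R ^ (-(1 : ℝ) / 8)) = den γ T := by
      have : R ^ ((1 : ℝ) / 8) * R ^ (-(1 : ℝ) / 8) = 1 := by
        rw [← Real.rpow_add hR0]
        norm_num
      calc R ^ ((1 : ℝ) / 8) * (den γ T * R ^ (-(1 : ℝ) / 8))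
          = den γ T * (R ^ ((1 : ℝ) / 8) * R ^ (-(1 : ℝ) / 8)) := by ring
        _ = den γ T := by rw [this, mul_one]
    linarith
  have hden := den_eq γ R T hR16 hT hN38
  have heta : eta γ (R / 8) = eta γ T := by unfold eta; rw [hden]
  refine ⟨hden, hN38, ?_, ?_⟩
  · rcases hGf with h3 | h3
    · exfalso
      rw [hden] at h3
      linarith
    · rwa [heta] at h3
  · have hcast : ((s * c : ℕ) : ℝ) = (den γ T : ℝ) * t := by rw [ht]; push_cast; ring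
    rw [hcast]
    calc (den γ T : ℝ) * t * eta γ T = (den γ T : ℝ) * (t * eta γ T) := by ring
      _ < (den γ T : ℝ) * (1 / (2 * T)) := mul_lt_mul_of_pos_left e4 (by linarith)
      _ ≤ R ^ ((3 : ℝ) / 8) * (1 / (2 * T)) := mul_le_mul_of_nonneg_right hN38 (by positivity)
      _ = R ^ ((3 : ℝ) / 8) / (2 * T) := by ring

/-- [IDE-D4] PROOF.  From `special`: `s c ≤ 2 m η s c < m R^{3/8}/T`. -/
theorem special_lt (γ R T : ℝ) (s c m : ℕ) (hR : 2 ^ 48 ≤ R) (hT : R / 8 ≤ T) (hs : 1 ≤ s)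
    (hs2 : (s : ℝ) < R ^ ((1 : ℝ) / 8)) (hc : 1 ≤ c) (hm : 1 ≤ m) (hcm : c ∣ m)
    (hCop : Cop γ R m) (hGf : Gf γ R m) (h1 : nd ((s * c : ℕ) * γ) < 1 / (2 * T))
    (h2 : ((s * c : ℕ) : ℝ) * eta γ T ≤ 1 / 2) :
    T * ((s * c : ℕ) : ℝ) < m * R ^ ((3 : ℝ) / 8) := by
  obtain ⟨-, -, h3, h4⟩ := special γ R T s c m hR hT hs hs2 hc hm hcm hCop hGf h1 h2
  have hT0 : 0 < T := by
    have : (2 : ℝ) ^ 48 / 8 ≤ R / 8 := by linarith
    have h3 : (1 : ℝ) ≤ 2 ^ 48 / 8 := by norm_num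
    linarith
  have hm0 : (0 : ℝ) < m := by exact_mod_cast (show 0 < m by omega)
  have hn0 : (0 : ℝ) ≤ ((s * c : ℕ) : ℝ) := Nat.cast_nonneg _
  have h5 : ((s * c : ℕ) : ℝ) ≤ 2 * m * (((s * c : ℕ) : ℝ) * eta γ T) := by
    calc ((s * c : ℕ) : ℝ) = 1 * ((s * c : ℕ) : ℝ) := (one_mul _).symm
      _ ≤ (2 * (m : ℝ) * eta γ T) * ((s * c : ℕ) : ℝ) := mul_le_mul_of_nonneg_right h3 hn0
      _ = 2 * m * (((s * c : ℕ) : ℝ) * eta γ T) := by ring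
  have h6 : 2 * m * (((s * c : ℕ) : ℝ) * eta γ T) < 2 * m * (R ^ ((3 : ℝ) / 8) / (2 * T)) :=
    mul_lt_mul_of_pos_left h4 (by positivity)
  have h7 : T * (2 * m * (R ^ ((3 : ℝ) / 8) / (2 * T))) = m * R ^ ((3 : ℝ) / 8) := by
    field_simp
  calc T * ((s * c : ℕ) : ℝ) < T * (2 * m * (R ^ ((3 : ℝ) / 8) / (2 * T))) :=
        mul_lt_mul_of_pos_left (h5.trans_lt h6) hT0
    _ = m * R ^ ((3 : ℝ) / 8) := h7

end Pool.Agent.IDE
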