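import Pool.Agent.IDE.O2

set_option autoImplicit false

namespace Pool.Agent.IDE

open Finset Pool.Agent.IDS MeasureTheory

/-- the `z`-large part of `g` -/
noncomputable def zp (z : ℝ) (g : ℕ) : ℕ := by
  classical
  exact ∏ p ∈ g.primeFactors.filter (fun p : ℕ => z < (p : ℝ)), p ^ g.factorization p

/-- `∏_{p ∈ Q, p > z} (1 - 1/p)` -/
noncomputable def PZ (z : ℝ) (Q : Finset ℕ) : ℝ := by
  classical
  exact ∏ p ∈ Q.filter (fun p : ℕ => z < (p : ℝ)), (1 - 1 / (p : ℝ))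

/-- `∏_{p ∣ n, p > z} (1 - 1/p)⁻¹` -/
noncomputable def IZ (z : ℝ) (n : ℕ) : ℝ := by
  classical
  exact ∏ p ∈ n.primeFactors.filter (fun p : ℕ => z < (p : ℝ)), (1 - 1 / (p : ℝ))⁻¹

/-- `∏_{p ∈ Q, p > z, p ∣ H} (1 - 1/p)⁻¹` -/
noncomputable def EZ (z : ℝ) (Q : Finset ℕ) (H : ℤ) : ℝ := by
  classical
  exact ∏ p ∈ Q.filter (fun p : ℕ => z < (p : ℝ) ∧ (p : ℤ) ∣ H), (1 - 1 / (p : ℝ))⁻¹

/-- the elements of `Q` which are `≤ z` -/
noncomputable def QS (z : ℝ) (Q : Finset ℕ) : Finset ℕ := by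
  classical
  exact Q.filter (fun p : ℕ => (p : ℝ) ≤ z)

private lemma o3_zp_pos (z : ℝ) (g : ℕ) : 0 < zp z g := by
  classical
  unfold zp
  refine Finset.prod_pos ?_
  intro p hp
  exact pow_pos (Nat.prime_of_mem_primeFactors (mem_filter.1 hp).1).pos _

/-- the complementary factor -/
private lemma o3_compl (z : ℝ) (g : ℕ) (hg : g ≠ 0) :
    ∃ c : ℕ, zp z g * c = g ∧ ∀ p : ℕ, p.Prime → z < p → ¬ p ∣ c := by
  classical
  refine ⟨∏ p ∈ g.primeFactors.filter (fun p : ℕ => ¬ z < (p : ℝ)), p ^ g.factorization p, ?_, ?_⟩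
  · unfold zp
    rw [Finset.prod_filter_mul_prod_filter_not]
    exact Nat.prod_factorization_pow_eq_self hg
  · intro p hp hz h
    obtain ⟨q, hq, hpq⟩ := (Prime.dvd_finsetProd_iff hp.prime _).1 h
    rw [mem_filter] at hq
    have h1 : p ∣ q := hp.dvd_of_dvd_pow hpq
    have h2 : p = q := (Nat.prime_dvd_prime_iff_eq hp (Nat.prime_of_mem_primeFactors hq.1)).1 h1
    exact hq.2 (h2 ▸ hz)

private lemma o3_dvd_iff (z : ℝ) (g : ℕ) (hg : g ≠ 0) (p : ℕ) (hp : p.Prime) :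
    p ∣ zp z g ↔ p ∣ g ∧ z < p := by
  classical
  constructor
  · intro h
    unfold zp at h
    obtain ⟨q, hq, hpq⟩ := (Prime.dvd_finsetProd_iff hp.prime _).1 h
    rw [mem_filter] at hq
    have h1 : p ∣ q := hp.dvd_of_dvd_pow hpq
    have h2 : p = q := (Nat.prime_dvd_prime_iff_eq hp (Nat.prime_of_mem_primeFactors hq.1)).1 h1
    exact ⟨h2 ▸ Nat.dvd_of_mem_primeFactors hq.1, h2 ▸ hq.2⟩
  · rintro ⟨h1, h2⟩
    obtain ⟨c, hc, hc'⟩ := o3_compl z g hg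
    rw [← hc] at h1
    exact (hp.dvd_mul.1 h1).resolve_right (hc' p hp h2)

/-- [IDE-O3] The `z`-large part of `g = gcd q r` divides `g`, is positive, its primes are the primes
`p ∣ g` with `p > z`, and for such `p`: `p ∣ q / zp z g` iff `p ∣ rd q r`.

PROOF.  `q = m g`, `m = rd q r`, `q/zp z g = m (g/zp z g)` and `g/zp z g` is prime to all primes
`p > z`. -/
theorem zp_facts (z : ℝ) (q r : ℕ) (hq : 1 ≤ q) (hr : 1 ≤ r) :
    1 ≤ zp z (Nat.gcd q r) ∧ zp z (Nat.gcd q r) ∣ Nat.gcd q r ∧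
      (∀ p : ℕ, p.Prime → (p ∣ zp z (Nat.gcd q r) ↔ p ∣ Nat.gcd q r ∧ z < p)) ∧
      (∀ p : ℕ, p.Prime → z < p → (p ∣ q / zp z (Nat.gcd q r) ↔ p ∣ rd q r)) ∧
      (∀ p : ℕ, p.Prime → (p : ℝ) ≤ z → p ∣ q → p ∣ q / zp z (Nat.gcd q r)) := by
  have hg : Nat.gcd q r ≠ 0 := (Nat.gcd_pos_of_pos_left r hq).ne'
  have h0 := o3_zp_pos z (Nat.gcd q r)
  obtain ⟨c, hc, hc'⟩ := o3_compl z (Nat.gcd q r) hg
  have h1 : zp z (Nat.gcd q r) ∣ Nat.gcd q r := ⟨c, hc.symm⟩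
  have h2 : q / zp z (Nat.gcd q r) = rd q r * c := by
    apply Nat.div_eq_of_eq_mul_left h0
    calc q = rd q r * Nat.gcd q r := (rd_mul_gcd q r).symm
      _ = rd q r * (zp z (Nat.gcd q r) * c) := by rw [hc]
      _ = rd q r * c * zp z (Nat.gcd q r) := by ring
  refine ⟨h0, h1, fun p hp => o3_dvd_iff z _ hg p hp, ?_, ?_⟩
  · intro p hp hz
    rw [h2, hp.dvd_mul]
    exact ⟨fun h => h.resolve_right (hc' p hp hz), Or.inl⟩
  · intro p hp hz hpq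
    have h3 : ¬ p ∣ zp z (Nat.gcd q r) := by
      rw [o3_dvd_iff z _ hg p hp]
      exact fun h => absurd h.2 (not_lt.2 hz)
    have h4 : zp z (Nat.gcd q r) * (q / zp z (Nat.gcd q r)) = q :=
      Nat.mul_div_cancel' (h1.trans (Nat.gcd_dvd_left q r))
    rw [← h4] at hpq
    exact (hp.dvd_mul.1 hpq).resolve_left h3

/-- [IDE-O3] **Effect of a shift by `l/G`**, `G ∣ gcd q r`.

PROOF.  `q (x + l/G) - γ = (q x - γ) + (q/G) l`, an integer shift. -/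
theorem shift_round (γ : ℝ) (q G l : ℕ) (hG : 1 ≤ G) (h : G ∣ q) (x : ℝ) :
    round ((q : ℝ) * (x + (l : ℝ) / G) - γ) = round ((q : ℝ) * x - γ) + ((q / G : ℕ) : ℤ) * l ∧
      nd ((q : ℝ) * (x + (l : ℝ) / G) - γ) = nd ((q : ℝ) * x - γ) := by
  have hG0 : (G : ℝ) ≠ 0 := by positivity
  have h1 : (q : ℝ) * (x + (l : ℝ) / G) - γ = ((q : ℝ) * x - γ) + ((((q / G : ℕ) : ℤ) * l : ℤ) : ℝ) := by
    obtain ⟨c, rfl⟩ := h
    rw [Nat.mul_div_cancel_left c hG]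
    push_cast
    field_simp
    ring
  rw [h1]
  exact ⟨round_add_intCast _ _, nd_add_int _ _⟩

/-- [IDE-O3] `H` is invariant under these shifts.

PROOF.  `rd r q * (q/G) = rd q r * (r/G)`. -/
theorem shift_HH (γ : ℝ) (q r G l : ℕ) (hq : 1 ≤ q) (hr : 1 ≤ r) (hG : 1 ≤ G)
    (h : G ∣ Nat.gcd q r) (N₁ : ℕ) (P₁ : ℤ) (N₂ : ℕ) (P₂ : ℤ) (x : ℝ) :
    HH γ q r N₁ P₁ N₂ P₂ (x + (l : ℝ) / G) = HH γ q r N₁ P₁ N₂ P₂ x := by
  have hq' : G ∣ q := h.trans (Nat.gcd_dvd_left q r)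
  have hr' : G ∣ r := h.trans (Nat.gcd_dvd_right q r)
  have h3 : rd r q * (q / G) = rd q r * (r / G) := by
    obtain ⟨c, hc⟩ := h
    have e1 : q = rd q r * (G * c) := by rw [← hc]; exact (rd_mul_gcd q r).symm
    have e2 : r = rd r q * (G * c) := by
      rw [← hc, Nat.gcd_comm]; exact (rd_mul_gcd r q).symm
    have f1 : q / G = rd q r * c := by
      apply Nat.div_eq_of_eq_mul_left (by omega)
      calc q = rd q r * (G * c) := e1
        _ = _ := by ring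
    have f2 : r / G = rd r q * c := by
      apply Nat.div_eq_of_eq_mul_left (by omega)
      calc r = rd r q * (G * c) := e2
        _ = _ := by ring
    rw [f1, f2]; ring
  have h4 : ((rd r q : ℕ) : ℤ) * ((q / G : ℕ) : ℤ) = ((rd q r : ℕ) : ℤ) * ((r / G : ℕ) : ℤ) := by
    exact_mod_cast h3
  unfold HH
  rw [(shift_round γ q G l hG hq' x).1, (shift_round γ r G l hG hr' x).1]
  linear_combination ((N₂ : ℤ) * N₁ * l) * h4

end Pool.Agent.IDE
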