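import Pool.Agent.IDE.N1
import Pool.Agent.IDE.O3

set_option autoImplicit false

namespace Pool.Agent.IDE

open Finset Pool.Agent.IDS

theorem ex_inv_le (p : ℕ) (hp : p.Prime) : (1 - 1 / (p : ℝ))⁻¹ ≤ Real.exp (2 * (1 / (p : ℝ))) := by
  have h2 : (2 : ℝ) ≤ p := by exact_mod_cast hp.two_le
  have hx0 : 0 < 1 / (p : ℝ) := by positivity
  have hx1 : 1 / (p : ℝ) ≤ 1 / 2 := one_div_le_one_div_of_le (by norm_num) h2
  have h3 : 1 + 2 * (1 / (p : ℝ)) ≤ Real.exp (2 * (1 / (p : ℝ))) := by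
    have := Real.add_one_le_exp (2 * (1 / (p : ℝ))); linarith
  refine le_trans ?_ h3
  rw [inv_le_iff_one_le_mul₀ (by linarith)]
  nlinarith

theorem ex_inv_one_le (p : ℕ) (hp : p.Prime) : 1 ≤ (1 - 1 / (p : ℝ))⁻¹ := by
  have h2 : (2 : ℝ) ≤ p := by exact_mod_cast hp.two_le
  have hx0 : 0 < 1 / (p : ℝ) := by positivity
  have hx1 : 1 / (p : ℝ) ≤ 1 / 2 := one_div_le_one_div_of_le (by norm_num) h2
  exact one_le_inv₀ (by linarith) |>.mpr (by linarith)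

theorem ex_prod_le (F : Finset ℕ) (hF : ∀ p ∈ F, p.Prime) :
    ∏ p ∈ F, (1 - 1 / (p : ℝ))⁻¹ ≤ Real.exp (2 * ∑ p ∈ F, 1 / (p : ℝ)) := by
  rw [Finset.mul_sum, Real.exp_sum]
  apply Finset.prod_le_prod
  · intro p hp
    have := ex_inv_one_le p (hF p hp)
    linarith
  · intro p hp
    exact ex_inv_le p (hF p hp)

theorem ex_card (F : Finset ℕ) (H : ℤ) (hH : H ≠ 0) (y : ℝ) (hy : 1 ≤ y)
    (hF : ∀ p ∈ F, p.Prime ∧ y ≤ p ∧ (p : ℤ) ∣ H) : y ^ F.card ≤ |(H : ℝ)| := by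
  have h1 : (∏ p ∈ F, p) ∣ H.natAbs := by
    apply Finset.prod_primes_dvd
    · intro p hp
      exact (hF p hp).1.prime
    · intro p hp
      exact Int.natCast_dvd.mp (hF p hp).2.2
  have h2 : (∏ p ∈ F, p) ≤ H.natAbs := Nat.le_of_dvd (Int.natAbs_pos.mpr hH) h1
  have h3 : ((∏ p ∈ F, p : ℕ) : ℝ) ≤ (H.natAbs : ℝ) := by exact_mod_cast h2
  have h4 : (H.natAbs : ℝ) = |(H : ℝ)| := by
    rw [Nat.cast_natAbs, Int.cast_abs]
  rw [h4] at h3
  refine le_trans ?_ h3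
  push_cast
  calc y ^ F.card = ∏ _p ∈ F, y := by rw [Finset.prod_const]
    _ ≤ ∏ p ∈ F, (p : ℝ) := Finset.prod_le_prod (fun p _ => by linarith) (fun p hp => (hF p hp).2.1)

theorem ex_sum (F : Finset ℕ) (y : ℝ) (hy : 1 ≤ y) (hF : ∀ p ∈ F, y ≤ (p : ℝ)) :
    ∑ p ∈ F, 1 / (p : ℝ) ≤ F.card / y := by
  calc ∑ p ∈ F, 1 / (p : ℝ) ≤ ∑ _p ∈ F, 1 / y := Finset.sum_le_sum fun p hp =>
        one_div_le_one_div_of_le (by linarith) (hF p hp)
    _ = F.card / y := by rw [Finset.sum_const, nsmul_eq_mul]; ring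

/-- [IDE-EX] **Excess for bounded `D`.**

PROOF.  The product runs over primes `p ∣ H`, `p ∈ Q` (so `p > log Z`, `p ≥ 2`); there are at most
`log₂ |H| ≤ log₂ (4 D Z²)` of them.  `(1-1/p)⁻¹ ≤ 1 + 2/p ≤ exp (2/p)`.  If `log Z ≥ 1`: `∑ 1/p ≤
log₂ (4 D Z²)/log Z ≤ log₂ (4D) + 2/log 2`; if `log Z < 1`: `∑ 1/p ≤ log₂ (4 D Z²)/2 ≤ log₂ (4D) + 3`.  So
the product is `≤ exp (2 log₂ (4D) + 6)` (for `D ≥ 1/4`). -/
theorem EZ_bdd (D : ℝ) (hD : 1 ≤ D) :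
    ∃ C : ℝ, 0 < C ∧ ∀ (Q : Finset ℕ) (Z : ℝ) (H : ℤ), 1 ≤ Z → H ≠ 0 →
      |(H : ℝ)| ≤ 4 * D * Z ^ 2 → (∀ p ∈ Q, p.Prime ∧ Real.log Z < p) → EZ 0 Q H ≤ C := by
  classical
  refine ⟨Real.exp (2 * ((Real.log (4 * D) / 2 + 2) / Real.log 2)), Real.exp_pos _, ?_⟩
  intro Q Z H hZ hH hH2 hQ
  have hl2 : 0 < Real.log 2 := Real.log_pos (by norm_num)
  have hlZ : 0 ≤ Real.log Z := Real.log_nonneg hZ
  have hlD : 0 ≤ Real.log (4 * D) := Real.log_nonneg (by linarith)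
  have hmem : ∀ p ∈ Q.filter (fun p : ℕ => (0 : ℝ) < (p : ℝ) ∧ (p : ℤ) ∣ H),
      p.Prime ∧ Real.log Z < p ∧ (p : ℤ) ∣ H := by
    intro p hp
    rw [Finset.mem_filter] at hp
    exact ⟨(hQ p hp.1).1, (hQ p hp.1).2, hp.2.2⟩
  have hEZ : EZ 0 Q H = ∏ p ∈ Q.filter (fun p : ℕ => (0 : ℝ) < (p : ℝ) ∧ (p : ℤ) ∣ H),
      (1 - 1 / (p : ℝ))⁻¹ := by
    unfold EZ
    congr!
  rw [hEZ]
  set F := Q.filter (fun p : ℕ => (0 : ℝ) < (p : ℝ) ∧ (p : ℤ) ∣ H) with hFdef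
  refine (ex_prod_le F (fun p hp => (hmem p hp).1)).trans ?_
  apply Real.exp_le_exp.mpr
  apply mul_le_mul_of_nonneg_left _ (by norm_num)
  have hc := ex_card F H hH 2 (by norm_num) (fun p hp =>
    ⟨(hmem p hp).1, by exact_mod_cast (hmem p hp).1.two_le, (hmem p hp).2.2⟩)
  have hk : (F.card : ℝ) * Real.log 2 ≤ Real.log (4 * D) + 2 * Real.log Z := by
    have h1 : Real.log ((2 : ℝ) ^ F.card) ≤ Real.log (4 * D * Z ^ 2) :=
      Real.log_le_log (by positivity) (hc.trans hH2)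
    rw [Real.log_pow, Real.log_mul (by positivity) (by positivity), Real.log_pow] at h1
    push_cast at h1
    exact h1
  have hs := ex_sum F (max 2 (Real.log Z)) (le_max_of_le_left (by norm_num)) (fun p hp =>
    max_le (by exact_mod_cast (hmem p hp).1.two_le) (hmem p hp).2.1.le)
  refine hs.trans ?_
  set y := max 2 (Real.log Z) with hy
  have hy2 : 2 ≤ y := le_max_left _ _
  have hyL : Real.log Z ≤ y := le_max_right _ _
  rw [div_le_div_iff₀ (by linarith) hl2]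
  have h3 : Real.log (4 * D) + 2 * Real.log Z ≤ (Real.log (4 * D) / 2 + 2) * y := by nlinarith
  linarith

/-- [IDE-EX] **Excess above `z`.**

PROOF.  Let `y = max (z, log Z) ≥ 2`.  All primes `p` of the product are `> y` (the elements of `Q` are
`> log Z`) and divide `H ≠ 0`, so their number `k` satisfies `y^k ≤ |H|`,
`k log y ≤ log |H| ≤ log 4 + 4 z log 2 + 2 log Z ≤ 8 y`, and
`∑ 1/p ≤ k/y ≤ 8/log y ≤ 8/log z`.  `(1-1/p)⁻¹ ≤ exp (2/p)`. -/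
theorem EZ_large (Q : Finset ℕ) (Z z : ℝ) (H : ℤ) (hz : 2 ≤ z) (hZ : 1 ≤ Z) (hH : H ≠ 0)
    (hH2 : |(H : ℝ)| ≤ 4 * (2 : ℝ) ^ (4 * z) * Z ^ 2)
    (hQ : ∀ p ∈ Q, p.Prime ∧ Real.log Z < p) : EZ z Q H ≤ Real.exp (16 / Real.log z) := by
  classical
  have hlz : 0 < Real.log z := Real.log_pos (by linarith)
  have hlZ : 0 ≤ Real.log Z := Real.log_nonneg hZ
  have hmem : ∀ p ∈ Q.filter (fun p : ℕ => z < (p : ℝ) ∧ (p : ℤ) ∣ H),
      p.Prime ∧ Real.log Z < p ∧ z < (p : ℝ) ∧ (p : ℤ) ∣ H := by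
    intro p hp
    rw [Finset.mem_filter] at hp
    exact ⟨(hQ p hp.1).1, (hQ p hp.1).2, hp.2.1, hp.2.2⟩
  have hEZ : EZ z Q H = ∏ p ∈ Q.filter (fun p : ℕ => z < (p : ℝ) ∧ (p : ℤ) ∣ H),
      (1 - 1 / (p : ℝ))⁻¹ := by
    unfold EZ
    congr!
  rw [hEZ]
  set F := Q.filter (fun p : ℕ => z < (p : ℝ) ∧ (p : ℤ) ∣ H) with hFdef
  refine (ex_prod_le F (fun p hp => (hmem p hp).1)).trans ?_
  apply Real.exp_le_exp.mpr
  set y := max z (Real.log Z) with hy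
  have hyz : z ≤ y := le_max_left _ _
  have hyL : Real.log Z ≤ y := le_max_right _ _
  have hy2 : 2 ≤ y := hz.trans hyz
  have hyp : ∀ p ∈ F, y ≤ (p : ℝ) := fun p hp =>
    max_le (hmem p hp).2.2.1.le (hmem p hp).2.1.le
  have hc := ex_card F H hH y (by linarith) (fun p hp =>
    ⟨(hmem p hp).1, hyp p hp, (hmem p hp).2.2.2⟩)
  have hly : 0 < Real.log y := Real.log_pos (by linarith)
  have hk : (F.card : ℝ) * Real.log y ≤ 8 * y := by
    have h1 : Real.log (y ^ F.card) ≤ Real.log (4 * (2 : ℝ) ^ (4 * z) * Z ^ 2) :=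
      Real.log_le_log (by positivity) (hc.trans hH2)
    rw [Real.log_pow, Real.log_mul (by positivity) (by positivity), Real.log_pow,
      Real.log_mul (by norm_num) (by positivity), Real.log_rpow (by norm_num)] at h1
    push_cast at h1
    have h4 : Real.log 4 = 2 * Real.log 2 := by
      rw [show (4 : ℝ) = 2 ^ 2 by norm_num, Real.log_pow]; norm_num
    have hlog2 : Real.log 2 < 0.7 := by
      have := Real.log_two_lt_d9; linarith
    have hlog20 : 0 < Real.log 2 := Real.log_pos (by norm_num)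
    rw [h4] at h1
    nlinarith
  have hs := ex_sum F y (by linarith) hyp
  have h5 : (F.card : ℝ) / y ≤ 8 / Real.log y := by
    rw [div_le_div_iff₀ (by linarith) hly]
    linarith
  have h6 : 8 / Real.log y ≤ 8 / Real.log z :=
    div_le_div_of_nonneg_left (by norm_num) hlz (Real.log_le_log (by linarith) hyz)
  have h7 : 16 / Real.log z = 2 * (8 / Real.log z) := by ring
  rw [h7]
  linarith

/-- [IDE-EX] PROOF. `Fw n = ∏_{p ∣ n} (1-1/p)⁻¹`; `IZ 0` of a product of coprime numbers. -/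
theorem IZ_zero (m m' : ℕ) (hm : 1 ≤ m) (hm' : 1 ≤ m') (h : Nat.Coprime m m') :
    IZ 0 (m * m') = Fw m * Fw m' := by
  classical
  have key : ∀ n : ℕ, 1 ≤ n → ∏ p ∈ n.primeFactors, (1 - 1 / (p : ℝ))⁻¹ = Fw n := by
    intro n hn
    unfold Fw
    have h1 : (Nat.totient n : ℝ) = n * ∏ p ∈ n.primeFactors, (1 - 1 / (p : ℝ)) := by
      have h2 := Nat.totient_eq_mul_prod_factors n
      have h3 : ((Nat.totient n : ℚ) : ℝ) =
          ((n * ∏ p ∈ n.primeFactors, (1 - (p : ℚ)⁻¹) : ℚ) : ℝ) := by rw [h2]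
      push_cast at h3
      rw [h3]
      congr 1
      apply Finset.prod_congr rfl
      intro p _
      rw [one_div]
    rw [h1, Finset.prod_inv_distrib]
    have h4 : (n : ℝ) ≠ 0 := by exact_mod_cast (by omega : n ≠ 0)
    field_simp
  have h0 : ∀ n : ℕ, IZ 0 n = ∏ p ∈ n.primeFactors, (1 - 1 / (p : ℝ))⁻¹ := by
    intro n
    unfold IZ
    congr 1
    apply Finset.filter_true_of_mem
    intro p hp
    exact_mod_cast (Nat.prime_of_mem_primeFactors hp).pos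
  rw [h0, Nat.Coprime.primeFactors_mul h, Finset.prod_union h.disjoint_primeFactors, key m hm,
    key m' hm']

/-- [IDE-EX] PROOF. `(1-1/p)⁻¹ ≤ exp (2/p)`. -/
theorem IZ_le_exp (z : ℝ) (n : ℕ) :
    IZ z n ≤ Real.exp (2 * ∑ p ∈ n.primeFactors.filter (fun p : ℕ => z < (p : ℝ)), 1 / (p : ℝ)) := by
  classical
  have hIZ : IZ z n = ∏ p ∈ n.primeFactors.filter (fun p : ℕ => z < (p : ℝ)),
      (1 - 1 / (p : ℝ))⁻¹ := by
    unfold IZ
    congr!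
  rw [hIZ]
  have := ex_prod_le (n.primeFactors.filter (fun p : ℕ => z < (p : ℝ))) (fun p hp =>
    Nat.prime_of_mem_primeFactors (Finset.mem_filter.mp hp).1)
  refine this.trans (le_of_eq ?_)
  congr!

/-- [IDE-EX] PROOF.  `(∏_{p∈Q, p ≤ z} (1-1/p))⁻¹ ≤ C₁ (1 + log z)` (`mertens_upper`), `#(QS z Q) ≤ z`; so with
`z = (1/4) log₂ D`: `2^{#+#} ≤ 2^{2z} = D^{1/2}` and the quotient of the error term and the main term of
`O_small` is `≤ (1/2) C₁² (1+log z)² D^{1/2}/D ≤ D^{-1/4}` for `D ≥ D₁`. -/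
theorem small_error :
    ∃ D₁ : ℝ, 2 ^ 16 ≤ D₁ ∧ ∀ (D : ℝ) (Q₁ Q₂ : Finset ℕ), D₁ ≤ D → (∀ p ∈ Q₁, p.Prime) →
      (∀ p ∈ Q₂, p.Prime) →
      2 ^ ((QS (Real.logb 2 D / 4) Q₁).card + (QS (Real.logb 2 D / 4) Q₂).card) * (2 / D) ≤
        4 * (∏ p ∈ QS (Real.logb 2 D / 4) Q₁, (1 - 1 / (p : ℝ))) *
          (∏ p ∈ QS (Real.logb 2 D / 4) Q₂, (1 - 1 / (p : ℝ))) * D ^ (-(1 : ℝ) / 4) := by
  classical
  obtain ⟨C, hC, hM⟩ := mertens_upper
  -- `C² z² ≤ 2 · 2^z` for large `z`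
  have hlog20 : 0 < Real.log 2 := Real.log_pos (by norm_num)
  obtain ⟨z0, hz0⟩ : ∃ z0 : ℝ, ∀ z : ℝ, z0 ≤ z → C ^ 2 * z ^ 2 ≤ 2 * (2 : ℝ) ^ z := by
    have h1 := (Real.tendsto_pow_mul_exp_neg_atTop_nhds_zero 2)
    have h2 : Filter.Tendsto (fun z : ℝ => z * Real.log 2) Filter.atTop Filter.atTop :=
      Filter.Tendsto.atTop_mul_const hlog20 Filter.tendsto_id
    have h3 := h1.comp h2
    have h4 : (0 : ℝ) < 2 * (Real.log 2) ^ 2 / C ^ 2 := by positivity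
    obtain ⟨z0, hz0⟩ := Filter.eventually_atTop.mp (h3.eventually (gt_mem_nhds h4))
    refine ⟨z0, fun z hz => ?_⟩
    have h5 := (hz0 z hz).le
    simp only [Function.comp] at h5
    have h6 : (2 : ℝ) ^ z = Real.exp (z * Real.log 2) := by
      rw [Real.rpow_def_of_pos (by norm_num), mul_comm]
    rw [h6]
    rw [Real.exp_neg, mul_inv_le_iff₀ (Real.exp_pos _), mul_pow] at h5
    have h7 : C ^ 2 * z ^ 2 = (z ^ 2 * Real.log 2 ^ 2) * (C ^ 2 / Real.log 2 ^ 2) := by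
      field_simp
    rw [h7]
    calc (z ^ 2 * Real.log 2 ^ 2) * (C ^ 2 / Real.log 2 ^ 2)
        ≤ (2 * Real.log 2 ^ 2 / C ^ 2 * Real.exp (z * Real.log 2)) *
          (C ^ 2 / Real.log 2 ^ 2) := mul_le_mul_of_nonneg_right h5 (by positivity)
      _ = 2 * Real.exp (z * Real.log 2) := by field_simp
  refine ⟨max (2 ^ 16) ((2 : ℝ) ^ (4 * z0)), le_max_left _ _, ?_⟩
  intro D Q₁ Q₂ hD hQ₁ hQ₂
  have hD16 : (2 : ℝ) ^ 16 ≤ D := (le_max_left _ _).trans hD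
  have hDz0 : (2 : ℝ) ^ (4 * z0) ≤ D := (le_max_right _ _).trans hD
  have hD0 : 0 < D := lt_of_lt_of_le (by norm_num) hD16
  set z := Real.logb 2 D / 4 with hz
  have hz4 : 4 ≤ z := by
    have : (16 : ℝ) ≤ Real.logb 2 D := by
      rw [Real.le_logb_iff_rpow_le (by norm_num) hD0]
      exact_mod_cast hD16
    linarith
  have hzz0 : z0 ≤ z := by
    have : 4 * z0 ≤ Real.logb 2 D := by
      rw [Real.le_logb_iff_rpow_le (by norm_num) hD0]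
      exact hDz0
    linarith
  have hDz : D = (2 : ℝ) ^ (4 * z) := by
    rw [hz, show 4 * (Real.logb 2 D / 4) = Real.logb 2 D by ring,
      Real.rpow_logb (by norm_num) (by norm_num) hD0]
  -- the cardinalities
  have hcard : ∀ Q : Finset ℕ, (∀ p ∈ Q, p.Prime) → ((QS z Q).card : ℝ) ≤ z := by
    intro Q hQ
    have h1 : QS z Q ⊆ Finset.Ioc 0 ⌊z⌋₊ := by
      intro p hp
      unfold QS at hp
      rw [Finset.mem_filter] at hp
      rw [Finset.mem_Ioc]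
      exact ⟨(hQ p hp.1).pos, Nat.le_floor hp.2⟩
    have h2 := Finset.card_le_card h1
    rw [Nat.card_Ioc, Nat.sub_zero] at h2
    calc ((QS z Q).card : ℝ) ≤ (⌊z⌋₊ : ℝ) := by exact_mod_cast h2
      _ ≤ z := Nat.floor_le (by linarith)
  -- the products
  have hprod : ∀ Q : Finset ℕ, (∀ p ∈ Q, p.Prime) →
      0 < ∏ p ∈ QS z Q, (1 - 1 / (p : ℝ)) ∧ 1 ≤ C * z * ∏ p ∈ QS z Q, (1 - 1 / (p : ℝ)) := by
    intro Q hQ
    have hpr : ∀ p ∈ QS z Q, p.Prime ∧ (p : ℝ) ≤ z := by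
      intro p hp
      unfold QS at hp
      rw [Finset.mem_filter] at hp
      exact ⟨hQ p hp.1, hp.2⟩
    have h1 := hM z (QS z Q) (by linarith) hpr
    have hpos : 0 < ∏ p ∈ QS z Q, (1 - 1 / (p : ℝ)) := by
      apply Finset.prod_pos
      intro p hp
      have h2 : (2 : ℝ) ≤ p := by exact_mod_cast (hpr p hp).1.two_le
      have hx1 : 1 / (p : ℝ) ≤ 1 / 2 := one_div_le_one_div_of_le (by norm_num) h2
      linarith
    refine ⟨hpos, ?_⟩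
    rw [Finset.prod_inv_distrib] at h1
    have h2 : 1 + Real.log z ≤ z := by
      have := Real.log_le_sub_one_of_pos (show 0 < z by linarith); linarith
    have h3 : (∏ p ∈ QS z Q, (1 - 1 / (p : ℝ)))⁻¹ ≤ C * z :=
      h1.trans (mul_le_mul_of_nonneg_left h2 hC.le)
    rwa [inv_le_iff_one_le_mul₀ hpos] at h3
  obtain ⟨hP1, hP1'⟩ := hprod Q₁ hQ₁
  obtain ⟨hP2, hP2'⟩ := hprod Q₂ hQ₂
  set P1 := ∏ p ∈ QS z Q₁, (1 - 1 / (p : ℝ)) with hP1def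
  set P2 := ∏ p ∈ QS z Q₂, (1 - 1 / (p : ℝ)) with hP2def
  have hpow : (2 : ℝ) ^ ((QS z Q₁).card + (QS z Q₂).card) ≤ (2 : ℝ) ^ (2 * z) := by
    rw [← Real.rpow_natCast]
    apply Real.rpow_le_rpow_of_exponent_le (by norm_num)
    push_cast
    have h1 := hcard Q₁ hQ₁
    have h2 := hcard Q₂ hQ₂
    linarith
  have hDq : D ^ (-(1 : ℝ) / 4) = (2 : ℝ) ^ (-z) := by
    rw [hDz, ← Real.rpow_mul (by norm_num)]
    congr 1
    ring
  have h2D : (2 : ℝ) / D = 2 * (2 : ℝ) ^ (-(4 * z)) := by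
    rw [hDz, Real.rpow_neg (by norm_num)]
    ring
  rw [hDq, h2D]
  have hzC := hz0 z hzz0
  have hz0' : 0 < z := by linarith
  have hkey : (1 : ℝ) ≤ (C * z * P1) * (C * z * P2) := by nlinarith
  have hkey2 : 1 ≤ 2 * (2 : ℝ) ^ z * (P1 * P2) := by
    have hre : (C * z * P1) * (C * z * P2) = (C ^ 2 * z ^ 2) * (P1 * P2) := by ring
    calc (1 : ℝ) ≤ (C ^ 2 * z ^ 2) * (P1 * P2) := by rw [← hre]; exact hkey
      _ ≤ 2 * (2 : ℝ) ^ z * (P1 * P2) := mul_le_mul_of_nonneg_right hzC (by positivity)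
  have hp2z : (0 : ℝ) < (2 : ℝ) ^ (-(2 * z)) := Real.rpow_pos_of_pos (by norm_num) _
  calc (2 : ℝ) ^ ((QS z Q₁).card + (QS z Q₂).card) * (2 * (2 : ℝ) ^ (-(4 * z)))
      ≤ (2 : ℝ) ^ (2 * z) * (2 * (2 : ℝ) ^ (-(4 * z))) :=
        mul_le_mul_of_nonneg_right hpow (by positivity)
    _ = 2 * (2 : ℝ) ^ (-(2 * z)) := by
        rw [show (2 : ℝ) ^ (2 * z) * (2 * (2 : ℝ) ^ (-(4 * z))) =
          2 * ((2 : ℝ) ^ (2 * z) * (2 : ℝ) ^ (-(4 * z))) by ring, ← Real.rpow_add (by norm_num)]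
        congr 2
        ring
    _ ≤ 2 * (2 : ℝ) ^ (-(2 * z)) * (2 * (2 : ℝ) ^ z * (P1 * P2)) :=
        le_mul_of_one_le_right (by positivity) hkey2
    _ = 4 * P1 * P2 * (2 : ℝ) ^ (-z) := by
        have h8 : (2 : ℝ) ^ (-z) = (2 : ℝ) ^ (-(2 * z)) * (2 : ℝ) ^ z := by
          rw [← Real.rpow_add (by norm_num)]
          congr 1
          ring
        rw [h8]
        ring

end Pool.Agent.IDE
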