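import Pool.Agent.IDE.MO

set_option autoImplicit false

namespace Pool.Agent.IDE

open Finset Pool.Agent.IDS MeasureTheory Filter

private theorem fm_gen {P : Measure ℝ} [IsProbabilityMeasure P] (S : Finset ℕ) (E : ℕ → Set ℝ)
    (hE : ∀ q, MeasurableSet (E q)) (c : ℕ → ℝ) (t : ℝ) :
    0 ≤ (1 - P.real {x | ∀ q ∈ S, x ∉ E q}) * (t * t) +
      (-(2 * ∑ q ∈ S, c q * P.real (E q))) * t +
        ∑ q ∈ S, ∑ r ∈ S, c q * c r * P.real (E q ∩ E r) := by
  set W := ∑ q ∈ S, c q * P.real (E q) with hW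
  set M := ∑ q ∈ S, ∑ r ∈ S, c q * c r * P.real (E q ∩ E r) with hM
  set B : Set ℝ := {x | ∀ q ∈ S, x ∉ E q} with hBdef
  let f : ℝ → ℝ := fun x => ∑ q ∈ S, c q * (E q).indicator 1 x
  have hfi : ∀ A : Set ℝ, MeasurableSet A → Integrable (fun x => A.indicator (1 : ℝ → ℝ) x) P :=
    fun A hA => (integrable_const (1 : ℝ)).indicator hA
  have hval : ∀ A : Set ℝ, MeasurableSet A →
      ∫ x, A.indicator (1 : ℝ → ℝ) x ∂P = P.real A := fun A hA => integral_indicator_one hA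
  have h1 : ∫ x, f x ∂P = W := by
    simp only [f]
    rw [integral_finsetSum _ fun q _ => (hfi _ (hE q)).const_mul _]
    refine Finset.sum_congr rfl fun q _ => ?_
    rw [integral_const_mul, hval _ (hE q)]
  have hf2 : ∀ x, f x ^ 2 = ∑ q ∈ S, ∑ r ∈ S, c q * c r * (E q ∩ E r).indicator 1 x := by
    intro x
    simp only [f]
    rw [pow_two, Finset.sum_mul_sum]
    refine Finset.sum_congr rfl fun q _ => Finset.sum_congr rfl fun r _ => ?_
    rw [Set.inter_indicator_one]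
    simp only [Pi.mul_apply]
    ring
  have hfint : Integrable f P := integrable_finsetSum _ fun q _ => (hfi _ (hE q)).const_mul _
  have hf2int : Integrable (fun x => f x ^ 2) P := by
    simp_rw [hf2]
    exact integrable_finsetSum _ fun q _ => integrable_finsetSum _ fun r _ =>
      (hfi _ ((hE q).inter (hE r))).const_mul _
  have h2 : ∫ x, f x ^ 2 ∂P = M := by
    simp_rw [hf2]
    rw [integral_finsetSum _ fun q _ => integrable_finsetSum _ fun r _ =>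
      (hfi _ ((hE q).inter (hE r))).const_mul _]
    refine Finset.sum_congr rfl fun q _ => ?_
    rw [integral_finsetSum _ fun r _ => (hfi _ ((hE q).inter (hE r))).const_mul _]
    refine Finset.sum_congr rfl fun r _ => ?_
    rw [integral_const_mul, hval _ ((hE q).inter (hE r))]
  have hB : MeasurableSet B := by
    have : B = ⋂ q ∈ S, (E q)ᶜ := by
      ext x; simp [hBdef]
    rw [this]
    exact Finset.measurableSet_biInter _ fun q _ => (hE q).compl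
  have h3e : ∀ x, (f x - t * (Bᶜ).indicator (1 : ℝ → ℝ) x) ^ 2 =
      f x ^ 2 - 2 * t * f x + t ^ 2 * (Bᶜ).indicator (1 : ℝ → ℝ) x := by
    intro x
    by_cases hx : x ∈ B
    · have hfx : f x = 0 := by
        simp only [f]
        refine Finset.sum_eq_zero fun q hq => ?_
        rw [Set.indicator_of_notMem (hx q hq), mul_zero]
      rw [Set.indicator_of_notMem (by simpa using hx), hfx]
      ring
    · rw [Set.indicator_of_mem (by simpa using hx)]
      simp only [Pi.one_apply]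
      ring
  have h3 : ∫ x, (f x - t * (Bᶜ).indicator (1 : ℝ → ℝ) x) ^ 2 ∂P =
      M - 2 * t * W + t ^ 2 * P.real Bᶜ := by
    simp_rw [h3e]
    have ha : Integrable (fun x => f x ^ 2 - 2 * t * f x) P := hf2int.sub (hfint.const_mul _)
    rw [integral_add ha ((hfi _ hB.compl).const_mul _),
      integral_sub hf2int (hfint.const_mul _), integral_const_mul, integral_const_mul, h1, h2,
      hval _ hB.compl]
  have h4 : P.real Bᶜ = 1 - P.real B := by
    rw [measureReal_compl hB]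
    simp
  have h5 : 0 ≤ ∫ x, (f x - t * (Bᶜ).indicator (1 : ℝ → ℝ) x) ^ 2 ∂P :=
    integral_nonneg fun x => sq_nonneg _
  rw [h3, h4] at h5
  linarith [h5]

/-- [IDE-FM] **Second moment method.** -/
theorem second_moment2 (S : Finset ℕ) (c : ℕ → ℝ) (hc : ∀ q, 0 ≤ c q) (A : ℕ → Set ℝ)
    (hA : ∀ q, MeasurableSet (A q)) :
    (∑ q ∈ S, c q * vl (A q)) ^ 2 ≤
      (1 - vl {x | ∀ q ∈ S, x ∉ A q}) * ∑ q ∈ S, ∑ r ∈ S, c q * c r * vl (A q ∩ A r) := by
  let P : Measure ℝ := volume.restrict (Set.Icc (0 : ℝ) 1)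
  have hP : IsProbabilityMeasure P := ⟨by simp [P]⟩
  have hvl : ∀ B : Set ℝ, MeasurableSet B → P.real B = vl B := by
    intro B hB
    simp only [P, Measure.real, vl]
    rw [Measure.restrict_apply hB]
  have hB : MeasurableSet {x | ∀ q ∈ S, x ∉ A q} := by
    have : {x | ∀ q ∈ S, x ∉ A q} = ⋂ q ∈ S, (A q)ᶜ := by
      ext x; simp
    rw [this]
    exact Finset.measurableSet_biInter _ fun q _ => (hA q).compl
  have h1 := discrim_le_zero (fm_gen (P := P) S A hA c)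
  unfold discrim at h1
  simp only [hvl _ hB, hvl _ (hA _), hvl _ ((hA _).inter (hA _))] at h1
  nlinarith [h1]

private theorem fm_limit (C ϑ b : ℝ) (hϑ2 : ϑ < 2) (hϑ0 : 0 < ϑ) (hC : 0 < C)
    (h : ∀ A : ℝ, ∃ W : ℝ, A ≤ W ∧ W ^ 2 * b ≤ C * (1 + W) ^ ϑ) : b ≤ 0 := by
  by_contra hb
  push Not at hb
  have h2 : Tendsto (fun W : ℝ => W ^ (-(2 - ϑ))) atTop (nhds 0) :=
    tendsto_rpow_neg_atTop (by linarith)
  have h3 : Tendsto (fun W : ℝ => C * 2 ^ ϑ * W ^ (-(2 - ϑ))) atTop (nhds 0) := by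
    have := h2.const_mul (C * 2 ^ ϑ)
    simpa using this
  have h4 : ∀ᶠ W : ℝ in atTop, C * 2 ^ ϑ * W ^ (-(2 - ϑ)) < b := h3.eventually_lt_const hb
  rw [eventually_atTop] at h4
  obtain ⟨A, hA⟩ := h4
  obtain ⟨W, hW, hineq⟩ := h (max A 1)
  have hW1 : 1 ≤ W := (le_max_right _ _).trans hW
  have hW0 : 0 < W := by linarith
  have h5 := hA W ((le_max_left _ _).trans hW)
  have h6 : (1 + W) ^ ϑ ≤ 2 ^ ϑ * W ^ ϑ := by
    rw [← Real.mul_rpow (by norm_num) hW0.le]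
    exact Real.rpow_le_rpow (by linarith) (by linarith) hϑ0.le
  have h8 : W ^ 2 * W ^ (-(2 - ϑ)) = W ^ ϑ := by
    rw [← Real.rpow_natCast, ← Real.rpow_add hW0]
    congr 1
    push_cast
    ring
  have h9 : W ^ 2 * (C * 2 ^ ϑ * W ^ (-(2 - ϑ))) = C * (2 ^ ϑ * W ^ ϑ) := by
    calc _ = C * (2 ^ ϑ * (W ^ 2 * W ^ (-(2 - ϑ)))) := by ring
      _ = _ := by rw [h8]
  have h10 : C * (1 + W) ^ ϑ ≤ C * (2 ^ ϑ * W ^ ϑ) := mul_le_mul_of_nonneg_left h6 hC.le
  have h11 : W ^ 2 * (C * 2 ^ ϑ * W ^ (-(2 - ϑ))) < W ^ 2 * b :=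
    mul_lt_mul_of_pos_left h5 (by positivity)
  linarith

private theorem fm_tc_nonneg (γ : ℝ) (κ : ℕ → ℕ) (q : ℕ) : 0 ≤ tc γ κ q := by
  rcases Nat.eq_zero_or_pos q with rfl | hq
  · unfold tc
    simp
  · exact (tc_nonneg_le γ κ q hq).1

/-- [IDE-FM] **Full measure for level data, every real `γ`.** -/
theorem full_measure (γ : ℝ) (ε : ℝ) (hε : 0 < ε) (hε1 : ε ≤ 1)
    (S : Set ℕ) (κ : ℕ → ℕ) (Ω La : ℕ → ℝ)
    (hS : ∀ q ∈ S, 1 ≤ q ∧ (q : ℝ) * (1 / 2 : ℝ) ^ κ q < 1 / 2)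
    (hL1 : ∀ k, 1 ≤ La k) (hΩ0 : ∀ k, 0 ≤ Ω k) (hΩ : ∀ k, Ω k * (La k) ^ ε ≤ 1)
    (hL : ∀ (F : Finset ℕ) (k : ℕ), (∀ q ∈ F, q ∈ S ∧ κ q = k) →
      1 + Real.log ((F.image (Nat.log 2)).card : ℝ) ≤ La k ∨
        1 + Real.log (1 + Real.log ((k : ℝ) + 1)) ≤ La k)
    (hdiv : ¬ Summable (S.indicator
      (fun q => Ω (κ q) * ((Nat.totient q : ℝ) * (1 / 2 : ℝ) ^ κ q)))) :
    ∀ᵐ x ∂(volume.restrict (Set.Icc (0 : ℝ) 1)),
      ∃ᶠ q : ℕ in atTop, q ∈ S ∧ nd (q * x - γ) ≤ q * (1 / 2 : ℝ) ^ κ q := by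
  classical
  set μ : ℕ → ℝ := fun q => Ω (κ q) * nu κ q with hμdef
  have hμ0 : ∀ q, 0 ≤ μ q := fun q => mul_nonneg (hΩ0 _) (by unfold nu; positivity)
  have hAdm : ∀ q ∈ S, Adm κ q := fun q hq => hS q hq
  have hDat : ∀ F : Finset ℕ, (∀ q ∈ F, q ∈ S) → Dat3 ε F κ Ω La μ := by
    intro F hF
    refine ⟨fun v hv => (hS v (hF v hv)).1, hμ0, fun v _ => le_refl _, hL1, hΩ0, hΩ, fun k => ?_⟩
    apply hL
    intro q hq
    rw [mem_filter] at hq
    exact ⟨hF q hq.1, hq.2⟩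
  have hmeas : ∀ q, MeasurableSet (Ax γ κ q) := fun q => measurableSet_AS _ _ _ _ _ _
  have hvl0 : ∀ A : Set ℝ, 0 ≤ vl A := fun A => ENNReal.toReal_nonneg
  have hfin : ∀ T : Set ℝ, volume (T ∩ Set.Icc (0 : ℝ) 1) ≠ ⊤ := by
    intro T
    apply ne_top_of_le_ne_top _ (measure_mono Set.inter_subset_right)
    rw [Real.volume_Icc]
    exact ENNReal.ofReal_ne_top
  have hvlmono : ∀ A B : Set ℝ, A ⊆ B → vl A ≤ vl B := by
    intro A B hAB
    unfold vl
    exact ENNReal.toReal_mono (hfin B) (measure_mono (Set.inter_subset_inter_left _ hAB))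
  have hvl1 : ∀ A : Set ℝ, vl A ≤ 1 := by
    intro A
    unfold vl
    have h1 : volume (A ∩ Set.Icc (0 : ℝ) 1) ≤ 1 := by
      refine (measure_mono Set.inter_subset_right).trans ?_
      rw [Real.volume_Icc]
      norm_num
    exact ENNReal.toReal_le_of_le_ofReal zero_le_one (by simpa using h1)
  -- the finite version
  have hbound : ∀ ε₀ : ℝ, 0 < ε₀ → ∃ ϑ C : ℝ, 0 < ϑ ∧ ϑ < 2 ∧ 0 < C ∧
      ∀ F : Finset ℕ, (∀ q ∈ F, q ∈ S) → (2 * ∑ q ∈ F, μ q) ^ 2 ≤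
        (1 - vl {x | ∀ q ∈ F, x ∉ Ax γ κ q}) * (4 * (1 + ε₀) * (∑ q ∈ F, μ q) ^ 2 +
          C * (1 + ∑ q ∈ F, μ q) ^ ϑ) := by
    intro ε₀ hε₀
    obtain ⟨ϑ, C, hϑ0, hϑ2, hC, hmom⟩ := moment_bound ε hε hε1 ε₀ hε₀
    refine ⟨ϑ, C, hϑ0, hϑ2, hC, fun F hF => ?_⟩
    have h1 := second_moment2 F (fun q => Ω (κ q) * tc γ κ q)
      (fun q => mul_nonneg (hΩ0 _) (fm_tc_nonneg γ κ q)) (fun q => Ax γ κ q) hmeas
    have h2 := hmom γ F κ Ω La (hDat F hF) (fun q hq => hAdm q (hF q hq))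
    have h3 : ∑ q ∈ F, Ω (κ q) * tc γ κ q * vl (Ax γ κ q) = 2 * ∑ q ∈ F, μ q := by
      rw [Finset.mul_sum]
      refine Finset.sum_congr rfl fun q hq => ?_
      rw [mul_assoc, tc_vl γ κ q (hAdm q (hF q hq))]
      simp only [hμdef]
      ring
    rw [h3] at h1
    refine h1.trans (mul_le_mul_of_nonneg_left h2 ?_)
    have := hvl1 {x | ∀ q ∈ F, x ∉ Ax γ κ q}
    linarith
  -- the sets `B_N` are null sets
  have hnull : ∀ N : ℕ, volume ({x : ℝ | ∀ q ∈ S, N ≤ q → x ∉ Ax γ κ q} ∩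
      Set.Icc (0 : ℝ) 1) = 0 := by
    intro N
    set B : Set ℝ := {x : ℝ | ∀ q ∈ S, N ≤ q → x ∉ Ax γ κ q} with hB
    have hb1 := hvl1 B
    have hb0 := hvl0 B
    -- finite sets of large mass
    have hlarge : ∀ A : ℝ, ∃ F : Finset ℕ, (∀ q ∈ F, q ∈ S) ∧ (∀ q ∈ F, N ≤ q) ∧
        A ≤ ∑ q ∈ F, μ q := by
      intro A
      have hunb : ∃ u : Finset ℕ, A + ∑ q ∈ Finset.range N, μ q <
          ∑ q ∈ u, S.indicator μ q := by
        by_contra hcon
        push Not at hcon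
        apply hdiv
        apply summable_of_sum_le (c := A + ∑ q ∈ Finset.range N, μ q)
        · intro q
          exact Set.indicator_nonneg (fun q _ => hμ0 q) q
        · exact hcon
      obtain ⟨u, hu⟩ := hunb
      refine ⟨(u.filter (fun q => q ∈ S)).filter (fun q => N ≤ q),
        fun q hq => (mem_filter.1 (mem_filter.1 hq).1).2, fun q hq => (mem_filter.1 hq).2, ?_⟩
      have h1 : ∑ q ∈ u, S.indicator μ q = ∑ q ∈ u.filter (fun q => q ∈ S), μ q := by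
        rw [sum_filter]
        apply sum_congr rfl
        intro q _
        by_cases hq : q ∈ S
        · rw [Set.indicator_of_mem hq, if_pos hq]
        · rw [Set.indicator_of_notMem hq, if_neg hq]
      have h2 : ∑ q ∈ u.filter (fun q => q ∈ S), μ q ≤
          ∑ q ∈ (u.filter (fun q => q ∈ S)).filter (fun q => N ≤ q), μ q +
            ∑ q ∈ Finset.range N, μ q := by
        rw [← sum_filter_add_sum_filter_not (u.filter (fun q => q ∈ S)) (fun q => N ≤ q)]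
        apply add_le_add (le_refl _)
        apply sum_le_sum_of_subset_of_nonneg
        · intro q hq
          rw [mem_filter] at hq
          rw [Finset.mem_range]
          exact not_le.1 hq.2
        · intro q _ _
          exact hμ0 q
      linarith
    have hstep : ∀ ε₀ : ℝ, 0 < ε₀ → 1 ≤ (1 - vl B) * (1 + ε₀) := by
      intro ε₀ hε₀
      obtain ⟨ϑ, C, hϑ0, hϑ2, hC, hF⟩ := hbound ε₀ hε₀
      have h1 : 1 - (1 - vl B) * (1 + ε₀) ≤ 0 := by
        apply fm_limit C ϑ _ hϑ2 hϑ0 hC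
        intro A
        obtain ⟨F, hFS, hFN, hFA⟩ := hlarge (max A 0)
        refine ⟨∑ q ∈ F, μ q, (le_max_left _ _).trans hFA, ?_⟩
        set W := ∑ q ∈ F, μ q with hW
        have hW0 : 0 ≤ W := (le_max_right _ _).trans hFA
        have h2 := hF F hFS
        rw [← hW] at h2
        have h3 : vl B ≤ vl {x | ∀ q ∈ F, x ∉ Ax γ κ q} :=
          hvlmono _ _ fun x hx q hq => hx q (hFS q hq) (hFN q hq)
        have h4 : 0 ≤ C * (1 + W) ^ ϑ := mul_nonneg hC.le (Real.rpow_nonneg (by linarith) _)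
        have h5 : 0 ≤ 4 * (1 + ε₀) * W ^ 2 + C * (1 + W) ^ ϑ := by positivity
        have h6 : (1 - vl {x | ∀ q ∈ F, x ∉ Ax γ κ q}) *
            (4 * (1 + ε₀) * W ^ 2 + C * (1 + W) ^ ϑ) ≤
            (1 - vl B) * (4 * (1 + ε₀) * W ^ 2 + C * (1 + W) ^ ϑ) :=
          mul_le_mul_of_nonneg_right (by linarith) h5
        have h7 : (1 - vl B) * (C * (1 + W) ^ ϑ) ≤ C * (1 + W) ^ ϑ :=
          mul_le_of_le_one_left h4 (by linarith)
        nlinarith
      linarith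
    have hb : vl B ≤ 0 := by
      by_contra hcon
      push Not at hcon
      have h1 := hstep (vl B / 2) (by linarith)
      nlinarith
    have h0 : (volume (B ∩ Set.Icc (0 : ℝ) 1)).toReal = 0 := le_antisymm hb hb0
    rcases (ENNReal.toReal_eq_zero_iff _).1 h0 with h1 | h1
    · exact h1
    · exact absurd h1 (hfin B)
  have hae : ∀ᵐ x ∂(volume.restrict (Set.Icc (0 : ℝ) 1)), ∀ N : ℕ,
      x ∉ {x : ℝ | ∀ q ∈ S, N ≤ q → x ∉ Ax γ κ q} ∩ Set.Icc (0 : ℝ) 1 := by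
    rw [ae_all_iff]
    intro N
    apply ae_restrict_of_ae
    rw [ae_iff]
    simp only [not_not]
    exact hnull N
  filter_upwards [hae, ae_restrict_mem measurableSet_Icc] with x hx hx1
  rw [frequently_atTop]
  intro N
  have h1 : x ∉ {x : ℝ | ∀ q ∈ S, N ≤ q → x ∉ Ax γ κ q} := fun h => hx N ⟨h, hx1⟩
  simp only [Set.mem_ofPred_eq, not_forall, not_not] at h1
  obtain ⟨q, hqS, hqN, hq⟩ := h1
  exact ⟨q, hqN, hqS, hq.1⟩

end Pool.Agent.IDE
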