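import Pool.Agent.IDE.Base
import Pool.Agent.IDS.A5
import Pool.Agent.IDS.B1
import Pool.Agent.IDS.B2
import Pool.Agent.IDS.C1
import Pool.Agent.IDS.C2a
import Pool.Agent.IDS.C2b
import Pool.Agent.IDS.C3

set_option autoImplicit false

namespace Pool.Agent.IDE

open Finset Pool.Agent.IDS

/-- cells with two level functions -/
def g1_cell (a b : ℕ) (κ κ' : ℕ → ℕ) (E : Finset (ℕ × ℕ)) (A k A' k' : ℕ) : Finset (ℕ × ℕ) :=
  E.filter (fun e => 2 ^ A ≤ rd e.1 a ∧ rd e.1 a < 2 ^ (A + 1) ∧ κ e.1 = k ∧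
    2 ^ A' ≤ rd e.2 b ∧ rd e.2 b < 2 ^ (A' + 1) ∧ κ' e.2 = k')

theorem g1_mem_cell {a b : ℕ} {κ κ' : ℕ → ℕ} {E : Finset (ℕ × ℕ)} {A k A' k' : ℕ} {e : ℕ × ℕ}
    (h1 : 0 < rd e.1 a) (h2 : 0 < rd e.2 b) :
    e ∈ g1_cell a b κ κ' E A k A' k' ↔ e ∈ E ∧
      ((Nat.log 2 (rd e.1 a), κ e.1), (Nat.log 2 (rd e.2 b), κ' e.2)) = ((A, k), (A', k')) := by
  unfold g1_cell
  rw [Finset.mem_filter]
  refine and_congr_right fun _ => ?_
  simp only [Prod.mk.injEq]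
  constructor
  · rintro ⟨a1, a2, a3, a4, a5, a6⟩
    exact ⟨⟨Nat.log_eq_of_pow_le_of_lt_pow a1 a2, a3⟩, Nat.log_eq_of_pow_le_of_lt_pow a4 a5, a6⟩
  · rintro ⟨⟨a1, a2⟩, a3, a4⟩
    refine ⟨?_, ?_, a2, ?_, ?_, a4⟩
    · rw [← a1]; exact Nat.pow_log_le_self 2 h1.ne'
    · rw [← a1]; exact Nat.lt_pow_succ_log_self (by norm_num) _
    · rw [← a3]; exact Nat.pow_log_le_self 2 h2.ne'
    · rw [← a3]; exact Nat.lt_pow_succ_log_self (by norm_num) _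

theorem g1_sum_cells (a b : ℕ) (κ κ' : ℕ → ℕ) (μ ν : ℕ → ℝ) (E : Finset (ℕ × ℕ))
    (hpos : ∀ e ∈ E, 0 < rd e.1 a ∧ 0 < rd e.2 b) :
    ∃ K : ℕ, em μ ν E = ∑ A ∈ range K, ∑ k ∈ range K, ∑ A' ∈ range K, ∑ k' ∈ range K,
      em μ ν (g1_cell a b κ κ' E A k A' k') := by
  set g : ℕ × ℕ → (ℕ × ℕ) × (ℕ × ℕ) := fun e =>
    ((Nat.log 2 (rd e.1 a), κ e.1), (Nat.log 2 (rd e.2 b), κ' e.2)) with hg
  set K : ℕ := (∑ e ∈ E, (Nat.log 2 (rd e.1 a) + κ e.1 + Nat.log 2 (rd e.2 b) + κ' e.2)) + 1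
    with hK
  refine ⟨K, ?_⟩
  have hmap : ∀ e ∈ E, g e ∈ (range K ×ˢ range K) ×ˢ (range K ×ˢ range K) := by
    intro e he
    have h1 : (Nat.log 2 (rd e.1 a) + κ e.1 + Nat.log 2 (rd e.2 b) + κ' e.2) ≤
        ∑ e ∈ E, (Nat.log 2 (rd e.1 a) + κ e.1 + Nat.log 2 (rd e.2 b) + κ' e.2) :=
      Finset.single_le_sum (f := fun e : ℕ × ℕ =>
        (Nat.log 2 (rd e.1 a) + κ e.1 + Nat.log 2 (rd e.2 b) + κ' e.2))
        (fun _ _ => Nat.zero_le _) he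
    simp only [hg, Finset.mem_product, Finset.mem_range]
    refine ⟨⟨?_, ?_⟩, ?_, ?_⟩ <;> omega
  have h2 := Finset.sum_fiberwise_of_maps_to hmap (fun e => μ e.1 * ν e.2)
  unfold IDS.em
  rw [← h2, Finset.sum_product, Finset.sum_product]
  refine Finset.sum_congr rfl fun A _ => Finset.sum_congr rfl fun k _ => ?_
  rw [Finset.sum_product]
  refine Finset.sum_congr rfl fun A' _ => Finset.sum_congr rfl fun k' _ => ?_
  refine Finset.sum_congr ?_ fun _ _ => rfl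
  ext e
  rw [Finset.mem_filter]
  constructor
  · rintro ⟨he, hge⟩
    exact (g1_mem_cell (hpos e he).1 (hpos e he).2).2 ⟨he, hge⟩
  · intro he
    have heE : e ∈ E := (Finset.mem_filter.1 he).1
    exact (g1_mem_cell (hpos e heE).1 (hpos e heE).2).1 he

theorem g1_cell_bound (S T : Finset ℕ) (κ κ' : ℕ → ℕ) (μ ν : ℕ → ℝ) (hμ : ∀ v, 0 ≤ μ v)
    (hν : ∀ v, 0 ≤ ν v)
    (E' : Finset (ℕ × ℕ)) (a b : ℕ) (ha : 0 < a) (hb : 0 < b)
    (hS : ∀ v ∈ S, 0 < v) (hT : ∀ v ∈ T, 0 < v) (hE : E' ⊆ S ×ˢ T)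
    (hG : ∀ e ∈ E', Good a b e.1 e.2) (A k A' k' : ℕ)
    (h₁ : ∀ v ∈ S, μ v ≤ (Nat.totient v : ℝ) * (1 / 2 : ℝ) ^ κ v)
    (h₂ : ∀ w ∈ T, ν w ≤ (Nat.totient w : ℝ) * (1 / 2 : ℝ) ^ κ' w) :
    em μ ν (g1_cell a b κ κ' E' A k A' k') ≤
      16 * a * b * 2 ^ (2 * A + 2 * A') * (1 / 2 : ℝ) ^ (k + k') := by
  classical
  set Vc := (g1_cell a b κ κ' E' A k A' k').image Prod.fst with hVc
  set Wc := (g1_cell a b κ κ' E' A k A' k').image Prod.snd with hWc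
  have hsub : g1_cell a b κ κ' E' A k A' k' ⊆ Vc ×ˢ Wc := by
    intro e he
    rw [Finset.mem_product]
    exact ⟨Finset.mem_image_of_mem _ he, Finset.mem_image_of_mem _ he⟩
  have hmem : ∀ e ∈ g1_cell a b κ κ' E' A k A' k', e.1 ∈ S ∧ e.2 ∈ T ∧ Good a b e.1 e.2 ∧
      rd e.1 a < 2 ^ (A + 1) ∧ κ e.1 = k ∧ rd e.2 b < 2 ^ (A' + 1) ∧ κ' e.2 = k' := by
    intro e he
    unfold g1_cell at he
    rw [Finset.mem_filter] at he
    obtain ⟨he1, h1, h2, h3, h4, h5, h6⟩ := he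
    have := hE he1
    rw [Finset.mem_product] at this
    exact ⟨this.1, this.2, hG e he1, h2, h3, h5, h6⟩
  have hV : ∀ v ∈ Vc, 0 < v ∧ Squarefree (rd a v) ∧ rd v a < 2 ^ (A + 1) ∧
      μ v ≤ 1 * ((Nat.totient v : ℝ) * (1 / 2 : ℝ) ^ k) := by
    intro v hv
    rw [hVc, Finset.mem_image] at hv
    obtain ⟨e, he, rfl⟩ := hv
    obtain ⟨m1, m2, m3, m4, m5, m6, m7⟩ := hmem e he
    refine ⟨hS _ m1, (good_struct a b e.1 e.2 ha hb (hS _ m1) (hT _ m2) m3).2.2.2.1, m4, ?_⟩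
    rw [one_mul, ← m5]
    exact h₁ _ m1
  have hW : ∀ w ∈ Wc, 0 < w ∧ Squarefree (rd b w) ∧ rd w b < 2 ^ (A' + 1) ∧
      ν w ≤ 1 * ((Nat.totient w : ℝ) * (1 / 2 : ℝ) ^ k') := by
    intro w hw
    rw [hWc, Finset.mem_image] at hw
    obtain ⟨e, he, rfl⟩ := hw
    obtain ⟨m1, m2, m3, m4, m5, m6, m7⟩ := hmem e he
    refine ⟨hT _ m2, (good_struct a b e.1 e.2 ha hb (hS _ m1) (hT _ m2) m3).2.2.2.2, m6, ?_⟩
    rw [one_mul, ← m7]
    exact h₂ _ m2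
  have e1 := c2b_side a ha Vc μ A k 1 zero_le_one hV
  have e2 := c2b_side b hb Wc ν A' k' 1 zero_le_one hW
  refine (em_le_mul hμ hν hsub).trans ?_
  refine (mul_le_mul e1 e2 (ms_nonneg hν _) (by positivity)).trans (le_of_eq ?_)
  rw [pow_add, pow_add]
  ring

/-- [IDE-G1] **Two-sided kappa bound**: different vertex sets, levels and masses on the two sides.

PROOF.  Port of `Pool.Agent.IDS.gen` (C2a), `cell_bound` (C2b), `kappa` (C3): the proofs never use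
that the two sides are equal.  `η = (1-θ)(2θ+1)/(4θ)`.  If `em μ ν E = 0` the claim is trivial.
Otherwise `select` (A5) gives `V' ⊆ V, W' ⊆ W, E' ⊆ E, a, b` with all edges of `E'` good and
`em E (ms V' ms W')^θ ≤ C em E' (ms V ms W)^θ (rd a b rd b a)^η`.  With the cells
`2^A ≤ rd v a < 2^(A+1)`, `κ v = k`, `2^A' ≤ rd w b < 2^(A'+1)`, `κ' w = k'` let
`M A k = ms μ (V'.filter ...)`, `N A' k' = ms ν (W'.filter ...)`, `e A k A' k' =` mass of the cell of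
`E'`; `e ≤ M N` (`em_le_mul`); `e ≤ 16 a b 2^{2A+2A'} (1/2)^{k+k'}` because the two projections of a
cell have masses `≤ (1/2)^k 4^{A+1} a` and `≤ (1/2)^{k'} 4^{A'+1} b` (`cell_mass`, `good_struct`);
`e = 0` unless `k ≤ k'` and `2^{A+A'} ≤ T 2^k`, `T = t/lcm a b` (`good_struct`).  `fs` (C1) with
`S = 16 a b` gives `em E' ≤ C_fs (ms V' ms W')^θ (16 a b)^{1-θ} (t/l)^{2(1-θ)}`, `l = lcm a b`,
`l² = a b · rd a b · rd b a`.  Divide by `(ms V' ms W')^θ > 0`; the exponent of `rd a b rd b a` is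
`η - (1-θ) ≤ 0`. -/
theorem kappa2 (θ : ℝ) (h1 : 1 / 2 < θ) (h2 : θ ≤ 3 / 5) :
    ∃ C : ℝ, 0 < C ∧ ∀ (V W : Finset ℕ) (κ κ' : ℕ → ℕ) (μ ν : ℕ → ℝ) (t : ℝ)
      (E : Finset (ℕ × ℕ)), (∀ v, 0 ≤ μ v) → (∀ w, 0 ≤ ν w) →
      (∀ v ∈ V, 0 < v ∧ μ v ≤ (Nat.totient v : ℝ) * (1 / 2 : ℝ) ^ κ v) →
      (∀ w ∈ W, 0 < w ∧ ν w ≤ (Nat.totient w : ℝ) * (1 / 2 : ℝ) ^ κ' w) → 0 < t →
      E ⊆ V ×ˢ W →
      (∀ e ∈ E, κ e.1 ≤ κ' e.2 ∧ (Nat.lcm e.1 e.2 : ℝ) * (1 / 2 : ℝ) ^ κ e.1 ≤ t) →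
      em μ ν E ≤ C * (ms μ V * ms ν W) ^ θ * t ^ (2 * (1 - θ)) := by
  have hθ0' : 0 < θ := by linarith
  have hθ1' : 0 < 1 - θ := by linarith
  set η : ℝ := (1 - θ) * (2 * θ + 1) / (4 * θ) with hη
  have hηm : η * (4 * θ) = (1 - θ) * (2 * θ + 1) := by
    rw [hη]; field_simp
  have hη0 : 0 < η := by rw [hη]; positivity
  have h3 : 1 - θ < 2 * θ * η := by nlinarith
  have h4 : 1 - θ < (2 - θ) * η := by
    have : (1 - θ) * (4 * θ) < (2 - θ) * η * (4 * θ) := by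
      have e : (2 - θ) * η * (4 * θ) = (2 - θ) * ((1 - θ) * (2 * θ + 1)) := by
        rw [← hηm]; ring
      rw [e]
      nlinarith [mul_pos hθ1' (show (0:ℝ) < 2 - θ - 2 * θ ^ 2 by nlinarith)]
    exact lt_of_mul_lt_mul_right this (by positivity)
  have h5 : η ≤ 1 - θ := by
    have : η * (4 * θ) ≤ (1 - θ) * (4 * θ) := by rw [hηm]; nlinarith
    exact le_of_mul_le_mul_right this (by positivity)
  obtain ⟨Cs, hCs, hsel⟩ := select θ η h1 (by linarith) hη0 h3 h4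
  obtain ⟨Cf, hCf, hfs⟩ := fs θ h1 (by linarith)
  refine ⟨Cs * Cf * (16 : ℝ) ^ (1 - θ), by positivity, ?_⟩
  intro V W κ κ' μ ν t E hμ hν hV hW ht hE hlev
  have hmsV : 0 ≤ ms μ V := ms_nonneg hμ V
  have hmsW : 0 ≤ ms ν W := ms_nonneg hν W
  have hrhs : 0 ≤ Cs * Cf * (16 : ℝ) ^ (1 - θ) * (ms μ V * ms ν W) ^ θ * t ^ (2 * (1 - θ)) := by
    positivity
  rcases (em_nonneg hμ hν E).eq_or_lt with h0 | h0
  · rw [← h0]
    exact hrhs
  have hmspos : 0 < ms μ V * ms ν W := h0.trans_le (em_le_mul hμ hν hE)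
  obtain ⟨V', W', E', a, b, ha, hb, hV', hW', hE'E, hE'VW, hgood, hpos, hineq⟩ :=
    hsel μ ν hμ hν V W E (fun v hv => (hV v hv).1) (fun w hw => (hW w hw).1) hE h0
  have hep : ∀ e ∈ E', 0 < e.1 ∧ 0 < e.2 := by
    intro e he
    have := Finset.mem_product.1 (hE (hE'E he))
    exact ⟨(hV _ this.1).1, (hW _ this.2).1⟩
  obtain ⟨K, hK⟩ := g1_sum_cells a b κ κ' μ ν E'
    fun e he => ⟨rd_pos (hep e he).1, rd_pos (hep e he).2⟩
  set l : ℕ := Nat.lcm a b with hl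
  have hlpos : 0 < l := Nat.lcm_pos ha hb
  have hlR : (0 : ℝ) < l := by exact_mod_cast hlpos
  have haR : (0 : ℝ) < a := by exact_mod_cast ha
  have hbR : (0 : ℝ) < b := by exact_mod_cast hb
  have hr1 : (0 : ℝ) < rd a b := by exact_mod_cast rd_pos ha
  have hr2 : (0 : ℝ) < rd b a := by exact_mod_cast rd_pos hb
  set r : ℝ := (rd a b : ℝ) * rd b a with hr
  have hrpos : 0 < r := mul_pos hr1 hr2
  have hr1' : 1 ≤ r := by
    have e1 : (1 : ℝ) ≤ rd a b := by exact_mod_cast rd_pos (b := b) ha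
    have e2 : (1 : ℝ) ≤ rd b a := by exact_mod_cast rd_pos (b := a) hb
    rw [hr]
    nlinarith
  -- apply `fs`
  have hfs' := hfs (fun A k => ms μ (V'.filter fun v => (Nat.log 2 (rd v a), κ v) = (A, k)))
    (fun A k => ms ν (W'.filter fun v => (Nat.log 2 (rd v b), κ' v) = (A, k)))
    (fun A k A' k' => em μ ν (g1_cell a b κ κ' E' A k A' k')) K (16 * a * b) (t / l)
    (by positivity) (by positivity)
    (fun A k => ms_nonneg hμ _) (fun A k => ms_nonneg hν _)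
    (fun A k A' k' => em_nonneg hμ hν _)
    (by
      intro A k A' k'
      refine em_le_mul hμ hν ?_
      intro e he
      have heE : e ∈ E' := (Finset.mem_filter.1 he).1
      have h5 := ((g1_mem_cell (rd_pos (hep e heE).1) (rd_pos (hep e heE).2)).1 he).2
      have h6 := Finset.mem_product.1 (hE'VW heE)
      simp only [Prod.mk.injEq] at h5
      rw [Finset.mem_product, Finset.mem_filter, Finset.mem_filter]
      exact ⟨⟨h6.1, by rw [h5.1.1, h5.1.2]⟩, h6.2, by rw [h5.2.1, h5.2.2]⟩)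
    (fun A k A' k' => by
      have := g1_cell_bound V W κ κ' μ ν hμ hν E' a b ha hb (fun v hv => (hV v hv).1)
        (fun w hw => (hW w hw).1) (hE'E.trans hE) hgood A k A' k' (fun v hv => (hV v hv).2)
        (fun w hw => (hW w hw).2)
      exact this)
    (by
      intro A k A' k' hnot
      by_contra hne
      apply hnot
      have hne' : (g1_cell a b κ κ' E' A k A' k').Nonempty := by
        rw [Finset.nonempty_iff_ne_empty]
        intro hemp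
        apply hne
        simp [hemp, IDS.em]
      obtain ⟨e, he⟩ := hne'
      obtain ⟨heE, c1, c2, c3, c4, c5, c6⟩ := Finset.mem_filter.1 he
      obtain ⟨d1, d2⟩ := hlev e (hE'E heE)
      obtain ⟨e1, -, -, -, -⟩ := good_struct a b e.1 e.2 ha hb (hep e heE).1 (hep e heE).2
        (hgood e heE)
      rw [c3, c6] at d1
      rw [c3, e1] at d2
      refine ⟨d1, ?_⟩
      have f1 : (2 : ℝ) ^ A ≤ (rd e.1 a : ℝ) := by exact_mod_cast c1
      have f2 : (2 : ℝ) ^ A' ≤ (rd e.2 b : ℝ) := by exact_mod_cast c4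
      have f3 : (2 : ℝ) ^ (A + A') ≤ (rd e.1 a : ℝ) * rd e.2 b := by
        rw [pow_add]
        exact mul_le_mul f1 f2 (by positivity) (by positivity)
      push_cast at d2
      rw [div_mul_eq_mul_div, le_div_iff₀ hlR]
      have f4 : (1 / 2 : ℝ) ^ k * 2 ^ k = 1 := by
        rw [← mul_pow]; norm_num
      have f5 : (0 : ℝ) < 2 ^ k := by positivity
      calc (2 : ℝ) ^ (A + A') * l ≤ (rd e.1 a : ℝ) * rd e.2 b * l :=
            mul_le_mul_of_nonneg_right f3 hlR.le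
        _ = (l * (rd e.1 a : ℝ) * rd e.2 b * (1 / 2 : ℝ) ^ k) * 2 ^ k := by
            linear_combination -((rd e.1 a : ℝ) * rd e.2 b * l) * f4
        _ ≤ t * 2 ^ k := mul_le_mul_of_nonneg_right d2 f5.le)
  rw [← hK] at hfs'
  set x1 := ms μ V' with hx1
  set x2 := ms ν W' with hx2
  have hx : em μ ν E' ≤ x1 * x2 := em_le_mul hμ hν hE'VW
  have hx10 : 0 ≤ x1 := ms_nonneg hμ _
  have hx20 : 0 ≤ x2 := ms_nonneg hν _
  have hxpos : 0 < x1 * x2 := lt_of_lt_of_le hpos hx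
  have hM1 := c2a_sum_vert a κ μ hμ V' K
  have hN1 := c2a_sum_vert b κ' ν hν W' K
  have hθ0 : 0 ≤ θ := by linarith
  have h1θ : 0 ≤ 1 - θ := by linarith
  have hM0 : 0 ≤ ∑ A ∈ range K, ∑ k ∈ range K,
      ms μ (V'.filter fun v => (Nat.log 2 (rd v a), κ v) = (A, k)) :=
    Finset.sum_nonneg fun _ _ => Finset.sum_nonneg fun _ _ => ms_nonneg hμ _
  have hN0 : 0 ≤ ∑ A ∈ range K, ∑ k ∈ range K,
      ms ν (W'.filter fun v => (Nat.log 2 (rd v b), κ' v) = (A, k)) :=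
    Finset.sum_nonneg fun _ _ => Finset.sum_nonneg fun _ _ => ms_nonneg hν _
  have hM2 := Real.rpow_le_rpow hM0 hM1 hθ0
  have hN2 := Real.rpow_le_rpow hN0 hN1 hθ0
  have hbound : em μ ν E' ≤ Cf * (x1 * x2) ^ θ * ((16 * (a : ℝ) * b) ^ (1 - θ) *
      (t / l) ^ (2 * (1 - θ))) := by
    rw [Real.mul_rpow hx10 hx20]
    calc em μ ν E' ≤ _ := hfs'
      _ ≤ Cf * x1 ^ θ * x2 ^ θ * (16 * (a : ℝ) * b) ^ (1 - θ) * (t / l) ^ (2 * (1 - θ)) := by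
          gcongr
      _ = _ := by ring
  -- the factor
  have hlr : (l : ℝ) ^ 2 = a * b * r := by
    have e1 : (l : ℝ) = a * rd b a := by
      have := lcm_eq a b
      rw [hl, this]
      push_cast
      rfl
    have e2 : (l : ℝ) = b * rd a b := by
      have := lcm_eq b a
      rw [hl, Nat.lcm_comm, this]
      push_cast
      rfl
    calc (l : ℝ) ^ 2 = l * l := sq _
      _ = (a * rd b a) * (b * rd a b) := by
          nth_rewrite 1 [e1]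
          rw [e2]
      _ = a * b * r := by rw [hr]; ring
  have hfac : (16 * (a : ℝ) * b) ^ (1 - θ) * (t / l) ^ (2 * (1 - θ)) =
      (16 : ℝ) ^ (1 - θ) * t ^ (2 * (1 - θ)) * r ^ (-(1 - θ)) := by
    have e1 : (16 * (a : ℝ) * b) ^ (1 - θ) = (16 : ℝ) ^ (1 - θ) * ((a : ℝ) * b) ^ (1 - θ) := by
      rw [mul_assoc, Real.mul_rpow (by norm_num) (by positivity)]
    have e2 : (t / l) ^ (2 * (1 - θ)) = t ^ (2 * (1 - θ)) / (((a : ℝ) * b) ^ (1 - θ) *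
        r ^ (1 - θ)) := by
      rw [Real.div_rpow ht.le hlR.le]
      congr 1
      rw [Real.rpow_mul hlR.le, ← Real.mul_rpow (by positivity) hrpos.le]
      congr 1
      rw [Real.rpow_two]
      exact hlr
    rw [e1, e2, Real.rpow_neg hrpos.le]
    have e3 : ((a : ℝ) * b) ^ (1 - θ) ≠ 0 := (Real.rpow_pos_of_pos (by positivity) _).ne'
    have e4 : r ^ (1 - θ) ≠ 0 := (Real.rpow_pos_of_pos hrpos _).ne'
    field_simp
  rw [hfac] at hbound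
  have hxθ : 0 < (x1 * x2) ^ θ := Real.rpow_pos_of_pos hxpos _
  have hsθ : 0 ≤ (ms μ V * ms ν W) ^ θ := Real.rpow_nonneg hmspos.le _
  have hrη : 0 < r ^ η := Real.rpow_pos_of_pos hrpos _
  have htt : 0 ≤ t ^ (2 * (1 - θ)) := Real.rpow_nonneg ht.le _
  have hr2' : r ^ (η - (1 - θ)) ≤ 1 := Real.rpow_le_one_of_one_le_of_nonpos hr1' (by linarith)
  have h16 : (0 : ℝ) ≤ (16 : ℝ) ^ (1 - θ) := by positivity
  have hkey : em μ ν E * (x1 * x2) ^ θ ≤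
      (Cs * Cf * (16 : ℝ) ^ (1 - θ) * (ms μ V * ms ν W) ^ θ * t ^ (2 * (1 - θ))) *
        (x1 * x2) ^ θ := by
    calc em μ ν E * (x1 * x2) ^ θ ≤ Cs * (em μ ν E' * (ms μ V * ms ν W) ^ θ * r ^ η) := hineq
      _ ≤ Cs * ((Cf * (x1 * x2) ^ θ * ((16 : ℝ) ^ (1 - θ) * t ^ (2 * (1 - θ)) *
            r ^ (-(1 - θ)))) * (ms μ V * ms ν W) ^ θ * r ^ η) := by
          gcongr
      _ = Cs * Cf * ((16 : ℝ) ^ (1 - θ) * (r ^ (-(1 - θ)) * r ^ η)) * (ms μ V * ms ν W) ^ θ *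
            t ^ (2 * (1 - θ)) * (x1 * x2) ^ θ := by ring
      _ = Cs * Cf * ((16 : ℝ) ^ (1 - θ) * r ^ (η - (1 - θ))) * (ms μ V * ms ν W) ^ θ *
            t ^ (2 * (1 - θ)) * (x1 * x2) ^ θ := by
          rw [← Real.rpow_add hrpos]
          ring_nf
      _ ≤ Cs * Cf * ((16 : ℝ) ^ (1 - θ) * 1) * (ms μ V * ms ν W) ^ θ * t ^ (2 * (1 - θ)) *
            (x1 * x2) ^ θ := by
          gcongr
      _ = _ := by ring
  exact le_of_mul_le_mul_right hkey hxθ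

end Pool.Agent.IDE
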