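import Pool.Agent.IDE.G1

set_option autoImplicit false

namespace Pool.Agent.IDE

open Finset Pool.Agent.IDS

theorem g2_lcm (v w e₁ e₂ : ℕ) (h₁ : e₁ ∣ rd v w) (h₂ : e₂ ∣ rd w v) (he₁ : 1 ≤ e₁)
    (he₂ : 1 ≤ e₂) (hv : 0 < v) (hw : 0 < w) :
    Nat.lcm (v / e₁) (w / e₂) * (e₁ * e₂) ≤ Nat.lcm v w := by
  obtain ⟨a, ha⟩ := h₁
  obtain ⟨b, hb⟩ := h₂
  have hgv : rd v w * Nat.gcd v w = v := rd_mul_gcd v w
  have hgw : rd w v * Nat.gcd v w = w := by rw [Nat.gcd_comm]; exact rd_mul_gcd w v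
  have hg0 : 0 < Nat.gcd v w := Nat.gcd_pos_of_pos_left w hv
  have hl : Nat.lcm v w = v * rd w v := lcm_eq v w
  set g := Nat.gcd v w with hg
  have ha0 : 0 < a := by
    rcases Nat.eq_zero_or_pos a with h | h
    · have := rd_pos (b := w) hv
      rw [ha, h, mul_zero] at this
      omega
    · exact h
  have hb0 : 0 < b := by
    rcases Nat.eq_zero_or_pos b with h | h
    · have := rd_pos (b := v) hw
      rw [hb, h, mul_zero] at this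
      omega
    · exact h
  have e1 : v / e₁ = a * g := by
    have : v = e₁ * (a * g) := by rw [← hgv, ha]; ring
    rw [this, Nat.mul_div_cancel_left _ (by omega)]
  have e2 : w / e₂ = b * g := by
    have : w = e₂ * (b * g) := by rw [← hgw, hb]; ring
    rw [this, Nat.mul_div_cancel_left _ (by omega)]
  have h3 : Nat.lcm (v / e₁) (w / e₂) ≤ a * b * g := by
    apply Nat.le_of_dvd (by positivity)
    apply Nat.lcm_dvd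
    · rw [e1]; exact ⟨b, by ring⟩
    · rw [e2]; exact ⟨a, by ring⟩
  calc Nat.lcm (v / e₁) (w / e₂) * (e₁ * e₂) ≤ a * b * g * (e₁ * e₂) := Nat.mul_le_mul_right _ h3
    _ = (e₁ * a) * g * (e₂ * b) := by ring
    _ = Nat.lcm v w := by rw [hl, ← ha, ← hb, hgv]

theorem g2_side (S : Finset ℕ) (κ : ℕ → ℕ) (μ : ℕ → ℝ) (e U : ℕ) (he : 1 ≤ e)
    (hμ : ∀ v, 0 ≤ μ v)
    (hS : ∀ v ∈ S, 0 < v ∧ μ v ≤ (Nat.totient v : ℝ) * (1 / 2 : ℝ) ^ κ v) :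
    (∀ w ∈ (S.filter (fun v => e ∣ v ∧ U ≤ κ v)).image (· / e), 0 < w ∧
      2 ^ U * (μ (e * w) / e) ≤ (Nat.totient w : ℝ) * (1 / 2 : ℝ) ^ (κ (e * w) - U)) ∧
    ms (fun w => 2 ^ U * (μ (e * w) / e)) ((S.filter (fun v => e ∣ v ∧ U ≤ κ v)).image (· / e)) ≤
      2 ^ U * (ms μ S / e) := by
  have heR : (0 : ℝ) < e := by exact_mod_cast he
  constructor
  · intro w hw
    obtain ⟨u, hu, rfl⟩ := Finset.mem_image.1 hw
    rw [Finset.mem_filter] at hu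
    obtain ⟨huS, hdvd, hU⟩ := hu
    have h1 : e * (u / e) = u := Nat.mul_div_cancel' hdvd
    have h2 := hS u huS
    refine ⟨Nat.div_pos (Nat.le_of_dvd h2.1 hdvd) (by omega), ?_⟩
    simp only [h1]
    have h3 : (Nat.totient u : ℝ) ≤ e * (Nat.totient (u / e) : ℝ) := by
      have := b2_tot_mul e (u / e)
      rw [h1] at this
      exact_mod_cast this
    have h4 : (1 / 2 : ℝ) ^ κ u * 2 ^ U = (1 / 2 : ℝ) ^ (κ u - U) := by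
      have h5 : κ u = (κ u - U) + U := by omega
      conv_lhs => rw [h5]
      rw [pow_add, mul_assoc, ← mul_pow]
      norm_num
    have h6 : μ u / e ≤ (Nat.totient (u / e) : ℝ) * (1 / 2 : ℝ) ^ κ u := by
      rw [div_le_iff₀ heR]
      refine h2.2.trans ?_
      have : (0 : ℝ) ≤ (1 / 2 : ℝ) ^ κ u := by positivity
      nlinarith
    calc (2 : ℝ) ^ U * (μ u / e) ≤ 2 ^ U * ((Nat.totient (u / e) : ℝ) * (1 / 2 : ℝ) ^ κ u) :=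
          mul_le_mul_of_nonneg_left h6 (by positivity)
      _ = (Nat.totient (u / e) : ℝ) * ((1 / 2 : ℝ) ^ κ u * 2 ^ U) := by ring
      _ = _ := by rw [h4]
  · unfold ms
    rw [Finset.sum_image]
    · have h1 : ∀ u ∈ S.filter (fun v => e ∣ v ∧ U ≤ κ v),
          (2 : ℝ) ^ U * (μ (e * (u / e)) / e) = 2 ^ U * (μ u / e) := by
        intro u hu
        rw [Nat.mul_div_cancel' (Finset.mem_filter.1 hu).2.1]
      rw [Finset.sum_congr rfl h1, ← Finset.mul_sum, ← Finset.sum_div]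
      refine mul_le_mul_of_nonneg_left ?_ (by positivity)
      refine div_le_div_of_nonneg_right ?_ heR.le
      exact Finset.sum_le_sum_of_subset_of_nonneg (Finset.filter_subset _ _) fun v _ _ => hμ v
    · intro u hu u' hu' h
      simp only [Finset.coe_filter, Set.mem_ofPred_eq] at hu hu'
      have h1 := Nat.mul_div_cancel' hu.2.1
      have h2 := Nat.mul_div_cancel' hu'.2.1
      have h3 : u / e = u' / e := h
      rw [← h1, ← h2, h3]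

/-- [IDE-G2] **Divisibility and level gaps give a gain.**

PROOF.  If `E = ∅` trivial.  For `(v, w) ∈ E`: `e₁ ∣ rd v w ∣ v`, `e₂ ∣ rd w v ∣ w`, `v = e₁ v₁`,
`w = e₂ w₁`; with `g = gcd v w` we have `v₁ = g (m/e₁)`, `w₁ = g (m'/e₂)` (`rd_mul_gcd`),
`gcd (m/e₁, m'/e₂) = 1`, so `lcm v₁ w₁ = lcm v w/(e₁ e₂)`.  Apply `kappa2` with
`V = (S.filter (e₁ ∣ ·)).image (· / e₁)`, `κ₁ v₁ = κ (e₁ v₁)`, `μ₁ v₁ = μ (e₁ v₁)/e₁`
(`≤ φ(v₁) (1/2)^{κ₁ v₁}` since `φ(e₁ v₁) ≤ e₁ φ(v₁)`), `ms μ₁ V ≤ (ms μ S)/e₁`;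
`W = (S.filter (e₂ ∣ · ∧ U ≤ κ ·)).image (· / e₂)`, `κ₂ w₁ = κ (e₂ w₁) - U`,
`ν₁ w₁ = 2^U μ (e₂ w₁)/e₂ ≤ φ(w₁) (1/2)^{κ₂ w₁}`, `ms ν₁ W ≤ 2^U (ms μ S)/e₂`;
(outside of `V`, `W` define `μ₁, ν₁` by the same formulas, they are `≥ 0`), the image of `E` under
`(v, w) ↦ (v/e₁, w/e₂)` (injective on `E`), and `t/(e₁ e₂)` for `t`.  So
`em μ μ E = e₁ e₂ 2^{-U} em μ₁ ν₁ E₁ ≤ e₁ e₂ 2^{-U} C (2^U W²/(e₁ e₂))^θ (t/(e₁e₂))^{2(1-θ)}
= C W^{2θ} t^{2(1-θ)} (e₁ e₂)^{-(1-θ)} 2^{-(1-θ)U}`. -/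
theorem dg (θ : ℝ) (h1 : 1 / 2 < θ) (h2 : θ ≤ 3 / 5) :
    ∃ C : ℝ, 0 < C ∧ ∀ (S : Finset ℕ) (κ : ℕ → ℕ) (μ : ℕ → ℝ) (t : ℝ) (e₁ e₂ U : ℕ)
      (E : Finset (ℕ × ℕ)), (∀ v, 0 ≤ μ v) →
      (∀ v ∈ S, 0 < v ∧ μ v ≤ (Nat.totient v : ℝ) * (1 / 2 : ℝ) ^ κ v) → 0 < t →
      1 ≤ e₁ → 1 ≤ e₂ → E ⊆ S ×ˢ S →
      (∀ e ∈ E, κ e.1 + U ≤ κ e.2 ∧ (Nat.lcm e.1 e.2 : ℝ) * (1 / 2 : ℝ) ^ κ e.1 ≤ t ∧
        e₁ ∣ rd e.1 e.2 ∧ e₂ ∣ rd e.2 e.1) →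
      em μ μ E ≤ C * (ms μ S) ^ (2 * θ) * t ^ (2 * (1 - θ)) *
        ((e₁ : ℝ) * e₂) ^ (-(1 - θ)) * ((2 : ℝ) ^ U) ^ (-(1 - θ)) := by
  obtain ⟨C, hC, hk⟩ := kappa2 θ h1 h2
  refine ⟨C, hC, ?_⟩
  intro S κ μ t e₁ e₂ U E hμ hS ht he₁ he₂ hE hlev
  have he₁R : (0 : ℝ) < e₁ := by exact_mod_cast he₁
  have he₂R : (0 : ℝ) < e₂ := by exact_mod_cast he₂
  obtain ⟨a1, a2⟩ := g2_side S κ μ e₁ 0 he₁ hμ hS
  obtain ⟨b1, b2⟩ := g2_side S κ μ e₂ U he₂ hμ hS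
  set V := (S.filter (fun v => e₁ ∣ v ∧ 0 ≤ κ v)).image (· / e₁) with hV
  set W := (S.filter (fun v => e₂ ∣ v ∧ U ≤ κ v)).image (· / e₂) with hW
  set μ₁ : ℕ → ℝ := fun w => 2 ^ 0 * (μ (e₁ * w) / e₁) with hμ₁
  set ν₁ : ℕ → ℝ := fun w => 2 ^ U * (μ (e₂ * w) / e₂) with hν₁
  set E₁ : Finset (ℕ × ℕ) := E.image (fun e => (e.1 / e₁, e.2 / e₂)) with hE₁
  have hmem : ∀ e ∈ E, e.1 ∈ S ∧ e.2 ∈ S ∧ e₁ ∣ e.1 ∧ e₂ ∣ e.2 := by
    intro e he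
    have h3 := Finset.mem_product.1 (hE he)
    obtain ⟨h4, h5, h6, h7⟩ := hlev e he
    refine ⟨h3.1, h3.2, h6.trans ?_, h7.trans ?_⟩
    · exact ⟨_, (rd_mul_gcd e.1 e.2).symm⟩
    · exact ⟨_, (rd_mul_gcd e.2 e.1).symm⟩
  have hinj : Set.InjOn (fun e : ℕ × ℕ => (e.1 / e₁, e.2 / e₂)) (E : Set (ℕ × ℕ)) := by
    intro e he e' he' h
    obtain ⟨-, -, c1, c2⟩ := hmem e he
    obtain ⟨-, -, c3, c4⟩ := hmem e' he'
    simp only [Prod.mk.injEq] at h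
    have d1 := Nat.mul_div_cancel' c1
    have d2 := Nat.mul_div_cancel' c2
    have d3 := Nat.mul_div_cancel' c3
    have d4 := Nat.mul_div_cancel' c4
    rw [h.1] at d1
    rw [h.2] at d2
    exact Prod.ext (d1.symm.trans d3) (d2.symm.trans d4)
  have hem : em μ₁ ν₁ E₁ = 2 ^ U / ((e₁ : ℝ) * e₂) * em μ μ E := by
    unfold IDS.em
    rw [hE₁, Finset.sum_image hinj, Finset.mul_sum]
    refine Finset.sum_congr rfl fun e he => ?_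
    obtain ⟨-, -, c1, c2⟩ := hmem e he
    simp only [hμ₁, hν₁, Nat.mul_div_cancel' c1, Nat.mul_div_cancel' c2]
    field_simp
  have hEVW : E₁ ⊆ V ×ˢ W := by
    intro x hx
    obtain ⟨e, he, rfl⟩ := Finset.mem_image.1 hx
    obtain ⟨c1, c2, c3, c4⟩ := hmem e he
    obtain ⟨h4, h5, h6, h7⟩ := hlev e he
    rw [Finset.mem_product]
    refine ⟨Finset.mem_image_of_mem _ (Finset.mem_filter.2 ⟨c1, c3, Nat.zero_le _⟩),
      Finset.mem_image_of_mem _ (Finset.mem_filter.2 ⟨c2, c4, by omega⟩)⟩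
  have hPpos : (0 : ℝ) < (e₁ : ℝ) * e₂ := mul_pos he₁R he₂R
  have hlev' : ∀ x ∈ E₁, κ (e₁ * x.1) - 0 ≤ κ (e₂ * x.2) - U ∧
      (Nat.lcm x.1 x.2 : ℝ) * (1 / 2 : ℝ) ^ (κ (e₁ * x.1) - 0) ≤ t / ((e₁ : ℝ) * e₂) := by
    intro x hx
    obtain ⟨e, he, rfl⟩ := Finset.mem_image.1 hx
    obtain ⟨c1, c2, c3, c4⟩ := hmem e he
    obtain ⟨h4, h5, h6, h7⟩ := hlev e he
    simp only [Nat.mul_div_cancel' c3, Nat.mul_div_cancel' c4, Nat.sub_zero]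
    refine ⟨by omega, ?_⟩
    rw [le_div_iff₀ hPpos]
    have h8 := g2_lcm e.1 e.2 e₁ e₂ h6 h7 he₁ he₂ (hS _ c1).1 (hS _ c2).1
    have h9 : (Nat.lcm (e.1 / e₁) (e.2 / e₂) : ℝ) * ((e₁ : ℝ) * e₂) ≤ (Nat.lcm e.1 e.2 : ℝ) := by
      exact_mod_cast h8
    refine le_trans ?_ h5
    have h10 : (0 : ℝ) ≤ (1 / 2 : ℝ) ^ κ e.1 := by positivity
    nlinarith
  have hk' := hk V W (fun w => κ (e₁ * w) - 0) (fun w => κ (e₂ * w) - U) μ₁ ν₁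
    (t / ((e₁ : ℝ) * e₂)) E₁
    (fun w => by simp only [hμ₁]; have := hμ (e₁ * w); positivity)
    (fun w => by simp only [hν₁]; have := hμ (e₂ * w); positivity)
    a1 b1 (by positivity) hEVW hlev'
  rw [hem] at hk'
  have hM0 : 0 ≤ ms μ S := ms_nonneg hμ S
  have hm1 : 0 ≤ ms μ₁ V := ms_nonneg (fun w => by
    simp only [hμ₁]; have := hμ (e₁ * w); positivity) V
  have hm2 : 0 ≤ ms ν₁ W := ms_nonneg (fun w => by
    simp only [hν₁]; have := hμ (e₂ * w); positivity) W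
  set M := ms μ S with hM
  set P : ℝ := (e₁ : ℝ) * e₂ with hP
  set Q : ℝ := (2 : ℝ) ^ U with hQ
  have hQpos : 0 < Q := by positivity
  have hprod : ms μ₁ V * ms ν₁ W ≤ Q * M ^ 2 / P := by
    calc ms μ₁ V * ms ν₁ W ≤ (2 ^ 0 * (M / e₁)) * (Q * (M / e₂)) :=
          mul_le_mul a2 b2 hm2 (by positivity)
      _ = Q * M ^ 2 / P := by rw [hP]; field_simp
  have hθ0 : 0 ≤ θ := by linarith
  have hpow : (ms μ₁ V * ms ν₁ W) ^ θ ≤ Q ^ θ * M ^ (2 * θ) / P ^ θ := by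
    refine (Real.rpow_le_rpow (mul_nonneg hm1 hm2) hprod hθ0).trans (le_of_eq ?_)
    rw [Real.div_rpow (by positivity) hPpos.le, Real.mul_rpow hQpos.le (by positivity)]
    congr 2
    rw [Real.rpow_mul hM0, Real.rpow_two]
  have ht2 : (t / P) ^ (2 * (1 - θ)) = t ^ (2 * (1 - θ)) / P ^ (2 * (1 - θ)) :=
    Real.div_rpow ht.le hPpos.le _
  have ht0 : 0 ≤ t ^ (2 * (1 - θ)) := Real.rpow_nonneg ht.le _
  have hPθ : 0 < P ^ θ := Real.rpow_pos_of_pos hPpos _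
  have hPθ2 : 0 < P ^ (2 * (1 - θ)) := Real.rpow_pos_of_pos hPpos _
  have hfin : Q / P * em μ μ E ≤
      C * (Q ^ θ * M ^ (2 * θ) / P ^ θ) * (t ^ (2 * (1 - θ)) / P ^ (2 * (1 - θ))) := by
    refine hk'.trans ?_
    rw [ht2]
    gcongr
  have eP : P ^ (-(1 - θ)) = P / P ^ θ / P ^ (2 * (1 - θ)) := by
    have : -(1 - θ) = 1 - θ - 2 * (1 - θ) := by ring
    rw [this, Real.rpow_sub hPpos, Real.rpow_sub hPpos, Real.rpow_one]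
  have eQ : Q ^ (-(1 - θ)) = Q ^ θ / Q := by
    have : -(1 - θ) = θ - 1 := by ring
    rw [this, Real.rpow_sub hQpos, Real.rpow_one]
  rw [eP, eQ]
  have h8 : em μ μ E = P / Q * (Q / P * em μ μ E) := by field_simp
  rw [h8]
  refine (mul_le_mul_of_nonneg_left hfin (by positivity)).trans (le_of_eq ?_)
  field_simp

end Pool.Agent.IDE
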