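import Pool.Agent.IDE.G2

set_option autoImplicit false

namespace Pool.Agent.IDE

open Finset Pool.Agent.IDS

private theorem g3_expand (g : ℕ → ℝ) (hg : ∀ p, 0 ≤ g p) (Q : Finset ℕ) (m : ℕ)
    (hm : m.primeFactors ⊆ Q) :
    ∏ p ∈ m.primeFactors, (1 + g p) ≤
      ∑ A ∈ Q.powerset, if (∏ p ∈ A, p) ∣ m then ∏ p ∈ A, g p else 0 := by
  rw [Finset.prod_one_add]
  have h1 : ∑ A ∈ m.primeFactors.powerset, ∏ p ∈ A, g p =
      ∑ A ∈ m.primeFactors.powerset, if (∏ p ∈ A, p) ∣ m then ∏ p ∈ A, g p else 0 := by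
    refine sum_congr rfl fun A hA => ?_
    rw [mem_powerset] at hA
    rw [if_pos]
    exact (prod_dvd_prod_of_subset A m.primeFactors (fun p => p) hA).trans
      (Nat.prod_primeFactors_dvd m)
  rw [h1]
  apply sum_le_sum_of_subset_of_nonneg
  · exact powerset_mono.2 hm
  · intro A _ _
    split_ifs
    · exact prod_nonneg fun p _ => hg p
    · exact le_rfl

private theorem g3_sum (θ : ℝ) (h2 : θ ≤ 3 / 5) (g : ℕ → ℝ) (hg : ∀ p, 0 ≤ g p) (B : ℝ)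
    (hB : ∀ F : Finset ℕ, (∀ p ∈ F, p.Prime) → ∑ p ∈ F, g p * (p : ℝ) ^ (-(2 : ℝ) / 5) ≤ B)
    (Q : Finset ℕ) (hQ : ∀ p ∈ Q, p.Prime) :
    ∑ A ∈ Q.powerset, (∏ p ∈ A, g p) * ((∏ p ∈ A, p : ℕ) : ℝ) ^ (-(1 - θ)) ≤ Real.exp B := by
  have h1 : ∑ A ∈ Q.powerset, (∏ p ∈ A, g p) * ((∏ p ∈ A, p : ℕ) : ℝ) ^ (-(1 - θ)) =
      ∏ p ∈ Q, (1 + g p * (p : ℝ) ^ (-(1 - θ))) := by
    rw [Finset.prod_one_add]
    refine sum_congr rfl fun A _ => ?_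
    rw [prod_mul_distrib, Nat.cast_prod, Real.finsetProd_rpow A _ fun p _ => Nat.cast_nonneg p]
  rw [h1]
  calc ∏ p ∈ Q, (1 + g p * (p : ℝ) ^ (-(1 - θ))) ≤
      ∏ p ∈ Q, Real.exp (g p * (p : ℝ) ^ (-(2 : ℝ) / 5)) := by
        refine prod_le_prod (fun p _ => ?_) fun p hp => ?_
        · have := hg p
          positivity
        · have h3 : (p : ℝ) ^ (-(1 - θ)) ≤ (p : ℝ) ^ (-(2 : ℝ) / 5) := by
            apply Real.rpow_le_rpow_of_exponent_le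
            · exact_mod_cast (hQ p hp).one_lt.le
            · linarith
          have h4 := mul_le_mul_of_nonneg_left h3 (hg p)
          have h5 := Real.add_one_le_exp (g p * (p : ℝ) ^ (-(2 : ℝ) / 5))
          linarith
    _ = Real.exp (∑ p ∈ Q, g p * (p : ℝ) ^ (-(2 : ℝ) / 5)) := (Real.exp_sum _ _).symm
    _ ≤ Real.exp B := Real.exp_le_exp.2 (hB Q hQ)

/-- [IDE-G3] **Weighted sums.**

PROOF.  For `m > 0`: `∏_{p ∣ m} (1 + g p) = ∑_{e ∣ m squarefree} ∏_{p ∣ e} g p`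
(`Finset.prod_one_add` over the subsets of `m.primeFactors`; `e = ∏` of the subset).  Let
`G(e) = ∏_{p ∈ e.primeFactors} g p ≥ 0`.  Let `Q` be the finite set of all primes dividing some
`rd e.1 e.2` or `rd e.2 e.1` and `𝒟` the set of products of subsets of `Q`.  Then the sum is
`∑_{e₁, e₂ ∈ 𝒟} G(e₁) G(e₂) em μ μ {e ∈ E : e₁ ∣ rd e.1 e.2, e₂ ∣ rd e.2 e.1}
≤ C W^{2θ} t^{2(1-θ)} (∑_{e ∈ 𝒟} G(e) e^{-(1-θ)})²` by `dg` (`U = 0`), and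
`∑_{e∈𝒟} G(e) e^{-(1-θ)} = ∏_{p∈Q} (1 + g p p^{-(1-θ)}) ≤ exp (∑_{p∈Q} g p p^{-2/5}) ≤ exp B`
(`1 - θ ≥ 2/5`, `1 + x ≤ exp x`). -/
theorem wsum (θ : ℝ) (h1 : 1 / 2 < θ) (h2 : θ ≤ 3 / 5) :
    ∃ C : ℝ, 0 < C ∧ ∀ (S : Finset ℕ) (κ : ℕ → ℕ) (μ : ℕ → ℝ) (t B : ℝ) (g : ℕ → ℝ)
      (E : Finset (ℕ × ℕ)), (∀ v, 0 ≤ μ v) →
      (∀ v ∈ S, 0 < v ∧ μ v ≤ (Nat.totient v : ℝ) * (1 / 2 : ℝ) ^ κ v) → 0 < t →
      (∀ p, 0 ≤ g p) →
      (∀ F : Finset ℕ, (∀ p ∈ F, p.Prime) → ∑ p ∈ F, g p * (p : ℝ) ^ (-(2 : ℝ) / 5) ≤ B) →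
      E ⊆ S ×ˢ S →
      (∀ e ∈ E, κ e.1 ≤ κ e.2 ∧ (Nat.lcm e.1 e.2 : ℝ) * (1 / 2 : ℝ) ^ κ e.1 ≤ t) →
      ∑ e ∈ E, μ e.1 * μ e.2 * ((∏ p ∈ (rd e.1 e.2).primeFactors, (1 + g p)) *
        ∏ p ∈ (rd e.2 e.1).primeFactors, (1 + g p)) ≤
        C * Real.exp (2 * B) * (ms μ S) ^ (2 * θ) * t ^ (2 * (1 - θ)) := by
  obtain ⟨C, hC, hdg⟩ := dg θ h1 h2
  refine ⟨C, hC, ?_⟩
  intro S κ μ t B g E hμ hS ht hg hB hE hcond
  have hW : 0 ≤ ms μ S := ms_nonneg hμ S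
  set Q : Finset ℕ := E.biUnion fun e => (rd e.1 e.2).primeFactors ∪ (rd e.2 e.1).primeFactors
    with hQdef
  have hQ : ∀ p ∈ Q, p.Prime := by
    intro p hp
    rw [hQdef, mem_biUnion] at hp
    obtain ⟨e, _, hp⟩ := hp
    rcases mem_union.1 hp with h | h
    · exact Nat.prime_of_mem_primeFactors h
    · exact Nat.prime_of_mem_primeFactors h
  have hpos : ∀ A ∈ Q.powerset, 1 ≤ ∏ p ∈ A, p := by
    intro A hA
    rw [mem_powerset] at hA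
    exact Finset.one_le_prod' fun p hp => (hQ p (hA hp)).one_lt.le
  set K : ℝ := C * (ms μ S) ^ (2 * θ) * t ^ (2 * (1 - θ)) with hK
  have hK0 : 0 ≤ K := by positivity
  have hG : ∀ A : Finset ℕ, 0 ≤ ∏ p ∈ A, g p := fun A => prod_nonneg fun p _ => hg p
  -- step 1
  have step1 : ∑ e ∈ E, μ e.1 * μ e.2 * ((∏ p ∈ (rd e.1 e.2).primeFactors, (1 + g p)) *
        ∏ p ∈ (rd e.2 e.1).primeFactors, (1 + g p)) ≤
      ∑ e ∈ E, ∑ A ∈ Q.powerset, ∑ A' ∈ Q.powerset,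
        if (∏ p ∈ A, p) ∣ rd e.1 e.2 ∧ (∏ p ∈ A', p) ∣ rd e.2 e.1 then
          (∏ p ∈ A, g p) * (∏ p ∈ A', g p) * (μ e.1 * μ e.2) else 0 := by
    refine sum_le_sum fun e he => ?_
    have hs1 : (rd e.1 e.2).primeFactors ⊆ Q := by
      intro p hp
      rw [hQdef, mem_biUnion]
      exact ⟨e, he, mem_union_left _ hp⟩
    have hs2 : (rd e.2 e.1).primeFactors ⊆ Q := by
      intro p hp
      rw [hQdef, mem_biUnion]
      exact ⟨e, he, mem_union_right _ hp⟩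
    have k1 := g3_expand g hg Q _ hs1
    have k2 := g3_expand g hg Q _ hs2
    have n2 : 0 ≤ ∏ p ∈ (rd e.2 e.1).primeFactors, (1 + g p) :=
      prod_nonneg fun p _ => by have := hg p; linarith
    have n1 : 0 ≤ ∑ A ∈ Q.powerset, if (∏ p ∈ A, p) ∣ rd e.1 e.2 then ∏ p ∈ A, g p else 0 := by
      refine sum_nonneg fun A _ => ?_
      split_ifs
      · exact hG A
      · exact le_rfl
    have k3 := mul_le_mul k1 k2 n2 n1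
    have k4 := mul_le_mul_of_nonneg_left k3 (mul_nonneg (hμ e.1) (hμ e.2))
    refine k4.trans (le_of_eq ?_)
    rw [sum_mul_sum, mul_sum]
    refine sum_congr rfl fun A _ => ?_
    rw [mul_sum]
    refine sum_congr rfl fun A' _ => ?_
    by_cases c1 : (∏ p ∈ A, p) ∣ rd e.1 e.2
    · by_cases c2 : (∏ p ∈ A', p) ∣ rd e.2 e.1
      · rw [if_pos c1, if_pos c2, if_pos ⟨c1, c2⟩]
        ring
      · have c : ¬ ((∏ p ∈ A, p) ∣ rd e.1 e.2 ∧ (∏ p ∈ A', p) ∣ rd e.2 e.1) := fun h => c2 h.2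
        rw [if_pos c1, if_neg c2, if_neg c]
        ring
    · have c : ¬ ((∏ p ∈ A, p) ∣ rd e.1 e.2 ∧ (∏ p ∈ A', p) ∣ rd e.2 e.1) := fun h => c1 h.1
      rw [if_neg c1, if_neg c]
      ring
  -- step 2
  have step2 : ∑ e ∈ E, ∑ A ∈ Q.powerset, ∑ A' ∈ Q.powerset,
        (if (∏ p ∈ A, p) ∣ rd e.1 e.2 ∧ (∏ p ∈ A', p) ∣ rd e.2 e.1 then
          (∏ p ∈ A, g p) * (∏ p ∈ A', g p) * (μ e.1 * μ e.2) else 0) =
      ∑ A ∈ Q.powerset, ∑ A' ∈ Q.powerset, (∏ p ∈ A, g p) * (∏ p ∈ A', g p) *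
        em μ μ (E.filter fun e => (∏ p ∈ A, p) ∣ rd e.1 e.2 ∧ (∏ p ∈ A', p) ∣ rd e.2 e.1) := by
    rw [sum_comm]
    refine sum_congr rfl fun A _ => ?_
    rw [sum_comm]
    refine sum_congr rfl fun A' _ => ?_
    unfold IDS.em
    rw [sum_filter, mul_sum]
    refine sum_congr rfl fun e _ => ?_
    split_ifs
    · rfl
    · rw [mul_zero]
  -- step 3
  have step3 : ∑ A ∈ Q.powerset, ∑ A' ∈ Q.powerset, (∏ p ∈ A, g p) * (∏ p ∈ A', g p) *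
        em μ μ (E.filter fun e => (∏ p ∈ A, p) ∣ rd e.1 e.2 ∧ (∏ p ∈ A', p) ∣ rd e.2 e.1) ≤
      ∑ A ∈ Q.powerset, ∑ A' ∈ Q.powerset,
        K * (((∏ p ∈ A, g p) * ((∏ p ∈ A, p : ℕ) : ℝ) ^ (-(1 - θ))) *
          ((∏ p ∈ A', g p) * ((∏ p ∈ A', p : ℕ) : ℝ) ^ (-(1 - θ)))) := by
    refine sum_le_sum fun A hA => sum_le_sum fun A' hA' => ?_
    have h := hdg S κ μ t (∏ p ∈ A, p) (∏ p ∈ A', p) 0
      (E.filter fun e => (∏ p ∈ A, p) ∣ rd e.1 e.2 ∧ (∏ p ∈ A', p) ∣ rd e.2 e.1) hμ hS ht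
      (hpos A hA) (hpos A' hA') ((filter_subset _ _).trans hE) (by
        intro e he
        rw [mem_filter] at he
        obtain ⟨he, c1, c2⟩ := he
        obtain ⟨c3, c4⟩ := hcond e he
        exact ⟨by omega, c4, c1, c2⟩)
    rw [pow_zero, Real.one_rpow, mul_one,
      Real.mul_rpow (Nat.cast_nonneg _) (Nat.cast_nonneg _)] at h
    have h' := mul_le_mul_of_nonneg_left h (mul_nonneg (hG A) (hG A'))
    refine h'.trans (le_of_eq ?_)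
    rw [hK]
    ring
  have step4 : ∑ A ∈ Q.powerset, ∑ A' ∈ Q.powerset,
        K * (((∏ p ∈ A, g p) * ((∏ p ∈ A, p : ℕ) : ℝ) ^ (-(1 - θ))) *
          ((∏ p ∈ A', g p) * ((∏ p ∈ A', p : ℕ) : ℝ) ^ (-(1 - θ)))) =
      K * ((∑ A ∈ Q.powerset, (∏ p ∈ A, g p) * ((∏ p ∈ A, p : ℕ) : ℝ) ^ (-(1 - θ))) *
        ∑ A ∈ Q.powerset, (∏ p ∈ A, g p) * ((∏ p ∈ A, p : ℕ) : ℝ) ^ (-(1 - θ))) := by
    rw [sum_mul_sum, mul_sum]
    refine sum_congr rfl fun A _ => ?_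
    rw [mul_sum]
  have h5 := g3_sum θ h2 g hg B hB Q hQ
  have h6 : 0 ≤ ∑ A ∈ Q.powerset, (∏ p ∈ A, g p) * ((∏ p ∈ A, p : ℕ) : ℝ) ^ (-(1 - θ)) :=
    sum_nonneg fun A _ => mul_nonneg (hG A) (Real.rpow_nonneg (Nat.cast_nonneg _) _)
  have h7 : (∑ A ∈ Q.powerset, (∏ p ∈ A, g p) * ((∏ p ∈ A, p : ℕ) : ℝ) ^ (-(1 - θ))) *
        (∑ A ∈ Q.powerset, (∏ p ∈ A, g p) * ((∏ p ∈ A, p : ℕ) : ℝ) ^ (-(1 - θ))) ≤
      Real.exp B * Real.exp B := mul_le_mul h5 h5 h6 (Real.exp_pos _).le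
  have h8 : Real.exp B * Real.exp B = Real.exp (2 * B) := by
    rw [← Real.exp_add, two_mul]
  refine step1.trans ?_
  rw [step2]
  refine step3.trans ?_
  rw [step4]
  rw [h8] at h7
  refine (mul_le_mul_of_nonneg_left h7 hK0).trans (le_of_eq ?_)
  rw [hK]
  ring

end Pool.Agent.IDE
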