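import Pool.Agent.IDE.Base
import Pool.Agent.Lib.helper71.Mertens

set_option autoImplicit false

namespace Pool.Agent.IDE

open Finset Pool.Agent.IDS

/-- [IDE-N1] **Chebyshev.**

PROOF.  `∑_{p ∈ F} log p/p ≤ (1/Y) ∑_{p ≤ 2Y} log p = θ(2Y)/Y ≤ 2 log 4 ≤ 3`
(`Chebyshev.theta_le_log4_mul_x`). -/
theorem cheb_dyadic (Y : ℝ) (hY : 0 < Y) (F : Finset ℕ)
    (hF : ∀ p ∈ F, p.Prime ∧ Y ≤ p ∧ (p : ℝ) ≤ 2 * Y) :
    ∑ p ∈ F, Real.log p / p ≤ 3 := by
  have h1 : ∑ p ∈ F, Real.log p / p ≤ ∑ p ∈ F, Real.log p / Y := by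
    refine Finset.sum_le_sum fun p hp => ?_
    obtain ⟨hpp, h1, -⟩ := hF p hp
    have hp1 : (1 : ℝ) ≤ p := by exact_mod_cast hpp.one_lt.le
    exact div_le_div_of_nonneg_left (Real.log_nonneg hp1) hY h1
  have h2 : ∑ p ∈ F, Real.log p ≤ Chebyshev.theta (2 * Y) := by
    rw [Chebyshev.theta]
    refine Finset.sum_le_sum_of_subset_of_nonneg ?_ ?_
    · intro p hp
      obtain ⟨hpp, -, h1⟩ := hF p hp
      simp only [Finset.mem_filter, Finset.mem_Ioc]
      exact ⟨⟨hpp.pos, Nat.le_floor h1⟩, hpp⟩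
    · intro p hp _
      simp only [Finset.mem_filter, Finset.mem_Ioc] at hp
      exact Real.log_nonneg (by exact_mod_cast hp.1.1)
  have h3 := Chebyshev.theta_le_log4_mul_x (x := 2 * Y) (by positivity)
  have h4 : Real.log 4 ≤ 1.5 := by
    have : Real.log 4 = 2 * Real.log 2 := by
      rw [show (4 : ℝ) = 2 ^ 2 by norm_num, Real.log_pow]; norm_num
    have := Real.log_two_lt_d9
    linarith
  rw [← Finset.sum_div] at h1
  refine h1.trans ?_
  rw [div_le_iff₀ hY]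
  nlinarith

private theorem fib_bound (F : Finset ℕ) (f : ℕ → ℝ) (g : ℕ → ℕ) (N : ℕ) (c : ℝ)
    (hg : ∀ p ∈ F, g p ≤ N) (hb : ∀ i, ∑ p ∈ F.filter (fun p => g p = i), f p ≤ c) :
    ∑ p ∈ F, f p ≤ (N + 1 : ℝ) * c := by
  have h := Finset.sum_fiberwise_of_maps_to (s := F) (t := Finset.range (N + 1)) (g := g)
    (f := f) (fun p hp => Finset.mem_range.2 (Nat.lt_succ_of_le (hg p hp)))
  rw [← h]
  refine (Finset.sum_le_card_nsmul _ _ c (fun i _ => hb i)).trans ?_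
  simp

/-- [IDE-N1] PROOF.  Split into dyadic intervals `[2^i, 2^{i+1}]`, `i ≤ log₂ z`, and use
`cheb_dyadic`: `≤ 3 (log₂ z + 1) ≤ 5 (1 + log z)`. -/
theorem cheb_log (z : ℝ) (hz : 1 ≤ z) (F : Finset ℕ)
    (hF : ∀ p ∈ F, p.Prime ∧ (p : ℝ) ≤ z) :
    ∑ p ∈ F, Real.log p / p ≤ 5 * (1 + Real.log z) := by
  have hlz : 0 ≤ Real.log z := Real.log_nonneg hz
  have hL : 0 ≤ Real.logb 2 z := Real.logb_nonneg (by norm_num) hz
  have h := fib_bound F (fun p => Real.log p / p) (fun p => Nat.log 2 p) ⌊Real.logb 2 z⌋₊ 3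
    (by
      intro p hp
      obtain ⟨hpp, h1⟩ := hF p hp
      refine Nat.le_floor ?_
      have h2 : (2 : ℝ) ^ (Nat.log 2 p) ≤ p := by exact_mod_cast Nat.pow_log_le_self 2 hpp.pos.ne'
      rw [Real.le_logb_iff_rpow_le (by norm_num) (by linarith), Real.rpow_natCast]
      exact h2.trans h1)
    (by
      intro i
      refine cheb_dyadic (2 ^ i) (by positivity) _ ?_
      intro p hp
      rw [Finset.mem_filter] at hp
      obtain ⟨hpF, hpi⟩ := hp
      obtain ⟨hpp, h1⟩ := hF p hpF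
      have h2 := Nat.pow_log_le_self 2 hpp.pos.ne'
      have h3 := Nat.lt_pow_succ_log_self (b := 2) (by norm_num) p
      rw [hpi] at h2 h3
      refine ⟨hpp, by exact_mod_cast h2, ?_⟩
      have h4 : (p : ℝ) ≤ 2 ^ (i + 1) := by exact_mod_cast h3.le
      rw [pow_succ] at h4
      linarith)
  refine h.trans ?_
  have h5 : ((⌊Real.logb 2 z⌋₊ : ℕ) : ℝ) ≤ Real.logb 2 z := Nat.floor_le hL
  have h6 : Real.logb 2 z * Real.log 2 = Real.log z := by
    rw [Real.logb]; field_simp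
  have h7 := Real.log_two_gt_d9
  nlinarith

/-- [IDE-N1] PROOF.  In `[Y, 2Y]`, `Y ≥ z`: `∑ 1/p ≤ (1/log Y) ∑ log p/p ≤ 3/log z`; at most
`log₂ K + 1` dyadic intervals cover `(z, K z]`. -/
theorem cheb_short (K : ℝ) (hK : 1 ≤ K) (z : ℝ) (hz : 2 ≤ z) (F : Finset ℕ)
    (hF : ∀ p ∈ F, p.Prime ∧ z < p ∧ (p : ℝ) ≤ K * z) :
    ∑ p ∈ F, (1 : ℝ) / p ≤ 3 * (Real.logb 2 K + 1) / Real.log z := by
  have hz0 : 0 < z := by linarith
  have hlz : 0 < Real.log z := Real.log_pos (by linarith)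
  have hL : 0 ≤ Real.logb 2 K := Real.logb_nonneg (by norm_num) hK
  have h1 : ∑ p ∈ F, (1 : ℝ) / p ≤ (∑ p ∈ F, Real.log p / p) / Real.log z := by
    rw [Finset.sum_div]
    refine Finset.sum_le_sum fun p hp => ?_
    obtain ⟨hpp, h1, -⟩ := hF p hp
    have hp0 : (0 : ℝ) < p := by exact_mod_cast hpp.pos
    rw [div_div, div_le_div_iff₀ hp0 (by positivity)]
    have : Real.log z ≤ Real.log p := Real.log_le_log hz0 h1.le
    nlinarith
  have h := fib_bound F (fun p => Real.log p / p) (fun p => ⌊Real.logb 2 (p / z)⌋₊)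
    ⌊Real.logb 2 K⌋₊ 3
    (by
      intro p hp
      obtain ⟨hpp, h1, h2⟩ := hF p hp
      refine Nat.floor_le_floor ?_
      refine Real.logb_le_logb_of_le (by norm_num) (div_pos (by linarith) hz0) ?_
      rw [div_le_iff₀ hz0]; exact h2)
    (by
      intro i
      refine cheb_dyadic (z * 2 ^ i) (by positivity) _ ?_
      intro p hp
      rw [Finset.mem_filter] at hp
      obtain ⟨hpF, hpi⟩ := hp
      obtain ⟨hpp, h1, h2⟩ := hF p hpF
      have hp0 : 0 < (p : ℝ) / z := div_pos (by linarith) hz0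
      have hl0 : 0 ≤ Real.logb 2 (p / z) :=
        Real.logb_nonneg (by norm_num) (by rw [le_div_iff₀ hz0]; linarith)
      have h3 : (i : ℝ) ≤ Real.logb 2 (p / z) := by
        rw [← hpi]; exact Nat.floor_le hl0
      have h4 : Real.logb 2 (p / z) < (i + 1 : ℕ) := by
        have := Nat.lt_floor_add_one (Real.logb 2 (p / z))
        rw [hpi] at this
        exact_mod_cast this
      rw [Real.le_logb_iff_rpow_le (by norm_num) hp0, Real.rpow_natCast, le_div_iff₀ hz0] at h3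
      rw [Real.logb_lt_iff_lt_rpow (by norm_num) hp0, Real.rpow_natCast, div_lt_iff₀ hz0,
        pow_succ] at h4
      exact ⟨hpp, by linarith, by linarith⟩)
  refine h1.trans (div_le_div_of_nonneg_right (h.trans ?_) hlz.le)
  have h5 : ((⌊Real.logb 2 K⌋₊ : ℕ) : ℝ) ≤ Real.logb 2 K := Nat.floor_le hL
  linarith

/-- [IDE-N1] **Upper Mertens bound** `∏_{p ≤ H} (1-1/p)⁻¹ ≤ C (1 + log H)`.

PROOF.  `(1-1/p)⁻¹ ≤ exp (1/p + 2/p²)` (`p ≥ 2`), `∑ 2/p² < ∞`, and
`∑_{p ≤ H} 1/p ≤ log (1 + log H) + C`: this needs Mertens' theorem with the right constant `1`.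
It is available in the team library: `Pool.Agent.Lib.helper71.Mertens`, theorem `inv_V_le` (and
`Pool.Agent.Lib.helper94.ANT.Mertens`); import it (every factor is `≥ 1`, so one may enlarge `F`). -/
theorem mertens_upper :
    ∃ C : ℝ, 0 < C ∧ ∀ (H : ℝ) (F : Finset ℕ), 1 ≤ H → (∀ p ∈ F, p.Prime ∧ (p : ℝ) ≤ H) →
      ∏ p ∈ F, (1 - (1 : ℝ) / p)⁻¹ ≤ C * (1 + Real.log H) := by
  refine ⟨Real.exp 16, Real.exp_pos _, ?_⟩
  intro H F hH hF
  have hE : (1 : ℝ) ≤ Real.exp 16 := Real.one_le_exp (by norm_num)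
  have hlH : 0 ≤ Real.log H := Real.log_nonneg hH
  by_cases h2 : 2 ≤ ⌊H⌋₊
  · have h3 := Pool.Agent.Lib.helper71.inv_V_le ⌊H⌋₊ h2
    have h4 : ∏ p ∈ F, (1 - (1 : ℝ) / p)⁻¹ ≤ (Pool.Agent.Lib.helper71.V ⌊H⌋₊)⁻¹ := by
      unfold Pool.Agent.Lib.helper71.V
      rw [← Finset.prod_inv_distrib]
      refine Finset.prod_le_prod_of_subset_of_one_le ?_ ?_ ?_
      · intro p hp
        obtain ⟨hpp, h1⟩ := hF p hp
        rw [Pool.Agent.Lib.helper71.mem_PI]
        exact ⟨hpp.pos, Nat.le_floor h1, hpp⟩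
      · intro p hp
        exact (inv_pos.2 (Pool.Agent.Lib.helper71.one_sub_inv_pos (hF p hp).1)).le
      · intro p hp _
        have hpp := Pool.Agent.Lib.helper71.PI_prime hp
        have h1 := Pool.Agent.Lib.helper71.one_sub_inv_pos hpp
        rw [one_le_inv₀ h1]
        have : (0 : ℝ) ≤ 1 / p := by positivity
        linarith
    refine h4.trans (h3.trans ?_)
    refine mul_le_mul_of_nonneg_left ?_ (by positivity)
    have h5 : Real.log (⌊H⌋₊ : ℕ) ≤ Real.log H := by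
      refine Real.log_le_log ?_ (Nat.floor_le (by linarith))
      exact_mod_cast (by omega : 0 < ⌊H⌋₊)
    linarith
  · have hFe : F = ∅ := by
      rw [Finset.eq_empty_iff_forall_notMem]
      intro p hp
      obtain ⟨hpp, h1⟩ := hF p hp
      have := Nat.le_floor h1
      have := hpp.two_le
      omega
    rw [hFe, Finset.prod_empty]
    nlinarith

end Pool.Agent.IDE
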