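import Pool.Agent.IDE.G3
import Pool.Agent.IDE.N1

set_option autoImplicit false

namespace Pool.Agent.IDE

open Finset Pool.Agent.IDS

/-- [IDE-G4] PROOF.  Expand: with `e_k` the elementary symmetric polynomials of the `x i`,
`∏ (1 + lam x_i) - 1 = ∑_{k≥1} lam^k e_k ≥ lam ∑_{k≥1} e_k`.  Or by induction on `s`:
`∏_{insert} (1 + lam x) - 1 = (1 + lam x_j)(A+1) - 1 = A + lam x_j (A + 1)` with
`A = ∏_s (1 + lam x) - 1 ≥ lam a`, `a = ∏_s (1+x) - 1 ≥ 0`, and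
`A + lam x_j (A + 1) ≥ lam a + lam x_j (a + 1)` as `A ≥ lam a ≥ a`. -/
theorem prod_one_add_scale (s : Finset ℕ) (x : ℕ → ℝ) (hx : ∀ i, 0 ≤ x i) (lam : ℝ)
    (hlam : 1 ≤ lam) :
    lam * (∏ i ∈ s, (1 + x i) - 1) ≤ ∏ i ∈ s, (1 + lam * x i) - 1 := by
  classical
  induction s using Finset.induction_on with
  | empty => simp
  | insert j s hj ih =>
    rw [Finset.prod_insert hj, Finset.prod_insert hj]
    set a := ∏ i ∈ s, (1 + x i) - 1 with ha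
    set A := ∏ i ∈ s, (1 + lam * x i) - 1 with hA
    have ha0 : 0 ≤ a := by
      have : 1 ≤ ∏ i ∈ s, (1 + x i) := by
        refine Finset.one_le_prod fun i _ => ?_
        have := hx i; linarith
      linarith
    have e1 : ∏ i ∈ s, (1 + x i) = a + 1 := by rw [ha]; ring
    have e2 : ∏ i ∈ s, (1 + lam * x i) = A + 1 := by rw [hA]; ring
    rw [e1, e2]
    have hxj := hx j
    have h1 : a ≤ A := by nlinarith
    have h2 : lam * x j * a ≤ lam * x j * A :=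
      mul_le_mul_of_nonneg_left h1 (by positivity)
    nlinarith

private theorem Fw_eq (n : ℕ) (hn : 0 < n) :
    Fw n = ∏ p ∈ n.primeFactors, (1 - (1 : ℝ) / p)⁻¹ := by
  have h := Nat.totient_eq_mul_prod_factors n
  have h2 : (Nat.totient n : ℝ) = n * ∏ p ∈ n.primeFactors, (1 - (1 : ℝ) / p) := by
    have h3 : ((Nat.totient n : ℚ) : ℝ) = ((n * ∏ p ∈ n.primeFactors, (1 - (p : ℚ)⁻¹) : ℚ) : ℝ) := by
      rw [h]
    push_cast at h3
    rw [h3]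
    simp only [one_div]
  have hn0 : (n : ℝ) ≠ 0 := by exact_mod_cast hn.ne'
  unfold Fw
  rw [h2, Finset.prod_inv_distrib, div_mul_eq_div_div, div_self hn0, one_div]

private theorem inv_le (p : ℕ) (hp : p.Prime) : (1 - (1 : ℝ) / p)⁻¹ ≤ 1 + 2 / p := by
  have h2 : (2 : ℝ) ≤ p := by exact_mod_cast hp.two_le
  have hp0 : (0 : ℝ) < p := by linarith
  have e1 : 1 - (1 : ℝ) / p = (p - 1) / p := by field_simp
  have e2 : 1 + (2 : ℝ) / p = (p + 2) / p := by field_simp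
  rw [e1, e2, inv_div, div_le_div_iff₀ (by linarith) hp0]
  nlinarith

private theorem inv_pos' (p : ℕ) (hp : p.Prime) : 0 < (1 - (1 : ℝ) / p)⁻¹ := by
  have h2 : (2 : ℝ) ≤ p := by exact_mod_cast hp.two_le
  have h3 : (1 : ℝ) / p ≤ 1 / 2 := one_div_le_one_div_of_le (by norm_num) h2
  exact inv_pos.2 (by linarith)

/-- split of `Fw` at `H` -/
private theorem Fw_le (C₁ H : ℝ) (hH : 1 ≤ H)
    (hM : ∀ (H : ℝ) (F : Finset ℕ), 1 ≤ H → (∀ p ∈ F, p.Prime ∧ (p : ℝ) ≤ H) →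
      ∏ p ∈ F, (1 - (1 : ℝ) / p)⁻¹ ≤ C₁ * (1 + Real.log H)) (n : ℕ) (hn : 0 < n) :
    Fw n ≤ C₁ * (1 + Real.log H) *
      ∏ p ∈ n.primeFactors.filter (fun p : ℕ => H < p), (1 + 2 / (p : ℝ)) := by
  rw [Fw_eq n hn, ← Finset.prod_filter_not_mul_prod_filter n.primeFactors (fun p : ℕ => H < (p : ℝ))]
  refine mul_le_mul ?_ ?_ ?_ ?_
  · refine hM H _ hH ?_
    intro p hp
    rw [Finset.mem_filter] at hp
    exact ⟨Nat.prime_of_mem_primeFactors hp.1, not_lt.1 hp.2⟩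
  · refine Finset.prod_le_prod ?_ ?_
    · intro p hp
      exact (inv_pos' p (Nat.prime_of_mem_primeFactors (Finset.mem_filter.1 hp).1)).le
    · intro p hp
      exact inv_le p (Nat.prime_of_mem_primeFactors (Finset.mem_filter.1 hp).1)
  · refine Finset.prod_nonneg ?_
    intro p hp
    exact (inv_pos' p (Nat.prime_of_mem_primeFactors (Finset.mem_filter.1 hp).1)).le
  · have h := hM H ∅ hH (by simp)
    rw [Finset.prod_empty] at h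
    linarith

private theorem big_prod (H : ℝ) (hH : 1 ≤ H) (m m' : ℕ) (hc : Nat.Coprime m m') :
    (∏ p ∈ m.primeFactors.filter (fun p : ℕ => H < p), (1 + 2 / (p : ℝ))) *
      (∏ p ∈ m'.primeFactors.filter (fun p : ℕ => H < p), (1 + 2 / (p : ℝ))) ≤
    1 + H ^ (-(3 : ℝ) / 8) *
      ((∏ p ∈ m.primeFactors, (1 + (if H < (p : ℝ) then 2 * H ^ ((3 : ℝ) / 8) / p else 0))) *
        ∏ p ∈ m'.primeFactors, (1 + (if H < (p : ℝ) then 2 * H ^ ((3 : ℝ) / 8) / p else 0))) := by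
  classical
  have hH0 : 0 < H := by linarith
  have hdis : Disjoint m.primeFactors m'.primeFactors := hc.disjoint_primeFactors
  have hdis2 : Disjoint (m.primeFactors.filter (fun p : ℕ => H < p))
      (m'.primeFactors.filter (fun p : ℕ => H < p)) :=
    Finset.disjoint_filter_filter hdis
  rw [← Finset.prod_union hdis2, ← Finset.prod_union hdis, ← Finset.filter_union]
  set U := m.primeFactors ∪ m'.primeFactors with hU
  have h1 := prod_one_add_scale (U.filter (fun p : ℕ => H < p)) (fun p => 2 / (p : ℝ))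
    (fun p => by positivity) (H ^ ((3 : ℝ) / 8)) (Real.one_le_rpow hH (by norm_num))
  have h2 : ∏ p ∈ U, (1 + (if H < (p : ℝ) then 2 * H ^ ((3 : ℝ) / 8) / p else 0)) =
      ∏ p ∈ U.filter (fun p : ℕ => H < p), (1 + H ^ ((3 : ℝ) / 8) * (2 / (p : ℝ))) := by
    rw [Finset.prod_filter]
    refine Finset.prod_congr rfl fun p _ => ?_
    split_ifs with h
    · ring
    · ring
  rw [h2]
  set X := ∏ p ∈ U.filter (fun p : ℕ => H < p), (1 + H ^ ((3 : ℝ) / 8) * (2 / (p : ℝ))) with hX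
  set Y := ∏ p ∈ U.filter (fun p : ℕ => H < p), (1 + 2 / (p : ℝ)) with hY
  have h3 : H ^ (-(3 : ℝ) / 8) * H ^ ((3 : ℝ) / 8) = 1 := by
    rw [← Real.rpow_add hH0]; norm_num
  have h4 : 0 < H ^ (-(3 : ℝ) / 8) := Real.rpow_pos_of_pos hH0 _
  have h5 := mul_le_mul_of_nonneg_left h1 h4.le
  rw [← mul_assoc, h3, one_mul] at h5
  nlinarith

private theorem log_sq (H : ℝ) (hH : 1 ≤ H) :
    (1 + Real.log H) ^ 2 * H ^ (-(3 : ℝ) / 8) ≤ 289 * H ^ (-(1 : ℝ) / 4) := by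
  have hH0 : 0 < H := by linarith
  have h1 := Real.log_le_rpow_div hH0.le (show (0 : ℝ) < 1 / 16 by norm_num)
  have h2 : 1 ≤ H ^ ((1 : ℝ) / 16) := Real.one_le_rpow hH (by norm_num)
  have h3 : 0 ≤ Real.log H := Real.log_nonneg hH
  have h4 : 1 + Real.log H ≤ 17 * H ^ ((1 : ℝ) / 16) := by
    rw [div_eq_mul_inv] at h1
    norm_num at h1 h2 ⊢
    linarith
  have h5 : (1 + Real.log H) ^ 2 ≤ (17 * H ^ ((1 : ℝ) / 16)) ^ 2 :=
    pow_le_pow_left₀ (by linarith) h4 2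
  have h6 : (H ^ ((1 : ℝ) / 16)) ^ 2 * H ^ (-(3 : ℝ) / 8) = H ^ (-(1 : ℝ) / 4) := by
    rw [← Real.rpow_natCast, ← Real.rpow_mul hH0.le, ← Real.rpow_add hH0]
    norm_num
  have h7 : 0 < H ^ (-(3 : ℝ) / 8) := Real.rpow_pos_of_pos hH0 _
  calc (1 + Real.log H) ^ 2 * H ^ (-(3 : ℝ) / 8)
      ≤ (17 * H ^ ((1 : ℝ) / 16)) ^ 2 * H ^ (-(3 : ℝ) / 8) :=
        mul_le_mul_of_nonneg_right h5 h7.le
    _ = 289 * ((H ^ ((1 : ℝ) / 16)) ^ 2 * H ^ (-(3 : ℝ) / 8)) := by ring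
    _ = 289 * H ^ (-(1 : ℝ) / 4) := by rw [h6]

/-- [IDE-G4] **Removal of the weights `n/φ(n)`.**

PROOF.  `Fw n = ∏_{p ∣ n} (1-1/p)⁻¹`, and for `p ≥ 2`: `(1-1/p)⁻¹ ≤ 1 + 2/p`.  By `mertens_upper` (N1)
`∏_{p ∣ n, p ≤ H} (1-1/p)⁻¹ ≤ C₁ (1 + log H)`.  So with `m = rd v w`, `m' = rd w v` (coprime)
`Fw m · Fw m' ≤ C₁² (1 + log H)² Π`, `Π = ∏_{p ∣ m m', p > H} (1 + 2/p)`, and by
`prod_one_add_scale` with `lam = H^{3/8}`:
`Π ≤ 1 + H^{-3/8} ∏_{p ∣ m m', p > H} (1 + 2 H^{3/8}/p)`.  The `1` gives the first term.  For the second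
one use `wsum` with `g p = 2 H^{3/8}/p` if `p > H`, `0` otherwise:
`∑ g p p^{-2/5} ≤ 2 H^{3/8} ∑_{n > H} n^{-7/5} ≤ B` with an absolute constant `B`
(`∑_{n>H} n^{-7/5} ≤ C H^{-2/5}`, `3/8 < 2/5`), and `(1 + log H)² H^{-3/8} ≤ C H^{-1/4}`. -/
theorem tr (θ : ℝ) (h1 : 1 / 2 < θ) (h2 : θ ≤ 3 / 5) :
    ∃ C : ℝ, 0 < C ∧ ∀ (S : Finset ℕ) (κ : ℕ → ℕ) (μ : ℕ → ℝ) (t H : ℝ)
      (E : Finset (ℕ × ℕ)), (∀ v, 0 ≤ μ v) →
      (∀ v ∈ S, 0 < v ∧ μ v ≤ (Nat.totient v : ℝ) * (1 / 2 : ℝ) ^ κ v) → 0 < t → 1 ≤ H →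
      E ⊆ S ×ˢ S →
      (∀ e ∈ E, κ e.1 ≤ κ e.2 ∧ (Nat.lcm e.1 e.2 : ℝ) * (1 / 2 : ℝ) ^ κ e.1 ≤ t) →
      ∑ e ∈ E, μ e.1 * μ e.2 * (Fw (rd e.1 e.2) * Fw (rd e.2 e.1)) ≤
        C * (1 + Real.log H) ^ 2 * em μ μ E +
        C * (ms μ S) ^ (2 * θ) * t ^ (2 * (1 - θ)) * H ^ (-(1 : ℝ) / 4) := by
  obtain ⟨C₁, hC₁, hM⟩ := mertens_upper
  obtain ⟨C₂, hC₂, hW⟩ := wsum θ h1 h2
  have hsum : Summable (fun n : ℕ => (n : ℝ) ^ (-(41 : ℝ) / 40)) :=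
    Real.summable_nat_rpow.2 (by norm_num)
  set B : ℝ := 2 * ∑' n : ℕ, (n : ℝ) ^ (-(41 : ℝ) / 40) with hBdef
  refine ⟨C₁ ^ 2 + 289 * C₁ ^ 2 * C₂ * Real.exp (2 * B), by positivity, ?_⟩
  intro S κ μ t H E hμ hS ht hH hES hE
  have hH0 : 0 < H := by linarith
  have hlH : 0 ≤ Real.log H := Real.log_nonneg hH
  set g : ℕ → ℝ := fun p => if H < (p : ℝ) then 2 * H ^ ((3 : ℝ) / 8) / p else 0 with hg
  have hg0 : ∀ p, 0 ≤ g p := by
    intro p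
    simp only [hg]
    split_ifs with h
    · positivity
    · exact le_refl _
  have hgB : ∀ F : Finset ℕ, (∀ p ∈ F, p.Prime) → ∑ p ∈ F, g p * (p : ℝ) ^ (-(2 : ℝ) / 5) ≤ B := by
    intro F hF
    have h3 : ∀ p ∈ F, g p * (p : ℝ) ^ (-(2 : ℝ) / 5) ≤ 2 * (p : ℝ) ^ (-(41 : ℝ) / 40) := by
      intro p hp
      have hp0 : (0 : ℝ) < p := by exact_mod_cast (hF p hp).pos
      simp only [hg]
      split_ifs with h
      · have h4 : H ^ ((3 : ℝ) / 8) ≤ (p : ℝ) ^ ((3 : ℝ) / 8) :=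
          Real.rpow_le_rpow hH0.le h.le (by norm_num)
        have h5 : (p : ℝ) ^ ((3 : ℝ) / 8) * (p : ℝ)⁻¹ * (p : ℝ) ^ (-(2 : ℝ) / 5) =
            (p : ℝ) ^ (-(41 : ℝ) / 40) := by
          rw [← Real.rpow_neg_one, ← Real.rpow_add hp0, ← Real.rpow_add hp0]
          norm_num
        have h6 : 0 < (p : ℝ)⁻¹ * (p : ℝ) ^ (-(2 : ℝ) / 5) := by positivity
        calc 2 * H ^ ((3 : ℝ) / 8) / p * (p : ℝ) ^ (-(2 : ℝ) / 5)
            = 2 * (H ^ ((3 : ℝ) / 8) * ((p : ℝ)⁻¹ * (p : ℝ) ^ (-(2 : ℝ) / 5))) := by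
              rw [div_eq_mul_inv]; ring
          _ ≤ 2 * ((p : ℝ) ^ ((3 : ℝ) / 8) * ((p : ℝ)⁻¹ * (p : ℝ) ^ (-(2 : ℝ) / 5))) := by
              gcongr
          _ = 2 * (p : ℝ) ^ (-(41 : ℝ) / 40) := by rw [← h5]; ring
      · rw [zero_mul]; positivity
    refine (Finset.sum_le_sum h3).trans ?_
    rw [← Finset.mul_sum, hBdef]
    refine mul_le_mul_of_nonneg_left ?_ (by norm_num)
    exact hsum.sum_le_tsum F (fun n _ => by positivity)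
  have hWE := hW S κ μ t B g E hμ hS ht hg0 hgB hES hE
  set Q : ℝ := ∑ e ∈ E, μ e.1 * μ e.2 * ((∏ p ∈ (rd e.1 e.2).primeFactors, (1 + g p)) *
        ∏ p ∈ (rd e.2 e.1).primeFactors, (1 + g p)) with hQ
  set M : ℝ := C₁ * (1 + Real.log H) with hMdef
  have hM0 : 0 ≤ M := by positivity
  have hedge : ∀ e ∈ E, μ e.1 * μ e.2 * (Fw (rd e.1 e.2) * Fw (rd e.2 e.1)) ≤
      M ^ 2 * (μ e.1 * μ e.2) + M ^ 2 * H ^ (-(3 : ℝ) / 8) *
        (μ e.1 * μ e.2 * ((∏ p ∈ (rd e.1 e.2).primeFactors, (1 + g p)) *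
        ∏ p ∈ (rd e.2 e.1).primeFactors, (1 + g p))) := by
    intro e he
    have h3 := hES he
    rw [Finset.mem_product] at h3
    have hv := (hS _ h3.1).1
    have hw := (hS _ h3.2).1
    have hm := rd_pos (b := e.2) hv
    have hm' := rd_pos (b := e.1) hw
    have hc := rd_coprime (b := e.2) hv
    have h4 := Fw_le C₁ H hH hM (rd e.1 e.2) hm
    have h5 := Fw_le C₁ H hH hM (rd e.2 e.1) hm'
    have h6 := big_prod H hH _ _ hc
    have h7 : 0 ≤ Fw (rd e.2 e.1) := by unfold Fw; positivity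
    have h8 : 0 ≤ ∏ p ∈ (rd e.1 e.2).primeFactors.filter (fun p : ℕ => H < p),
        (1 + 2 / (p : ℝ)) := Finset.prod_nonneg fun p _ => by positivity
    have h9 : Fw (rd e.1 e.2) * Fw (rd e.2 e.1) ≤ M ^ 2 *
        (1 + H ^ (-(3 : ℝ) / 8) * ((∏ p ∈ (rd e.1 e.2).primeFactors, (1 + g p)) *
        ∏ p ∈ (rd e.2 e.1).primeFactors, (1 + g p))) := by
      refine (mul_le_mul h4 h5 h7 (by positivity)).trans ?_
      refine le_trans (le_of_eq ?_) (mul_le_mul_of_nonneg_left h6 (sq_nonneg M))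
      rw [hMdef]
      ring
    have h10 : 0 ≤ μ e.1 * μ e.2 := mul_nonneg (hμ _) (hμ _)
    refine (mul_le_mul_of_nonneg_left h9 h10).trans (le_of_eq ?_)
    ring
  have htot := Finset.sum_le_sum hedge
  rw [Finset.sum_add_distrib, ← Finset.mul_sum, ← Finset.mul_sum, ← hQ] at htot
  refine htot.trans ?_
  have hem : em μ μ E = ∑ e ∈ E, μ e.1 * μ e.2 := rfl
  rw [← hem]
  have hem0 : 0 ≤ em μ μ E := em_nonneg hμ hμ E
  have hms : 0 ≤ ms μ S := ms_nonneg hμ S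
  have hlog := log_sq H hH
  refine add_le_add ?_ ?_
  · have e1 : M ^ 2 * em μ μ E = C₁ ^ 2 * ((1 + Real.log H) ^ 2 * em μ μ E) := by
      rw [hMdef]; ring
    rw [e1, mul_assoc]
    refine mul_le_mul_of_nonneg_right ?_ (by positivity)
    have : 0 ≤ 289 * C₁ ^ 2 * C₂ * Real.exp (2 * B) := by positivity
    linarith
  · have hT : 0 ≤ (ms μ S) ^ (2 * θ) * t ^ (2 * (1 - θ)) := by positivity
    have e2 : M ^ 2 * H ^ (-(3 : ℝ) / 8) ≤ C₁ ^ 2 * (289 * H ^ (-(1 : ℝ) / 4)) := by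
      have e3 : M ^ 2 * H ^ (-(3 : ℝ) / 8) =
          C₁ ^ 2 * ((1 + Real.log H) ^ 2 * H ^ (-(3 : ℝ) / 8)) := by
        rw [hMdef]; ring
      rw [e3]
      exact mul_le_mul_of_nonneg_left hlog (by positivity)
    have hH4 : 0 < H ^ (-(1 : ℝ) / 4) := Real.rpow_pos_of_pos hH0 _
    have hQ0 : 0 ≤ C₂ * Real.exp (2 * B) * (ms μ S) ^ (2 * θ) * t ^ (2 * (1 - θ)) := by positivity
    calc M ^ 2 * H ^ (-(3 : ℝ) / 8) * Q
        ≤ M ^ 2 * H ^ (-(3 : ℝ) / 8) *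
          (C₂ * Real.exp (2 * B) * (ms μ S) ^ (2 * θ) * t ^ (2 * (1 - θ))) :=
          mul_le_mul_of_nonneg_left hWE (by positivity)
      _ ≤ C₁ ^ 2 * (289 * H ^ (-(1 : ℝ) / 4)) *
          (C₂ * Real.exp (2 * B) * (ms μ S) ^ (2 * θ) * t ^ (2 * (1 - θ))) :=
          mul_le_mul_of_nonneg_right e2 hQ0
      _ = (289 * C₁ ^ 2 * C₂ * Real.exp (2 * B)) *
          ((ms μ S) ^ (2 * θ) * t ^ (2 * (1 - θ)) * H ^ (-(1 : ℝ) / 4)) := by ring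
      _ ≤ (C₁ ^ 2 + 289 * C₁ ^ 2 * C₂ * Real.exp (2 * B)) *
          ((ms μ S) ^ (2 * θ) * t ^ (2 * (1 - θ)) * H ^ (-(1 : ℝ) / 4)) := by
          refine mul_le_mul_of_nonneg_right ?_ (by positivity)
          have : 0 ≤ C₁ ^ 2 := by positivity
          linarith
      _ = _ := by ring

end Pool.Agent.IDE
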