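import Pool.Agent.IDE.G2
import Pool.Agent.IDE.D3
import Pool.Agent.Lib.helper69.DivisorBound

set_option autoImplicit false

namespace Pool.Agent.IDE

open Finset Pool.Agent.IDS

theorem g5_em_mono (μ : ℕ → ℝ) (hμ : ∀ v, 0 ≤ μ v) {E E' : Finset (ℕ × ℕ)} (h : E ⊆ E') :
    em μ μ E ≤ em μ μ E' := by
  unfold IDS.em
  exact Finset.sum_le_sum_of_subset_of_nonneg h (fun e _ _ => mul_nonneg (hμ _) (hμ _))

theorem g5_em_nonneg (μ : ℕ → ℝ) (hμ : ∀ v, 0 ≤ μ v) (E : Finset (ℕ × ℕ)) : 0 ≤ em μ μ E := by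
  unfold IDS.em
  exact Finset.sum_nonneg (fun e _ => mul_nonneg (hμ _) (hμ _))

open scoped Classical in
theorem g5_abs : ∃ C : ℝ, 0 < C ∧ ∀ (γ R : ℝ) (μ : ℕ → ℝ) (E : Finset (ℕ × ℕ))
    (m : ℕ × ℕ → ℕ) (A : ℝ), 1 ≤ R → 0 ≤ A → (∀ v, 0 ≤ μ v) →
    (∀ x ∈ E, ¬ Cop γ R (m x)) →
    (∀ e : ℕ, 1 ≤ e →
      em μ μ (E.filter (fun x => e ∣ m x)) ≤ A * (e : ℝ) ^ (-(31 : ℝ) / 64)) →
    em μ μ E ≤ C * A * R ^ (-(59 : ℝ) / 512) := by
  obtain ⟨C₁, hC₁, hdiv⟩ := Pool.Agent.Lib.helper69.card_divisors_le_rpow (1 / 64) (by norm_num)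
  obtain ⟨C₂, hC₂, hden⟩ := den_sum (15 / 32) (by norm_num)
  refine ⟨C₁ * C₂, by positivity, ?_⟩
  intro γ R μ E m A hR hA hμ hnc hbd
  have hR0 : 0 < R := by linarith
  have hch : ∀ x : ℕ × ℕ, ∃ N : ℕ, x ∈ E → IsDen γ N ∧ R ^ ((3 : ℝ) / 8) < N ∧
      (N : ℝ) * R ^ (-(1 : ℝ) / 8) ≤ Nat.gcd N (m x) := by
    intro x
    by_cases hx : x ∈ E
    · have h1 := hnc x hx
      unfold Cop at h1
      push Not at h1
      obtain ⟨T, hT, hT1, hT2⟩ := h1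
      exact ⟨den γ T, fun _ => ⟨⟨T, hT, rfl⟩, hT1, hT2⟩⟩
    · exact ⟨0, fun h => absurd h hx⟩
  choose f hf using hch
  set F := E.image f with hF
  have hFden : ∀ N ∈ F, IsDen γ N ∧ R ^ ((3 : ℝ) / 8) < N := by
    intro N hN
    rw [hF, Finset.mem_image] at hN
    obtain ⟨x, hx, rfl⟩ := hN
    exact ⟨(hf x hx).1, (hf x hx).2.1⟩
  have hZ1 : 1 ≤ R ^ ((3 : ℝ) / 8) := Real.one_le_rpow hR (by norm_num)
  have hFpos : ∀ N ∈ F, 1 ≤ N := by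
    intro N hN
    have h1 := (hFden N hN).2
    have h2 : (1 : ℝ) < N := lt_of_le_of_lt hZ1 h1
    exact_mod_cast h2.le
  set D : ℕ → Finset ℕ := fun N => N.divisors.filter (fun e : ℕ =>
    (N : ℝ) * R ^ (-(1 : ℝ) / 8) ≤ e) with hD
  -- covering
  have hcov : em μ μ E ≤ ∑ N ∈ F, ∑ e ∈ D N, em μ μ (E.filter (fun x => e ∣ m x)) := by
    have h1 : ∀ N ∈ F, ∀ e ∈ D N, em μ μ (E.filter (fun x => e ∣ m x)) =
        ∑ x ∈ E, if e ∣ m x then μ x.1 * μ x.2 else 0 := by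
      intro N _ e _
      unfold IDS.em
      rw [Finset.sum_filter]
    rw [Finset.sum_congr rfl (fun N hN => Finset.sum_congr rfl (h1 N hN))]
    have h2 : ∑ N ∈ F, ∑ e ∈ D N, ∑ x ∈ E, (if e ∣ m x then μ x.1 * μ x.2 else 0) =
        ∑ x ∈ E, ∑ N ∈ F, ∑ e ∈ D N, (if e ∣ m x then μ x.1 * μ x.2 else 0) := by
      rw [Finset.sum_congr rfl (fun N _ => Finset.sum_comm)]
      rw [Finset.sum_comm]
    rw [h2]
    unfold IDS.em
    apply Finset.sum_le_sum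
    intro x hx
    have hnn : 0 ≤ μ x.1 * μ x.2 := mul_nonneg (hμ _) (hμ _)
    have hfx : f x ∈ F := Finset.mem_image_of_mem _ hx
    have hgx : Nat.gcd (f x) (m x) ∈ D (f x) := by
      rw [hD]
      simp only [Finset.mem_filter, Nat.mem_divisors]
      refine ⟨⟨Nat.gcd_dvd_left _ _, ?_⟩, (hf x hx).2.2⟩
      have := hFpos _ hfx
      omega
    have h3 : μ x.1 * μ x.2 ≤ ∑ e ∈ D (f x), (if e ∣ m x then μ x.1 * μ x.2 else 0) := by
      have h4 := Finset.single_le_sum (f := fun e : ℕ => if e ∣ m x then μ x.1 * μ x.2 else 0)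
        (s := D (f x)) (fun e _ => by
          show 0 ≤ (if e ∣ m x then μ x.1 * μ x.2 else 0)
          split_ifs <;> simp [hnn]) hgx
      simp only [Nat.gcd_dvd_right, if_true] at h4
      exact h4
    refine h3.trans ?_
    exact Finset.single_le_sum (f := fun N => ∑ e ∈ D N, (if e ∣ m x then μ x.1 * μ x.2 else 0))
      (s := F) (fun N _ => Finset.sum_nonneg (fun e _ => by split_ifs <;> simp [hnn])) hfx
  refine hcov.trans ?_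
  -- inner sums
  have hin : ∀ N ∈ F, ∑ e ∈ D N, em μ μ (E.filter (fun x => e ∣ m x)) ≤
      C₁ * A * R ^ ((31 : ℝ) / 512) * (N : ℝ) ^ (-(15 / 32 : ℝ)) := by
    intro N hN
    have hN1 := hFpos N hN
    have hN0 : (0 : ℝ) < N := by exact_mod_cast hN1
    have hy : 0 < (N : ℝ) * R ^ (-(1 : ℝ) / 8) := by positivity
    calc ∑ e ∈ D N, em μ μ (E.filter (fun x => e ∣ m x))
        ≤ ∑ _e ∈ D N, A * ((N : ℝ) * R ^ (-(1 : ℝ) / 8)) ^ (-(31 : ℝ) / 64) := by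
          apply Finset.sum_le_sum
          intro e he
          rw [hD] at he
          simp only [Finset.mem_filter, Nat.mem_divisors] at he
          have he1 : 1 ≤ e := Nat.pos_of_dvd_of_pos he.1.1 (by omega)
          refine (hbd e he1).trans ?_
          apply mul_le_mul_of_nonneg_left _ hA
          exact Real.rpow_le_rpow_of_nonpos hy he.2 (by norm_num)
      _ = (D N).card * (A * ((N : ℝ) * R ^ (-(1 : ℝ) / 8)) ^ (-(31 : ℝ) / 64)) := by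
          rw [Finset.sum_const, nsmul_eq_mul]
      _ ≤ (C₁ * (N : ℝ) ^ ((1 : ℝ) / 64)) *
          (A * ((N : ℝ) * R ^ (-(1 : ℝ) / 8)) ^ (-(31 : ℝ) / 64)) := by
          apply mul_le_mul_of_nonneg_right _ (by positivity)
          refine le_trans ?_ (hdiv N hN1)
          exact_mod_cast Finset.card_le_card (Finset.filter_subset _ _)
      _ = C₁ * A * R ^ ((31 : ℝ) / 512) * (N : ℝ) ^ (-(15 / 32 : ℝ)) := by
          rw [Real.mul_rpow hN0.le (by positivity), ← Real.rpow_mul hR0.le]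
          rw [show (-(15 / 32 : ℝ)) = 1 / 64 + -31 / 64 by norm_num, Real.rpow_add hN0,
            show (-(1 : ℝ) / 8 * (-31 / 64)) = 31 / 512 by norm_num]
          ring
  refine (Finset.sum_le_sum hin).trans ?_
  rw [← Finset.mul_sum]
  have h6 := hden γ (R ^ ((3 : ℝ) / 8)) F hZ1 hFden
  calc C₁ * A * R ^ ((31 : ℝ) / 512) * ∑ N ∈ F, (N : ℝ) ^ (-(15 / 32 : ℝ))
      ≤ C₁ * A * R ^ ((31 : ℝ) / 512) * (C₂ * (R ^ ((3 : ℝ) / 8)) ^ (-(15 / 32 : ℝ))) :=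
        mul_le_mul_of_nonneg_left h6 (by positivity)
    _ = C₁ * C₂ * A * R ^ (-(59 : ℝ) / 512) := by
        rw [← Real.rpow_mul hR0.le, show (-(59 : ℝ) / 512) = 31 / 512 + 3 / 8 * -(15 / 32) by norm_num,
          Real.rpow_add hR0]
        ring

/-- [IDE-G5] **Edges which are not `Cop`.**

PROOF.  `θ = 1/2 + 1/64`.  Split in two parts according to which of `m = rd v w`, `m' = rd w v` is not
`Cop`; consider `m`.  For `(v, w)` there is a denominator `N = den γ T` (`IsDen`), `N > R^{3/8}`, with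
`e = gcd(N, m) ≥ N R^{-1/8}`; so `e ∣ N`, `e ∣ rd v w`.  By `dg` (`e₁ = e`, `e₂ = 1`, `U = 0`,
`t = 1/R`) the edges with given `(N, e)` have mass
`≤ C W^{2θ} R^{-2(1-θ)} e^{-(1-θ)} ≤ C W^{2θ} R^{-2(1-θ)} N^{-(1-θ)} R^{(1-θ)/8}`.  At most
`d(N) ≤ C N^{1/64}` values of `e` for given `N` (`Pool.Agent.Lib.helper69.card_divisors_le_rpow`), and
`∑_N N^{1/64-(1-θ)} ≤ C (R^{3/8})^{1/64-(1-θ)}` over (finitely many) denominators `N > R^{3/8}` by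
`den_sum`.  With `1 - θ = 31/64`: the exponent of `R` is
`-62/64 - (3/8)(30/64) + (31/64)/8 = -62/64 - 90/512 + 31/512 = -(496+59)/512 = -555/512 ≤ -17/16`.
`2θ = 33/32`.  The same for `m'` (`e₁ = 1`, `e₂ = e`). -/
theorem noncop :
    ∃ C : ℝ, 0 < C ∧ ∀ (γ : ℝ) (S : Finset ℕ) (κ : ℕ → ℕ) (μ : ℕ → ℝ) (R : ℝ)
      (E : Finset (ℕ × ℕ)), (∀ v, 0 ≤ μ v) →
      (∀ v ∈ S, 0 < v ∧ μ v ≤ (Nat.totient v : ℝ) * (1 / 2 : ℝ) ^ κ v) → 1 ≤ R →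
      E ⊆ S ×ˢ S →
      (∀ e ∈ E, κ e.1 ≤ κ e.2 ∧ (Nat.lcm e.1 e.2 : ℝ) * (1 / 2 : ℝ) ^ κ e.1 ≤ 1 / R ∧
        (¬ Cop γ R (rd e.1 e.2) ∨ ¬ Cop γ R (rd e.2 e.1))) →
      em μ μ E ≤ C * (ms μ S) ^ ((33 : ℝ) / 32) * R ^ (-(17 : ℝ) / 16) := by
  classical
  obtain ⟨C₁, hC₁, habs⟩ := g5_abs
  obtain ⟨C₂, hC₂, hdg⟩ := dg (33 / 64) (by norm_num) (by norm_num)
  refine ⟨2 * (C₁ * C₂), by positivity, ?_⟩
  intro γ S κ μ R E hμ hS hR hE hedge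
  have hR0 : 0 < R := by linarith
  have hW : 0 ≤ ms μ S := Finset.sum_nonneg fun v _ => hμ v
  set W := ms μ S with hWdef
  -- the common bound
  set A := C₂ * W ^ ((33 : ℝ) / 32) * R ^ (-(31 : ℝ) / 32) with hA
  have hA0 : 0 ≤ A := by positivity
  have hRt : (1 / R) ^ ((31 : ℝ) / 32) = R ^ (-(31 : ℝ) / 32) := by
    rw [one_div, Real.inv_rpow hR0.le, ← Real.rpow_neg hR0.le]
    congr 1
    ring
  have hside : ∀ (e₁ e₂ : ℕ), 1 ≤ e₁ → 1 ≤ e₂ → ∀ E' : Finset (ℕ × ℕ), E' ⊆ E →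
      (∀ x ∈ E', e₁ ∣ rd x.1 x.2 ∧ e₂ ∣ rd x.2 x.1) →
      em μ μ E' ≤ A * ((e₁ : ℝ) * e₂) ^ (-(31 : ℝ) / 64) := by
    intro e₁ e₂ h1 h2 E' hE' hx
    have h3 := hdg S κ μ (1 / R) e₁ e₂ 0 E' hμ hS (by positivity) h1 h2 (hE'.trans hE)
      (fun e he => ⟨by have := (hedge e (hE' he)).1; omega, (hedge e (hE' he)).2.1, hx e he⟩)
    refine h3.trans (le_of_eq ?_)
    rw [hA, hWdef, show (2 * (33 / 64) : ℝ) = 33 / 32 by norm_num,
      show (2 * (1 - 33 / 64) : ℝ) = 31 / 32 by norm_num, hRt,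
      show (-(1 - 33 / 64) : ℝ) = -31 / 64 by norm_num]
    simp
  have hfin : ∀ B : ℝ, B ≤ C₁ * A * R ^ (-(59 : ℝ) / 512) →
      B ≤ C₁ * C₂ * W ^ ((33 : ℝ) / 32) * R ^ (-(17 : ℝ) / 16) := by
    intro B hB
    refine hB.trans ?_
    have h4 : C₁ * A * R ^ (-(59 : ℝ) / 512) =
        C₁ * C₂ * W ^ ((33 : ℝ) / 32) * R ^ (-(555 : ℝ) / 512) := by
      rw [hA, show (-(555 : ℝ) / 512) = -31 / 32 + -59 / 512 by norm_num, Real.rpow_add hR0]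
      ring
    rw [h4]
    apply mul_le_mul_of_nonneg_left _ (by positivity)
    exact Real.rpow_le_rpow_of_exponent_le hR (by norm_num)
  have hp1 : em μ μ (E.filter (fun x => ¬ Cop γ R (rd x.1 x.2))) ≤
      C₁ * C₂ * W ^ ((33 : ℝ) / 32) * R ^ (-(17 : ℝ) / 16) := by
    apply hfin
    apply habs γ R μ _ (fun x => rd x.1 x.2) A hR hA0 hμ
    · intro x hx
      exact (Finset.mem_filter.mp hx).2
    · intro e he
      have h5 := hside e 1 he le_rfl ((E.filter (fun x => ¬ Cop γ R (rd x.1 x.2))).filter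
        (fun x => e ∣ rd x.1 x.2)) ((Finset.filter_subset _ _).trans (Finset.filter_subset _ _))
        (fun x hx => ⟨(Finset.mem_filter.mp hx).2, one_dvd _⟩)
      simpa using h5
  have hp2 : em μ μ (E.filter (fun x => ¬ Cop γ R (rd x.2 x.1))) ≤
      C₁ * C₂ * W ^ ((33 : ℝ) / 32) * R ^ (-(17 : ℝ) / 16) := by
    apply hfin
    apply habs γ R μ _ (fun x => rd x.2 x.1) A hR hA0 hμ
    · intro x hx
      exact (Finset.mem_filter.mp hx).2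
    · intro e he
      have h5 := hside 1 e le_rfl he ((E.filter (fun x => ¬ Cop γ R (rd x.2 x.1))).filter
        (fun x => e ∣ rd x.2 x.1)) ((Finset.filter_subset _ _).trans (Finset.filter_subset _ _))
        (fun x hx => ⟨one_dvd _, (Finset.mem_filter.mp hx).2⟩)
      simpa using h5
  have hsum : em μ μ E ≤ em μ μ (E.filter (fun x => ¬ Cop γ R (rd x.1 x.2))) +
      em μ μ (E.filter (fun x => ¬ Cop γ R (rd x.2 x.1))) := by
    unfold IDS.em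
    rw [Finset.sum_filter, Finset.sum_filter, ← Finset.sum_add_distrib]
    apply Finset.sum_le_sum
    intro x hx
    have hnn : 0 ≤ μ x.1 * μ x.2 := mul_nonneg (hμ _) (hμ _)
    rcases (hedge x hx).2.2 with h | h
    · rw [if_pos h]
      split_ifs <;> linarith
    · rw [if_pos h]
      split_ifs <;> linarith
  calc em μ μ E ≤ _ := hsum
    _ ≤ C₁ * C₂ * W ^ ((33 : ℝ) / 32) * R ^ (-(17 : ℝ) / 16) +
        C₁ * C₂ * W ^ ((33 : ℝ) / 32) * R ^ (-(17 : ℝ) / 16) := add_le_add hp1 hp2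
    _ = 2 * (C₁ * C₂) * W ^ ((33 : ℝ) / 32) * R ^ (-(17 : ℝ) / 16) := by ring

/-- [IDE-G5] **Edges with very different levels.**

PROOF.  `θ = 1/2 + 1/128`; split by `u = κ w - κ v`: every edge has `2^u ≥ R^{1/16}`; apply `dg` with
`e₁ = e₂ = 1`, `U` = the least natural number with `2^U ≥ R^{1/16}`, `t = 1/R` (all edges have
`κ v + U ≤ κ w`): mass `≤ C W^{2θ} R^{-2(1-θ)} (R^{1/16})^{-(1-θ)}`; `1 - θ = 63/128`:
`-126/128 - 63/2048 = -(2016+63)/2048 = -2079/2048 ≤ -(1 + 1/128)` (`= -2064/2048`);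
`2θ = 65/64`. -/
theorem ularge :
    ∃ C : ℝ, 0 < C ∧ ∀ (S : Finset ℕ) (κ : ℕ → ℕ) (μ : ℕ → ℝ) (R : ℝ)
      (E : Finset (ℕ × ℕ)), (∀ v, 0 ≤ μ v) →
      (∀ v ∈ S, 0 < v ∧ μ v ≤ (Nat.totient v : ℝ) * (1 / 2 : ℝ) ^ κ v) → 1 ≤ R →
      E ⊆ S ×ˢ S →
      (∀ e ∈ E, κ e.1 ≤ κ e.2 ∧ (Nat.lcm e.1 e.2 : ℝ) * (1 / 2 : ℝ) ^ κ e.1 ≤ 1 / R ∧
        R ^ ((1 : ℝ) / 16) ≤ (2 : ℝ) ^ (κ e.2 - κ e.1)) →
      em μ μ E ≤ C * (ms μ S) ^ ((65 : ℝ) / 64) * R ^ (-(1 + (1 : ℝ) / 128)) := by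
  classical
  obtain ⟨C, hC, hdg⟩ := dg (65 / 128) (by norm_num) (by norm_num)
  refine ⟨C, hC, ?_⟩
  intro S κ μ R E hμ hS hR hE hedge
  have hR0 : 0 < R := by linarith
  have hW : 0 ≤ ms μ S := Finset.sum_nonneg fun v _ => hμ v
  have hex : ∃ U : ℕ, R ^ ((1 : ℝ) / 16) ≤ (2 : ℝ) ^ U := by
    obtain ⟨U, hU⟩ := pow_unbounded_of_one_lt (R ^ ((1 : ℝ) / 16)) (by norm_num : (1 : ℝ) < 2)
    exact ⟨U, hU.le⟩
  set U := Nat.find hex with hUdef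
  have hU1 : R ^ ((1 : ℝ) / 16) ≤ (2 : ℝ) ^ U := Nat.find_spec hex
  have hU2 : ∀ u : ℕ, R ^ ((1 : ℝ) / 16) ≤ (2 : ℝ) ^ u → U ≤ u := fun u hu => Nat.find_min' hex hu
  have h3 := hdg S κ μ (1 / R) 1 1 U E hμ hS (by positivity) le_rfl le_rfl hE
    (fun e he => by
      obtain ⟨h4, h5, h6⟩ := hedge e he
      have h7 := hU2 _ h6
      exact ⟨by omega, h5, one_dvd _, one_dvd _⟩)
  refine h3.trans ?_
  have hRt : (1 / R) ^ (2 * (1 - (65 / 128 : ℝ))) = R ^ (-(63 : ℝ) / 64) := by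
    rw [one_div, Real.inv_rpow hR0.le, ← Real.rpow_neg hR0.le]
    congr 1
    norm_num
  have h8 : ((2 : ℝ) ^ U) ^ (-(1 - (65 / 128 : ℝ))) ≤ R ^ (-(63 : ℝ) / 2048) := by
    calc ((2 : ℝ) ^ U) ^ (-(1 - (65 / 128 : ℝ))) ≤
        (R ^ ((1 : ℝ) / 16)) ^ (-(1 - (65 / 128 : ℝ))) :=
          Real.rpow_le_rpow_of_nonpos (by positivity) hU1 (by norm_num)
      _ = R ^ (-(63 : ℝ) / 2048) := by
          rw [← Real.rpow_mul hR0.le]
          congr 1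
          norm_num
  rw [hRt, show (2 * (65 / 128) : ℝ) = 65 / 64 by norm_num]
  have h9 : (((1 : ℕ) : ℝ) * ((1 : ℕ) : ℝ)) ^ (-(1 - (65 / 128 : ℝ))) = 1 := by simp
  rw [h9, mul_one]
  calc C * ms μ S ^ ((65 : ℝ) / 64) * R ^ (-(63 : ℝ) / 64) * ((2 : ℝ) ^ U) ^ (-(1 - (65 / 128 : ℝ)))
      ≤ C * ms μ S ^ ((65 : ℝ) / 64) * R ^ (-(63 : ℝ) / 64) * R ^ (-(63 : ℝ) / 2048) :=
        mul_le_mul_of_nonneg_left h8 (by positivity)
    _ = C * ms μ S ^ ((65 : ℝ) / 64) * R ^ (-(2079 : ℝ) / 2048) := by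
        rw [mul_assoc, ← Real.rpow_add hR0]
        norm_num
    _ ≤ C * ms μ S ^ ((65 : ℝ) / 64) * R ^ (-(1 + (1 : ℝ) / 128)) := by
        apply mul_le_mul_of_nonneg_left _ (by positivity)
        exact Real.rpow_le_rpow_of_exponent_le hR (by norm_num)

end Pool.Agent.IDE
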