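import Pool.Agent.IDE.T10
import Pool.Agent.IDS.T11

set_option autoImplicit false

namespace Pool.Agent.IDE

open Finset Pool.Agent.IDS

/-- [IDE-T11] **Regime II** (`m, m' ≤ R^{C1}`, gainful edges).

PROOF.  Port of `Pool.Agent.IDS.kappaII` (T11) with `kappaII_piece` of this package. -/
theorem kappaII (C1 : ℕ) :
    ∃ (ξ C : ℝ), 0 < ξ ∧ ξ ≤ 1 / 2 ∧ 0 < C ∧
      ∀ (γ : ℝ) (S : Finset ℕ) (κ : ℕ → ℕ) (μ : ℕ → ℝ), (∀ v, 0 ≤ μ v) →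
      (∀ v ∈ S, 0 < v ∧ μ v ≤ (Nat.totient v : ℝ) * (1 / 2 : ℝ) ^ κ v) →
      ∀ (R : ℝ), 1 ≤ R → ∀ (E : Finset (ℕ × ℕ)), E ⊆ S ×ˢ S →
      (∀ e ∈ E, κ e.1 ≤ κ e.2 ∧ e.1 ≠ e.2 ∧
        (Nat.lcm e.1 e.2 : ℝ) * (1 / 2 : ℝ) ^ κ e.1 ≤ 1 / R ∧
        nd (γ * ((rd e.2 e.1 : ℝ) - rd e.1 e.2)) ≤ 2 / R ∧
        Gf γ R (max (rd e.1 e.2) (rd e.2 e.1)) ∧
        (rd e.1 e.2 : ℝ) ≤ R ^ C1 ∧ (rd e.2 e.1 : ℝ) ≤ R ^ C1) →
      em μ μ E ≤ C * (ms μ S) ^ (1 + ξ) * R ^ (-(1 + ξ)) := by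
  obtain ⟨n, C, hn, hC, hpiece⟩ := kappaII_piece C1
  have hnr : (1 : ℝ) ≤ n := by exact_mod_cast hn
  set ξ : ℝ := 1 / (2 * (n : ℝ)) with hξ
  have hξ0 : 0 < ξ := by rw [hξ]; positivity
  have hξ1 : ξ ≤ 1 / 2 := by
    rw [hξ]
    apply one_div_le_one_div_of_le (by norm_num)
    linarith
  have h2ξ : 1 / (n : ℝ) = 2 * ξ := by rw [hξ]; field_simp
  set K : ℝ := C1 / (Real.log 2 * (ξ / 2)) + 1 with hK
  have hl2 : 0 < Real.log 2 := Real.log_pos (by norm_num)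
  have hK0 : 0 < K := by
    have : 0 ≤ C1 / (Real.log 2 * (ξ / 2)) := by positivity
    linarith
  refine ⟨ξ, 4 * C * K ^ 2, hξ0, hξ1, by positivity, ?_⟩
  intro γ S κ μ hmu0 hmuS R hR E hES hEp
  have hR0 : (0 : ℝ) < R := by linarith
  have hW : 0 ≤ ms μ S := ms_nonneg hmu0 S
  set P : ℕ × ℕ × ℕ → Finset (ℕ × ℕ) := fun t => E.filter (fun e =>
        κ e.2 = κ e.1 + t.2.2 ∧
        2 ^ t.1 ≤ rd e.1 e.2 ∧ rd e.1 e.2 < 2 ^ (t.1 + 1) ∧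
        2 ^ t.2.1 ≤ rd e.2 e.1 ∧ rd e.2 e.1 < 2 ^ (t.2.1 + 1)) with hP
  set N : ℕ := ⌊(C1 : ℝ) * Real.log R / Real.log 2⌋₊ + 1 with hN
  set U : ℕ := (∑ v ∈ S, κ v) + 1 with hU
  have hlogR : 0 ≤ Real.log R := Real.log_nonneg hR
  have hNr : (N : ℝ) ≤ K * R ^ (ξ / 2) := by
    refine le_trans ?_ (t11_log C1 (ξ / 2) (by positivity) R hR)
    rw [hN]
    push_cast
    have : (⌊(C1 : ℝ) * Real.log R / Real.log 2⌋₊ : ℝ) ≤ (C1 : ℝ) * Real.log R / Real.log 2 :=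
      Nat.floor_le (by positivity)
    linarith
  have hlt : ∀ a : ℕ, 0 < a → (a : ℝ) ≤ R ^ C1 → Nat.log 2 a < N := by
    intro a ha haR
    have h1 : ((2 : ℝ)) ^ (Nat.log 2 a) ≤ R ^ C1 := by
      have : 2 ^ Nat.log 2 a ≤ a := Nat.pow_log_le_self 2 ha.ne'
      have h2 : ((2 : ℝ)) ^ (Nat.log 2 a) ≤ a := by exact_mod_cast this
      exact h2.trans haR
    have h2 := Real.log_le_log (by positivity) h1
    rw [Real.log_pow, Real.log_pow] at h2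
    have h3 : (Nat.log 2 a : ℝ) ≤ (C1 : ℝ) * Real.log R / Real.log 2 := by
      rw [le_div_iff₀ hl2]; exact h2
    rw [hN]
    have := Nat.le_floor h3
    omega
  set key : ℕ × ℕ → ℕ × ℕ × ℕ := fun e =>
    (Nat.log 2 (rd e.1 e.2), Nat.log 2 (rd e.2 e.1), κ e.2 - κ e.1) with hkey
  have hmaps : ∀ e ∈ E, key e ∈ range N ×ˢ (range N ×ˢ range U) := by
    intro e he
    obtain ⟨hv, hw⟩ := mem_product.1 (hES he)
    obtain ⟨hk, hne, hlcm, hnd, hgf, hr1, hr2⟩ := hEp e he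
    rw [hkey]
    simp only [mem_product, mem_range]
    refine ⟨hlt _ (rd_pos ((hmuS _ hv).1)) hr1, hlt _ (rd_pos ((hmuS _ hw).1)) hr2, ?_⟩
    have : κ e.2 ≤ ∑ v ∈ S, κ v := single_le_sum (f := fun v => κ v) (fun _ _ => Nat.zero_le _) hw
    omega
  have hfib : em μ μ E ≤ ∑ t ∈ range N ×ˢ (range N ×ˢ range U), em μ μ (P t) := by
    unfold Pool.Agent.IDS.em
    rw [← sum_fiberwise_of_maps_to hmaps]
    refine sum_le_sum fun t _ => ?_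
    apply sum_le_sum_of_subset_of_nonneg
    · intro e he
      rw [mem_filter] at he
      obtain ⟨heE, hke⟩ := he
      obtain ⟨hv, hw⟩ := mem_product.1 (hES heE)
      obtain ⟨hk, hne, hlcm, hnd, hgf, hr1, hr2⟩ := hEp e heE
      rw [hP]
      simp only [mem_filter]
      rw [← hke, hkey]
      simp only
      refine ⟨heE, by omega,
        Nat.pow_log_le_self 2 (rd_pos ((hmuS _ hv).1)).ne', Nat.lt_pow_succ_log_self (by norm_num) _,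
        Nat.pow_log_le_self 2 (rd_pos ((hmuS _ hw).1)).ne', Nat.lt_pow_succ_log_self (by norm_num) _⟩
    · intro e _ _
      exact mul_nonneg (hmu0 _) (hmu0 _)
  set B : ℝ := C * (ms μ S) ^ (1 + ξ) * R ^ (-(1 + 2 * ξ)) with hB
  have hB0 : 0 ≤ B := by rw [hB]; positivity
  have hpc : ∀ t ∈ range N ×ˢ (range N ×ˢ range U), em μ μ (P t) ≤
      B * ((1 / 2 : ℝ) ^ ((1 : ℝ) / 2)) ^ t.2.2 := by
    intro t _
    have h1 := hpiece γ S κ μ hmu0 hmuS R hR t.1 t.2.1 t.2.2 (P t)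
      ((filter_subset _ _).trans hES) (by
        intro e he
        rw [hP] at he
        obtain ⟨heE, a1, a2, a3, a4, a5⟩ := mem_filter.1 he
        obtain ⟨hk, hne, hlcm, hnd, hgf, hr1, hr2⟩ := hEp e heE
        exact ⟨a1, hne, hlcm, hnd, hgf, hr1, hr2, a2, a3, a4, a5⟩)
    rw [h2ξ] at h1
    rw [hB]
    exact h1
  have hN0 : (0 : ℝ) ≤ N := Nat.cast_nonneg _
  calc em μ μ E ≤ ∑ t ∈ range N ×ˢ (range N ×ˢ range U), em μ μ (P t) := hfib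
    _ ≤ ∑ t ∈ range N ×ˢ (range N ×ˢ range U), B * ((1 / 2 : ℝ) ^ ((1 : ℝ) / 2)) ^ t.2.2 :=
        sum_le_sum hpc
    _ = N * (N * (B * ∑ u ∈ range U, ((1 / 2 : ℝ) ^ ((1 : ℝ) / 2)) ^ u)) := by
        rw [sum_product]
        simp only [sum_product, ← mul_sum, sum_const, card_range, nsmul_eq_mul]
        ring
    _ ≤ N * (N * (B * 4)) := by
        have := t11_geom U
        gcongr
    _ = (N : ℝ) ^ 2 * (4 * B) := by ring
    _ ≤ (K * R ^ (ξ / 2)) ^ 2 * (4 * B) := by gcongr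
    _ = 4 * C * K ^ 2 * (ms μ S) ^ (1 + ξ) * ((R ^ (ξ / 2)) ^ 2 * R ^ (-(1 + 2 * ξ))) := by
        rw [hB]; ring
    _ = 4 * C * K ^ 2 * (ms μ S) ^ (1 + ξ) * R ^ (-(1 + ξ)) := by
        congr 1
        rw [← Real.rpow_natCast, ← Real.rpow_mul hR0.le, ← Real.rpow_add hR0]
        congr 1
        push_cast
        ring

end Pool.Agent.IDE
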