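import Pool.Agent.IDE.KI
import Pool.Agent.IDE.T11
import Pool.Agent.IDE.G4
import Pool.Agent.IDE.G5

set_option autoImplicit false

namespace Pool.Agent.IDE

open Finset Pool.Agent.IDS

theorem ka_split (μ ν : ℕ → ℝ) (E : Finset (ℕ × ℕ)) (p : ℕ × ℕ → Prop) [DecidablePred p] :
    IDS.em μ ν (E.filter p) + IDS.em μ ν (E.filter (fun e => ¬ p e)) = IDS.em μ ν E := by
  unfold IDS.em
  exact Finset.sum_filter_add_sum_filter_not E p _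

theorem ka_bd (C W R a b ξ ϑ : ℝ) (hC : 0 < C) (hW : 0 ≤ W) (hR : 1 ≤ R) (ha : 0 ≤ a)
    (haϑ : a ≤ ϑ) (hb : b ≤ -(1 + ξ)) :
    C * W ^ a * R ^ b ≤ C * (1 + W) ^ ϑ * R ^ (-(1 + ξ)) := by
  have h1 : W ^ a ≤ (1 + W) ^ ϑ :=
    (Real.rpow_le_rpow hW (by linarith) ha).trans
      (Real.rpow_le_rpow_of_exponent_le (by linarith) haϑ)
  have h2 : R ^ b ≤ R ^ (-(1 + ξ)) := Real.rpow_le_rpow_of_exponent_le hR hb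
  have h3 : 0 ≤ W ^ a := Real.rpow_nonneg hW _
  have h4 : 0 ≤ R ^ b := Real.rpow_nonneg (by linarith) _
  have h5 : 0 ≤ (1 + W) ^ ϑ := Real.rpow_nonneg (by linarith) _
  calc C * W ^ a * R ^ b ≤ C * (1 + W) ^ ϑ * R ^ b := by gcongr
    _ ≤ C * (1 + W) ^ ϑ * R ^ (-(1 + ξ)) := by gcongr

/-- [IDE-KA] **All gainful aligned edges.**

PROOF.  Split `E` into: the edges with `R^{1/16} ≤ 2^{κ w - κ v}` (`ularge`); of the others (they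
satisfy `Gf`) those with `m, m' ≤ R^80` (`kappaII` with `C1 = 80`); of the others (`max(m,m') ≥ R^80`)
those with `¬ Cop` for `m` or `m'` (`noncop`) and the rest (`kappaI`).  Put
`ξ = min (1/128, 1/16, ε/5120, ξ_II)`, `ϑ = max (65/64, 33/32, 1 + ε/5120, 1 + ξ_II) < 2`; each part is
`≤ C (1+W)^ϑ R^{-(1+ξ)}`. -/
theorem kap_all (ε : ℝ) (hε : 0 < ε) (hε1 : ε ≤ 1) :
    ∃ ϑ ξ C : ℝ, 0 < ϑ ∧ ϑ < 2 ∧ 0 < ξ ∧ 0 < C ∧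
      ∀ (γ : ℝ) (S : Finset ℕ) (κ : ℕ → ℕ) (Ω La μ : ℕ → ℝ), Dat3 ε S κ Ω La μ →
      ∀ (R : ℝ), 1 ≤ R → ∀ (E : Finset (ℕ × ℕ)), E ⊆ S ×ˢ S →
      (∀ e ∈ E, κ e.1 ≤ κ e.2 ∧ e.1 ≠ e.2 ∧
        (Nat.lcm e.1 e.2 : ℝ) * (1 / 2 : ℝ) ^ κ e.1 ≤ 1 / R ∧
        nd (γ * ((rd e.2 e.1 : ℝ) - rd e.1 e.2)) ≤ 2 / R ∧
        (Gf γ R (max (rd e.1 e.2) (rd e.2 e.1)) ∨
          R ^ ((1 : ℝ) / 16) ≤ (2 : ℝ) ^ (κ e.2 - κ e.1))) →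
      em μ μ E ≤ C * (1 + ms μ S) ^ ϑ * R ^ (-(1 + ξ)) := by
  classical
  obtain ⟨Cu, hCu, hu⟩ := ularge
  obtain ⟨ξ₂, C₂, hξ₂, hξ₂', hC₂, h₂⟩ := kappaII 80
  obtain ⟨Cn, hCn, hn⟩ := noncop
  obtain ⟨Ck, hCk, hk⟩ := kappaI ε hε hε1
  refine ⟨3 / 2, min (min (1 / 128) (ε / 5120)) ξ₂, Cu + C₂ + Cn + Ck, by norm_num, by norm_num,
    by positivity, by positivity, ?_⟩
  intro γ S κ Ω La μ hD R hR E hE hcond
  set ξ : ℝ := min (min (1 / 128) (ε / 5120)) ξ₂ with hξ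
  have hx1 : ξ ≤ 1 / 128 := (min_le_left _ _).trans (min_le_left _ _)
  have hx2 : ξ ≤ ε / 5120 := (min_le_left _ _).trans (min_le_right _ _)
  have hx3 : ξ ≤ ξ₂ := min_le_right _ _
  have hW : 0 ≤ ms μ S := ms_nonneg hD.mu0 S
  have hS : ∀ v ∈ S, 0 < v ∧ μ v ≤ (Nat.totient v : ℝ) * (1 / 2 : ℝ) ^ κ v :=
    fun v hv => ⟨hD.pos v hv, hD.mu_le hε hv⟩
  set W := ms μ S with hWdef
  set X : ℝ := (1 + W) ^ ((3 : ℝ) / 2) * R ^ (-(1 + ξ)) with hX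
  -- the pieces
  set E1 := E.filter (fun e => R ^ ((1 : ℝ) / 16) ≤ (2 : ℝ) ^ (κ e.2 - κ e.1)) with hE1
  set E2 := E.filter (fun e => ¬ R ^ ((1 : ℝ) / 16) ≤ (2 : ℝ) ^ (κ e.2 - κ e.1)) with hE2
  set E3 := E2.filter (fun e => (rd e.1 e.2 : ℝ) ≤ R ^ 80 ∧ (rd e.2 e.1 : ℝ) ≤ R ^ 80) with hE3
  set E4 := E2.filter (fun e => ¬ ((rd e.1 e.2 : ℝ) ≤ R ^ 80 ∧ (rd e.2 e.1 : ℝ) ≤ R ^ 80)) with hE4
  set E5 := E4.filter (fun e => ¬ Cop γ R (rd e.1 e.2) ∨ ¬ Cop γ R (rd e.2 e.1)) with hE5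
  set E6 := E4.filter (fun e => ¬ (¬ Cop γ R (rd e.1 e.2) ∨ ¬ Cop γ R (rd e.2 e.1))) with hE6
  have s1 := ka_split μ μ E (fun e => R ^ ((1 : ℝ) / 16) ≤ (2 : ℝ) ^ (κ e.2 - κ e.1))
  have s2 := ka_split μ μ E2 (fun e => (rd e.1 e.2 : ℝ) ≤ R ^ 80 ∧ (rd e.2 e.1 : ℝ) ≤ R ^ 80)
  have s3 := ka_split μ μ E4 (fun e => ¬ Cop γ R (rd e.1 e.2) ∨ ¬ Cop γ R (rd e.2 e.1))
  rw [← hE1, ← hE2] at s1
  rw [← hE3, ← hE4] at s2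
  rw [← hE5, ← hE6] at s3
  have m1 : ∀ e ∈ E1, e ∈ E ∧ R ^ ((1 : ℝ) / 16) ≤ (2 : ℝ) ^ (κ e.2 - κ e.1) := fun e he =>
    Finset.mem_filter.1 he
  have m2 : ∀ e ∈ E2, e ∈ E ∧ ¬ R ^ ((1 : ℝ) / 16) ≤ (2 : ℝ) ^ (κ e.2 - κ e.1) := fun e he =>
    Finset.mem_filter.1 he
  have m3 : ∀ e ∈ E3, e ∈ E2 ∧ ((rd e.1 e.2 : ℝ) ≤ R ^ 80 ∧ (rd e.2 e.1 : ℝ) ≤ R ^ 80) :=
    fun e he => Finset.mem_filter.1 he
  have m4 : ∀ e ∈ E4, e ∈ E2 ∧ ¬ ((rd e.1 e.2 : ℝ) ≤ R ^ 80 ∧ (rd e.2 e.1 : ℝ) ≤ R ^ 80) :=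
    fun e he => Finset.mem_filter.1 he
  have m5 : ∀ e ∈ E5, e ∈ E4 ∧ (¬ Cop γ R (rd e.1 e.2) ∨ ¬ Cop γ R (rd e.2 e.1)) :=
    fun e he => Finset.mem_filter.1 he
  have m6 : ∀ e ∈ E6, e ∈ E4 ∧ ¬ (¬ Cop γ R (rd e.1 e.2) ∨ ¬ Cop γ R (rd e.2 e.1)) :=
    fun e he => Finset.mem_filter.1 he
  have b1 : IDS.em μ μ E1 ≤ Cu * X := by
    have := hu S κ μ R E1 hD.mu0 hS hR (fun e he => hE (m1 e he).1) (fun e he => by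
      obtain ⟨c1, -, c3, -, -⟩ := hcond e (m1 e he).1
      exact ⟨c1, c3, (m1 e he).2⟩)
    refine this.trans ?_
    have h9 := ka_bd Cu W R (65 / 64) (-(1 + (1 : ℝ) / 128)) ξ (3 / 2) hCu hW hR (by norm_num)
      (by norm_num) (by linarith)
    rw [hX, ← mul_assoc]
    exact h9
  have b3 : IDS.em μ μ E3 ≤ C₂ * X := by
    have := h₂ γ S κ μ hD.mu0 hS R hR E3 (fun e he => hE (m2 e (m3 e he).1).1) (fun e he => by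
      obtain ⟨c1, c2, c3, c4, c5⟩ := hcond e (m2 e (m3 e he).1).1
      refine ⟨c1, c2, c3, c4, ?_, (m3 e he).2.1, (m3 e he).2.2⟩
      rcases c5 with c5 | c5
      · exact c5
      · exact absurd c5 (m2 e (m3 e he).1).2)
    refine this.trans ?_
    have h9 := ka_bd C₂ W R (1 + ξ₂) (-(1 + ξ₂)) ξ (3 / 2) hC₂ hW hR (by linarith)
      (by linarith) (by linarith)
    rw [hX, ← mul_assoc]
    exact h9
  have b5 : IDS.em μ μ E5 ≤ Cn * X := by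
    have := hn γ S κ μ R E5 hD.mu0 hS hR (fun e he => hE (m2 e (m4 e (m5 e he).1).1).1)
      (fun e he => by
        obtain ⟨c1, c2, c3, c4, c5⟩ := hcond e (m2 e (m4 e (m5 e he).1).1).1
        exact ⟨c1, c3, (m5 e he).2⟩)
    refine this.trans ?_
    have h9 := ka_bd Cn W R (33 / 32) (-(17 : ℝ) / 16) ξ (3 / 2) hCn hW hR (by norm_num)
      (by norm_num) (by linarith)
    rw [hX, ← mul_assoc]
    exact h9
  have b6 : IDS.em μ μ E6 ≤ Ck * X := by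
    have := hk γ S κ Ω La μ hD R hR E6 (fun e he => hE (m2 e (m4 e (m6 e he).1).1).1)
      (fun e he => by
        obtain ⟨c1, c2, c3, c4, c5⟩ := hcond e (m2 e (m4 e (m6 e he).1).1).1
        have hc := (m6 e he).2
        push Not at hc
        refine ⟨c1, c3, c4, ?_, ?_, hc.1, hc.2⟩
        · have h7 := (m4 e (m6 e he).1).2
          by_contra hlt
          rw [not_le, max_lt_iff] at hlt
          exact h7 ⟨hlt.1.le, hlt.2.le⟩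
        · rcases c5 with c5 | c5
          · exact c5
          · exact absurd c5 (m2 e (m4 e (m6 e he).1).1).2)
    refine this.trans ?_
    have h9 := ka_bd Ck W R (1 + ε / 5120) (-(1 + ε / 5120)) ξ (3 / 2) hCk hW hR (by positivity)
      (by linarith) (by linarith)
    rw [hX, ← mul_assoc]
    exact h9
  have hfin : IDS.em μ μ E ≤ (Cu + C₂ + Cn + Ck) * X := by
    calc IDS.em μ μ E = IDS.em μ μ E1 + (IDS.em μ μ E3 + (IDS.em μ μ E5 + IDS.em μ μ E6)) := by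
          rw [s3, s2, s1]
      _ ≤ Cu * X + (C₂ * X + (Cn * X + Ck * X)) :=
          add_le_add b1 (add_le_add b3 (add_le_add b5 b6))
      _ = _ := by ring
  rw [hX, ← mul_assoc] at hfin
  exact hfin

/-- [IDE-KA] **The same with the weights `n/φ(n)`.**

PROOF.  `tr` with `θ = 51/100`, `t = 1/R`, `H = R^8`: the sum is
`≤ C (1 + 8 log R)² C' (1+W)^ϑ R^{-(1+ξ)} + C W^{1.02} R^{-0.98} R^{-2}`, and
`(1 + 8 log R)² ≤ C'' R^{ξ/2}`.  So `ξ' = min (ξ/2, 1)` works. -/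
theorem kapF_all (ε : ℝ) (hε : 0 < ε) (hε1 : ε ≤ 1) :
    ∃ ϑ ξ C : ℝ, 0 < ϑ ∧ ϑ < 2 ∧ 0 < ξ ∧ 0 < C ∧
      ∀ (γ : ℝ) (S : Finset ℕ) (κ : ℕ → ℕ) (Ω La μ : ℕ → ℝ), Dat3 ε S κ Ω La μ →
      ∀ (R : ℝ), 1 ≤ R → ∀ (E : Finset (ℕ × ℕ)), E ⊆ S ×ˢ S →
      (∀ e ∈ E, κ e.1 ≤ κ e.2 ∧ e.1 ≠ e.2 ∧
        (Nat.lcm e.1 e.2 : ℝ) * (1 / 2 : ℝ) ^ κ e.1 ≤ 1 / R ∧
        nd (γ * ((rd e.2 e.1 : ℝ) - rd e.1 e.2)) ≤ 2 / R ∧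
        (Gf γ R (max (rd e.1 e.2) (rd e.2 e.1)) ∨
          R ^ ((1 : ℝ) / 16) ≤ (2 : ℝ) ^ (κ e.2 - κ e.1))) →
      ∑ e ∈ E, μ e.1 * μ e.2 * (Fw (rd e.1 e.2) * Fw (rd e.2 e.1)) ≤
        C * (1 + ms μ S) ^ ϑ * R ^ (-(1 + ξ)) := by
  obtain ⟨ϑ, ξ, C, hϑ, hϑ2, hξ, hC, hk⟩ := kap_all ε hε hε1
  obtain ⟨Ct, hCt, ht⟩ := tr (51 / 100) (by norm_num) (by norm_num)
  refine ⟨max ϑ (51 / 50), min (ξ / 2) 1, Ct * (1 + 32 / ξ) ^ 2 * C + Ct, by positivity,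
    max_lt hϑ2 (by norm_num), by positivity, by positivity, ?_⟩
  intro γ S κ Ω La μ hD R hR E hE hcond
  set ϑ' : ℝ := max ϑ (51 / 50) with hϑ'
  set ξ' : ℝ := min (ξ / 2) 1 with hξ'
  have hx1 : ξ' ≤ ξ / 2 := min_le_left _ _
  have hx2 : ξ' ≤ 1 := min_le_right _ _
  have hR0 : 0 < R := by linarith
  have hW : 0 ≤ ms μ S := ms_nonneg hD.mu0 S
  have hS : ∀ v ∈ S, 0 < v ∧ μ v ≤ (Nat.totient v : ℝ) * (1 / 2 : ℝ) ^ κ v :=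
    fun v hv => ⟨hD.pos v hv, hD.mu_le hε hv⟩
  have hk' := hk γ S κ Ω La μ hD R hR E hE hcond
  have ht' := ht S κ μ (1 / R) (R ^ 8) E hD.mu0 hS (by positivity) (one_le_pow₀ hR) hE
    (fun e he => ⟨(hcond e he).1, (hcond e he).2.2.1⟩)
  set W := ms μ S with hWdef
  have hlog : 1 + Real.log (R ^ 8) ≤ (1 + 32 / ξ) * R ^ (ξ / 4) := by
    have h3 : Real.log (R ^ 8) = 8 * Real.log R := by
      rw [Real.log_pow]; norm_num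
    have h4 : Real.log R ≤ R ^ (ξ / 4) / (ξ / 4) := Real.log_le_rpow_div hR0.le (by positivity)
    have h5 : 1 ≤ R ^ (ξ / 4) := Real.one_le_rpow hR (by positivity)
    have h6 : R ^ (ξ / 4) / (ξ / 4) = 4 / ξ * R ^ (ξ / 4) := by field_simp
    rw [h6] at h4
    rw [h3]
    have h7 : (1 + 32 / ξ) * R ^ (ξ / 4) = R ^ (ξ / 4) + 8 * (4 / ξ * R ^ (ξ / 4)) := by ring
    rw [h7]
    linarith
  have hlog0 : 0 ≤ 1 + Real.log (R ^ 8) := by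
    have : 0 ≤ Real.log (R ^ 8) := Real.log_nonneg (one_le_pow₀ hR)
    linarith
  have hlog2 : (1 + Real.log (R ^ 8)) ^ 2 ≤ (1 + 32 / ξ) ^ 2 * R ^ (ξ / 2) := by
    calc (1 + Real.log (R ^ 8)) ^ 2 ≤ ((1 + 32 / ξ) * R ^ (ξ / 4)) ^ 2 :=
          pow_le_pow_left₀ hlog0 hlog 2
      _ = (1 + 32 / ξ) ^ 2 * (R ^ (ξ / 4) * R ^ (ξ / 4)) := by ring
      _ = (1 + 32 / ξ) ^ 2 * R ^ (ξ / 2) := by
          rw [← Real.rpow_add hR0]; ring_nf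
  have hem0 : 0 ≤ IDS.em μ μ E := em_nonneg hD.mu0 hD.mu0 E
  have hX0 : 0 ≤ (1 + W) ^ ϑ := Real.rpow_nonneg (by linarith) _
  have hfirst : Ct * (1 + Real.log (R ^ 8)) ^ 2 * IDS.em μ μ E ≤
      (Ct * (1 + 32 / ξ) ^ 2 * C) * (1 + W) ^ ϑ' * R ^ (-(1 + ξ')) := by
    calc Ct * (1 + Real.log (R ^ 8)) ^ 2 * IDS.em μ μ E ≤
          Ct * ((1 + 32 / ξ) ^ 2 * R ^ (ξ / 2)) * (C * (1 + W) ^ ϑ * R ^ (-(1 + ξ))) := by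
          gcongr
      _ = Ct * (1 + 32 / ξ) ^ 2 * C * (1 + W) ^ ϑ * (R ^ (ξ / 2) * R ^ (-(1 + ξ))) := by ring
      _ = Ct * (1 + 32 / ξ) ^ 2 * C * (1 + W) ^ ϑ * R ^ (-(1 + ξ / 2)) := by
          rw [← Real.rpow_add hR0]; ring_nf
      _ ≤ (Ct * (1 + 32 / ξ) ^ 2 * C) * (1 + W) ^ ϑ' * R ^ (-(1 + ξ')) := by
          have e1 : (1 + W) ^ ϑ ≤ (1 + W) ^ ϑ' :=
            Real.rpow_le_rpow_of_exponent_le (by linarith) (le_max_left _ _)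
          have e2 : R ^ (-(1 + ξ / 2)) ≤ R ^ (-(1 + ξ')) :=
            Real.rpow_le_rpow_of_exponent_le hR (by linarith)
          gcongr
  have hsecond : Ct * W ^ (2 * (51 / 100 : ℝ)) * (1 / R) ^ (2 * (1 - (51 / 100 : ℝ))) *
      (R ^ 8) ^ (-(1 : ℝ) / 4) ≤ Ct * (1 + W) ^ ϑ' * R ^ (-(1 + ξ')) := by
    have e1 : (1 / R) ^ (2 * (1 - (51 / 100 : ℝ))) * (R ^ 8) ^ (-(1 : ℝ) / 4) =
        R ^ (-(149 : ℝ) / 50) := by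
      rw [one_div, Real.inv_rpow hR0.le, ← Real.rpow_neg hR0.le, ← Real.rpow_natCast,
        ← Real.rpow_mul hR0.le, ← Real.rpow_add hR0]
      norm_num
    rw [mul_assoc, e1]
    exact ka_bd Ct W R (2 * (51 / 100)) (-(149 : ℝ) / 50) ξ' ϑ' hCt hW hR (by norm_num)
      (le_trans (by norm_num) (le_max_right _ _)) (by linarith)
  refine ht'.trans ((add_le_add hfirst hsecond).trans (le_of_eq ?_))
  ring

end Pool.Agent.IDE
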