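import Pool.Agent.IDE.CB2
import Pool.Agent.IDS.C2a

set_option autoImplicit false

namespace Pool.Agent.IDE

open Finset Pool.Agent.IDS

/-- negative powers of numbers `≥ 1` -/
private theorem ki_pow {R x y : ℝ} (hR : 1 ≤ R) (h : y ≤ x) : R ^ (-x) ≤ R ^ (-y) :=
  Real.rpow_le_rpow_of_exponent_le hR (by linarith)

/-- [IDE-KI] **Regime I.**

PROOF.  Port of `Pool.Agent.IDS.kappaI` (C6).  `s = ε/10240`, `θ = 1/2 + s`,
`η = (1-θ)(2θ+1)/(4θ)`, so that `1-θ-η = (1/2-s) s/(1+2s) =: ξ > 0`; apply `gen` (IDS.C2a) with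
`t = 1/R` and `G a b = if R^16 ≤ rd a b * rd b a then 16 else C R^{-ε/1024}` (`C` from `cell_aligned`),
using IDS `cell_bound` (`c₁ = c₂ = 1`, `Dat3.mu_le`) in the first case and `cell_aligned` in the
second one (there `rd a b ≤ rd a b * rd b a < R^16`).
Value of `H`: first case `16^{1-θ} (αβ)^{-ξ} ≤ 16 R^{-16 ξ}` and `16 ξ ≥ 4 s`; second case
`(C R^{-ε/1024})^{1-θ} ≤ max 1 C · R^{-(ε/1024)(1/2-s)}`, `(ε/1024)(1/2-s) = 10 s (1/2-s) ≥ 4 s`.  So
`H = (16 + max 1 C) R^{-4s}` works, and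
`em E ≤ C' H W^{1+2s} R^{-(1-2s)} ≤ C'' W^{1+2s} R^{-1-2s}`; `2 s = ε/5120`. -/
theorem kappaI (ε : ℝ) (hε : 0 < ε) (hε1 : ε ≤ 1) :
    ∃ C : ℝ, 0 < C ∧ ∀ (γ : ℝ) (S : Finset ℕ) (κ : ℕ → ℕ) (Ω La μ : ℕ → ℝ),
      Dat3 ε S κ Ω La μ →
      ∀ (R : ℝ), 1 ≤ R → ∀ (E : Finset (ℕ × ℕ)), E ⊆ S ×ˢ S →
      (∀ e ∈ E, κ e.1 ≤ κ e.2 ∧ (Nat.lcm e.1 e.2 : ℝ) * (1 / 2 : ℝ) ^ κ e.1 ≤ 1 / R ∧
        EdI γ R e) →
      em μ μ E ≤ C * (ms μ S) ^ (1 + ε / 5120) * R ^ (-(1 + ε / 5120)) := by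
  classical
  obtain ⟨Ca, hCa, hal⟩ := cell_aligned ε hε hε1
  obtain ⟨s, hs⟩ : ∃ s : ℝ, s = ε / 10240 := ⟨_, rfl⟩
  have hs0 : 0 < s := by rw [hs]; positivity
  have hs1 : s ≤ 1 / 40 := by rw [hs]; linarith
  obtain ⟨θ, hθ⟩ : ∃ θ : ℝ, θ = 1 / 2 + s := ⟨_, rfl⟩
  have hθ1 : 1 / 2 < θ := by rw [hθ]; linarith
  have hθ2 : θ < 1 := by rw [hθ]; linarith
  have hθ0 : 0 < θ := by linarith
  obtain ⟨η, hη⟩ : ∃ η : ℝ, η = (1 - θ) * (2 * θ + 1) / (4 * θ) := ⟨_, rfl⟩
  have h1θ : 0 < 1 - θ := by linarith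
  have hη0 : 0 < η := by rw [hη]; positivity
  have hη' : 4 * θ * η = (1 - θ) * (2 * θ + 1) := by rw [hη]; field_simp
  have h3 : 1 - θ < 2 * θ * η := by nlinarith
  have h4 : 1 - θ < (2 - θ) * η := by
    rw [hη, ← mul_div_assoc, lt_div_iff₀ (by positivity)]
    have : 4 * θ < (2 - θ) * (2 * θ + 1) := by
      rw [hθ]; nlinarith
    nlinarith
  obtain ⟨ξ, hξ⟩ : ∃ ξ : ℝ, ξ = 1 - θ - η := ⟨_, rfl⟩
  have hξ4 : 4 * θ * ξ = (1 - θ) * (2 * θ - 1) := by
    rw [hξ, mul_sub, hη']; ring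
  have hξs : s ≤ 4 * ξ := by
    have h5 : (1 - θ) * (2 * θ - 1) = (1 / 2 - s) * (2 * s) := by rw [hθ]; ring
    have h6 : θ * (4 * ξ) = (1 - 2 * s) * s := by linarith [hξ4, h5]
    have h7 : θ * s ≤ θ * (4 * ξ) := by
      rw [h6, hθ]; nlinarith
    exact le_of_mul_le_mul_left h7 hθ0
  have hξ0 : 0 < ξ := by linarith
  obtain ⟨Cg, hCg, hgen⟩ := gen θ η hθ1 hθ2 hη0 h3 h4
  refine ⟨Cg * (16 + max 1 Ca), by positivity, ?_⟩
  intro γ S κ Ω L μ hD R hR E hES hEp
  have hR0 : 0 < R := by linarith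
  have hrd1 : ∀ a b : ℕ, 0 < a → (1 : ℝ) ≤ (rd a b : ℝ) := by
    intro a b ha
    exact_mod_cast (rd_pos (b := b) ha : 1 ≤ rd a b)
  have hms : 0 ≤ ms μ S := ms_nonneg hD.mu0 S
  have key := hgen S κ μ E (1 / R) ((16 + max 1 Ca) * R ^ (-(4 * s)))
    (fun a b => if R ^ 16 ≤ (rd a b : ℝ) * rd b a then 16 else Ca * R ^ (-ε / 1024))
    hD.mu0 hD.pos (by positivity) (by positivity) hES
    (fun e he => ⟨(hEp e he).1, (hEp e he).2.1⟩)
    (fun a b => by
      split_ifs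
      · norm_num
      · positivity)
    (fun a b ha hb => by
      have hαβ : 1 ≤ (rd a b : ℝ) * rd b a := by
        have := hrd1 a b ha
        have := hrd1 b a hb
        nlinarith
      have hexp : η - (1 - θ) = -ξ := by rw [hξ]; ring
      rw [hexp]
      have hRs : 0 < R ^ (-(4 * s)) := Real.rpow_pos_of_pos hR0 _
      split_ifs with hc
      · have e1 : (16 : ℝ) ^ (1 - θ) ≤ 16 := by
          calc (16 : ℝ) ^ (1 - θ) ≤ (16 : ℝ) ^ (1 : ℝ) :=
                Real.rpow_le_rpow_of_exponent_le (by norm_num) (by linarith)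
            _ = 16 := Real.rpow_one _
        have e2 : ((rd a b : ℝ) * rd b a) ^ (-ξ) ≤ R ^ (-(4 * s)) := by
          calc ((rd a b : ℝ) * rd b a) ^ (-ξ) ≤ (R ^ 16) ^ (-ξ) :=
                Real.rpow_le_rpow_of_nonpos (by positivity) hc (by linarith)
            _ = R ^ (-(16 * ξ)) := by
                rw [← Real.rpow_natCast R 16, ← Real.rpow_mul hR0.le]
                congr 1
                push_cast
                ring
            _ ≤ R ^ (-(4 * s)) := ki_pow hR (by linarith)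
        have e3 : 0 ≤ ((rd a b : ℝ) * rd b a) ^ (-ξ) := Real.rpow_nonneg (by positivity) _
        calc (16 : ℝ) ^ (1 - θ) * ((rd a b : ℝ) * rd b a) ^ (-ξ) ≤ 16 * R ^ (-(4 * s)) :=
              mul_le_mul e1 e2 e3 (by norm_num)
          _ ≤ (16 + max 1 Ca) * R ^ (-(4 * s)) := by
              apply mul_le_mul_of_nonneg_right _ hRs.le
              have : 0 ≤ max 1 Ca := by positivity
              linarith
      · have e2 : ((rd a b : ℝ) * rd b a) ^ (-ξ) ≤ 1 :=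
          Real.rpow_le_one_of_one_le_of_nonpos hαβ (by linarith)
        have e3 : 0 ≤ ((rd a b : ℝ) * rd b a) ^ (-ξ) := Real.rpow_nonneg (by positivity) _
        have e4 : (Ca * R ^ (-ε / 1024)) ^ (1 - θ) ≤ max 1 Ca * R ^ (-(4 * s)) := by
          rw [Real.mul_rpow hCa.le (Real.rpow_nonneg hR0.le _)]
          apply mul_le_mul
          · calc Ca ^ (1 - θ) ≤ (max 1 Ca) ^ (1 - θ) :=
                  Real.rpow_le_rpow hCa.le (le_max_right _ _) h1θ.le
              _ ≤ (max 1 Ca) ^ (1 : ℝ) :=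
                  Real.rpow_le_rpow_of_exponent_le (le_max_left _ _) (by linarith)
              _ = max 1 Ca := Real.rpow_one _
          · rw [← Real.rpow_mul hR0.le]
            have e5 : -ε / 1024 * (1 - θ) = -(10 * s * (1 / 2 - s)) := by
              rw [hθ]
              have : ε = 10240 * s := by rw [hs]; ring
              rw [this]; ring
            rw [e5]
            apply ki_pow hR
            nlinarith
          · exact Real.rpow_nonneg (Real.rpow_nonneg hR0.le _) _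
          · positivity
        calc (Ca * R ^ (-ε / 1024)) ^ (1 - θ) * ((rd a b : ℝ) * rd b a) ^ (-ξ)
            ≤ (max 1 Ca * R ^ (-(4 * s))) * 1 :=
              mul_le_mul e4 e2 e3 (by positivity)
          _ ≤ (16 + max 1 Ca) * R ^ (-(4 * s)) := by nlinarith)
    (fun a b ha hb E' hE'E hG A k A' k' => by
      split_ifs with hc
      · have := cell_bound S κ μ hD.mu0 E' a b ha hb hD.pos (hE'E.trans hES) hG A k A' k' 1 1
          zero_le_one zero_le_one
          (fun v hv hk => by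
            have := hD.mu_le hε hv
            rw [hk] at this
            rw [one_mul]
            exact this)
          (fun v hv hk => by
            have := hD.mu_le hε hv
            rw [hk] at this
            rw [one_mul]
            exact this)
        calc em μ μ (cell a b κ E' A k A' k') ≤ _ := this
          _ = _ := by ring
      · push Not at hc
        have g1 := hrd1 a b ha
        have g2 := hrd1 b a hb
        exact hal γ S κ Ω L μ hD R a b E' hR ha hb (by nlinarith) (by nlinarith)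
          (hE'E.trans hES) (fun e he => ⟨hG e he, (hEp e (hE'E he)).2.2, (hEp e (hE'E he)).1,
            (hEp e (hE'E he)).2.1.trans (by rw [div_le_one hR0]; exact hR)⟩) A k A' k')
  have e1 : 2 * θ = 1 + ε / 5120 := by rw [hθ, hs]; ring
  have e2 : (1 / R) ^ (2 * (1 - θ)) = R ^ (-(2 * (1 - θ))) := by
    rw [one_div, Real.inv_rpow hR0.le, Real.rpow_neg hR0.le]
  have e3 : R ^ (-(4 * s)) * R ^ (-(2 * (1 - θ))) = R ^ (-(1 + ε / 5120)) := by
    rw [← Real.rpow_add hR0]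
    congr 1
    rw [hθ, hs]; ring
  rw [e1, e2] at key
  calc em μ μ E ≤ Cg * ((16 + max 1 Ca) * R ^ (-(4 * s))) * (ms μ S) ^ (1 + ε / 5120) *
        R ^ (-(2 * (1 - θ))) := key
    _ = Cg * (16 + max 1 Ca) * (ms μ S) ^ (1 + ε / 5120) *
        (R ^ (-(4 * s)) * R ^ (-(2 * (1 - θ)))) := by ring
    _ = Cg * (16 + max 1 Ca) * (ms μ S) ^ (1 + ε / 5120) * R ^ (-(1 + ε / 5120)) := by rw [e3]

end Pool.Agent.IDE
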