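import Pool.Agent.IDE.SV2

set_option autoImplicit false

namespace Pool.Agent.IDE

open Finset Pool.Agent.IDS

theorem sv4b_int_count (T : Finset ℤ) (c R : ℝ) (hR : 0 ≤ R) (h : ∀ n ∈ T, |(n : ℝ) - c| ≤ R) :
    (T.card : ℝ) ≤ 2 * R + 1 := by
  rcases T.eq_empty_or_nonempty with rfl | ⟨n₀, hn₀⟩
  · simp
    linarith
  have hsub : T ⊆ Finset.Icc ⌈c - R⌉ ⌊c + R⌋ := by
    intro n hn
    have := abs_le.1 (h n hn)
    rw [Finset.mem_Icc]
    exact ⟨Int.ceil_le.2 (by linarith), Int.le_floor.2 (by linarith)⟩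
  have hc := Finset.card_le_card hsub
  rw [Int.card_Icc] at hc
  have hm := Finset.mem_Icc.1 (hsub hn₀)
  have hnn : 0 ≤ ⌊c + R⌋ + 1 - ⌈c - R⌉ := by omega
  have h1 : (T.card : ℤ) ≤ ⌊c + R⌋ + 1 - ⌈c - R⌉ := by
    rw [← Int.toNat_of_nonneg hnn]
    exact_mod_cast hc
  have h2 : (T.card : ℝ) ≤ (⌊c + R⌋ : ℝ) + 1 - (⌈c - R⌉ : ℝ) := by exact_mod_cast h1
  have h3 := Int.floor_le (c + R)
  have h4 := Int.le_ceil (c - R)
  linarith

/-- counting part -/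
theorem sv4b_card (C : ℝ) (hC : 0 < C)
    (hBT : ∀ (s a : ℕ) (y Λ : ℝ) (F : Finset ℕ), 1 ≤ s → Nat.Coprime a s →
      2 * (s : ℝ) ≤ Λ →
      (∀ p ∈ F, p.Prime ∧ y ≤ p ∧ (p : ℝ) ≤ y + Λ ∧ p ≡ a [MOD s]) →
      (F.card : ℝ) ≤ C * Λ / ((Nat.totient s : ℝ) * Real.log (Λ / s)))
    (Γ P ω ϑ : ℝ) (s : ℕ) (r : ℤ) (F : Finset ℕ) (hΓ : 2 ≤ Γ) (hP : Γ ^ 8 ≤ P)
    (hs1 : 1 ≤ s) (hs : (s : ℝ) ≤ Γ ^ ((1 : ℝ) / 16))
    (hr : |ω - r / s| ≤ 1 / (s * Real.sqrt P)) (hnd : Γ ^ (-(1 : ℝ) / 2) / P ≤ nd (s * ω))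
    (hF : ∀ p ∈ F, p.Prime ∧ P ≤ p ∧ (p : ℝ) < 2 * P ∧ nd (ω * p - ϑ) ≤ 1 / Γ) :
    (F.card : ℝ) ≤ C * (64 / 3) * (P / Real.log P) * Γ ^ (-(7 : ℝ) / 16) := by
  have hΓ0 : 0 < Γ := by linarith
  have hP256 : (256 : ℝ) ≤ P := by
    calc (256 : ℝ) = 2 ^ 8 := by norm_num
      _ ≤ Γ ^ 8 := pow_le_pow_left₀ (by norm_num) hΓ 8
      _ ≤ P := hP
  have hP0 : 0 < P := by linarith
  have hsP : 0 < Real.sqrt P := Real.sqrt_pos.2 hP0
  have hsR : (1 : ℝ) ≤ s := by exact_mod_cast hs1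
  have hs0 : (0 : ℝ) < s := by linarith
  set ε : ℝ := ω - r / s with hε
  have hse : (s : ℝ) * ε = s * ω - r := by
    rw [hε]
    field_simp
  have hnd2 : nd (s * ω) ≤ s * |ε| := by
    have h1 : nd (s * ω) ≤ |s * ω - r| := round_le _ _
    rw [← hse, abs_mul, abs_of_pos hs0] at h1
    exact h1
  have hG12 : 0 < Γ ^ (-(1 : ℝ) / 2) := Real.rpow_pos_of_pos hΓ0 _
  have hεpos : 0 < |ε| := by
    have h1 : 0 < Γ ^ (-(1 : ℝ) / 2) / P := by positivity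
    have h2 : 0 < s * |ε| := lt_of_lt_of_le h1 (hnd.trans hnd2)
    exact (pos_iff_pos_of_mul_pos h2).1 hs0
  have hε0 : ε ≠ 0 := abs_pos.1 hεpos
  -- lower bound of `|ε|`
  have hεlow : Γ ^ (-(1 : ℝ) / 2) / P ≤ s * |ε| := hnd.trans hnd2
  set Λ : ℝ := 2 / (Γ * |ε|) with hΛ
  have hΛ0 : 0 < Λ := by positivity
  have hΓP : Γ ≤ P ^ ((1 : ℝ) / 8) := by
    have h1 : Γ = (Γ ^ 8) ^ ((1 : ℝ) / 8) := by
      rw [← Real.rpow_natCast, ← Real.rpow_mul hΓ0.le]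
      norm_num
    rw [h1]
    exact Real.rpow_le_rpow (by positivity) hP (by norm_num)
  have hΛbig : 2 * P ^ ((3 : ℝ) / 8) ≤ Λ := by
    rw [hΛ, le_div_iff₀ (by positivity)]
    have h1 : |ε| ≤ 1 / Real.sqrt P := by
      refine hr.trans ?_
      apply one_div_le_one_div_of_le hsP
      nlinarith
    have h2 : Real.sqrt P = P ^ ((1 : ℝ) / 2) := Real.sqrt_eq_rpow P
    have h3 : P ^ ((3 : ℝ) / 8) * P ^ ((1 : ℝ) / 8) = P ^ ((1 : ℝ) / 2) := by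
      rw [← Real.rpow_add hP0]
      norm_num
    calc 2 * P ^ ((3 : ℝ) / 8) * (Γ * |ε|)
        ≤ 2 * P ^ ((3 : ℝ) / 8) * (P ^ ((1 : ℝ) / 8) * (1 / Real.sqrt P)) := by
          apply mul_le_mul_of_nonneg_left _ (by positivity)
          exact mul_le_mul hΓP h1 (abs_nonneg _) (by positivity)
      _ = 2 * (P ^ ((3 : ℝ) / 8) * P ^ ((1 : ℝ) / 8)) / Real.sqrt P := by ring
      _ = 2 := by
        rw [h3, ← h2]
        field_simp
  have hP38 : 1 ≤ P ^ ((3 : ℝ) / 8) := Real.one_le_rpow (by linarith) (by norm_num)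
  have hΛ2 : 2 ≤ Λ := by linarith
  have hlogP : 0 < Real.log P := Real.log_pos (by linarith)
  have hlogΛ : 3 / 8 * Real.log P ≤ Real.log Λ := by
    rw [← Real.log_rpow hP0]
    apply Real.log_le_log (by positivity)
    linarith
  -- the map to the integers
  set N : ℕ → ℤ := fun p => s * round (ω * p - ϑ) - r * p with hN
  have hNp : ∀ p ∈ F, |(s : ℝ) * ε * p - s * ϑ - (N p : ℝ)| ≤ s / Γ := by
    intro p hp
    have h1 : |ω * p - ϑ - (round (ω * p - ϑ) : ℝ)| ≤ 1 / Γ := (hF p hp).2.2.2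
    have h2 : (s : ℝ) * ε * p - s * ϑ - (N p : ℝ) = s * (ω * p - ϑ - (round (ω * p - ϑ) : ℝ)) := by
      rw [hse, hN]
      push_cast
      ring
    rw [h2, abs_mul, abs_of_pos hs0]
    calc (s : ℝ) * |ω * p - ϑ - (round (ω * p - ϑ) : ℝ)| ≤ s * (1 / Γ) :=
          mul_le_mul_of_nonneg_left h1 hs0.le
      _ = s / Γ := by ring
  -- number of values
  have hcount : ((F.image N).card : ℝ) ≤ s * |ε| * P + 3 := by
    have h1 := sv4b_int_count (F.image N) (3 / 2 * (s * ε * P) - s * ϑ) (s * |ε| * P / 2 + s / Γ)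
      (by positivity) (by
        intro n hn
        obtain ⟨p, hp, rfl⟩ := Finset.mem_image.1 hn
        have h2 := hNp p hp
        obtain ⟨-, h3, h4, -⟩ := hF p hp
        have h5 : |(s : ℝ) * ε * (p - 3 / 2 * P)| ≤ s * |ε| * (P / 2) := by
          rw [abs_mul, abs_mul, abs_of_pos hs0]
          apply mul_le_mul_of_nonneg_left _ (by positivity)
          rw [abs_le]
          constructor <;> linarith
        have h6 : (N p : ℝ) - (3 / 2 * (s * ε * P) - s * ϑ) =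
            s * ε * (p - 3 / 2 * P) - (s * ε * p - s * ϑ - (N p : ℝ)) := by ring
        rw [h6]
        refine (abs_sub _ _).trans ?_
        calc _ ≤ s * |ε| * (P / 2) + s / Γ := add_le_add h5 h2
          _ = _ := by ring)
    have h7 : (s : ℝ) / Γ ≤ 1 := by
      rw [div_le_one hΓ0]
      refine hs.trans ?_
      calc Γ ^ ((1 : ℝ) / 16) ≤ Γ ^ (1 : ℝ) :=
            Real.rpow_le_rpow_of_exponent_le (by linarith) (by norm_num)
        _ = Γ := Real.rpow_one Γ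
    linarith
  -- fibres
  have hfib : ∀ n ∈ F.image N, (((F.filter (fun p => N p = n)).card : ℕ) : ℝ) ≤
      C * Λ / (3 / 8 * Real.log P) := by
    intro n hn
    have h1 := hBT 1 1 ((ϑ + n / s) / ε - Λ / 2) Λ (F.filter (fun p => N p = n)) le_rfl
      (Nat.coprime_one_left 1) (by simpa using hΛ2) (by
        intro p hp
        obtain ⟨hp1, hp2⟩ := Finset.mem_filter.1 hp
        have h2 := hNp p hp1
        rw [hp2] at h2
        have h3 : |(p : ℝ) - (ϑ + n / s) / ε| ≤ Λ / 2 := by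
          have h4 : (p : ℝ) - (ϑ + n / s) / ε = (s * ε * p - s * ϑ - (n : ℝ)) / (s * ε) := by
            field_simp
            ring
          rw [h4, abs_div, abs_mul, abs_of_pos hs0, div_le_iff₀ (by positivity)]
          calc |(s : ℝ) * ε * p - s * ϑ - (n : ℝ)| ≤ s / Γ := h2
            _ = Λ / 2 * (s * |ε|) := by
              rw [hΛ]
              field_simp
        have h5 := abs_le.1 h3
        refine ⟨(hF p hp1).1, by linarith, by linarith, ?_⟩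
        exact Nat.modEq_one)
    simp only [Nat.totient_one, Nat.cast_one, one_mul, div_one] at h1
    refine h1.trans ?_
    apply div_le_div_of_nonneg_left (by positivity) (by positivity) hlogΛ
  have hcard : (F.card : ℝ) ≤ (s * |ε| * P + 3) * (C * Λ / (3 / 8 * Real.log P)) := by
    have h1 : F.card = ∑ n ∈ F.image N, (F.filter (fun p => N p = n)).card :=
      Finset.card_eq_sum_card_image N F
    rw [h1]
    push_cast
    refine (Finset.sum_le_sum hfib).trans ?_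
    rw [Finset.sum_const, nsmul_eq_mul]
    apply mul_le_mul_of_nonneg_right hcount
    positivity
  refine hcard.trans ?_
  have hG716 : 0 < Γ ^ (-(7 : ℝ) / 16) := Real.rpow_pos_of_pos hΓ0 _
  -- first term
  have t1 : (s : ℝ) / Γ ≤ Γ ^ (-(7 : ℝ) / 16) := by
    have h1 : (s : ℝ) / Γ ≤ Γ ^ ((1 : ℝ) / 16) / Γ := div_le_div_of_nonneg_right hs hΓ0.le
    have h2 : Γ ^ ((1 : ℝ) / 16) / Γ = Γ ^ ((1 : ℝ) / 16 - 1) := by
      rw [Real.rpow_sub hΓ0, Real.rpow_one]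
    rw [h2] at h1
    exact h1.trans (Real.rpow_le_rpow_of_exponent_le (by linarith) (by norm_num))
  have t2 : 1 / (Γ * |ε|) ≤ P * Γ ^ (-(7 : ℝ) / 16) := by
    rw [div_le_iff₀ (by positivity)]
    have h1 : 1 ≤ s * |ε| * P * Γ ^ ((1 : ℝ) / 2) := by
      have h2 : Γ ^ (-(1 : ℝ) / 2) ≤ s * |ε| * P := by
        rw [div_le_iff₀ hP0] at hεlow
        exact hεlow
      calc (1 : ℝ) = Γ ^ (-(1 : ℝ) / 2) * Γ ^ ((1 : ℝ) / 2) := by
            rw [← Real.rpow_add hΓ0]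
            norm_num
        _ ≤ _ := mul_le_mul_of_nonneg_right h2 (by positivity)
    have h3 : (s : ℝ) * Γ ^ ((1 : ℝ) / 2) ≤ Γ ^ (-(7 : ℝ) / 16) * Γ := by
      calc (s : ℝ) * Γ ^ ((1 : ℝ) / 2) ≤ Γ ^ ((1 : ℝ) / 16) * Γ ^ ((1 : ℝ) / 2) :=
            mul_le_mul_of_nonneg_right hs (by positivity)
        _ = Γ ^ (-(7 : ℝ) / 16) * Γ ^ (1 : ℝ) := by
            rw [← Real.rpow_add hΓ0, ← Real.rpow_add hΓ0]
            norm_num
        _ = _ := by rw [Real.rpow_one]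
    calc (1 : ℝ) ≤ s * |ε| * P * Γ ^ ((1 : ℝ) / 2) := h1
      _ = (s * Γ ^ ((1 : ℝ) / 2)) * (P * |ε|) := by ring
      _ ≤ (Γ ^ (-(7 : ℝ) / 16) * Γ) * (P * |ε|) := mul_le_mul_of_nonneg_right h3 (by positivity)
      _ = _ := by ring
  have e1 : (s * |ε| * P + 3) * (C * Λ / (3 / 8 * Real.log P)) =
      C * (16 / 3) / Real.log P * (P * (s / Γ) + 3 * (1 / (Γ * |ε|))) := by
    rw [hΛ]
    field_simp
    ring
  rw [e1]
  calc C * (16 / 3) / Real.log P * (P * (s / Γ) + 3 * (1 / (Γ * |ε|)))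
      ≤ C * (16 / 3) / Real.log P * (P * Γ ^ (-(7 : ℝ) / 16) + 3 * (P * Γ ^ (-(7 : ℝ) / 16))) := by
        apply mul_le_mul_of_nonneg_left _ (by positivity)
        exact add_le_add (mul_le_mul_of_nonneg_left t1 hP0.le)
          (mul_le_mul_of_nonneg_left t2 (by norm_num))
    _ = _ := by ring

/-- [IDE-SV4b] **Primes in a Bohr set, small denominator but not too good an approximation.**

PROOF.  `ε = ω - r/s`; `s|ε| = |sω - r| ≤ 1/√P < 1/2`, so `nd (s ω) = s|ε| ≥ Γ^{-1/2}/P` (`hsp`), thus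
`ε ≠ 0` and `1/|ε| ≤ s P Γ^{1/2}`.  For `p ∈ F`: some integer `k` has `|ω p - ϑ - k| ≤ 1/Γ`; multiply
by `s`: `|s ε p - s ϑ - n| ≤ s/Γ` with the integer `n = s k - r p`.  So `p` lies in one of the
intervals `J_n = {y : |s ε y - s ϑ - n| ≤ s/Γ}` of length `ℓ = 2/(Γ|ε|)`.  Those `n` for which `J_n`
meets `[P, 2P)` lie in an interval of length `s|ε|P + 2s/Γ`, so there are `≤ s|ε|P + 2s/Γ + 1
≤ s|ε|P + 3` of them (`s ≤ Γ^{1/16} ≤ Γ`).  `ℓ ≥ 2 s √P/Γ ≥ P^{3/8} ≥ 2`; `brun_titchmarsh` (modulus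
`1`): `J_n` contains `≤ C ℓ/log ℓ ≤ C (8/3) ℓ/log P` primes.  Total
`≤ (s|ε|P + 3) C (8/3) (2/(Γ|ε|))/log P ≤ C' (sP/Γ + 1/(Γ|ε|))/log P ≤ C'' P Γ^{-7/16}/log P`
(`s/Γ ≤ Γ^{-15/16}`, `1/(Γ|ε|) ≤ s P Γ^{-1/2} ≤ P Γ^{-7/16}`); and `log p/p ≤ 2 log P/P`. -/
theorem sv_small :
    ∃ C : ℝ, 0 < C ∧ ∀ (Γ P ω ϑ : ℝ) (s : ℕ) (r : ℤ) (F : Finset ℕ), 2 ≤ Γ → Γ ^ 8 ≤ P →
      1 ≤ s → (s : ℝ) ≤ Γ ^ ((1 : ℝ) / 16) →
      |ω - r / s| ≤ 1 / (s * Real.sqrt P) → Γ ^ (-(1 : ℝ) / 2) / P ≤ nd (s * ω) →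
      (∀ p ∈ F, p.Prime ∧ P ≤ p ∧ (p : ℝ) < 2 * P ∧ nd (ω * p - ϑ) ≤ 1 / Γ) →
      ∑ p ∈ F, Real.log p / p ≤ C * Γ ^ (-(1 : ℝ) / 32) := by
  obtain ⟨C, hC, hBT⟩ := brun_titchmarsh
  refine ⟨C * (128 / 3), by positivity, ?_⟩
  intro Γ P ω ϑ s r F hΓ hP hs1 hs hr hnd hF
  have hcard := sv4b_card C hC hBT Γ P ω ϑ s r F hΓ hP hs1 hs hr hnd hF
  have hΓ0 : 0 < Γ := by linarith
  have hP256 : (256 : ℝ) ≤ P := by
    calc (256 : ℝ) = 2 ^ 8 := by norm_num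
      _ ≤ Γ ^ 8 := pow_le_pow_left₀ (by norm_num) hΓ 8
      _ ≤ P := hP
  have hP0 : 0 < P := by linarith
  have hlogP : 0 < Real.log P := Real.log_pos (by linarith)
  have hterm : ∀ p ∈ F, Real.log p / p ≤ 2 * Real.log P / P := by
    intro p hp
    obtain ⟨-, h1, h2, -⟩ := hF p hp
    have hp0 : (0 : ℝ) < p := by linarith
    have h3 : Real.log p ≤ 2 * Real.log P := by
      have h4 : (p : ℝ) ≤ P ^ 2 := by nlinarith
      calc Real.log p ≤ Real.log (P ^ 2) := Real.log_le_log hp0 h4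
        _ = 2 * Real.log P := by
          rw [Real.log_pow]
          norm_num
    exact div_le_div₀ (by positivity) h3 hP0 h1
  have h1 : ∑ p ∈ F, Real.log p / p ≤ F.card * (2 * Real.log P / P) := by
    refine (Finset.sum_le_sum hterm).trans ?_
    rw [Finset.sum_const, nsmul_eq_mul]
  have h2 : Γ ^ (-(7 : ℝ) / 16) ≤ Γ ^ (-(1 : ℝ) / 32) :=
    Real.rpow_le_rpow_of_exponent_le (by linarith) (by norm_num)
  calc ∑ p ∈ F, Real.log p / p ≤ F.card * (2 * Real.log P / P) := h1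
    _ ≤ (C * (64 / 3) * (P / Real.log P) * Γ ^ (-(7 : ℝ) / 16)) * (2 * Real.log P / P) :=
        mul_le_mul_of_nonneg_right hcard (by positivity)
    _ = C * (128 / 3) * Γ ^ (-(7 : ℝ) / 16) := by
      field_simp
      ring
    _ ≤ _ := mul_le_mul_of_nonneg_left h2 (by positivity)

end Pool.Agent.IDE
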