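import Pool.Agent.IDE.SV4a
import Pool.Agent.IDE.SV4b

set_option autoImplicit false

namespace Pool.Agent.IDE

open Finset Pool.Agent.IDS

/-- [IDE-SV4] **Primes in a Bohr set.**

PROOF.  If `Γ < 2`: `cheb_dyadic` (`≤ 3 ≤ 4 Γ^{-1/32}`).  Otherwise Dirichlet
(`Real.exists_int_int_abs_mul_sub_le` or the rational version `Real.exists_rat_abs_sub_le_and_den_le`)
gives `s ≤ √P`, `r` coprime to `s` with `|ω - r/s| ≤ 1/(s√P)` (apply it with `n = ⌊√P⌋₊`,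
`|ω - q| ≤ 1/((n+1) q.den)`).  If `s ≥ Γ^{1/16}`: `sv_large`; if `s ≤ Γ^{1/16}`: `sv_small`
(hypothesis `h` for this `s`). -/
theorem sv4 :
    ∃ C : ℝ, 0 < C ∧ ∀ (Γ P ω ϑ : ℝ) (F : Finset ℕ), 1 ≤ Γ → Γ ^ 8 ≤ P →
      (∀ s : ℕ, 1 ≤ s → (s : ℝ) ≤ Γ ^ ((1 : ℝ) / 16) → Γ ^ (-(1 : ℝ) / 2) / P ≤ nd (s * ω)) →
      (∀ p ∈ F, p.Prime ∧ P ≤ p ∧ (p : ℝ) < 2 * P ∧ nd (ω * p - ϑ) ≤ 1 / Γ) →
      ∑ p ∈ F, Real.log p / p ≤ C * Γ ^ (-(1 : ℝ) / 32) := by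
  obtain ⟨C1, hC1, H1⟩ := sv_large
  obtain ⟨C2, hC2, H2⟩ := sv_small
  refine ⟨max 6 (max C1 C2), by positivity, ?_⟩
  intro Γ P ω ϑ F hΓ hP hs hF
  have hΓ0 : 0 < Γ := by linarith
  have hP0 : 0 < P := lt_of_lt_of_le (by positivity) hP
  have hpos : 0 ≤ Γ ^ (-(1 : ℝ) / 32) := by positivity
  have m1 : (6 : ℝ) ≤ max 6 (max C1 C2) := le_max_left _ _
  have m2 : C1 ≤ max 6 (max C1 C2) := (le_max_left _ _).trans (le_max_right _ _)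
  have m3 : C2 ≤ max 6 (max C1 C2) := (le_max_right _ _).trans (le_max_right _ _)
  by_cases h2 : Γ < 2
  · have h3 : ∑ p ∈ F, Real.log p / p ≤ 3 :=
      cheb_dyadic P hP0 F (fun p hp => ⟨(hF p hp).1, (hF p hp).2.1, (hF p hp).2.2.1.le⟩)
    have h4 : (1 / 2 : ℝ) ≤ Γ ^ (-(1 : ℝ) / 32) := by
      have h5 : Γ ^ (-1 : ℝ) ≤ Γ ^ (-(1 : ℝ) / 32) :=
        Real.rpow_le_rpow_of_exponent_le hΓ (by norm_num)
      have h6 : (1 / 2 : ℝ) ≤ Γ ^ (-1 : ℝ) := by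
        rw [Real.rpow_neg_one, one_div]
        exact inv_anti₀ hΓ0 h2.le
      exact h6.trans h5
    calc ∑ p ∈ F, Real.log p / p ≤ 3 := h3
      _ ≤ 6 * Γ ^ (-(1 : ℝ) / 32) := by linarith
      _ ≤ max 6 (max C1 C2) * Γ ^ (-(1 : ℝ) / 32) := mul_le_mul_of_nonneg_right m1 hpos
  · have h2' : 2 ≤ Γ := not_lt.mp h2
    have hP1 : (256 : ℝ) ≤ P := by
      have : (2 : ℝ) ^ 8 ≤ Γ ^ 8 := pow_le_pow_left₀ (by norm_num) h2' 8
      norm_num at this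
      linarith
    have hsq : (1 : ℝ) ≤ Real.sqrt P := by
      apply Real.le_sqrt_of_sq_le
      linarith
    have hn : 0 < ⌊Real.sqrt P⌋₊ := Nat.floor_pos.mpr hsq
    obtain ⟨q, hq1, hq2⟩ := Real.exists_rat_abs_sub_le_and_den_le ω hn
    have hden : 1 ≤ q.den := q.pos
    have hden0 : (0 : ℝ) < (q.den : ℝ) := by exact_mod_cast q.pos
    have hsl : (q.den : ℝ) ≤ Real.sqrt P :=
      le_trans (by exact_mod_cast hq2) (Nat.floor_le (Real.sqrt_nonneg P))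
    have hcop : IsCoprime q.num (q.den : ℤ) := by
      rw [Int.isCoprime_iff_gcd_eq_one, Int.gcd, Int.natAbs_natCast]
      exact q.reduced
    have hcast : (q : ℝ) = (q.num : ℝ) / (q.den : ℝ) := Rat.cast_def q
    have happ : |ω - q.num / q.den| ≤ 1 / (q.den * Real.sqrt P) := by
      rw [← hcast]
      refine hq1.trans ?_
      apply one_div_le_one_div_of_le (by positivity)
      have : Real.sqrt P ≤ (⌊Real.sqrt P⌋₊ : ℝ) + 1 := (Nat.lt_floor_add_one _).le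
      calc (q.den : ℝ) * Real.sqrt P ≤ q.den * ((⌊Real.sqrt P⌋₊ : ℝ) + 1) :=
            mul_le_mul_of_nonneg_left this hden0.le
        _ = ((⌊Real.sqrt P⌋₊ : ℝ) + 1) * q.den := by ring
    by_cases h5 : Γ ^ ((1 : ℝ) / 16) ≤ q.den
    · refine (H1 Γ P ω ϑ q.den q.num F h2' hP hden hsl hcop happ h5 hF).trans ?_
      exact mul_le_mul_of_nonneg_right m2 hpos
    · have h5' : (q.den : ℝ) ≤ Γ ^ ((1 : ℝ) / 16) := (not_le.mp h5).le
      refine (H2 Γ P ω ϑ q.den q.num F h2' hP hden h5' happ (hs q.den hden h5') hF).trans ?_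
      exact mul_le_mul_of_nonneg_right m3 hpos

end Pool.Agent.IDE
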