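import Pool.Agent.IDE.D2

set_option autoImplicit false

namespace Pool.Agent.IDE

open Finset Pool.Agent.IDS

private theorem w1_floor {x y : ℝ} (hx : 0 ≤ x) (h : ⌊x⌋₊ = ⌊y⌋₊) : y - x < 1 := by
  have h1 := Nat.lt_floor_add_one y
  have h2 := Nat.floor_le hx
  rw [h] at h2
  linarith

/-- [IDE-W1] **Few near-returns.**

PROOF.  `N = den γ T`, `η = eta γ T`.  If `F` is empty, done; otherwise `η > 0` and
`1/2 < c o η < 2 c O η` for some `o`, so `1 < 4 c O η`.  Cover `[c O, 2 c O)` by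
`≤ 2 c O η + 1 ≤ 6 c O η` windows of length `1/(2η)`.  Let `o < o'` in `F` with `c o, c o'` in the same
window, `j = c (o' - o) ≤ 1/(2η)`, `j ≥ 1`: if `N ∣ j`, then `nd (j γ) = (j/N) η ≥ η` (`nd_mul_den`);
otherwise `nd (j γ) ≥ 1/(2N)` (`nd_ge_of_not_dvd`).  So for the elements `o` of `F` in one window the
numbers `σ(o) = γ c o - round (γ c o) ∈ (-1/(2T), 1/(2T))` are pairwise at distance
`≥ s = min(η, 1/(2N))`: at most `1 + 1/(T s)` of them, and
`1/(T s) = max (1/(Tη), 2N/T) ≤ 2/(Tη)`  (`N ≤ T`, `η ≤ 1/T`), so `≤ 3/(Tη)`.  Total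
`≤ 6 c O η · 3/(Tη) = 18 c O/T`. -/
theorem window (γ T : ℝ) (hT : 1 ≤ T) (c O : ℕ) (hc : 1 ≤ c) (hO : 1 ≤ O) (F : Finset ℕ)
    (hF : ∀ o ∈ F, O ≤ o ∧ o < 2 * O ∧ nd ((c * o : ℕ) * γ) < 1 / (2 * T) ∧
      1 / 2 < ((c * o : ℕ) : ℝ) * eta γ T) :
    (F.card : ℝ) ≤ 18 * c * O / T := by
  classical
  have hT0 : 0 < T := by linarith
  have hN1 : 1 ≤ den γ T := den_pos γ T hT0
  have hNT : (den γ T : ℝ) ≤ T := den_le γ T hT
  have hηT : eta γ T ≤ 1 / T := eta_le γ T hT0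
  have hη0 : 0 ≤ eta γ T := eta_nonneg γ T
  have hc0 : (0 : ℝ) < c := by exact_mod_cast hc
  have hc1 : (1 : ℝ) ≤ c := by exact_mod_cast hc
  have hO0 : (0 : ℝ) < O := by exact_mod_cast hO
  have hNr : (1 : ℝ) ≤ den γ T := by exact_mod_cast hN1
  rcases F.eq_empty_or_nonempty with rfl | ⟨o₀, ho₀⟩
  · simp only [card_empty, Nat.cast_zero]; positivity
  have hη1 : 0 < eta γ T := by
    rcases hη0.lt_or_eq with h | h
    · exact h
    · exfalso
      have h4 := (hF o₀ ho₀).2.2.2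
      rw [← h] at h4
      norm_num at h4
  have hbig : 1 < 4 * c * O * eta γ T := by
    obtain ⟨_, h2, _, h4⟩ := hF o₀ ho₀
    have h5 : ((c * o₀ : ℕ) : ℝ) ≤ 2 * c * O := by
      have h6 : c * o₀ ≤ 2 * c * O := by nlinarith
      exact_mod_cast h6
    nlinarith
  obtain ⟨s, hs⟩ : ∃ s : ℝ, s = min (eta γ T) (1 / (2 * (den γ T : ℝ))) := ⟨_, rfl⟩
  have hs0 : 0 < s := by
    rw [hs]
    exact lt_min hη1 (by positivity)
  have hηs : eta γ T ≤ 2 * s := by
    have h1 : 1 / T ≤ 1 / (den γ T : ℝ) := one_div_le_one_div_of_le (by linarith) hNT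
    have h2 : 2 * (1 / (2 * (den γ T : ℝ))) = 1 / (den γ T : ℝ) := by
      field_simp
    rcases min_choice (eta γ T) (1 / (2 * (den γ T : ℝ))) with h | h
    · rw [hs, h]; linarith
    · rw [hs, h, h2]; linarith
  -- separation
  have hsep : ∀ o o' : ℕ, o < o' → (c : ℝ) * ((o' : ℝ) - o) * eta γ T < 1 / 2 →
      s ≤ nd (((c * (o' - o) : ℕ) : ℝ) * γ) := by
    intro o o' hlt hj
    have hjr : ((c * (o' - o) : ℕ) : ℝ) = (c : ℝ) * ((o' : ℝ) - o) := by
      push_cast [Nat.cast_sub hlt.le]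
      ring
    have hj1 : 1 ≤ c * (o' - o) := Nat.one_le_iff_ne_zero.2 (Nat.mul_ne_zero (by omega) (by omega))
    by_cases hd : den γ T ∣ c * (o' - o)
    · obtain ⟨t, ht⟩ := hd
      have ht0 : 1 ≤ t := by
        rcases Nat.eq_zero_or_pos t with h | h
        · rw [h] at ht; omega
        · exact h
      have ht1 : (1 : ℝ) ≤ t := by exact_mod_cast ht0
      have htη : (t : ℝ) * eta γ T ≤ 1 / 2 := by
        have h1 : (t : ℝ) ≤ ((c * (o' - o) : ℕ) : ℝ) := by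
          rw [ht]
          push_cast
          nlinarith
        rw [hjr] at h1
        nlinarith
      rw [ht, Nat.mul_comm (den γ T) t, nd_mul_den γ T t htη]
      have h2 : s ≤ eta γ T := by rw [hs]; exact min_le_left _ _
      nlinarith
    · have h1 := nd_ge_of_not_dvd γ T hT0 (c * (o' - o)) hd (by rw [hjr]; exact hj.le)
      exact le_trans (by rw [hs]; exact min_le_right _ _) h1
  -- the residues
  obtain ⟨σ, hσ⟩ : ∃ σ : ℕ → ℝ, ∀ o, σ o = ((c * o : ℕ) : ℝ) * γ - round (((c * o : ℕ) : ℝ) * γ) :=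
    ⟨_, fun _ => rfl⟩
  have hσ1 : ∀ o ∈ F, |σ o| < 1 / (2 * T) := by
    intro o ho
    rw [hσ]
    exact (hF o ho).2.2.1
  have hσd : ∀ o o' : ℕ, o < o' → nd (((c * (o' - o) : ℕ) : ℝ) * γ) ≤ |σ o' - σ o| := by
    intro o o' hlt
    have hjr : ((c * (o' - o) : ℕ) : ℝ) = ((c * o' : ℕ) : ℝ) - ((c * o : ℕ) : ℝ) := by
      push_cast [Nat.cast_sub hlt.le]
      ring
    have h1 := nd_le_abs (((c * (o' - o) : ℕ) : ℝ) * γ)
      (round (((c * o' : ℕ) : ℝ) * γ) - round (((c * o : ℕ) : ℝ) * γ))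
    refine h1.trans (le_of_eq ?_)
    congr 1
    rw [hσ, hσ, hjr, Int.cast_sub]
    ring
  obtain ⟨f, hf⟩ : ∃ f : ℕ → ℕ × ℕ, ∀ o, f o = (⌊2 * eta γ T * c * ((o : ℝ) - O)⌋₊,
      ⌊(σ o + 1 / (2 * T)) / s⌋₊) := ⟨_, fun _ => rfl⟩
  have hnn1 : ∀ o ∈ F, 0 ≤ 2 * eta γ T * c * ((o : ℝ) - O) := by
    intro o ho
    have h1 : (O : ℝ) ≤ o := by exact_mod_cast (hF o ho).1
    have h2 : 0 ≤ (o : ℝ) - O := by linarith
    positivity
  have hnn2 : ∀ o ∈ F, 0 ≤ (σ o + 1 / (2 * T)) / s := by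
    intro o ho
    have h1 := abs_lt.1 (hσ1 o ho)
    exact div_nonneg (by linarith [h1.1]) hs0.le
  have hinj : Set.InjOn f (F : Set ℕ) := by
    have key : ∀ o ∈ F, ∀ o' ∈ F, f o = f o' → ¬ o < o' := by
      intro o ho o' ho' hff hlt
      rw [hf, hf, Prod.mk.injEq] at hff
      obtain ⟨h1, h2⟩ := hff
      have h3 := w1_floor (hnn1 o ho) h1
      have h4 := w1_floor (hnn2 o ho) h2
      have h5 := w1_floor (hnn2 o' ho') h2.symm
      have h6 : (c : ℝ) * ((o' : ℝ) - o) * eta γ T < 1 / 2 := by linarith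
      have h7 := (hsep o o' hlt h6).trans (hσd o o' hlt)
      have h8 : (σ o' + 1 / (2 * T)) / s - (σ o + 1 / (2 * T)) / s = (σ o' - σ o) / s := by ring
      have h9 : (σ o + 1 / (2 * T)) / s - (σ o' + 1 / (2 * T)) / s = (σ o - σ o') / s := by ring
      rw [h8, div_lt_one hs0] at h4
      rw [h9, div_lt_one hs0] at h5
      have h10 : |σ o' - σ o| < s := abs_lt.2 ⟨by linarith, h4⟩
      linarith
    intro o ho o' ho' hff
    have ho1 : o ∈ F := by exact_mod_cast ho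
    have ho2 : o' ∈ F := by exact_mod_cast ho'
    rcases Nat.lt_trichotomy o o' with h | h | h
    · exact absurd h (key o ho1 o' ho2 hff)
    · exact h
    · exact absurd h (key o' ho2 o ho1 hff.symm)
  have hmaps : ∀ o ∈ F, f o ∈ range ⌈2 * eta γ T * c * O⌉₊ ×ˢ range ⌈1 / (T * s)⌉₊ := by
    intro o ho
    rw [hf, mem_product, mem_range, mem_range]
    constructor
    · rw [Nat.lt_ceil]
      refine lt_of_le_of_lt (Nat.floor_le (hnn1 o ho)) ?_
      have h1 : (o : ℝ) < 2 * O := by exact_mod_cast (hF o ho).2.1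
      have h2 : 0 < 2 * eta γ T * c := by positivity
      nlinarith
    · rw [Nat.lt_ceil]
      refine lt_of_le_of_lt (Nat.floor_le (hnn2 o ho)) ?_
      have h1 := abs_lt.1 (hσ1 o ho)
      rw [div_lt_div_iff₀ hs0 (by positivity)]
      have h2 : (1 : ℝ) / (2 * T) + 1 / (2 * T) = 1 / T := by field_simp; norm_num
      have h3 : σ o + 1 / (2 * T) < 1 / T := by linarith [h1.2]
      have h4 : (1 / T) * (T * s) = 1 * s := by field_simp
      have h5 : 0 < T * s := by positivity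
      nlinarith
  have hcard : F.card ≤ ⌈2 * eta γ T * c * O⌉₊ * ⌈1 / (T * s)⌉₊ := by
    have h1 := card_le_card_of_injOn f hmaps hinj
    rwa [card_product, card_range, card_range] at h1
  have hA : (⌈2 * eta γ T * c * O⌉₊ : ℝ) ≤ 6 * c * O * eta γ T := by
    have h1 := (Nat.ceil_lt_add_one (show (0 : ℝ) ≤ 2 * eta γ T * c * O by positivity)).le
    nlinarith
  have hB : (⌈1 / (T * s)⌉₊ : ℝ) ≤ 3 / (T * eta γ T) := by
    have h1 := (Nat.ceil_lt_add_one (show (0 : ℝ) ≤ 1 / (T * s) by positivity)).le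
    have h2 : 1 / (T * s) ≤ 2 / (T * eta γ T) := by
      rw [div_le_div_iff₀ (by positivity) (by positivity)]
      nlinarith
    have h3 : (1 : ℝ) ≤ 1 / (T * eta γ T) := by
      rw [le_div_iff₀ (by positivity)]
      rw [le_div_iff₀ hT0] at hηT
      linarith
    have h4 : (3 : ℝ) / (T * eta γ T) = 2 / (T * eta γ T) + 1 / (T * eta γ T) := by ring
    linarith
  calc (F.card : ℝ) ≤ ((⌈2 * eta γ T * c * O⌉₊ * ⌈1 / (T * s)⌉₊ : ℕ) : ℝ) := by exact_mod_cast hcard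
    _ = (⌈2 * eta γ T * c * O⌉₊ : ℝ) * (⌈1 / (T * s)⌉₊ : ℝ) := by push_cast; ring
    _ ≤ (6 * c * O * eta γ T) * (3 / (T * eta γ T)) :=
        mul_le_mul hA hB (by positivity) (by positivity)
    _ = 18 * c * O / T := by field_simp; norm_num

end Pool.Agent.IDE
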