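import Pool.Agent.IDE.LT
import Pool.Agent.IDE.SV4
import Pool.Agent.IDE.W1

set_option autoImplicit false

namespace Pool.Agent.IDE

open Finset Pool.Agent.IDS

/-- the parameter `T` attached to the cofactor `o'` -/
noncomputable def TT (R : ℝ) (B o' : ℕ) : ℝ :=
  Real.sqrt (R / 2) * 2 ^ B / (4 * 2 ^ Nat.log 2 o')

theorem lb_card (γ R z : ℝ) (c1 B : ℕ) (hR : 2 ≤ R) (hz : 8 ≤ z) (hc1 : 1 ≤ c1)
    (hc2 : (c1 : ℝ) ≤ R ^ 37) (F : Finset ℕ) (i : ℕ)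
    (hF : ∀ o' ∈ F, 1 ≤ o' ∧ Nat.log 2 o' = i ∧ (o' : ℝ) * z ≤ (2 : ℝ) ^ (B + 1) ∧
      ∃ s j : ℕ, 1 ≤ s ∧ (s : ℝ) ≤ R ^ ((1 : ℝ) / 16) ∧ 1 ≤ j ∧ (j : ℝ) ≤ R ^ ((1 : ℝ) / 64) ∧
        nd ((s * j * c1 * o' : ℕ) * γ) < 1 / (2 * TT R B o') ∧
        1 / 2 < ((s * j * c1 * o' : ℕ) : ℝ) * eta γ (TT R B o')) :
    (F.card : ℝ) ≤ 102 * R ^ 38 * ((2 : ℝ) ^ i * 2 ^ i / 2 ^ B) := by
  classical
  have hR0 : (0 : ℝ) < R := by linarith
  have hR1 : (1 : ℝ) ≤ R := by linarith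
  have hc0 : (0 : ℝ) < c1 := by exact_mod_cast (show 0 < c1 by omega)
  rcases F.eq_empty_or_nonempty with rfl | ⟨o0, ho0⟩
  · simp only [Finset.card_empty, Nat.cast_zero]
    positivity
  set T : ℝ := Real.sqrt (R / 2) * 2 ^ B / (4 * 2 ^ i) with hT
  have hTT : ∀ o' ∈ F, TT R B o' = T := by
    intro o' ho'
    unfold TT
    rw [(hF o' ho').2.1]
  have hsq1 : 1 ≤ Real.sqrt (R / 2) := by
    rw [Real.one_le_sqrt]
    linarith
  have h2i : (0 : ℝ) < 2 ^ i := by positivity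
  have h2B : (0 : ℝ) < 2 ^ B := by positivity
  have hlow : ∀ o' ∈ F, 2 ^ i ≤ o' ∧ o' < 2 * 2 ^ i := by
    intro o' ho'
    obtain ⟨h1, h2, -⟩ := hF o' ho'
    constructor
    · rw [← h2]; exact Nat.pow_log_le_self 2 (by omega)
    · have := Nat.lt_pow_succ_log_self (b := 2) (by norm_num) o'
      rw [h2, pow_succ] at this
      omega
  have hiz : (2 : ℝ) ^ i * z ≤ 2 * 2 ^ B := by
    have h1 := (hF o0 ho0).2.2.1
    have h2 : ((2 : ℝ) ^ i) ≤ o0 := by exact_mod_cast (hlow o0 ho0).1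
    calc (2 : ℝ) ^ i * z ≤ o0 * z := mul_le_mul_of_nonneg_right h2 (by linarith)
      _ ≤ 2 ^ (B + 1) := h1
      _ = 2 * 2 ^ B := by ring
  have hT1 : 1 ≤ T := by
    rw [hT, le_div_iff₀ (by positivity), one_mul]
    have h1 : 8 * (2 : ℝ) ^ i ≤ 2 * 2 ^ B := by nlinarith
    have h2 : 1 * (2 : ℝ) ^ B ≤ Real.sqrt (R / 2) * 2 ^ B :=
      mul_le_mul_of_nonneg_right hsq1 h2B.le
    linarith
  have hT0 : 0 < T := by linarith
  set A : ℝ := R ^ ((1 : ℝ) / 16) with hA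
  set Q : ℝ := R ^ ((1 : ℝ) / 64) with hQ
  have hA0 : 0 < A := Real.rpow_pos_of_pos hR0 _
  have hQ0 : 0 < Q := Real.rpow_pos_of_pos hR0 _
  set P : Finset (ℕ × ℕ) := Icc 1 ⌊A⌋₊ ×ˢ Icc 1 ⌊Q⌋₊ with hP
  set G : ℕ × ℕ → Finset ℕ := fun sj => F.filter (fun o =>
    nd ((sj.1 * sj.2 * c1 * o : ℕ) * γ) < 1 / (2 * T) ∧
      1 / 2 < ((sj.1 * sj.2 * c1 * o : ℕ) : ℝ) * eta γ T) with hG
  have hcover : F ⊆ P.biUnion G := by
    intro o ho
    obtain ⟨-, -, -, s, j, hs1, hsA, hj1, hjQ, h1, h2⟩ := hF o ho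
    rw [hTT o ho] at h1 h2
    rw [Finset.mem_biUnion]
    refine ⟨(s, j), ?_, ?_⟩
    · simp only [hP, Finset.mem_product, Finset.mem_Icc]
      exact ⟨⟨hs1, Nat.le_floor hsA⟩, ⟨hj1, Nat.le_floor hjQ⟩⟩
    · simp only [hG, Finset.mem_filter]
      exact ⟨ho, h1, h2⟩
  have hcardG : ∀ sj ∈ P, ((G sj).card : ℝ) ≤ 18 * (A * Q * c1) * 2 ^ i / T := by
    rintro ⟨s, j⟩ hsj
    simp only [hP, Finset.mem_product, Finset.mem_Icc] at hsj
    obtain ⟨⟨hs1, hs2⟩, hj1, hj2⟩ := hsj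
    have hsA : (s : ℝ) ≤ A := (Nat.le_floor_iff hA0.le).1 hs2
    have hjQ : (j : ℝ) ≤ Q := (Nat.le_floor_iff hQ0.le).1 hj2
    have hc : 1 ≤ s * j * c1 := by
      have := Nat.mul_pos (Nat.mul_pos (show 0 < s by omega) (show 0 < j by omega))
        (show 0 < c1 by omega)
      omega
    have hw := window γ T hT1 (s * j * c1) (2 ^ i) hc Nat.one_le_two_pow (G (s, j)) (by
      intro o ho
      simp only [hG, Finset.mem_filter] at ho
      exact ⟨(hlow o ho.1).1, (hlow o ho.1).2, ho.2.1, ho.2.2⟩)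
    refine hw.trans ?_
    push_cast
    apply div_le_div_of_nonneg_right _ hT0.le
    apply mul_le_mul_of_nonneg_right _ h2i.le
    apply mul_le_mul_of_nonneg_left _ (by norm_num)
    apply mul_le_mul_of_nonneg_right _ hc0.le
    exact mul_le_mul hsA hjQ (Nat.cast_nonneg _) hA0.le
  have hPcard : (P.card : ℝ) ≤ A * Q := by
    rw [hP, Finset.card_product, Nat.card_Icc, Nat.card_Icc]
    simp only [Nat.add_sub_cancel]
    push_cast
    exact mul_le_mul (Nat.floor_le hA0.le) (Nat.floor_le hQ0.le) (Nat.cast_nonneg _) hA0.le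
  have hAQ : (A * Q) * (A * Q) ≤ Real.sqrt R := by
    rw [hA, hQ, ← Real.rpow_add hR0, ← Real.rpow_add hR0, Real.sqrt_eq_rpow]
    exact Real.rpow_le_rpow_of_exponent_le hR1 (by norm_num)
  have hsqrt : Real.sqrt R ≤ 1.4143 * Real.sqrt (R / 2) := by
    have h1 : Real.sqrt R = Real.sqrt 2 * Real.sqrt (R / 2) := by
      rw [← Real.sqrt_mul (by norm_num)]
      congr 1
      ring
    have h2 : Real.sqrt 2 ≤ 1.4143 := by
      rw [Real.sqrt_le_left (by norm_num)]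
      norm_num
    rw [h1]
    exact mul_le_mul_of_nonneg_right h2 (Real.sqrt_nonneg _)
  have hbase : 0 ≤ 18 * (A * Q * c1) * 2 ^ i / T := by positivity
  have hsq0 : 0 < Real.sqrt (R / 2) := by linarith
  have h38 : (c1 : ℝ) ≤ R ^ 38 := hc2.trans (pow_le_pow_right₀ hR1 (by norm_num))
  calc (F.card : ℝ) ≤ ((P.biUnion G).card : ℝ) := by
        exact_mod_cast Finset.card_le_card hcover
    _ ≤ ∑ sj ∈ P, ((G sj).card : ℝ) := by
        exact_mod_cast Finset.card_biUnion_le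
    _ ≤ ∑ _sj ∈ P, 18 * (A * Q * c1) * 2 ^ i / T := Finset.sum_le_sum hcardG
    _ = P.card * (18 * (A * Q * c1) * 2 ^ i / T) := by rw [Finset.sum_const, nsmul_eq_mul]
    _ ≤ (A * Q) * (18 * (A * Q * c1) * 2 ^ i / T) := mul_le_mul_of_nonneg_right hPcard hbase
    _ = 18 * ((A * Q) * (A * Q)) * c1 * 2 ^ i / T := by ring
    _ ≤ 18 * (1.4143 * Real.sqrt (R / 2)) * c1 * 2 ^ i / T := by
        apply div_le_div_of_nonneg_right _ hT0.le
        apply mul_le_mul_of_nonneg_right _ h2i.le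
        apply mul_le_mul_of_nonneg_right _ hc0.le
        apply mul_le_mul_of_nonneg_left _ (by norm_num)
        exact hAQ.trans hsqrt
    _ = 101.8296 * c1 * ((2 : ℝ) ^ i * 2 ^ i / 2 ^ B) := by
        rw [hT]
        field_simp
        ring
    _ ≤ 102 * R ^ 38 * ((2 : ℝ) ^ i * 2 ^ i / 2 ^ B) := by
        apply mul_le_mul_of_nonneg_right _ (by positivity)
        nlinarith

/-- [IDE-LBa] **Few special cofactors.**

PROOF.  Split by the dyadic size `O = 2^i` of `o'` (`i = log₂ o'`), by `s` and by `j`; all `o'` with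
the same `i` have the same `T = TT R B o' = √(R/2) 2^B/(4 O)`, and `T ≥ √(R/2) z/8 ≥ 1`
(`O z ≤ o' z ≤ 2^{B+1}`).  By `window` (with `c = s j c1`) there are at most
`18 s j c1 O/T ≤ 18 R^{1/16+1/64+37} · 4 O²/(√(R/2) 2^B) ≤ 102 R^{37} O²/2^B` (`R^{1/16+1/64-1/2} ≤ 1`)
such `o'` for given `(s, j, i)`, thus `≤ 102 R^{38} O²/2^B` for given `i` (at most
`R^{1/16} R^{1/64} ≤ R` pairs `(s,j)`).  `pb b o' ≤ 1/o' ≤ 1/O`.  So the sum is
`≤ ∑_{i : 2^i z ≤ 2^{B+1}} 102 R^{38} 2^i/2^B ≤ 102 R^{38} · 2 · 2^{B+1}/(z 2^B) = 408 R^{38}/z`. -/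
theorem special_cofactors (γ R z : ℝ) (c1 b B : ℕ) (hR : 2 ≤ R) (hz : 8 ≤ z) (hc1 : 1 ≤ c1)
    (hc2 : (c1 : ℝ) ≤ R ^ 37) (hb : 0 < b) (F : Finset ℕ)
    (hF : ∀ o' ∈ F, o' ∈ Sq b ∧ (o' : ℝ) * z ≤ (2 : ℝ) ^ (B + 1) ∧
      ∃ s j : ℕ, 1 ≤ s ∧ (s : ℝ) ≤ R ^ ((1 : ℝ) / 16) ∧ 1 ≤ j ∧ (j : ℝ) ≤ R ^ ((1 : ℝ) / 64) ∧
        nd ((s * j * c1 * o' : ℕ) * γ) < 1 / (2 * TT R B o') ∧
        1 / 2 < ((s * j * c1 * o' : ℕ) : ℝ) * eta γ (TT R B o')) :
    ∑ o' ∈ F, pb b o' ≤ 408 * R ^ 38 / z := by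
  classical
  have hR0 : (0 : ℝ) < R := by linarith
  have hz0 : (0 : ℝ) < z := by linarith
  have hpos : ∀ o' ∈ F, 1 ≤ o' := by
    intro o' ho'
    have h1 := (hF o' ho').1
    unfold Sq at h1
    rw [Finset.mem_filter, Nat.mem_divisors] at h1
    exact Nat.pos_of_dvd_of_pos h1.1.1 hb
  set I : Finset ℕ := F.image (Nat.log 2) with hI
  have h2B : (0 : ℝ) < 2 ^ B := by positivity
  have hsplit : ∑ o' ∈ F, pb b o' = ∑ i ∈ I, ∑ o' ∈ F.filter (fun o => Nat.log 2 o = i), pb b o' :=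
    (Finset.sum_fiberwise_of_maps_to (fun o ho => Finset.mem_image_of_mem _ ho) _).symm
  have hterm : ∀ i ∈ I, ∑ o' ∈ F.filter (fun o => Nat.log 2 o = i), pb b o' ≤
      102 * R ^ 38 / 2 ^ B * 2 ^ i := by
    intro i _
    have h2i : (0 : ℝ) < 2 ^ i := by positivity
    have hcard := lb_card γ R z c1 B hR hz hc1 hc2 (F.filter (fun o => Nat.log 2 o = i)) i (by
      intro o ho
      rw [Finset.mem_filter] at ho
      obtain ⟨-, h2, h3⟩ := hF o ho.1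
      exact ⟨hpos o ho.1, ho.2, h2, h3⟩)
    calc ∑ o' ∈ F.filter (fun o => Nat.log 2 o = i), pb b o'
        ≤ ∑ _o' ∈ F.filter (fun o => Nat.log 2 o = i), (1 : ℝ) / 2 ^ i := by
          refine Finset.sum_le_sum fun o ho => ?_
          rw [Finset.mem_filter] at ho
          refine (pb_le b o hb (hF o ho.1).1).trans ?_
          apply one_div_le_one_div_of_le h2i
          have h1 := hpos o ho.1
          have h2 : 2 ^ i ≤ o := by
            rw [← ho.2]; exact Nat.pow_log_le_self 2 (by omega)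
          exact_mod_cast h2
      _ = ((F.filter (fun o => Nat.log 2 o = i)).card : ℝ) * (1 / 2 ^ i) := by
          rw [Finset.sum_const, nsmul_eq_mul]
      _ ≤ 102 * R ^ 38 * ((2 : ℝ) ^ i * 2 ^ i / 2 ^ B) * (1 / 2 ^ i) :=
          mul_le_mul_of_nonneg_right hcard (by positivity)
      _ = 102 * R ^ 38 / 2 ^ B * 2 ^ i := by
          field_simp
  have hgeo : ∑ i ∈ I, (2 : ℝ) ^ i ≤ 4 * 2 ^ B / z := by
    rcases I.eq_empty_or_nonempty with h0 | hne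
    · rw [h0, Finset.sum_empty]; positivity
    · set M := I.max' hne with hM
      have hMI : M ∈ I := Finset.max'_mem I hne
      obtain ⟨o, ho, hoM⟩ := Finset.mem_image.1 hMI
      have h1 : (2 : ℝ) ^ M * z ≤ 2 * 2 ^ B := by
        have h2 : 2 ^ M ≤ o := by
          rw [← hoM]
          exact Nat.pow_log_le_self 2 (by have := hpos o ho; omega)
        have h3 : (2 : ℝ) ^ M ≤ o := by exact_mod_cast h2
        calc (2 : ℝ) ^ M * z ≤ o * z := mul_le_mul_of_nonneg_right h3 hz0.le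
          _ ≤ 2 ^ (B + 1) := (hF o ho).2.1
          _ = 2 * 2 ^ B := by ring
      have hsub : I ⊆ Finset.range (M + 1) := by
        intro i hi
        rw [Finset.mem_range]
        have := Finset.le_max' I i hi
        omega
      have h4 : ∑ i ∈ Finset.range (M + 1), (2 : ℝ) ^ i ≤ 2 * 2 ^ M := by
        rw [geom_sum_eq (by norm_num)]
        have : (2 : ℝ) ^ (M + 1) = 2 * 2 ^ M := by ring
        rw [this]
        norm_num
      calc ∑ i ∈ I, (2 : ℝ) ^ i ≤ ∑ i ∈ Finset.range (M + 1), (2 : ℝ) ^ i :=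
            Finset.sum_le_sum_of_subset_of_nonneg hsub (fun _ _ _ => by positivity)
        _ ≤ 2 * 2 ^ M := h4
        _ ≤ 4 * 2 ^ B / z := by
            rw [le_div_iff₀ hz0]
            linarith
  rw [hsplit]
  calc ∑ i ∈ I, ∑ o' ∈ F.filter (fun o => Nat.log 2 o = i), pb b o'
      ≤ ∑ i ∈ I, 102 * R ^ 38 / 2 ^ B * 2 ^ i := Finset.sum_le_sum hterm
    _ = 102 * R ^ 38 / 2 ^ B * ∑ i ∈ I, (2 : ℝ) ^ i := by rw [Finset.mul_sum]
    _ ≤ 102 * R ^ 38 / 2 ^ B * (4 * 2 ^ B / z) :=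
        mul_le_mul_of_nonneg_left hgeo (by positivity)
    _ = 408 * R ^ 38 / z := by
        field_simp
        norm_num

end Pool.Agent.IDE
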