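import Pool.Agent.IDE.LB

set_option autoImplicit false

namespace Pool.Agent.IDE

open Finset Pool.Agent.IDS

theorem lb2_thr (K : ℕ) : ∃ B1 : ℕ, 4 ≤ B1 ∧ ∀ B : ℕ, B1 ≤ B →
    ((B : ℝ) ^ K) ^ 2 ≤ 2 ^ B ∧ 1 + K * Real.log B ≤ Real.sqrt B := by
  have h1 : ∀ᶠ B : ℕ in Filter.atTop, ((B : ℝ) ^ K) ^ 2 ≤ 2 ^ B := by
    have h := tendsto_pow_const_div_const_pow_of_one_lt (K * 2) (one_lt_two : (1 : ℝ) < 2)
    have h' := (h.eventually (gt_mem_nhds (zero_lt_one : (0 : ℝ) < 1)))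
    filter_upwards [h'] with B hB
    rw [div_lt_one (by positivity)] at hB
    rw [← pow_mul]
    exact hB.le
  have h2 : ∀ᶠ B : ℕ in Filter.atTop, 1 + K * Real.log B ≤ Real.sqrt B := by
    have hc : (0 : ℝ) < 1 / (2 * ((K : ℝ) + 1)) := by positivity
    have h := (isLittleO_log_rpow_atTop (half_pos (one_pos : (0 : ℝ) < 1))).def hc
    have h' := tendsto_natCast_atTop_atTop.eventually h
    filter_upwards [h', Filter.eventually_ge_atTop 4] with B hB hB4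
    have hB4' : (4 : ℝ) ≤ B := by exact_mod_cast hB4
    rw [Real.norm_eq_abs, Real.norm_eq_abs, ← Real.sqrt_eq_rpow, abs_of_nonneg (Real.sqrt_nonneg _),
      abs_of_nonneg (Real.log_nonneg (by linarith))] at hB
    have hs2 : (2 : ℝ) ≤ Real.sqrt B := by
      rw [show (2 : ℝ) = Real.sqrt 4 by
        rw [show (4 : ℝ) = 2 ^ 2 by norm_num, Real.sqrt_sq (by norm_num)]]
      exact Real.sqrt_le_sqrt hB4'
    have hK : (K : ℝ) * (1 / (2 * ((K : ℝ) + 1))) ≤ 1 / 2 := by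
      rw [mul_one_div, div_le_div_iff₀ (by positivity) (by norm_num)]
      linarith
    have h3 : (K : ℝ) * Real.log B ≤ (K : ℝ) * (1 / (2 * ((K : ℝ) + 1)) * Real.sqrt B) :=
      mul_le_mul_of_nonneg_left hB (by positivity)
    have h4 : (K : ℝ) * (1 / (2 * ((K : ℝ) + 1)) * Real.sqrt B) ≤ 1 / 2 * Real.sqrt B := by
      rw [← mul_assoc]
      exact mul_le_mul_of_nonneg_right hK (Real.sqrt_nonneg _)
    linarith
  obtain ⟨B1, hB1⟩ := Filter.eventually_atTop.1 (h1.and h2)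
  exact ⟨max B1 4, le_max_right _ _, fun B hB => hB1 B (le_of_max_le_left hB)⟩

theorem lb2_good {C4 : ℝ} (hC4 : 0 < C4)
    (hsv : ∀ (Γ P ω ϑ : ℝ) (F : Finset ℕ), 1 ≤ Γ → Γ ^ 8 ≤ P →
      (∀ s : ℕ, 1 ≤ s → (s : ℝ) ≤ Γ ^ ((1 : ℝ) / 16) → Γ ^ (-(1 : ℝ) / 2) / P ≤ nd (s * ω)) →
      (∀ p ∈ F, p.Prime ∧ P ≤ p ∧ (p : ℝ) < 2 * P ∧ nd (ω * p - ϑ) ≤ 1 / Γ) →
      ∑ p ∈ F, Real.log p / p ≤ C4 * Γ ^ (-(1 : ℝ) / 32))
    (γ R ϑ z : ℝ) (c1 B o' : ℕ) (ho' : 0 < o') (hR : 2 ^ 48 ≤ R) (hz : R ^ 40 ≤ z)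
    (F : Finset ℕ)
    (hF : ∀ p ∈ F, p.Prime ∧ z < (p : ℝ) ∧ 2 ^ B ≤ p * o' ∧ p * o' < 2 ^ (B + 1) ∧
      ∃ j : ℕ, 1 ≤ j ∧ (j : ℝ) ≤ R ^ ((1 : ℝ) / 64) ∧
        nd (γ * (c1 * j * (p * o' : ℕ)) - ϑ) ≤ 2 / R)
    (hns : ∀ s j : ℕ, 1 ≤ s → (s : ℝ) ≤ R ^ ((1 : ℝ) / 16) → 1 ≤ j →
      (j : ℝ) ≤ R ^ ((1 : ℝ) / 64) → 1 / (2 * TT R B o') ≤ nd ((s * j * c1 * o' : ℕ) * γ)) :
    ∑ p ∈ F, Real.log p / p ≤ 2 * C4 * R ^ (-(1 : ℝ) / 64) := by
  have hR2 : (2 : ℝ) ≤ R := le_trans (by norm_num) hR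
  have hR0 : (0 : ℝ) < R := by linarith
  rcases F.eq_empty_or_nonempty with rfl | ⟨p0, hp0⟩
  · rw [sum_empty]
    positivity
  have hoR : (0 : ℝ) < o' := by exact_mod_cast ho'
  obtain ⟨Γ, hΓ⟩ : ∃ Γ : ℝ, Γ = R / 2 := ⟨_, rfl⟩
  obtain ⟨P, hPdef⟩ : ∃ P : ℝ, P = 2 ^ B / o' := ⟨_, rfl⟩
  have hΓ1 : 1 ≤ Γ := by rw [hΓ]; linarith
  have hΓ0 : 0 < Γ := by linarith
  have hlt : ∀ p : ℕ, p * o' < 2 ^ (B + 1) → (p : ℝ) < 2 * P := by
    intro p hp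
    have h1 : (p : ℝ) * o' < 2 ^ (B + 1) := by exact_mod_cast hp
    rw [hPdef, ← mul_div_assoc, lt_div_iff₀ hoR]
    rw [pow_succ] at h1
    linarith
  have hle : ∀ p : ℕ, 2 ^ B ≤ p * o' → P ≤ (p : ℝ) := by
    intro p hp
    have h1 : (2 : ℝ) ^ B ≤ (p : ℝ) * o' := by exact_mod_cast hp
    rw [hPdef, div_le_iff₀ hoR]
    exact h1
  have hP : Γ ^ 8 ≤ P := by
    obtain ⟨-, h1, -, h2, -⟩ := hF p0 hp0
    have h3 := hlt p0 h2
    have h4 : Γ ^ 8 ≤ R ^ 8 := by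
      apply pow_le_pow_left₀ hΓ0.le
      rw [hΓ]; linarith
    have h5 : (2 : ℝ) * R ^ 8 ≤ R ^ 40 := by
      have h6 : (2 : ℝ) ≤ R ^ 32 := by
        calc (2 : ℝ) ≤ R := hR2
          _ = R ^ 1 := (pow_one R).symm
          _ ≤ R ^ 32 := pow_le_pow_right₀ (by linarith) (by norm_num)
      calc (2 : ℝ) * R ^ 8 ≤ R ^ 32 * R ^ 8 := mul_le_mul_of_nonneg_right h6 (by positivity)
        _ = R ^ 40 := by rw [← pow_add]
    linarith
  have hP0 : 0 < P := lt_of_lt_of_le (by positivity) hP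
  have key : ∀ j : ℕ, 1 ≤ j → (j : ℝ) ≤ R ^ ((1 : ℝ) / 64) →
      ∑ p ∈ F.filter (fun p : ℕ => nd (γ * (c1 * j * (p * o' : ℕ)) - ϑ) ≤ 2 / R),
        Real.log p / p ≤ C4 * Γ ^ (-(1 : ℝ) / 32) := by
    intro j hj hj2
    apply hsv Γ P (j * γ * c1 * o') ϑ _ hΓ1 hP
    · intro s hs hs2
      have hs3 : (s : ℝ) ≤ R ^ ((1 : ℝ) / 16) := hs2.trans
        (Real.rpow_le_rpow hΓ0.le (by rw [hΓ]; linarith) (by norm_num))
      have h1 := hns s j hs hs3 hj hj2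
      have e1 : (s : ℝ) * (j * γ * c1 * o') = ((s * j * c1 * o' : ℕ) : ℝ) * γ := by
        push_cast
        ring
      rw [e1]
      refine le_trans ?_ h1
      have h2 : Γ ^ (-(1 : ℝ) / 2) = (Real.sqrt Γ)⁻¹ := by
        rw [Real.sqrt_eq_rpow, ← Real.rpow_neg hΓ0.le]
        congr 1
        norm_num
      have hsq : 0 < Real.sqrt Γ := Real.sqrt_pos.2 hΓ0
      have h3 : (o' : ℝ) ≤ 2 * 2 ^ Nat.log 2 o' := by
        have := Nat.lt_pow_succ_log_self (b := 2) (by norm_num) o'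
        rw [pow_succ] at this
        have h4 : (o' : ℝ) < 2 ^ Nat.log 2 o' * 2 := by exact_mod_cast this
        linarith
      unfold TT
      rw [h2, hPdef, ← hΓ]
      rw [div_div_eq_mul_div, div_le_div_iff₀ (by positivity) (by positivity)]
      have h5 : (Real.sqrt Γ)⁻¹ * o' * (2 * (Real.sqrt Γ * 2 ^ B / (4 * 2 ^ Nat.log 2 o'))) =
          o' / (2 * 2 ^ Nat.log 2 o') * 2 ^ B := by
        field_simp
        ring
      rw [h5, one_mul]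
      have h6 : (o' : ℝ) / (2 * 2 ^ Nat.log 2 o') ≤ 1 := by
        rw [div_le_one (by positivity)]
        exact h3
      have h7 : (0 : ℝ) < 2 ^ B := by positivity
      nlinarith
    · intro p hp
      rw [mem_filter] at hp
      obtain ⟨h1, h2, h3, h4, -⟩ := hF p hp.1
      refine ⟨h1, hle p h3, hlt p h4, ?_⟩
      have e1 : (j * γ * c1 * o' : ℝ) * p - ϑ = γ * (c1 * j * (p * o' : ℕ)) - ϑ := by
        push_cast
        ring
      rw [e1, hΓ, one_div_div]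
      exact hp.2
  have hcov : ∑ p ∈ F, Real.log p / p ≤
      ∑ j ∈ Icc 1 ⌊R ^ ((1 : ℝ) / 64)⌋₊,
        ∑ p ∈ F.filter (fun p : ℕ => nd (γ * (c1 * j * (p * o' : ℕ)) - ϑ) ≤ 2 / R),
          Real.log p / p := by
    simp_rw [sum_filter]
    rw [sum_comm]
    refine sum_le_sum fun p hp => ?_
    obtain ⟨hp1, -, -, -, j, hj1, hj2, hj3⟩ := hF p hp
    have hnn : (0 : ℝ) ≤ Real.log p / p :=
      div_nonneg (Real.log_natCast_nonneg p) (Nat.cast_nonneg p)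
    have hmem : j ∈ Icc 1 ⌊R ^ ((1 : ℝ) / 64)⌋₊ := mem_Icc.2 ⟨hj1, Nat.le_floor hj2⟩
    have h1 := single_le_sum (f := fun j : ℕ =>
      if nd (γ * (c1 * j * (p * o' : ℕ)) - ϑ) ≤ 2 / R then Real.log p / p else 0)
      (fun i _ => by
        show 0 ≤ if nd (γ * (c1 * i * (p * o' : ℕ)) - ϑ) ≤ 2 / R then Real.log p / p else 0
        split_ifs
        · exact hnn
        · exact le_rfl) hmem
    simp only [if_pos hj3] at h1
    exact h1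
  have hsum : ∑ j ∈ Icc 1 ⌊R ^ ((1 : ℝ) / 64)⌋₊,
        ∑ p ∈ F.filter (fun p : ℕ => nd (γ * (c1 * j * (p * o' : ℕ)) - ϑ) ≤ 2 / R),
          Real.log p / p ≤ R ^ ((1 : ℝ) / 64) * (C4 * Γ ^ (-(1 : ℝ) / 32)) := by
    have h1 : ∀ j ∈ Icc 1 ⌊R ^ ((1 : ℝ) / 64)⌋₊,
        ∑ p ∈ F.filter (fun p : ℕ => nd (γ * (c1 * j * (p * o' : ℕ)) - ϑ) ≤ 2 / R),
          Real.log p / p ≤ C4 * Γ ^ (-(1 : ℝ) / 32) := by
      intro j hj
      rw [mem_Icc] at hj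
      exact key j hj.1 ((Nat.le_floor_iff (by positivity)).1 hj.2)
    refine (sum_le_sum h1).trans ?_
    rw [sum_const, Nat.card_Icc, nsmul_eq_mul, Nat.add_sub_cancel]
    exact mul_le_mul_of_nonneg_right (Nat.floor_le (by positivity)) (by positivity)
  have hΓR : Γ ^ (-(1 : ℝ) / 32) ≤ 2 * R ^ (-(1 : ℝ) / 32) := by
    rw [hΓ, Real.div_rpow hR0.le (by norm_num)]
    have h1 : (1 / 2 : ℝ) ≤ 2 ^ (-(1 : ℝ) / 32) := by
      have h2 := Real.rpow_le_rpow_of_exponent_le (one_le_two : (1 : ℝ) ≤ 2)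
        (show (-1 : ℝ) ≤ -(1 : ℝ) / 32 by norm_num)
      rw [Real.rpow_neg_one] at h2
      linarith
    have h3 : (0 : ℝ) < R ^ (-(1 : ℝ) / 32) := by positivity
    rw [div_le_iff₀ (by linarith)]
    nlinarith
  have hmul : R ^ ((1 : ℝ) / 64) * R ^ (-(1 : ℝ) / 32) = R ^ (-(1 : ℝ) / 64) := by
    rw [← Real.rpow_add hR0]
    congr 1
    norm_num
  calc ∑ p ∈ F, Real.log p / p ≤ R ^ ((1 : ℝ) / 64) * (C4 * Γ ^ (-(1 : ℝ) / 32)) :=
        hcov.trans hsum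
    _ ≤ R ^ ((1 : ℝ) / 64) * (C4 * (2 * R ^ (-(1 : ℝ) / 32))) := by gcongr
    _ = 2 * C4 * (R ^ ((1 : ℝ) / 64) * R ^ (-(1 : ℝ) / 32)) := by ring
    _ = 2 * C4 * R ^ (-(1 : ℝ) / 64) := by rw [hmul]

/-- [IDE-LBb] **Large `B`.**

PROOF.  Let `B1` be a constant such that `4 ≤ B` and `((B:ℝ)^20480) ≤ 2^B` and
`1 + 10240 log B ≤ √B` for `B ≥ B1`.  If `B < B1`: then `R ≤ B1^256` is bounded and the claim follows
from `anatomy` (`18/(B+1)`), with a large `C`.  Let `B ≥ B1`, `z = B^10240 ≥ R^40`, `Γ = R/2`.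
`lt` gives `∑_O pb ≤ 2000 (1 + log z)/B² + (3/B) ∑_{o'} pb b o' Σ(o')`,
`Σ(o') = ∑_{p > z, p o' ∈ O} log p/p`; the first term is `≤ 2000 B^{-1/2}/B ≤ 2000 R^{-1/512}/B`.
For `o'` let `P = 2^B/o'` (real); the primes `p` of `Σ(o')` lie in `[P, 2P)` and (if there is one)
`P > z/2 ≥ R^40/2 ≥ Γ^8`.  Always `Σ(o') ≤ 3` (`cheb_dyadic`).
(i) If `nd (s (j γ c1 o')) ≥ Γ^{-1/2}/P` for all `1 ≤ s ≤ Γ^{1/16}` and all `1 ≤ j ≤ R^{1/64}`: for every
`j` the primes `p` with `nd (γ (c1 j p o') - ϑ) ≤ 2/R = 1/Γ` contribute `≤ C Γ^{-1/32}` (`sv4` with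
`ω = j γ c1 o'`); every `p` of `Σ(o')` belongs to some `j ≤ R^{1/64}`; so
`Σ(o') ≤ C R^{1/64} Γ^{-1/32} ≤ 2C R^{-1/64}`.
(ii) Otherwise take such `s, j` with `nd (s j c1 o' γ) < Γ^{-1/2}/P = o'/(√(R/2) 2^B)
≤ 2·2^{log₂ o'}/(√(R/2) 2^B) = 1/(2 TT R B o')`.  If `Σ(o')` has a term `p`, then `p > z ≥ R²`, `p o' ∈ O` and by the
last hypothesis `s j c1 o' eta γ (TT R B o') > 1/2`.  So `o'` is as in `special_cofactors`; the sum of `pb b o'` over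
these `o'` is `≤ 408 R^38/z ≤ 408 R^{-2}`, times `3`.
Total `≤ (C'/B) R^{-1/512}` (`∑ pb b o' ≤ 1`). -/
theorem large_B :
    ∃ C : ℝ, 0 < C ∧ ∀ (γ R ϑ : ℝ) (c1 b B : ℕ) (O : Finset ℕ), 2 ^ 48 ≤ R →
      R ^ ((1 : ℝ) / 256) ≤ B → 1 ≤ c1 → (c1 : ℝ) ≤ R ^ 37 → 0 < b → O ⊆ Sq b →
      (∀ o ∈ O, 2 ^ B ≤ o ∧ o < 2 ^ (B + 1) ∧ ∃ j : ℕ, 1 ≤ j ∧ (j : ℝ) ≤ R ^ ((1 : ℝ) / 64) ∧
        nd (γ * (c1 * j * o) - ϑ) ≤ 2 / R) →
      (∀ (p o' s j : ℕ), p.Prime → R ^ 2 ≤ (p : ℝ) → p * o' ∈ O → 1 ≤ s →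
        (s : ℝ) ≤ R ^ ((1 : ℝ) / 16) → 1 ≤ j → (j : ℝ) ≤ R ^ ((1 : ℝ) / 64) →
        nd ((s * j * c1 * o' : ℕ) * γ) < 1 / (2 * TT R B o') →
        1 / 2 < ((s * j * c1 * o' : ℕ) : ℝ) * eta γ (TT R B o')) →
      ∑ o ∈ O, pb b o ≤ C * R ^ (-(1 : ℝ) / 512) / ((B : ℝ) + 1) := by
  classical
  obtain ⟨C4, hC4, hsv⟩ := sv4
  obtain ⟨K, hK⟩ : ∃ K : ℕ, K = 10240 := ⟨_, rfl⟩
  obtain ⟨B1, hB14, hB1⟩ := lb2_thr K
  refine ⟨18 * B1 + 2 * (5672 + 6 * C4), by positivity, ?_⟩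
  intro γ R ϑ c1 b B O hR hB hc1 hc2 hb hO hO2 hsp
  have hR2 : (2 : ℝ) ≤ R := le_trans (by norm_num) hR
  have hR0 : (0 : ℝ) < R := by linarith
  obtain ⟨q, hq⟩ : ∃ q : ℝ, q = R ^ ((1 : ℝ) / 512) := ⟨_, rfl⟩
  have hq1 : 1 ≤ q := by
    rw [hq]
    exact Real.one_le_rpow (by linarith) (by norm_num)
  have hq0 : 0 < q := by linarith
  have hqR : R ^ (-(1 : ℝ) / 512) = q⁻¹ := by
    rw [hq, ← Real.rpow_neg hR0.le]
    congr 1
    norm_num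
  have hpw : ∀ n : ℕ, q ^ n = R ^ ((n : ℝ) / 512) := by
    intro n
    rw [hq, ← Real.rpow_natCast, ← Real.rpow_mul hR0.le]
    congr 1
    ring
  have hq2 : R ^ ((1 : ℝ) / 256) = q ^ 2 := by
    rw [hpw]
    congr 1
    norm_num
  have hRq : R = q ^ 512 := by
    rw [hpw]
    norm_num
  have hqB : q ^ 2 ≤ (B : ℝ) := by rw [← hq2]; exact hB
  have hBR1 : (1 : ℝ) ≤ B := le_trans (one_le_pow₀ hq1) hqB
  have hBR0 : (0 : ℝ) < B := by linarith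
  rw [hqR]
  have hnn : ∀ o ∈ Sq b, 0 ≤ pb b o := fun o _ => pb_nonneg b o
  by_cases hcase : B < B1
  · have h1 : ∑ o ∈ O, pb b o ≤ 18 / ((B : ℝ) + 1) := by
      refine le_trans ?_ (anatomy b B hb)
      apply sum_le_sum_of_subset_of_nonneg
      · intro o ho
        rw [mem_filter]
        exact ⟨hO ho, (hO2 o ho).1, (hO2 o ho).2.1⟩
      · intro o _ _
        exact pb_nonneg b o
    refine h1.trans ?_
    apply div_le_div_of_nonneg_right _ (by positivity)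
    have h2 : q ≤ B1 := by
      have h3 : (B : ℝ) ≤ B1 := by exact_mod_cast hcase.le
      nlinarith
    rw [← div_eq_mul_inv, le_div_iff₀ hq0]
    nlinarith
  · have hcase' : B1 ≤ B := not_lt.1 hcase
    obtain ⟨hz2, hlog⟩ := hB1 B hcase'
    have hB4 : 4 ≤ B := hB14.trans hcase'
    obtain ⟨z, hz⟩ : ∃ z : ℝ, z = (B : ℝ) ^ K := ⟨_, rfl⟩
    rw [← hz] at hz2
    have hz1 : 1 ≤ z := by rw [hz]; exact one_le_pow₀ hBR1
    have hzR : R ^ 40 ≤ z := by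
      have h1 : R ≤ (B : ℝ) ^ 256 := by
        calc R = (q ^ 2) ^ 256 := by rw [← pow_mul]; exact hRq
          _ ≤ (B : ℝ) ^ 256 := pow_le_pow_left₀ (by positivity) hqB 256
      calc R ^ 40 ≤ ((B : ℝ) ^ 256) ^ 40 := pow_le_pow_left₀ hR0.le h1 40
        _ = z := by rw [hz, ← pow_mul, hK]
    have hz0 : 0 < z := by linarith
    have hlogz : 1 + Real.log z ≤ Real.sqrt B := by
      rw [hz, Real.log_pow]
      exact hlog
    have hmain := lt b B hb hB4 z hz1 hz2 O hO (fun o ho => ⟨(hO2 o ho).1, (hO2 o ho).2.1⟩)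
    -- first term
    have hsqB : 0 < Real.sqrt B := Real.sqrt_pos.2 hBR0
    have hsqB2 : Real.sqrt B * Real.sqrt B = B := Real.mul_self_sqrt hBR0.le
    have hqs : q ≤ Real.sqrt B := Real.le_sqrt_of_sq_le hqB
    have ht1 : 2000 * (1 + Real.log z) / (B : ℝ) ^ 2 ≤ 2000 * q⁻¹ / B := by
      have h1 : 2000 * (1 + Real.log z) / (B : ℝ) ^ 2 ≤ 2000 * Real.sqrt B / (B : ℝ) ^ 2 := by
        apply div_le_div_of_nonneg_right _ (by positivity)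
        linarith
      refine h1.trans ?_
      rw [div_le_div_iff₀ (by positivity) hBR0]
      have h2 : Real.sqrt B * q ≤ B := by nlinarith
      have h3 : Real.sqrt B ≤ q⁻¹ * B := by
        rw [← div_eq_inv_mul, le_div_iff₀ hq0]
        exact h2
      have h4 : 2000 * Real.sqrt B * B ≤ 2000 * (q⁻¹ * B) * B := by gcongr
      calc 2000 * Real.sqrt B * B ≤ 2000 * (q⁻¹ * B) * B := h4
        _ = 2000 * q⁻¹ * (B : ℝ) ^ 2 := by ring
    -- second term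
    have hOpos : ∀ o' ∈ Sq b, 0 < o' := by
      intro o' ho'
      unfold Sq at ho'
      rw [mem_filter, Nat.mem_divisors] at ho'
      exact Nat.pos_of_dvd_of_pos ho'.1.1 hb
    have hfac : ∀ o' ∈ Sq b, ∀ p ∈ b.primeFactors.filter (fun p : ℕ => p * o' ∈ O ∧ z < (p : ℝ)),
        p.Prime ∧ z < (p : ℝ) ∧ 2 ^ B ≤ p * o' ∧ p * o' < 2 ^ (B + 1) ∧
        ∃ j : ℕ, 1 ≤ j ∧ (j : ℝ) ≤ R ^ ((1 : ℝ) / 64) ∧
          nd (γ * (c1 * j * (p * o' : ℕ)) - ϑ) ≤ 2 / R := by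
      intro o' _ p hp
      rw [mem_filter] at hp
      obtain ⟨h1, h2, h3⟩ := hp
      obtain ⟨h4, h5, h6⟩ := hO2 _ h2
      exact ⟨Nat.prime_of_mem_primeFactors h1, h3, h4, h5, h6⟩
    obtain ⟨spec, hspec⟩ : ∃ spec : ℕ → Prop, ∀ o', spec o' ↔
        ∃ s j : ℕ, 1 ≤ s ∧ (s : ℝ) ≤ R ^ ((1 : ℝ) / 16) ∧ 1 ≤ j ∧ (j : ℝ) ≤ R ^ ((1 : ℝ) / 64) ∧
          nd ((s * j * c1 * o' : ℕ) * γ) < 1 / (2 * TT R B o') := ⟨_, fun _ => Iff.rfl⟩
    obtain ⟨G, hG⟩ : ∃ G : Finset ℕ,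
        G = (Sq b).filter (fun o' : ℕ => (o' : ℝ) * z ≤ (2 : ℝ) ^ (B + 1)) := ⟨_, rfl⟩
    obtain ⟨PF, hPF⟩ : ∃ PF : ℕ → Finset ℕ, ∀ o', PF o' =
        b.primeFactors.filter (fun p : ℕ => p * o' ∈ O ∧ z < (p : ℝ)) := ⟨_, fun _ => rfl⟩
    rw [← hG] at hmain
    simp_rw [← hPF] at hmain hfac
    have hGS : G ⊆ Sq b := by rw [hG]; exact filter_subset _ _
    have hq8 : R ^ (-(1 : ℝ) / 64) ≤ q⁻¹ := by
      rw [← hqR]
      exact Real.rpow_le_rpow_of_exponent_le (by linarith) (by norm_num)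
    have hterm : ∀ o' ∈ G, pb b o' * ∑ p ∈ PF o', Real.log p / p ≤
        pb b o' * (2 * C4 * q⁻¹) +
          (if spec o' ∧ (PF o').Nonempty then 3 * pb b o' else 0) := by
      intro o' ho'
      have ho1 := hGS ho'
      have hp0 := pb_nonneg b o'
      by_cases hs : spec o' ∧ (PF o').Nonempty
      · rw [if_pos hs]
        have hoR : (0 : ℝ) < o' := by exact_mod_cast hOpos o' ho1
        have h3 : ∑ p ∈ PF o', Real.log p / p ≤ 3 := by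
          apply cheb_dyadic ((2 : ℝ) ^ B / o') (by positivity)
          intro p hp
          obtain ⟨h1, -, h4, h5, -⟩ := hfac o' ho1 p hp
          have h4' : (2 : ℝ) ^ B ≤ (p : ℝ) * o' := by exact_mod_cast h4
          have h5' : (p : ℝ) * o' < 2 ^ (B + 1) := by exact_mod_cast h5
          refine ⟨h1, ?_, ?_⟩
          · rw [div_le_iff₀ hoR]; exact h4'
          · rw [← mul_div_assoc, le_div_iff₀ hoR]
            rw [pow_succ] at h5'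
            linarith
        have h6 : pb b o' * ∑ p ∈ PF o', Real.log p / p ≤ pb b o' * 3 :=
          mul_le_mul_of_nonneg_left h3 hp0
        have h7 : 0 ≤ pb b o' * (2 * C4 * q⁻¹) := by positivity
        linarith
      · rw [if_neg hs, add_zero]
        apply mul_le_mul_of_nonneg_left _ hp0
        rcases (PF o').eq_empty_or_nonempty with he | hne
        · rw [he, sum_empty]
          positivity
        · have hns : ¬ spec o' := fun h => hs ⟨h, hne⟩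
          have h8 := lb2_good hC4 hsv γ R ϑ z c1 B o' (hOpos o' ho1) hR hzR (PF o')
            (hfac o' ho1) (by
              intro s j h1 h2 h3 h4
              by_contra h5
              exact hns ((hspec o').2 ⟨s, j, h1, h2, h3, h4, not_le.1 h5⟩))
          refine h8.trans ?_
          exact mul_le_mul_of_nonneg_left hq8 (by positivity)
    have hspecial : ∑ o' ∈ G.filter (fun o' => spec o' ∧ (PF o').Nonempty), pb b o' ≤
        408 * R ^ 38 / z := by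
      have hz8 : 8 ≤ z := by
        refine le_trans ?_ hzR
        calc (8 : ℝ) ≤ 2 ^ 40 := by norm_num
          _ ≤ R ^ 40 := pow_le_pow_left₀ (by norm_num) hR2 40
      apply special_cofactors γ R z c1 b B hR2 hz8 hc1 hc2 hb
      intro o' ho'
      rw [mem_filter] at ho'
      obtain ⟨h1, h2, p, hp⟩ := ho'
      have h1' := h1
      rw [hG, mem_filter] at h1'
      refine ⟨h1'.1, h1'.2, ?_⟩
      obtain ⟨s, j, hs1, hs2, hj1, hj2, hsj⟩ := (hspec o').1 h2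
      refine ⟨s, j, hs1, hs2, hj1, hj2, hsj, ?_⟩
      obtain ⟨hp1, hp2, -, -, -⟩ := hfac o' h1'.1 p hp
      have hpO : p * o' ∈ O := by
        rw [hPF, mem_filter] at hp
        exact hp.2.1
      apply hsp p o' s j hp1 _ hpO hs1 hs2 hj1 hj2 hsj
      have h3 : R ^ 2 ≤ R ^ 40 := pow_le_pow_right₀ (by linarith) (by norm_num)
      linarith
    have hRz : 408 * R ^ 38 / z ≤ 408 * q⁻¹ := by
      rw [div_le_iff₀ hz0, mul_assoc]
      apply mul_le_mul_of_nonneg_left _ (by norm_num)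
      rw [← div_eq_inv_mul, le_div_iff₀ hq0]
      have h1 : q ≤ R := by
        rw [hRq]
        calc q = q ^ 1 := (pow_one q).symm
          _ ≤ q ^ 512 := pow_le_pow_right₀ hq1 (by norm_num)
      calc R ^ 38 * q ≤ R ^ 38 * R := mul_le_mul_of_nonneg_left h1 (by positivity)
        _ = R ^ 39 := by rw [← pow_succ]
        _ ≤ R ^ 40 := pow_le_pow_right₀ (by linarith) (by norm_num)
        _ ≤ z := hzR
    have hsum : ∑ o' ∈ G, pb b o' * ∑ p ∈ PF o', Real.log p / p ≤ (2 * C4 + 1224) * q⁻¹ := by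
      refine (sum_le_sum hterm).trans ?_
      rw [sum_add_distrib, ← sum_mul, ← sum_filter, ← mul_sum]
      have h1 : ∑ o' ∈ G, pb b o' ≤ 1 := by
        rw [← pb_sum b hb]
        exact sum_le_sum_of_subset_of_nonneg hGS fun o _ _ => pb_nonneg b o
      have h2 : (∑ o' ∈ G, pb b o') * (2 * C4 * q⁻¹) ≤ 1 * (2 * C4 * q⁻¹) :=
        mul_le_mul_of_nonneg_right h1 (by positivity)
      have h3 := hspecial.trans hRz
      calc (∑ o' ∈ G, pb b o') * (2 * C4 * q⁻¹) +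
            3 * ∑ o' ∈ G.filter (fun o' => spec o' ∧ (PF o').Nonempty), pb b o'
          ≤ 1 * (2 * C4 * q⁻¹) + 3 * (408 * q⁻¹) := by linarith
        _ = (2 * C4 + 1224) * q⁻¹ := by ring
    have hqi : 0 < q⁻¹ := inv_pos.2 hq0
    calc ∑ o ∈ O, pb b o ≤ 2000 * (1 + Real.log z) / (B : ℝ) ^ 2 +
          3 / (B : ℝ) * ∑ o' ∈ G, pb b o' * ∑ p ∈ PF o', Real.log p / p := hmain
      _ ≤ 2000 * q⁻¹ / B + 3 / (B : ℝ) * ((2 * C4 + 1224) * q⁻¹) := by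
        gcongr
      _ = (5672 + 6 * C4) * q⁻¹ / B := by ring
      _ ≤ (18 * B1 + 2 * (5672 + 6 * C4)) * q⁻¹ / ((B : ℝ) + 1) := by
        rw [div_le_div_iff₀ hBR0 (by positivity)]
        have h1 : (B : ℝ) + 1 ≤ 2 * B := by linarith
        have h2 : (5672 + 6 * C4) * q⁻¹ * ((B : ℝ) + 1) ≤ (5672 + 6 * C4) * q⁻¹ * (2 * B) :=
          mul_le_mul_of_nonneg_left h1 (by positivity)
        have h3 : 0 ≤ 18 * (B1 : ℝ) * q⁻¹ * B := by positivity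
        calc (5672 + 6 * C4) * q⁻¹ * ((B : ℝ) + 1) ≤ (5672 + 6 * C4) * q⁻¹ * (2 * B) := h2
          _ ≤ (5672 + 6 * C4) * q⁻¹ * (2 * B) + 18 * (B1 : ℝ) * q⁻¹ * B := by linarith
          _ = (18 * B1 + 2 * (5672 + 6 * C4)) * q⁻¹ * B := by ring

end Pool.Agent.IDE
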