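import Pool.Agent.IDE.PB

set_option autoImplicit false

namespace Pool.Agent.IDE

open Finset Pool.Agent.IDS

/-- the inner sum for a fixed small prime -/
theorem lt_inner (b B p : ℕ) (hb : 0 < b) (hp : 0 < p) (hB : 1 ≤ B) (hp2 : p ^ 2 ≤ 2 ^ B)
    (F : Finset ℕ) (hF : F ⊆ Sq b) (h : ∀ o ∈ F, 2 ^ B ≤ p * o ∧ p * o < 2 ^ (B + 1)) :
    ∑ o ∈ F, pb b o ≤ 72 / (B : ℝ) := by
  set i : ℕ := Nat.log 2 (2 ^ B / p) with hi
  have hpB : p ≤ 2 ^ B := le_trans (by nlinarith [sq_nonneg p]) hp2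
  have hne : 2 ^ B / p ≠ 0 := (Nat.div_pos hpB hp).ne'
  have h1 : 2 ^ i * p ≤ 2 ^ B := by
    have := Nat.pow_log_le_self 2 hne
    exact (Nat.le_div_iff_mul_le hp).1 this
  have h2 : 2 ^ B < 2 ^ (i + 1) * p := by
    have := Nat.lt_pow_succ_log_self (b := 2) (by norm_num) (2 ^ B / p)
    exact (Nat.div_lt_iff_lt_mul hp).1 this
  have hBi : B < 2 * (i + 1) := by
    have e1 : 2 ^ B * 2 ^ B < 2 ^ (2 * (i + 1)) * 2 ^ B := by
      calc 2 ^ B * 2 ^ B < (2 ^ (i + 1) * p) * (2 ^ (i + 1) * p) :=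
            Nat.mul_lt_mul_of_lt_of_lt h2 h2
        _ = 2 ^ (2 * (i + 1)) * p ^ 2 := by ring
        _ ≤ 2 ^ (2 * (i + 1)) * 2 ^ B := Nat.mul_le_mul_left _ hp2
    have e2 : 2 ^ B < 2 ^ (2 * (i + 1)) := Nat.lt_of_mul_lt_mul_right e1
    exact (Nat.pow_lt_pow_iff_right (by norm_num)).1 e2
  have hsub : F ⊆ (Sq b).filter (fun o => 2 ^ i ≤ o ∧ o < 2 ^ (i + 1)) ∪
      (Sq b).filter (fun o => 2 ^ (i + 1) ≤ o ∧ o < 2 ^ (i + 1 + 1)) := by
    intro o ho
    obtain ⟨h3, h4⟩ := h o ho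
    have h5 : 2 ^ i ≤ o := by
      have : 2 ^ i * p ≤ o * p := by rw [mul_comm o p]; exact h1.trans h3
      exact Nat.le_of_mul_le_mul_right this hp
    have h6 : o < 2 ^ (i + 1 + 1) := by
      have : o * p < 2 ^ (i + 1 + 1) * p := by
        rw [mul_comm o p]
        calc p * o < 2 ^ (B + 1) := h4
          _ = 2 * 2 ^ B := by ring
          _ ≤ 2 * (2 ^ (i + 1) * p) := by omega
          _ = 2 ^ (i + 1 + 1) * p := by ring
      exact Nat.lt_of_mul_lt_mul_right this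
    rw [Finset.mem_union, Finset.mem_filter, Finset.mem_filter]
    rcases lt_or_ge o (2 ^ (i + 1)) with h7 | h7
    · exact Or.inl ⟨hF ho, h5, h7⟩
    · exact Or.inr ⟨hF ho, h7, h6⟩
  have hBpos : (0 : ℝ) < B := by exact_mod_cast hB
  have hBi' : (B : ℝ) ≤ 2 * ((i : ℝ) + 1) := by exact_mod_cast hBi.le
  have a1 : (18 : ℝ) / ((i : ℝ) + 1) ≤ 36 / B := by
    rw [div_le_div_iff₀ (by positivity) hBpos]
    linarith
  have a2 : (18 : ℝ) / (((i + 1 : ℕ) : ℝ) + 1) ≤ 36 / B := by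
    rw [div_le_div_iff₀ (by positivity) hBpos]
    push_cast
    linarith
  calc ∑ o ∈ F, pb b o ≤ ∑ o ∈ (Sq b).filter (fun o => 2 ^ i ≤ o ∧ o < 2 ^ (i + 1)) ∪
        (Sq b).filter (fun o => 2 ^ (i + 1) ≤ o ∧ o < 2 ^ (i + 1 + 1)), pb b o :=
        Finset.sum_le_sum_of_subset_of_nonneg hsub fun o _ _ => pb_nonneg b o
    _ ≤ ∑ o ∈ (Sq b).filter (fun o => 2 ^ i ≤ o ∧ o < 2 ^ (i + 1)), pb b o +
        ∑ o ∈ (Sq b).filter (fun o => 2 ^ (i + 1) ≤ o ∧ o < 2 ^ (i + 1 + 1)), pb b o := by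
        rw [← Finset.sum_union_inter]
        have : 0 ≤ ∑ o ∈ (Sq b).filter (fun o => 2 ^ i ≤ o ∧ o < 2 ^ (i + 1)) ∩
          (Sq b).filter (fun o => 2 ^ (i + 1) ≤ o ∧ o < 2 ^ (i + 1 + 1)), pb b o :=
          Finset.sum_nonneg fun o _ => pb_nonneg b o
        linarith
    _ ≤ 18 / ((i : ℝ) + 1) + 18 / (((i + 1 : ℕ) : ℝ) + 1) :=
        add_le_add (anatomy b i hb) (anatomy b (i + 1) hb)
    _ ≤ 72 / B := by
        have : (72 : ℝ) / B = 36 / B + 36 / B := by ring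
        rw [this]
        exact add_le_add a1 a2

/-- [IDE-LT] **Logarithmic trick, large and small primes.**

PROOF.  `log_trick`, and split the inner sum in `p ≤ z` and `p > z`.  The part `p > z`: only `o'` with
`p o' < 2^(B+1)`, so `o' z ≤ 2^(B+1)`; `1/(B log 2) · 2 ≤ 3/B`.
The part `p ≤ z`: exchange the sums again:
`∑_{p ≤ z, p ∣ b} 2 log p/p ∑_{o' ∈ Sq b, 2^B ≤ p o' < 2^(B+1)} pb b o'`.  For a fixed `p ≤ z ≤ 2^{B/2}`
the numbers `o' ∈ [2^B/p, 2^{B+1}/p)` lie in two dyadic intervals `[2^i, 2^{i+1})` with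
`i ≥ B/2 - 1`, so by `anatomy` the inner sum is `≤ 2 · 18/(B/2) = 72/B`; and
`∑_{p≤z} log p/p ≤ 5 (1 + log z)` (`cheb_log`).  Total `≤ (1/(B log 2)) · 10 (1 + log z) · 72/B`. -/
theorem lt (b B : ℕ) (hb : 0 < b) (hB : 4 ≤ B) (z : ℝ) (hz : 1 ≤ z)
    (hz2 : z ^ 2 ≤ (2 : ℝ) ^ B) (O : Finset ℕ) (hO : O ⊆ Sq b)
    (h : ∀ o ∈ O, 2 ^ B ≤ o ∧ o < 2 ^ (B + 1)) :
    ∑ o ∈ O, pb b o ≤ 2000 * (1 + Real.log z) / (B : ℝ) ^ 2 +
      3 / (B : ℝ) * ∑ o' ∈ (Sq b).filter (fun o' : ℕ => (o' : ℝ) * z ≤ (2 : ℝ) ^ (B + 1)),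
        pb b o' * ∑ p ∈ b.primeFactors.filter (fun p : ℕ => p * o' ∈ O ∧ z < (p : ℝ)),
          Real.log p / p := by
  have hBpos : (0 : ℝ) < B := by exact_mod_cast (by omega : 0 < B)
  have hl2 : (0.6931 : ℝ) < Real.log 2 := by linarith [Real.log_two_gt_d9]
  have hlz : 0 ≤ Real.log z := Real.log_nonneg hz
  have hlp : ∀ p : ℕ, 0 ≤ Real.log p / p := fun p =>
    div_nonneg (Real.log_natCast_nonneg p) (Nat.cast_nonneg p)
  set U : ℝ := ∑ o' ∈ Sq b, pb b o' *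
    ∑ p ∈ b.primeFactors.filter (fun p : ℕ => p * o' ∈ O ∧ z < (p : ℝ)), Real.log p / p with hU
  set V : ℝ := ∑ o' ∈ Sq b, pb b o' *
    ∑ p ∈ b.primeFactors.filter (fun p : ℕ => p * o' ∈ O ∧ ¬ z < (p : ℝ)), Real.log p / p with hV
  have hsplit : ∑ o' ∈ Sq b, pb b o' *
      ∑ p ∈ b.primeFactors.filter (fun p => p * o' ∈ O), 2 * (Real.log p / p) = 2 * U + 2 * V := by
    rw [hU, hV, ← mul_add, ← Finset.sum_add_distrib, Finset.mul_sum]
    refine Finset.sum_congr rfl fun o' _ => ?_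
    rw [← Finset.mul_sum, ← Finset.sum_filter_add_sum_filter_not
      (b.primeFactors.filter (fun p => p * o' ∈ O)) (fun p : ℕ => z < (p : ℝ)),
      Finset.filter_filter, Finset.filter_filter]
    ring
  -- the large primes
  have hUeq : U = ∑ o' ∈ (Sq b).filter (fun o' : ℕ => (o' : ℝ) * z ≤ (2 : ℝ) ^ (B + 1)),
        pb b o' * ∑ p ∈ b.primeFactors.filter (fun p : ℕ => p * o' ∈ O ∧ z < (p : ℝ)),
          Real.log p / p := by
    rw [hU]
    refine (Finset.sum_subset (Finset.filter_subset _ _) fun o' ho' hno => ?_).symm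
    have hempty : b.primeFactors.filter (fun p : ℕ => p * o' ∈ O ∧ z < (p : ℝ)) = ∅ := by
      rw [Finset.filter_eq_empty_iff]
      rintro p hp ⟨hpO, hzp⟩
      apply hno
      rw [Finset.mem_filter]
      refine ⟨ho', ?_⟩
      have e1 := (h _ hpO).2
      have e2 : ((p * o' : ℕ) : ℝ) ≤ (2 : ℝ) ^ (B + 1) := by exact_mod_cast e1.le
      push_cast at e2
      have e3 : (o' : ℝ) * z ≤ (o' : ℝ) * p := mul_le_mul_of_nonneg_left hzp.le (Nat.cast_nonneg _)
      linarith [mul_comm (o' : ℝ) p]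
    rw [hempty]
    simp
  have hU0 : 0 ≤ U := by
    rw [hU]
    exact Finset.sum_nonneg fun o' _ => mul_nonneg (pb_nonneg b o') (Finset.sum_nonneg fun p _ => hlp p)
  -- the small primes
  have hVeq : V = ∑ p ∈ b.primeFactors.filter (fun p : ℕ => (p : ℝ) ≤ z), Real.log p / p *
      ∑ o' ∈ (Sq b).filter (fun o' => p * o' ∈ O), pb b o' := by
    rw [hV]
    have e1 : ∀ o' : ℕ, pb b o' *
        ∑ p ∈ b.primeFactors.filter (fun p : ℕ => p * o' ∈ O ∧ ¬ z < (p : ℝ)), Real.log p / p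
        = ∑ p ∈ b.primeFactors.filter (fun p : ℕ => (p : ℝ) ≤ z),
          (if p * o' ∈ O then Real.log p / p * pb b o' else 0) := by
      intro o'
      rw [← Finset.sum_filter, Finset.filter_filter, Finset.mul_sum]
      refine Finset.sum_congr ?_ fun p _ => mul_comm _ _
      ext p
      simp only [Finset.mem_filter, not_lt]
      tauto
    simp_rw [e1]
    rw [Finset.sum_comm]
    refine Finset.sum_congr rfl fun p _ => ?_
    rw [← Finset.sum_filter, Finset.mul_sum]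
  have hVle : V ≤ 5 * (1 + Real.log z) * (72 / B) := by
    rw [hVeq]
    calc ∑ p ∈ b.primeFactors.filter (fun p : ℕ => (p : ℝ) ≤ z), Real.log p / p *
          ∑ o' ∈ (Sq b).filter (fun o' => p * o' ∈ O), pb b o'
        ≤ ∑ p ∈ b.primeFactors.filter (fun p : ℕ => (p : ℝ) ≤ z), Real.log p / p * (72 / B) := by
          refine Finset.sum_le_sum fun p hp => mul_le_mul_of_nonneg_left ?_ (hlp p)
          rw [Finset.mem_filter] at hp
          have hpp : p.Prime := Nat.prime_of_mem_primeFactors hp.1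
          have hp2 : p ^ 2 ≤ 2 ^ B := by
            have e1 : ((p : ℝ)) ^ 2 ≤ (2 : ℝ) ^ B :=
              le_trans (pow_le_pow_left₀ (Nat.cast_nonneg p) hp.2 2) hz2
            exact_mod_cast e1
          refine lt_inner b B p hb hpp.pos (by omega) hp2 _ (Finset.filter_subset _ _) ?_
          intro o ho
          rw [Finset.mem_filter] at ho
          exact h _ ho.2
      _ = (∑ p ∈ b.primeFactors.filter (fun p : ℕ => (p : ℝ) ≤ z), Real.log p / p) * (72 / B) := by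
          rw [Finset.sum_mul]
      _ ≤ 5 * (1 + Real.log z) * (72 / B) := by
          refine mul_le_mul_of_nonneg_right ?_ (by positivity)
          refine cheb_log z hz _ fun p hp => ?_
          rw [Finset.mem_filter] at hp
          exact ⟨Nat.prime_of_mem_primeFactors hp.1, hp.2⟩
  have hlt := log_trick b B hb (by omega) O hO (fun o ho => (h o ho).1)
  rw [hsplit] at hlt
  rw [← hUeq]
  have hc : 1 / ((B : ℝ) * Real.log 2) ≤ (3 / 2) / B := by
    rw [div_le_div_iff₀ (by positivity) hBpos]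
    nlinarith
  have hc0 : 0 ≤ 1 / ((B : ℝ) * Real.log 2) := by positivity
  have hV0 : 0 ≤ V := by
    rw [hV]
    exact Finset.sum_nonneg fun o' _ => mul_nonneg (pb_nonneg b o') (Finset.sum_nonneg fun p _ => hlp p)
  calc ∑ o ∈ O, pb b o ≤ 1 / ((B : ℝ) * Real.log 2) * (2 * U + 2 * V) := hlt
    _ ≤ (3 / 2) / B * (2 * U + 2 * V) := mul_le_mul_of_nonneg_right hc (by positivity)
    _ = 3 / B * U + 3 / B * V := by ring
    _ ≤ 3 / B * U + 3 / B * (5 * (1 + Real.log z) * (72 / B)) := by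
        have := mul_le_mul_of_nonneg_left hVle (by positivity : (0 : ℝ) ≤ 3 / B)
        linarith
    _ = 1080 * (1 + Real.log z) / (B : ℝ) ^ 2 + 3 / B * U := by
        field_simp
        ring
    _ ≤ 2000 * (1 + Real.log z) / (B : ℝ) ^ 2 + 3 / B * U := by
        have : 1080 * (1 + Real.log z) / (B : ℝ) ^ 2 ≤ 2000 * (1 + Real.log z) / (B : ℝ) ^ 2 := by
          apply div_le_div_of_nonneg_right _ (by positivity)
          nlinarith
        linarith

end Pool.Agent.IDE
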