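import Pool.Agent.IDE.O9

set_option autoImplicit false

namespace Pool.Agent.IDE

open Finset Pool.Agent.IDS MeasureTheory

/-- the set with the divisibility condition -/
private def oS (γ : ℝ) (q : ℕ) (ρ : ℝ) (N : ℕ) (P : ℤ) (d : ℕ) : Set ℝ :=
  {x : ℝ | nd (q * x - γ) ≤ ρ ∧ ((d : ℤ) ∣ (N : ℤ) * round (q * x - γ) + P)}

private lemma o10_prod_dvd (q : ℕ) (Q T : Finset ℕ) (hQ : Q ⊆ q.primeFactors) (hT : T ⊆ Q) :
    (∏ p ∈ T, p) ∣ q := by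
  refine (Finset.prod_dvd_prod_of_subset _ _ _ (hT.trans hQ)).trans ?_
  exact Nat.prod_primeFactors_dvd q

private lemma o10_prod_pos (q : ℕ) (Q T : Finset ℕ) (hQ : Q ⊆ q.primeFactors) (hT : T ⊆ Q) :
    1 ≤ ∏ p ∈ T, p :=
  Finset.prod_pos fun p hp => (Nat.prime_of_mem_primeFactors (hQ (hT hp))).pos

private lemma o10_prod_cop (q N : ℕ) (Q T : Finset ℕ) (hQ : Q ⊆ q.primeFactors) (hT : T ⊆ Q)
    (h : ∀ p ∈ Q, ¬ p ∣ N) : Nat.Coprime (∏ p ∈ T, p) N := by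
  refine Nat.Coprime.prod_left fun p hp => ?_
  exact ((Nat.prime_of_mem_primeFactors (hQ (hT hp))).coprime_iff_not_dvd).2 (h p (hT hp))

private lemma o10_form (γ : ℝ) (q : ℕ) (ρ : ℝ) (N : ℕ) (P : ℤ) (Q T : Finset ℕ)
    (hQ : Q ⊆ q.primeFactors) (hT : T ⊆ Q) (h : ∀ p ∈ Q, ¬ p ∣ N) (h0 : 0 ≤ ρ) (h1 : ρ < 1 / 2) :
    ∃ γ' : ℝ, oS γ q ρ N P (∏ p ∈ T, p) =
      {x : ℝ | nd (((q / (∏ p ∈ T, p) : ℕ) : ℝ) * x - γ') ≤ ρ / ((∏ p ∈ T, p : ℕ) : ℝ)} :=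
  div_form γ q ρ N P _ (o10_prod_pos q Q T hQ hT) (o10_prod_dvd q Q T hQ hT)
    (o10_prod_cop q N Q T hQ hT h) h0 h1

private lemma o10_AS_empty (γ : ℝ) (q : ℕ) (ρ : ℝ) :
    {x : ℝ | nd ((q : ℝ) * x - γ) ≤ ρ} = AS γ q ρ 1 0 ∅ := by
  ext x; simp [AS]

private lemma o10_meas (γ : ℝ) (q : ℕ) (ρ : ℝ) (N : ℕ) (P : ℤ) (Q T : Finset ℕ)
    (hQ : Q ⊆ q.primeFactors) (hT : T ⊆ Q) (h : ∀ p ∈ Q, ¬ p ∣ N) (h0 : 0 ≤ ρ) (h1 : ρ < 1 / 2) :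
    MeasurableSet (oS γ q ρ N P (∏ p ∈ T, p)) := by
  obtain ⟨γ', h'⟩ := o10_form γ q ρ N P Q T hQ hT h h0 h1
  rw [h', o10_AS_empty]
  exact measurableSet_AS _ _ _ _ _ _

private lemma o10_vl_eq (A : Set ℝ) (hA : MeasurableSet A) :
    vl A = ∫ x in Set.Icc (0 : ℝ) 1, A.indicator (fun _ => (1 : ℝ)) x := by
  rw [integral_indicator_const _ hA, smul_eq_mul, mul_one, Measure.real,
    Measure.restrict_apply hA, vl]

private lemma o10_integrable (A : Set ℝ) (hA : MeasurableSet A) :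
    Integrable (A.indicator (fun _ => (1 : ℝ))) (volume.restrict (Set.Icc (0 : ℝ) 1)) :=
  (integrable_const (1 : ℝ)).indicator hA

private lemma o10_sum (Q : Finset ℕ) :
    ∑ T ∈ Q.powerset, (-1 : ℝ) ^ T.card * (1 / ((∏ p ∈ T, p : ℕ) : ℝ)) =
      ∏ p ∈ Q, (1 - 1 / (p : ℝ)) := by
  have h1 : ∀ p ∈ Q, (1 - 1 / (p : ℝ)) = (-(1 / (p : ℝ))) + 1 := fun p _ => by ring
  rw [Finset.prod_congr rfl h1, Finset.prod_add]
  refine Finset.sum_congr rfl fun T _ => ?_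
  rw [Finset.prod_const_one, mul_one, Finset.prod_neg, Nat.cast_prod, Finset.prod_div_distrib,
    Finset.prod_const_one]

/-- [IDE-O10] **Small sieving primes.**

PROOF.  By `incl_excl` for both sets (integrate the product of the two indicator functions over
`[0,1]`)
`vl (AS ∩ AS') = ∑_{T₁ ⊆ Q₁} ∑_{T₂ ⊆ Q₂} (-1)^{#T₁+#T₂} vl (S_{d₁} ∩ S'_{d₂})`, `d_i = ∏ T_i`, where by
`div_form` `S_{d₁} = {nd ((q/d₁) x - γ') ≤ ρ/d₁}` etc.  (`d₁ ∣ q` squarefree product of primes `∤ N₁`).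
`overlap2` with `D' = D/(d₁d₂)`: `lcm(q/d₁, r/d₂) ≥ lcm(q,r)/(d₁ d₂)` and
`(ρ/d₁)/(q/d₁) = ρ/q`; so each term is `4ρσ/(d₁d₂) + O(2ρσ/(d₁d₂)/D') = 4ρσ/(d₁ d₂) + O(2ρσ/D)`.  The
main terms add up to `4ρσ ∏_{Q₁} (1-1/p) ∏_{Q₂} (1-1/p)`. -/
theorem O_small (γ : ℝ) (q r : ℕ) (hq : 1 ≤ q) (hr : 1 ≤ r) (ρ σ D : ℝ) (h0 : 0 < ρ)
    (h0' : ρ < 1 / 2) (h3 : 0 < σ) (h3' : σ < 1 / 2) (hD : 0 < D)
    (hD2 : D ≤ (Nat.lcm q r : ℝ) * max (ρ / q) (σ / r))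
    (N₁ : ℕ) (P₁ : ℤ) (N₂ : ℕ) (P₂ : ℤ) (Q₁ Q₂ : Finset ℕ) (hQ₁ : Q₁ ⊆ q.primeFactors)
    (hQ₂ : Q₂ ⊆ r.primeFactors) (h₁ : ∀ p ∈ Q₁, ¬ p ∣ N₁) (h₂ : ∀ p ∈ Q₂, ¬ p ∣ N₂) :
    vl (AS γ q ρ N₁ P₁ Q₁ ∩ AS γ r σ N₂ P₂ Q₂) ≤
      4 * ρ * σ * (∏ p ∈ Q₁, (1 - 1 / (p : ℝ))) * (∏ p ∈ Q₂, (1 - 1 / (p : ℝ))) +
      2 ^ (Q₁.card + Q₂.card) * (2 * ρ * σ / D) := by
  classical
  have hpr₁ : ∀ p ∈ Q₁, p.Prime := fun p hp => Nat.prime_of_mem_primeFactors (hQ₁ hp)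
  have hpr₂ : ∀ p ∈ Q₂, p.Prime := fun p hp => Nat.prime_of_mem_primeFactors (hQ₂ hp)
  set d : Finset ℕ → ℕ := fun T => ∏ p ∈ T, p with hd
  have hmA := measurableSet_AS γ q ρ N₁ P₁ Q₁
  have hmB := measurableSet_AS γ r σ N₂ P₂ Q₂
  -- the measure as a double sum
  have e1 : vl (AS γ q ρ N₁ P₁ Q₁ ∩ AS γ r σ N₂ P₂ Q₂) =
      ∑ T ∈ Q₁.powerset, ∑ T' ∈ Q₂.powerset, ((-1 : ℝ) ^ T.card * (-1 : ℝ) ^ T'.card) *
        vl (oS γ q ρ N₁ P₁ (d T) ∩ oS γ r σ N₂ P₂ (d T')) := by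
    rw [o10_vl_eq _ (hmA.inter hmB)]
    have e2 : ∀ x : ℝ, (AS γ q ρ N₁ P₁ Q₁ ∩ AS γ r σ N₂ P₂ Q₂).indicator (fun _ => (1 : ℝ)) x =
        ∑ T ∈ Q₁.powerset, ∑ T' ∈ Q₂.powerset, ((-1 : ℝ) ^ T.card * (-1 : ℝ) ^ T'.card) *
          (oS γ q ρ N₁ P₁ (d T) ∩ oS γ r σ N₂ P₂ (d T')).indicator (fun _ => (1 : ℝ)) x := by
      intro x
      have e3 : ∀ A B : Set ℝ, (A ∩ B).indicator (fun _ => (1 : ℝ)) x =
          A.indicator (fun _ => (1 : ℝ)) x * B.indicator (fun _ => (1 : ℝ)) x := by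
        intro A B
        by_cases hA : x ∈ A <;> by_cases hB : x ∈ B <;> simp [hA, hB]
      rw [e3, incl_excl γ q ρ N₁ P₁ Q₁ hpr₁ x, incl_excl γ r σ N₂ P₂ Q₂ hpr₂ x,
        Finset.sum_mul_sum]
      refine Finset.sum_congr rfl fun T _ => Finset.sum_congr rfl fun T' _ => ?_
      rw [e3]
      simp only [oS, hd]
      ring
    simp_rw [e2]
    rw [integral_finsetSum]
    · refine Finset.sum_congr rfl fun T hT => ?_
      rw [integral_finsetSum]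
      · refine Finset.sum_congr rfl fun T' hT' => ?_
        rw [integral_const_mul, o10_vl_eq]
        exact (o10_meas γ q ρ N₁ P₁ Q₁ T hQ₁ (mem_powerset.1 hT) h₁ h0.le h0').inter
          (o10_meas γ r σ N₂ P₂ Q₂ T' hQ₂ (mem_powerset.1 hT') h₂ h3.le h3')
      · intro T' hT'
        exact (o10_integrable _
          ((o10_meas γ q ρ N₁ P₁ Q₁ T hQ₁ (mem_powerset.1 hT) h₁ h0.le h0').inter
          (o10_meas γ r σ N₂ P₂ Q₂ T' hQ₂ (mem_powerset.1 hT') h₂ h3.le h3'))).const_mul _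
    · intro T hT
      refine integrable_finsetSum _ fun T' hT' => ?_
      exact (o10_integrable _
        ((o10_meas γ q ρ N₁ P₁ Q₁ T hQ₁ (mem_powerset.1 hT) h₁ h0.le h0').inter
        (o10_meas γ r σ N₂ P₂ Q₂ T' hQ₂ (mem_powerset.1 hT') h₂ h3.le h3'))).const_mul _
  -- every term
  have e4 : ∀ T ∈ Q₁.powerset, ∀ T' ∈ Q₂.powerset,
      |vl (oS γ q ρ N₁ P₁ (d T) ∩ oS γ r σ N₂ P₂ (d T')) -
        4 * ρ * σ * ((1 / (d T : ℝ)) * (1 / (d T' : ℝ)))| ≤ 2 * ρ * σ / D := by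
    intro T hT T' hT'
    rw [mem_powerset] at hT hT'
    obtain ⟨γ₁, hγ₁⟩ := o10_form γ q ρ N₁ P₁ Q₁ T hQ₁ hT h₁ h0.le h0'
    obtain ⟨γ₂, hγ₂⟩ := o10_form γ r σ N₂ P₂ Q₂ T' hQ₂ hT' h₂ h3.le h3'
    have p1 : 1 ≤ d T := o10_prod_pos q Q₁ T hQ₁ hT
    have p2 : 1 ≤ d T' := o10_prod_pos r Q₂ T' hQ₂ hT'
    have v1 : d T ∣ q := o10_prod_dvd q Q₁ T hQ₁ hT
    have v2 : d T' ∣ r := o10_prod_dvd r Q₂ T' hQ₂ hT'
    have q1 : 1 ≤ q / d T := Nat.div_pos (Nat.le_of_dvd hq v1) p1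
    have q2 : 1 ≤ r / d T' := Nat.div_pos (Nat.le_of_dvd hr v2) p2
    have r1 : (1 : ℝ) ≤ d T := by exact_mod_cast p1
    have r2 : (1 : ℝ) ≤ d T' := by exact_mod_cast p2
    have r1' : (0 : ℝ) < d T := by linarith
    have r2' : (0 : ℝ) < d T' := by linarith
    have hqr : (0 : ℝ) < q := by exact_mod_cast hq
    have hrr : (0 : ℝ) < r := by exact_mod_cast hr
    have c1 : ((q / d T : ℕ) : ℝ) = q / d T := Nat.cast_div v1 r1'.ne'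
    have c2 : ((r / d T' : ℕ) : ℝ) = r / d T' := Nat.cast_div v2 r2'.ne'
    have l1 : Nat.lcm q r ∣ Nat.lcm (q / d T) (r / d T') * (d T * d T') := by
      refine Nat.lcm_dvd ?_ ?_
      · calc q = (q / d T) * d T := (Nat.div_mul_cancel v1).symm
          _ ∣ Nat.lcm (q / d T) (r / d T') * (d T * d T') :=
            mul_dvd_mul (Nat.dvd_lcm_left _ _) (dvd_mul_right _ _)
      · calc r = (r / d T') * d T' := (Nat.div_mul_cancel v2).symm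
          _ ∣ Nat.lcm (q / d T) (r / d T') * (d T * d T') :=
            mul_dvd_mul (Nat.dvd_lcm_right _ _) (dvd_mul_left _ _)
    have l2 : (Nat.lcm q r : ℝ) ≤ (Nat.lcm (q / d T) (r / d T') : ℝ) * ((d T : ℝ) * d T') := by
      have l3 : 0 < Nat.lcm (q / d T) (r / d T') * (d T * d T') :=
        Nat.mul_pos (Nat.lcm_pos q1 q2) (Nat.mul_pos p1 p2)
      exact_mod_cast Nat.le_of_dvd l3 l1
    have m1 : (ρ / (d T : ℝ)) / ((q / d T : ℕ) : ℝ) = ρ / q := by rw [c1]; field_simp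
    have m2 : (σ / (d T' : ℝ)) / ((r / d T' : ℕ) : ℝ) = σ / r := by rw [c2]; field_simp
    have hmax : 0 < max (ρ / q) (σ / r) := lt_max_of_lt_left (by positivity)
    have key := overlap2 γ₁ γ₂ (q / d T) (r / d T') (ρ / d T) (σ / d T') (D / ((d T : ℝ) * d T'))
      q1 q2 (by positivity) (by
        rw [div_lt_iff₀ r1']; nlinarith) (by positivity) (by
        rw [div_lt_iff₀ r2']; nlinarith) (by positivity) (by
        rw [m1, m2, div_le_iff₀ (by positivity)]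
        calc D ≤ (Nat.lcm q r : ℝ) * max (ρ / q) (σ / r) := hD2
          _ ≤ (Nat.lcm (q / d T) (r / d T') : ℝ) * ((d T : ℝ) * d T') * max (ρ / q) (σ / r) :=
            mul_le_mul_of_nonneg_right l2 hmax.le
          _ = _ := by ring)
    rw [hγ₁, hγ₂]
    have n1 : 4 * (ρ / (d T : ℝ)) * (σ / (d T' : ℝ)) =
        4 * ρ * σ * ((1 / (d T : ℝ)) * (1 / (d T' : ℝ))) := by
      field_simp
    have n2 : 2 * (ρ / (d T : ℝ)) * (σ / (d T' : ℝ)) / (D / ((d T : ℝ) * d T')) =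
        2 * ρ * σ / D := by
      field_simp
    rw [n1, n2] at key
    exact key
  have hsgn : ∀ n : ℕ, |(-1 : ℝ) ^ n| = 1 := fun n => by rw [abs_pow, abs_neg, abs_one, one_pow]
  have e5 : ∀ T ∈ Q₁.powerset, ∀ T' ∈ Q₂.powerset,
      ((-1 : ℝ) ^ T.card * (-1 : ℝ) ^ T'.card) *
        vl (oS γ q ρ N₁ P₁ (d T) ∩ oS γ r σ N₂ P₂ (d T')) ≤
      4 * ρ * σ * (((-1 : ℝ) ^ T.card * (1 / (d T : ℝ))) *
        ((-1 : ℝ) ^ T'.card * (1 / (d T' : ℝ)))) + 2 * ρ * σ / D := by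
    intro T hT T' hT'
    have f1 := e4 T hT T' hT'
    have f2 : ((-1 : ℝ) ^ T.card * (-1 : ℝ) ^ T'.card) *
        (vl (oS γ q ρ N₁ P₁ (d T) ∩ oS γ r σ N₂ P₂ (d T')) -
        4 * ρ * σ * ((1 / (d T : ℝ)) * (1 / (d T' : ℝ)))) ≤ 2 * ρ * σ / D := by
      refine (le_abs_self _).trans ?_
      rw [abs_mul, abs_mul, hsgn, hsgn, one_mul, one_mul]
      exact f1
    have f3 : ((-1 : ℝ) ^ T.card * (-1 : ℝ) ^ T'.card) *
        (vl (oS γ q ρ N₁ P₁ (d T) ∩ oS γ r σ N₂ P₂ (d T')) -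
        4 * ρ * σ * ((1 / (d T : ℝ)) * (1 / (d T' : ℝ)))) =
        ((-1 : ℝ) ^ T.card * (-1 : ℝ) ^ T'.card) *
          vl (oS γ q ρ N₁ P₁ (d T) ∩ oS γ r σ N₂ P₂ (d T')) -
        4 * ρ * σ * (((-1 : ℝ) ^ T.card * (1 / (d T : ℝ))) *
          ((-1 : ℝ) ^ T'.card * (1 / (d T' : ℝ)))) := by ring
    rw [f3] at f2
    linarith
  rw [e1]
  refine (Finset.sum_le_sum fun T hT => Finset.sum_le_sum fun T' hT' => e5 T hT T' hT').trans ?_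
  simp_rw [Finset.sum_add_distrib, ← Finset.mul_sum]
  rw [← Finset.sum_mul, o10_sum, o10_sum]
  simp only [Finset.sum_const, card_powerset, nsmul_eq_mul]
  push_cast
  rw [pow_add]
  apply le_of_eq
  ring

/-- [IDE-O10] **Measure of a target set.**

PROOF.  `averaging`-type argument or `incl_excl`: `vl (AS) = ∑_T (-1)^{#T} 2ρ/d_T = 2ρ ∏ (1-1/p)`, by
`div_form` and `vl_empty_Q`-type volumes (`volume_EE`). -/
theorem vl_AS (γ : ℝ) (q : ℕ) (hq : 1 ≤ q) (ρ : ℝ) (h0 : 0 ≤ ρ) (h0' : ρ < 1 / 2) (N : ℕ) (P : ℤ)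
    (Q : Finset ℕ) (hQ : Q ⊆ q.primeFactors) (h : ∀ p ∈ Q, ¬ p ∣ N) :
    vl (AS γ q ρ N P Q) = 2 * ρ * ∏ p ∈ Q, (1 - 1 / (p : ℝ)) := by
  classical
  have hpr : ∀ p ∈ Q, p.Prime := fun p hp => Nat.prime_of_mem_primeFactors (hQ hp)
  rw [o10_vl_eq _ (measurableSet_AS γ q ρ N P Q)]
  have e2 : ∀ x : ℝ, (AS γ q ρ N P Q).indicator (fun _ => (1 : ℝ)) x =
      ∑ T ∈ Q.powerset, (-1 : ℝ) ^ T.card *
        (oS γ q ρ N P (∏ p ∈ T, p)).indicator (fun _ => (1 : ℝ)) x :=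
    fun x => incl_excl γ q ρ N P Q hpr x
  simp_rw [e2]
  rw [integral_finsetSum, ← o10_sum, Finset.mul_sum]
  · refine Finset.sum_congr rfl fun T hT => ?_
    rw [mem_powerset] at hT
    have p1 : 1 ≤ ∏ p ∈ T, p := o10_prod_pos q Q T hQ hT
    have v1 : (∏ p ∈ T, p) ∣ q := o10_prod_dvd q Q T hQ hT
    have q1 : 1 ≤ q / ∏ p ∈ T, p := Nat.div_pos (Nat.le_of_dvd hq v1) p1
    have r1 : (1 : ℝ) ≤ ((∏ p ∈ T, p : ℕ) : ℝ) := by exact_mod_cast p1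
    obtain ⟨γ₁, hγ₁⟩ := o10_form γ q ρ N P Q T hQ hT h h0 h0'
    rw [integral_const_mul, ← o10_vl_eq _ (o10_meas γ q ρ N P Q T hQ hT h h0 h0'), hγ₁,
      o10_AS_empty, vl_empty_Q _ _ _ _ _ q1 (by positivity) ?_]
    · ring
    · rw [div_le_iff₀ (by linarith)]; nlinarith
  · intro T hT
    rw [mem_powerset] at hT
    exact (o10_integrable _ (o10_meas γ q ρ N P Q T hQ hT h h0 h0')).const_mul _

end Pool.Agent.IDE
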