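import Pool.Agent.IDE.O3

set_option autoImplicit false

namespace Pool.Agent.IDE

open Finset Pool.Agent.IDS MeasureTheory

theorem o4_exists (p : ℕ) (hp : p.Prime) (u A : ℤ) (hA : ¬ (p : ℤ) ∣ A) :
    ∃ l ∈ range p, (p : ℤ) ∣ u + A * (l : ℤ) := by
  have := Fact.mk hp
  have hA' : ((A : ℤ) : ZMod p) ≠ 0 := by
    intro h
    exact hA ((ZMod.intCast_zmod_eq_zero_iff_dvd A p).1 h)
  refine ⟨(-(u : ZMod p) * ((A : ℤ) : ZMod p)⁻¹).val, Finset.mem_range.2 (ZMod.val_lt _), ?_⟩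
  rw [← ZMod.intCast_zmod_eq_zero_iff_dvd]
  push_cast
  rw [ZMod.natCast_zmod_val]
  field_simp
  ring

theorem o4_factor (t L : ℝ) (ht0 : 0 < t) (ht : t ≤ 1 / 2) (a b c c' h : Prop)
    [Decidable a] [Decidable b] [Decidable (c ∨ c')] [Decidable ((a ∧ b) ∧ h)]
    (hL1 : L ≤ 1) (hcc : ¬ (c ∧ c')) (h1 : a → ¬ c → L ≤ 1 - t) (h2 : b → ¬ c' → L ≤ 1 - t)
    (h3 : a → b → ¬ c → ¬ c' → ¬ h → L ≤ 1 - 2 * t) :
    L ≤ (if a then 1 - t else 1) * (if b then 1 - t else 1) * (if c ∨ c' then (1 - t)⁻¹ else 1) *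
      (if (a ∧ b) ∧ h then (1 - t)⁻¹ else 1) := by
  have hs : 0 < 1 - t := by linarith
  have hi : (1 - t) * (1 - t)⁻¹ = 1 := mul_inv_cancel₀ hs.ne'
  have hi1 : 1 ≤ (1 - t)⁻¹ := by
    rw [one_le_inv₀ hs]
    linarith
  have hE : 1 ≤ (if (a ∧ b) ∧ h then (1 - t)⁻¹ else 1) := by
    split_ifs
    · exact hi1
    · exact le_rfl
  by_cases hc : c ∨ c'
  · -- the factor (1 - t)⁻¹ is present
    have hkey : L ≤ (if a then 1 - t else 1) * (if b then 1 - t else 1) * (1 - t)⁻¹ := by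
      rcases hc with hc | hc
      · have hc' : ¬ c' := fun h' => hcc ⟨hc, h'⟩
        by_cases hb : b
        · have hL := h2 hb hc'
          rw [if_pos hb]
          by_cases ha : a
          · rw [if_pos ha, mul_assoc, hi, mul_one]
            exact hL
          · rw [if_neg ha, one_mul, hi]
            exact hL1
        · rw [if_neg hb, mul_one]
          by_cases ha : a
          · rw [if_pos ha, hi]
            exact hL1
          · rw [if_neg ha, one_mul]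
            exact hL1.trans hi1
      · have hc' : ¬ c := fun h' => hcc ⟨h', hc⟩
        by_cases ha : a
        · have hL := h1 ha hc'
          rw [if_pos ha]
          by_cases hb : b
          · rw [if_pos hb, mul_assoc, hi, mul_one]
            exact hL
          · rw [if_neg hb, mul_one, hi]
            exact hL1
        · rw [if_neg ha, one_mul]
          by_cases hb : b
          · rw [if_pos hb, hi]
            exact hL1
          · rw [if_neg hb, one_mul]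
            exact hL1.trans hi1
    rw [if_pos hc]
    refine hkey.trans (le_mul_of_one_le_right ?_ hE)
    have e1 : 0 ≤ (if a then 1 - t else 1) := by split_ifs <;> linarith
    have e2 : 0 ≤ (if b then 1 - t else 1) := by split_ifs <;> linarith
    have e3 : 0 ≤ (1 - t)⁻¹ := by positivity
    positivity
  · rw [if_neg hc, mul_one]
    have hc1 : ¬ c := fun h' => hc (Or.inl h')
    have hc2 : ¬ c' := fun h' => hc (Or.inr h')
    by_cases ha : a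
    · by_cases hb : b
      · by_cases hh : h
        · rw [if_pos ha, if_pos hb, if_pos ⟨⟨ha, hb⟩, hh⟩, mul_assoc, hi, mul_one]
          exact h1 ha hc1
        · have hn : ¬ ((a ∧ b) ∧ h) := fun h' => hh h'.2
          rw [if_pos ha, if_pos hb, if_neg hn, mul_one]
          have := h3 ha hb hc1 hc2 hh
          nlinarith [sq_nonneg t]
      · have hn : ¬ ((a ∧ b) ∧ h) := fun h' => hb h'.1.2
        rw [if_pos ha, if_neg hb, if_neg hn, mul_one, mul_one]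
        exact h1 ha hc1
    · have hn : ¬ ((a ∧ b) ∧ h) := fun h' => ha h'.1.1
      rw [if_neg ha, if_neg hn, mul_one, one_mul]
      by_cases hb : b
      · rw [if_pos hb]
        exact h2 hb hc2
      · rw [if_neg hb]
        exact hL1

theorem o4_prod {z : ℝ} (U : Finset ℕ) (hU : ∀ p ∈ U, z < (p : ℝ)) (Q : Finset ℕ) (R : ℕ → Prop)
    (hQ : ∀ p ∈ Q, z < (p : ℝ) → R p → p ∈ U) (f : ℕ → ℝ) (s : Finset ℕ)
    (hs : ∀ p, p ∈ s ↔ p ∈ Q ∧ z < (p : ℝ) ∧ R p) [DecidablePred (fun p => p ∈ Q ∧ R p)] :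
    ∏ p ∈ s, f p = ∏ p ∈ U, (if p ∈ Q ∧ R p then f p else 1) := by
  rw [← Finset.prod_filter]
  refine Finset.prod_congr ?_ (fun _ _ => rfl)
  ext p
  rw [hs, Finset.mem_filter]
  constructor
  · rintro ⟨h1, h2, h3⟩
    exact ⟨hQ p h1 h2 h3, h1, h3⟩
  · rintro ⟨h1, h2, h3⟩
    exact ⟨h2, hU p h1, h3⟩

theorem o4_symm (z : ℝ) (q r : ℕ) (hq : 1 ≤ q) (hr : 1 ≤ r) :
    (∀ p : ℕ, p.Prime → z < p → (p ∣ r / zp z (Nat.gcd q r) ↔ p ∣ rd r q)) ∧
      (∀ p : ℕ, p.Prime → (p : ℝ) ≤ z → p ∣ r → p ∣ r / zp z (Nat.gcd q r)) := by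
  have h := zp_facts z r q hr hq
  rw [Nat.gcd_comm] at h
  exact ⟨h.2.2.2.1, h.2.2.2.2⟩

theorem o4_bal (q r G : ℕ) (hG : 1 ≤ G) (h : G ∣ Nat.gcd q r) :
    rd r q * (q / G) = rd q r * (r / G) := by
  have h1 : G ∣ q := h.trans (Nat.gcd_dvd_left q r)
  have h2 : G ∣ r := h.trans (Nat.gcd_dvd_right q r)
  have h3 : q * rd r q = r * rd q r := rd_mul r q
  obtain ⟨q', rfl⟩ := h1
  obtain ⟨r', rfl⟩ := h2
  have hG' : 0 < G := hG
  rw [Nat.mul_div_cancel_left _ hG', Nat.mul_div_cancel_left _ hG']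
  have h4 : G * (q' * rd (G * r') (G * q')) = G * (r' * rd (G * q') (G * r')) := by
    rw [← mul_assoc, ← mul_assoc]
    exact h3
  have h5 := Nat.eq_of_mul_eq_mul_left hG' h4
  rw [mul_comm, h5, mul_comm]

/-- [IDE-O4] **Pointwise count of the good shifts.**  `G = zp z (gcd q r)`, `m = rd q r`,
`m' = rd r q`, `u = N₁ round (q x - γ) + P₁`, `u' = N₂ round (r x - γ) + P₂`.

PROOF.  By `shift_round` the conditions for the shift by `l/G` are `p ∤ u + N₁ (q/G) l` (`p ∈ Q₁`) and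
`p ∤ u' + N₂ (r/G) l` (`p ∈ Q₂`).  Let `𝒫` be the set of the primes `p > z` with `p ∣ gcd q r`.  For
`p ∈ 𝒫` let `bad p` = the set of the residues `l mod p` for which [`p ∈ Q₁`, `p ∤ m` and
`p ∣ u + N₁ (q/G) l`] or [`p ∈ Q₂`, `p ∤ m'` and `p ∣ u' + N₂ (r/G) l`].  If `p ∈ Q₁`, `p ∤ m`, then
`N₁ (q/G)` is invertible mod `p` (`zp_facts`), so this gives exactly one residue; the same for `Q₂`,
`p ∤ m'`; if both occur, the two residues are equal iff `p ∣ H` (`H = N₂ m' u - N₁ m u'`: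
the residues are `-u/(N₁ m g')`, `-u'/(N₂ m' g')` with `g' = g/G`, `q/G = m g'`, `r/G = m' g'`).
`crt_count`: the count is `≤ G ∏_{p∈𝒫} (1 - #bad p/p)`.
Compare factor by factor with the right hand side `∏_p F_p` over all primes `p > z`:
`F_p = (1-1/p)^{[p∈Q₁] + [p∈Q₂] - [p ∣ m m'] - [p ∈ Q₁∩Q₂, p ∣ H]}`; claim `1 - #bad p/p ≤ F_p`
(`#bad p = 0` if `p ∉ 𝒫`):
* `p ∤ m m'`: `p ∈ Q₁` or `p ∈ Q₂` implies `p ∈ 𝒫` (`p ∣ q = m g`).  In both, `p ∤ H`: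
  `1 - 2/p ≤ (1-1/p)²`; in both, `p ∣ H`: `1 - 1/p = F_p`; in exactly one: `1 - 1/p = F_p`; none: `1`.
* `p ∣ m` (then `p ∤ m'`): `F_p ≥ (1-1/p)^{[p∈Q₂] + [p∈Q₁] - 1}`; if `p ∈ Q₂` then `p ∣ r = m' g`, so
  `p ∣ g`, `p ∈ 𝒫` and `#bad p = 1`: `1 - 1/p ≤ F_p`; if `p ∉ Q₂`: `1 ≤ F_p`.
* `p ∣ m'`: symmetric. -/
theorem shift_count (γ : ℝ) (z : ℝ) (q r : ℕ) (hq : 1 ≤ q) (hr : 1 ≤ r) (ρ σ : ℝ)
    (N₁ : ℕ) (P₁ : ℤ) (N₂ : ℕ) (P₂ : ℤ) (Q₁ Q₂ : Finset ℕ) (hQ₁ : Q₁ ⊆ q.primeFactors)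
    (hQ₂ : Q₂ ⊆ r.primeFactors) (h₁ : ∀ p ∈ Q₁, ¬ p ∣ N₁) (h₂ : ∀ p ∈ Q₂, ¬ p ∣ N₂) (x : ℝ) :
    (Set.ncard {l : ℕ | l ∈ range (zp z (Nat.gcd q r)) ∧
      x + (l : ℝ) / (zp z (Nat.gcd q r) : ℕ) ∈ AS γ q ρ N₁ P₁ Q₁ ∩ AS γ r σ N₂ P₂ Q₂} : ℝ) ≤
      PZ z Q₁ * PZ z Q₂ * IZ z (rd q r * rd r q) * EZ z (Q₁ ∩ Q₂) (HH γ q r N₁ P₁ N₂ P₂ x) *
      (zp z (Nat.gcd q r) : ℕ) := by
  classical
  obtain ⟨hG1, hGd, hGp, hGq, -⟩ := zp_facts z q r hq hr
  obtain ⟨hGr, -⟩ := o4_symm z q r hq hr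
  set G := zp z (Nat.gcd q r) with hGdef
  set m := rd q r with hm
  set m' := rd r q with hm'
  have hGq' : G ∣ q := hGd.trans (Nat.gcd_dvd_left q r)
  have hGr' : G ∣ r := hGd.trans (Nat.gcd_dvd_right q r)
  have hbal : m' * (q / G) = m * (r / G) := o4_bal q r G hG1 hGd
  have hgpos : Nat.gcd q r ≠ 0 := by
    intro h0
    have := (Nat.gcd_eq_zero_iff.1 h0).1
    omega
  have hqm : m * Nat.gcd q r = q := rd_mul_gcd q r
  have hrm : m' * Nat.gcd q r = r := by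
    have := rd_mul_gcd r q
    rwa [Nat.gcd_comm] at this
  have hcop : Nat.Coprime m m' := rd_coprime hq
  have hmpos : 0 < m := rd_pos hq
  have hmpos' : 0 < m' := rd_pos hr
  set u : ℤ := (N₁ : ℤ) * round ((q : ℝ) * x - γ) + P₁ with hu
  set u' : ℤ := (N₂ : ℤ) * round ((r : ℝ) * x - γ) + P₂ with hu'
  set A : ℤ := (N₁ : ℤ) * ((q / G : ℕ) : ℤ) with hA
  set A' : ℤ := (N₂ : ℤ) * ((r / G : ℕ) : ℤ) with hA'
  set H : ℤ := HH γ q r N₁ P₁ N₂ P₂ x with hH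
  have hHeq : H = (N₂ : ℤ) * m' * u - (N₁ : ℤ) * m * u' := rfl
  set PP : Finset ℕ := (Nat.gcd q r).primeFactors.filter (fun p : ℕ => z < (p : ℝ)) with hPP
  have hmemPP : ∀ p : ℕ, p.Prime → z < (p : ℝ) → p ∣ Nat.gcd q r → p ∈ PP := by
    intro p hp hz hd
    rw [hPP, Finset.mem_filter, Nat.mem_primeFactors]
    exact ⟨⟨hp, hd, hgpos⟩, hz⟩
  have hPPprime : ∀ p ∈ PP, p.Prime ∧ p ∣ Nat.gcd q r ∧ z < (p : ℝ) := by
    intro p hp
    rw [hPP, Finset.mem_filter, Nat.mem_primeFactors] at hp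
    exact ⟨hp.1.1, hp.1.2.1, hp.2⟩
  let bad : ℕ → Finset ℕ := fun p => (range p).filter (fun l =>
    (p ∈ Q₁ ∧ ¬ p ∣ m ∧ (p : ℤ) ∣ u + A * (l : ℤ)) ∨
    (p ∈ Q₂ ∧ ¬ p ∣ m' ∧ (p : ℤ) ∣ u' + A' * (l : ℤ)))
  have hbadsub : ∀ p ∈ PP, bad p ⊆ range p := fun p _ => Finset.filter_subset _ _
  have hcrt := crt_count G hG1 PP (fun p hp => ⟨(hPPprime p hp).1,
    (hGp p (hPPprime p hp).1).2 ⟨(hPPprime p hp).2.1, (hPPprime p hp).2.2⟩⟩) bad hbadsub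
  -- primes of Q₁, Q₂
  have hQ1p : ∀ p ∈ Q₁, p.Prime ∧ p ∣ q := fun p hp =>
    ⟨Nat.prime_of_mem_primeFactors (hQ₁ hp), Nat.dvd_of_mem_primeFactors (hQ₁ hp)⟩
  have hQ2p : ∀ p ∈ Q₂, p.Prime ∧ p ∣ r := fun p hp =>
    ⟨Nat.prime_of_mem_primeFactors (hQ₂ hp), Nat.dvd_of_mem_primeFactors (hQ₂ hp)⟩
  have hg1 : ∀ p ∈ Q₁, ¬ p ∣ m → p ∣ Nat.gcd q r := by
    intro p hp hpm
    have h1 := (hQ1p p hp).2
    rw [← hqm] at h1
    exact ((hQ1p p hp).1.dvd_mul.1 h1).resolve_left hpm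
  have hg2 : ∀ p ∈ Q₂, ¬ p ∣ m' → p ∣ Nat.gcd q r := by
    intro p hp hpm
    have h1 := (hQ2p p hp).2
    rw [← hrm] at h1
    exact ((hQ2p p hp).1.dvd_mul.1 h1).resolve_left hpm
  have hAnd : ∀ p ∈ Q₁, z < (p : ℝ) → ¬ p ∣ m → ¬ (p : ℤ) ∣ A := by
    intro p hp hz hpm hd
    have hpp := (hQ1p p hp).1
    rw [hA] at hd
    have hd' : p ∣ N₁ * (q / G) := by exact_mod_cast hd
    rcases hpp.dvd_mul.1 hd' with h1 | h1
    · exact h₁ p hp h1
    · exact hpm ((hGq p hpp hz).1 h1)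
  have hAnd' : ∀ p ∈ Q₂, z < (p : ℝ) → ¬ p ∣ m' → ¬ (p : ℤ) ∣ A' := by
    intro p hp hz hpm hd
    have hpp := (hQ2p p hp).1
    rw [hA'] at hd
    have hd' : p ∣ N₂ * (r / G) := by exact_mod_cast hd
    rcases hpp.dvd_mul.1 hd' with h1 | h1
    · exact h₂ p hp h1
    · exact hpm ((hGr p hpp hz).1 h1)
  -- lower bounds for the number of bad residues
  have hb1 : ∀ p ∈ Q₁, z < (p : ℝ) → ¬ p ∣ m → 1 ≤ (bad p).card := by
    intro p hp hz hpm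
    obtain ⟨l, hl, hl2⟩ := o4_exists p (hQ1p p hp).1 u A (hAnd p hp hz hpm)
    exact Finset.card_pos.2 ⟨l, Finset.mem_filter.2 ⟨hl, Or.inl ⟨hp, hpm, hl2⟩⟩⟩
  have hb2 : ∀ p ∈ Q₂, z < (p : ℝ) → ¬ p ∣ m' → 1 ≤ (bad p).card := by
    intro p hp hz hpm
    obtain ⟨l, hl, hl2⟩ := o4_exists p (hQ2p p hp).1 u' A' (hAnd' p hp hz hpm)
    exact Finset.card_pos.2 ⟨l, Finset.mem_filter.2 ⟨hl, Or.inr ⟨hp, hpm, hl2⟩⟩⟩
  have hb3 : ∀ p ∈ Q₁, p ∈ Q₂ → z < (p : ℝ) → ¬ p ∣ m → ¬ p ∣ m' → ¬ (p : ℤ) ∣ H →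
      2 ≤ (bad p).card := by
    intro p hp hp' hz hpm hpm' hpH
    obtain ⟨l, hl, hl2⟩ := o4_exists p (hQ1p p hp).1 u A (hAnd p hp hz hpm)
    obtain ⟨l', hl', hl2'⟩ := o4_exists p (hQ2p p hp').1 u' A' (hAnd' p hp' hz hpm')
    have hne : l ≠ l' := by
      intro hll
      subst hll
      apply hpH
      have hb : ((m' : ℤ)) * ((q / G : ℕ) : ℤ) = (m : ℤ) * ((r / G : ℕ) : ℤ) := by
        exact_mod_cast hbal
      have e : H = (N₂ : ℤ) * m' * (u + A * (l : ℤ)) - (N₁ : ℤ) * m * (u' + A' * (l : ℤ)) := by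
        rw [hHeq, hA, hA']
        linear_combination (-(N₁ : ℤ) * N₂ * l) * hb
      rw [e]
      exact dvd_sub (Dvd.dvd.mul_left hl2 _) (Dvd.dvd.mul_left hl2' _)
    have hsub : ({l, l'} : Finset ℕ) ⊆ bad p := by
      intro y hy
      rw [Finset.mem_insert, Finset.mem_singleton] at hy
      rcases hy with rfl | rfl
      · exact Finset.mem_filter.2 ⟨hl, Or.inl ⟨hp, hpm, hl2⟩⟩
      · exact Finset.mem_filter.2 ⟨hl', Or.inr ⟨hp', hpm', hl2'⟩⟩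
    rw [← Finset.card_pair hne]
    exact Finset.card_le_card hsub
  -- the count
  have hcount : (Set.ncard {l : ℕ | l ∈ range G ∧
      x + (l : ℝ) / (G : ℕ) ∈ AS γ q ρ N₁ P₁ Q₁ ∩ AS γ r σ N₂ P₂ Q₂} : ℝ) ≤
      G * ∏ p ∈ PP, (1 - ((bad p).card : ℝ) / p) := by
    rw [← hcrt]
    have hsub : {l : ℕ | l ∈ range G ∧
        x + (l : ℝ) / (G : ℕ) ∈ AS γ q ρ N₁ P₁ Q₁ ∩ AS γ r σ N₂ P₂ Q₂} ⊆
        ((range G).filter (fun l => ∀ p ∈ PP, l % p ∉ bad p) : Set ℕ) := by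
      rintro l ⟨hl, hl1, hl2⟩
      rw [Finset.mem_coe, Finset.mem_filter]
      refine ⟨hl, fun p hp hbad => ?_⟩
      have hpp := (hPPprime p hp).1
      have hmod : ((l % p : ℕ) : ℤ) = (l : ℤ) - p * ((l / p : ℕ) : ℤ) := by
        have := Nat.mod_add_div l p
        have h2 : ((l % p : ℕ) : ℤ) + (p : ℤ) * ((l / p : ℕ) : ℤ) = (l : ℤ) := by
          exact_mod_cast this
        linarith
      rcases (Finset.mem_filter.1 hbad).2 with ⟨ha, -, hd⟩ | ⟨ha, -, hd⟩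
      · apply hl1.2 p ha
        rw [(shift_round γ q G l hG1 hGq' x).1]
        have e : (N₁ : ℤ) * (round ((q : ℝ) * x - γ) + ((q / G : ℕ) : ℤ) * l) + P₁ =
            (u + A * ((l % p : ℕ) : ℤ)) + p * (A * ((l / p : ℕ) : ℤ)) := by
          rw [hmod, hu, hA]
          ring
        rw [e]
        exact dvd_add hd (dvd_mul_right _ _)
      · apply hl2.2 p ha
        rw [(shift_round γ r G l hG1 hGr' x).1]
        have e : (N₂ : ℤ) * (round ((r : ℝ) * x - γ) + ((r / G : ℕ) : ℤ) * l) + P₂ =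
            (u' + A' * ((l % p : ℕ) : ℤ)) + p * (A' * ((l / p : ℕ) : ℤ)) := by
          rw [hmod, hu', hA']
          ring
        rw [e]
        exact dvd_add hd (dvd_mul_right _ _)
    have := Set.ncard_le_ncard hsub (Finset.finite_toSet _)
    rw [Set.ncard_coe_finset] at this
    exact_mod_cast this
  refine hcount.trans ?_
  rw [mul_comm]
  refine mul_le_mul_of_nonneg_right ?_ (Nat.cast_nonneg _)
  -- comparison of the products
  set U : Finset ℕ := (Q₁ ∪ Q₂ ∪ (m * m').primeFactors ∪ PP).filter (fun p : ℕ => z < (p : ℝ))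
    with hU
  have hUz : ∀ p ∈ U, z < (p : ℝ) := fun p hp => (Finset.mem_filter.1 hp).2
  have hUp : ∀ p ∈ U, p.Prime := by
    intro p hp
    rw [hU, Finset.mem_filter, Finset.mem_union, Finset.mem_union, Finset.mem_union] at hp
    rcases hp.1 with ((h | h) | h) | h
    · exact (hQ1p p h).1
    · exact (hQ2p p h).1
    · exact Nat.prime_of_mem_primeFactors h
    · exact (hPPprime p h).1
  have eL : ∏ p ∈ PP, (1 - ((bad p).card : ℝ) / p) =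
      ∏ p ∈ U, (if p ∈ PP ∧ True then (1 - ((bad p).card : ℝ) / p) else 1) := by
    refine o4_prod U hUz PP (fun _ => True) ?_ (fun p => (1 - ((bad p).card : ℝ) / p)) PP ?_
    · intro p hp hz _
      exact Finset.mem_filter.2 ⟨Finset.mem_union_right _ hp, hz⟩
    · intro p
      exact ⟨fun h => ⟨h, (hPPprime p h).2.2, trivial⟩, fun h => h.1⟩
  have e1 : PZ z Q₁ = ∏ p ∈ U, (if p ∈ Q₁ ∧ True then (1 - 1 / (p : ℝ)) else 1) := by
    unfold PZ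
    refine o4_prod U hUz Q₁ (fun _ => True) ?_ (fun p => (1 - 1 / (p : ℝ))) _ ?_
    · intro p hp hz _
      exact Finset.mem_filter.2 ⟨Finset.mem_union_left _ (Finset.mem_union_left _
        (Finset.mem_union_left _ hp)), hz⟩
    · intro p
      simp
  have e2 : PZ z Q₂ = ∏ p ∈ U, (if p ∈ Q₂ ∧ True then (1 - 1 / (p : ℝ)) else 1) := by
    unfold PZ
    refine o4_prod U hUz Q₂ (fun _ => True) ?_ (fun p => (1 - 1 / (p : ℝ))) _ ?_
    · intro p hp hz _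
      exact Finset.mem_filter.2 ⟨Finset.mem_union_left _ (Finset.mem_union_left _
        (Finset.mem_union_right _ hp)), hz⟩
    · intro p
      simp
  have e3 : IZ z (m * m') = ∏ p ∈ U, (if p ∈ (m * m').primeFactors ∧ True then
      (1 - 1 / (p : ℝ))⁻¹ else 1) := by
    unfold IZ
    refine o4_prod U hUz (m * m').primeFactors (fun _ => True) ?_
      (fun p => (1 - 1 / (p : ℝ))⁻¹) _ ?_
    · intro p hp hz _
      exact Finset.mem_filter.2 ⟨Finset.mem_union_left _ (Finset.mem_union_right _ hp), hz⟩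
    · intro p
      rw [Finset.mem_filter]
      tauto
  have e4 : EZ z (Q₁ ∩ Q₂) H = ∏ p ∈ U, (if p ∈ Q₁ ∩ Q₂ ∧ (p : ℤ) ∣ H then
      (1 - 1 / (p : ℝ))⁻¹ else 1) := by
    unfold EZ
    refine o4_prod U hUz (Q₁ ∩ Q₂) (fun p => (p : ℤ) ∣ H) ?_ (fun p => (1 - 1 / (p : ℝ))⁻¹) _ ?_
    · intro p hp hz _
      exact Finset.mem_filter.2 ⟨Finset.mem_union_left _ (Finset.mem_union_left _
        (Finset.mem_union_left _ (Finset.mem_inter.1 hp).1)), hz⟩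
    · intro p
      rw [Finset.mem_filter]
  rw [eL, e1, e2, e3, e4, ← Finset.prod_mul_distrib, ← Finset.prod_mul_distrib,
    ← Finset.prod_mul_distrib]
  have hbadle : ∀ p : ℕ, ((bad p).card : ℝ) ≤ p := by
    intro p
    have h0 : (bad p).card ≤ (range p).card := Finset.card_filter_le _ _
    rw [Finset.card_range] at h0
    exact_mod_cast h0
  refine Finset.prod_le_prod ?_ ?_
  · intro p hp
    have hpp := hUp p hp
    have hp0 : (0 : ℝ) < p := by exact_mod_cast hpp.pos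
    split_ifs with h
    · have : ((bad p).card : ℝ) / p ≤ 1 := by
        rw [div_le_one hp0]
        exact hbadle p
      linarith
    · exact zero_le_one
  · intro p hp
    have hpp := hUp p hp
    have hz := hUz p hp
    have hp0 : (0 : ℝ) < p := by exact_mod_cast hpp.pos
    have hp2 : (2 : ℝ) ≤ p := by exact_mod_cast hpp.two_le
    have ht0 : (0 : ℝ) < 1 / p := by positivity
    have ht : (1 : ℝ) / p ≤ 1 / 2 := by
      apply one_div_le_one_div_of_le <;> linarith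
    have hmm : (p ∈ (m * m').primeFactors ∧ True) ↔ (p ∣ m ∨ p ∣ m') := by
      rw [and_true, Nat.mem_primeFactors, hpp.dvd_mul]
      constructor
      · exact fun h => h.2.1
      · exact fun h => ⟨hpp, h, (Nat.mul_pos hmpos hmpos').ne'⟩
    have hint : (p ∈ Q₁ ∩ Q₂ ∧ (p : ℤ) ∣ H) ↔ ((p ∈ Q₁ ∧ p ∈ Q₂) ∧ (p : ℤ) ∣ H) := by
      rw [Finset.mem_inter]
    have hgen := o4_factor (1 / (p : ℝ))
      (if p ∈ PP ∧ True then (1 - ((bad p).card : ℝ) / p) else 1) ht0 ht (p ∈ Q₁) (p ∈ Q₂)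
      (p ∣ m) (p ∣ m') ((p : ℤ) ∣ H) ?_ ?_ ?_ ?_ ?_
    · refine hgen.trans (le_of_eq ?_)
      simp only [and_true, hmm, hint]
    · split_ifs
      · have : 0 ≤ ((bad p).card : ℝ) / p := by positivity
        linarith
      · exact le_rfl
    · rintro ⟨h1, h2⟩
      have h3 := Nat.dvd_gcd h1 h2
      rw [hcop] at h3
      exact hpp.one_lt.ne' (Nat.dvd_one.1 h3)
    · intro ha hc
      rw [if_pos ⟨hmemPP p hpp hz (hg1 p ha hc), trivial⟩]
      have h1 : (1 : ℝ) ≤ (bad p).card := by exact_mod_cast hb1 p ha hz hc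
      have : (1 : ℝ) / p ≤ ((bad p).card : ℝ) / p := by gcongr
      linarith
    · intro ha hc
      rw [if_pos ⟨hmemPP p hpp hz (hg2 p ha hc), trivial⟩]
      have h1 : (1 : ℝ) ≤ (bad p).card := by exact_mod_cast hb2 p ha hz hc
      have : (1 : ℝ) / p ≤ ((bad p).card : ℝ) / p := by gcongr
      linarith
    · intro ha hb hc hc' hh
      rw [if_pos ⟨hmemPP p hpp hz (hg1 p ha hc), trivial⟩]
      have h1 : (2 : ℝ) ≤ (bad p).card := by exact_mod_cast hb3 p ha hb hz hc hc' hh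
      have : (2 : ℝ) / p ≤ ((bad p).card : ℝ) / p := by gcongr
      have e : (2 : ℝ) * (1 / p) = 2 / p := by ring
      rw [e]
      linarith

/-- [IDE-O4] **Small conditions are invariant.**

PROOF.  For `p ≤ z`, `p ∣ q`: `p ∣ q/G` (`zp_facts`), so `p ∣ u + N₁ (q/G) l ↔ p ∣ u`. -/
theorem shift_small (γ : ℝ) (z : ℝ) (q r : ℕ) (hq : 1 ≤ q) (hr : 1 ≤ r) (ρ σ : ℝ)
    (N₁ : ℕ) (P₁ : ℤ) (N₂ : ℕ) (P₂ : ℤ) (Q₁ Q₂ : Finset ℕ) (hQ₁ : Q₁ ⊆ q.primeFactors)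
    (hQ₂ : Q₂ ⊆ r.primeFactors) (x : ℝ) (l : ℕ)
    (h : x + (l : ℝ) / (zp z (Nat.gcd q r) : ℕ) ∈ AS γ q ρ N₁ P₁ Q₁ ∩ AS γ r σ N₂ P₂ Q₂) :
    x ∈ AS γ q ρ N₁ P₁ (QS z Q₁) ∩ AS γ r σ N₂ P₂ (QS z Q₂) := by
  obtain ⟨hG1, hGd, -, -, hGs⟩ := zp_facts z q r hq hr
  obtain ⟨-, hGs'⟩ := o4_symm z q r hq hr
  set G := zp z (Nat.gcd q r) with hGdef
  have hGq' : G ∣ q := hGd.trans (Nat.gcd_dvd_left q r)
  have hGr' : G ∣ r := hGd.trans (Nat.gcd_dvd_right q r)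
  obtain ⟨h1, h2⟩ := h
  refine ⟨⟨?_, ?_⟩, ⟨?_, ?_⟩⟩
  · rw [← (shift_round γ q G l hG1 hGq' x).2]
    exact h1.1
  · intro p hp hd
    unfold QS at hp
    rw [Finset.mem_filter] at hp
    apply h1.2 p hp.1
    rw [(shift_round γ q G l hG1 hGq' x).1]
    have hpp := Nat.prime_of_mem_primeFactors (hQ₁ hp.1)
    have hpq := Nat.dvd_of_mem_primeFactors (hQ₁ hp.1)
    have h3 : p ∣ q / G := hGs p hpp hp.2 hpq
    have h4 : (p : ℤ) ∣ ((q / G : ℕ) : ℤ) := by exact_mod_cast h3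
    have e : (N₁ : ℤ) * (round ((q : ℝ) * x - γ) + ((q / G : ℕ) : ℤ) * l) + P₁ =
        ((N₁ : ℤ) * round ((q : ℝ) * x - γ) + P₁) + ((q / G : ℕ) : ℤ) * (N₁ * l) := by ring
    rw [e]
    exact dvd_add hd (Dvd.dvd.mul_right h4 _)
  · rw [← (shift_round γ r G l hG1 hGr' x).2]
    exact h2.1
  · intro p hp hd
    unfold QS at hp
    rw [Finset.mem_filter] at hp
    apply h2.2 p hp.1
    rw [(shift_round γ r G l hG1 hGr' x).1]
    have hpp := Nat.prime_of_mem_primeFactors (hQ₂ hp.1)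
    have hpq := Nat.dvd_of_mem_primeFactors (hQ₂ hp.1)
    have h3 : p ∣ r / G := hGs' p hpp hp.2 hpq
    have h4 : (p : ℤ) ∣ ((r / G : ℕ) : ℤ) := by exact_mod_cast h3
    have e : (N₂ : ℤ) * (round ((r : ℝ) * x - γ) + ((r / G : ℕ) : ℤ) * l) + P₂ =
        ((N₂ : ℤ) * round ((r : ℝ) * x - γ) + P₂) + ((r / G : ℕ) : ℤ) * (N₂ * l) := by ring
    rw [e]
    exact dvd_add hd (Dvd.dvd.mul_right h4 _)

end Pool.Agent.IDE
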