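import Pool.Agent.IDE.O1
import Pool.Agent.IDE.O4

set_option autoImplicit false

namespace Pool.Agent.IDE

open Finset Pool.Agent.IDS MeasureTheory

private lemma o5_nonneg (p : ℕ) : 0 ≤ 1 - 1 / (p : ℝ) := by
  rcases Nat.eq_zero_or_pos p with h | h
  · simp [h]
  · have : (1 : ℝ) ≤ p := by exact_mod_cast h
    have h2 : 1 / (p : ℝ) ≤ 1 := by rw [div_le_one (by linarith)]; exact this
    linarith

/-- [IDE-O5] **Large sieving primes.**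

PROOF.  `averaging` with `A = AS ∩ AS' ∩ {H ≠ 0}`, `B = (small sets) ∩ {H ≠ 0}`,
`G = zp z (gcd q r)`, `c` = the product in front of `vl` below; `shift_HH`, `shift_small`,
`shift_count` (the last product there is `≤ Emax` by `hE`; if the number of good shifts is `0` there
is nothing to prove; otherwise some shift `y = x + l/G` of `x` lies in `AS ∩ AS'`, and
`HH y = HH x ≠ 0`, so `hE` applies to `y`).  Finally `vl_mono` (drop `H ≠ 0` in `B`). -/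
theorem O_large (γ : ℝ) (z : ℝ) (q r : ℕ) (hq : 1 ≤ q) (hr : 1 ≤ r) (ρ σ : ℝ)
    (N₁ : ℕ) (P₁ : ℤ) (N₂ : ℕ) (P₂ : ℤ) (Q₁ Q₂ : Finset ℕ) (hQ₁ : Q₁ ⊆ q.primeFactors)
    (hQ₂ : Q₂ ⊆ r.primeFactors) (h₁ : ∀ p ∈ Q₁, ¬ p ∣ N₁) (h₂ : ∀ p ∈ Q₂, ¬ p ∣ N₂) (Emax : ℝ)
    (hE0 : 0 ≤ Emax)
    (hE : ∀ x ∈ AS γ q ρ N₁ P₁ Q₁ ∩ AS γ r σ N₂ P₂ Q₂, HH γ q r N₁ P₁ N₂ P₂ x ≠ 0 →
      EZ z (Q₁ ∩ Q₂) (HH γ q r N₁ P₁ N₂ P₂ x) ≤ Emax) :
    vl (AS γ q ρ N₁ P₁ Q₁ ∩ AS γ r σ N₂ P₂ Q₂ ∩ {x | HH γ q r N₁ P₁ N₂ P₂ x ≠ 0}) ≤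
      PZ z Q₁ * PZ z Q₂ * IZ z (rd q r * rd r q) * Emax *
      vl (AS γ q ρ N₁ P₁ (QS z Q₁) ∩ AS γ r σ N₂ P₂ (QS z Q₂)) := by
  classical
  obtain ⟨hG, hGd, -, -, -⟩ := zp_facts z q r hq hr
  set G := zp z (Nat.gcd q r) with hGdef
  set A := AS γ q ρ N₁ P₁ Q₁ ∩ AS γ r σ N₂ P₂ Q₂ with hAdef
  set B := AS γ q ρ N₁ P₁ (QS z Q₁) ∩ AS γ r σ N₂ P₂ (QS z Q₂) with hBdef
  have hPZ : ∀ Q : Finset ℕ, 0 ≤ PZ z Q := by
    intro Q
    unfold PZ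
    exact Finset.prod_nonneg fun p _ => o5_nonneg p
  have hIZ : 0 ≤ IZ z (rd q r * rd r q) := by
    unfold IZ
    exact Finset.prod_nonneg fun p _ => inv_nonneg.2 (o5_nonneg p)
  have hc0 : 0 ≤ PZ z Q₁ * PZ z Q₂ * IZ z (rd q r * rd r q) * Emax :=
    mul_nonneg (mul_nonneg (mul_nonneg (hPZ _) (hPZ _)) hIZ) hE0
  have hmA : MeasurableSet A := (measurableSet_AS _ _ _ _ _ _).inter (measurableSet_AS _ _ _ _ _ _)
  have hmB : MeasurableSet B := (measurableSet_AS _ _ _ _ _ _).inter (measurableSet_AS _ _ _ _ _ _)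
  have hmH : MeasurableSet {x | HH γ q r N₁ P₁ N₂ P₂ x ≠ 0} :=
    (measurableSet_HH γ q r N₁ P₁ N₂ P₂).compl
  have hd₁ : ∀ p ∈ Q₁, p ∣ q := fun p hp => Nat.dvd_of_mem_primeFactors (hQ₁ hp)
  have hd₂ : ∀ p ∈ Q₂, p ∣ r := fun p hp => Nat.dvd_of_mem_primeFactors (hQ₂ hp)
  have key := averaging (A ∩ {x | HH γ q r N₁ P₁ N₂ P₂ x ≠ 0})
    (B ∩ {x | HH γ q r N₁ P₁ N₂ P₂ x ≠ 0}) (hmA.inter hmH) (hmB.inter hmH)
    (fun x => by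
      simp only [hAdef, Set.mem_inter_iff, Set.mem_ofPred_eq, AS_periodic _ _ _ _ _ _ hd₁,
        AS_periodic _ _ _ _ _ _ hd₂, HH_periodic])
    G hG (PZ z Q₁ * PZ z Q₂ * IZ z (rd q r * rd r q) * Emax) hc0
    (fun x hx l _ hA => hx ⟨shift_small γ z q r hq hr ρ σ N₁ P₁ N₂ P₂ Q₁ Q₂ hQ₁ hQ₂ x l hA.1, by
      have h2 := hA.2
      simp only [Set.mem_ofPred_eq] at h2 ⊢
      rwa [shift_HH γ q r G l hq hr hG hGd] at h2⟩)
    (fun x hx => by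
      by_cases hne : ∃ l : ℕ, l ∈ range G ∧ x + (l : ℝ) / G ∈ A
      · obtain ⟨l, hl, hlA⟩ := hne
        have e1 := shift_count γ z q r hq hr ρ σ N₁ P₁ N₂ P₂ Q₁ Q₂ hQ₁ hQ₂ h₁ h₂ x
        rw [← hGdef, ← hAdef] at e1
        have hHx : HH γ q r N₁ P₁ N₂ P₂ (x + (l : ℝ) / G) = HH γ q r N₁ P₁ N₂ P₂ x :=
          shift_HH γ q r G l hq hr hG hGd N₁ P₁ N₂ P₂ x
        have hHne : HH γ q r N₁ P₁ N₂ P₂ x ≠ 0 := hx.2
        have e2 := hE _ hlA (by rw [hHx]; exact hHne)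
        rw [hHx] at e2
        have e3 : (Set.ncard {l : ℕ | l ∈ range G ∧
            x + (l : ℝ) / G ∈ A ∩ {x | HH γ q r N₁ P₁ N₂ P₂ x ≠ 0}} : ℝ) ≤
            (Set.ncard {l : ℕ | l ∈ range G ∧ x + (l : ℝ) / G ∈ A} : ℝ) := by
          have hsub : {l : ℕ | l ∈ range G ∧
              x + (l : ℝ) / G ∈ A ∩ {x | HH γ q r N₁ P₁ N₂ P₂ x ≠ 0}} ⊆
              {l : ℕ | l ∈ range G ∧ x + (l : ℝ) / G ∈ A} := fun l hl => ⟨hl.1, hl.2.1⟩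
          have hfin : Set.Finite {l : ℕ | l ∈ range G ∧ x + (l : ℝ) / G ∈ A} :=
            (Set.finite_coe_iff.1 inferInstance : Set.Finite (range G : Set ℕ)).subset
              fun l hl => hl.1
          exact_mod_cast Set.ncard_le_ncard hsub hfin
        refine e3.trans (e1.trans ?_)
        have e4 : 0 ≤ PZ z Q₁ * PZ z Q₂ * IZ z (rd q r * rd r q) :=
          mul_nonneg (mul_nonneg (hPZ _) (hPZ _)) hIZ
        exact mul_le_mul_of_nonneg_right (mul_le_mul_of_nonneg_left e2 e4) (Nat.cast_nonneg _)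
      · have e5 : {l : ℕ | l ∈ range G ∧
            x + (l : ℝ) / G ∈ A ∩ {x | HH γ q r N₁ P₁ N₂ P₂ x ≠ 0}} = ∅ := by
          apply Set.eq_empty_of_forall_notMem
          intro l hl
          exact hne ⟨l, hl.1, hl.2.1⟩
        rw [e5, Set.ncard_empty, Nat.cast_zero]
        exact mul_nonneg hc0 (Nat.cast_nonneg _))
  refine key.trans (mul_le_mul_of_nonneg_left (vl_mono _ _ Set.inter_subset_left) hc0)

end Pool.Agent.IDE
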