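import Pool.Agent.IDE.Tg
import Pool.Agent.IDE.CO

set_option autoImplicit false

namespace Pool.Agent.IDE

open Finset Pool.Agent.IDS

theorem tg2_mul (q r : ℕ) : (rd r q : ℝ) * q = (rd q r : ℝ) * r := by
  have h := rd_mul q r
  have h2 : ((r * rd q r : ℕ) : ℝ) = ((q * rd r q : ℕ) : ℝ) := by rw [h]
  push_cast at h2
  linarith

theorem tg2_D1 (κ : ℕ → ℕ) (q r : ℕ) : (rd r q : ℝ) * rho κ q ≤ DD κ q r := by
  unfold DD rho
  have h : (Nat.lcm q r : ℝ) = (q : ℝ) * rd r q := by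
    rw [lcm_eq q r]; push_cast; ring
  rw [h]
  have h2 : (rd r q : ℝ) * ((q : ℝ) * (1 / 2 : ℝ) ^ κ q) = (q : ℝ) * rd r q * (1 / 2 : ℝ) ^ κ q := by ring
  rw [h2]
  exact mul_le_mul_of_nonneg_left (le_max_left _ _) (by positivity)

theorem tg2_D2 (κ : ℕ → ℕ) (q r : ℕ) : (rd q r : ℝ) * rho κ r ≤ DD κ q r := by
  unfold DD rho
  have h : (Nat.lcm q r : ℝ) = (r : ℝ) * rd q r := by
    rw [Nat.lcm_comm, lcm_eq r q]; push_cast; ring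
  rw [h]
  have h2 : (rd q r : ℝ) * ((r : ℝ) * (1 / 2 : ℝ) ^ κ r) = (r : ℝ) * rd q r * (1 / 2 : ℝ) ^ κ r := by ring
  rw [h2]
  exact mul_le_mul_of_nonneg_left (le_max_right _ _) (by positivity)

/-- the basic identity -/
theorem tg2_h (γ : ℝ) (κ : ℕ → ℕ) (q r : ℕ) (x : ℝ)
    (h1 : nd (q * x - γ) ≤ rho κ q) (h2 : nd (r * x - γ) ≤ rho κ r) :
    |((rd r q : ℝ) * round (q * x - γ) - (rd q r : ℝ) * round (r * x - γ)) +
      γ * ((rd r q : ℝ) - rd q r)| ≤ 2 * DD κ q r := by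
  have e1 : ((rd r q : ℝ) * round (q * x - γ) - (rd q r : ℝ) * round (r * x - γ)) +
      γ * ((rd r q : ℝ) - rd q r) =
      (rd q r : ℝ) * ((r * x - γ) - round (r * x - γ)) -
        (rd r q : ℝ) * ((q * x - γ) - round (q * x - γ)) := by
    have e2 : (rd r q : ℝ) * q * x = (rd q r : ℝ) * r * x := by rw [tg2_mul]
    linear_combination e2
  rw [e1]
  have e3 : |(rd q r : ℝ) * ((r * x - γ) - round (r * x - γ))| ≤ DD κ q r := by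
    rw [abs_mul, Nat.abs_cast]
    refine le_trans (mul_le_mul_of_nonneg_left ?_ (Nat.cast_nonneg _)) (tg2_D2 κ q r)
    exact h2
  have e4 : |(rd r q : ℝ) * ((q * x - γ) - round (q * x - γ))| ≤ DD κ q r := by
    rw [abs_mul, Nat.abs_cast]
    refine le_trans (mul_le_mul_of_nonneg_left ?_ (Nat.cast_nonneg _)) (tg2_D1 κ q r)
    exact h1
  calc _ ≤ |(rd q r : ℝ) * ((r * x - γ) - round (r * x - γ))| +
        |(rd r q : ℝ) * ((q * x - γ) - round (q * x - γ))| := abs_sub _ _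
    _ ≤ 2 * DD κ q r := by linarith

/-- [IDE-TG2] PROOF. `m' q = m r`, so `-γ (m' - m) = m' (q x - γ) - m (r x - γ)`; subtract integers:
`nd (γ (m'-m)) ≤ m' nd (q x - γ) + m nd (r x - γ) ≤ m' ρ_q + m ρ_r ≤ 2 D`, where
`D = lcm max(..) = max (m' ρ_q, m ρ_r)` (`lcm_eq`). -/
theorem align_of_mem (γ : ℝ) (κ : ℕ → ℕ) (q r : ℕ) (hq : Adm κ q) (hr : Adm κ r) (x : ℝ)
    (h1 : nd (q * x - γ) ≤ rho κ q) (h2 : nd (r * x - γ) ≤ rho κ r) :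
    nd (γ * ((rd r q : ℝ) - rd q r)) ≤ 2 * DD κ q r := by
  refine le_trans (nd_le_abs _ (-((rd r q : ℤ) * round (q * x - γ) - (rd q r : ℤ) * round (r * x - γ))))
    ?_
  have e := tg2_h γ κ q r x h1 h2
  have e2 : γ * ((rd r q : ℝ) - rd q r) -
      ((-((rd r q : ℤ) * round (q * x - γ) - (rd q r : ℤ) * round (r * x - γ)) : ℤ) : ℝ) =
      ((rd r q : ℝ) * round (q * x - γ) - (rd q r : ℝ) * round (r * x - γ)) +
      γ * ((rd r q : ℝ) - rd q r) := by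
    push_cast
    ring
  rw [e2]
  exact e

/-- the identity for `H` -/
theorem tg2_H (γ : ℝ) (κ : ℕ → ℕ) (q r : ℕ) (x : ℝ) :
    (Hx γ κ q r x : ℝ) = (tN γ κ q : ℝ) * tN γ κ r *
      (((rd r q : ℝ) * round (q * x - γ) - (rd q r : ℝ) * round (r * x - γ)) +
        γ * ((rd r q : ℝ) - rd q r)) -
      (rd r q : ℝ) * tN γ κ r * ((tN γ κ q : ℝ) * γ - tP γ κ q) +
      (rd q r : ℝ) * tN γ κ q * ((tN γ κ r : ℝ) * γ - tP γ κ r) := by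
  unfold Hx HH
  push_cast
  ring

theorem tg2_m_eta (γ : ℝ) (κ : ℕ → ℕ) (q m : ℕ) (D : ℝ) (hq : Adm κ q)
    (h : (m : ℝ) * rho κ q ≤ D) : (m : ℝ) * eta γ (tT κ q) ≤ D * tZ γ κ q := by
  have hρ := rho_pos κ q hq.1
  have he : 0 ≤ eta γ (tT κ q) := eta_nonneg _ _
  have hD : 0 ≤ D := le_trans (by positivity) h
  have hm : (m : ℝ) ≤ D / rho κ q := by
    rw [le_div_iff₀ hρ]; exact h
  calc (m : ℝ) * eta γ (tT κ q) ≤ D / rho κ q * eta γ (tT κ q) := mul_le_mul_of_nonneg_right hm he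
    _ = D * (1 / rho κ q * eta γ (tT κ q)) := by ring
    _ ≤ D * tZ γ κ q := mul_le_mul_of_nonneg_left (le_max_right _ _) hD

/-- [IDE-TG2] **Size of `H`.**

PROOF.  Notation: `b = round (q x - γ)`, `b' = round (r x - γ)`, `h = m' b - m b'`, `m = rd q r`,
`m' = rd r q`, `D = DD κ q r = max (m' ρ_q, m ρ_r)`.  `H = N_q N_r h + m' P_q N_r - m P_r N_q`, so
`H - N_q N_r (h + γ (m' - m)) = -m' N_r (N_q γ - P_q) + m N_q (N_r γ - P_r)`, of absolute value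
`≤ m' N_r η_q + m N_q η_r ≤ D (η_q/ρ_q) N_r + D (η_r/ρ_r) N_q ≤ 2 D Z_q Z_r`; and
`|h + γ (m'-m)| = |m' (q x - γ - b) - m (r x - γ - b')| ≤ m' ρ_q + m ρ_r ≤ 2D`
(`|q x - γ - round| = nd`). -/
theorem Hx_bound (γ : ℝ) (κ : ℕ → ℕ) (q r : ℕ) (hq : Adm κ q) (hr : Adm κ r) (x : ℝ)
    (h1 : nd (q * x - γ) ≤ rho κ q) (h2 : nd (r * x - γ) ≤ rho κ r) :
    |(Hx γ κ q r x : ℝ)| ≤ 4 * DD κ q r * tZ γ κ q * tZ γ κ r := by
  have hNq : (tN γ κ q : ℝ) ≤ tZ γ κ q := tN_le_tZ γ κ q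
  have hNr : (tN γ κ r : ℝ) ≤ tZ γ κ r := tN_le_tZ γ κ r
  have hNq0 : (0 : ℝ) ≤ tN γ κ q := Nat.cast_nonneg _
  have hNr0 : (0 : ℝ) ≤ tN γ κ r := Nat.cast_nonneg _
  have hZq0 : 0 ≤ tZ γ κ q := hNq0.trans hNq
  have hZr0 : 0 ≤ tZ γ κ r := hNr0.trans hNr
  have hD0 : 0 ≤ DD κ q r := le_trans (mul_nonneg (Nat.cast_nonneg _) (rho_pos κ q hq.1).le) (tg2_D1 κ q r)
  have hZZ : (tN γ κ q : ℝ) * tN γ κ r ≤ tZ γ κ q * tZ γ κ r := mul_le_mul hNq hNr hNr0 hZq0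
  rw [tg2_H]
  have hA : |(tN γ κ q : ℝ) * tN γ κ r *
      (((rd r q : ℝ) * round (q * x - γ) - (rd q r : ℝ) * round (r * x - γ)) +
        γ * ((rd r q : ℝ) - rd q r))| ≤ 2 * DD κ q r * (tZ γ κ q * tZ γ κ r) := by
    rw [abs_mul, abs_of_nonneg (mul_nonneg hNq0 hNr0), mul_comm (2 * DD κ q r)]
    exact mul_le_mul hZZ (tg2_h γ κ q r x h1 h2) (abs_nonneg _) (mul_nonneg hZq0 hZr0)
  have hB : |(rd r q : ℝ) * tN γ κ r * ((tN γ κ q : ℝ) * γ - tP γ κ q)| ≤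
      DD κ q r * (tZ γ κ q * tZ γ κ r) := by
    rw [abs_mul, abs_of_nonneg (mul_nonneg (Nat.cast_nonneg _) hNr0)]
    have e1 : |(tN γ κ q : ℝ) * γ - tP γ κ q| = eta γ (tT κ q) := abs_den_sub_num γ (tT κ q)
    rw [e1]
    have e2 := tg2_m_eta γ κ q (rd r q) _ hq (tg2_D1 κ q r)
    calc (rd r q : ℝ) * tN γ κ r * eta γ (tT κ q) = ((rd r q : ℝ) * eta γ (tT κ q)) * tN γ κ r := by ring
      _ ≤ (DD κ q r * tZ γ κ q) * tZ γ κ r :=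
          mul_le_mul e2 hNr hNr0 (mul_nonneg hD0 hZq0)
      _ = DD κ q r * (tZ γ κ q * tZ γ κ r) := by ring
  have hC : |(rd q r : ℝ) * tN γ κ q * ((tN γ κ r : ℝ) * γ - tP γ κ r)| ≤
      DD κ q r * (tZ γ κ q * tZ γ κ r) := by
    rw [abs_mul, abs_of_nonneg (mul_nonneg (Nat.cast_nonneg _) hNq0)]
    have e1 : |(tN γ κ r : ℝ) * γ - tP γ κ r| = eta γ (tT κ r) := abs_den_sub_num γ (tT κ r)
    rw [e1]
    have e2 := tg2_m_eta γ κ r (rd q r) _ hr (tg2_D2 κ q r)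
    calc (rd q r : ℝ) * tN γ κ q * eta γ (tT κ r) = ((rd q r : ℝ) * eta γ (tT κ r)) * tN γ κ q := by ring
      _ ≤ (DD κ q r * tZ γ κ r) * tZ γ κ q :=
          mul_le_mul e2 hNq hNq0 (mul_nonneg hD0 hZr0)
      _ = DD κ q r * (tZ γ κ q * tZ γ κ r) := by ring
  set A := (tN γ κ q : ℝ) * tN γ κ r *
      (((rd r q : ℝ) * round (q * x - γ) - (rd q r : ℝ) * round (r * x - γ)) +
        γ * ((rd r q : ℝ) - rd q r))
  set B := (rd r q : ℝ) * tN γ κ r * ((tN γ κ q : ℝ) * γ - tP γ κ q)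
  set C := (rd q r : ℝ) * tN γ κ q * ((tN γ κ r : ℝ) * γ - tP γ κ r)
  calc |A - B + C| ≤ |A - B| + |C| := abs_add_le _ _
    _ ≤ |A| + |B| + |C| := by linarith [abs_sub A B]
    _ ≤ 2 * DD κ q r * (tZ γ κ q * tZ γ κ r) + DD κ q r * (tZ γ κ q * tZ γ κ r) +
        DD κ q r * (tZ γ κ q * tZ γ κ r) := by linarith
    _ = 4 * DD κ q r * tZ γ κ q * tZ γ κ r := by ring

end Pool.Agent.IDE
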