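import Pool.Agent.IDE.EX
import Pool.Agent.IDE.O5
import Pool.Agent.IDE.O10
import Pool.Agent.IDE.TG2

set_option autoImplicit false

namespace Pool.Agent.IDE

open Finset Pool.Agent.IDS MeasureTheory

/-- unweighted mass `φ(q) 2^{-κ q}` -/
noncomputable def nu (κ : ℕ → ℕ) (q : ℕ) : ℝ := (Nat.totient q : ℝ) * (1 / 2 : ℝ) ^ κ q

/-! ### auxiliary facts -/

theorem pp_tg_sub (γ : ℝ) (κ : ℕ → ℕ) (q : ℕ) : tg γ κ q ⊆ q.primeFactors := fun p hp =>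
  ((mem_tg γ κ q p).1 hp).1

theorem pp_tg_prime (γ : ℝ) (κ : ℕ → ℕ) (q p : ℕ) (hp : p ∈ tg γ κ q) : p.Prime :=
  Nat.prime_of_mem_primeFactors (pp_tg_sub γ κ q hp)

theorem pp_tg_ndvd (γ : ℝ) (κ : ℕ → ℕ) (q : ℕ) : ∀ p ∈ tg γ κ q, ¬ p ∣ tN γ κ q := fun p hp =>
  ((mem_tg γ κ q p).1 hp).2.2

theorem pp_rho (κ : ℕ → ℕ) (q : ℕ) (hq : 1 ≤ q) : rho κ q / q = (1 / 2 : ℝ) ^ κ q := by
  have hq0 : (q : ℝ) ≠ 0 := by
    have : (1 : ℝ) ≤ q := by exact_mod_cast hq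
    linarith
  unfold rho
  field_simp

theorem pp_nu (κ : ℕ → ℕ) (q : ℕ) (hq : 1 ≤ q) :
    (Nat.totient q : ℝ) / q * rho κ q = nu κ q := by
  have hq0 : (q : ℝ) ≠ 0 := by
    have : (1 : ℝ) ≤ q := by exact_mod_cast hq
    linarith
  unfold nu rho
  field_simp

theorem pp_nu_nonneg (κ : ℕ → ℕ) (q : ℕ) : 0 ≤ nu κ q := by
  unfold nu
  positivity

theorem pp_DD (κ : ℕ → ℕ) (q r : ℕ) (hq : 1 ≤ q) (hr : 1 ≤ r) :
    (Nat.lcm q r : ℝ) * max (rho κ q / q) (rho κ r / r) = DD κ q r := by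
  rw [pp_rho κ q hq, pp_rho κ r hr]
  rfl

theorem pp_DD_pos (κ : ℕ → ℕ) (q r : ℕ) (hq : 1 ≤ q) (hr : 1 ≤ r) : 0 < DD κ q r := by
  unfold DD
  have h1 : 0 < Nat.lcm q r := Nat.lcm_pos hq hr
  have h2 : (0 : ℝ) < (1 / 2 : ℝ) ^ κ q := by positivity
  exact mul_pos (by exact_mod_cast h1) (lt_max_of_lt_left h2)

theorem pp_factor_pos (p : ℕ) (hp : p.Prime) : (0 : ℝ) < 1 - 1 / (p : ℝ) := by
  have h1 : (1 : ℝ) < p := by exact_mod_cast hp.one_lt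
  rw [sub_pos, div_lt_one (by linarith)]
  exact h1

theorem pp_prod_nonneg (Q : Finset ℕ) (hQ : ∀ p ∈ Q, p.Prime) :
    0 ≤ ∏ p ∈ Q, (1 - 1 / (p : ℝ)) :=
  Finset.prod_nonneg fun p hp => (pp_factor_pos p (hQ p hp)).le

theorem pp_PZ_mul (z : ℝ) (Q : Finset ℕ) :
    PZ z Q * ∏ p ∈ QS z Q, (1 - 1 / (p : ℝ)) = ∏ p ∈ Q, (1 - 1 / (p : ℝ)) := by
  classical
  unfold PZ QS
  rw [← Finset.prod_filter_mul_prod_filter_not Q (fun p : ℕ => z < (p : ℝ))]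
  congr 1
  apply Finset.prod_congr _ (fun _ _ => rfl)
  ext p
  simp

theorem pp_PZ_nonneg (z : ℝ) (Q : Finset ℕ) (hQ : ∀ p ∈ Q, p.Prime) : 0 ≤ PZ z Q := by
  classical
  unfold PZ
  apply Finset.prod_nonneg
  intro p hp
  exact (pp_factor_pos p (hQ p (Finset.mem_filter.1 hp).1)).le

theorem pp_QS_sub (z : ℝ) (Q : Finset ℕ) : QS z Q ⊆ Q := by
  classical
  unfold QS
  exact Finset.filter_subset _ _

theorem pp_QS_zero (Q : Finset ℕ) (hQ : ∀ p ∈ Q, p.Prime) : QS 0 Q = ∅ := by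
  classical
  unfold QS
  rw [Finset.filter_eq_empty_iff]
  intro p hp h
  have : (0 : ℝ) < p := by exact_mod_cast (hQ p hp).pos
  linarith

/-- the hypotheses on the primes of `tg q ∩ tg r` -/
theorem pp_inter (γ : ℝ) (κ : ℕ → ℕ) (q r : ℕ) :
    ∀ p ∈ tg γ κ q ∩ tg γ κ r, p.Prime ∧ Real.log (max (tZ γ κ q) (tZ γ κ r)) < p := by
  intro p hp
  obtain ⟨h1, h2⟩ := Finset.mem_inter.1 hp
  refine ⟨pp_tg_prime γ κ q p h1, ?_⟩
  rcases le_total (tZ γ κ q) (tZ γ κ r) with h | h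
  · rw [max_eq_right h]
    exact ((mem_tg γ κ r p).1 h2).2.1
  · rw [max_eq_left h]
    exact ((mem_tg γ κ q p).1 h1).2.1

/-- size of `H` -/
theorem pp_H (γ : ℝ) (κ : ℕ → ℕ) (q r : ℕ) (hq : Adm κ q) (hr : Adm κ r) (x : ℝ)
    (hx : x ∈ Ax γ κ q ∩ Ax γ κ r) :
    |(Hx γ κ q r x : ℝ)| ≤ 4 * DD κ q r * (max (tZ γ κ q) (tZ γ κ r)) ^ 2 := by
  have h1 : nd (q * x - γ) ≤ rho κ q := hx.1.1
  have h2 : nd (r * x - γ) ≤ rho κ r := hx.2.1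
  refine (Hx_bound γ κ q r hq hr x h1 h2).trans ?_
  have hD := (pp_DD_pos κ q r hq.1 hr.1).le
  have z1 := one_le_tZ γ κ q hq
  have z2 := one_le_tZ γ κ r hr
  have m1 : tZ γ κ q ≤ max (tZ γ κ q) (tZ γ κ r) := le_max_left _ _
  have m2 : tZ γ κ r ≤ max (tZ γ κ q) (tZ γ κ r) := le_max_right _ _
  calc 4 * DD κ q r * tZ γ κ q * tZ γ κ r = 4 * DD κ q r * (tZ γ κ q * tZ γ κ r) := by ring
    _ ≤ 4 * DD κ q r * (max (tZ γ κ q) (tZ γ κ r) * max (tZ γ κ q) (tZ γ κ r)) := by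
      apply mul_le_mul_of_nonneg_left _ (by positivity)
      exact mul_le_mul m1 m2 (by linarith) (by linarith)
    _ = _ := by ring

/-- [IDE-PP1] PROOF. `tc ∏ (1-1/p) = φ(q)/q`, `rho κ q = q 2^{-κ q}`, `vl_AS`. -/
theorem tc_vl (γ : ℝ) (κ : ℕ → ℕ) (q : ℕ) (h : Adm κ q) :
    tc γ κ q * vl (Ax γ κ q) = 2 * nu κ q := by
  have h1 : vl (Ax γ κ q) = 2 * rho κ q * ∏ p ∈ tg γ κ q, (1 - 1 / (p : ℝ)) :=
    vl_AS γ q h.1 (rho κ q) (rho_pos κ q h.1).le h.2 (tN γ κ q) (tP γ κ q) (tg γ κ q)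
      (pp_tg_sub γ κ q) (pp_tg_ndvd γ κ q)
  rw [h1, ← pp_nu κ q h.1, ← tc_mul γ κ q]
  ring

/-- [IDE-PP1] **Pairs with bounded `D`.**

PROOF.  `O_large` with `z = 0` (`QS 0 Q = ∅` for sets of primes), `Emax = C` from `EZ_bdd`
(`Z = max (tZ q) (tZ r)`, `Hx_bound`, the primes of `tg q ∩ tg r` are `> log Z`), `IZ_zero`:
`vl (A_q ∩ A_r ∩ {H ≠ 0}) ≤ ∏_{tg q} (1-1/p) ∏_{tg r} (1-1/p) Fw m Fw m' C vl (AS ∅ ∩ AS ∅)`, and
`vl (AS ∅ ∩ AS ∅) ≤ 4ρσ + 2ρσ/D` (`overlap2` or `O_small` with empty sets; `ρ = rho κ q`,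
`lcm q r max (ρ/q, σ/r) = DD κ q r`).  Multiply by `tc q tc r` (`tc_mul`):
`(φ(q)/q) ρ = nu κ q`. -/
theorem pair_bdd (D₀ : ℝ) (hD₀ : 1 ≤ D₀) :
    ∃ C : ℝ, 0 < C ∧ ∀ (γ : ℝ) (κ : ℕ → ℕ) (q r : ℕ), Adm κ q → Adm κ r → DD κ q r ≤ D₀ →
      tc γ κ q * tc γ κ r * vl (Ax γ κ q ∩ Ax γ κ r ∩ {x | Hx γ κ q r x ≠ 0}) ≤
        C * nu κ q * nu κ r * (1 + 1 / DD κ q r) * (Fw (rd q r) * Fw (rd r q)) := by
  obtain ⟨C, hC, hEZ⟩ := EZ_bdd D₀ hD₀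
  refine ⟨4 * C, by positivity, ?_⟩
  intro γ κ q r hq hr hD
  have hDp := pp_DD_pos κ q r hq.1 hr.1
  have hρ := rho_pos κ q hq.1
  have hσ := rho_pos κ r hr.1
  have hL : vl (Ax γ κ q ∩ Ax γ κ r ∩ {x | Hx γ κ q r x ≠ 0}) ≤
      PZ 0 (tg γ κ q) * PZ 0 (tg γ κ r) * IZ 0 (rd q r * rd r q) * C *
      vl (AS γ q (rho κ q) (tN γ κ q) (tP γ κ q) (QS 0 (tg γ κ q)) ∩
        AS γ r (rho κ r) (tN γ κ r) (tP γ κ r) (QS 0 (tg γ κ r))) := by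
    apply O_large γ 0 q r hq.1 hr.1 (rho κ q) (rho κ r) (tN γ κ q) (tP γ κ q) (tN γ κ r)
      (tP γ κ r) (tg γ κ q) (tg γ κ r) (pp_tg_sub γ κ q) (pp_tg_sub γ κ r) (pp_tg_ndvd γ κ q)
      (pp_tg_ndvd γ κ r) C hC.le
    intro x hx hH
    have h1 := pp_H γ κ q r hq hr x hx
    apply hEZ (tg γ κ q ∩ tg γ κ r) (max (tZ γ κ q) (tZ γ κ r)) _
      ((one_le_tZ γ κ q hq).trans (le_max_left _ _)) hH _ (pp_inter γ κ q r)
    refine h1.trans ?_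
    apply mul_le_mul_of_nonneg_right _ (sq_nonneg _)
    linarith
  rw [pp_QS_zero _ (fun p hp => pp_tg_prime γ κ q p hp),
    pp_QS_zero _ (fun p hp => pp_tg_prime γ κ r p hp)] at hL
  have hS : vl (AS γ q (rho κ q) (tN γ κ q) (tP γ κ q) ∅ ∩
        AS γ r (rho κ r) (tN γ κ r) (tP γ κ r) ∅) ≤
      4 * rho κ q * rho κ r * (1 + 1 / DD κ q r) := by
    have h1 := O_small γ q r hq.1 hr.1 (rho κ q) (rho κ r) (DD κ q r) hρ hq.2 hσ hr.2 hDp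
      (pp_DD κ q r hq.1 hr.1).ge (tN γ κ q) (tP γ κ q) (tN γ κ r) (tP γ κ r) ∅ ∅
      (Finset.empty_subset _) (Finset.empty_subset _) (by simp) (by simp)
    simp only [Finset.prod_empty, mul_one, Finset.card_empty, add_zero, pow_zero, one_mul] at h1
    refine h1.trans ?_
    have h2 : 2 * rho κ q * rho κ r / DD κ q r = 2 * rho κ q * rho κ r * (1 / DD κ q r) := by ring
    have h3 : 0 ≤ rho κ q * rho κ r * (1 / DD κ q r) := by positivity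
    rw [h2]
    nlinarith
  have eP : ∀ v : ℕ, PZ 0 (tg γ κ v) = ∏ p ∈ tg γ κ v, (1 - 1 / (p : ℝ)) := by
    intro v
    have h1 := pp_PZ_mul 0 (tg γ κ v)
    rw [pp_QS_zero _ (fun p hp => pp_tg_prime γ κ v p hp), Finset.prod_empty, mul_one] at h1
    exact h1
  have eI : IZ 0 (rd q r * rd r q) = Fw (rd q r) * Fw (rd r q) :=
    IZ_zero (rd q r) (rd r q) (rd_pos hq.1) (rd_pos hr.1) (rd_coprime hq.1)
  have hF : ∀ n : ℕ, 0 ≤ Fw n := fun n => by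
    unfold Fw
    positivity
  have hPq := pp_prod_nonneg (tg γ κ q) (fun p hp => pp_tg_prime γ κ q p hp)
  have hPr := pp_prod_nonneg (tg γ κ r) (fun p hp => pp_tg_prime γ κ r p hp)
  have htq := (tc_nonneg_le γ κ q hq.1).1
  have htr := (tc_nonneg_le γ κ r hr.1).1
  rw [eP, eP, eI] at hL
  have hL2 : vl (Ax γ κ q ∩ Ax γ κ r ∩ {x | Hx γ κ q r x ≠ 0}) ≤
      (∏ p ∈ tg γ κ q, (1 - 1 / (p : ℝ))) * (∏ p ∈ tg γ κ r, (1 - 1 / (p : ℝ))) *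
        (Fw (rd q r) * Fw (rd r q)) * C * (4 * rho κ q * rho κ r * (1 + 1 / DD κ q r)) :=
    hL.trans (mul_le_mul_of_nonneg_left hS (by
      have := hF (rd q r)
      have := hF (rd r q)
      positivity))
  calc tc γ κ q * tc γ κ r * vl (Ax γ κ q ∩ Ax γ κ r ∩ {x | Hx γ κ q r x ≠ 0})
      ≤ tc γ κ q * tc γ κ r * ((∏ p ∈ tg γ κ q, (1 - 1 / (p : ℝ))) *
          (∏ p ∈ tg γ κ r, (1 - 1 / (p : ℝ))) *
          (Fw (rd q r) * Fw (rd r q)) * C * (4 * rho κ q * rho κ r * (1 + 1 / DD κ q r))) :=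
        mul_le_mul_of_nonneg_left hL2 (mul_nonneg htq htr)
    _ = 4 * C * ((tc γ κ q * ∏ p ∈ tg γ κ q, (1 - 1 / (p : ℝ))) * rho κ q) *
          ((tc γ κ r * ∏ p ∈ tg γ κ r, (1 - 1 / (p : ℝ))) * rho κ r) *
          (1 + 1 / DD κ q r) * (Fw (rd q r) * Fw (rd r q)) := by ring
    _ = _ := by rw [tc_mul, tc_mul, pp_nu κ q hq.1, pp_nu κ r hr.1]

/-- [IDE-PP1] **Pairs with large `D`.**

PROOF.  `z = (1/4) log₂ D ≥ 4`.  `O_large` with this `z`, `Emax = exp (16/log z)` (`EZ_large`,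
`4 D Z_q Z_r ≤ 4·2^{4z} Z²`), then `O_small` for the small sets and `small_error`:
`vl ≤ PZ PZ' IZ exp (16/log z) · 4ρσ ∏_{QS} ∏_{QS'} (1 + D^{-1/4})`; `PZ z Q ∏_{QS z Q} (1-1/p) = ∏_Q`;
multiply by `tc q tc r` (`tc_mul`) and use `IZ_le_exp`. -/
theorem pair_large :
    ∃ D₁ : ℝ, 2 ^ 16 ≤ D₁ ∧ ∀ (γ : ℝ) (κ : ℕ → ℕ) (q r : ℕ), Adm κ q → Adm κ r → D₁ ≤ DD κ q r →
      tc γ κ q * tc γ κ r * vl (Ax γ κ q ∩ Ax γ κ r ∩ {x | Hx γ κ q r x ≠ 0}) ≤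
        4 * nu κ q * nu κ r * (1 + (DD κ q r) ^ (-(1 : ℝ) / 4)) *
          Real.exp (2 * ∑ p ∈ (rd q r * rd r q).primeFactors.filter
            (fun p : ℕ => Real.logb 2 (DD κ q r) / 4 < (p : ℝ)), 1 / (p : ℝ) +
            16 / Real.log (Real.logb 2 (DD κ q r) / 4)) := by
  obtain ⟨D₁, hD₁, herr⟩ := small_error
  refine ⟨D₁, hD₁, ?_⟩
  intro γ κ q r hq hr hD
  have hDp := pp_DD_pos κ q r hq.1 hr.1
  have hρ := rho_pos κ q hq.1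
  have hσ := rho_pos κ r hr.1
  set D : ℝ := DD κ q r with hDdef
  set z : ℝ := Real.logb 2 D / 4 with hz
  have hz4 : 4 ≤ z := by
    rw [hz, le_div_iff₀ (by norm_num), Real.le_logb_iff_rpow_le (by norm_num) hDp]
    calc (2 : ℝ) ^ ((4 : ℝ) * 4) = 2 ^ 16 := by
          rw [← Real.rpow_natCast]
          norm_num
      _ ≤ D := hD₁.trans hD
  have hz2 : (2 : ℝ) ^ (4 * z) = D := by
    have : 4 * z = Real.logb 2 D := by
      rw [hz]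
      ring
    rw [this, Real.rpow_logb (by norm_num) (by norm_num) hDp]
  have hL : vl (Ax γ κ q ∩ Ax γ κ r ∩ {x | Hx γ κ q r x ≠ 0}) ≤
      PZ z (tg γ κ q) * PZ z (tg γ κ r) * IZ z (rd q r * rd r q) * Real.exp (16 / Real.log z) *
      vl (AS γ q (rho κ q) (tN γ κ q) (tP γ κ q) (QS z (tg γ κ q)) ∩
        AS γ r (rho κ r) (tN γ κ r) (tP γ κ r) (QS z (tg γ κ r))) := by
    apply O_large γ z q r hq.1 hr.1 (rho κ q) (rho κ r) (tN γ κ q) (tP γ κ q) (tN γ κ r)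
      (tP γ κ r) (tg γ κ q) (tg γ κ r) (pp_tg_sub γ κ q) (pp_tg_sub γ κ r) (pp_tg_ndvd γ κ q)
      (pp_tg_ndvd γ κ r) _ (Real.exp_pos _).le
    intro x hx hH
    have h1 := pp_H γ κ q r hq hr x hx
    apply EZ_large (tg γ κ q ∩ tg γ κ r) (max (tZ γ κ q) (tZ γ κ r)) z _ (by linarith)
      ((one_le_tZ γ κ q hq).trans (le_max_left _ _)) hH _ (pp_inter γ κ q r)
    rw [hz2]
    exact h1
  set Pq : ℝ := ∏ p ∈ QS z (tg γ κ q), (1 - 1 / (p : ℝ)) with hPqd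
  set Pr : ℝ := ∏ p ∈ QS z (tg γ κ r), (1 - 1 / (p : ℝ)) with hPrd
  have hS : vl (AS γ q (rho κ q) (tN γ κ q) (tP γ κ q) (QS z (tg γ κ q)) ∩
        AS γ r (rho κ r) (tN γ κ r) (tP γ κ r) (QS z (tg γ κ r))) ≤
      4 * rho κ q * rho κ r * (Pq * Pr) * (1 + D ^ (-(1 : ℝ) / 4)) := by
    have h1 := O_small γ q r hq.1 hr.1 (rho κ q) (rho κ r) D hρ hq.2 hσ hr.2 hDp
      (pp_DD κ q r hq.1 hr.1).ge (tN γ κ q) (tP γ κ q) (tN γ κ r) (tP γ κ r)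
      (QS z (tg γ κ q)) (QS z (tg γ κ r))
      ((pp_QS_sub _ _).trans (pp_tg_sub γ κ q)) ((pp_QS_sub _ _).trans (pp_tg_sub γ κ r))
      (fun p hp => pp_tg_ndvd γ κ q p (pp_QS_sub _ _ hp))
      (fun p hp => pp_tg_ndvd γ κ r p (pp_QS_sub _ _ hp))
    have h2 := herr D (tg γ κ q) (tg γ κ r) hD (fun p hp => pp_tg_prime γ κ q p hp)
      (fun p hp => pp_tg_prime γ κ r p hp)
    rw [← hz] at h2
    refine h1.trans ?_
    have h3 : 2 ^ ((QS z (tg γ κ q)).card + (QS z (tg γ κ r)).card) *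
        (2 * rho κ q * rho κ r / D) = rho κ q * rho κ r *
        (2 ^ ((QS z (tg γ κ q)).card + (QS z (tg γ κ r)).card) * (2 / D)) := by ring
    rw [h3]
    have h4 := mul_le_mul_of_nonneg_left h2 (mul_pos hρ hσ).le
    calc 4 * rho κ q * rho κ r * Pq * Pr + rho κ q * rho κ r *
          (2 ^ ((QS z (tg γ κ q)).card + (QS z (tg γ κ r)).card) * (2 / D))
        ≤ 4 * rho κ q * rho κ r * Pq * Pr +
          rho κ q * rho κ r * (4 * Pq * Pr * D ^ (-(1 : ℝ) / 4)) := by linarith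
      _ = _ := by ring
  have hIZ := IZ_le_exp z (rd q r * rd r q)
  have hPZq := pp_PZ_nonneg z (tg γ κ q) (fun p hp => pp_tg_prime γ κ q p hp)
  have hPZr := pp_PZ_nonneg z (tg γ κ r) (fun p hp => pp_tg_prime γ κ r p hp)
  have hPq : 0 ≤ Pq := pp_prod_nonneg _ (fun p hp => pp_tg_prime γ κ q p (pp_QS_sub _ _ hp))
  have hPr : 0 ≤ Pr := pp_prod_nonneg _ (fun p hp => pp_tg_prime γ κ r p (pp_QS_sub _ _ hp))
  have htq := (tc_nonneg_le γ κ q hq.1).1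
  have htr := (tc_nonneg_le γ κ r hr.1).1
  have hI0 : 0 ≤ IZ z (rd q r * rd r q) := by
    classical
    unfold IZ
    apply Finset.prod_nonneg
    intro p hp
    have := pp_factor_pos p (Nat.prime_of_mem_primeFactors (Finset.mem_filter.1 hp).1)
    exact (inv_pos.2 this).le
  set EE : ℝ := Real.exp (16 / Real.log z) with hEE
  have hEE0 : 0 < EE := Real.exp_pos _
  set SS : ℝ := ∑ p ∈ (rd q r * rd r q).primeFactors.filter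
            (fun p : ℕ => z < (p : ℝ)), 1 / (p : ℝ) with hSS
  have hL2 : vl (Ax γ κ q ∩ Ax γ κ r ∩ {x | Hx γ κ q r x ≠ 0}) ≤
      PZ z (tg γ κ q) * PZ z (tg γ κ r) * IZ z (rd q r * rd r q) * EE *
        (4 * rho κ q * rho κ r * (Pq * Pr) * (1 + D ^ (-(1 : ℝ) / 4))) :=
    hL.trans (mul_le_mul_of_nonneg_left hS (by positivity))
  have e1 : PZ z (tg γ κ q) * Pq = ∏ p ∈ tg γ κ q, (1 - 1 / (p : ℝ)) := pp_PZ_mul z _
  have e2 : PZ z (tg γ κ r) * Pr = ∏ p ∈ tg γ κ r, (1 - 1 / (p : ℝ)) := pp_PZ_mul z _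
  have hnq := pp_nu_nonneg κ q
  have hnr := pp_nu_nonneg κ r
  calc tc γ κ q * tc γ κ r * vl (Ax γ κ q ∩ Ax γ κ r ∩ {x | Hx γ κ q r x ≠ 0})
      ≤ tc γ κ q * tc γ κ r * (PZ z (tg γ κ q) * PZ z (tg γ κ r) *
          IZ z (rd q r * rd r q) * EE *
          (4 * rho κ q * rho κ r * (Pq * Pr) * (1 + D ^ (-(1 : ℝ) / 4)))) :=
        mul_le_mul_of_nonneg_left hL2 (mul_nonneg htq htr)
    _ = 4 * ((tc γ κ q * (PZ z (tg γ κ q) * Pq)) * rho κ q) *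
          ((tc γ κ r * (PZ z (tg γ κ r) * Pr)) * rho κ r) *
          (1 + D ^ (-(1 : ℝ) / 4)) * (IZ z (rd q r * rd r q) * EE) := by ring
    _ = 4 * nu κ q * nu κ r * (1 + D ^ (-(1 : ℝ) / 4)) * (IZ z (rd q r * rd r q) * EE) := by
      rw [e1, e2, tc_mul, tc_mul, pp_nu κ q hq.1, pp_nu κ r hr.1]
    _ ≤ 4 * nu κ q * nu κ r * (1 + D ^ (-(1 : ℝ) / 4)) * (Real.exp (2 * SS) * EE) := by
      apply mul_le_mul_of_nonneg_left _ (by positivity)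
      exact mul_le_mul_of_nonneg_right hIZ hEE0.le
    _ = _ := by rw [hEE, ← Real.exp_add]

end Pool.Agent.IDE
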