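import Pool.Agent.IDE.RA

set_option autoImplicit false

namespace Pool.Agent.IDE

open Finset Pool.Agent.IDS

/-- `∑ 1/p` over the primes `p > y` dividing `m m'` -/
private noncomputable def ra2_SG (e : ℕ × ℕ) (y : ℝ) : ℝ :=
  ∑ p ∈ (rd e.1 e.2 * rd e.2 e.1).primeFactors.filter (fun p : ℕ => y < (p : ℝ)), 1 / (p : ℝ)

private noncomputable def ra2_nn (κ : ℕ → ℕ) (e : ℕ × ℕ) : ℕ := ⌈Real.logb 2 (DD κ e.1 e.2)⌉₊

private theorem ra2_DD_swap (κ : ℕ → ℕ) (q r : ℕ) : DD κ q r = DD κ r q := by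
  unfold DD
  rw [Nat.lcm_comm, max_comm]

private theorem ra2_PF_swap (κ : ℕ → ℕ) (q r : ℕ) : PF κ q r = PF κ r q := by
  unfold PF
  rw [ra2_DD_swap κ q r, Nat.mul_comm (rd q r) (rd r q)]

private theorem ra2_DD_le (κ : ℕ → ℕ) (q r : ℕ) (h : κ q ≤ κ r) :
    DD κ q r = (Nat.lcm q r : ℝ) * (1 / 2 : ℝ) ^ κ q := by
  unfold DD
  rw [max_eq_left]
  exact pow_le_pow_of_le_one (by norm_num) (by norm_num) h

private theorem ra2_split (e : ℕ × ℕ) (z y K : ℝ) (hK : 1 ≤ K) (hz : 2 ≤ z) (hy : y ≤ K * z) :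
    ra2_SG e z ≤ 3 * (Real.logb 2 K + 1) / Real.log z + ra2_SG e y := by
  classical
  have h1 : (rd e.1 e.2 * rd e.2 e.1).primeFactors.filter (fun p : ℕ => z < (p : ℝ)) ⊆
      (rd e.1 e.2 * rd e.2 e.1).primeFactors.filter (fun p : ℕ => z < (p : ℝ) ∧ (p : ℝ) ≤ K * z) ∪
      (rd e.1 e.2 * rd e.2 e.1).primeFactors.filter (fun p : ℕ => y < (p : ℝ)) := by
    intro p hp
    rw [Finset.mem_filter] at hp
    rw [Finset.mem_union, Finset.mem_filter, Finset.mem_filter]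
    by_cases h : y < (p : ℝ)
    · exact Or.inr ⟨hp.1, h⟩
    · push Not at h
      exact Or.inl ⟨hp.1, hp.2, h.trans hy⟩
  have h2 : ∑ p ∈ (rd e.1 e.2 * rd e.2 e.1).primeFactors.filter
      (fun p : ℕ => z < (p : ℝ) ∧ (p : ℝ) ≤ K * z), (1 : ℝ) / p ≤
        3 * (Real.logb 2 K + 1) / Real.log z := by
    apply cheb_short K hK z hz
    intro p hp
    rw [Finset.mem_filter] at hp
    exact ⟨Nat.prime_of_mem_primeFactors hp.1, hp.2.1, hp.2.2⟩
  calc ra2_SG e z ≤ ∑ p ∈ (rd e.1 e.2 * rd e.2 e.1).primeFactors.filter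
          (fun p : ℕ => z < (p : ℝ) ∧ (p : ℝ) ≤ K * z) ∪
        (rd e.1 e.2 * rd e.2 e.1).primeFactors.filter (fun p : ℕ => y < (p : ℝ)), (1 : ℝ) / p := by
        apply Finset.sum_le_sum_of_subset_of_nonneg h1
        intro i _ _
        positivity
    _ ≤ ∑ p ∈ (rd e.1 e.2 * rd e.2 e.1).primeFactors.filter
          (fun p : ℕ => z < (p : ℝ) ∧ (p : ℝ) ≤ K * z), (1 : ℝ) / p +
        ∑ p ∈ (rd e.1 e.2 * rd e.2 e.1).primeFactors.filter (fun p : ℕ => y < (p : ℝ)), (1 : ℝ) / p := by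
        rw [← Finset.sum_union_inter]
        have : 0 ≤ ∑ p ∈ (rd e.1 e.2 * rd e.2 e.1).primeFactors.filter
          (fun p : ℕ => z < (p : ℝ) ∧ (p : ℝ) ≤ K * z) ∩
            (rd e.1 e.2 * rd e.2 e.1).primeFactors.filter (fun p : ℕ => y < (p : ℝ)), (1 : ℝ) / p :=
          Finset.sum_nonneg (fun i _ => by positivity)
        linarith
    _ ≤ 3 * (Real.logb 2 K + 1) / Real.log z + ra2_SG e y := by
        unfold ra2_SG
        linarith

/-- the size of `t = 2 ^ n`. -/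
private theorem ra2_t (κ : ℕ → ℕ) (e : ℕ × ℕ) (hD : 2 ^ 16 ≤ DD κ e.1 e.2) :
    DD κ e.1 e.2 ≤ (2 : ℝ) ^ ra2_nn κ e ∧ 1 ≤ ra2_nn κ e ∧
      (ra2_nn κ e : ℝ) ≤ 2 * Real.logb 2 (DD κ e.1 e.2) ∧ 16 ≤ Real.logb 2 (DD κ e.1 e.2) := by
  have hD0 : 0 < DD κ e.1 e.2 := lt_of_lt_of_le (by norm_num) hD
  have h16 : 16 ≤ Real.logb 2 (DD κ e.1 e.2) := by
    rw [Real.le_logb_iff_rpow_le (by norm_num) hD0]
    exact_mod_cast hD
  have h1 : Real.logb 2 (DD κ e.1 e.2) ≤ ra2_nn κ e := Nat.le_ceil _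
  have h2 : (ra2_nn κ e : ℝ) < Real.logb 2 (DD κ e.1 e.2) + 1 := Nat.ceil_lt_add_one (by linarith)
  refine ⟨?_, ?_, by linarith, h16⟩
  · rw [← Real.rpow_natCast, ← Real.logb_le_iff_le_rpow (by norm_num) hD0]
    exact h1
  · have h3 : (1 : ℝ) ≤ ra2_nn κ e := by linarith
    exact_mod_cast h3

private theorem ra2_half (ε₀ : ℝ) (hε₀ : 0 < ε₀) :
    ∃ D₂ C : ℝ, 2 ^ 16 ≤ D₂ ∧ 0 < C ∧ ∀ (S : Finset ℕ) (κ : ℕ → ℕ) (μ : ℕ → ℝ)
      (E : Finset (ℕ × ℕ)), (∀ v, 0 ≤ μ v) →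
      (∀ v ∈ S, 0 < v ∧ μ v ≤ (Nat.totient v : ℝ) * (1 / 2 : ℝ) ^ κ v) → E ⊆ S ×ˢ S →
      (∀ e ∈ E, κ e.1 ≤ κ e.2) → (∀ e ∈ E, D₂ ≤ DD κ e.1 e.2) →
      ∑ e ∈ E, μ e.1 * μ e.2 * PF κ e.1 e.2 ≤
        (1 + ε₀) * em μ μ E + C * (ms μ S) ^ ((51 : ℝ) / 50) := by
  classical
  obtain ⟨e1, he1, he11, he1ε⟩ : ∃ e1 : ℝ, 0 < e1 ∧ e1 ≤ 1 ∧ e1 ≤ ε₀ :=
    ⟨min ε₀ 1, lt_min hε₀ one_pos, min_le_right _ _, min_le_left _ _⟩
  obtain ⟨δ, hδ⟩ : ∃ δ : ℝ, δ = e1 / 16 := ⟨_, rfl⟩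
  have hδ0 : 0 < δ := by rw [hδ]; positivity
  have hδ1 : δ ≤ 1 / 16 := by rw [hδ]; linarith
  obtain ⟨C, hC0, hC⟩ := rare_dyadic δ hδ0 (by linarith)
  obtain ⟨K, hK⟩ : ∃ K : ℝ, K = 64 / δ := ⟨_, rfl⟩
  have hK1 : 1 ≤ K := by
    rw [hK, le_div_iff₀ hδ0]
    linarith
  obtain ⟨c, hc⟩ : ∃ c : ℝ, c = 6 * (Real.logb 2 K + 1) + 16 := ⟨_, rfl⟩
  have hlogK : 0 ≤ Real.logb 2 K := Real.logb_nonneg (by norm_num) hK1
  have hc0 : 0 < c := by rw [hc]; positivity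
  -- D₂
  have hev : ∀ᶠ D : ℝ in Filter.atTop, D ^ (-(1 : ℝ) / 4) < δ ∧
      c / Real.log (Real.logb 2 D / 4) < δ := by
    apply Filter.Eventually.and
    · have h1 : Filter.Tendsto (fun D : ℝ => D ^ (-(1 / 4 : ℝ))) Filter.atTop (nhds 0) :=
        tendsto_rpow_neg_atTop (by norm_num)
      have h2 := h1.eventually (gt_mem_nhds hδ0)
      refine h2.mono ?_
      intro D hD
      rw [show -(1 : ℝ) / 4 = -(1 / 4 : ℝ) by ring]
      exact hD
    · have h1 : Filter.Tendsto (fun D : ℝ => Real.log (Real.logb 2 D / 4)) Filter.atTop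
          Filter.atTop :=
        Real.tendsto_log_atTop.comp
          ((Real.tendsto_logb_atTop (by norm_num)).atTop_div_const (by norm_num))
      have h2 := h1.const_div_atTop c
      exact h2.eventually (gt_mem_nhds hδ0)
  obtain ⟨D₁, hD₁⟩ := Filter.eventually_atTop.1 hev
  refine ⟨max (2 ^ 16) D₁, 12 * C, le_max_left _ _, by positivity, ?_⟩
  intro S κ μ E hμ hS hE hκ hD
  have hD16 : ∀ e ∈ E, 2 ^ 16 ≤ DD κ e.1 e.2 := fun e he => (le_max_left _ _).trans (hD e he)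
  have hDD1 : ∀ e ∈ E, D₁ ≤ DD κ e.1 e.2 := fun e he => (le_max_right _ _).trans (hD e he)
  -- bound for one edge
  have hedge : ∀ e ∈ E, PF κ e.1 e.2 ≤ (1 + ε₀) +
      (if δ < ra2_SG e (4 * Real.log ((2 : ℝ) ^ ra2_nn κ e) / δ) then
        6 * Real.exp (2 * ra2_SG e (4 * Real.log ((2 : ℝ) ^ ra2_nn κ e) / δ)) else 0) := by
    intro e he
    obtain ⟨ht1, ht2, ht3, ht4⟩ := ra2_t κ e (hD16 e he)
    obtain ⟨hd1, hd2⟩ := hD₁ _ (hDD1 e he)
    obtain ⟨D, hDe⟩ : ∃ D : ℝ, D = DD κ e.1 e.2 := ⟨_, rfl⟩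
    rw [← hDe] at ht1 ht3 ht4 hd1 hd2
    obtain ⟨y, hy⟩ : ∃ y : ℝ, y = 4 * Real.log ((2 : ℝ) ^ ra2_nn κ e) / δ := ⟨_, rfl⟩
    rw [← hy]
    have hz : 2 ≤ Real.logb 2 D / 4 := by linarith
    have hlogz : 0 < Real.log (Real.logb 2 D / 4) := Real.log_pos (by linarith)
    have hyK : y ≤ K * (Real.logb 2 D / 4) := by
      rw [hy, hK, Real.log_pow]
      have hl2 : Real.log 2 ≤ 1 := by linarith [Real.log_two_lt_d9]
      have hl0 : 0 < Real.log 2 := Real.log_pos (by norm_num)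
      have h5 : (ra2_nn κ e : ℝ) * Real.log 2 ≤ 2 * Real.logb 2 D := by
        have hnn : (0 : ℝ) ≤ ra2_nn κ e := Nat.cast_nonneg _
        calc (ra2_nn κ e : ℝ) * Real.log 2 ≤ (ra2_nn κ e : ℝ) * 1 := by gcongr
          _ ≤ 2 * Real.logb 2 D := by linarith
      rw [div_mul_eq_mul_div, div_le_div_iff_of_pos_right hδ0]
      linarith
    have hsp := ra2_split e (Real.logb 2 D / 4) y K hK1 hz hyK
    have hPF : PF κ e.1 e.2 ≤ (1 + δ) * Real.exp (2 * ra2_SG e y + δ) := by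
      have e0 : PF κ e.1 e.2 = (1 + D ^ (-(1 : ℝ) / 4)) *
          Real.exp (2 * ra2_SG e (Real.logb 2 D / 4) + 16 / Real.log (Real.logb 2 D / 4)) := by
        unfold PF ra2_SG
        rw [← hDe]
      rw [e0]
      have h6 : 2 * ra2_SG e (Real.logb 2 D / 4) + 16 / Real.log (Real.logb 2 D / 4) ≤
          2 * ra2_SG e y + δ := by
        have h7 : 2 * (3 * (Real.logb 2 K + 1) / Real.log (Real.logb 2 D / 4)) +
            16 / Real.log (Real.logb 2 D / 4) = c / Real.log (Real.logb 2 D / 4) := by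
          rw [hc]
          ring
        linarith
      have hDpos : 0 ≤ D ^ (-(1 : ℝ) / 4) := by
        apply Real.rpow_nonneg
        have := hD16 e he
        rw [← hDe] at this
        linarith
      gcongr
    have hexpd : (1 + δ) ≤ Real.exp δ := by
      have := Real.add_one_le_exp δ
      linarith
    split_ifs with hcase
    · have h8 : (1 + δ) * Real.exp (2 * ra2_SG e y + δ) ≤ 6 * Real.exp (2 * ra2_SG e y) := by
        rw [Real.exp_add]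
        have h9 : (1 + δ) * Real.exp δ ≤ 6 := by
          have h10 : Real.exp δ ≤ Real.exp 1 := Real.exp_le_exp.2 (by linarith)
          have h11 := Real.exp_one_lt_d9
          have h12 := Real.exp_pos δ
          nlinarith
        have h13 := Real.exp_pos (2 * ra2_SG e y)
        calc (1 + δ) * (Real.exp (2 * ra2_SG e y) * Real.exp δ) =
            ((1 + δ) * Real.exp δ) * Real.exp (2 * ra2_SG e y) := by ring
          _ ≤ 6 * Real.exp (2 * ra2_SG e y) := by gcongr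
      linarith
    · push Not at hcase
      rw [add_zero]
      refine hPF.trans ?_
      calc (1 + δ) * Real.exp (2 * ra2_SG e y + δ) ≤ Real.exp δ * Real.exp (2 * δ + δ) := by
            gcongr
        _ = Real.exp (e1 / 4) := by
            rw [← Real.exp_add]
            congr 1
            rw [hδ]; ring
        _ ≤ 1 + e1 := by
            have h14 := Real.add_one_le_exp (-(e1 / 4))
            have h15 : Real.exp (e1 / 4) * Real.exp (-(e1 / 4)) = 1 := by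
              rw [← Real.exp_add]; simp
            have h16 : 0 < 1 - e1 / 4 := by linarith
            have h17 : Real.exp (e1 / 4) * (1 - e1 / 4) ≤ 1 := by
              have := Real.exp_pos (e1 / 4)
              nlinarith
            have h18 : 1 ≤ (1 + e1) * (1 - e1 / 4) := by nlinarith
            exact le_of_mul_le_mul_right (h17.trans h18) h16
        _ ≤ 1 + ε₀ := by linarith
  -- sum
  have hsum1 : ∑ e ∈ E, μ e.1 * μ e.2 * PF κ e.1 e.2 ≤ (1 + ε₀) * em μ μ E +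
      6 * ∑ e ∈ E.filter (fun e => δ < ra2_SG e (4 * Real.log ((2 : ℝ) ^ ra2_nn κ e) / δ)),
        μ e.1 * μ e.2 * Real.exp (2 * ra2_SG e (4 * Real.log ((2 : ℝ) ^ ra2_nn κ e) / δ)) := by
    rw [Finset.sum_filter, Finset.mul_sum]
    unfold IDS.em
    rw [Finset.mul_sum, ← Finset.sum_add_distrib]
    apply Finset.sum_le_sum
    intro e he
    have h1 := hedge e he
    have h2 : 0 ≤ μ e.1 * μ e.2 := mul_nonneg (hμ _) (hμ _)
    calc μ e.1 * μ e.2 * PF κ e.1 e.2 ≤ μ e.1 * μ e.2 * ((1 + ε₀) +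
        (if δ < ra2_SG e (4 * Real.log ((2 : ℝ) ^ ra2_nn κ e) / δ) then
        6 * Real.exp (2 * ra2_SG e (4 * Real.log ((2 : ℝ) ^ ra2_nn κ e) / δ)) else 0)) := by gcongr
      _ = _ := by
        split_ifs <;> ring
  obtain ⟨E', hE'⟩ : ∃ E' : Finset (ℕ × ℕ), E' =
    E.filter (fun e => δ < ra2_SG e (4 * Real.log ((2 : ℝ) ^ ra2_nn κ e) / δ)) := ⟨_, rfl⟩
  rw [← hE'] at hsum1
  have hW0 : 0 ≤ (ms μ S) ^ ((51 : ℝ) / 50) := Real.rpow_nonneg (ms_nonneg hμ S) _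
  have hsum2 : ∑ e ∈ E', μ e.1 * μ e.2 *
      Real.exp (2 * ra2_SG e (4 * Real.log ((2 : ℝ) ^ ra2_nn κ e) / δ)) ≤
      2 * (C * (ms μ S) ^ ((51 : ℝ) / 50)) := by
    rw [← Finset.sum_fiberwise_of_maps_to (t := E'.image (ra2_nn κ)) (g := ra2_nn κ)
      (fun e he => Finset.mem_image_of_mem _ he)]
    have hn : ∀ n ∈ E'.image (ra2_nn κ), ∑ e ∈ E'.filter (fun e => ra2_nn κ e = n),
        μ e.1 * μ e.2 * Real.exp (2 * ra2_SG e (4 * Real.log ((2 : ℝ) ^ ra2_nn κ e) / δ)) ≤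
        (C * (ms μ S) ^ ((51 : ℝ) / 50)) * (1 / 64) ^ n := by
      intro n hn
      have h1n : 1 ≤ n := by
        obtain ⟨e, he, rfl⟩ := Finset.mem_image.1 hn
        rw [hE', Finset.mem_filter] at he
        exact (ra2_t κ e (hD16 e he.1)).2.1
      have h2 := hC S κ μ ((2 : ℝ) ^ n) (E'.filter (fun e => ra2_nn κ e = n)) hμ hS
        (by
          calc (2 : ℝ) = 2 ^ 1 := by norm_num
            _ ≤ 2 ^ n := pow_le_pow_right₀ (by norm_num) h1n)
        (by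
          intro e he
          rw [Finset.mem_filter, hE', Finset.mem_filter] at he
          exact hE he.1.1)
        (by
          intro e he
          rw [Finset.mem_filter, hE', Finset.mem_filter] at he
          obtain ⟨⟨h3, h4⟩, h5⟩ := he
          refine ⟨hκ e h3, ?_, ?_⟩
          · rw [← ra2_DD_le κ e.1 e.2 (hκ e h3), ← h5]
            exact (ra2_t κ e (hD16 e h3)).1
          · rw [h5] at h4
            exact h4)
      have h3 : ((2 : ℝ) ^ n) ^ (-(6 : ℝ)) = (1 / 64) ^ n := by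
        rw [Real.rpow_neg (by positivity)]
        rw [show (6 : ℝ) = ((6 : ℕ) : ℝ) by norm_num, Real.rpow_natCast, ← pow_mul, mul_comm n 6,
          pow_mul, ← inv_pow]
        norm_num
      rw [h3] at h2
      refine le_trans (le_of_eq ?_) h2
      apply Finset.sum_congr rfl
      intro e he
      rw [Finset.mem_filter] at he
      rw [he.2]
      rfl
    refine (Finset.sum_le_sum hn).trans ?_
    rw [← Finset.mul_sum, mul_comm]
    have hgeo : ∑ n ∈ E'.image (ra2_nn κ), (1 / 64 : ℝ) ^ n ≤ 2 := by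
      have h1 : Summable (fun n : ℕ => (1 / 64 : ℝ) ^ n) :=
        summable_geometric_of_lt_one (by norm_num) (by norm_num)
      have h2 := h1.sum_le_tsum (E'.image (ra2_nn κ)) (fun n _ => by positivity)
      rw [tsum_geometric_of_lt_one (by norm_num) (by norm_num)] at h2
      refine h2.trans ?_
      norm_num
    have : 0 ≤ C * (ms μ S) ^ ((51 : ℝ) / 50) := mul_nonneg hC0.le hW0
    gcongr
  linarith

/-- [IDE-RA2] **Main term for large `D`.**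

PROOF.  The summand is symmetric (`DD`, `PF` symmetric), so let first `κ e.1 ≤ κ e.2` for all edges (the
other ones by symmetry; the constant `C` doubles); `D = lcm (1/2)^{κ e.1}`.  Put `eps = min(ε₀, 1)/16`.
For an edge let `t = 2^n` with `t/2 < D ≤ t`, `z = log₂ D/4`, `y = 4 log t/eps` (so `y ≤ K z`,
`K = 64/eps`).  The primes in `(z, y]` contribute `≤ 3 (log₂ K + 1)/log z` to `∑ 1/p` (`cheb_short`).
Let `Σ = ∑_{p ∣ mm', p > y} 1/p`.
If `Σ ≤ eps`: `PF ≤ (1 + D^{-1/4}) exp (2 eps + 6 (log₂ K + 1)/log z + 16/log z) ≤ 1 + ε₀` for `D ≥ D₂`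
(`exp (2 eps) ≤ exp (min(ε₀,1)/8) ≤ 1 + min(ε₀,1)/4`).
If `Σ > eps`: `PF ≤ C' exp (2Σ)`, and `rare_dyadic` for every dyadic `t = 2^n`:
`∑_n C W^{51/50} 2^{-6n} ≤ C'' W^{51/50}`. -/
theorem main_large (ε₀ : ℝ) (hε₀ : 0 < ε₀) :
    ∃ D₂ C : ℝ, 2 ^ 16 ≤ D₂ ∧ 0 < C ∧ ∀ (S : Finset ℕ) (κ : ℕ → ℕ) (μ : ℕ → ℝ)
      (E : Finset (ℕ × ℕ)), (∀ v, 0 ≤ μ v) →
      (∀ v ∈ S, 0 < v ∧ μ v ≤ (Nat.totient v : ℝ) * (1 / 2 : ℝ) ^ κ v) → E ⊆ S ×ˢ S →
      (∀ e ∈ E, D₂ ≤ DD κ e.1 e.2) →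
      ∑ e ∈ E, μ e.1 * μ e.2 * PF κ e.1 e.2 ≤
        (1 + ε₀) * em μ μ E + C * (ms μ S) ^ ((51 : ℝ) / 50) := by
  classical
  obtain ⟨D₂, C, hD₂, hC0, hC⟩ := ra2_half ε₀ hε₀
  refine ⟨D₂, 2 * C, hD₂, by positivity, ?_⟩
  intro S κ μ E hμ hS hE hD
  have h1 := hC S κ μ (E.filter (fun e => κ e.1 ≤ κ e.2)) hμ hS
    ((Finset.filter_subset _ _).trans hE)
    (fun e he => (Finset.mem_filter.1 he).2)
    (fun e he => hD e (Finset.mem_filter.1 he).1)
  have hmem : ∀ e ∈ (E.filter (fun e => ¬ κ e.1 ≤ κ e.2)).image Prod.swap,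
      e.swap ∈ E ∧ κ e.1 < κ e.2 := by
    intro e he
    obtain ⟨e', he', rfl⟩ := Finset.mem_image.1 he
    rw [Finset.mem_filter] at he'
    rw [Prod.swap_swap]
    exact ⟨he'.1, not_le.1 he'.2⟩
  have h2 := hC S κ μ ((E.filter (fun e => ¬ κ e.1 ≤ κ e.2)).image Prod.swap) hμ hS
    (by
      intro e he
      have h3 := hE (hmem e he).1
      rw [Finset.mem_product] at h3 ⊢
      exact ⟨h3.2, h3.1⟩)
    (fun e he => (hmem e he).2.le)
    (fun e he => by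
      have h3 := hD _ (hmem e he).1
      rw [ra2_DD_swap]
      exact h3)
  have hem : em μ μ ((E.filter (fun e => ¬ κ e.1 ≤ κ e.2)).image Prod.swap) =
      em μ μ (E.filter (fun e => ¬ κ e.1 ≤ κ e.2)) := by
    unfold IDS.em
    rw [Finset.sum_image (fun a _ b _ h => Prod.swap_injective h)]
    apply Finset.sum_congr rfl
    intro e _
    simp only [Prod.fst_swap, Prod.snd_swap]
    ring
  have hs2 : ∑ e ∈ (E.filter (fun e => ¬ κ e.1 ≤ κ e.2)).image Prod.swap,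
      μ e.1 * μ e.2 * PF κ e.1 e.2 =
      ∑ e ∈ E.filter (fun e => ¬ κ e.1 ≤ κ e.2), μ e.1 * μ e.2 * PF κ e.1 e.2 := by
    rw [Finset.sum_image (fun a _ b _ h => Prod.swap_injective h)]
    apply Finset.sum_congr rfl
    intro e _
    simp only [Prod.fst_swap, Prod.snd_swap]
    rw [ra2_PF_swap κ e.2 e.1]
    ring
  rw [hem, hs2] at h2
  have h3 := Finset.sum_filter_add_sum_filter_not E (fun e => κ e.1 ≤ κ e.2)
    (fun e => μ e.1 * μ e.2 * PF κ e.1 e.2)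
  have h4 : em μ μ (E.filter (fun e => κ e.1 ≤ κ e.2)) +
      em μ μ (E.filter (fun e => ¬ κ e.1 ≤ κ e.2)) = em μ μ E :=
    Finset.sum_filter_add_sum_filter_not E (fun e => κ e.1 ≤ κ e.2) (fun e => μ e.1 * μ e.2)
  rw [← h3, ← h4]
  linarith

end Pool.Agent.IDE
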