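import Pool.Agent.IDE.Tg

set_option autoImplicit false

namespace Pool.Agent.IDE

open Finset Pool.Agent.IDS MeasureTheory

private lemma o2_le (G : ℕ) (hG : 1 ≤ G) (Q : Finset ℕ) (hQ : ∀ p ∈ Q, p.Prime ∧ p ∣ G)
    (bad : ℕ → Finset ℕ) (p : ℕ) (hp : p.Prime) (hpG : p ∣ G) (hpQ : p ∉ Q) (a b : ℕ)
    (ha : a < p) (hb : b < p) :
    ((range G).filter (fun l => (∀ q ∈ Q, l % q ∉ bad q) ∧ l % p = a)).card ≤
      ((range G).filter (fun l => (∀ q ∈ Q, l % q ∉ bad q) ∧ l % p = b)).card := by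
  have hco : Nat.Coprime p (∏ q ∈ Q, q) := by
    refine Nat.Coprime.prod_right ?_
    intro q hq
    exact (Nat.coprime_primes hp (hQ q hq).1).2 (fun h => hpQ (h ▸ hq))
  obtain ⟨s, hs1, hs2⟩ := Nat.chineseRemainder hco (b + (p - a)) 0
  have hsq : ∀ q ∈ Q, q ∣ s := by
    intro q hq
    have h1 : (∏ q ∈ Q, q) ∣ s := (Nat.modEq_zero_iff_dvd).1 hs2
    exact (Finset.dvd_prod_of_mem _ hq).trans h1
  refine Finset.card_le_card_of_injOn (fun l => (l + s) % G) ?_ ?_
  · intro l hl
    simp only [coe_filter, mem_range, Set.mem_ofPred_eq] at hl ⊢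
    obtain ⟨hl1, hl2, hl3⟩ := hl
    refine ⟨Nat.mod_lt _ hG, ?_, ?_⟩
    · intro q hq
      rw [Nat.mod_mod_of_dvd _ (hQ q hq).2]
      obtain ⟨c, hc⟩ := hsq q hq
      rw [hc, Nat.add_mul_mod_self_left]
      exact hl2 q hq
    · rw [Nat.mod_mod_of_dvd _ hpG, Nat.add_mod, hl3, hs1, Nat.add_mod_mod]
      have : a + (b + (p - a)) = b + p := by omega
      rw [this, Nat.add_mod_right, Nat.mod_eq_of_lt hb]
  · intro l hl l' hl' h
    simp only [coe_filter, mem_range, Set.mem_ofPred_eq] at hl hl' h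
    have h1 : l + s ≡ l' + s [MOD G] := h
    have h2 : l ≡ l' [MOD G] := Nat.ModEq.add_right_cancel' s h1
    exact Nat.ModEq.eq_of_lt_of_lt h2 hl.1 hl'.1

private lemma o2_eq (G : ℕ) (hG : 1 ≤ G) (Q : Finset ℕ) (hQ : ∀ p ∈ Q, p.Prime ∧ p ∣ G)
    (bad : ℕ → Finset ℕ) (p : ℕ) (hp : p.Prime) (hpG : p ∣ G) (hpQ : p ∉ Q)
    (hbad : bad p ⊆ range p) :
    ((p : ℝ)) * (((range G).filter (fun l => (∀ q ∈ Q, l % q ∉ bad q) ∧ l % p ∉ bad p)).card : ℝ) =
      ((p : ℝ) - (bad p).card) * (((range G).filter (fun l => (∀ q ∈ Q, l % q ∉ bad q))).card : ℝ) := by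
  classical
  set A := (range G).filter (fun l => (∀ q ∈ Q, l % q ∉ bad q)) with hA
  set c := ((range G).filter (fun l => (∀ q ∈ Q, l % q ∉ bad q) ∧ l % p = 0)).card with hc
  have hall : ∀ a ∈ range p, (A.filter (fun l => l % p = a)).card = c := by
    intro a ha
    rw [mem_range] at ha
    rw [hA, Finset.filter_filter, hc]
    exact le_antisymm (o2_le G hG Q hQ bad p hp hpG hpQ a 0 ha hp.pos)
      (o2_le G hG Q hQ bad p hp hpG hpQ 0 a hp.pos ha)
  have h1 : A.card = p * c := by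
    have := Finset.card_eq_sum_card_fiberwise (f := fun l => l % p) (s := A) (t := range p)
      (fun l _ => by simpa using Nat.mod_lt l hp.pos)
    rw [this, Finset.sum_congr rfl hall, Finset.sum_const, card_range, smul_eq_mul]
  have h2 : ((range G).filter (fun l => (∀ q ∈ Q, l % q ∉ bad q) ∧ l % p ∉ bad p)).card =
      (p - (bad p).card) * c := by
    have h3 : (range G).filter (fun l => (∀ q ∈ Q, l % q ∉ bad q) ∧ l % p ∉ bad p) =
        A.filter (fun l => l % p ∉ bad p) := by rw [hA, Finset.filter_filter]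
    rw [h3]
    have := Finset.card_eq_sum_card_fiberwise (f := fun l => l % p)
      (s := A.filter (fun l => l % p ∉ bad p)) (t := range p \ bad p)
      (fun l hl => by
        simp only [coe_filter, Set.mem_ofPred_eq] at hl
        simp only [coe_sdiff, coe_range, Set.mem_sdiff, Set.mem_Iio, mem_coe]
        exact ⟨Nat.mod_lt l hp.pos, hl.2⟩)
    rw [this]
    have h4 : ∀ a ∈ range p \ bad p,
        ((A.filter (fun l => l % p ∉ bad p)).filter (fun l => l % p = a)).card = c := by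
      intro a ha
      rw [mem_sdiff] at ha
      rw [← hall a ha.1, Finset.filter_filter]
      congr 1
      apply Finset.filter_congr
      intro l _
      constructor
      · exact fun h => h.2
      · exact fun h => ⟨h ▸ ha.2, h⟩
    rw [Finset.sum_congr rfl h4, Finset.sum_const, card_sdiff_of_subset hbad, card_range,
      smul_eq_mul]
  have h5 : (bad p).card ≤ p := by
    have := card_le_card hbad
    rwa [card_range] at this
  rw [h1, h2]
  push_cast [Nat.cast_sub h5]
  ring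

/-- [IDE-O2] **Counting with the Chinese remainder theorem.**

PROOF.  Induction on `Q`.  For `p ∉ Q` (all primes distinct) write `G = p^v G'` with `p ∤ G'`,
`v ≥ 1`... or directly: the map `l ↦ (l mod p)_{p ∈ Q}` from `range G` to `∏_{p∈Q} range p` has all
fibres of the same size `G/∏ p` (`∏_{p∈Q} p ∣ G`; Chinese remainder theorem
`Nat.chineseRemainderOfFinset`, or `ZMod.prodEquivPi`; periodicity of the count of
`l mod (∏ p)`: `Nat.count_modEq_card`, `Nat.filter_Ico_..._card`).  The allowed residue vectors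
number `∏ (p - #(bad p))`. -/
theorem crt_count (G : ℕ) (hG : 1 ≤ G) (Q : Finset ℕ) (hQ : ∀ p ∈ Q, p.Prime ∧ p ∣ G)
    (bad : ℕ → Finset ℕ) (hbad : ∀ p ∈ Q, bad p ⊆ range p) :
    (((range G).filter (fun l => ∀ p ∈ Q, l % p ∉ bad p)).card : ℝ) =
      G * ∏ p ∈ Q, (1 - ((bad p).card : ℝ) / p) := by
  classical
  induction Q using Finset.induction_on with
  | empty => simp
  | insert p Q hpQ ih =>
    have hQ' : ∀ q ∈ Q, q.Prime ∧ q ∣ G := fun q hq => hQ q (mem_insert_of_mem hq)
    have hp := hQ p (mem_insert_self _ _)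
    have h1 := o2_eq G hG Q hQ' bad p hp.1 hp.2 hpQ (hbad p (mem_insert_self _ _))
    rw [ih hQ' (fun q hq => hbad q (mem_insert_of_mem hq))] at h1
    have h2 : (range G).filter (fun l => ∀ q ∈ insert p Q, l % q ∉ bad q) =
        (range G).filter (fun l => (∀ q ∈ Q, l % q ∉ bad q) ∧ l % p ∉ bad p) := by
      apply Finset.filter_congr
      intro l _
      rw [Finset.forall_mem_insert]
      exact and_comm
    rw [h2, Finset.prod_insert hpQ]
    have hp0 : (p : ℝ) ≠ 0 := by exact_mod_cast hp.1.ne_zero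
    have h3 := mul_left_cancel₀ hp0 (b := (((range G).filter
      (fun l => (∀ q ∈ Q, l % q ∉ bad q) ∧ l % p ∉ bad p)).card : ℝ))
      (c := G * ((1 - ((bad p).card : ℝ) / p) * ∏ q ∈ Q, (1 - ((bad q).card : ℝ) / q))) ?_
    · exact h3
    · rw [h1]; field_simp

end Pool.Agent.IDE
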