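import Pool.Agent.IDE.O6
import Pool.Agent.IDE.O2

set_option autoImplicit false

namespace Pool.Agent.IDE

open Finset Pool.Agent.IDS MeasureTheory

private lemma o7_nonneg (p : ℕ) : 0 ≤ 1 - 1 / (p : ℝ) := by
  rcases Nat.eq_zero_or_pos p with h | h
  · simp [h]
  · have : (1 : ℝ) ≤ p := by exact_mod_cast h
    have h2 : 1 / (p : ℝ) ≤ 1 := by rw [div_le_one (by linarith)]; exact this
    linarith

private lemma o7_exists (p : ℕ) (hp : p.Prime) (u k : ℤ) (hk : ¬ (p : ℤ) ∣ k) :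
    ∃ a ∈ range p, (p : ℤ) ∣ u + k * (a : ℕ) := by
  have : Fact p.Prime := ⟨hp⟩
  have hk' : (k : ZMod p) ≠ 0 := by
    rwa [Ne, ZMod.intCast_zmod_eq_zero_iff_dvd]
  refine ⟨(-(u : ZMod p) / (k : ZMod p)).val, mem_range.2 (ZMod.val_lt _), ?_⟩
  rw [← ZMod.intCast_zmod_eq_zero_iff_dvd]
  push_cast
  rw [ZMod.natCast_zmod_val]
  field_simp
  ring

/-- [IDE-O7] **The part `H = 0` with sieving on one side.**

PROOF.  `averaging` with `G = g = gcd q r`, `A = AS(Q₁) ∩ AS(Q₂) ∩ {H = 0}`,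
`B = AS(∅) ∩ AS(∅) ∩ {H = 0}`: a shift by `l/g` preserves `nd (q x - γ)`, `nd (r x - γ)` and `H`
(`shift_round`, `shift_HH`) and changes `u` to `u + N₁ m l`; for the primes `p ∈ Q₁`, `p ∤ m` (so `p ∣ g`,
`p ∤ N₁ m`) the condition `p ∤ u + N₁ m l` excludes exactly one residue `l mod p`; `crt_count`:
at most `g ∏_{p ∈ Q₁, p ∤ m} (1 - 1/p)` shifts are good.  Then `zero_vol`. -/
theorem O_zero (γ : ℝ) (q r : ℕ) (hq : 1 ≤ q) (hr : 1 ≤ r) (ρ σ : ℝ) (h0 : 0 ≤ ρ)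
    (h0' : ρ < 1 / 2) (h3 : 0 ≤ σ) (h3' : σ < 1 / 2)
    (N₁ : ℕ) (P₁ : ℤ) (N₂ : ℕ) (P₂ : ℤ) (hN₁ : 1 ≤ N₁) (hN₂ : 1 ≤ N₂) (Q₁ Q₂ : Finset ℕ)
    (hQ₁ : Q₁ ⊆ q.primeFactors) (hQ₂ : Q₂ ⊆ r.primeFactors) (h₁ : ∀ p ∈ Q₁, ¬ p ∣ N₁) :
    vl (AS γ q ρ N₁ P₁ Q₁ ∩ AS γ r σ N₂ P₂ Q₂ ∩ {x | HH γ q r N₁ P₁ N₂ P₂ x = 0}) ≤
      2 * min (ρ / q) (σ / r) * Nat.gcd q r * ∏ p ∈ Q₁ with ¬ p ∣ rd q r, (1 - 1 / (p : ℝ)) := by
  classical
  have hg : 1 ≤ Nat.gcd q r := Nat.gcd_pos_of_pos_left r hq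
  have hc0 : 0 ≤ ∏ p ∈ Q₁ with ¬ p ∣ rd q r, (1 - 1 / (p : ℝ)) :=
    Finset.prod_nonneg fun p _ => o7_nonneg p
  have hd₁ : ∀ p ∈ Q₁, p ∣ q := fun p hp => Nat.dvd_of_mem_primeFactors (hQ₁ hp)
  have hd₂ : ∀ p ∈ Q₂, p ∣ r := fun p hp => Nat.dvd_of_mem_primeFactors (hQ₂ hp)
  have hsq := fun (x : ℝ) (l : ℕ) =>
    shift_round γ q (Nat.gcd q r) l hg (Nat.gcd_dvd_left q r) x
  have hsr := fun (x : ℝ) (l : ℕ) =>
    shift_round γ r (Nat.gcd q r) l hg (Nat.gcd_dvd_right q r) x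
  have key := averaging
    (AS γ q ρ N₁ P₁ Q₁ ∩ AS γ r σ N₂ P₂ Q₂ ∩ {x | HH γ q r N₁ P₁ N₂ P₂ x = 0})
    (AS γ q ρ N₁ P₁ ∅ ∩ AS γ r σ N₂ P₂ ∅ ∩ {x | HH γ q r N₁ P₁ N₂ P₂ x = 0})
    (((measurableSet_AS _ _ _ _ _ _).inter (measurableSet_AS _ _ _ _ _ _)).inter
      (measurableSet_HH _ _ _ _ _ _ _))
    (((measurableSet_AS _ _ _ _ _ _).inter (measurableSet_AS _ _ _ _ _ _)).inter
      (measurableSet_HH _ _ _ _ _ _ _))
    (fun x => by
      simp only [Set.mem_inter_iff, Set.mem_ofPred_eq, AS_periodic _ _ _ _ _ _ hd₁,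
        AS_periodic _ _ _ _ _ _ hd₂, HH_periodic])
    (Nat.gcd q r) hg (∏ p ∈ Q₁ with ¬ p ∣ rd q r, (1 - 1 / (p : ℝ))) hc0
    (fun x hx l _ hA => hx (by
      obtain ⟨⟨h1, h2⟩, h3⟩ := hA
      refine ⟨⟨⟨?_, by simp⟩, ⟨?_, by simp⟩⟩, ?_⟩
      · have := h1.1
        rwa [(hsq x l).2] at this
      · have := h2.1
        rwa [(hsr x l).2] at this
      · have h4 : HH γ q r N₁ P₁ N₂ P₂ (x + (l : ℝ) / (Nat.gcd q r : ℕ)) = 0 := h3
        rw [shift_HH γ q r _ l hq hr hg dvd_rfl] at h4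
        exact h4))
    (fun x _ => by
      set u : ℤ := (N₁ : ℤ) * round ((q : ℝ) * x - γ) + P₁ with hu
      set bad : ℕ → Finset ℕ := fun p =>
        (range p).filter (fun a => (p : ℤ) ∣ u + (N₁ : ℤ) * rd q r * (a : ℕ)) with hbad
      set Q' := Q₁.filter (fun p => ¬ p ∣ rd q r) with hQ'
      have hprime : ∀ p ∈ Q', p.Prime := fun p hp =>
        Nat.prime_of_mem_primeFactors (hQ₁ (mem_filter.1 hp).1)
      have hQd : ∀ p ∈ Q', p.Prime ∧ p ∣ Nat.gcd q r := by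
        intro p hp
        refine ⟨hprime p hp, ?_⟩
        rw [hQ', mem_filter] at hp
        have h5 : p ∣ rd q r * Nat.gcd q r := by rw [rd_mul_gcd]; exact hd₁ p hp.1
        exact ((Nat.prime_of_mem_primeFactors (hQ₁ hp.1)).dvd_mul.1 h5).resolve_left hp.2
      have hcard : ∀ p ∈ Q', (1 : ℝ) ≤ ((bad p).card : ℝ) := by
        intro p hp
        have hk : ¬ (p : ℤ) ∣ (N₁ : ℤ) * rd q r := by
          intro h
          have h' : p ∣ N₁ * rd q r := by exact_mod_cast h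
          rcases (hprime p hp).dvd_mul.1 h' with h6 | h6
          · exact h₁ p (mem_filter.1 hp).1 h6
          · exact (mem_filter.1 hp).2 h6
        obtain ⟨a, ha, ha'⟩ := o7_exists p (hprime p hp) u _ hk
        have : 0 < (bad p).card := Finset.card_pos.2 ⟨a, mem_filter.2 ⟨ha, ha'⟩⟩
        exact_mod_cast this
      have e1 := crt_count (Nat.gcd q r) hg Q' hQd bad (fun p _ => Finset.filter_subset _ _)
      have e2 : (Set.ncard {l : ℕ | l ∈ range (Nat.gcd q r) ∧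
          x + (l : ℝ) / (Nat.gcd q r : ℕ) ∈ AS γ q ρ N₁ P₁ Q₁ ∩ AS γ r σ N₂ P₂ Q₂ ∩
            {x | HH γ q r N₁ P₁ N₂ P₂ x = 0}} : ℝ) ≤
          (((range (Nat.gcd q r)).filter (fun l => ∀ p ∈ Q', l % p ∉ bad p)).card : ℝ) := by
        have hsub : {l : ℕ | l ∈ range (Nat.gcd q r) ∧
            x + (l : ℝ) / (Nat.gcd q r : ℕ) ∈ AS γ q ρ N₁ P₁ Q₁ ∩ AS γ r σ N₂ P₂ Q₂ ∩
              {x | HH γ q r N₁ P₁ N₂ P₂ x = 0}} ⊆
            (((range (Nat.gcd q r)).filter (fun l => ∀ p ∈ Q', l % p ∉ bad p) : Finset ℕ) :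
              Set ℕ) := by
          intro l hl
          simp only [coe_filter, Set.mem_ofPred_eq]
          refine ⟨hl.1, ?_⟩
          intro p hp hmem
          have hp1 : p ∈ Q₁ := (mem_filter.1 hp).1
          have h7 := hl.2.1.1.2 p hp1
          rw [(hsq x l).1] at h7
          apply h7
          have h8 : (p : ℤ) ∣ u + (N₁ : ℤ) * rd q r * ((l % p : ℕ) : ℤ) := (mem_filter.1 hmem).2
          have h9 : ((l : ℕ) : ℤ) = ((l % p : ℕ) : ℤ) + (p : ℤ) * ((l / p : ℕ) : ℤ) := by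
            exact_mod_cast (Nat.mod_add_div l p).symm
          have h10 : (N₁ : ℤ) * (round ((q : ℝ) * x - γ) +
              ((q / Nat.gcd q r : ℕ) : ℤ) * l) + P₁ =
              (u + (N₁ : ℤ) * rd q r * ((l % p : ℕ) : ℤ)) +
                (p : ℤ) * ((N₁ : ℤ) * rd q r * ((l / p : ℕ) : ℤ)) := by
            have : ((q / Nat.gcd q r : ℕ) : ℤ) = ((rd q r : ℕ) : ℤ) := rfl
            rw [this, h9, hu]
            ring
          rw [h10]
          exact dvd_add h8 (dvd_mul_right _ _)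
        have := Set.ncard_le_ncard hsub (Finset.finite_toSet _)
        rw [Set.ncard_coe_finset] at this
        exact_mod_cast this
      refine e2.trans ?_
      rw [e1, mul_comm]
      refine mul_le_mul_of_nonneg_right ?_ (Nat.cast_nonneg _)
      refine Finset.prod_le_prod ?_ ?_
      · intro p hp
        have hp0 : (0 : ℝ) < p := by exact_mod_cast (hprime p hp).pos
        have h11 : ((bad p).card : ℝ) ≤ p := by
          have := Finset.card_filter_le (range p) (fun a : ℕ => (p : ℤ) ∣ u + (N₁ : ℤ) * rd q r * (a : ℕ))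
          rw [card_range] at this
          exact_mod_cast this
        have h12 : ((bad p).card : ℝ) / p ≤ 1 := by rw [div_le_one hp0]; exact h11
        linarith
      · intro p hp
        have hp0 : (0 : ℝ) < p := by exact_mod_cast (hprime p hp).pos
        have := div_le_div_of_nonneg_right (hcard p hp) hp0.le
        linarith)
  have hz := zero_vol γ q r hq hr ρ σ h0 h0' h3 h3' N₁ P₁ N₂ P₂ hN₁ hN₂
  calc _ ≤ _ := key
    _ ≤ (∏ p ∈ Q₁ with ¬ p ∣ rd q r, (1 - 1 / (p : ℝ))) *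
        (2 * min (ρ / q) (σ / r) * Nat.gcd q r) := mul_le_mul_of_nonneg_left hz hc0
    _ = _ := by ring

end Pool.Agent.IDE
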