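import Pool.Agent.IDE.SC2
import Pool.Agent.IDE.O7
import Pool.Agent.IDE.PP

set_option autoImplicit false

namespace Pool.Agent.IDE

open Finset Pool.Agent.IDS MeasureTheory

theorem sc3_smooth (γ : ℝ) (κ : ℕ → ℕ) (q r : ℕ) (hq : Adm κ q) (hr : Adm κ r)
    (x : ℝ) (hx : x ∈ Ax γ κ q ∩ Ax γ κ r) (hH : Hx γ κ q r x = 0) (p : ℕ) (hp : p.Prime)
    (hpm : p ∣ rd q r) : (p : ℝ) ≤ Real.log (tZ γ κ q) ∨ p ∣ tN γ κ r := by
  by_contra hcon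
  push Not at hcon
  obtain ⟨h1, h2⟩ := hcon
  have hq1 : 0 < q := hq.1
  by_cases h3 : p ∣ tN γ κ q
  · -- `p ∣ u_q`, so `p ∣ P_q`
    have h4 : (tN γ κ r : ℤ) * rd r q * ((tN γ κ q : ℤ) * round (q * x - γ) + tP γ κ q) -
        (tN γ κ q : ℤ) * rd q r * ((tN γ κ r : ℤ) * round (r * x - γ) + tP γ κ r) = 0 := hH
    have hpI : Prime (p : ℤ) := Nat.prime_iff_prime_int.mp hp
    have h5 : (p : ℤ) ∣ (tN γ κ r : ℤ) * rd r q *
        ((tN γ κ q : ℤ) * round (q * x - γ) + tP γ κ q) := by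
      have h6 : (tN γ κ r : ℤ) * rd r q * ((tN γ κ q : ℤ) * round (q * x - γ) + tP γ κ q) =
        (tN γ κ q : ℤ) * rd q r * ((tN γ κ r : ℤ) * round (r * x - γ) + tP γ κ r) := by
        linarith
      rw [h6]
      exact Dvd.dvd.mul_right (Dvd.dvd.mul_left (by exact_mod_cast hpm) _) _
    have h7 : ¬ (p : ℤ) ∣ (tN γ κ r : ℤ) := fun h => h2 (by exact_mod_cast h)
    have h8 : ¬ (p : ℤ) ∣ (rd r q : ℤ) := by
      intro h
      have h9 : p ∣ rd r q := by exact_mod_cast h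
      have h10 := rd_coprime (a := q) (b := r) hq1
      exact hp.one_lt.ne' (Nat.dvd_one.mp (h10 ▸ Nat.dvd_gcd hpm h9))
    have h11 : (p : ℤ) ∣ (tN γ κ q : ℤ) * round (q * x - γ) + tP γ κ q := by
      rcases hpI.dvd_or_dvd h5 with h | h
      · rcases hpI.dvd_or_dvd h with h | h
        · exact absurd h h7
        · exact absurd h h8
      · exact h
    have h3' : (p : ℤ) ∣ (tN γ κ q : ℤ) := by exact_mod_cast h3
    have h12 : (p : ℤ) ∣ tP γ κ q := by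
      have := (Int.dvd_add_right (Dvd.dvd.mul_right h3' (round (q * x - γ)))).mp h11
      exact this
    have hT : 0 < tT κ q := by
      have := one_le_tT κ q hq; linarith
    have h13 : IsCoprime ((tN γ κ q : ℕ) : ℤ) (tP γ κ q) := num_coprime γ (tT κ q) hT
    have h14 := h13.isUnit_of_dvd' h3' h12
    exact hpI.not_unit h14
  · have h4 : p ∈ tg γ κ q := by
      rw [mem_tg]
      refine ⟨?_, h1, h3⟩
      rw [Nat.mem_primeFactors]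
      refine ⟨hp, hpm.trans ?_, hq1.ne'⟩
      exact ⟨Nat.gcd q r, (rd_mul_gcd q r).symm⟩
    exact zero_empty γ q r hq.1 hr.1 (rho κ q) (rho κ r) (tN γ κ q) (tP γ κ q) (tN γ κ r)
      (tP γ κ r) (tg γ κ q) (tg γ κ r) p hp h4 hpm h2 x hx hH

theorem sc3_Hx_swap (γ : ℝ) (κ : ℕ → ℕ) (q r : ℕ) (x : ℝ) :
    Hx γ κ r q x = - Hx γ κ q r x := HH_swap γ q r _ _ _ _ x

/-- [IDE-SC3] PROOF.  If the part `H = 0` is empty (up to `[0,1]`), the left side is `0`.  Otherwise let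
`x` be in it; `zero_bound` gives the first two conditions of `SMc`; the last two: `zero_empty` (for
`p ∣ m`, `p > log Z_q`, `p ∤ N_r`: if `p ∤ N_q` then `p ∈ tg q` (`p ∣ m ∣ q`), contradiction to
`zero_empty`; if `p ∣ N_q`: `0 = H` gives `p ∣ N_r m' u_q`, so `p ∣ u_q = N_q b + P_q`, `p ∣ P_q`,
contradicting `num_coprime`).  The same for `m'` (`HH_swap`). -/
theorem SMc_of_mem (γ : ℝ) (κ : ℕ → ℕ) (q r : ℕ) (hq : Adm κ q) (hr : Adm κ r) (hqr : q ≠ r)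
    (x : ℝ) (hx : x ∈ Ax γ κ q ∩ Ax γ κ r) (hH : Hx γ κ q r x = 0) : SMc γ κ q r := by
  obtain ⟨h1, h2⟩ := zero_bound γ κ q r hq hr hqr x hx.1.1 hx.2.1 hH
  refine ⟨h1, h2, ?_, ?_⟩
  · intro p hp hpm
    exact sc3_smooth γ κ q r hq hr x hx hH p hp hpm
  · intro p hp hpm
    exact sc3_smooth γ κ r q hr hq x ⟨hx.2, hx.1⟩ (by rw [sc3_Hx_swap, hH, neg_zero]) p hp hpm

theorem sc3_Fw (n : ℕ) (hn : 1 ≤ n) :
    ∏ p ∈ n.primeFactors, (1 - 1 / (p : ℝ))⁻¹ = Fw n := by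
  unfold Fw
  have h1 : (Nat.totient n : ℝ) = n * ∏ p ∈ n.primeFactors, (1 - 1 / (p : ℝ)) := by
    have h2 := Nat.totient_eq_mul_prod_factors n
    have h3 : ((Nat.totient n : ℚ) : ℝ) =
        ((n * ∏ p ∈ n.primeFactors, (1 - (p : ℚ)⁻¹) : ℚ) : ℝ) := by rw [h2]
    push_cast at h3
    rw [h3]
    congr 1
    apply Finset.prod_congr rfl
    intro p _
    rw [one_div]
  rw [h1, Finset.prod_inv_distrib]
  have h4 : (n : ℝ) ≠ 0 := by exact_mod_cast (by omega : n ≠ 0)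
  field_simp

theorem sc3_fac_pos (p : ℕ) (hp : p.Prime) : 0 < 1 - 1 / (p : ℝ) ∧ 1 ≤ (1 - 1 / (p : ℝ))⁻¹ := by
  have h2 : (2 : ℝ) ≤ p := by exact_mod_cast hp.two_le
  have hx0 : 0 < 1 / (p : ℝ) := by positivity
  have hx1 : 1 / (p : ℝ) ≤ 1 / 2 := one_div_le_one_div_of_le (by norm_num) h2
  exact ⟨by linarith, (one_le_inv₀ (by linarith)).mpr (by linarith)⟩

theorem sc3_Fw_pos (n : ℕ) (hn : 1 ≤ n) : 1 ≤ Fw n := by
  rw [← sc3_Fw n hn]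
  exact Finset.prod_induction _ (fun y : ℝ => 1 ≤ y)
    (fun a b ha hb => one_le_mul_of_one_le_of_one_le ha hb) le_rfl (fun p hp =>
    (sc3_fac_pos p (Nat.prime_of_mem_primeFactors hp)).2)

theorem sc3_tc (γ : ℝ) (κ : ℕ → ℕ) (q m : ℕ) (hm : 1 ≤ m) :
    tc γ κ q * ∏ p ∈ tg γ κ q with ¬ p ∣ m, (1 - 1 / (p : ℝ)) ≤
      (Nat.totient q : ℝ) / q * Fw m := by
  classical
  have htgp : ∀ p ∈ tg γ κ q, p.Prime := fun p hp =>
    Nat.prime_of_mem_primeFactors ((mem_tg γ κ q p).mp hp).1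
  have h1 := tc_mul γ κ q
  have h2 : (∏ p ∈ tg γ κ q, (1 - 1 / (p : ℝ))) =
      (∏ p ∈ tg γ κ q with p ∣ m, (1 - 1 / (p : ℝ))) *
        ∏ p ∈ tg γ κ q with ¬ p ∣ m, (1 - 1 / (p : ℝ)) :=
    (Finset.prod_filter_mul_prod_filter_not _ _ _).symm
  have hpos : 0 < ∏ p ∈ tg γ κ q with p ∣ m, (1 - 1 / (p : ℝ)) :=
    Finset.prod_pos fun p hp => (sc3_fac_pos p (htgp p (Finset.mem_filter.mp hp).1)).1
  have h3 : tc γ κ q * ∏ p ∈ tg γ κ q with ¬ p ∣ m, (1 - 1 / (p : ℝ)) =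
      (Nat.totient q : ℝ) / q * (∏ p ∈ tg γ κ q with p ∣ m, (1 - 1 / (p : ℝ)))⁻¹ := by
    rw [← h1, h2]
    field_simp
  rw [h3]
  apply mul_le_mul_of_nonneg_left _ (by positivity)
  rw [← sc3_Fw m hm, ← Finset.prod_inv_distrib]
  have hsub : (tg γ κ q).filter (fun p => p ∣ m) ⊆ m.primeFactors := by
    intro p hp
    rw [Finset.mem_filter] at hp
    rw [Nat.mem_primeFactors]
    exact ⟨htgp p hp.1, hp.2, by omega⟩
  rw [← Finset.prod_sdiff hsub]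
  apply le_mul_of_one_le_left
  · exact Finset.prod_nonneg fun p hp => by
      have := (sc3_fac_pos p (htgp p (Finset.mem_filter.mp hp).1)).2
      linarith
  · exact Finset.prod_induction _ (fun y : ℝ => 1 ≤ y)
      (fun a b ha hb => one_le_mul_of_one_le_of_one_le ha hb) le_rfl (fun p hp =>
      (sc3_fac_pos p (Nat.prime_of_mem_primeFactors (Finset.mem_sdiff.mp hp).1)).2)

theorem sc3_half (γ : ℝ) (κ : ℕ → ℕ) (q r : ℕ) (hq : Adm κ q) (hr : Adm κ r) :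
    tc γ κ q * tc γ κ r * vl (Ax γ κ q ∩ Ax γ κ r ∩ {x | Hx γ κ q r x = 0}) ≤
      2 * min ((1 / 2 : ℝ) ^ κ q) ((1 / 2 : ℝ) ^ κ r) * Nat.gcd q r *
        ((Nat.totient q : ℝ) / q * Fw (rd q r)) := by
  have hq0 : (0 : ℝ) < q := by exact_mod_cast hq.1
  have hr0 : (0 : ℝ) < r := by exact_mod_cast hr.1
  have h1 := O_zero γ q r hq.1 hr.1 (rho κ q) (rho κ r) (rho_pos κ q hq.1).le hq.2
    (rho_pos κ r hr.1).le hr.2 (tN γ κ q) (tP γ κ q) (tN γ κ r) (tP γ κ r)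
    (one_le_tN γ κ q hq) (one_le_tN γ κ r hr) (tg γ κ q) (tg γ κ r)
    (fun p hp => ((mem_tg γ κ q p).mp hp).1) (fun p hp => ((mem_tg γ κ r p).mp hp).1)
    (fun p hp => ((mem_tg γ κ q p).mp hp).2.2)
  have hρq : rho κ q / q = (1 / 2 : ℝ) ^ κ q := by unfold rho; field_simp
  have hρr : rho κ r / r = (1 / 2 : ℝ) ^ κ r := by unfold rho; field_simp
  rw [hρq, hρr] at h1
  have h2 : vl (Ax γ κ q ∩ Ax γ κ r ∩ {x | Hx γ κ q r x = 0}) ≤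
      2 * min ((1 / 2 : ℝ) ^ κ q) ((1 / 2 : ℝ) ^ κ r) * Nat.gcd q r *
        ∏ p ∈ tg γ κ q with ¬ p ∣ rd q r, (1 - 1 / (p : ℝ)) := h1
  obtain ⟨hcq0, hcq1⟩ := tc_nonneg_le γ κ q hq.1
  obtain ⟨hcr0, hcr1⟩ := tc_nonneg_le γ κ r hr.1
  have hv0 := vl_nonneg (Ax γ κ q ∩ Ax γ κ r ∩ {x | Hx γ κ q r x = 0})
  have h3 := sc3_tc γ κ q (rd q r) (rd_pos hq.1)
  have hmin : 0 ≤ 2 * min ((1 / 2 : ℝ) ^ κ q) ((1 / 2 : ℝ) ^ κ r) * Nat.gcd q r := by positivity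
  calc tc γ κ q * tc γ κ r * vl (Ax γ κ q ∩ Ax γ κ r ∩ {x | Hx γ κ q r x = 0})
      ≤ tc γ κ q * 1 * vl (Ax γ κ q ∩ Ax γ κ r ∩ {x | Hx γ κ q r x = 0}) :=
        mul_le_mul_of_nonneg_right (mul_le_mul_of_nonneg_left hcr1 hcq0) hv0
    _ ≤ tc γ κ q * 1 * (2 * min ((1 / 2 : ℝ) ^ κ q) ((1 / 2 : ℝ) ^ κ r) * Nat.gcd q r *
        ∏ p ∈ tg γ κ q with ¬ p ∣ rd q r, (1 - 1 / (p : ℝ))) :=
        mul_le_mul_of_nonneg_left h2 (by linarith)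
    _ = 2 * min ((1 / 2 : ℝ) ^ κ q) ((1 / 2 : ℝ) ^ κ r) * Nat.gcd q r *
        (tc γ κ q * ∏ p ∈ tg γ κ q with ¬ p ∣ rd q r, (1 - 1 / (p : ℝ))) := by ring
    _ ≤ _ := mul_le_mul_of_nonneg_left h3 hmin

theorem sc3_min (a b : ℕ) :
    (min ((1 / 2 : ℝ) ^ a) ((1 / 2 : ℝ) ^ b)) ^ 2 * (2 : ℝ) ^ ((a - b) + (b - a)) =
      (1 / 2 : ℝ) ^ a * (1 / 2 : ℝ) ^ b := by
  rcases le_total a b with h | h
  · obtain ⟨c, rfl⟩ := Nat.exists_eq_add_of_le h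
    have h1 : ((1 / 2 : ℝ) ^ (a + c)) ≤ (1 / 2 : ℝ) ^ a :=
      pow_le_pow_of_le_one (by norm_num) (by norm_num) (by omega)
    rw [min_eq_right h1, show a - (a + c) + (a + c - a) = c by omega]
    have h2 : ((1 / 2 : ℝ) ^ (a + c)) = (1 / 2 : ℝ) ^ a * (1 / 2 : ℝ) ^ c := pow_add _ _ _
    have h3 : (1 / 2 : ℝ) ^ c * (2 : ℝ) ^ c = 1 := by rw [← mul_pow]; norm_num
    rw [h2]
    linear_combination ((1 / 2 : ℝ) ^ a * (1 / 2 : ℝ) ^ a * (1 / 2 : ℝ) ^ c) * h3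
  · obtain ⟨c, rfl⟩ := Nat.exists_eq_add_of_le h
    have h1 : ((1 / 2 : ℝ) ^ (b + c)) ≤ (1 / 2 : ℝ) ^ b :=
      pow_le_pow_of_le_one (by norm_num) (by norm_num) (by omega)
    rw [min_eq_left h1, show b + c - b + (b - (b + c)) = c by omega]
    have h2 : ((1 / 2 : ℝ) ^ (b + c)) = (1 / 2 : ℝ) ^ b * (1 / 2 : ℝ) ^ c := pow_add _ _ _
    have h3 : (1 / 2 : ℝ) ^ c * (2 : ℝ) ^ c = 1 := by rw [← mul_pow]; norm_num
    rw [h2]
    linear_combination ((1 / 2 : ℝ) ^ b * (1 / 2 : ℝ) ^ b * (1 / 2 : ℝ) ^ c) * h3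

theorem sc3_KS_sq (κ : ℕ → ℕ) (q r : ℕ) (hq : 1 ≤ q) (hr : 1 ≤ r) :
    (KS κ q r) ^ 2 * ((2 : ℝ) ^ ((κ q - κ r) + (κ r - κ q)) * ((rd q r : ℝ) * rd r q)) =
      4 * (Fw (rd q r) * Fw (rd r q)) := by
  have hm : (0 : ℝ) < rd q r := by exact_mod_cast rd_pos (b := r) hq
  have hm' : (0 : ℝ) < rd r q := by exact_mod_cast rd_pos (b := q) hr
  have hF1 := sc3_Fw_pos (rd q r) (rd_pos hq)
  have hF2 := sc3_Fw_pos (rd r q) (rd_pos hr)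
  have hF : 0 ≤ Fw (rd q r) * Fw (rd r q) := by positivity
  unfold KS
  rw [mul_pow, mul_pow, mul_pow, Real.sq_sqrt hF]
  have key : ∀ y : ℝ, 0 < y → (y ^ (-(1 : ℝ) / 2)) ^ 2 * y = 1 := by
    intro y hy
    rw [← Real.rpow_natCast (y ^ (-(1 : ℝ) / 2)) 2, ← Real.rpow_mul hy.le]
    rw [show (-(1 : ℝ) / 2 * ((2 : ℕ) : ℝ)) = -1 by norm_num, Real.rpow_neg hy.le, Real.rpow_one]
    field_simp
  have k1 := key ((2 : ℝ) ^ ((κ q - κ r) + (κ r - κ q))) (by positivity)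
  have k2 := key ((rd q r : ℝ) * rd r q) (by positivity)
  set A := ((2 : ℝ) ^ ((κ q - κ r) + (κ r - κ q))) ^ (-(1 : ℝ) / 2) with hA
  set B := ((rd q r : ℝ) * rd r q) ^ (-(1 : ℝ) / 2) with hB
  set a := (2 : ℝ) ^ ((κ q - κ r) + (κ r - κ q)) with ha
  set b := (rd q r : ℝ) * rd r q with hb
  have : (2 : ℝ) ^ 2 * A ^ 2 * B ^ 2 * (Fw (rd q r) * Fw (rd r q)) * (a * b) =
      4 * (Fw (rd q r) * Fw (rd r q)) * (A ^ 2 * a) * (B ^ 2 * b) := by ring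
  rw [this, k1, k2]
  ring

theorem sc3_KS_nonneg (κ : ℕ → ℕ) (q r : ℕ) : 0 ≤ KS κ q r := by
  unfold KS; positivity

theorem sc3_KS_symm (κ : ℕ → ℕ) (q r : ℕ) : KS κ r q = KS κ q r := by
  unfold KS
  rw [add_comm (κ r - κ q), mul_comm (rd r q : ℝ), mul_comm (Fw (rd r q))]

theorem sc3_nu_nonneg (κ : ℕ → ℕ) (q : ℕ) : 0 ≤ nu κ q := by
  unfold nu; positivity

/-- [IDE-SC3] **One pair.**

PROOF.  `O_zero`: `vl ≤ 2 min(δ,δ') g ∏_{p∈tg q, p∤m} (1-1/p)`, `δ = 2^{-κ q}`, `g = gcd q r`.  So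
`tc q · vl ≤ 2 min(δ,δ') g (φ(q)/q) ∏_{p ∣ m} (1-1/p)⁻¹ = 2 min(δ,δ') g (φ(q)/q) Fw m`, and `tc r ≤ 1`:
`X := tc q tc r vl ≤ 2 min(δ,δ') g (φ(q)/q) Fw m`; symmetric: `X ≤ 2 min(δ,δ') g (φ(r)/r) Fw m'`
(exchange `q, r`; `HH_swap`).  So `X ≤` the geometric mean
`= 2 min(δ,δ') g √((φ(q)/q)(φ(r)/r) Fw m Fw m')`, and `g = √(q r/(m m'))`,
`min(δ,δ') = √(δ δ') 2^{-|κ q - κ r|/2}`; so `X ≤ √(nu q nu r) KS κ q r`. -/
theorem pair_zero (γ : ℝ) (κ : ℕ → ℕ) (q r : ℕ) (hq : Adm κ q) (hr : Adm κ r) (hqr : q ≠ r) :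
    tc γ κ q * tc γ κ r * vl (Ax γ κ q ∩ Ax γ κ r ∩ {x | Hx γ κ q r x = 0}) ≤
      Real.sqrt (nu κ q * nu κ r) * KS κ q r := by
  have hq0 : (0 : ℝ) < q := by exact_mod_cast hq.1
  have hr0 : (0 : ℝ) < r := by exact_mod_cast hr.1
  have hm : (0 : ℝ) < rd q r := by exact_mod_cast rd_pos (b := r) hq.1
  have hm' : (0 : ℝ) < rd r q := by exact_mod_cast rd_pos (b := q) hr.1
  have hg : (0 : ℝ) < Nat.gcd q r := by exact_mod_cast Nat.gcd_pos_of_pos_left r hq.1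
  set X := tc γ κ q * tc γ κ r * vl (Ax γ κ q ∩ Ax γ κ r ∩ {x | Hx γ κ q r x = 0}) with hX
  have hX0 : 0 ≤ X := mul_nonneg (mul_nonneg (tc_nonneg_le γ κ q hq.1).1
    (tc_nonneg_le γ κ r hr.1).1) (vl_nonneg _)
  have h1 : X ≤ _ := sc3_half γ κ q r hq hr
  have h2 : X ≤ 2 * min ((1 / 2 : ℝ) ^ κ q) ((1 / 2 : ℝ) ^ κ r) * Nat.gcd q r *
      ((Nat.totient r : ℝ) / r * Fw (rd r q)) := by
    have h3 := sc3_half γ κ r q hr hq
    have h4 : Ax γ κ r ∩ Ax γ κ q ∩ {x | Hx γ κ r q x = 0} =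
        Ax γ κ q ∩ Ax γ κ r ∩ {x | Hx γ κ q r x = 0} := by
      ext x
      have h5 : Hx γ κ r q x = 0 ↔ Hx γ κ q r x = 0 := by
        rw [sc3_Hx_swap γ κ q r x, neg_eq_zero]
      simp only [Set.mem_inter_iff, Set.mem_ofPred_eq]
      rw [h5]
      tauto
    rw [h4, mul_comm (tc γ κ r), min_comm, Nat.gcd_comm r q] at h3
    exact h3
  have hKS := sc3_KS_nonneg κ q r
  have hnu : 0 ≤ nu κ q * nu κ r := mul_nonneg (sc3_nu_nonneg κ q) (sc3_nu_nonneg κ r)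
  rw [← pow_le_pow_iff_left₀ hX0 (by positivity) (two_ne_zero)]
  rw [mul_pow (Real.sqrt (nu κ q * nu κ r)), Real.sq_sqrt hnu]
  have h5 : X ^ 2 ≤ (2 * min ((1 / 2 : ℝ) ^ κ q) ((1 / 2 : ℝ) ^ κ r) * Nat.gcd q r *
      ((Nat.totient q : ℝ) / q * Fw (rd q r))) *
      (2 * min ((1 / 2 : ℝ) ^ κ q) ((1 / 2 : ℝ) ^ κ r) * Nat.gcd q r *
      ((Nat.totient r : ℝ) / r * Fw (rd r q))) := by
    rw [sq]
    exact mul_le_mul h1 h2 hX0 (hX0.trans h1)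
  refine h5.trans (le_of_eq ?_)
  have hK := sc3_KS_sq κ q r hq.1 hr.1
  have hM := sc3_min (κ q) (κ r)
  have hP2 : (0 : ℝ) < (2 : ℝ) ^ ((κ q - κ r) + (κ r - κ q)) := by positivity
  have hqe : (q : ℝ) = rd q r * Nat.gcd q r := by exact_mod_cast (rd_mul_gcd q r).symm
  have hre : (r : ℝ) = rd r q * Nat.gcd q r := by
    have := (rd_mul_gcd r q).symm
    rw [Nat.gcd_comm r q] at this
    exact_mod_cast this
  unfold nu
  set P := (2 : ℝ) ^ ((κ q - κ r) + (κ r - κ q)) with hP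
  set mn := min ((1 / 2 : ℝ) ^ κ q) ((1 / 2 : ℝ) ^ κ r) with hmn
  set g : ℝ := (Nat.gcd q r : ℝ) with hgdef
  set m : ℝ := (rd q r : ℝ) with hmdef
  set m' : ℝ := (rd r q : ℝ) with hm'def
  have hK' : KS κ q r ^ 2 = 4 * (Fw (rd q r) * Fw (rd r q)) / (P * (m * m')) := by
    rw [eq_div_iff (by positivity)]
    exact hK
  rw [hK', hqe, hre]
  rw [show (Nat.totient q : ℝ) * (1 / 2 : ℝ) ^ κ q * ((Nat.totient r : ℝ) * (1 / 2 : ℝ) ^ κ r) =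
    (Nat.totient q : ℝ) * Nat.totient r * ((1 / 2 : ℝ) ^ κ q * (1 / 2 : ℝ) ^ κ r) by ring, ← hM]
  field_simp
  ring

/-- [IDE-SC3] **Schur test.**  `ω` are weights in `[0,1]`, `μ q = ω q nu κ q`.

PROOF.  A pair with `¬ SMc γ κ q r` contributes `0` (`SMc_of_mem`).  For the others
`ω_q ω_r tc q tc r vl ≤ ω_q ω_r √(nu q nu r) KS ≤ √(μ q μ r) KS κ q r` (`ω_q ω_r ≤ √(ω_q ω_r)`), and
`√(μ q μ r) ≤ (μ q + μ r)/2`; `KS` and `SMc` are symmetric; `schur_row`. -/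
theorem schur_total :
    ∃ C : ℝ, 0 < C ∧ ∀ (γ : ℝ) (κ : ℕ → ℕ) (S : Finset ℕ) (ω : ℕ → ℝ), (∀ q ∈ S, Adm κ q) →
      (∀ q, 0 ≤ ω q ∧ ω q ≤ 1) →
      ∑ e ∈ (S ×ˢ S).filter (fun e => e.1 ≠ e.2), ω e.1 * ω e.2 * (tc γ κ e.1 * tc γ κ e.2 *
        vl (Ax γ κ e.1 ∩ Ax γ κ e.2 ∩ {x | Hx γ κ e.1 e.2 x = 0})) ≤
        C * ∑ q ∈ S, ω q * nu κ q := by
  classical
  obtain ⟨C, hC, hrow⟩ := schur_row
  refine ⟨C, hC, ?_⟩
  intro γ κ S ω hS hω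
  set μ : ℕ → ℝ := fun q => ω q * nu κ q with hμ
  have hμ0 : ∀ q, 0 ≤ μ q := fun q => mul_nonneg (hω q).1 (sc3_nu_nonneg κ q)
  -- termwise
  have hterm : ∀ e ∈ (S ×ˢ S).filter (fun e => e.1 ≠ e.2),
      ω e.1 * ω e.2 * (tc γ κ e.1 * tc γ κ e.2 *
        vl (Ax γ κ e.1 ∩ Ax γ κ e.2 ∩ {x | Hx γ κ e.1 e.2 x = 0})) ≤
      if SMc γ κ e.1 e.2 then (μ e.1 / 2 + μ e.2 / 2) * KS κ e.1 e.2 else 0 := by
    intro e he
    rw [Finset.mem_filter, Finset.mem_product] at he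
    obtain ⟨⟨h1, h2⟩, h3⟩ := he
    have hω1 := hω e.1
    have hω2 := hω e.2
    have hKS := sc3_KS_nonneg κ e.1 e.2
    split_ifs with hs
    · have h4 := pair_zero γ κ e.1 e.2 (hS _ h1) (hS _ h2) h3
      have hww : 0 ≤ ω e.1 * ω e.2 := mul_nonneg hω1.1 hω2.1
      refine (mul_le_mul_of_nonneg_left h4 hww).trans ?_
      rw [← mul_assoc]
      apply mul_le_mul_of_nonneg_right _ hKS
      have hnn : 0 ≤ nu κ e.1 * nu κ e.2 :=
        mul_nonneg (sc3_nu_nonneg κ _) (sc3_nu_nonneg κ _)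
      have h5 : ω e.1 * ω e.2 * Real.sqrt (nu κ e.1 * nu κ e.2) ≤ Real.sqrt (μ e.1 * μ e.2) := by
        apply Real.le_sqrt_of_sq_le
        rw [mul_pow, Real.sq_sqrt hnn]
        have h6 : (ω e.1 * ω e.2) ^ 2 ≤ ω e.1 * ω e.2 := by
          have h7 : ω e.1 * ω e.2 ≤ 1 := mul_le_one₀ hω1.2 hω2.1 hω2.2
          nlinarith
        calc (ω e.1 * ω e.2) ^ 2 * (nu κ e.1 * nu κ e.2) ≤
            (ω e.1 * ω e.2) * (nu κ e.1 * nu κ e.2) := mul_le_mul_of_nonneg_right h6 hnn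
          _ = μ e.1 * μ e.2 := by rw [hμ]; ring
      refine h5.trans ?_
      rw [Real.sqrt_le_iff]
      have ha := hμ0 e.1
      have hb := hμ0 e.2
      constructor
      · linarith
      · nlinarith [sq_nonneg (μ e.1 - μ e.2)]
    · have hempty : Ax γ κ e.1 ∩ Ax γ κ e.2 ∩ {x | Hx γ κ e.1 e.2 x = 0} = ∅ := by
        rw [Set.eq_empty_iff_forall_notMem]
        rintro x ⟨hx, hx2⟩
        exact hs (SMc_of_mem γ κ e.1 e.2 (hS _ h1) (hS _ h2) h3 x hx hx2)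
      rw [hempty]
      have : vl (∅ : Set ℝ) = 0 := by simp [vl]
      rw [this]
      simp
  refine (Finset.sum_le_sum hterm).trans ?_
  have hrow' : ∀ q ∈ S, ∑ r ∈ S.filter (fun r => q ≠ r ∧ SMc γ κ q r), KS κ q r ≤ C := by
    intro q hq
    apply hrow γ κ q _ (hS q hq)
    intro r hr
    rw [Finset.mem_filter] at hr
    exact ⟨hS r hr.1, fun h => hr.2.1 h.symm, hr.2.2⟩
  have hsplit : ∑ e ∈ (S ×ˢ S).filter (fun e => e.1 ≠ e.2),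
      (if SMc γ κ e.1 e.2 then (μ e.1 / 2 + μ e.2 / 2) * KS κ e.1 e.2 else 0) =
      (∑ q ∈ S, μ q / 2 * ∑ r ∈ S.filter (fun r => q ≠ r ∧ SMc γ κ q r), KS κ q r) +
      ∑ r ∈ S, μ r / 2 * ∑ q ∈ S.filter (fun q => r ≠ q ∧ SMc γ κ r q), KS κ r q := by
    rw [Finset.sum_filter, Finset.sum_product]
    have e1 : ∀ q ∈ S, ∑ r ∈ S, (if (q, r).1 ≠ (q, r).2 then
        (if SMc γ κ (q, r).1 (q, r).2 then (μ (q, r).1 / 2 + μ (q, r).2 / 2) *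
          KS κ (q, r).1 (q, r).2 else 0) else 0) =
        (∑ r ∈ S, if q ≠ r ∧ SMc γ κ q r then μ q / 2 * KS κ q r else 0) +
        ∑ r ∈ S, if q ≠ r ∧ SMc γ κ q r then μ r / 2 * KS κ q r else 0 := by
      intro q _
      rw [← Finset.sum_add_distrib]
      apply Finset.sum_congr rfl
      intro r _
      by_cases h1 : q ≠ r <;> by_cases h2 : SMc γ κ q r <;> simp [h1, h2]
      ring
    rw [Finset.sum_congr rfl e1, Finset.sum_add_distrib]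
    congr 1
    · apply Finset.sum_congr rfl
      intro q _
      rw [Finset.mul_sum, Finset.sum_filter]
    · rw [Finset.sum_comm]
      apply Finset.sum_congr rfl
      intro r _
      rw [Finset.mul_sum, Finset.sum_filter]
      apply Finset.sum_congr rfl
      intro q _
      have hsymm : SMc γ κ q r ↔ SMc γ κ r q := by
        have hV : VV κ q r = VV κ r q := by
          unfold VV
          rw [add_comm (κ q - κ r), max_comm]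
        unfold SMc
        rw [hV]
        tauto
      rw [sc3_KS_symm κ q r]
      by_cases h1 : q = r
      · simp [h1]
      · have h1' : r ≠ q := fun h => h1 h.symm
        by_cases h2 : SMc γ κ q r
        · have h3 := hsymm.mp h2
          simp [h1, h1', h2, h3]
        · have h3 : ¬ SMc γ κ r q := fun h => h2 (hsymm.mpr h)
          simp [h2, h3]
  rw [hsplit, Finset.mul_sum]
  have hb : ∀ q ∈ S, μ q / 2 * ∑ r ∈ S.filter (fun r => q ≠ r ∧ SMc γ κ q r), KS κ q r ≤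
      μ q / 2 * C := fun q hq =>
    mul_le_mul_of_nonneg_left (hrow' q hq) (by have := hμ0 q; linarith)
  have hb2 := Finset.sum_le_sum hb
  calc _ ≤ ∑ q ∈ S, μ q / 2 * C + ∑ q ∈ S, μ q / 2 * C := add_le_add hb2 hb2
    _ = ∑ q ∈ S, C * (ω q * nu κ q) := by
        rw [← Finset.sum_add_distrib]
        apply Finset.sum_congr rfl
        intro q _
        rw [hμ]
        ring

end Pool.Agent.IDE
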