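import Pool.Agent.IDE.TG2

set_option autoImplicit false

namespace Pool.Agent.IDE

open Finset Pool.Agent.IDS

/-- [IDE-TG3] **The two denominators agree with that of the scale `R`.**

PROOF.  `N = den γ (R/8) ≤ R^{3/8}`, `η = eta γ (R/8) ≤ 8/R`, `2 M η < 1`.
Claim: `den γ T = N` for every `T` with `R^{7/16} ≤ T` and `T^{16/7} ≤ 2 R^{17/16} M`.
`den γ T ≤ N`: `η ≤ 1/T`, because `η ≤ (8/R)^{9/16} (1/(2M))^{7/16}` and
`T ≤ (2 R^{17/16} M)^{7/16}`, so `η T ≤ 8^{9/16} R^{-9/16+119/256} = 8^{9/16} R^{-25/256} ≤ 1`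
(`R ≥ 2^64`).  `N ≤ den γ T`: let `n = den γ T < N`; `N ∤ n`, `n η ≤ N η ≤ 8 R^{-5/8} ≤ 1/2`, so
`nd (n γ) ≥ 1/(2N) ≥ R^{-3/8}/2 > R^{-7/16} ≥ 1/T` (`nd_ge_of_not_dvd`; `R^{1/16} ≥ 16`), contradiction
with `eta_le`. -/
theorem den_eq_scale (γ R T : ℝ) (M : ℕ) (hR : 2 ^ 64 ≤ R) (hM : 1 ≤ M)
    (h1 : (den γ (R / 8) : ℝ) ≤ R ^ ((3 : ℝ) / 8)) (h2 : 2 * (M : ℝ) * eta γ (R / 8) < 1)
    (hT1 : R ^ ((7 : ℝ) / 16) ≤ T) (hT2 : T ≤ (2 * R ^ ((17 : ℝ) / 16) * M) ^ ((7 : ℝ) / 16)) :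
    den γ T = den γ (R / 8) := by
  have hR0 : 0 < R := lt_of_lt_of_le (by norm_num) hR
  have hR8 : 0 < R / 8 := by positivity
  set s : ℝ := R ^ ((1 : ℝ) / 16) with hs
  have hs0 : 0 < s := Real.rpow_pos_of_pos hR0 _
  have hs16 : s ^ 16 = R := by
    rw [hs, ← Real.rpow_natCast, ← Real.rpow_mul hR0.le]; norm_num
  have hs1 : 16 ≤ s := by
    have : (16 : ℝ) ^ 16 ≤ s ^ 16 := by rw [hs16]; refine le_trans (le_of_eq ?_) hR; norm_num
    exact le_of_pow_le_pow_left₀ (by norm_num) hs0.le this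
  have e7 : R ^ ((7 : ℝ) / 16) = s ^ 7 := by
    rw [hs, ← Real.rpow_natCast, ← Real.rpow_mul hR0.le]; norm_num
  have e6 : R ^ ((3 : ℝ) / 8) = s ^ 6 := by
    rw [hs, ← Real.rpow_natCast, ← Real.rpow_mul hR0.le]; norm_num
  have e17 : R ^ ((17 : ℝ) / 16) = s ^ 17 := by
    rw [hs, ← Real.rpow_natCast, ← Real.rpow_mul hR0.le]; norm_num
  rw [e7] at hT1
  rw [e6] at h1
  rw [e17] at hT2
  have hMr : (1 : ℝ) ≤ M := by exact_mod_cast hM
  have hT0 : 0 < T := lt_of_lt_of_le (by positivity) hT1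
  have hη0 : 0 ≤ eta γ (R / 8) := eta_nonneg _ _
  have hη8 : eta γ (R / 8) ≤ 8 / R := by
    have := eta_le γ (R / 8) hR8
    rwa [one_div_div] at this
  have hN1 : 1 ≤ den γ (R / 8) := den_pos γ (R / 8) hR8
  -- first inequality
  have hle : den γ T ≤ den γ (R / 8) := by
    refine den_min γ T _ hN1 ?_
    show eta γ (R / 8) ≤ 1 / T
    rw [le_div_iff₀ hT0]
    have hT16 : T ^ 16 ≤ (2 * s ^ 17 * M) ^ 7 := by
      have hb : 0 ≤ 2 * s ^ 17 * (M : ℝ) := by positivity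
      have e1 : T ^ 16 ≤ ((2 * s ^ 17 * (M : ℝ)) ^ ((7 : ℝ) / 16)) ^ 16 :=
        pow_le_pow_left₀ hT0.le hT2 16
      refine e1.trans (le_of_eq ?_)
      rw [← Real.rpow_natCast, ← Real.rpow_mul hb, ← Real.rpow_natCast]
      norm_num
    have hp : (eta γ (R / 8) * T) ^ 16 ≤ 1 := by
      have e2 : (2 * (M : ℝ) * eta γ (R / 8)) ^ 7 ≤ 1 := pow_le_one₀ (by positivity) h2.le
      have e3 : eta γ (R / 8) ^ 9 ≤ (8 / R) ^ 9 := pow_le_pow_left₀ hη0 hη8 9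
      calc (eta γ (R / 8) * T) ^ 16 = eta γ (R / 8) ^ 16 * T ^ 16 := by ring
        _ ≤ eta γ (R / 8) ^ 16 * (2 * s ^ 17 * M) ^ 7 :=
            mul_le_mul_of_nonneg_left hT16 (by positivity)
        _ = ((2 * (M : ℝ) * eta γ (R / 8)) ^ 7 * eta γ (R / 8) ^ 9) * s ^ 119 := by ring
        _ ≤ (1 * (8 / R) ^ 9) * s ^ 119 := by
            refine mul_le_mul_of_nonneg_right ?_ (by positivity)
            exact mul_le_mul e2 e3 (by positivity) (by norm_num)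
        _ = 8 ^ 9 / s ^ 25 := by
            rw [← hs16]
            field_simp
        _ ≤ 1 := by
            rw [div_le_one (by positivity)]
            calc (8 : ℝ) ^ 9 ≤ 16 ^ 25 := by norm_num
              _ ≤ s ^ 25 := pow_le_pow_left₀ (by norm_num) hs1 25
    by_contra hcon
    push Not at hcon
    have : 1 < (eta γ (R / 8) * T) ^ 16 := one_lt_pow₀ hcon (by norm_num)
    linarith
  refine le_antisymm hle ?_
  by_contra hlt
  push Not at hlt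
  have hn1 : 1 ≤ den γ T := den_pos γ T hT0
  have hnd : ¬ den γ (R / 8) ∣ den γ T := fun hd => by
    have := Nat.le_of_dvd hn1 hd
    omega
  have hltR : (den γ T : ℝ) ≤ den γ (R / 8) := by exact_mod_cast hlt.le
  have hNη : (den γ (R / 8) : ℝ) * eta γ (R / 8) ≤ 1 / 2 := by
    calc (den γ (R / 8) : ℝ) * eta γ (R / 8) ≤ s ^ 6 * (8 / R) :=
          mul_le_mul h1 hη8 hη0 (by positivity)
      _ = 8 / s ^ 10 := by
          rw [← hs16]
          field_simp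
      _ ≤ 1 / 2 := by
          rw [div_le_div_iff₀ (by positivity) (by norm_num)]
          have : (16 : ℝ) ^ 10 ≤ s ^ 10 := pow_le_pow_left₀ (by norm_num) hs1 10
          nlinarith
  have key := nd_ge_of_not_dvd γ (R / 8) hR8 (den γ T) hnd
    ((mul_le_mul_of_nonneg_right hltR hη0).trans hNη)
  have hup : nd ((den γ T : ℝ) * γ) ≤ 1 / T := eta_le γ T hT0
  have hNpos : (0 : ℝ) < den γ (R / 8) := by exact_mod_cast hN1
  have e8 : 1 / (2 * (den γ (R / 8) : ℝ)) ≤ 1 / T := key.trans hup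
  have e9 : T ≤ 2 * (den γ (R / 8) : ℝ) := by
    rwa [one_div_le_one_div (by positivity) hT0] at e8
  have e10 : s ^ 7 ≤ 2 * s ^ 6 := by linarith
  have e11 : s * s ^ 6 ≤ 2 * s ^ 6 := by linarith [pow_succ' s 6]
  have e12 : s ≤ 2 := le_of_mul_le_mul_right e11 (by positivity)
  linarith

/-- the levels -/
theorem tg3_lev (L a b : ℕ) (c : ℝ) (e : ℝ) (hc : (2 : ℝ) ^ ((b - a) + (a - b)) < c)
    (hc0 : 0 < c) (hL : 0 < e)
    (h : e ≤ (L : ℝ) * max ((1 / 2 : ℝ) ^ a) ((1 / 2 : ℝ) ^ b)) :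
    e < c * ((L : ℝ) * (1 / 2 : ℝ) ^ a) := by
  have h2a : (0 : ℝ) < (1 / 2 : ℝ) ^ a := by positivity
  have hmax : max ((1 / 2 : ℝ) ^ a) ((1 / 2 : ℝ) ^ b) ≤
      (2 : ℝ) ^ ((b - a) + (a - b)) * (1 / 2 : ℝ) ^ a := by
    apply max_le
    · have : (1 : ℝ) ≤ (2 : ℝ) ^ ((b - a) + (a - b)) := one_le_pow₀ (by norm_num)
      nlinarith
    · rcases le_total a b with hab | hab
      · have e1 : (1 / 2 : ℝ) ^ b ≤ (1 / 2 : ℝ) ^ a :=
          pow_le_pow_of_le_one (by norm_num) (by norm_num) hab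
        have : (1 : ℝ) ≤ (2 : ℝ) ^ ((b - a) + (a - b)) := one_le_pow₀ (by norm_num)
        nlinarith
      · obtain ⟨d, rfl⟩ := Nat.exists_eq_add_of_le hab
        have e1 : (b - (b + d)) + ((b + d) - b) = d := by omega
        rw [e1, pow_add, show (2 : ℝ) ^ d * ((1 / 2 : ℝ) ^ b * (1 / 2 : ℝ) ^ d)
          = (1 / 2 : ℝ) ^ b * ((2 : ℝ) * (1 / 2)) ^ d by rw [mul_pow]; ring]
        norm_num
  have hLpos : (0 : ℝ) < L := by
    rcases Nat.eq_zero_or_pos L with h0 | h0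
    · rw [h0] at h; simp at h; linarith
    · exact_mod_cast h0
  calc e ≤ (L : ℝ) * max ((1 / 2 : ℝ) ^ a) ((1 / 2 : ℝ) ^ b) := h
    _ ≤ (L : ℝ) * ((2 : ℝ) ^ ((b - a) + (a - b)) * (1 / 2 : ℝ) ^ a) :=
        mul_le_mul_of_nonneg_left hmax hLpos.le
    _ < (L : ℝ) * (c * (1 / 2 : ℝ) ^ a) :=
        mul_lt_mul_of_pos_left (mul_lt_mul_of_pos_right hc h2a) hLpos
    _ = c * ((L : ℝ) * (1 / 2 : ℝ) ^ a) := by ring

/-- the scale of one member of the pair -/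
theorem tg3_T (κ : ℕ → ℕ) (q m M : ℕ) (D R s : ℝ) (hq : Adm κ q) (hm : 1 ≤ m) (hmM : m ≤ M)
    (hR : 0 < R) (hs : 0 < s) (hs2 : R * s = R ^ ((17 : ℝ) / 16))
    (h1 : (m : ℝ) * rho κ q ≤ D) (h2 : D ≤ 1 / R) (h3 : 1 / (2 * R) < s * ((m : ℝ) * rho κ q)) :
    R ^ ((7 : ℝ) / 16) ≤ tT κ q ∧ tT κ q ≤ (2 * R ^ ((17 : ℝ) / 16) * M) ^ ((7 : ℝ) / 16) := by
  have hρ := rho_pos κ q hq.1
  have hmr : (1 : ℝ) ≤ m := by exact_mod_cast hm
  have hmM' : (m : ℝ) ≤ M := by exact_mod_cast hmM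
  unfold tT
  constructor
  · refine Real.rpow_le_rpow hR.le ?_ (by norm_num)
    rw [le_div_iff₀ hρ]
    have e1 : (m : ℝ) * rho κ q ≤ 1 / R := h1.trans h2
    rw [le_div_iff₀ hR] at e1
    nlinarith [mul_pos hR hρ]
  · refine Real.rpow_le_rpow (by positivity) ?_ (by norm_num)
    rw [← hs2, div_le_iff₀ hρ]
    rw [div_lt_iff₀ (by positivity)] at h3
    have e2 : s * ((m : ℝ) * rho κ q) * (2 * R) ≤ s * ((M : ℝ) * rho κ q) * (2 * R) := by
      gcongr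
    calc (1 : ℝ) ≤ s * ((m : ℝ) * rho κ q) * (2 * R) := h3.le
      _ ≤ s * ((M : ℝ) * rho κ q) * (2 * R) := e2
      _ = 2 * (R * s) * M * rho κ q := by ring

/-- [IDE-TG3] **Not gainful implies `H = 0`.**

PROOF.  From `¬ GE`: `s ≥ 64`, `R = 2^s`, `D ≤ 1/R < 2D`, `N = den γ (R/8) ≤ R^{3/8}`,
`2 M η < 1` (`M = max m m'`), `2^{|κ r - κ q|} < R^{1/16}`.  `D = max (m' ρ_q, m ρ_r)`, and
`m' ρ_q/(m ρ_r) = 2^{κ r - κ q}` (`m' q = m r`), so both `m' ρ_q` and `m ρ_r` lie in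
`(R^{-1/16}/(2R), 1/R]`, i.e. `1/ρ_q ∈ [R m', 2 R^{17/16} m')`, `1/ρ_r ∈ [R m, 2 R^{17/16} m)`; so
`tT κ q, tT κ r` satisfy the hypotheses of `den_eq_scale` and `N_q = N_r = N`, `P_q = P_r = P`.
`H = N (N h + (m' - m) P)`, and `N h + (m'-m) P = N (h + γ (m'-m)) - (m'-m)(Nγ - P)` has absolute value
`≤ 2 D N + M η < 2 R^{-5/8} + 1/2 < 1`; being an integer it is `0`.
(`m ≠ m'` is not needed.) -/
theorem Hx_eq_zero (γ : ℝ) (κ : ℕ → ℕ) (q r : ℕ) (hq : Adm κ q) (hr : Adm κ r) (x : ℝ)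
    (h1 : nd (q * x - γ) ≤ rho κ q) (h2 : nd (r * x - γ) ≤ rho κ r) (hG : ¬ GE γ κ q r) :
    Hx γ κ q r x = 0 := by
  unfold GE at hG
  push Not at hG
  obtain ⟨s, hs, hD1, hD2, hGf, hlev⟩ := hG
  unfold Gf at hGf
  push Not at hGf
  obtain ⟨hN, hη⟩ := hGf
  set R : ℝ := (2 : ℝ) ^ s with hR
  have hR64 : (2 : ℝ) ^ 64 ≤ R := pow_le_pow_right₀ (by norm_num) hs
  have hR0 : 0 < R := by positivity
  have hhalf : (1 / 2 : ℝ) ^ s = 1 / R := by rw [hR, one_div_pow]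
  rw [hhalf] at hD1 hD2
  set M : ℕ := max (rd q r) (rd r q) with hM
  have hm1 : 1 ≤ rd q r := rd_pos hq.1
  have hm2 : 1 ≤ rd r q := rd_pos hr.1
  have hmM1 : rd q r ≤ M := le_max_left _ _
  have hmM2 : rd r q ≤ M := le_max_right _ _
  have hM1 : 1 ≤ M := hm1.trans hmM1
  set t : ℝ := R ^ ((1 : ℝ) / 16) with ht
  have ht0 : 0 < t := Real.rpow_pos_of_pos hR0 _
  have ht17 : R * t = R ^ ((17 : ℝ) / 16) := by
    rw [ht]
    nth_rewrite 1 [← Real.rpow_one R]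
    rw [← Real.rpow_add hR0]
    norm_num
  have hDgt : 1 / (2 * R) < DD κ q r := by
    have : 1 / (2 * R) = (1 / R) / 2 := by field_simp
    rw [this]; linarith
  have hD0 : 0 < DD κ q r := lt_trans (by positivity) hDgt
  -- the two scales
  have hq3 : 1 / (2 * R) < t * ((rd r q : ℝ) * rho κ q) := by
    have e1 : (rd r q : ℝ) * rho κ q = (Nat.lcm q r : ℝ) * (1 / 2 : ℝ) ^ κ q := by
      unfold rho
      rw [lcm_eq q r]; push_cast; ring
    rw [e1]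
    refine hDgt.trans ?_
    exact tg3_lev (Nat.lcm q r) (κ q) (κ r) t _ hlev ht0 hD0 le_rfl
  have hr3 : 1 / (2 * R) < t * ((rd q r : ℝ) * rho κ r) := by
    have e1 : (rd q r : ℝ) * rho κ r = (Nat.lcm q r : ℝ) * (1 / 2 : ℝ) ^ κ r := by
      unfold rho
      rw [Nat.lcm_comm, lcm_eq r q]; push_cast; ring
    rw [e1]
    refine hDgt.trans ?_
    refine tg3_lev (Nat.lcm q r) (κ r) (κ q) t _ ?_ ht0 hD0 ?_
    · rw [add_comm]; exact hlev
    · unfold DD; rw [max_comm]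
  obtain ⟨hq4, hq5⟩ := tg3_T κ q (rd r q) M (DD κ q r) R t hq hm2 hmM2 hR0 ht0 ht17
    (tg2_D1 κ q r) hD1 hq3
  obtain ⟨hr4, hr5⟩ := tg3_T κ r (rd q r) M (DD κ q r) R t hr hm1 hmM1 hR0 ht0 ht17
    (tg2_D2 κ q r) hD1 hr3
  have hNq : tN γ κ q = den γ (R / 8) := den_eq_scale γ R (tT κ q) M hR64 hM1 hN hη hq4 hq5
  have hNr : tN γ κ r = den γ (R / 8) := den_eq_scale γ R (tT κ r) M hR64 hM1 hN hη hr4 hr5
  have hPq : tP γ κ q = num γ (R / 8) := by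
    unfold tP num
    have : den γ (tT κ q) = den γ (R / 8) := hNq
    rw [this]
  have hPr : tP γ κ r = num γ (R / 8) := by
    unfold tP num
    have : den γ (tT κ r) = den γ (R / 8) := hNr
    rw [this]
  have hH : Hx γ κ q r x = (den γ (R / 8) : ℤ) *
      ((den γ (R / 8) : ℤ) * ((rd r q : ℤ) * round (q * x - γ) - (rd q r : ℤ) * round (r * x - γ)) +
        ((rd r q : ℤ) - rd q r) * num γ (R / 8)) := by
    unfold Hx HH
    rw [hNq, hNr, hPq, hPr]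
    ring
  rw [hH]
  have hJ : ((den γ (R / 8) : ℤ) * ((rd r q : ℤ) * round (q * x - γ) - (rd q r : ℤ) * round (r * x - γ)) +
        ((rd r q : ℤ) - rd q r) * num γ (R / 8)) = 0 := by
    rw [← Int.abs_lt_one_iff]
    have hreal : |(((den γ (R / 8) : ℤ) * ((rd r q : ℤ) * round (q * x - γ) -
        (rd q r : ℤ) * round (r * x - γ)) + ((rd r q : ℤ) - rd q r) * num γ (R / 8) : ℤ) : ℝ)| < 1 := by
      have e1 : (((den γ (R / 8) : ℤ) * ((rd r q : ℤ) * round (q * x - γ) -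
          (rd q r : ℤ) * round (r * x - γ)) + ((rd r q : ℤ) - rd q r) * num γ (R / 8) : ℤ) : ℝ) =
          (den γ (R / 8) : ℝ) * (((rd r q : ℝ) * round (q * x - γ) - (rd q r : ℝ) * round (r * x - γ)) +
            γ * ((rd r q : ℝ) - rd q r)) -
          ((rd r q : ℝ) - rd q r) * ((den γ (R / 8) : ℝ) * γ - num γ (R / 8)) := by
        push_cast
        ring
      rw [e1]
      have e2 : |(den γ (R / 8) : ℝ) * (((rd r q : ℝ) * round (q * x - γ) - (rd q r : ℝ) * round (r * x - γ)) +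
            γ * ((rd r q : ℝ) - rd q r))| ≤ 2 * R ^ ((3 : ℝ) / 8) / R := by
        rw [abs_mul, Nat.abs_cast]
        calc (den γ (R / 8) : ℝ) * |((rd r q : ℝ) * round (q * x - γ) - (rd q r : ℝ) * round (r * x - γ)) +
            γ * ((rd r q : ℝ) - rd q r)| ≤ R ^ ((3 : ℝ) / 8) * (2 * (1 / R)) := by
              refine mul_le_mul hN ?_ (abs_nonneg _) (by positivity)
              exact (tg2_h γ κ q r x h1 h2).trans (by linarith)
          _ = 2 * R ^ ((3 : ℝ) / 8) / R := by ring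
      have e3 : |((rd r q : ℝ) - rd q r) * ((den γ (R / 8) : ℝ) * γ - num γ (R / 8))| ≤
          (M : ℝ) * eta γ (R / 8) := by
        rw [abs_mul, abs_den_sub_num]
        refine mul_le_mul_of_nonneg_right ?_ (eta_nonneg _ _)
        have f1 : (rd q r : ℝ) ≤ M := by exact_mod_cast hmM1
        have f2 : (rd r q : ℝ) ≤ M := by exact_mod_cast hmM2
        have f3 : (0 : ℝ) ≤ rd q r := Nat.cast_nonneg _
        have f4 : (0 : ℝ) ≤ rd r q := Nat.cast_nonneg _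
        rw [abs_le]
        constructor <;> linarith
      have e4 : 2 * R ^ ((3 : ℝ) / 8) / R ≤ 1 / 2 := by
        have f1 : R ^ ((3 : ℝ) / 8) * R ^ ((5 : ℝ) / 8) = R := by
          rw [← Real.rpow_add hR0]; norm_num
        have f2 : (4 : ℝ) ≤ R ^ ((5 : ℝ) / 8) := by
          calc (4 : ℝ) ≤ ((2 : ℝ) ^ 64) ^ ((5 : ℝ) / 8) := by
                rw [← Real.rpow_natCast, ← Real.rpow_mul (by norm_num)]
                norm_num
            _ ≤ R ^ ((5 : ℝ) / 8) := Real.rpow_le_rpow (by norm_num) hR64 (by norm_num)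
        have f3 : 0 < R ^ ((3 : ℝ) / 8) := by positivity
        rw [div_le_div_iff₀ hR0 (by norm_num)]
        nlinarith
      have e5 : (M : ℝ) * eta γ (R / 8) < 1 / 2 := by linarith
      refine lt_of_le_of_lt (abs_sub _ _) ?_
      linarith
    exact_mod_cast hreal
  rw [hJ, mul_zero]

end Pool.Agent.IDE
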