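import Pool.Agent.IDE.CO
import Pool.Agent.IDE.TG3
import Pool.Agent.IDE.PP
import Pool.Agent.IDE.SC3
import Pool.Agent.IDE.RA2

set_option autoImplicit false

namespace Pool.Agent.IDE

open Finset Pool.Agent.IDS MeasureTheory

theorem mo_half :
    ∃ C : ℝ, 0 < C ∧ ∀ (S : Finset ℕ) (κ : ℕ → ℕ) (μ : ℕ → ℝ) (t : ℝ) (E : Finset (ℕ × ℕ)),
      (∀ v, 0 ≤ μ v) → (∀ v ∈ S, 0 < v ∧ μ v ≤ (Nat.totient v : ℝ) * (1 / 2 : ℝ) ^ κ v) → 0 < t →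
      E ⊆ S ×ˢ S →
      (∀ e ∈ E, κ e.1 ≤ κ e.2 ∧ (Nat.lcm e.1 e.2 : ℝ) * (1 / 2 : ℝ) ^ κ e.1 ≤ t) →
      ∑ e ∈ E, μ e.1 * μ e.2 * (Fw (rd e.1 e.2) * Fw (rd e.2 e.1)) ≤
        C * (ms μ S) ^ ((51 : ℝ) / 50) * t ^ ((49 : ℝ) / 50) := by
  obtain ⟨Ct, hCt, htr⟩ := tr (51 / 100) (by norm_num) (by norm_num)
  obtain ⟨Ck, hCk, hk⟩ := kappa (51 / 100) (by norm_num) (by norm_num)
  refine ⟨Ct * Ck + Ct, by positivity, ?_⟩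
  intro S κ μ t E hμ hS ht hE hE2
  have h1 := htr S κ μ t 1 E hμ hS ht le_rfl hE hE2
  have h2 := hk S κ μ t hμ hS ht
  have h3 : em μ μ E ≤ em μ μ ((S ×ˢ S).filter (fun e => κ e.1 ≤ κ e.2 ∧
        (Nat.lcm e.1 e.2 : ℝ) * (1 / 2 : ℝ) ^ κ e.1 ≤ t)) := by
    apply em_mono hμ hμ
    intro e he
    rw [mem_filter]
    exact ⟨hE he, hE2 e he⟩
  rw [Real.log_one, add_zero, one_pow, mul_one, Real.one_rpow, mul_one] at h1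
  rw [show (2 : ℝ) * (51 / 100) = 51 / 50 by norm_num,
    show (2 : ℝ) * (1 - 51 / 100) = 49 / 50 by norm_num] at h1 h2
  have h4 : Ct * em μ μ E ≤ Ct * (Ck * (ms μ S) ^ ((51 : ℝ) / 50) * t ^ ((49 : ℝ) / 50)) :=
    mul_le_mul_of_nonneg_left (h3.trans h2) hCt.le
  calc _ ≤ _ := h1
    _ ≤ Ct * (Ck * (ms μ S) ^ ((51 : ℝ) / 50) * t ^ ((49 : ℝ) / 50)) +
        Ct * (ms μ S) ^ ((51 : ℝ) / 50) * t ^ ((49 : ℝ) / 50) := by linarith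
    _ = (Ct * Ck + Ct) * (ms μ S) ^ ((51 : ℝ) / 50) * t ^ ((49 : ℝ) / 50) := by ring

theorem mo_DD_le (κ : ℕ → ℕ) (v w : ℕ) (h : κ v ≤ κ w) :
    DD κ v w = (Nat.lcm v w : ℝ) * (1 / 2 : ℝ) ^ κ v := by
  unfold DD
  rw [max_eq_left]
  exact pow_le_pow_of_le_one (by norm_num) (by norm_num) h

theorem mo_DD_comm (κ : ℕ → ℕ) (v w : ℕ) : DD κ v w = DD κ w v := by
  unfold DD
  rw [Nat.lcm_comm, max_comm]

theorem mo_DD_pos (κ : ℕ → ℕ) (v w : ℕ) (hv : 1 ≤ v) (hw : 1 ≤ w) : 0 < DD κ v w := by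
  unfold DD
  have h1 : 0 < Nat.lcm v w := Nat.lcm_pos hv hw
  have h2 : (0 : ℝ) < Nat.lcm v w := by exact_mod_cast h1
  have h3 : (0 : ℝ) < max ((1 / 2 : ℝ) ^ κ v) ((1 / 2 : ℝ) ^ κ w) :=
    lt_max_of_lt_left (by positivity)
  positivity

theorem mo_full :
    ∃ C : ℝ, 0 < C ∧ ∀ (S : Finset ℕ) (κ : ℕ → ℕ) (μ : ℕ → ℝ) (t : ℝ) (E : Finset (ℕ × ℕ)),
      (∀ v, 0 ≤ μ v) → (∀ v ∈ S, 0 < v ∧ μ v ≤ (Nat.totient v : ℝ) * (1 / 2 : ℝ) ^ κ v) → 0 < t →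
      E ⊆ S ×ˢ S →
      (∀ e ∈ E, DD κ e.1 e.2 ≤ t) →
      ∑ e ∈ E, μ e.1 * μ e.2 * (Fw (rd e.1 e.2) * Fw (rd e.2 e.1)) ≤
        C * (ms μ S) ^ ((51 : ℝ) / 50) * t ^ ((49 : ℝ) / 50) := by
  obtain ⟨C, hC, hh⟩ := mo_half
  refine ⟨2 * C, by positivity, ?_⟩
  intro S κ μ t E hμ hS ht hE hE2
  have h1 := hh S κ μ t (E.filter (fun e => κ e.1 ≤ κ e.2)) hμ hS ht
    ((filter_subset _ _).trans hE) (by
      intro e he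
      rw [mem_filter] at he
      refine ⟨he.2, ?_⟩
      rw [← mo_DD_le κ e.1 e.2 he.2]
      exact hE2 e he.1)
  have h2 := hh S κ μ t ((E.filter (fun e => ¬ κ e.1 ≤ κ e.2)).map
      (Equiv.prodComm ℕ ℕ).toEmbedding) hμ hS ht
    (by
      intro e he
      rw [mem_map] at he
      obtain ⟨f, hf, rfl⟩ := he
      rw [mem_filter] at hf
      have := hE hf.1
      rw [mem_product] at this ⊢
      exact ⟨this.2, this.1⟩) (by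
      intro e he
      rw [mem_map] at he
      obtain ⟨f, hf, rfl⟩ := he
      rw [mem_filter] at hf
      have h3 : κ f.2 ≤ κ f.1 := (not_le.1 hf.2).le
      refine ⟨h3, ?_⟩
      show (Nat.lcm f.2 f.1 : ℝ) * (1 / 2 : ℝ) ^ κ f.2 ≤ t
      rw [← mo_DD_le κ f.2 f.1 h3, mo_DD_comm]
      exact hE2 f hf.1)
  rw [sum_map] at h2
  have h4 : ∀ e : ℕ × ℕ, μ ((Equiv.prodComm ℕ ℕ).toEmbedding e).1 *
      μ ((Equiv.prodComm ℕ ℕ).toEmbedding e).2 *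
      (Fw (rd ((Equiv.prodComm ℕ ℕ).toEmbedding e).1 ((Equiv.prodComm ℕ ℕ).toEmbedding e).2) *
        Fw (rd ((Equiv.prodComm ℕ ℕ).toEmbedding e).2 ((Equiv.prodComm ℕ ℕ).toEmbedding e).1)) =
      μ e.1 * μ e.2 * (Fw (rd e.1 e.2) * Fw (rd e.2 e.1)) := by
    intro e
    show μ e.2 * μ e.1 * (Fw (rd e.2 e.1) * Fw (rd e.1 e.2)) = _
    ring
  rw [sum_congr rfl fun e _ => h4 e] at h2
  rw [← sum_filter_add_sum_filter_not E (fun e => κ e.1 ≤ κ e.2)]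
  calc _ ≤ C * (ms μ S) ^ ((51 : ℝ) / 50) * t ^ ((49 : ℝ) / 50) +
        C * (ms μ S) ^ ((51 : ℝ) / 50) * t ^ ((49 : ℝ) / 50) := add_le_add h1 h2
    _ = 2 * C * (ms μ S) ^ ((51 : ℝ) / 50) * t ^ ((49 : ℝ) / 50) := by ring

theorem mo_Fw_nonneg (n : ℕ) : 0 ≤ Fw n := by
  unfold Fw; positivity

/-- [IDE-MO] **Off-diagonal pairs with `H ≠ 0`.**

PROOF.  `main_large ε₀` gives `D₂` (replace it by `max D₂ D₁`, `D₁` from `pair_large`; `main_large`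
holds for larger `D₂` as well).  `μ q = Ω (κ q) nu κ q`, `ω q = Ω (κ q) ∈ [0,1]`.  Split the pairs:
(a) `D < 1/4`: if the set `A_q ∩ A_r ∩ {H ≠ 0}` is nonempty then `GE` (`Hx_eq_zero`) and
`nd (γ (m'-m)) ≤ 2D` (`align_of_mem`); `pair_bdd` with `D₀ = 1`: the term is
`≤ C μ μ (1 + 1/D) Fw Fw ≤ 2C (μ μ/D) Fw Fw`; `core_small`.
(b) `1/4 ≤ D < D₂`: `pair_bdd` with `D₀ = D₂`: the term is `≤ 5 C μ μ Fw Fw`; split by symmetry into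
`κ q ≤ κ r` and `>`, `tr` with `θ = 51/100`, `H = 1`, `t = D₂` and `kappa` (IDS.C3) for `em`:
`≤ C' W^{51/50}`.
(c) `D ≥ D₂`: `pair_large`: the term is `≤ 4 μ μ PF`; `main_large`: `≤ 4 (1+ε₀) W² + 4 C W^{51/50}`
(`em ≤ W²`). -/
theorem off_diagonal (ε : ℝ) (hε : 0 < ε) (hε1 : ε ≤ 1) (ε₀ : ℝ) (hε₀ : 0 < ε₀) :
    ∃ ϑ C : ℝ, 0 < ϑ ∧ ϑ < 2 ∧ 0 < C ∧ ∀ (γ : ℝ) (S : Finset ℕ) (κ : ℕ → ℕ) (Ω La : ℕ → ℝ),
      Dat3 ε S κ Ω La (fun q => Ω (κ q) * nu κ q) → (∀ q ∈ S, Adm κ q) →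
      ∑ e ∈ (S ×ˢ S).filter (fun e => e.1 ≠ e.2), Ω (κ e.1) * Ω (κ e.2) *
        (tc γ κ e.1 * tc γ κ e.2 *
          vl (Ax γ κ e.1 ∩ Ax γ κ e.2 ∩ {x | Hx γ κ e.1 e.2 x ≠ 0})) ≤
        4 * (1 + ε₀) * (∑ q ∈ S, Ω (κ q) * nu κ q) ^ 2 +
          C * (1 + ∑ q ∈ S, Ω (κ q) * nu κ q) ^ ϑ := by
  classical
  obtain ⟨ϑ1, C1, hϑ10, hϑ12, hC1, core⟩ := core_small ε hε hε1
  obtain ⟨D1, hD1, plarge⟩ := pair_large
  obtain ⟨D2, Cm, hD2, hCm, mlarge⟩ := main_large ε₀ hε₀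
  obtain ⟨D, hD⟩ : ∃ D : ℝ, D = max D2 D1 := ⟨_, rfl⟩
  have hDD2 : D2 ≤ D := by rw [hD]; exact le_max_left _ _
  have hDD1 : D1 ≤ D := by rw [hD]; exact le_max_right _ _
  have hDone : 1 ≤ D := by
    have : (1 : ℝ) ≤ 2 ^ 16 := by norm_num
    linarith
  have hD0 : 0 < D := by linarith
  obtain ⟨Cs, hCs, psmall⟩ := pair_bdd 1 le_rfl
  obtain ⟨Cb, hCb, pmid⟩ := pair_bdd D hDone
  obtain ⟨Cf, hCf, full⟩ := mo_full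
  refine ⟨max ϑ1 (51 / 50), 2 * Cs * C1 + 5 * Cb * (Cf * D ^ ((49 : ℝ) / 50)) + 4 * Cm,
    lt_max_of_lt_left hϑ10, max_lt hϑ12 (by norm_num), by positivity, ?_⟩
  intro γ S κ Ω La hdat hadm
  obtain ⟨μ, hμ⟩ : ∃ μ : ℕ → ℝ, μ = fun q => Ω (κ q) * nu κ q := ⟨_, rfl⟩
  rw [← hμ] at hdat
  have hμq : ∀ q, Ω (κ q) * nu κ q = μ q := fun q => by rw [hμ]
  have hms : ∑ q ∈ S, Ω (κ q) * nu κ q = ms μ S := by
    unfold ms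
    exact sum_congr rfl fun q _ => hμq q
  rw [hms]
  have hμ0 : ∀ v, 0 ≤ μ v := hdat.mu0
  have hμ1 : ∀ v ∈ S, 0 < v ∧ μ v ≤ (Nat.totient v : ℝ) * (1 / 2 : ℝ) ^ κ v :=
    fun v hv => ⟨hdat.pos v hv, hdat.mu_le hε hv⟩
  have hΩ0 : ∀ k, 0 ≤ Ω k := hdat.Om0
  obtain ⟨W, hW⟩ : ∃ W : ℝ, W = ms μ S := ⟨_, rfl⟩
  have hW0 : 0 ≤ W := by rw [hW]; exact ms_nonneg hμ0 S
  have hpow1 : (1 + W) ^ ϑ1 ≤ (1 + W) ^ max ϑ1 (51 / 50) :=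
    Real.rpow_le_rpow_of_exponent_le (by linarith) (le_max_left _ _)
  have hpow2 : W ^ ((51 : ℝ) / 50) ≤ (1 + W) ^ max ϑ1 (51 / 50) :=
    (Real.rpow_le_rpow hW0 (by linarith) (by norm_num)).trans
      (Real.rpow_le_rpow_of_exponent_le (by linarith) (le_max_right _ _))
  obtain ⟨T, hT⟩ : ∃ T : ℕ × ℕ → ℝ, ∀ e, T e = Ω (κ e.1) * Ω (κ e.2) *
        (tc γ κ e.1 * tc γ κ e.2 *
          vl (Ax γ κ e.1 ∩ Ax γ κ e.2 ∩ {x | Hx γ κ e.1 e.2 x ≠ 0})) := ⟨_, fun _ => rfl⟩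
  obtain ⟨Off, hOff⟩ : ∃ Off : Finset (ℕ × ℕ), Off = (S ×ˢ S).filter (fun e => e.1 ≠ e.2) :=
    ⟨_, rfl⟩
  rw [← hOff]
  simp_rw [← hT]
  have hOffS : Off ⊆ S ×ˢ S := by rw [hOff]; exact filter_subset _ _
  have hmem : ∀ e ∈ Off, e.1 ∈ S ∧ e.2 ∈ S ∧ e.1 ≠ e.2 := by
    intro e he
    rw [hOff, mem_filter, mem_product] at he
    exact ⟨he.1.1, he.1.2, he.2⟩
  have hDpos : ∀ e ∈ Off, 0 < DD κ e.1 e.2 := by
    intro e he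
    obtain ⟨h1, h2, -⟩ := hmem e he
    exact mo_DD_pos κ _ _ (hadm _ h1).1 (hadm _ h2).1
  -- (a)
  have hA : ∑ e ∈ Off.filter (fun e => DD κ e.1 e.2 < 1 / 4), T e ≤
      2 * Cs * C1 * (1 + W) ^ ϑ1 := by
    obtain ⟨Ea, hEa⟩ : ∃ Ea : Finset (ℕ × ℕ), Ea = (Off.filter
        (fun e => DD κ e.1 e.2 < 1 / 4)).filter
        (fun e => ∃ x, x ∈ Ax γ κ e.1 ∩ Ax γ κ e.2 ∩ {x | Hx γ κ e.1 e.2 x ≠ 0}) := ⟨_, rfl⟩
    have h0 : ∑ e ∈ Off.filter (fun e => DD κ e.1 e.2 < 1 / 4), T e = ∑ e ∈ Ea, T e := by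
      rw [hEa]
      symm
      apply sum_subset (filter_subset _ _)
      intro e he hne
      rw [mem_filter, not_and] at hne
      have h1 := hne he
      have h2 : Ax γ κ e.1 ∩ Ax γ κ e.2 ∩ {x | Hx γ κ e.1 e.2 x ≠ 0} = ∅ := by
        rw [Set.eq_empty_iff_forall_notMem]
        intro x hx
        exact h1 ⟨x, hx⟩
      rw [hT, h2]
      unfold vl
      simp
    have hEaO : ∀ e ∈ Ea, e ∈ Off ∧ DD κ e.1 e.2 < 1 / 4 ∧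
        ∃ x, x ∈ Ax γ κ e.1 ∩ Ax γ κ e.2 ∩ {x | Hx γ κ e.1 e.2 x ≠ 0} := by
      intro e he
      rw [hEa, mem_filter, mem_filter] at he
      exact ⟨he.1.1, he.1.2, he.2⟩
    have hcore := core γ S κ Ω La μ hdat Ea (fun e he => hOffS (hEaO e he).1) (by
      intro e he
      obtain ⟨h1, h2, x, ⟨hx1, hx2⟩, hx3⟩ := hEaO e he
      obtain ⟨h4, h5, h6⟩ := hmem e h1
      have a1 : nd (e.1 * x - γ) ≤ rho κ e.1 := hx1.1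
      have a2 : nd (e.2 * x - γ) ≤ rho κ e.2 := hx2.1
      refine ⟨h6, h2, align_of_mem γ κ e.1 e.2 (hadm _ h4) (hadm _ h5) x a1 a2, ?_⟩
      by_contra hG
      exact hx3 (Hx_eq_zero γ κ e.1 e.2 (hadm _ h4) (hadm _ h5) x a1 a2 hG))
    rw [h0]
    have hterm : ∀ e ∈ Ea, T e ≤ 2 * Cs *
        (μ e.1 * μ e.2 / DD κ e.1 e.2 * (Fw (rd e.1 e.2) * Fw (rd e.2 e.1))) := by
      intro e he
      obtain ⟨h1, h2, -⟩ := hEaO e he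
      obtain ⟨h4, h5, h6⟩ := hmem e h1
      have hp := psmall γ κ e.1 e.2 (hadm _ h4) (hadm _ h5) (by linarith)
      have hd := hDpos e h1
      have hΩΩ : 0 ≤ Ω (κ e.1) * Ω (κ e.2) := mul_nonneg (hΩ0 _) (hΩ0 _)
      have hFF : 0 ≤ Fw (rd e.1 e.2) * Fw (rd e.2 e.1) :=
        mul_nonneg (mo_Fw_nonneg _) (mo_Fw_nonneg _)
      have hinv : 1 + 1 / DD κ e.1 e.2 ≤ 2 * (1 / DD κ e.1 e.2) := by
        have : 1 ≤ 1 / DD κ e.1 e.2 := by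
          rw [le_div_iff₀ hd]
          linarith
        linarith
      rw [hT]
      calc _ ≤ Ω (κ e.1) * Ω (κ e.2) * (Cs * nu κ e.1 * nu κ e.2 * (1 + 1 / DD κ e.1 e.2) *
            (Fw (rd e.1 e.2) * Fw (rd e.2 e.1))) := mul_le_mul_of_nonneg_left hp hΩΩ
        _ = (Cs * ((Ω (κ e.1) * nu κ e.1) * (Ω (κ e.2) * nu κ e.2)) *
            (Fw (rd e.1 e.2) * Fw (rd e.2 e.1))) * (1 + 1 / DD κ e.1 e.2) := by ring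
        _ = (Cs * (μ e.1 * μ e.2) * (Fw (rd e.1 e.2) * Fw (rd e.2 e.1))) *
            (1 + 1 / DD κ e.1 e.2) := by rw [hμq, hμq]
        _ ≤ (Cs * (μ e.1 * μ e.2) * (Fw (rd e.1 e.2) * Fw (rd e.2 e.1))) *
            (2 * (1 / DD κ e.1 e.2)) := by
          apply mul_le_mul_of_nonneg_left hinv
          have := mul_nonneg (hμ0 e.1) (hμ0 e.2)
          positivity
        _ = 2 * Cs * (μ e.1 * μ e.2 / DD κ e.1 e.2 *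
            (Fw (rd e.1 e.2) * Fw (rd e.2 e.1))) := by ring
    calc ∑ e ∈ Ea, T e ≤ ∑ e ∈ Ea, 2 * Cs *
        (μ e.1 * μ e.2 / DD κ e.1 e.2 * (Fw (rd e.1 e.2) * Fw (rd e.2 e.1))) := sum_le_sum hterm
      _ = 2 * Cs * ∑ e ∈ Ea, μ e.1 * μ e.2 / DD κ e.1 e.2 *
          (Fw (rd e.1 e.2) * Fw (rd e.2 e.1)) := by rw [mul_sum]
      _ ≤ 2 * Cs * (C1 * (1 + W) ^ ϑ1) := by
        rw [hW]
        exact mul_le_mul_of_nonneg_left hcore (by positivity)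
      _ = 2 * Cs * C1 * (1 + W) ^ ϑ1 := by ring
  -- (b)
  have hB : ∑ e ∈ (Off.filter (fun e => ¬ DD κ e.1 e.2 < 1 / 4)).filter
      (fun e => DD κ e.1 e.2 < D), T e ≤
      5 * Cb * (Cf * D ^ ((49 : ℝ) / 50)) * W ^ ((51 : ℝ) / 50) := by
    obtain ⟨Eb, hEb⟩ : ∃ Eb : Finset (ℕ × ℕ), Eb = (Off.filter
        (fun e => ¬ DD κ e.1 e.2 < 1 / 4)).filter (fun e => DD κ e.1 e.2 < D) := ⟨_, rfl⟩
    rw [← hEb]
    have hEbO : ∀ e ∈ Eb, e ∈ Off ∧ 1 / 4 ≤ DD κ e.1 e.2 ∧ DD κ e.1 e.2 < D := by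
      intro e he
      rw [hEb, mem_filter, mem_filter] at he
      exact ⟨he.1.1, not_lt.1 he.1.2, he.2⟩
    have hfull := full S κ μ D Eb hμ0 hμ1 hD0 (fun e he => hOffS (hEbO e he).1)
      (fun e he => (hEbO e he).2.2.le)
    have hterm : ∀ e ∈ Eb, T e ≤ 5 * Cb *
        (μ e.1 * μ e.2 * (Fw (rd e.1 e.2) * Fw (rd e.2 e.1))) := by
      intro e he
      obtain ⟨h1, h2, h3⟩ := hEbO e he
      obtain ⟨h4, h5, h6⟩ := hmem e h1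
      have hp := pmid γ κ e.1 e.2 (hadm _ h4) (hadm _ h5) h3.le
      have hd := hDpos e h1
      have hΩΩ : 0 ≤ Ω (κ e.1) * Ω (κ e.2) := mul_nonneg (hΩ0 _) (hΩ0 _)
      have hFF : 0 ≤ Fw (rd e.1 e.2) * Fw (rd e.2 e.1) :=
        mul_nonneg (mo_Fw_nonneg _) (mo_Fw_nonneg _)
      have hinv : 1 + 1 / DD κ e.1 e.2 ≤ 5 := by
        have : 1 / DD κ e.1 e.2 ≤ 4 := by
          rw [div_le_iff₀ hd]
          linarith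
        linarith
      rw [hT]
      calc _ ≤ Ω (κ e.1) * Ω (κ e.2) * (Cb * nu κ e.1 * nu κ e.2 * (1 + 1 / DD κ e.1 e.2) *
            (Fw (rd e.1 e.2) * Fw (rd e.2 e.1))) := mul_le_mul_of_nonneg_left hp hΩΩ
        _ = (Cb * ((Ω (κ e.1) * nu κ e.1) * (Ω (κ e.2) * nu κ e.2)) *
            (Fw (rd e.1 e.2) * Fw (rd e.2 e.1))) * (1 + 1 / DD κ e.1 e.2) := by ring
        _ = (Cb * (μ e.1 * μ e.2) * (Fw (rd e.1 e.2) * Fw (rd e.2 e.1))) *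
            (1 + 1 / DD κ e.1 e.2) := by rw [hμq, hμq]
        _ ≤ (Cb * (μ e.1 * μ e.2) * (Fw (rd e.1 e.2) * Fw (rd e.2 e.1))) * 5 := by
          apply mul_le_mul_of_nonneg_left hinv
          have := mul_nonneg (hμ0 e.1) (hμ0 e.2)
          positivity
        _ = 5 * Cb * (μ e.1 * μ e.2 *
            (Fw (rd e.1 e.2) * Fw (rd e.2 e.1))) := by ring
    calc ∑ e ∈ Eb, T e ≤ ∑ e ∈ Eb, 5 * Cb *
        (μ e.1 * μ e.2 * (Fw (rd e.1 e.2) * Fw (rd e.2 e.1))) := sum_le_sum hterm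
      _ = 5 * Cb * ∑ e ∈ Eb, μ e.1 * μ e.2 *
          (Fw (rd e.1 e.2) * Fw (rd e.2 e.1)) := by rw [mul_sum]
      _ ≤ 5 * Cb * (Cf * W ^ ((51 : ℝ) / 50) * D ^ ((49 : ℝ) / 50)) := by
        rw [hW]
        exact mul_le_mul_of_nonneg_left hfull (by positivity)
      _ = 5 * Cb * (Cf * D ^ ((49 : ℝ) / 50)) * W ^ ((51 : ℝ) / 50) := by ring
  -- (c)
  have hCc : ∑ e ∈ (Off.filter (fun e => ¬ DD κ e.1 e.2 < 1 / 4)).filter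
      (fun e => ¬ DD κ e.1 e.2 < D), T e ≤
      4 * (1 + ε₀) * W ^ 2 + 4 * Cm * W ^ ((51 : ℝ) / 50) := by
    obtain ⟨Ec, hEc⟩ : ∃ Ec : Finset (ℕ × ℕ), Ec = (Off.filter
        (fun e => ¬ DD κ e.1 e.2 < 1 / 4)).filter (fun e => ¬ DD κ e.1 e.2 < D) := ⟨_, rfl⟩
    rw [← hEc]
    have hEcO : ∀ e ∈ Ec, e ∈ Off ∧ D ≤ DD κ e.1 e.2 := by
      intro e he
      rw [hEc, mem_filter, mem_filter] at he
      exact ⟨he.1.1, not_lt.1 he.2⟩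
    have hEcS : Ec ⊆ S ×ˢ S := fun e he => hOffS (hEcO e he).1
    have hmain := mlarge S κ μ Ec hμ0 hμ1 hEcS (fun e he => hDD2.trans (hEcO e he).2)
    have hterm : ∀ e ∈ Ec, T e ≤ 4 * (μ e.1 * μ e.2 * PF κ e.1 e.2) := by
      intro e he
      obtain ⟨h1, h3⟩ := hEcO e he
      obtain ⟨h4, h5, h6⟩ := hmem e h1
      have hp := plarge γ κ e.1 e.2 (hadm _ h4) (hadm _ h5) (hDD1.trans h3)
      have hΩΩ : 0 ≤ Ω (κ e.1) * Ω (κ e.2) := mul_nonneg (hΩ0 _) (hΩ0 _)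
      rw [hT]
      refine (mul_le_mul_of_nonneg_left hp hΩΩ).trans (le_of_eq ?_)
      unfold PF
      rw [← hμq e.1, ← hμq e.2]
      ring
    have hem : em μ μ Ec ≤ W ^ 2 := by
      rw [hW, sq]
      exact em_le_mul hμ0 hμ0 hEcS
    calc ∑ e ∈ Ec, T e ≤ ∑ e ∈ Ec, 4 * (μ e.1 * μ e.2 * PF κ e.1 e.2) := sum_le_sum hterm
      _ = 4 * ∑ e ∈ Ec, μ e.1 * μ e.2 * PF κ e.1 e.2 := by rw [mul_sum]
      _ ≤ 4 * ((1 + ε₀) * em μ μ Ec + Cm * W ^ ((51 : ℝ) / 50)) := by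
        rw [hW]
        exact mul_le_mul_of_nonneg_left hmain (by norm_num)
      _ ≤ 4 * ((1 + ε₀) * W ^ 2 + Cm * W ^ ((51 : ℝ) / 50)) := by
        have := mul_le_mul_of_nonneg_left hem (show 0 ≤ 1 + ε₀ by linarith)
        linarith
      _ = 4 * (1 + ε₀) * W ^ 2 + 4 * Cm * W ^ ((51 : ℝ) / 50) := by ring
  rw [← hW, ← sum_filter_add_sum_filter_not Off (fun e => DD κ e.1 e.2 < 1 / 4),
    ← sum_filter_add_sum_filter_not (Off.filter (fun e => ¬ DD κ e.1 e.2 < 1 / 4))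
      (fun e => DD κ e.1 e.2 < D)]
  have e1 : 2 * Cs * C1 * (1 + W) ^ ϑ1 ≤ 2 * Cs * C1 * (1 + W) ^ max ϑ1 (51 / 50) :=
    mul_le_mul_of_nonneg_left hpow1 (by positivity)
  have e2 : 5 * Cb * (Cf * D ^ ((49 : ℝ) / 50)) * W ^ ((51 : ℝ) / 50) ≤
      5 * Cb * (Cf * D ^ ((49 : ℝ) / 50)) * (1 + W) ^ max ϑ1 (51 / 50) :=
    mul_le_mul_of_nonneg_left hpow2 (by positivity)
  have e3 : 4 * Cm * W ^ ((51 : ℝ) / 50) ≤ 4 * Cm * (1 + W) ^ max ϑ1 (51 / 50) :=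
    mul_le_mul_of_nonneg_left hpow2 (by positivity)
  linarith

/-- [IDE-MO] **Second moment bound.**

PROOF.  `vl (A ∩ B) = vl (A ∩ B ∩ {H = 0}) + vl (A ∩ B ∩ {H ≠ 0})` (measurability; `≤` suffices).
Diagonal: `Ω² tc² vl (Ax) ≤ Ω tc vl = 2 Ω nu` (`tc_vl`, `tc_nonneg_le`).  Off the diagonal:
`schur_total` and `off_diagonal`. -/
theorem moment_bound (ε : ℝ) (hε : 0 < ε) (hε1 : ε ≤ 1) (ε₀ : ℝ) (hε₀ : 0 < ε₀) :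
    ∃ ϑ C : ℝ, 0 < ϑ ∧ ϑ < 2 ∧ 0 < C ∧ ∀ (γ : ℝ) (S : Finset ℕ) (κ : ℕ → ℕ) (Ω La : ℕ → ℝ),
      Dat3 ε S κ Ω La (fun q => Ω (κ q) * nu κ q) → (∀ q ∈ S, Adm κ q) →
      ∑ q ∈ S, ∑ r ∈ S, (Ω (κ q) * tc γ κ q) * (Ω (κ r) * tc γ κ r) *
        vl (Ax γ κ q ∩ Ax γ κ r) ≤
        4 * (1 + ε₀) * (∑ q ∈ S, Ω (κ q) * nu κ q) ^ 2 +
          C * (1 + ∑ q ∈ S, Ω (κ q) * nu κ q) ^ ϑ := by
  classical
  obtain ⟨ϑ1, C1, hϑ10, hϑ12, hC1, hoff⟩ := off_diagonal ε hε hε1 ε₀ hε₀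
  obtain ⟨Cz, hCz, schur⟩ := schur_total
  refine ⟨max ϑ1 1, C1 + Cz + 2, lt_max_of_lt_left hϑ10, max_lt hϑ12 (by norm_num),
    by positivity, ?_⟩
  intro γ S κ Ω La hdat hadm
  have h1 := hoff γ S κ Ω La hdat hadm
  have hΩ0 : ∀ k, 0 ≤ Ω k := hdat.Om0
  have hΩ1 : ∀ k, Ω k ≤ 1 := fun k => hdat.Om_le_one hε k
  have h2 := schur γ κ S (fun q => Ω (κ q)) hadm (fun q => ⟨hΩ0 _, hΩ1 _⟩)
  obtain ⟨W, hW⟩ : ∃ W : ℝ, W = ∑ q ∈ S, Ω (κ q) * nu κ q := ⟨_, rfl⟩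
  rw [← hW] at h1 h2 ⊢
  have hW0 : 0 ≤ W := by
    rw [hW]
    exact sum_nonneg fun q _ => hdat.mu0 q
  have hfin : ∀ A : Set ℝ, volume (A ∩ Set.Icc (0 : ℝ) 1) ≠ ⊤ := by
    intro A
    refine ne_top_of_le_ne_top ?_ (measure_mono Set.inter_subset_right)
    rw [Real.volume_Icc]
    exact ENNReal.ofReal_ne_top
  have hsplit : ∀ q r : ℕ, vl (Ax γ κ q ∩ Ax γ κ r) ≤
      vl (Ax γ κ q ∩ Ax γ κ r ∩ {x | Hx γ κ q r x = 0}) +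
        vl (Ax γ κ q ∩ Ax γ κ r ∩ {x | Hx γ κ q r x ≠ 0}) := by
    intro q r
    unfold vl
    have e1 : Ax γ κ q ∩ Ax γ κ r ∩ Set.Icc (0 : ℝ) 1 ⊆
        (Ax γ κ q ∩ Ax γ κ r ∩ {x | Hx γ κ q r x = 0} ∩ Set.Icc (0 : ℝ) 1) ∪
        (Ax γ κ q ∩ Ax γ κ r ∩ {x | Hx γ κ q r x ≠ 0} ∩ Set.Icc (0 : ℝ) 1) := by
      intro x hx
      by_cases h : Hx γ κ q r x = 0
      · exact Or.inl ⟨⟨hx.1, h⟩, hx.2⟩
      · exact Or.inr ⟨⟨hx.1, h⟩, hx.2⟩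
    have e2 := (measure_mono (μ := volume) e1).trans (measure_union_le _ _)
    rw [← ENNReal.toReal_add (hfin _) (hfin _)]
    exact ENNReal.toReal_mono (ENNReal.add_ne_top.2 ⟨hfin _, hfin _⟩) e2
  rw [← sum_product', ← sum_filter_add_sum_filter_not (S ×ˢ S) (fun e => e.1 = e.2)]
  have hdiag : ∑ e ∈ (S ×ˢ S).filter (fun e => e.1 = e.2),
      Ω (κ e.1) * tc γ κ e.1 * (Ω (κ e.2) * tc γ κ e.2) * vl (Ax γ κ e.1 ∩ Ax γ κ e.2) ≤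
      2 * W := by
    rw [sum_filter, sum_product]
    have e1 : ∀ q ∈ S, ∑ r ∈ S, (if (q, r).1 = (q, r).2 then
        Ω (κ (q, r).1) * tc γ κ (q, r).1 * (Ω (κ (q, r).2) * tc γ κ (q, r).2) *
          vl (Ax γ κ (q, r).1 ∩ Ax γ κ (q, r).2) else 0) ≤ 2 * (Ω (κ q) * nu κ q) := by
      intro q hq
      have e2 : ∑ r ∈ S, (if (q, r).1 = (q, r).2 then
        Ω (κ (q, r).1) * tc γ κ (q, r).1 * (Ω (κ (q, r).2) * tc γ κ (q, r).2) *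
          vl (Ax γ κ (q, r).1 ∩ Ax γ κ (q, r).2) else 0) =
          Ω (κ q) * tc γ κ q * (Ω (κ q) * tc γ κ q) * vl (Ax γ κ q ∩ Ax γ κ q) := by
        show ∑ r ∈ S, (if q = r then
          Ω (κ q) * tc γ κ q * (Ω (κ r) * tc γ κ r) * vl (Ax γ κ q ∩ Ax γ κ r) else 0) = _
        rw [sum_ite_eq, if_pos hq]
      rw [e2, Set.inter_self]
      have e3 := tc_vl γ κ q (hadm q hq)
      obtain ⟨e4, e5⟩ := tc_nonneg_le γ κ q (hadm q hq).1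
      have e6 := hΩ0 (κ q)
      have e7 := hΩ1 (κ q)
      have e8 : Ω (κ q) * tc γ κ q ≤ 1 := by nlinarith
      have e9 : 0 ≤ Ω (κ q) * tc γ κ q := mul_nonneg e6 e4
      have e10 : 0 ≤ vl (Ax γ κ q) := vl_nonneg _
      calc Ω (κ q) * tc γ κ q * (Ω (κ q) * tc γ κ q) * vl (Ax γ κ q)
          ≤ 1 * (Ω (κ q) * tc γ κ q) * vl (Ax γ κ q) := by gcongr
        _ = Ω (κ q) * (tc γ κ q * vl (Ax γ κ q)) := by ring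
        _ = 2 * (Ω (κ q) * nu κ q) := by rw [e3]; ring
    refine (sum_le_sum e1).trans (le_of_eq ?_)
    rw [← mul_sum, hW]
  have hoffd : ∑ e ∈ (S ×ˢ S).filter (fun e => ¬ e.1 = e.2),
      Ω (κ e.1) * tc γ κ e.1 * (Ω (κ e.2) * tc γ κ e.2) * vl (Ax γ κ e.1 ∩ Ax γ κ e.2) ≤
      Cz * W + (4 * (1 + ε₀) * W ^ 2 + C1 * (1 + W) ^ ϑ1) := by
    refine le_trans ?_ (add_le_add h2 h1)
    rw [← sum_add_distrib]
    refine sum_le_sum fun e he => ?_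
    rw [mem_filter, mem_product] at he
    obtain ⟨e4, -⟩ := tc_nonneg_le γ κ e.1 (hadm _ he.1.1).1
    obtain ⟨e5, -⟩ := tc_nonneg_le γ κ e.2 (hadm _ he.1.2).1
    have e6 : 0 ≤ Ω (κ e.1) * Ω (κ e.2) * (tc γ κ e.1 * tc γ κ e.2) :=
      mul_nonneg (mul_nonneg (hΩ0 _) (hΩ0 _)) (mul_nonneg e4 e5)
    have e7 := mul_le_mul_of_nonneg_left (hsplit e.1 e.2) e6
    calc Ω (κ e.1) * tc γ κ e.1 * (Ω (κ e.2) * tc γ κ e.2) * vl (Ax γ κ e.1 ∩ Ax γ κ e.2)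
        = Ω (κ e.1) * Ω (κ e.2) * (tc γ κ e.1 * tc γ κ e.2) * vl (Ax γ κ e.1 ∩ Ax γ κ e.2) := by
          ring
      _ ≤ _ := e7
      _ = _ := by ring
  have hp1 : W ≤ (1 + W) ^ max ϑ1 1 := by
    have e1 : (1 + W) ^ (1 : ℝ) ≤ (1 + W) ^ max ϑ1 1 :=
      Real.rpow_le_rpow_of_exponent_le (by linarith) (le_max_right _ _)
    rw [Real.rpow_one] at e1
    linarith
  have hp2 : (1 + W) ^ ϑ1 ≤ (1 + W) ^ max ϑ1 1 :=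
    Real.rpow_le_rpow_of_exponent_le (by linarith) (le_max_left _ _)
  have hp3 := mul_le_mul_of_nonneg_left hp2 hC1.le
  have hp4 := mul_le_mul_of_nonneg_left hp1 hCz.le
  calc _ ≤ 2 * W + (Cz * W + (4 * (1 + ε₀) * W ^ 2 + C1 * (1 + W) ^ ϑ1)) :=
        add_le_add hdiag hoffd
    _ ≤ 4 * (1 + ε₀) * W ^ 2 + (C1 + Cz + 2) * (1 + W) ^ max ϑ1 1 := by linarith

end Pool.Agent.IDE
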