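import Pool.Agent.IDE.Tg

set_option autoImplicit false

namespace Pool.Agent.IDE

open Finset Pool.Agent.IDS MeasureTheory

private theorem o1_cont : Continuous nd := by
  have h : LipschitzWith 1 nd := by
    refine LipschitzWith.of_dist_le_mul fun x y => ?_
    rw [Real.dist_eq, Real.dist_eq, NNReal.coe_one, one_mul, abs_le]
    have h1 := nd_add_le y (x - y)
    have h2 := nd_add_le x (y - x)
    have h3 := nd_le_abs (x - y) 0
    have h4 := nd_le_abs (y - x) 0
    rw [Int.cast_zero, sub_zero] at h3 h4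
    rw [abs_sub_comm y x] at h4
    rw [add_sub_cancel] at h1 h2
    constructor <;> linarith
  exact h.continuous

private theorem o1_round (γ : ℝ) (q : ℕ) : Measurable fun x : ℝ => round ((q : ℝ) * x - γ) := by
  simp only [round_eq]
  exact Measurable.floor (by fun_prop)

/-- [IDE-O1] PROOF. `x ↦ nd (q x - γ)` and `x ↦ round (q x - γ)` are measurable; finite intersection of
preimages. -/
theorem measurableSet_AS (γ : ℝ) (q : ℕ) (ρ : ℝ) (N : ℕ) (P : ℤ) (Q : Finset ℕ) :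
    MeasurableSet (AS γ q ρ N P Q) := by
  have h1 : MeasurableSet {x : ℝ | nd (q * x - γ) ≤ ρ} :=
    measurableSet_le (o1_cont.measurable.comp (by fun_prop)) measurable_const
  have h2 : MeasurableSet {x : ℝ | ∀ p ∈ Q, ¬ ((p : ℤ) ∣ (N : ℤ) * round (q * x - γ) + P)} := by
    have : {x : ℝ | ∀ p ∈ Q, ¬ ((p : ℤ) ∣ (N : ℤ) * round (q * x - γ) + P)} =
        (fun x : ℝ => round ((q : ℝ) * x - γ)) ⁻¹'
          {b : ℤ | ∀ p ∈ Q, ¬ ((p : ℤ) ∣ (N : ℤ) * b + P)} := rfl
    rw [this]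
    exact o1_round γ q (MeasurableSet.of_discrete)
  exact h1.inter h2

/-- [IDE-O1] -/
theorem measurableSet_HH (γ : ℝ) (q r : ℕ) (N₁ : ℕ) (P₁ : ℤ) (N₂ : ℕ) (P₂ : ℤ) :
    MeasurableSet {x | HH γ q r N₁ P₁ N₂ P₂ x = 0} := by
  have : {x | HH γ q r N₁ P₁ N₂ P₂ x = 0} =
      (fun x : ℝ => (round ((q : ℝ) * x - γ), round ((r : ℝ) * x - γ))) ⁻¹'
        {b : ℤ × ℤ | (N₂ : ℤ) * rd r q * ((N₁ : ℤ) * b.1 + P₁) -
          (N₁ : ℤ) * rd q r * ((N₂ : ℤ) * b.2 + P₂) = 0} := rfl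
  rw [this]
  exact ((o1_round γ q).prodMk (o1_round γ r)) (MeasurableSet.of_discrete)

private theorem o1_round_add (γ : ℝ) (q : ℕ) (x : ℝ) :
    round ((q : ℝ) * (x + 1) - γ) = round ((q : ℝ) * x - γ) + q := by
  have : (q : ℝ) * (x + 1) - γ = ((q : ℝ) * x - γ) + (q : ℕ) := by ring
  rw [this, round_add_natCast]

private theorem o1_nd_add (γ : ℝ) (q : ℕ) (x : ℝ) :
    nd ((q : ℝ) * (x + 1) - γ) = nd ((q : ℝ) * x - γ) := by
  unfold nd
  rw [o1_round_add]
  push_cast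
  congr 1
  ring

/-- [IDE-O1] PROOF. `round (q (x+1) - γ) = round (q x - γ) + q` (`round_add_natCast`), `nd` is
1-periodic, and `p ∣ N q` for `p ∈ Q`. -/
theorem AS_periodic (γ : ℝ) (q : ℕ) (ρ : ℝ) (N : ℕ) (P : ℤ) (Q : Finset ℕ)
    (hQ : ∀ p ∈ Q, p ∣ q) (x : ℝ) : x + 1 ∈ AS γ q ρ N P Q ↔ x ∈ AS γ q ρ N P Q := by
  unfold AS
  simp only [Set.mem_ofPred_eq]
  rw [o1_nd_add, o1_round_add]
  refine and_congr Iff.rfl (forall₂_congr fun p hp => not_congr ?_)
  have h : (p : ℤ) ∣ (N : ℤ) * q := Dvd.dvd.mul_left (Int.natCast_dvd_natCast.mpr (hQ p hp)) _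
  have e : (N : ℤ) * (round ((q : ℝ) * x - γ) + q) + P =
      (N : ℤ) * q + ((N : ℤ) * round ((q : ℝ) * x - γ) + P) := by ring
  rw [e]
  exact dvd_add_right h

/-- [IDE-O1] PROOF. `rd r q * q = rd q r * r`. -/
theorem HH_periodic (γ : ℝ) (q r : ℕ) (N₁ : ℕ) (P₁ : ℤ) (N₂ : ℕ) (P₂ : ℤ) (x : ℝ) :
    HH γ q r N₁ P₁ N₂ P₂ (x + 1) = HH γ q r N₁ P₁ N₂ P₂ x := by
  have h0 : rd r q * q = rd q r * r := by
    unfold rd
    rw [Nat.gcd_comm r q]
    have h1 := Nat.gcd_dvd_left q r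
    have h2 := Nat.gcd_dvd_right q r
    rw [Nat.div_mul_right_comm h2, Nat.div_mul_right_comm h1, mul_comm]
  have h : (rd r q : ℤ) * q = (rd q r : ℤ) * r := by exact_mod_cast h0
  unfold HH
  rw [o1_round_add, o1_round_add]
  linear_combination (N₁ : ℤ) * (N₂ : ℤ) * h

private theorem o1_vl (A : Set ℝ) (hA : MeasurableSet A) :
    vl A = ∫ x in (0 : ℝ)..1, A.indicator (fun _ => (1 : ℝ)) x := by
  rw [intervalIntegral.integral_of_le zero_le_one, ← integral_Icc_eq_integral_Ioc,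
    integral_indicator hA]
  simp only [integral_const, smul_eq_mul, mul_one]
  rw [Measure.real, Measure.restrict_apply MeasurableSet.univ, Set.univ_inter,
    Measure.restrict_apply hA]
  rfl

private theorem o1_int (F : ℝ → ℝ) (hF : Measurable F) (C : ℝ) (hb : ∀ x, |F x| ≤ C) (a b : ℝ) :
    IntervalIntegrable F volume a b := by
  rw [intervalIntegrable_iff]
  refine Measure.integrableOn_of_bounded (M := C) ?_ hF.aestronglyMeasurable
    (Filter.Eventually.of_forall fun x => hb x)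
  rw [Set.uIoc]
  exact measure_Ioc_lt_top.ne

/-- [IDE-O1] **Averaging over the shifts `l/G`.**

PROOF.  The indicator function `f` of `A` is 1-periodic, so
`vl A = ∫_0^1 f(x) dx = ∫_0^1 f(x + l/G) dx` for every `l`
(`Function.Periodic.intervalIntegral_add_eq`); average over `l ∈ range G` and use the pointwise bound
`(1/G) ∑_l f(x + l/G) ≤ c 1_B(x)`.  (Compare `Pool.Agent.IDS.overlap_one` (O2b), where the same argument is
carried out.) -/
theorem averaging (A B : Set ℝ) (hA : MeasurableSet A) (hB : MeasurableSet B)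
    (hper : ∀ x, x + 1 ∈ A ↔ x ∈ A) (G : ℕ) (hG : 1 ≤ G) (c : ℝ) (hc : 0 ≤ c)
    (h1 : ∀ x ∉ B, ∀ l ∈ range G, x + (l : ℝ) / G ∉ A)
    (h2 : ∀ x ∈ B, (Set.ncard {l : ℕ | l ∈ range G ∧ x + (l : ℝ) / G ∈ A} : ℝ) ≤ c * G) :
    vl A ≤ c * vl B := by
  classical
  have hG0 : (0 : ℝ) < G := by exact_mod_cast hG
  rw [o1_vl A hA, o1_vl B hB]
  set f : ℝ → ℝ := A.indicator (fun _ => (1 : ℝ)) with hf
  set g : ℝ → ℝ := B.indicator (fun _ => (1 : ℝ)) with hg
  have hfm : Measurable f := measurable_const.indicator hA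
  have hgm : Measurable g := measurable_const.indicator hB
  have hf1 : ∀ x, |f x| ≤ 1 := fun x => by
    rw [hf]; unfold Set.indicator; split_ifs <;> norm_num
  have hg1 : ∀ x, |g x| ≤ 1 := fun x => by
    rw [hg]; unfold Set.indicator; split_ifs <;> norm_num
  have hp : Function.Periodic f 1 := by
    intro x
    rw [hf]
    unfold Set.indicator
    exact if_congr (hper x) rfl rfl
  have hshift : ∀ l : ℕ, ∫ x in (0 : ℝ)..1, f x = ∫ x in (0 : ℝ)..1, f (x + (l : ℝ) / G) := by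
    intro l
    have e2 := intervalIntegral.integral_comp_add_right (a := 0) (b := 1) f ((l : ℝ) / G)
    rw [e2]
    have e3 := hp.intervalIntegral_add_eq 0 (0 + (l : ℝ) / G)
    rw [zero_add] at e3
    rw [e3]
    congr 1
    ring
  have hsum : (G : ℝ) * ∫ x in (0 : ℝ)..1, f x =
      ∫ x in (0 : ℝ)..1, ∑ l ∈ range G, f (x + (l : ℝ) / G) := by
    rw [intervalIntegral.integral_finsetSum]
    · rw [← Finset.sum_congr rfl (fun l _ => hshift l)]
      simp
    · intro l _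
      have hm : Measurable fun x => f (x + (l : ℝ) / G) :=
        hfm.comp (measurable_id.add_const ((l : ℝ) / G))
      exact o1_int _ hm 1 (fun x => hf1 _) 0 1
  have hle : ∀ x, ∑ l ∈ range G, f (x + (l : ℝ) / G) ≤ c * G * g x := by
    intro x
    by_cases hx : x ∈ B
    · have e1 : ∑ l ∈ range G, f (x + (l : ℝ) / G) =
          (Set.ncard {l : ℕ | l ∈ range G ∧ x + (l : ℝ) / G ∈ A} : ℝ) := by
        have e2 : {l : ℕ | l ∈ range G ∧ x + (l : ℝ) / G ∈ A} =
            (((range G).filter (fun l : ℕ => x + (l : ℝ) / G ∈ A) : Finset ℕ) : Set ℕ) := by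
          ext l; simp
        rw [e2, Set.ncard_coe_finset, Finset.card_filter]
        push_cast
        refine Finset.sum_congr rfl fun l _ => ?_
        rw [hf]
        unfold Set.indicator
        rfl
      rw [e1, hg, Set.indicator_of_mem hx, mul_one]
      exact h2 x hx
    · rw [hg, Set.indicator_of_notMem hx, mul_zero]
      refine le_of_eq (Finset.sum_eq_zero fun l hl => ?_)
      rw [hf, Set.indicator_of_notMem (h1 x hx l hl)]
  have hmono : ∫ x in (0 : ℝ)..1, ∑ l ∈ range G, f (x + (l : ℝ) / G) ≤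
      ∫ x in (0 : ℝ)..1, c * G * g x := by
    refine intervalIntegral.integral_mono_on zero_le_one ?_ ?_ (fun x _ => hle x)
    · have hs : Measurable fun x => ∑ l ∈ range G, f (x + (l : ℝ) / G) :=
        Finset.measurable_sum _ fun l _ => hfm.comp (measurable_id.add_const ((l : ℝ) / G))
      refine o1_int _ hs (∑ l ∈ range G, 1) (fun x => ?_) 0 1
      exact (Finset.abs_sum_le_sum_abs _ _).trans (Finset.sum_le_sum fun l _ => hf1 _)
    · exact (o1_int g hgm 1 hg1 0 1).const_mul _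
  rw [intervalIntegral.integral_const_mul, ← hsum] at hmono
  have : (G : ℝ) * ∫ x in (0 : ℝ)..1, f x ≤ (G : ℝ) * (c * ∫ x in (0 : ℝ)..1, g x) := by
    calc (G : ℝ) * ∫ x in (0 : ℝ)..1, f x ≤ c * G * ∫ x in (0 : ℝ)..1, g x := hmono
      _ = (G : ℝ) * (c * ∫ x in (0 : ℝ)..1, g x) := by ring
  exact le_of_mul_le_mul_left this hG0

/-- [IDE-O1] -/
theorem vl_mono (A B : Set ℝ) (h : A ⊆ B) : vl A ≤ vl B := by
  unfold vl
  refine ENNReal.toReal_mono ?_ (measure_mono (Set.inter_subset_inter_left _ h))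
  exact ((measure_mono Set.inter_subset_right).trans_lt measure_Icc_lt_top).ne

/-- [IDE-O1] -/
theorem vl_nonneg (A : Set ℝ) : 0 ≤ vl A := ENNReal.toReal_nonneg

/-- [IDE-O1] PROOF. `volume_EE` of IDS.O1 (`EE γ q ρ = {nd (q x - γ) ≤ ρ} ∩ [0,1]`). -/
theorem vl_empty_Q (γ : ℝ) (q : ℕ) (ρ : ℝ) (N : ℕ) (P : ℤ) (hq : 1 ≤ q) (h0 : 0 ≤ ρ)
    (h1 : ρ ≤ 1 / 2) : vl (AS γ q ρ N P ∅) = 2 * ρ := by
  rw [← volume_EE γ q ρ hq h0 h1]
  unfold vl
  congr 2
  ext x
  unfold AS EE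
  simp only [Set.mem_inter_iff, Set.mem_ofPred_eq, Finset.notMem_empty, false_imp_iff,
    imp_true_iff, and_true]
  exact and_comm

end Pool.Agent.IDE
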