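import Pool.Agent.IDE.O1
import Pool.Agent.IDE.O3

set_option autoImplicit false

namespace Pool.Agent.IDE

open Finset Pool.Agent.IDS MeasureTheory

/-- [IDE-O6] **`H = 0` is impossible for non-smooth ratios.**

PROOF.  `0 = H = N₂ m' u - N₁ m u'`; `p ∣ m` gives `p ∣ N₂ m' u`; `p ∤ N₂`, `p ∤ m'` (coprime to `m`),
so `p ∣ u`, contradicting `x ∈ AS`. -/
theorem zero_empty (γ : ℝ) (q r : ℕ) (hq : 1 ≤ q) (hr : 1 ≤ r) (ρ σ : ℝ)
    (N₁ : ℕ) (P₁ : ℤ) (N₂ : ℕ) (P₂ : ℤ) (Q₁ Q₂ : Finset ℕ) (p : ℕ) (hp : p.Prime) (hpQ : p ∈ Q₁)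
    (hpm : p ∣ rd q r) (hpN : ¬ p ∣ N₂) (x : ℝ)
    (hx : x ∈ AS γ q ρ N₁ P₁ Q₁ ∩ AS γ r σ N₂ P₂ Q₂) : HH γ q r N₁ P₁ N₂ P₂ x ≠ 0 := by
  intro h
  have hpp : Prime (p : ℤ) := Nat.prime_iff_prime_int.1 hp
  have hu := hx.1.2 p hpQ
  unfold HH at h
  have h1 : (N₂ : ℤ) * rd r q * ((N₁ : ℤ) * round (q * x - γ) + P₁) =
      (rd q r : ℤ) * ((N₁ : ℤ) * ((N₂ : ℤ) * round (r * x - γ) + P₂)) := by linear_combination h
  have h2 : (p : ℤ) ∣ (N₂ : ℤ) * rd r q * ((N₁ : ℤ) * round (q * x - γ) + P₁) := by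
    rw [h1]
    exact Dvd.dvd.mul_right (by exact_mod_cast hpm) _
  rcases hpp.dvd_or_dvd h2 with h3 | h3
  · rcases hpp.dvd_or_dvd h3 with h4 | h4
    · exact hpN (by exact_mod_cast h4)
    · have h5 : p ∣ rd r q := by exact_mod_cast h4
      have h6 : p ∣ Nat.gcd (rd q r) (rd r q) := Nat.dvd_gcd hpm h5
      rw [Nat.Coprime.gcd_eq_one (rd_coprime hq)] at h6
      exact hp.one_lt.ne' (Nat.dvd_one.1 h6)
  · exact hu h3

private lemma o6_card (q m g : ℕ) (hm : 1 ≤ m) (hqm : q = m * g) (S : Set ℕ)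
    (h1 : ∀ l ∈ S, l < q) (h2 : ∀ l ∈ S, ∀ l' ∈ S, l ≡ l' [MOD m]) : S.ncard ≤ g := by
  have h3 : S.ncard ≤ (range g : Set ℕ).ncard := by
    refine Set.ncard_le_ncard_of_injOn (fun l => l / m) ?_ ?_ (Finset.finite_toSet _)
    · intro l hl
      have := h1 l hl
      simp only [coe_range, Set.mem_Iio]
      rw [Nat.div_lt_iff_lt_mul hm]
      rw [hqm] at this
      linarith [mul_comm m g]
    · intro l hl l' hl' h
      have h4 : l % m = l' % m := h2 l hl l' hl'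
      have h5 : l / m = l' / m := h
      rw [← Nat.div_add_mod l m, ← Nat.div_add_mod l' m, h4, h5]
  rwa [Set.ncard_coe_finset, card_range] at h3

private lemma o6_half (γ : ℝ) (q r : ℕ) (hq : 1 ≤ q) (_hr : 1 ≤ r) (ρ σ : ℝ) (h0 : 0 ≤ ρ)
    (h0' : ρ < 1 / 2) (N₁ : ℕ) (P₁ : ℤ) (N₂ : ℕ) (P₂ : ℤ) (hN₁ : 1 ≤ N₁) (hN₂ : 1 ≤ N₂) :
    vl (AS γ q ρ N₁ P₁ ∅ ∩ AS γ r σ N₂ P₂ ∅ ∩ {x | HH γ q r N₁ P₁ N₂ P₂ x = 0}) ≤
      2 * (ρ / q) * Nat.gcd q r := by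
  classical
  have hq0 : (q : ℝ) ≠ 0 := by positivity
  have hsh : ∀ (x : ℝ) (l : ℕ), round ((q : ℝ) * (x + (l : ℝ) / q) - γ) =
      round ((q : ℝ) * x - γ) + l ∧
      nd ((q : ℝ) * (x + (l : ℝ) / q) - γ) = nd ((q : ℝ) * x - γ) := by
    intro x l
    have := shift_round γ q q l hq dvd_rfl x
    rw [Nat.div_self hq, Nat.cast_one, one_mul] at this
    exact this
  have key := averaging
    (AS γ q ρ N₁ P₁ ∅ ∩ AS γ r σ N₂ P₂ ∅ ∩ {x | HH γ q r N₁ P₁ N₂ P₂ x = 0})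
    (AS γ q ρ N₁ P₁ ∅)
    (((measurableSet_AS _ _ _ _ _ _).inter (measurableSet_AS _ _ _ _ _ _)).inter
      (measurableSet_HH _ _ _ _ _ _ _)) (measurableSet_AS _ _ _ _ _ _)
    (fun x => by
      simp only [Set.mem_inter_iff, Set.mem_ofPred_eq, AS_periodic _ _ _ _ _ ∅ (by simp),
        HH_periodic])
    q hq ((Nat.gcd q r : ℝ) / q) (by positivity)
    (fun x hx l _ hA => hx (by
      have h1 := hA.1.1
      unfold AS at h1 ⊢
      simp only [Set.mem_ofPred_eq] at h1 ⊢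
      rw [(hsh x l).2] at h1
      exact ⟨h1.1, by simp⟩))
    (fun x _ => by
      have h1 : ((Nat.gcd q r : ℝ) / q) * q = Nat.gcd q r := by field_simp
      rw [h1]
      have h2 := o6_card q (rd q r) (Nat.gcd q r) (rd_pos hq) (rd_mul_gcd q r).symm
        {l : ℕ | l ∈ range q ∧ x + (l : ℝ) / q ∈
          AS γ q ρ N₁ P₁ ∅ ∩ AS γ r σ N₂ P₂ ∅ ∩ {x | HH γ q r N₁ P₁ N₂ P₂ x = 0}}
        (fun l hl => mem_range.1 hl.1)
        (fun l hl l' hl' => by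
          have e1 : HH γ q r N₁ P₁ N₂ P₂ (x + (l : ℝ) / q) = 0 := hl.2.2
          have e2 : HH γ q r N₁ P₁ N₂ P₂ (x + (l' : ℝ) / q) = 0 := hl'.2.2
          unfold HH at e1 e2
          rw [(hsh x l).1] at e1
          rw [(hsh x l').1] at e2
          have hNN : ((N₁ : ℤ) * N₂) ≠ 0 := by
            have : 0 < N₁ * N₂ := Nat.mul_pos hN₁ hN₂
            exact_mod_cast this.ne'
          have e3 : (rd r q : ℤ) * ((l : ℤ) - l') =
              (rd q r : ℤ) * (round ((r : ℝ) * (x + (l : ℝ) / q) - γ) -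
                round ((r : ℝ) * (x + (l' : ℝ) / q) - γ)) := by
            apply mul_left_cancel₀ hNN
            linear_combination e1 - e2
          have e4 : (rd q r : ℤ) ∣ (rd r q : ℤ) * ((l : ℤ) - l') := ⟨_, e3⟩
          have e5 : IsCoprime (rd q r : ℤ) (rd r q : ℤ) :=
            Nat.isCoprime_iff_coprime.2 (rd_coprime hq)
          have e6 : (rd q r : ℤ) ∣ (l : ℤ) - l' := e5.dvd_of_dvd_mul_left e4
          have e7 : (l' : ℤ) ≡ l [ZMOD (rd q r : ℤ)] := Int.modEq_iff_dvd.2 e6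
          exact ((Int.natCast_modEq_iff).1 e7).symm)
      exact_mod_cast h2)
  rw [vl_empty_Q γ q ρ N₁ P₁ hq h0 h0'.le] at key
  refine key.trans (le_of_eq ?_)
  field_simp

/-- [IDE-O6] **The part `H = 0` without sieving.**

PROOF.  `b = round (q x - γ)`, `b' = round (r x - γ)`; `H = 0` means `N₂ m' (N₁ b + P₁) = N₁ m (N₂ b' + P₂)`,
which (as `N₁ N₂ ≥ 1`, `m, m'` coprime) fixes `m' b - m b' = h₀`; so `b` lies in one fixed residue class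
mod `m` and determines `b'`.  Average over the shifts `l/q`... more directly: for `x ∈ [0,1)` (up to
null sets) `b` runs through at most `q/m = g` values up to multiples of `q`; for given `(b, b')` the set
of `x` is contained in an interval of length `2 min(ρ/q, σ/r)`.  In detail: the set
`{x ∈ [0,1] : nd (q x - γ) ≤ ρ, b ≡ b₀ mod m}` is, up to a null set, a union of `g` intervals modulo 1, each
of length `2ρ/q`; symmetric for `r`: `g` intervals of length `2σ/r`.  So the measure is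
`≤ 2 g min(ρ/q, σ/r)`.
(A clean way: `averaging` with `A` the set of the statement, `G = q`: the shift by `l/q` changes `b` by
`l`, so for each `x` at most `g` of the `q` shifts satisfy `b + l ≡ b₀ mod m`, and `B = {nd (q x - γ) ≤ ρ}`
has measure `2ρ`: `vl ≤ (g/q) 2ρ`.  The same for `r`, `b' ≡ b₀' mod m'`.) -/
theorem zero_vol (γ : ℝ) (q r : ℕ) (hq : 1 ≤ q) (hr : 1 ≤ r) (ρ σ : ℝ) (h0 : 0 ≤ ρ)
    (h0' : ρ < 1 / 2) (h3 : 0 ≤ σ) (h3' : σ < 1 / 2)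
    (N₁ : ℕ) (P₁ : ℤ) (N₂ : ℕ) (P₂ : ℤ) (hN₁ : 1 ≤ N₁) (hN₂ : 1 ≤ N₂) :
    vl (AS γ q ρ N₁ P₁ ∅ ∩ AS γ r σ N₂ P₂ ∅ ∩ {x | HH γ q r N₁ P₁ N₂ P₂ x = 0}) ≤
      2 * min (ρ / q) (σ / r) * Nat.gcd q r := by
  have h1 := o6_half γ q r hq hr ρ σ h0 h0' N₁ P₁ N₂ P₂ hN₁ hN₂
  have h2 := o6_half γ r q hr hq σ ρ h3 h3' N₂ P₂ N₁ P₁ hN₂ hN₁
  have h4 : AS γ r σ N₂ P₂ ∅ ∩ AS γ q ρ N₁ P₁ ∅ ∩ {x | HH γ r q N₂ P₂ N₁ P₁ x = 0} =
      AS γ q ρ N₁ P₁ ∅ ∩ AS γ r σ N₂ P₂ ∅ ∩ {x | HH γ q r N₁ P₁ N₂ P₂ x = 0} := by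
    ext x
    simp only [Set.mem_inter_iff, Set.mem_ofPred_eq, HH_swap γ q r N₁ P₁ N₂ P₂ x, neg_eq_zero]
    tauto
  rw [h4, Nat.gcd_comm r q] at h2
  rcases min_choice (ρ / q) (σ / r) with h | h
  · rw [h]; exact h1
  · rw [h]; exact h2

end Pool.Agent.IDE
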