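import Pool.Agent.IDE.O1
import Pool.Agent.IDS.O2b

set_option autoImplicit false

namespace Pool.Agent.IDE

open Finset Pool.Agent.IDS MeasureTheory

theorem o8_half (y ρ : ℝ) (h : ¬ nd y ≤ ρ) : nd (y + 1 / 2) ≤ 1 / 2 - ρ := by
  rw [not_le] at h
  have h1 : |y - round y| ≤ 1 / 2 := abs_sub_round y
  have h2 : nd y = |y - round y| := rfl
  rw [h2] at h
  rcases le_total 0 (y - round y) with h3 | h3
  · rw [abs_of_nonneg h3] at h h1
    have h4 := nd_le_abs (y + 1 / 2) (round y + 1)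
    have h5 : |y + 1 / 2 - ((round y + 1 : ℤ) : ℝ)| = 1 / 2 - (y - round y) := by
      push_cast
      rw [abs_of_nonpos (by linarith)]
      ring
    rw [h5] at h4
    linarith
  · rw [abs_of_nonpos h3] at h h1
    have h4 := nd_le_abs (y + 1 / 2) (round y)
    have h5 : |y + 1 / 2 - ((round y : ℤ) : ℝ)| = 1 / 2 + (y - round y) := by
      rw [abs_of_nonneg (by linarith)]
      ring
    rw [h5] at h4
    linarith

/-- [IDE-O8] **Residues in an arc, two-sided.**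

PROOF.  As in `Pool.Agent.IDS.arc_count` (O2a): with `g = gcd q r`, `m' = rd r q` the count is
`g · #{j ∈ range m' : nd (x + j/m') ≤ ρ}`, and for `ρ < 1/2` the latter is the number of integers `J`
with `|x + J/m'| ≤ ρ` (the map `j ↦ J = j - n m'` is a bijection onto them), a closed interval of
length `2ρ m'`, so it is in `[2ρm' - 1, 2ρm' + 1]`; `g m' = r`. -/
theorem arc_count2 (q r : ℕ) (hq : 1 ≤ q) (hr : 1 ≤ r) (x ρ : ℝ) (h0 : 0 ≤ ρ) (h1 : ρ < 1 / 2) :
    |(((range r).filter (fun b : ℕ => nd (x + q * b / r) ≤ ρ)).card : ℝ) - 2 * ρ * r| ≤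
      r / (rd r q : ℝ) := by
  have hr0 : (0 : ℝ) < r := by exact_mod_cast hr
  have hm'0 : (0 : ℝ) < (rd r q : ℝ) := by exact_mod_cast rd_pos (b := q) (show 0 < r by omega)
  have hu := arc_count q r hq hr x ρ h0
  have hl := arc_count q r hq hr (x + 1 / 2) (1 / 2 - ρ) (by linarith)
  have hcard : (r : ℝ) ≤ (((range r).filter (fun b : ℕ => nd (x + q * b / r) ≤ ρ)).card : ℝ) +
      (((range r).filter (fun b : ℕ => nd (x + 1 / 2 + q * b / r) ≤ 1 / 2 - ρ)).card : ℝ) := by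
    have h2 := Finset.card_filter_add_card_filter_not (s := range r)
      (fun b : ℕ => nd (x + q * b / r) ≤ ρ)
    rw [Finset.card_range] at h2
    have h3 : ((range r).filter (fun b : ℕ => ¬ nd (x + q * b / r) ≤ ρ)).card ≤
        ((range r).filter (fun b : ℕ => nd (x + 1 / 2 + q * b / r) ≤ 1 / 2 - ρ)).card := by
      apply Finset.card_le_card
      intro b hb
      rw [Finset.mem_filter] at hb ⊢
      refine ⟨hb.1, ?_⟩
      have h4 := o8_half _ _ hb.2
      have h5 : x + 1 / 2 + (q : ℝ) * b / r = x + q * b / r + 1 / 2 := by ring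
      rw [h5]
      exact h4
    have h6 : r ≤ ((range r).filter (fun b : ℕ => nd (x + q * b / r) ≤ ρ)).card +
        ((range r).filter (fun b : ℕ => nd (x + 1 / 2 + q * b / r) ≤ 1 / 2 - ρ)).card := by
      omega
    exact_mod_cast h6
  have e1 : (r : ℝ) * (2 * ρ + 1 / (rd r q : ℝ)) = 2 * ρ * r + r / (rd r q : ℝ) := by ring
  have e2 : (r : ℝ) * (2 * (1 / 2 - ρ) + 1 / (rd r q : ℝ)) = r - 2 * ρ * r + r / (rd r q : ℝ) := by
    ring
  rw [e1] at hu
  rw [e2] at hl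
  rw [abs_le]
  constructor <;> linarith

theorem o8_vol (γ₁ γ₂ : ℝ) (q r : ℕ) (ρ σ : ℝ) :
    vl ({x | nd (q * x - γ₁) ≤ ρ} ∩ {x | nd (r * x - γ₂) ≤ σ}) =
      ∫ x in (0 : ℝ)..1, o2b_f γ₁ q ρ x * o2b_f γ₂ r σ x := by
  unfold vl
  rw [intervalIntegral.integral_of_le zero_le_one, ← integral_Icc_eq_integral_Ioc]
  have hA : MeasurableSet {x : ℝ | nd (q * x - γ₁) ≤ ρ ∧ nd (r * x - γ₂) ≤ σ} := by
    refine (measurableSet_le (o2b_cont.measurable.comp
      ((measurable_const.mul measurable_id).sub_const γ₁)) measurable_const).inter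
      (measurableSet_le (o2b_cont.measurable.comp
      ((measurable_const.mul measurable_id).sub_const γ₂)) measurable_const)
  have e1 : (fun x => o2b_f γ₁ q ρ x * o2b_f γ₂ r σ x) =
      Set.indicator {x : ℝ | nd (q * x - γ₁) ≤ ρ ∧ nd (r * x - γ₂) ≤ σ} (fun _ => (1 : ℝ)) := by
    funext x
    unfold o2b_f
    by_cases h1 : nd (q * x - γ₁) ≤ ρ <;> by_cases h2 : nd (r * x - γ₂) ≤ σ
    · rw [if_pos h1, if_pos h2, Set.indicator_of_mem (show x ∈ {x : ℝ | nd (q * x - γ₁) ≤ ρ ∧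
        nd (r * x - γ₂) ≤ σ} from ⟨h1, h2⟩)]
      norm_num
    · rw [if_neg h2, Set.indicator_of_notMem (show x ∉ {x : ℝ | nd (q * x - γ₁) ≤ ρ ∧
        nd (r * x - γ₂) ≤ σ} from fun h => h2 h.2)]
      norm_num
    · rw [if_neg h1, Set.indicator_of_notMem (show x ∉ {x : ℝ | nd (q * x - γ₁) ≤ ρ ∧
        nd (r * x - γ₂) ≤ σ} from fun h => h1 h.1)]
      norm_num
    · rw [if_neg h1, Set.indicator_of_notMem (show x ∉ {x : ℝ | nd (q * x - γ₁) ≤ ρ ∧
        nd (r * x - γ₂) ≤ σ} from fun h => h1 h.1)]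
      norm_num
  rw [e1, integral_indicator hA]
  simp only [integral_const, smul_eq_mul, mul_one]
  rw [Measure.real, Measure.restrict_apply MeasurableSet.univ, Set.univ_inter]
  rw [Measure.restrict_apply hA]
  rfl

/-- [IDE-O8] **Two-sided overlap with arbitrary shifts.**

PROOF.  As in `Pool.Agent.IDS.overlap_one` (O2b): `|A ∩ B| = ∫_0^1 1_B(x) (1/r) ∑_{b<r} 1_A(x + b/r) dx`, the
inner average is `2ρ + O(1/m')`, `m' = rd r q`, by `arc_count2`, and `|B| = 2σ`. -/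
theorem overlap2_one (γ₁ γ₂ : ℝ) (q r : ℕ) (ρ σ : ℝ) (hq : 1 ≤ q) (hr : 1 ≤ r)
    (h0 : 0 ≤ ρ) (h1 : ρ < 1 / 2) (h2 : 0 ≤ σ) (h3 : σ < 1 / 2) :
    |vl ({x | nd (q * x - γ₁) ≤ ρ} ∩ {x | nd (r * x - γ₂) ≤ σ}) - 4 * ρ * σ| ≤
      2 * σ / (rd r q : ℝ) := by
  have hr0 : (0 : ℝ) < r := by exact_mod_cast hr
  have hm'0 : (0 : ℝ) < (rd r q : ℝ) := by exact_mod_cast rd_pos (b := q) (show 0 < r by omega)
  rw [o8_vol]
  set f := o2b_f γ₁ q ρ with hf
  set g := o2b_f γ₂ r σ with hg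
  have hfm : Measurable f := o2b_f_meas γ₁ q ρ
  have hgm : Measurable g := o2b_f_meas γ₂ r σ
  have hper : Function.Periodic (fun x => f x * g x) 1 := by
    intro x
    simp only
    rw [hf, hg, o2b_f_per γ₁ q ρ x, o2b_f_per γ₂ r σ x]
  -- shift by `b / r`
  have hshift : ∀ b : ℕ, ∫ x in (0 : ℝ)..1, f x * g x = ∫ x in (0 : ℝ)..1, f (x + b / r) * g x := by
    intro b
    have e1 : ∀ x, f (x + b / r) * g x = f (x + b / r) * g (x + b / r) := by
      intro x
      congr 1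
      rw [hg]
      unfold o2b_f
      have : (r : ℝ) * (x + b / r) - γ₂ = (r * x - γ₂) + b := by field_simp; ring
      rw [this, o2b_nd_add_nat]
    simp_rw [e1]
    have e2 := intervalIntegral.integral_comp_add_right (a := 0) (b := 1) (fun x => f x * g x)
      ((b : ℝ) / r)
    rw [e2]
    have e3 := hper.intervalIntegral_add_eq 0 (0 + (b : ℝ) / r)
    rw [zero_add] at e3
    rw [e3]
    congr 1
    ring
  have hmS : Measurable fun x => ∑ b ∈ range r, f (x + (b : ℝ) / r) :=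
    Finset.measurable_sum (range r) fun (b : ℕ) _ =>
      (hfm.comp (measurable_id.add_const ((b : ℝ) / r)))
  have hsum : (r : ℝ) * ∫ x in (0 : ℝ)..1, f x * g x =
      ∫ x in (0 : ℝ)..1, (∑ b ∈ range r, f (x + b / r)) * g x := by
    have e1 : ∀ x, (∑ b ∈ range r, f (x + (b : ℝ) / r)) * g x =
        ∑ b ∈ range r, f (x + (b : ℝ) / r) * g x := fun x => Finset.sum_mul _ _ _
    simp_rw [e1]
    rw [intervalIntegral.integral_finsetSum]
    · rw [← Finset.sum_congr rfl (fun b _ => hshift b)]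
      simp
    · intro b _
      have hm : Measurable fun x => f (x + (b : ℝ) / r) * g x :=
        (hfm.comp (measurable_id.add_const ((b : ℝ) / r))).mul hgm
      refine o2b_int _ hm 1 ?_ 0 1
      intro x
      rw [abs_mul, abs_of_nonneg (o2b_f_nonneg γ₁ q ρ _), abs_of_nonneg (o2b_f_nonneg γ₂ r σ _)]
      exact mul_le_one₀ (o2b_f_le γ₁ q ρ _) (o2b_f_nonneg γ₂ r σ _) (o2b_f_le γ₂ r σ _)
  have hcount : ∀ x, |∑ b ∈ range r, f (x + (b : ℝ) / r) - 2 * ρ * r| ≤ r / (rd r q : ℝ) := by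
    intro x
    have h4 := arc_count2 q r hq hr (q * x - γ₁) ρ h0 h1
    refine le_trans (le_of_eq ?_) h4
    congr 2
    rw [Finset.card_filter]
    push_cast
    refine Finset.sum_congr rfl fun b _ => ?_
    rw [hf]
    unfold o2b_f
    have : (q : ℝ) * (x + b / r) - γ₁ = q * x - γ₁ + q * b / r := by ring
    rw [this]
  have hgint : ∫ x in (0 : ℝ)..1, g x = 2 * σ := by
    have h5 := volume_EE γ₂ r σ hr h2 h3.le
    have h6 := o2b_vol γ₂ r σ r σ
    rw [Set.inter_self, h5] at h6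
    rw [h6]
    refine intervalIntegral.integral_congr fun x _ => ?_
    rw [hg]
    unfold o2b_f
    split_ifs <;> norm_num
  have hc0 : 0 ≤ (r : ℝ) / (rd r q : ℝ) := by positivity
  have hFbd : ∀ x, |(∑ b ∈ range r, f (x + (b : ℝ) / r) - 2 * ρ * r) * g x| ≤
      (r : ℝ) / (rd r q : ℝ) * g x := by
    intro x
    rw [abs_mul, abs_of_nonneg (o2b_f_nonneg γ₂ r σ x)]
    exact mul_le_mul_of_nonneg_right (hcount x) (o2b_f_nonneg γ₂ r σ x)
  have hFm : Measurable fun x => (∑ b ∈ range r, f (x + (b : ℝ) / r) - 2 * ρ * r) * g x :=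
    (hmS.sub_const _).mul hgm
  have hFi : IntervalIntegrable
      (fun x => (∑ b ∈ range r, f (x + (b : ℝ) / r) - 2 * ρ * r) * g x) volume 0 1 := by
    refine o2b_int _ hFm ((r : ℝ) / (rd r q : ℝ)) (fun x => (hFbd x).trans ?_) 0 1
    calc _ ≤ (r : ℝ) / (rd r q : ℝ) * 1 := mul_le_mul_of_nonneg_left (o2b_f_le γ₂ r σ _) hc0
      _ = _ := mul_one _
  have hGi : IntervalIntegrable (fun x => (r : ℝ) / (rd r q : ℝ) * g x) volume 0 1 := by
    have hm : Measurable fun x => (r : ℝ) / (rd r q : ℝ) * g x := measurable_const.mul hgm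
    refine o2b_int _ hm ((r : ℝ) / (rd r q : ℝ)) (fun x => ?_) 0 1
    rw [abs_mul, abs_of_nonneg (o2b_f_nonneg γ₂ r σ _), abs_of_nonneg hc0]
    calc _ ≤ (r : ℝ) / (rd r q : ℝ) * 1 := mul_le_mul_of_nonneg_left (o2b_f_le γ₂ r σ _) hc0
      _ = _ := mul_one _
  have hgi : IntervalIntegrable g volume 0 1 := by
    refine o2b_int _ hgm 1 (fun x => ?_) 0 1
    rw [abs_of_nonneg (o2b_f_nonneg γ₂ r σ _)]
    exact o2b_f_le γ₂ r σ _
  have hSgi : IntervalIntegrable (fun x => (∑ b ∈ range r, f (x + (b : ℝ) / r)) * g x)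
      volume 0 1 := by
    have : (fun x => (∑ b ∈ range r, f (x + (b : ℝ) / r)) * g x) = fun x =>
        (∑ b ∈ range r, f (x + (b : ℝ) / r) - 2 * ρ * r) * g x + (2 * ρ * r) * g x := by
      funext x; ring
    rw [this]
    exact hFi.add (hgi.const_mul _)
  have hdiff : ∫ x in (0 : ℝ)..1, (∑ b ∈ range r, f (x + (b : ℝ) / r) - 2 * ρ * r) * g x =
      (r : ℝ) * (∫ x in (0 : ℝ)..1, f x * g x) - 2 * ρ * r * (2 * σ) := by
    rw [hsum, ← hgint, ← intervalIntegral.integral_const_mul,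
      ← intervalIntegral.integral_sub hSgi (hgi.const_mul _)]
    refine intervalIntegral.integral_congr fun x _ => ?_
    ring
  have habs := intervalIntegral.abs_integral_le_integral_abs
    (f := fun x => (∑ b ∈ range r, f (x + (b : ℝ) / r) - 2 * ρ * r) * g x) (μ := volume)
    (zero_le_one : (0 : ℝ) ≤ 1)
  have hmono := intervalIntegral.integral_mono_on (zero_le_one : (0 : ℝ) ≤ 1) hFi.abs hGi
    (fun x _ => hFbd x)
  rw [intervalIntegral.integral_const_mul, hgint] at hmono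
  rw [hdiff] at habs
  have hkey := habs.trans hmono
  have e3 : (r : ℝ) * (∫ x in (0 : ℝ)..1, f x * g x) - 2 * ρ * r * (2 * σ) =
      r * ((∫ x in (0 : ℝ)..1, f x * g x) - 4 * ρ * σ) := by ring
  rw [e3, abs_mul, abs_of_pos hr0] at hkey
  have e4 : (r : ℝ) / (rd r q : ℝ) * (2 * σ) = r * (2 * σ / (rd r q : ℝ)) := by ring
  rw [e4] at hkey
  exact le_of_mul_le_mul_left hkey hr0

/-- [IDE-O8] **Two-sided overlap, with `D`.**

PROOF.  `overlap2_one` in both ways: the error is `≤ 2 min (σ/m', ρ/m) = 2ρσ min (1/(m'ρ), 1/(mσ))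
= 2ρσ/max (m' ρ, m σ)`, and `lcm q r max (ρ/q, σ/r) = max (m' ρ, m σ)` (`lcm_eq`), which is `≥ D`. -/
theorem overlap2 (γ₁ γ₂ : ℝ) (q r : ℕ) (ρ σ D : ℝ) (hq : 1 ≤ q) (hr : 1 ≤ r)
    (h0 : 0 < ρ) (h1 : ρ < 1 / 2) (h2 : 0 < σ) (h3 : σ < 1 / 2) (hD : 0 < D)
    (hD2 : D ≤ (Nat.lcm q r : ℝ) * max (ρ / q) (σ / r)) :
    |vl ({x | nd (q * x - γ₁) ≤ ρ} ∩ {x | nd (r * x - γ₂) ≤ σ}) - 4 * ρ * σ| ≤
      2 * ρ * σ / D := by
  have hq0 : (0 : ℝ) < q := by exact_mod_cast hq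
  have hr0 : (0 : ℝ) < r := by exact_mod_cast hr
  have hm'0 : (0 : ℝ) < (rd r q : ℝ) := by exact_mod_cast rd_pos (b := q) (show 0 < r by omega)
  have hm0 : (0 : ℝ) < (rd q r : ℝ) := by exact_mod_cast rd_pos (b := r) (show 0 < q by omega)
  have e1 : (Nat.lcm q r : ℝ) * (ρ / q) = rd r q * ρ := by
    rw [lcm_eq q r]
    push_cast
    field_simp
  have e2 : (Nat.lcm q r : ℝ) * (σ / r) = rd q r * σ := by
    rw [Nat.lcm_comm, lcm_eq r q]
    push_cast
    field_simp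
  rcases le_total (ρ / q) (σ / r) with h | h
  · rw [max_eq_right h, e2] at hD2
    have h4 := overlap2_one γ₂ γ₁ r q σ ρ hr hq h2.le h3 h0.le h1
    rw [Set.inter_comm, show 4 * σ * ρ = 4 * ρ * σ by ring] at h4
    refine h4.trans ?_
    rw [div_le_div_iff₀ hm0 hD]
    nlinarith
  · rw [max_eq_left h, e1] at hD2
    refine (overlap2_one γ₁ γ₂ q r ρ σ hq hr h0.le h1 h2.le h3).trans ?_
    rw [div_le_div_iff₀ hm'0 hD]
    nlinarith

end Pool.Agent.IDE
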