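import Pool.Agent.IDE.O8

set_option autoImplicit false

namespace Pool.Agent.IDE

open Finset Pool.Agent.IDS MeasureTheory

theorem o9_round (y : ℝ) (k : ℤ) (h : |y - k| < 1 / 2) : round y = k := by
  have h1 : |y - round y| ≤ 1 / 2 := abs_sub_round y
  have h2 : |((round y - k : ℤ) : ℝ)| < 1 := by
    push_cast
    have h3 : (round y : ℝ) - k = (y - k) - (y - round y) := by ring
    rw [h3]
    calc _ ≤ |y - k| + |y - round y| := abs_sub _ _
      _ < 1 := by linarith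
  have h3 : |round y - k| < 1 := by exact_mod_cast h2
  have h4 := Int.abs_lt_one_iff.1 h3
  omega

/-- [IDE-O9] **A divisibility condition is a condition of the same type.**

PROOF.  Choose `c ∈ ℤ` with `d ∣ N c + P` (`N` invertible mod `d`); `d ∣ N b + P ↔ d ∣ b - c`.
`γ' = (γ + c)/d`: `(q/d) x - γ' = (q x - γ - c)/d`.  If `nd (q x - γ) ≤ ρ` and
`b = round (q x - γ) = c + n d`, then `|(q x - γ - c)/d - n| = |q x - γ - b|/d ≤ ρ/d`.  Conversely, if
`|(q x - γ - c)/d - n| ≤ ρ/d` then `|q x - γ - (c + n d)| ≤ ρ < 1/2`, so `round (q x - γ) = c + n d`. -/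
theorem div_form (γ : ℝ) (q : ℕ) (ρ : ℝ) (N : ℕ) (P : ℤ) (d : ℕ) (hd : 1 ≤ d) (hdq : d ∣ q)
    (hdN : Nat.Coprime d N) (h0 : 0 ≤ ρ) (h1 : ρ < 1 / 2) :
    ∃ γ' : ℝ, {x : ℝ | nd (q * x - γ) ≤ ρ ∧ ((d : ℤ) ∣ (N : ℤ) * round (q * x - γ) + P)} =
      {x : ℝ | nd (((q / d : ℕ) : ℝ) * x - γ') ≤ ρ / d} := by
  have hd0 : (0 : ℝ) < d := by exact_mod_cast hd
  have hcop : IsCoprime (d : ℤ) (N : ℤ) := Nat.isCoprime_iff_coprime.2 hdN
  obtain ⟨u, v, huv⟩ := hcop
  set c : ℤ := -(v * P) with hc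
  have hdc : (d : ℤ) ∣ N * c + P := ⟨P * u, by rw [hc]; linear_combination (-P) * huv⟩
  have hiff : ∀ b : ℤ, (d : ℤ) ∣ N * b + P ↔ (d : ℤ) ∣ b - c := by
    intro b
    constructor
    · intro h
      have h2 : (d : ℤ) ∣ N * (b - c) := by
        have := dvd_sub h hdc
        have e : (N : ℤ) * b + P - (N * c + P) = N * (b - c) := by ring
        rwa [e] at this
      exact (Nat.isCoprime_iff_coprime.2 hdN).dvd_of_dvd_mul_left h2
    · intro h
      have h2 := dvd_add (Dvd.dvd.mul_left h (N : ℤ)) hdc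
      have e : (N : ℤ) * (b - c) + (N * c + P) = N * b + P := by ring
      rwa [e] at h2
  have hqd : ((q / d : ℕ) : ℝ) = q / d := Nat.cast_div hdq hd0.ne'
  refine ⟨(γ + c) / d, ?_⟩
  ext x
  rw [Set.mem_ofPred_eq, Set.mem_ofPred_eq, hqd]
  have hy : (q : ℝ) / d * x - (γ + c) / d = (q * x - γ - c) / d := by field_simp; ring
  rw [hy]
  set y := (q : ℝ) * x - γ with hydef
  constructor
  · rintro ⟨h2, h3⟩
    obtain ⟨n, hn⟩ := (hiff _).1 h3
    have h4 : |y - round y| ≤ ρ := h2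
    have h5 : (y - c) / d - n = (y - round y) / d := by
      have h6 : (round y : ℝ) - c = d * n := by exact_mod_cast hn
      field_simp
      linarith
    refine (nd_le_abs _ n).trans ?_
    rw [h5, abs_div, abs_of_pos hd0]
    exact div_le_div_of_nonneg_right h4 hd0.le
  · intro h2
    have h3 : |(y - c) / d - round ((y - c) / d)| ≤ ρ / d := h2
    set n := round ((y - c) / d) with hn
    have h4 : |y - ((c + n * d : ℤ) : ℝ)| ≤ ρ := by
      have h5 : y - ((c + n * d : ℤ) : ℝ) = ((y - c) / d - n) * d := by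
        push_cast
        field_simp
        ring
      rw [h5, abs_mul, abs_of_pos hd0]
      rwa [le_div_iff₀ hd0] at h3
    have h5 := o9_round y _ (h4.trans_lt h1)
    constructor
    · show |y - round y| ≤ ρ
      rw [h5]
      exact h4
    · rw [hiff, h5]
      exact ⟨n, by ring⟩

/-- [IDE-O9] **Inclusion-exclusion for finitely many primes.**

PROOF.  `1[∀ p ∈ Q, p ∤ u] = ∏_{p∈Q} (1 - 1[p ∣ u]) = ∑_{T ⊆ Q} (-1)^{#T} 1[∏ T ∣ u]`
(`Finset.prod_one_sub...`, `Finset.prod_add`; distinct primes). -/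
theorem incl_excl (γ : ℝ) (q : ℕ) (ρ : ℝ) (N : ℕ) (P : ℤ) (Q : Finset ℕ)
    (hQ : ∀ p ∈ Q, p.Prime) (x : ℝ) :
    (AS γ q ρ N P Q).indicator (fun _ => (1 : ℝ)) x =
      ∑ T ∈ Q.powerset, (-1 : ℝ) ^ T.card *
        ({x : ℝ | nd (q * x - γ) ≤ ρ ∧
          (((∏ p ∈ T, p : ℕ) : ℤ) ∣ (N : ℤ) * round (q * x - γ) + P)}).indicator
            (fun _ => (1 : ℝ)) x := by
  classical
  set u : ℤ := (N : ℤ) * round (q * x - γ) + P with hu
  by_cases h : nd (q * x - γ) ≤ ρ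
  · have e1 : (AS γ q ρ N P Q).indicator (fun _ => (1 : ℝ)) x =
        ∏ p ∈ Q, (1 + (-(if (p : ℤ) ∣ u then (1 : ℝ) else 0))) := by
      by_cases h2 : ∀ p ∈ Q, ¬ ((p : ℤ) ∣ u)
      · rw [Set.indicator_of_mem (show x ∈ AS γ q ρ N P Q from ⟨h, h2⟩)]
        symm
        refine Finset.prod_eq_one fun p hp => ?_
        rw [if_neg (h2 p hp)]
        norm_num
      · rw [Set.indicator_of_notMem (show x ∉ AS γ q ρ N P Q from fun h' => h2 h'.2)]
        push Not at h2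
        obtain ⟨p, hp, hpu⟩ := h2
        symm
        refine Finset.prod_eq_zero hp ?_
        rw [if_pos hpu]
        norm_num
    rw [e1, Finset.prod_one_add]
    refine Finset.sum_congr rfl fun T hT => ?_
    rw [Finset.mem_powerset] at hT
    have e2 : ∏ p ∈ T, (-(if (p : ℤ) ∣ u then (1 : ℝ) else 0)) =
        (-1 : ℝ) ^ T.card * ∏ p ∈ T, (if (p : ℤ) ∣ u then (1 : ℝ) else 0) := by
      rw [← Finset.prod_const, ← Finset.prod_mul_distrib]
      exact Finset.prod_congr rfl fun p _ => by ring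
    rw [e2]
    congr 1
    have hdvd : (((∏ p ∈ T, p : ℕ) : ℤ) ∣ u) ↔ ∀ p ∈ T, (p : ℤ) ∣ u := by
      constructor
      · intro h2 p hp
        exact (Int.natCast_dvd_natCast.2 (Finset.dvd_prod_of_mem (fun p => p) hp)).trans h2
      · intro h2
        rw [Int.natCast_dvd]
        exact Finset.prod_primes_dvd _ (fun p hp => (hQ p (hT hp)).prime)
          (fun p hp => Int.natCast_dvd.1 (h2 p hp))
    by_cases h2 : ∀ p ∈ T, (p : ℤ) ∣ u
    · rw [Set.indicator_of_mem (show x ∈ {x : ℝ | nd (q * x - γ) ≤ ρ ∧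
          (((∏ p ∈ T, p : ℕ) : ℤ) ∣ (N : ℤ) * round (q * x - γ) + P)} from ⟨h, hdvd.2 h2⟩)]
      exact Finset.prod_eq_one fun p hp => if_pos (h2 p hp)
    · rw [Set.indicator_of_notMem (show x ∉ {x : ℝ | nd (q * x - γ) ≤ ρ ∧
          (((∏ p ∈ T, p : ℕ) : ℤ) ∣ (N : ℤ) * round (q * x - γ) + P)} from
          fun h' => h2 (hdvd.1 h'.2))]
      push Not at h2
      obtain ⟨p, hp, hpu⟩ := h2
      exact Finset.prod_eq_zero hp (if_neg hpu)
  · rw [Set.indicator_of_notMem (show x ∉ AS γ q ρ N P Q from fun h' => h h'.1)]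
    symm
    refine Finset.sum_eq_zero fun T _ => ?_
    rw [Set.indicator_of_notMem (show x ∉ {x : ℝ | nd (q * x - γ) ≤ ρ ∧
          (((∏ p ∈ T, p : ℕ) : ℤ) ∣ (N : ℤ) * round (q * x - γ) + P)} from
          fun h' => h h'.1), mul_zero]

end Pool.Agent.IDE
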