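import Pool.Agent.IDE.N1
import Pool.Agent.IDS.B2

set_option autoImplicit false

namespace Pool.Agent.IDE

open Finset Pool.Agent.IDS

/-- [IDE-PB] -/
theorem pb_nonneg (b o : ℕ) : 0 ≤ pb b o := by
  unfold pb; positivity

/-- [IDE-PB] PROOF. `sum_inv_tot` (IDS.B2) times `φ(b)/b`. -/
theorem pb_sum (b : ℕ) (hb : 0 < b) : ∑ o ∈ Sq b, pb b o = 1 := by
  have h1 : ∀ o ∈ Sq b, pb b o = (Nat.totient b : ℝ) / b * (1 / (Nat.totient o : ℝ)) := by
    intro o _
    unfold pb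
    rw [mul_one_div]
  rw [Finset.sum_congr rfl h1, ← Finset.mul_sum]
  unfold Sq
  rw [sum_inv_tot b hb]
  have h2 : (0 : ℝ) < (Nat.totient b : ℝ) := by exact_mod_cast Nat.totient_pos.mpr hb
  have h3 : (0 : ℝ) < (b : ℝ) := by exact_mod_cast hb
  field_simp

theorem pb_aux_mem {b o : ℕ} (ho : o ∈ Sq b) : o ∣ b ∧ 0 < o ∧ Squarefree o := by
  unfold Sq at ho
  rw [Finset.mem_filter, Nat.mem_divisors] at ho
  exact ⟨ho.1.1, Nat.pos_of_ne_zero (fun h => by
    rw [h] at ho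
    exact ho.1.2 (Nat.eq_zero_of_zero_dvd ho.1.1)), ho.2⟩

/-- [IDE-PB] PROOF. `φ(b)/b ≤ φ(o)/o` for `o ∣ b`, `b > 0`
(`Nat.totient_eq_mul_prod_factors`-type formula: `φ(b)/b = ∏_{p ∣ b} (1 - 1/p)`). -/
theorem pb_le (b o : ℕ) (hb : 0 < b) (ho : o ∈ Sq b) : pb b o ≤ 1 / o := by
  obtain ⟨⟨k, hk⟩, ho0, -⟩ := pb_aux_mem ho
  have h1 : Nat.totient b ≤ k * Nat.totient o := by
    rw [hk, mul_comm]
    exact b2_tot_mul k o
  have h2 : (Nat.totient b : ℝ) ≤ (k : ℝ) * Nat.totient o := by exact_mod_cast h1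
  have h3 : (0 : ℝ) < (b : ℝ) := by exact_mod_cast hb
  have h4 : (0 : ℝ) < (o : ℝ) := by exact_mod_cast ho0
  have h5 : (0 : ℝ) < (Nat.totient o : ℝ) := by exact_mod_cast Nat.totient_pos.mpr ho0
  have h6 : (b : ℝ) = (o : ℝ) * k := by rw [hk]; push_cast; ring
  unfold pb
  rw [div_div, div_le_div_iff₀ (by positivity) h4, one_mul]
  calc (Nat.totient b : ℝ) * o ≤ ((k : ℝ) * Nat.totient o) * o :=
        mul_le_mul_of_nonneg_right h2 h4.le
    _ = (b : ℝ) * Nat.totient o := by rw [h6]; ring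

/-- [IDE-PB] PROOF. `φ(p o) = (p-1) φ(o)` and `1/(p-1) ≤ 2/p`. -/
theorem pb_mul_prime (b o p : ℕ) (hp : p.Prime) (h : ¬ p ∣ o) (hb : 0 < b)
    (ho : p * o ∈ Sq b) : pb b (p * o) ≤ pb b o * (2 / p) := by
  obtain ⟨-, hpo, -⟩ := pb_aux_mem ho
  have ho0 : 0 < o := Nat.pos_of_mul_pos_left hpo
  have hcop : Nat.Coprime p o := (Nat.Prime.coprime_iff_not_dvd hp).2 h
  have h1 : (Nat.totient (p * o) : ℝ) = ((p : ℝ) - 1) * Nat.totient o := by
    rw [Nat.totient_mul hcop, Nat.totient_prime hp, Nat.cast_mul, Nat.cast_sub hp.one_lt.le,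
      Nat.cast_one]
  have hp2 : (2 : ℝ) ≤ p := by exact_mod_cast hp.two_le
  have h3 : (0 : ℝ) < (b : ℝ) := by exact_mod_cast hb
  have h5 : (0 : ℝ) < (Nat.totient o : ℝ) := by exact_mod_cast Nat.totient_pos.mpr ho0
  have h6 : (0 : ℝ) ≤ (Nat.totient b : ℝ) := Nat.cast_nonneg _
  unfold pb
  rw [h1]
  have h7 : (Nat.totient b : ℝ) / b / (((p : ℝ) - 1) * Nat.totient o) =
      (Nat.totient b : ℝ) / b / Nat.totient o * (1 / ((p : ℝ) - 1)) := by
    have : (p : ℝ) - 1 ≠ 0 := by linarith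
    field_simp
  rw [h7]
  apply mul_le_mul_of_nonneg_left _ (by positivity)
  rw [div_le_div_iff₀ (by linarith) (by linarith)]
  linarith

theorem pb_log_eq {o : ℕ} (h0 : 0 < o) (hs : Squarefree o) :
    Real.log o = ∑ p ∈ o.primeFactors, Real.log p := by
  conv_lhs => rw [← Nat.prod_primeFactors_of_squarefree hs]
  rw [Nat.cast_prod, Real.log_prod]
  intro p hp
  have := (Nat.prime_of_mem_primeFactors hp).pos
  positivity

/-- [IDE-PB] **Logarithmic trick.**

PROOF.  For `o ∈ O`: `B log 2 ≤ log o = ∑_{p ∣ o} log p` (`o` squarefree).  So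
`B log 2 ∑_{o∈O} pb b o ≤ ∑_{o ∈ O} ∑_{p ∣ o} log p · pb b o`; write `o = p o'` (`o' = o/p ∈ Sq b`,
`p ∤ o'`) and use `pb_mul_prime`; exchange the sums. -/
theorem log_trick (b B : ℕ) (hb : 0 < b) (hB : 1 ≤ B) (O : Finset ℕ) (hO : O ⊆ Sq b)
    (h : ∀ o ∈ O, 2 ^ B ≤ o) :
    ∑ o ∈ O, pb b o ≤ 1 / (B * Real.log 2) *
      ∑ o' ∈ Sq b, pb b o' *
        ∑ p ∈ b.primeFactors.filter (fun p => p * o' ∈ O), 2 * (Real.log p / p) := by
  classical
  have hlog2 : 0 < Real.log 2 := Real.log_pos (by norm_num)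
  have hBr : (1 : ℝ) ≤ B := by exact_mod_cast hB
  have hBl : 0 < (B : ℝ) * Real.log 2 := by positivity
  rw [one_div_mul_eq_div, le_div_iff₀ hBl, Finset.sum_mul]
  -- pairs
  set f : ℕ × ℕ → ℝ := fun x => pb b x.1 * Real.log x.2 with hf
  set g : ℕ × ℕ → ℝ := fun x => pb b x.1 * (2 * (Real.log x.2 / x.2)) with hg
  set e : ℕ × ℕ → ℕ × ℕ := fun x => (x.1 / x.2, x.2) with he
  set S1 : Finset (ℕ × ℕ) := (O ×ˢ b.primeFactors).filter (fun x => x.2 ∣ x.1) with hS1
  set S2 : Finset (ℕ × ℕ) := (Sq b ×ˢ b.primeFactors).filter (fun x => x.2 * x.1 ∈ O) with hS2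
  have hg0 : ∀ x ∈ S2, 0 ≤ g x := by
    rintro ⟨o, p⟩ hx
    simp only [hS2, Finset.mem_filter, Finset.mem_product] at hx
    have hp := (Nat.prime_of_mem_primeFactors hx.1.2).one_lt
    have h1 : (1 : ℝ) ≤ (p : ℝ) := by exact_mod_cast hp.le
    have h2 := Real.log_nonneg h1
    have h3 := pb_nonneg b o
    simp only [hg]
    positivity
  have hmem : ∀ x ∈ S1, x.2.Prime ∧ x.2 * (x.1 / x.2) = x.1 ∧ ¬ x.2 ∣ x.1 / x.2 ∧
      e x ∈ S2 := by
    rintro ⟨o, p⟩ hx
    simp only [hS1, Finset.mem_filter, Finset.mem_product] at hx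
    obtain ⟨⟨hoO, hpb⟩, hpo⟩ := hx
    have hp := Nat.prime_of_mem_primeFactors hpb
    obtain ⟨hob, ho0, hosq⟩ := pb_aux_mem (hO hoO)
    have hmul : p * (o / p) = o := Nat.mul_div_cancel' hpo
    have hnd : ¬ p ∣ o / p := by
      intro hd
      have h1 : p * p ∣ o := by
        rw [← hmul]
        exact Nat.mul_dvd_mul_left p hd
      have h2 := hosq p h1
      exact hp.one_lt.ne' (Nat.isUnit_iff.1 h2)
    refine ⟨hp, hmul, hnd, ?_⟩
    simp only [he, hS2, Finset.mem_filter, Finset.mem_product]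
    refine ⟨⟨?_, hpb⟩, ?_⟩
    · unfold Sq
      rw [Finset.mem_filter, Nat.mem_divisors]
      have hdo : o / p ∣ o := Nat.div_dvd_of_dvd hpo
      exact ⟨⟨hdo.trans hob, hb.ne'⟩, hosq.squarefree_of_dvd hdo⟩
    · rw [hmul]; exact hoO
  have hfg : ∀ x ∈ S1, f x ≤ g (e x) := by
    rintro ⟨o, p⟩ hx
    obtain ⟨hp, hmul, hnd, -⟩ := hmem _ hx
    simp only [hS1, Finset.mem_filter, Finset.mem_product] at hx
    simp only at hp hmul hnd
    have h1 := pb_mul_prime b (o / p) p hp hnd hb (by rw [hmul]; exact hO hx.1.1)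
    rw [hmul] at h1
    have hp1 : (1 : ℝ) ≤ (p : ℝ) := by exact_mod_cast hp.one_lt.le
    have h2 := Real.log_nonneg hp1
    simp only [hf, hg, he]
    calc pb b o * Real.log p ≤ pb b (o / p) * (2 / p) * Real.log p :=
          mul_le_mul_of_nonneg_right h1 h2
      _ = pb b (o / p) * (2 * (Real.log p / p)) := by ring
  have hinj : Set.InjOn e (S1 : Set (ℕ × ℕ)) := by
    intro x hx y hy hxy
    have h1 := (hmem x hx).2.1
    have h2 := (hmem y hy).2.1
    simp only [he, Prod.mk.injEq] at hxy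
    obtain ⟨h3, h4⟩ := hxy
    apply Prod.ext
    · rw [← h1, ← h2, h3, h4]
    · exact h4
  -- left side
  have hleft : ∑ o ∈ O, pb b o * ((B : ℝ) * Real.log 2) ≤ ∑ x ∈ S1, f x := by
    have h1 : ∑ x ∈ S1, f x = ∑ o ∈ O, ∑ p ∈ b.primeFactors.filter (fun p => p ∣ o), f (o, p) := by
      rw [hS1, Finset.sum_filter, Finset.sum_product]
      refine Finset.sum_congr rfl fun o _ => ?_
      rw [Finset.sum_filter]
    rw [h1]
    refine Finset.sum_le_sum fun o ho => ?_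
    obtain ⟨hob, ho0, hosq⟩ := pb_aux_mem (hO ho)
    have h2 : b.primeFactors.filter (fun p => p ∣ o) = o.primeFactors := by
      ext p
      simp only [Finset.mem_filter, Nat.mem_primeFactors]
      constructor
      · rintro ⟨⟨hp, -, -⟩, hpo⟩
        exact ⟨hp, hpo, ho0.ne'⟩
      · rintro ⟨hp, hpo, -⟩
        exact ⟨⟨hp, hpo.trans hob, hb.ne'⟩, hpo⟩
    rw [h2]
    simp only [hf]
    rw [← Finset.mul_sum, ← pb_log_eq ho0 hosq]
    apply mul_le_mul_of_nonneg_left _ (pb_nonneg b o)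
    have h3 : ((2 : ℝ) ^ B) ≤ o := by exact_mod_cast h o ho
    have h4 := Real.log_le_log (by positivity) h3
    rwa [Real.log_pow] at h4
  -- right side
  have hright : ∑ x ∈ S2, g x = ∑ o' ∈ Sq b, pb b o' *
      ∑ p ∈ b.primeFactors.filter (fun p => p * o' ∈ O), 2 * (Real.log p / p) := by
    rw [hS2, Finset.sum_filter, Finset.sum_product]
    refine Finset.sum_congr rfl fun o _ => ?_
    rw [Finset.sum_filter, Finset.mul_sum]
    refine Finset.sum_congr rfl fun p _ => ?_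
    simp only [hg]
    split_ifs <;> simp
  rw [← hright]
  calc ∑ o ∈ O, pb b o * ((B : ℝ) * Real.log 2) ≤ ∑ x ∈ S1, f x := hleft
    _ ≤ ∑ x ∈ S1, g (e x) := Finset.sum_le_sum hfg
    _ = ∑ y ∈ S1.image e, g y := (Finset.sum_image hinj).symm
    _ ≤ ∑ y ∈ S2, g y := by
        apply Finset.sum_le_sum_of_subset_of_nonneg
        · intro y hy
          obtain ⟨x, hx, rfl⟩ := Finset.mem_image.1 hy
          exact (hmem x hx).2.2.2
        · intro y hy _
          exact hg0 y hy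

/-- [IDE-PB] **Anatomy.**

PROOF.  `B = 0`: the sum is `≤ 1` (`pb_sum`).  `B ≥ 1`: `log_trick`; for a given `o' ≥ 1` the primes
`p` with `2^B ≤ p o' < 2^(B+1)` lie in `[Y, 2Y]`, `Y = 2^B/o'`, so the inner sum is `≤ 6`
(`cheb_dyadic`).  So the sum is `≤ 6/(B log 2) ≤ 18/(B+1)`. -/
theorem anatomy (b B : ℕ) (hb : 0 < b) :
    ∑ o ∈ (Sq b).filter (fun o => 2 ^ B ≤ o ∧ o < 2 ^ (B + 1)), pb b o ≤ 18 / ((B : ℝ) + 1) := by
  classical
  have hsum := pb_sum b hb
  rcases Nat.eq_zero_or_pos B with rfl | hB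
  · calc ∑ o ∈ (Sq b).filter (fun o => 2 ^ 0 ≤ o ∧ o < 2 ^ (0 + 1)), pb b o
        ≤ ∑ o ∈ Sq b, pb b o := by
          apply Finset.sum_le_sum_of_subset_of_nonneg (Finset.filter_subset _ _)
          intro o _ _
          exact pb_nonneg b o
      _ = 1 := hsum
      _ ≤ 18 / (((0 : ℕ) : ℝ) + 1) := by norm_num
  · set O := (Sq b).filter (fun o => 2 ^ B ≤ o ∧ o < 2 ^ (B + 1)) with hO
    have h1 := log_trick b B hb hB O (Finset.filter_subset _ _)
      (fun o ho => (Finset.mem_filter.1 ho).2.1)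
    have hlog2 : 0.69 < Real.log 2 := by
      have := Real.log_two_gt_d9
      linarith
    have hBr : (1 : ℝ) ≤ B := by exact_mod_cast hB
    have hBl : 0 < (B : ℝ) * Real.log 2 := by
      have : 0 < Real.log 2 := by linarith
      positivity
    have h2 : ∑ o' ∈ Sq b, pb b o' *
        ∑ p ∈ b.primeFactors.filter (fun p => p * o' ∈ O), 2 * (Real.log p / p) ≤ 6 := by
      calc ∑ o' ∈ Sq b, pb b o' *
            ∑ p ∈ b.primeFactors.filter (fun p => p * o' ∈ O), 2 * (Real.log p / p)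
          ≤ ∑ o' ∈ Sq b, pb b o' * 6 := by
            refine Finset.sum_le_sum fun o' ho' => ?_
            apply mul_le_mul_of_nonneg_left _ (pb_nonneg b o')
            obtain ⟨-, ho0, -⟩ := pb_aux_mem ho'
            have ho0' : (0 : ℝ) < (o' : ℝ) := by exact_mod_cast ho0
            rw [← Finset.mul_sum]
            have h3 := cheb_dyadic ((2 : ℝ) ^ B / o') (by positivity)
              (b.primeFactors.filter (fun p => p * o' ∈ O)) (by
                intro p hp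
                rw [Finset.mem_filter] at hp
                have hpp := Nat.prime_of_mem_primeFactors hp.1
                have h4 := (Finset.mem_filter.1 hp.2).2
                refine ⟨hpp, ?_, ?_⟩
                · rw [div_le_iff₀ ho0']
                  exact_mod_cast h4.1
                · have h5 : (p : ℝ) * o' ≤ 2 ^ (B + 1) := by exact_mod_cast h4.2.le
                  rw [← mul_div_assoc, le_div_iff₀ ho0']
                  calc (p : ℝ) * o' ≤ 2 ^ (B + 1) := h5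
                    _ = 2 * 2 ^ B := by ring)
            linarith
        _ = 6 := by rw [← Finset.sum_mul, hsum, one_mul]
    calc ∑ o ∈ O, pb b o ≤ 1 / (B * Real.log 2) * 6 :=
          h1.trans (mul_le_mul_of_nonneg_left h2 (by positivity))
      _ ≤ 18 / ((B : ℝ) + 1) := by
          rw [one_div_mul_eq_div, div_le_div_iff₀ hBl (by positivity)]
          nlinarith

end Pool.Agent.IDE
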