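import Pool.Agent.IDE.G3
import Pool.Agent.IDE.N1

set_option autoImplicit false

namespace Pool.Agent.IDE

open Finset Pool.Agent.IDS

/-- the factor of `pair_large`, `D = DD κ q r` -/
noncomputable def PF (κ : ℕ → ℕ) (q r : ℕ) : ℝ :=
  (1 + (DD κ q r) ^ (-(1 : ℝ) / 4)) *
    Real.exp (2 * ∑ p ∈ (rd q r * rd r q).primeFactors.filter
      (fun p : ℕ => Real.logb 2 (DD κ q r) / 4 < (p : ℝ)), 1 / (p : ℝ) +
      16 / Real.log (Real.logb 2 (DD κ q r) / 4))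

/-- telescoping bound for `∑ n^{-7/5}` -/
theorem ra_tail (a M : ℕ) (ha : 1 ≤ a) (hM : a ≤ M) :
    ∑ n ∈ Finset.Ioc a M, (n : ℝ) ^ (-(7 : ℝ) / 5) ≤
      5 / 2 * ((a : ℝ) ^ (-(2 : ℝ) / 5) - (M : ℝ) ^ (-(2 : ℝ) / 5)) := by
  induction M, hM using Nat.le_induction with
  | base => simp
  | succ M hM ih =>
    rw [← Finset.insert_Ioc_right_eq_Ioc_add_one (by omega : a ≤ M),
      Finset.sum_insert (by simp)]
    have hM0 : (0 : ℝ) < (M : ℝ) := by exact_mod_cast (by omega : 0 < M)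
    have hn : (0 : ℝ) < ((M + 1 : ℕ) : ℝ) := by positivity
    have key : ((M + 1 : ℕ) : ℝ) ^ (-(7 : ℝ) / 5) ≤
        5 / 2 * ((M : ℝ) ^ (-(2 : ℝ) / 5) - ((M + 1 : ℕ) : ℝ) ^ (-(2 : ℝ) / 5)) := by
      have hn1 : 1 / ((M + 1 : ℕ) : ℝ) ≤ 1 / 2 := by
        apply one_div_le_one_div_of_le (by norm_num)
        exact_mod_cast (by omega : 2 ≤ M + 1)
      have e1 : (M : ℝ) = ((M + 1 : ℕ) : ℝ) * (1 + -(1 / ((M + 1 : ℕ) : ℝ))) := by
        field_simp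
        push_cast
        ring
      have hpos : 0 < 1 + -(1 / ((M + 1 : ℕ) : ℝ)) := by linarith
      have e2 : (1 + -(1 / ((M + 1 : ℕ) : ℝ))) ^ ((2 : ℝ) / 5) ≤
          1 + 2 / 5 * -(1 / ((M + 1 : ℕ) : ℝ)) :=
        rpow_one_add_le_one_add_mul_self (by linarith) (by norm_num) (by norm_num)
      have e3 : 1 + 2 / 5 * (1 / ((M + 1 : ℕ) : ℝ)) ≤
          (1 + -(1 / ((M + 1 : ℕ) : ℝ))) ^ (-(2 : ℝ) / 5) := by
        have e4 : (1 + -(1 / ((M + 1 : ℕ) : ℝ))) ^ (-(2 : ℝ) / 5) =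
            ((1 + -(1 / ((M + 1 : ℕ) : ℝ))) ^ ((2 : ℝ) / 5))⁻¹ := by
          rw [neg_div, Real.rpow_neg hpos.le]
        rw [e4]
        have e5 : 0 < (1 + -(1 / ((M + 1 : ℕ) : ℝ))) ^ ((2 : ℝ) / 5) := by positivity
        rw [le_inv_comm₀ (by positivity) e5]
        refine e2.trans ?_
        have hq : 0 ≤ 1 / ((M + 1 : ℕ) : ℝ) := by positivity
        rw [le_inv_comm₀ (by linarith) (by linarith)]
        rw [inv_eq_one_div, le_div_iff₀ (by linarith)]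
        nlinarith
      have e6 : (M : ℝ) ^ (-(2 : ℝ) / 5) = ((M + 1 : ℕ) : ℝ) ^ (-(2 : ℝ) / 5) *
          (1 + -(1 / ((M + 1 : ℕ) : ℝ))) ^ (-(2 : ℝ) / 5) := by
        conv_lhs => rw [e1]
        rw [Real.mul_rpow hn.le hpos.le]
      have e7 : ((M + 1 : ℕ) : ℝ) ^ (-(7 : ℝ) / 5) =
          ((M + 1 : ℕ) : ℝ) ^ (-(2 : ℝ) / 5) * (1 / ((M + 1 : ℕ) : ℝ)) := by
        have : (-(7 : ℝ) / 5) = -(2 : ℝ) / 5 - 1 := by norm_num
        rw [this, Real.rpow_sub_one hn.ne']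
        ring
      rw [e6, e7]
      have e8 : 0 ≤ ((M + 1 : ℕ) : ℝ) ^ (-(2 : ℝ) / 5) := by positivity
      nlinarith [mul_le_mul_of_nonneg_left e3 e8]
    linarith

/-- `∑_{n > y} n^{-7/5} ≤ 5 y^{-2/5}` over a finite set -/
theorem ra_tail' (y : ℝ) (hy : 1 ≤ y) (F : Finset ℕ) (hF : ∀ n ∈ F, y < (n : ℝ)) :
    ∑ n ∈ F, (n : ℝ) ^ (-(7 : ℝ) / 5) ≤ 5 / 2 * (y / 2) ^ (-(2 : ℝ) / 5) := by
  have ha : 1 ≤ ⌊y⌋₊ := Nat.le_floor (by simpa using hy)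
  obtain ⟨M, hM1, hM⟩ : ∃ M : ℕ, ⌊y⌋₊ ≤ M ∧ ∀ n ∈ F, n ≤ M := by
    refine ⟨max ⌊y⌋₊ (F.sup id), le_max_left _ _, fun n hn => ?_⟩
    exact (Finset.le_sup (f := id) hn).trans (le_max_right _ _)
  have hsub : F ⊆ Finset.Ioc ⌊y⌋₊ M := by
    intro n hn
    rw [Finset.mem_Ioc]
    exact ⟨(Nat.floor_lt (by linarith)).2 (hF n hn), hM n hn⟩
  have h1 : ∑ n ∈ F, (n : ℝ) ^ (-(7 : ℝ) / 5) ≤
      ∑ n ∈ Finset.Ioc ⌊y⌋₊ M, (n : ℝ) ^ (-(7 : ℝ) / 5) :=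
    Finset.sum_le_sum_of_subset_of_nonneg hsub (fun n _ _ => by positivity)
  have h2 := ra_tail ⌊y⌋₊ M ha hM1
  have h3 : 0 ≤ (M : ℝ) ^ (-(2 : ℝ) / 5) := by positivity
  have h4 : (⌊y⌋₊ : ℝ) ^ (-(2 : ℝ) / 5) ≤ (y / 2) ^ (-(2 : ℝ) / 5) := by
    apply Real.rpow_le_rpow_of_nonpos (by linarith) _ (by norm_num)
    have h5 := Nat.lt_floor_add_one y
    have h6 : (1 : ℝ) ≤ (⌊y⌋₊ : ℝ) := by exact_mod_cast ha
    linarith
  linarith

theorem ra_young (c x : ℝ) (hc : 0 ≤ c) (hx : 0 ≤ x) :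
    c * x ^ ((3 : ℝ) / 5) ≤ x + c ^ ((5 : ℝ) / 2) := by
  rcases le_total c (x ^ ((2 : ℝ) / 5)) with h | h
  · have e1 : c * x ^ ((3 : ℝ) / 5) ≤ x ^ ((2 : ℝ) / 5) * x ^ ((3 : ℝ) / 5) :=
      mul_le_mul_of_nonneg_right h (by positivity)
    have e2 : x ^ ((2 : ℝ) / 5) * x ^ ((3 : ℝ) / 5) = x := by
      rw [← Real.rpow_add_of_nonneg hx (by norm_num) (by norm_num)]
      norm_num
    have e3 : 0 ≤ c ^ ((5 : ℝ) / 2) := by positivity
    linarith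
  · have e1 : x ^ ((3 : ℝ) / 5) ≤ c ^ ((3 : ℝ) / 2) := by
      have := Real.rpow_le_rpow (by positivity) h (show (0 : ℝ) ≤ 3 / 2 by norm_num)
      rw [← Real.rpow_mul hx] at this
      norm_num at this
      exact this
    have e2 : c * c ^ ((3 : ℝ) / 2) = c ^ ((5 : ℝ) / 2) := by
      have : c * c ^ ((3 : ℝ) / 2) = c ^ (1 : ℝ) * c ^ ((3 : ℝ) / 2) := by rw [Real.rpow_one]
      rw [this, ← Real.rpow_add_of_nonneg hc (by norm_num) (by norm_num)]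
      norm_num
    have e3 := mul_le_mul_of_nonneg_left e1 hc
    linarith

/-- [IDE-RA] **Dyadic rare event.**  `y = lam/2` and edges with
`∑_{p ∣ m m', p > y} 1/p > eps`, `lam = 8 log t/eps`.

PROOF.  For such an edge `exp (2Σ) ≤ exp ((2 + lam) Σ - lam eps)`, `Σ = ∑_{p ∣ mm', p > y} 1/p`, and
`exp (-lam eps) = t^{-8}`.  `exp ((2+lam) Σ) = ∏_{p ∣ m, p > y} exp((2+lam)/p) ∏_{p ∣ m', p > y} ...`
(`m, m'` coprime).  `wsum` with `θ = 51/100` and `g p = exp ((2+lam)/p) - 1` for `p > y`, `0`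
otherwise: `(2+lam)/p ≤ (2+lam)/(lam/2) ≤ 3` if `lam ≥ 4`, so `g p ≤ 21 (2+lam)/p`, and
`∑_{p} g p p^{-2/5} ≤ 21 (2+lam) ∑_{n > lam/2} n^{-7/5} ≤ C lam^{3/5} =: B`;
`exp (2B) t^{2(1-θ)} t^{-8} ≤ C' t^{-6}` (`lam^{3/5} = O((log t)^{3/5})`). -/
theorem rare_dyadic (eps : ℝ) (heps : 0 < eps) (heps1 : eps ≤ 1) :
    ∃ C : ℝ, 0 < C ∧ ∀ (S : Finset ℕ) (κ : ℕ → ℕ) (μ : ℕ → ℝ) (t : ℝ) (E : Finset (ℕ × ℕ)),
      (∀ v, 0 ≤ μ v) →
      (∀ v ∈ S, 0 < v ∧ μ v ≤ (Nat.totient v : ℝ) * (1 / 2 : ℝ) ^ κ v) → 2 ≤ t → E ⊆ S ×ˢ S →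
      (∀ e ∈ E, κ e.1 ≤ κ e.2 ∧ (Nat.lcm e.1 e.2 : ℝ) * (1 / 2 : ℝ) ^ κ e.1 ≤ t ∧
        eps < ∑ p ∈ (rd e.1 e.2 * rd e.2 e.1).primeFactors.filter
          (fun p : ℕ => 4 * Real.log t / eps < (p : ℝ)), 1 / (p : ℝ)) →
      ∑ e ∈ E, μ e.1 * μ e.2 * Real.exp (2 * ∑ p ∈ (rd e.1 e.2 * rd e.2 e.1).primeFactors.filter
          (fun p : ℕ => 4 * Real.log t / eps < (p : ℝ)), 1 / (p : ℝ)) ≤
        C * (ms μ S) ^ ((51 : ℝ) / 50) * t ^ (-(6 : ℝ)) := by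
  obtain ⟨C1, hC1, hw⟩ := wsum (51 / 100) (by norm_num) (by norm_num)
  obtain ⟨c, hc⟩ : ∃ c : ℝ, c = 420 * (8 / eps) ^ ((3 : ℝ) / 5) := ⟨_, rfl⟩
  have hc0 : 0 ≤ c := by rw [hc]; positivity
  refine ⟨C1 * Real.exp (c ^ ((5 : ℝ) / 2)), by positivity, ?_⟩
  intro S κ μ t E hμ hS ht hE hEe
  have ht0 : 0 < t := by linarith
  have hlog : Real.log 2 ≤ Real.log t := Real.log_le_log (by norm_num) ht
  have hl2 := Real.log_two_gt_d9
  have hlogt : 0 < Real.log t := by linarith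
  obtain ⟨lam, hlam⟩ : ∃ lam : ℝ, lam = 8 * Real.log t / eps := ⟨_, rfl⟩
  obtain ⟨y, hy⟩ : ∃ y : ℝ, y = 4 * Real.log t / eps := ⟨_, rfl⟩
  have hly : lam = 2 * y := by rw [hlam, hy]; ring
  have hy2 : 2 ≤ y := by
    rw [hy, le_div_iff₀ heps]
    nlinarith
  have hlam4 : 4 ≤ lam := by linarith
  have hlameps : lam * eps = 8 * Real.log t := by rw [hlam]; field_simp
  rw [← hy]
  rw [← hy] at hEe
  -- the function `g`
  let g : ℕ → ℝ := fun p => if y < (p : ℝ) then Real.exp ((2 + lam) / p) - 1 else 0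
  have hg0 : ∀ p, 0 ≤ g p := by
    intro p
    simp only [g]
    split_ifs
    · have : 0 ≤ (2 + lam) / (p : ℝ) := by positivity
      have := Real.add_one_le_exp ((2 + lam) / (p : ℝ))
      linarith
    · exact le_rfl
  have hg1 : ∀ p, 1 + g p = if y < (p : ℝ) then Real.exp ((2 + lam) / p) else 1 := by
    intro p
    simp only [g]
    split_ifs <;> ring
  have hgB : ∀ F : Finset ℕ, (∀ p ∈ F, p.Prime) →
      ∑ p ∈ F, g p * (p : ℝ) ^ (-(2 : ℝ) / 5) ≤ 210 * lam ^ ((3 : ℝ) / 5) := by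
    intro F hF
    have h1 : ∑ p ∈ F, g p * (p : ℝ) ^ (-(2 : ℝ) / 5) ≤
        ∑ p ∈ F.filter (fun p : ℕ => y < (p : ℝ)),
          21 * (2 + lam) * (p : ℝ) ^ (-(7 : ℝ) / 5) := by
      rw [Finset.sum_filter]
      apply Finset.sum_le_sum
      intro p hp
      simp only [g]
      split_ifs with h
      · have hp0 : (0 : ℝ) < p := by linarith
        have hx0 : 0 ≤ (2 + lam) / (p : ℝ) := by positivity
        have hx3 : (2 + lam) / (p : ℝ) ≤ 3 := by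
          rw [div_le_iff₀ hp0]
          linarith
        have hx : Real.exp ((2 + lam) / (p : ℝ)) - 1 ≤ 21 * ((2 + lam) / (p : ℝ)) := by
          set x := (2 + lam) / (p : ℝ) with hx
          have q1 : Real.exp x ≤ Real.exp 3 := Real.exp_le_exp.2 hx3
          have q2 : Real.exp 3 ≤ 21 := by
            have : Real.exp 3 = Real.exp 1 ^ 3 := by rw [← Real.exp_nat_mul]; norm_num
            rw [this]
            have h9 := Real.exp_one_lt_d9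
            have h10 : Real.exp 1 ^ 3 ≤ (2.7182818286 : ℝ) ^ 3 :=
              pow_le_pow_left₀ (Real.exp_pos 1).le h9.le 3
            refine h10.trans ?_
            norm_num
          have q3 : 1 - x ≤ Real.exp (-x) := by
            have := Real.add_one_le_exp (-x)
            linarith
          have q4 : Real.exp x * Real.exp (-x) = 1 := by rw [← Real.exp_add]; simp
          have q5 : Real.exp x - 1 ≤ x * Real.exp x := by
            nlinarith [Real.exp_pos x]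
          nlinarith [Real.exp_pos x]
        have h2 : (p : ℝ) ^ (-(7 : ℝ) / 5) = (p : ℝ) ^ (-(2 : ℝ) / 5) * (1 / (p : ℝ)) := by
          have : (-(7 : ℝ) / 5) = -(2 : ℝ) / 5 - 1 := by norm_num
          rw [this, Real.rpow_sub_one hp0.ne']
          ring
        rw [h2]
        have h3 : 0 ≤ (p : ℝ) ^ (-(2 : ℝ) / 5) := by positivity
        calc (Real.exp ((2 + lam) / (p : ℝ)) - 1) * (p : ℝ) ^ (-(2 : ℝ) / 5) ≤
            21 * ((2 + lam) / (p : ℝ)) * (p : ℝ) ^ (-(2 : ℝ) / 5) :=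
              mul_le_mul_of_nonneg_right hx h3
          _ = 21 * (2 + lam) * ((p : ℝ) ^ (-(2 : ℝ) / 5) * (1 / (p : ℝ))) := by ring
      · simp
    rw [← Finset.mul_sum] at h1
    have h2 := ra_tail' y (by linarith) (F.filter (fun p : ℕ => y < (p : ℝ)))
      (fun n hn => (Finset.mem_filter.1 hn).2)
    have h3 : (y / 2) ^ (-(2 : ℝ) / 5) ≤ 2 * lam ^ (-(2 : ℝ) / 5) := by
      have e1 : y / 2 = lam * (1 / 4) := by rw [hly]; ring
      rw [e1, Real.mul_rpow (by linarith) (by norm_num)]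
      have e2 : (1 / 4 : ℝ) ^ (-(2 : ℝ) / 5) ≤ 2 := by
        have e3 : (1 / 4 : ℝ) ^ (-(2 : ℝ) / 5) = (2 : ℝ) ^ ((4 : ℝ) / 5) := by
          rw [show (1 / 4 : ℝ) = (2 : ℝ) ^ (-(2 : ℝ)) by
            rw [Real.rpow_neg (by norm_num)]; norm_num, ← Real.rpow_mul (by norm_num)]
          norm_num
        rw [e3]
        calc (2 : ℝ) ^ ((4 : ℝ) / 5) ≤ (2 : ℝ) ^ (1 : ℝ) :=
              Real.rpow_le_rpow_of_exponent_le (by norm_num) (by norm_num)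
          _ = 2 := Real.rpow_one 2
      have e4 : 0 ≤ lam ^ (-(2 : ℝ) / 5) := by positivity
      nlinarith
    have h4 : lam ^ ((3 : ℝ) / 5) = lam * lam ^ (-(2 : ℝ) / 5) := by
      have e1 : lam * lam ^ (-(2 : ℝ) / 5) = lam ^ (1 : ℝ) * lam ^ (-(2 : ℝ) / 5) := by
        rw [Real.rpow_one]
      rw [e1, ← Real.rpow_add (by linarith)]
      norm_num
    rw [h4]
    have h5 : 0 ≤ lam ^ (-(2 : ℝ) / 5) := by positivity
    have h6 : ∑ p ∈ F.filter (fun p : ℕ => y < (p : ℝ)), (p : ℝ) ^ (-(7 : ℝ) / 5) ≤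
        5 * lam ^ (-(2 : ℝ) / 5) := by linarith
    have h7 : 21 * (2 + lam) * ∑ p ∈ F.filter (fun p : ℕ => y < (p : ℝ)),
        (p : ℝ) ^ (-(7 : ℝ) / 5) ≤ 21 * (2 + lam) * (5 * lam ^ (-(2 : ℝ) / 5)) :=
      mul_le_mul_of_nonneg_left h6 (by positivity)
    have h8 : 21 * (2 + lam) * (5 * lam ^ (-(2 : ℝ) / 5)) ≤
        210 * (lam * lam ^ (-(2 : ℝ) / 5)) := by nlinarith
    linarith
  have hmain := hw S κ μ t (210 * lam ^ ((3 : ℝ) / 5)) g E hμ hS ht0 hg0 hgB hE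
    (fun e he => ⟨(hEe e he).1, (hEe e he).2.1⟩)
  -- comparison of the terms
  have hterm : ∀ e ∈ E, μ e.1 * μ e.2 * Real.exp (2 * ∑ p ∈ (rd e.1 e.2 * rd e.2 e.1).primeFactors.filter
          (fun p : ℕ => y < (p : ℝ)), 1 / (p : ℝ)) ≤
      t ^ (-(8 : ℝ)) * (μ e.1 * μ e.2 * ((∏ p ∈ (rd e.1 e.2).primeFactors, (1 + g p)) *
        ∏ p ∈ (rd e.2 e.1).primeFactors, (1 + g p))) := by
    intro e he
    obtain ⟨h1, h2, h3⟩ := hEe e he
    have hmem := hE he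
    rw [Finset.mem_product] at hmem
    have hv := (hS e.1 hmem.1).1
    have hprod : ∀ m : ℕ, ∏ p ∈ m.primeFactors, (1 + g p) =
        Real.exp ((2 + lam) * ∑ p ∈ m.primeFactors.filter (fun p : ℕ => y < (p : ℝ)),
          1 / (p : ℝ)) := by
      intro m
      rw [Finset.mul_sum, Real.exp_sum, Finset.prod_filter]
      apply Finset.prod_congr rfl
      intro p _
      rw [hg1]
      split_ifs
      · congr 1
        ring
      · rfl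
    have hsplit : ∑ p ∈ (rd e.1 e.2 * rd e.2 e.1).primeFactors.filter
          (fun p : ℕ => y < (p : ℝ)), 1 / (p : ℝ) =
        ∑ p ∈ (rd e.1 e.2).primeFactors.filter (fun p : ℕ => y < (p : ℝ)), 1 / (p : ℝ) +
        ∑ p ∈ (rd e.2 e.1).primeFactors.filter (fun p : ℕ => y < (p : ℝ)), 1 / (p : ℝ) := by
      have hco := rd_coprime (a := e.1) (b := e.2) hv
      rw [hco.primeFactors_mul, Finset.filter_union, Finset.sum_union]
      exact Finset.disjoint_filter_filter hco.disjoint_primeFactors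
    rw [hprod, hprod, ← Real.exp_add, ← mul_add, ← hsplit]
    obtain ⟨sig, hsig⟩ : ∃ sig : ℝ, sig = ∑ p ∈ (rd e.1 e.2 * rd e.2 e.1).primeFactors.filter
          (fun p : ℕ => y < (p : ℝ)), 1 / (p : ℝ) := ⟨_, rfl⟩
    rw [← hsig] at h3 ⊢
    have hexp : Real.exp (2 * sig) ≤ t ^ (-(8 : ℝ)) * Real.exp ((2 + lam) * sig) := by
      rw [Real.rpow_def_of_pos ht0, ← Real.exp_add, Real.exp_le_exp]
      nlinarith
    have hμμ : 0 ≤ μ e.1 * μ e.2 := mul_nonneg (hμ _) (hμ _)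
    calc μ e.1 * μ e.2 * Real.exp (2 * sig) ≤
        μ e.1 * μ e.2 * (t ^ (-(8 : ℝ)) * Real.exp ((2 + lam) * sig)) :=
          mul_le_mul_of_nonneg_left hexp hμμ
      _ = _ := by ring
  refine (Finset.sum_le_sum hterm).trans ?_
  rw [← Finset.mul_sum]
  refine (mul_le_mul_of_nonneg_left hmain (by positivity)).trans ?_
  have hexpB : Real.exp (2 * (210 * lam ^ ((3 : ℝ) / 5))) ≤ Real.exp (c ^ ((5 : ℝ) / 2)) * t := by
    have e1 : 2 * (210 * lam ^ ((3 : ℝ) / 5)) = c * (Real.log t) ^ ((3 : ℝ) / 5) := by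
      rw [hc, hlam]
      have : 8 * Real.log t / eps = 8 / eps * Real.log t := by ring
      rw [this, Real.mul_rpow (by positivity) hlogt.le]
      ring
    rw [e1]
    have e2 := ra_young c (Real.log t) hc0 hlogt.le
    calc Real.exp (c * (Real.log t) ^ ((3 : ℝ) / 5)) ≤
        Real.exp (Real.log t + c ^ ((5 : ℝ) / 2)) := Real.exp_le_exp.2 e2
      _ = Real.exp (c ^ ((5 : ℝ) / 2)) * t := by rw [Real.exp_add, Real.exp_log ht0]; ring
  have hms : 0 ≤ (ms μ S) ^ ((51 : ℝ) / 50) :=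
    Real.rpow_nonneg (Finset.sum_nonneg fun v _ => hμ v) _
  have e51 : (2 * (51 / 100) : ℝ) = 51 / 50 := by norm_num
  have e49 : (2 * (1 - 51 / 100) : ℝ) = 49 / 50 := by norm_num
  rw [e51, e49]
  have hpow : t ^ (-(8 : ℝ)) * (t * t ^ ((49 : ℝ) / 50)) ≤ t ^ (-(6 : ℝ)) := by
    have e1 : t * t ^ ((49 : ℝ) / 50) = t ^ ((99 : ℝ) / 50) := by
      have : t * t ^ ((49 : ℝ) / 50) = t ^ (1 : ℝ) * t ^ ((49 : ℝ) / 50) := by rw [Real.rpow_one]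
      rw [this, ← Real.rpow_add ht0]
      norm_num
    rw [e1, ← Real.rpow_add ht0]
    apply Real.rpow_le_rpow_of_exponent_le (by linarith) (by norm_num)
  calc t ^ (-(8 : ℝ)) * (C1 * Real.exp (2 * (210 * lam ^ ((3 : ℝ) / 5))) *
        (ms μ S) ^ ((51 : ℝ) / 50) * t ^ ((49 : ℝ) / 50))
      ≤ t ^ (-(8 : ℝ)) * (C1 * (Real.exp (c ^ ((5 : ℝ) / 2)) * t) *
        (ms μ S) ^ ((51 : ℝ) / 50) * t ^ ((49 : ℝ) / 50)) := by gcongr
    _ = C1 * Real.exp (c ^ ((5 : ℝ) / 2)) * (ms μ S) ^ ((51 : ℝ) / 50) *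
        (t ^ (-(8 : ℝ)) * (t * t ^ ((49 : ℝ) / 50))) := by ring
    _ ≤ C1 * Real.exp (c ^ ((5 : ℝ) / 2)) * (ms μ S) ^ ((51 : ℝ) / 50) * t ^ (-(6 : ℝ)) :=
        mul_le_mul_of_nonneg_left hpow (by positivity)

end Pool.Agent.IDE
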