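import Pool.Agent.IDE.Base
import Pool.Agent.IDS.K1a
import Pool.Agent.IDS.K1b

set_option autoImplicit false

namespace Pool.Agent.IDE

open Finset Pool.Agent.IDS

/-- [IDE-ROT] **Generic coefficient.**  Port of `Pool.Agent.IDS.rot_generic` (K2a) with the exponent
`1/64` in place of `1/4`.

PROOF.  If `R < 16`: trivial, the count is `≤ X ≤ 2 R^{-1/64} X`.
Let `R ≥ 16`, `κ = 2/R ≤ 1/8`, `J = ⌊R^{1/64}⌋₊ ≥ 1`; `J ≤ R^{1/64} < J + 1 ≤ 2J`.
If no `1 ≤ j ≤ J` has `nd (jω) ≤ 2κ`: `rot_sparse`: count `≤ X/J + 1 ≤ 2R^{-1/64}X + R^{-1/64}X`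
(`X ≥ R^{1/64}`).  Otherwise take such a `j`; `ρ = nd (jω) ≥ 16/(√R X) > 0`; `rot_dense`: count
`≤ 8X/R + 10 j/(Rρ) ≤ 8X/R + 10 R^{1/64} √R X/(16 R) ≤ 9 R^{-1/64} X`
(`R^{1/64 - 1/2} ≤ R^{-1/64}`). -/
theorem rot_generic64 (R ω ϑ : ℝ) (X : ℕ) (hR : 1 ≤ R) (hX : R ^ ((1 : ℝ) / 64) ≤ X)
    (h : ∀ j : ℕ, 1 ≤ j → (j : ℝ) ≤ R ^ ((1 : ℝ) / 64) → 16 / (Real.sqrt R * X) ≤ nd (j * ω))
    (m : ℕ) :
    (((Ico m (m + X)).filter (fun x : ℕ => nd (ω * x - ϑ) ≤ 2 / R)).card : ℝ) ≤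
      10 * R ^ (-(1 : ℝ) / 64) * X := by
  classical
  set t : ℝ := R ^ ((1 : ℝ) / 64) with ht
  have hR0 : 0 < R := by linarith
  have ht1 : 1 ≤ t := Real.one_le_rpow hR (by norm_num)
  have ht0 : 0 < t := by linarith
  have ht64 : t ^ 64 = R := by
    rw [ht, ← Real.rpow_natCast, ← Real.rpow_mul hR0.le]
    norm_num
  have htinv : R ^ (-(1 : ℝ) / 64) = t⁻¹ := by
    rw [ht, ← Real.rpow_neg hR0.le]
    norm_num
  have hsqrt : Real.sqrt R = t ^ 32 := by
    rw [← ht64, show t ^ 64 = (t ^ 32) ^ 2 by ring]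
    exact Real.sqrt_sq (by positivity)
  have hX0 : (0 : ℝ) < X := lt_of_lt_of_le ht0 hX
  rw [htinv]
  by_cases hR16 : R < 16
  · have ht2 : t < 2 := by
      by_contra hcon
      push Not at hcon
      have h2 : (2 : ℝ) ^ 64 ≤ t ^ 64 := pow_le_pow_left₀ (by norm_num) hcon 64
      rw [ht64] at h2
      norm_num at h2
      linarith
    have h1 : (((Ico m (m + X)).filter (fun x : ℕ => nd (ω * x - ϑ) ≤ 2 / R)).card : ℝ) ≤ X := by
      have := card_filter_le (Ico m (m + X)) (fun x : ℕ => nd (ω * x - ϑ) ≤ 2 / R)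
      rw [Nat.card_Ico] at this
      have h3 : m + X - m = X := by omega
      rw [h3] at this
      exact_mod_cast this
    refine h1.trans ?_
    have h4 : (1 : ℝ) ≤ 10 * t⁻¹ := by
      rw [← div_eq_mul_inv, le_div_iff₀ ht0]
      linarith
    nlinarith
  · push Not at hR16
    have hκ : 2 / R ≤ 1 / 8 := by
      rw [div_le_div_iff₀ hR0 (by norm_num)]
      linarith
    set J : ℕ := ⌊t⌋₊ with hJ
    have hJ1 : 1 ≤ J := Nat.le_floor (by exact_mod_cast ht1)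
    have hJt : (J : ℝ) ≤ t := Nat.floor_le ht0.le
    have hJt' : t < J + 1 := Nat.lt_floor_add_one t
    have hJ1' : (1 : ℝ) ≤ J := by exact_mod_cast hJ1
    by_cases hs : ∀ j : ℕ, 1 ≤ j → j ≤ J → 2 * (2 / R) < nd (j * ω)
    · refine (rot_sparse ω ϑ (2 / R) m X J (by omega) hs).trans ?_
      have h1 : (X : ℝ) / J ≤ 2 * t⁻¹ * X := by
        rw [div_le_iff₀ (by linarith)]
        have h2 : (1 : ℝ) ≤ 2 * t⁻¹ * J := by
          rw [mul_assoc, ← div_eq_inv_mul, ← mul_div_assoc, le_div_iff₀ ht0]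
          linarith
        calc (X : ℝ) = 1 * X := by ring
          _ ≤ (2 * t⁻¹ * J) * X := by
              apply mul_le_mul_of_nonneg_right h2 hX0.le
          _ = 2 * t⁻¹ * X * J := by ring
      have h3 : (1 : ℝ) ≤ t⁻¹ * X := by
        rw [← div_eq_inv_mul, le_div_iff₀ ht0]
        linarith
      nlinarith [mul_pos (inv_pos.2 ht0) hX0]
    · push Not at hs
      obtain ⟨j, hj1, hjJ, hj⟩ := hs
      have hjt : (j : ℝ) ≤ t := le_trans (by exact_mod_cast hjJ) hJt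
      have hρ := h j hj1 hjt
      rw [hsqrt] at hρ
      have hρ0 : 0 < nd (j * ω) := lt_of_lt_of_le (by positivity) hρ
      refine (rot_dense ω ϑ (2 / R) m X j hκ hj1 hρ0 hj).trans ?_
      have hj0 : (0 : ℝ) ≤ j := Nat.cast_nonneg _
      have h1 : 5 * (2 / R) * j / nd (j * ω) ≤ (10 / 16) * (t⁻¹ * X) := by
        rw [div_le_iff₀ hρ0]
        have h2 : (10 / 16) * (t⁻¹ * X) * (16 / (t ^ 32 * X)) ≤ (10 / 16) * (t⁻¹ * X) * nd (j * ω) :=
          mul_le_mul_of_nonneg_left hρ (by positivity)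
        refine le_trans ?_ h2
        have h3 : (10 / 16) * (t⁻¹ * X) * (16 / (t ^ 32 * X)) = 10 * t ^ 31 / t ^ 64 := by
          field_simp
        rw [h3, ← ht64]
        have h4 : 5 * (2 / t ^ 64) * (j : ℝ) = 10 * j / t ^ 64 := by ring
        rw [h4]
        apply div_le_div_of_nonneg_right _ (by positivity)
        have h5 : t ≤ t ^ 31 := by
          calc t = t ^ 1 := (pow_one t).symm
            _ ≤ t ^ 31 := pow_le_pow_right₀ ht1 (by norm_num)
        linarith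
      have h5 : 4 * (2 / R) * X ≤ 8 * t⁻¹ * X := by
        apply mul_le_mul_of_nonneg_right _ hX0.le
        rw [← ht64]
        have h6 : t ≤ t ^ 64 := by
          calc t = t ^ 1 := (pow_one t).symm
            _ ≤ t ^ 64 := pow_le_pow_right₀ ht1 (by norm_num)
        have h7 : (t ^ 64)⁻¹ ≤ t⁻¹ := inv_anti₀ ht0 h6
        have h8 : 4 * (2 / t ^ 64) = 8 * (t ^ 64)⁻¹ := by ring
        rw [h8]
        linarith
      nlinarith [mul_pos (inv_pos.2 ht0) hX0]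

end Pool.Agent.IDE
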