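import Pool.Agent.IDE.Base

set_option autoImplicit false

namespace Pool.Agent.IDE

open Finset Pool.Agent.IDS

/-- sum of `a^{-1/4}` over a set of positive integers -/
theorem sc1_sum (k : ℕ) : ∀ A : Finset ℕ, A.card = k → (∀ a ∈ A, 1 ≤ a) →
    ∑ a ∈ A, (a : ℝ) ^ (-(1 : ℝ) / 4) ≤ 4 / 3 * (k : ℝ) ^ ((3 : ℝ) / 4) := by
  induction k with
  | zero =>
    intro A hA _
    rw [Finset.card_eq_zero] at hA
    subst hA
    simp
  | succ k ih =>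
    intro A hA h1
    have hne : A.Nonempty := by
      rw [← Finset.card_pos]; omega
    set M := A.max' hne with hM
    have hMA : M ∈ A := Finset.max'_mem A hne
    have hMk : k + 1 ≤ M := by
      have hsub : A ⊆ Finset.Icc 1 M := by
        intro a ha
        rw [Finset.mem_Icc]
        exact ⟨h1 a ha, Finset.le_max' A a ha⟩
      have := Finset.card_le_card hsub
      rw [hA, Nat.card_Icc] at this
      omega
    have hcard : (A.erase M).card = k := by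
      rw [Finset.card_erase_of_mem hMA, hA]; rfl
    have h2 := ih (A.erase M) hcard (fun a ha => h1 a (Finset.mem_of_mem_erase ha))
    rw [← Finset.add_sum_erase A _ hMA]
    have h3 : (M : ℝ) ^ (-(1 : ℝ) / 4) ≤ ((k + 1 : ℕ) : ℝ) ^ (-(1 : ℝ) / 4) := by
      apply Real.rpow_le_rpow_of_nonpos (by positivity) _ (by norm_num)
      exact_mod_cast hMk
    have h4 : (k : ℝ) ^ ((3 : ℝ) / 4) + 3 / 4 * ((k + 1 : ℕ) : ℝ) ^ (-(1 : ℝ) / 4) ≤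
        ((k + 1 : ℕ) : ℝ) ^ ((3 : ℝ) / 4) := by
      have hk : (0 : ℝ) < ((k + 1 : ℕ) : ℝ) := by positivity
      have e1 : (k : ℝ) = ((k + 1 : ℕ) : ℝ) * (1 + -(1 / ((k + 1 : ℕ) : ℝ))) := by
        field_simp
        push_cast
        ring
      have hk1 : 1 / ((k + 1 : ℕ) : ℝ) ≤ 1 := by
        rw [div_le_one hk]
        push_cast
        linarith [Nat.cast_nonneg (α := ℝ) k]
      have e2 : (1 + -(1 / ((k + 1 : ℕ) : ℝ))) ^ ((3 : ℝ) / 4) ≤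
          1 + 3 / 4 * -(1 / ((k + 1 : ℕ) : ℝ)) :=
        rpow_one_add_le_one_add_mul_self (by linarith) (by norm_num) (by norm_num)
      have e3 : (k : ℝ) ^ ((3 : ℝ) / 4) = ((k + 1 : ℕ) : ℝ) ^ ((3 : ℝ) / 4) *
          (1 + -(1 / ((k + 1 : ℕ) : ℝ))) ^ ((3 : ℝ) / 4) := by
        conv_lhs => rw [e1]
        rw [Real.mul_rpow hk.le (by linarith)]
      have e4 : ((k + 1 : ℕ) : ℝ) ^ (-(1 : ℝ) / 4) =
          ((k + 1 : ℕ) : ℝ) ^ ((3 : ℝ) / 4) * (1 / ((k + 1 : ℕ) : ℝ)) := by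
        have : (-(1 : ℝ) / 4) = (3 : ℝ) / 4 - 1 := by norm_num
        rw [this, Real.rpow_sub_one hk.ne']
        ring
      rw [e3, e4]
      have e5 : 0 ≤ ((k + 1 : ℕ) : ℝ) ^ ((3 : ℝ) / 4) := by positivity
      nlinarith [mul_le_mul_of_nonneg_left e2 e5]
    linarith

theorem sc1_sum' (A : Finset ℕ) (h1 : ∀ a ∈ A, 1 ≤ a) (z : ℝ) (hz : (A.card : ℝ) ≤ z) :
    ∑ a ∈ A, (a : ℝ) ^ (-(1 : ℝ) / 4) ≤ 4 / 3 * z ^ ((3 : ℝ) / 4) := by
  refine (sc1_sum A.card A rfl h1).trans ?_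
  apply mul_le_mul_of_nonneg_left _ (by norm_num)
  exact Real.rpow_le_rpow (Nat.cast_nonneg _) hz (by norm_num)

/-- the multiplicative function -/
noncomputable def sc1_f (n : ℕ) : ℝ := (n : ℝ) ^ (-(1 : ℝ) / 4) * Fw n

theorem sc1_f_nonneg (n : ℕ) : 0 ≤ sc1_f n := by
  unfold sc1_f Fw
  positivity

theorem sc1_f_one : sc1_f 1 = 1 := by
  simp [sc1_f, Fw]

theorem sc1_f_mul {m n : ℕ} (h : Nat.Coprime m n) : sc1_f (m * n) = sc1_f m * sc1_f n := by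
  unfold sc1_f Fw
  rw [Nat.totient_mul h]
  push_cast
  rw [Real.mul_rpow (Nat.cast_nonneg _) (Nat.cast_nonneg _)]
  rw [mul_div_mul_comm]
  ring

theorem sc1_f_pow (p j : ℕ) (hp : p.Prime) :
    sc1_f (p ^ (j + 1)) = ((p : ℝ) / (p - 1)) * ((p : ℝ) ^ (-(1 : ℝ) / 4)) ^ (j + 1) := by
  unfold sc1_f Fw
  have hp1 : (1 : ℝ) < p := by exact_mod_cast hp.one_lt
  have hp0 : (0 : ℝ) < p := by linarith
  rw [Nat.totient_prime_pow hp (Nat.succ_pos j)]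
  have e1 : (((p ^ (j + 1 - 1) * (p - 1) : ℕ)) : ℝ) = (p : ℝ) ^ j * ((p : ℝ) - 1) := by
    rw [Nat.add_sub_cancel]
    push_cast [Nat.cast_sub hp.one_lt.le]
    ring
  rw [e1]
  have e2 : (((p ^ (j + 1) : ℕ)) : ℝ) ^ (-(1 : ℝ) / 4) = ((p : ℝ) ^ (-(1 : ℝ) / 4)) ^ (j + 1) := by
    push_cast
    rw [← Real.rpow_natCast, ← Real.rpow_natCast, ← Real.rpow_mul hp0.le, ← Real.rpow_mul hp0.le]
    congr 1
    ring
  rw [e2]
  push_cast
  have hp2 : (p : ℝ) - 1 ≠ 0 := by linarith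
  field_simp
  ring

theorem sc1_x_bound (p : ℕ) (hp : p.Prime) : (p : ℝ) ^ (-(1 : ℝ) / 4) ≤ 6 / 7 := by
  have h2 : (2 : ℝ) ≤ p := by exact_mod_cast hp.two_le
  have e1 : (p : ℝ) ^ (-(1 : ℝ) / 4) ≤ (2 : ℝ) ^ (-(1 : ℝ) / 4) :=
    Real.rpow_le_rpow_of_nonpos (by norm_num) h2 (by norm_num)
  refine e1.trans ?_
  have e2 : ((2 : ℝ) ^ (-(1 : ℝ) / 4)) ^ 4 ≤ (6 / 7 : ℝ) ^ 4 := by
    rw [← Real.rpow_natCast, ← Real.rpow_mul (by norm_num)]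
    norm_num
  exact le_of_pow_le_pow_left₀ (by norm_num) (by norm_num) e2

theorem sc1_hasSum (p : ℕ) (hp : p.Prime) :
    HasSum (fun n => sc1_f (p ^ n)) (1 + ((p : ℝ) / (p - 1)) *
      ((p : ℝ) ^ (-(1 : ℝ) / 4) * (1 - (p : ℝ) ^ (-(1 : ℝ) / 4))⁻¹)) := by
  have hx0 : (0 : ℝ) ≤ (p : ℝ) ^ (-(1 : ℝ) / 4) := by positivity
  have hx1 : (p : ℝ) ^ (-(1 : ℝ) / 4) < 1 := by
    have := sc1_x_bound p hp
    linarith
  have h1 : HasSum (fun j : ℕ => sc1_f (p ^ (j + 1))) (((p : ℝ) / (p - 1)) *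
      ((p : ℝ) ^ (-(1 : ℝ) / 4) * (1 - (p : ℝ) ^ (-(1 : ℝ) / 4))⁻¹)) := by
    have h2 := ((hasSum_geometric_of_lt_one hx0 hx1).mul_left ((p : ℝ) ^ (-(1 : ℝ) / 4))).mul_left
      ((p : ℝ) / (p - 1))
    have h3 : (fun j : ℕ => sc1_f (p ^ (j + 1))) = fun j : ℕ => ((p : ℝ) / (p - 1)) *
        ((p : ℝ) ^ (-(1 : ℝ) / 4) * ((p : ℝ) ^ (-(1 : ℝ) / 4)) ^ j) := by
      funext j
      rw [sc1_f_pow p j hp, pow_succ]
      ring
    rw [h3]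
    exact h2
  have h3 := (hasSum_nat_add_iff (f := fun n => sc1_f (p ^ n)) 1).1 h1
  simp only [Finset.sum_range_one, pow_zero, sc1_f_one] at h3
  rw [add_comm]
  exact h3

theorem sc1_tsum_le (p : ℕ) (hp : p.Prime) :
    ∑' n, sc1_f (p ^ n) ≤ Real.exp (14 * (p : ℝ) ^ (-(1 : ℝ) / 4)) := by
  rw [(sc1_hasSum p hp).tsum_eq]
  have hx0 : (0 : ℝ) ≤ (p : ℝ) ^ (-(1 : ℝ) / 4) := by positivity
  have hx1 := sc1_x_bound p hp
  set x := (p : ℝ) ^ (-(1 : ℝ) / 4) with hx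
  have h2 : (2 : ℝ) ≤ p := by exact_mod_cast hp.two_le
  have e1 : (p : ℝ) / (p - 1) ≤ 2 := by
    rw [div_le_iff₀ (by linarith)]
    linarith
  have e2 : (1 - x)⁻¹ ≤ 7 := by
    rw [inv_le_comm₀ (by linarith) (by norm_num)]
    linarith
  have e3 : x * (1 - x)⁻¹ ≤ x * 7 := mul_le_mul_of_nonneg_left e2 hx0
  have e4 : 0 ≤ x * (1 - x)⁻¹ := mul_nonneg hx0 (inv_nonneg.2 (by linarith))
  have e5 : (p : ℝ) / (p - 1) * (x * (1 - x)⁻¹) ≤ 2 * (x * 7) := mul_le_mul e1 e3 e4 (by norm_num)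
  have := Real.add_one_le_exp (14 * x)
  linarith

/-- [IDE-SC1] **Smooth sums.**

PROOF.  Let `𝒫` be the finite set of the primes `p ≤ Y` or `p ∣ N`.  Every `n ∈ F` is a product of powers
of primes of `𝒫`, so
`∑_{n∈F} n^{-1/4} Fw n ≤ ∏_{p∈𝒫} (1 + (p/(p-1)) ∑_{j≥1} p^{-j/4}) ≤ ∏ (1 + 14 p^{-1/4}) ≤
exp (14 ∑_{p∈𝒫} p^{-1/4})` (`p/(p-1) ≤ 2`, `1/(1 - 2^{-1/4}) ≤ 7`).  `∑_{p ≤ Y} p^{-1/4} ≤ ∑_{n≤Y} n^{-1/4}
≤ (4/3) Y^{3/4}`, `∑_{p ∣ N} p^{-1/4} ≤ ∑_{n ≤ ω(N)} n^{-1/4} ≤ (4/3) ω(N)^{3/4}`,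
`ω(N) ≤ log₂ N`. (Use `EulerProduct`/`Nat.smoothNumbers`/`Nat.factoredNumbers` results, or induction on
the set `𝒫` for the finite sum over the numbers with bounded exponents.) -/
theorem smooth_sum (Y : ℝ) (hY : 0 ≤ Y) (N : ℕ) (hN : 1 ≤ N) (F : Finset ℕ)
    (hF : ∀ n ∈ F, 1 ≤ n ∧ ∀ p : ℕ, p.Prime → p ∣ n → (p : ℝ) ≤ Y ∨ p ∣ N) :
    ∑ n ∈ F, (n : ℝ) ^ (-(1 : ℝ) / 4) * Fw n ≤
      Real.exp (20 * (Y ^ ((3 : ℝ) / 4) + (Real.logb 2 N) ^ ((3 : ℝ) / 4))) := by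
  classical
  set P1 : Finset ℕ := (Finset.Icc 1 ⌊Y⌋₊).filter Nat.Prime with hP1
  set P2 : Finset ℕ := N.primeFactors with hP2
  set s : Finset ℕ := P1 ∪ P2 with hs
  have hsp : ∀ p ∈ s, p.Prime := by
    intro p hp
    rcases Finset.mem_union.1 hp with h | h
    · exact (Finset.mem_filter.1 h).2
    · exact Nat.prime_of_mem_primeFactors h
  have hsum : ∀ {p : ℕ}, p.Prime → Summable (fun n : ℕ => ‖sc1_f (p ^ n)‖) := by
    intro p hp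
    have := (sc1_hasSum p hp).summable
    refine this.congr (fun n => ?_)
    rw [Real.norm_of_nonneg (sc1_f_nonneg _)]
  obtain ⟨hS1, hS2⟩ := EulerProduct.summable_and_hasSum_factoredNumbers_prod_filter_prime_tsum
    sc1_f_one (fun {m n} h => sc1_f_mul h) hsum s
  -- the sum over `F`
  have hFs : ∀ n ∈ F, n ∈ Nat.factoredNumbers s := by
    intro n hn
    obtain ⟨h1, h2⟩ := hF n hn
    rw [Nat.mem_factoredNumbers']
    intro p hp hpn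
    rcases h2 p hp hpn with h | h
    · apply Finset.mem_union_left
      rw [hP1, Finset.mem_filter, Finset.mem_Icc]
      exact ⟨⟨hp.one_lt.le, Nat.le_floor h⟩, hp⟩
    · apply Finset.mem_union_right
      rw [hP2, Nat.mem_primeFactors]
      exact ⟨hp, h, by omega⟩
  have hle1 : ∑ n ∈ F, sc1_f n ≤ ∏ p ∈ s with p.Prime, ∑' n, sc1_f (p ^ n) := by
    have e1 : ∑ n ∈ F, sc1_f n = ∑ m ∈ F.attach.map
        ⟨fun x : {x // x ∈ F} => (⟨x.1, hFs x.1 x.2⟩ : Nat.factoredNumbers s), fun a b h =>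
          Subtype.ext (congrArg (fun z : Nat.factoredNumbers s => (z : ℕ)) h)⟩,
        sc1_f (m : ℕ) := by
      rw [Finset.sum_map]
      exact (Finset.sum_attach F (fun n => sc1_f n)).symm
    rw [e1]
    exact sum_le_hasSum _ (fun i _ => sc1_f_nonneg _) hS2
  have hfil : (s.filter Nat.Prime) = s := Finset.filter_true_of_mem hsp
  rw [hfil] at hle1
  have hle2 : ∏ p ∈ s, ∑' n, sc1_f (p ^ n) ≤
      ∏ p ∈ s, Real.exp (14 * (p : ℝ) ^ (-(1 : ℝ) / 4)) := by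
    apply Finset.prod_le_prod
    · intro p _
      exact tsum_nonneg (fun n => sc1_f_nonneg _)
    · intro p hp
      exact sc1_tsum_le p (hsp p hp)
  rw [← Real.exp_sum] at hle2
  have hle3 : ∑ p ∈ s, 14 * (p : ℝ) ^ (-(1 : ℝ) / 4) ≤
      20 * (Y ^ ((3 : ℝ) / 4) + (Real.logb 2 N) ^ ((3 : ℝ) / 4)) := by
    rw [← Finset.mul_sum]
    have g1 : ∑ p ∈ s, (p : ℝ) ^ (-(1 : ℝ) / 4) ≤ ∑ p ∈ P1, (p : ℝ) ^ (-(1 : ℝ) / 4) +
        ∑ p ∈ P2, (p : ℝ) ^ (-(1 : ℝ) / 4) := by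
      rw [← Finset.sum_union_inter]
      have : 0 ≤ ∑ p ∈ P1 ∩ P2, (p : ℝ) ^ (-(1 : ℝ) / 4) :=
        Finset.sum_nonneg (fun p _ => by positivity)
      linarith
    have g2 : ∑ p ∈ P1, (p : ℝ) ^ (-(1 : ℝ) / 4) ≤ 4 / 3 * Y ^ ((3 : ℝ) / 4) := by
      apply sc1_sum'
      · intro a ha
        exact (Finset.mem_Icc.1 (Finset.mem_filter.1 ha).1).1
      · have h1 : P1.card ≤ ⌊Y⌋₊ := by
          refine (Finset.card_filter_le _ _).trans ?_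
          rw [Nat.card_Icc]
          omega
        calc (P1.card : ℝ) ≤ (⌊Y⌋₊ : ℝ) := by exact_mod_cast h1
          _ ≤ Y := Nat.floor_le hY
    have g3 : ∑ p ∈ P2, (p : ℝ) ^ (-(1 : ℝ) / 4) ≤ 4 / 3 * (Real.logb 2 N) ^ ((3 : ℝ) / 4) := by
      apply sc1_sum'
      · intro a ha
        exact (Nat.prime_of_mem_primeFactors ha).one_lt.le
      · have h1 : 2 ^ P2.card ≤ N := by
          calc 2 ^ P2.card = ∏ _p ∈ P2, 2 := by rw [Finset.prod_const]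
            _ ≤ ∏ p ∈ P2, p := Finset.prod_le_prod (fun _ _ => by norm_num)
                (fun p hp => (Nat.prime_of_mem_primeFactors hp).two_le)
            _ ≤ N := Nat.le_of_dvd (by omega) (Nat.prod_primeFactors_dvd N)
        rw [Real.le_logb_iff_rpow_le (by norm_num) (by exact_mod_cast hN), Real.rpow_natCast]
        exact_mod_cast h1
    have g4 : 0 ≤ Y ^ ((3 : ℝ) / 4) := by positivity
    have g5 : 0 ≤ (Real.logb 2 N) ^ ((3 : ℝ) / 4) :=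
      Real.rpow_nonneg (Real.logb_nonneg (by norm_num) (by exact_mod_cast hN)) _
    linarith
  calc ∑ n ∈ F, (n : ℝ) ^ (-(1 : ℝ) / 4) * Fw n = ∑ n ∈ F, sc1_f n := rfl
    _ ≤ _ := hle1
    _ ≤ _ := hle2
    _ ≤ _ := Real.exp_le_exp.2 hle3

end Pool.Agent.IDE
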