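import Pool.Agent.IDE.TG2

set_option autoImplicit false

namespace Pool.Agent.IDE

open Finset Pool.Agent.IDS

/-- `V = 2^{|κ q - κ r|} max (m, m')` -/
noncomputable def VV (κ : ℕ → ℕ) (q r : ℕ) : ℝ :=
  (2 : ℝ) ^ ((κ q - κ r) + (κ r - κ q)) * max (rd q r : ℝ) (rd r q)

theorem tg4_max_le (κ : ℕ → ℕ) (q r : ℕ) :
    (max (rd q r : ℝ) (rd r q : ℝ)) ≤ VV κ q r := by
  unfold VV
  have h1 : (1 : ℝ) ≤ (2 : ℝ) ^ ((κ q - κ r) + (κ r - κ q)) := one_le_pow₀ (by norm_num)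
  have h2 : (0 : ℝ) ≤ max (rd q r : ℝ) (rd r q : ℝ) := le_max_of_le_left (Nat.cast_nonneg _)
  nlinarith

theorem tg4_m_le (κ : ℕ → ℕ) (q r : ℕ) : (rd q r : ℝ) ≤ VV κ q r :=
  (le_max_left _ _).trans (tg4_max_le κ q r)

theorem tg4_m'_le (κ : ℕ → ℕ) (q r : ℕ) : (rd r q : ℝ) ≤ VV κ q r :=
  (le_max_right _ _).trans (tg4_max_le κ q r)

theorem tg4_pow_m_le (κ : ℕ → ℕ) (q r : ℕ) :
    (2 : ℝ) ^ ((κ q - κ r) + (κ r - κ q)) * (rd q r : ℝ) ≤ VV κ q r := by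
  unfold VV
  exact mul_le_mul_of_nonneg_left (le_max_left _ _) (by positivity)

theorem tg4_pow_m'_le (κ : ℕ → ℕ) (q r : ℕ) :
    (2 : ℝ) ^ ((κ q - κ r) + (κ r - κ q)) * (rd r q : ℝ) ≤ VV κ q r := by
  unfold VV
  exact mul_le_mul_of_nonneg_left (le_max_right _ _) (by positivity)

theorem tg4_one_le (κ : ℕ → ℕ) (q r : ℕ) (hq : 1 ≤ q) : 1 ≤ VV κ q r := by
  have h : 0 < rd q r := rd_pos hq
  have h1 : (1 : ℝ) ≤ (rd q r : ℝ) := by exact_mod_cast h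
  exact h1.trans (tg4_m_le κ q r)

theorem tg4_symm (κ : ℕ → ℕ) (q r : ℕ) : VV κ r q = VV κ q r := by
  unfold VV
  rw [add_comm (κ r - κ q), max_comm]

/-- `(1/2)^{κ r} ≤ 2^E (1/2)^{κ q}` -/
theorem tg4_half (κ : ℕ → ℕ) (q r : ℕ) :
    (1 / 2 : ℝ) ^ κ r ≤ (2 : ℝ) ^ ((κ q - κ r) + (κ r - κ q)) * (1 / 2 : ℝ) ^ κ q := by
  have h1 : κ q ≤ κ r + ((κ q - κ r) + (κ r - κ q)) := by omega
  have h2 : (1 / 2 : ℝ) ^ (κ r + ((κ q - κ r) + (κ r - κ q))) ≤ (1 / 2 : ℝ) ^ κ q :=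
    pow_le_pow_of_le_one (by norm_num) (by norm_num) h1
  rw [pow_add] at h2
  have h3 : (2 : ℝ) ^ ((κ q - κ r) + (κ r - κ q)) *
      (1 / 2 : ℝ) ^ ((κ q - κ r) + (κ r - κ q)) = 1 := by
    rw [← mul_pow]
    norm_num
  have h4 : (0 : ℝ) < (2 : ℝ) ^ ((κ q - κ r) + (κ r - κ q)) := by positivity
  calc (1 / 2 : ℝ) ^ κ r = (2 : ℝ) ^ ((κ q - κ r) + (κ r - κ q)) *
        ((1 / 2 : ℝ) ^ κ r * (1 / 2 : ℝ) ^ ((κ q - κ r) + (κ r - κ q))) := by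
        rw [mul_comm ((1 / 2 : ℝ) ^ κ r), ← mul_assoc, h3, one_mul]
    _ ≤ _ := mul_le_mul_of_nonneg_left h2 h4.le

/-- `m ρ_r ≤ 2^E m' ρ_q` -/
theorem tg4_rho (κ : ℕ → ℕ) (q r : ℕ) :
    (rd q r : ℝ) * rho κ r ≤
      ((2 : ℝ) ^ ((κ q - κ r) + (κ r - κ q)) * (rd r q : ℝ)) * rho κ q := by
  unfold rho
  have h1 : (q : ℝ) * rd r q = r * rd q r := by exact_mod_cast rd_mul r q
  have h2 := tg4_half κ q r
  have h3 : (0 : ℝ) ≤ (r : ℝ) * rd q r := by positivity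
  calc (rd q r : ℝ) * ((r : ℝ) * (1 / 2 : ℝ) ^ κ r) = ((r : ℝ) * rd q r) * (1 / 2 : ℝ) ^ κ r := by
        ring
    _ ≤ ((r : ℝ) * rd q r) * ((2 : ℝ) ^ ((κ q - κ r) + (κ r - κ q)) * (1 / 2 : ℝ) ^ κ q) :=
        mul_le_mul_of_nonneg_left h2 h3
    _ = _ := by rw [← h1]; ring

theorem tg4_rho' (κ : ℕ → ℕ) (q r : ℕ) :
    (rd r q : ℝ) * rho κ q ≤
      ((2 : ℝ) ^ ((κ q - κ r) + (κ r - κ q)) * (rd q r : ℝ)) * rho κ r := by
  have h := tg4_rho κ r q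
  rwa [add_comm (κ r - κ q)] at h

theorem tg4_rho_le (κ : ℕ → ℕ) (q r : ℕ) (hq : 1 ≤ q) (hr : 1 ≤ r) :
    rho κ q ≤ VV κ q r * rho κ r := by
  have h1 := tg4_rho' κ q r
  have h2 : (1 : ℝ) ≤ (rd r q : ℝ) := by
    have : 0 < rd r q := rd_pos hr
    exact_mod_cast this
  have h3 := rho_pos κ q hq
  have h4 := rho_pos κ r hr
  have h5 := mul_le_mul_of_nonneg_right (tg4_pow_m_le κ q r) h4.le
  nlinarith

theorem tg4_lin (γ : ℝ) (κ : ℕ → ℕ) (q r : ℕ) (x : ℝ)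
    (h1 : nd (q * x - γ) ≤ rho κ q) (h2 : nd (r * x - γ) ≤ rho κ r) :
    |((rd r q : ℝ) * (round (q * x - γ) : ℝ) - (rd q r : ℝ) * (round (r * x - γ) : ℝ)) +
      γ * ((rd r q : ℝ) - rd q r)| ≤ (rd r q : ℝ) * rho κ q + (rd q r : ℝ) * rho κ r := by
  have e1 : (q : ℝ) * rd r q = r * rd q r := by exact_mod_cast rd_mul r q
  have e : ((rd r q : ℝ) * (round (q * x - γ) : ℝ) - (rd q r : ℝ) * (round (r * x - γ) : ℝ)) +
      γ * ((rd r q : ℝ) - rd q r) =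
      (rd q r : ℝ) * ((r * x - γ) - (round (r * x - γ) : ℝ)) -
        (rd r q : ℝ) * ((q * x - γ) - (round (q * x - γ) : ℝ)) := by
    linear_combination x * e1
  rw [e]
  unfold nd at h1 h2
  have a1 : |(rd q r : ℝ) * ((r * x - γ) - (round (r * x - γ) : ℝ))| ≤
      (rd q r : ℝ) * rho κ r := by
    rw [abs_mul, Nat.abs_cast]
    exact mul_le_mul_of_nonneg_left h2 (Nat.cast_nonneg _)
  have a2 : |(rd r q : ℝ) * ((q * x - γ) - (round (q * x - γ) : ℝ))| ≤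
      (rd r q : ℝ) * rho κ q := by
    rw [abs_mul, Nat.abs_cast]
    exact mul_le_mul_of_nonneg_left h1 (Nat.cast_nonneg _)
  have := abs_sub ((rd q r : ℝ) * ((r * x - γ) - (round (r * x - γ) : ℝ)))
    ((rd r q : ℝ) * ((q * x - γ) - (round (q * x - γ) : ℝ)))
  linarith

/-- the quotient `η / ρ` -/
theorem tg4_eta_div (A B E η ρ ρ' : ℝ) (hρ : 0 < ρ) (h : η ≤ A * ρ + B * ρ')
    (h2 : B * ρ' ≤ E * ρ) (V : ℝ) (hA : A ≤ V) (hE : E ≤ V) : 1 / ρ * η ≤ 2 * V := by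
  rw [one_div, inv_mul_le_iff₀ hρ]
  nlinarith

/-- [IDE-TG4] **`H = 0`, same denominators.**

PROOF.  `N = N_q = N_r` (so `den`, `num`, `eta` agree: `tP`, `eta` are functions of `den`), `u_q = N b + P`,
`u_r = N b' + P`; `H = N (m' u_q - m u_r) = 0`, so `m' u_q = m u_r`, `u_q = m k`, `u_r = m' k`
(`m, m'` coprime).  `N ∣ u_q - u_r = (m - m') k` and `gcd (k, N) ∣ gcd (u_q, N) = gcd (P, N) = 1`, so
`N ∣ m - m'`, `m ≠ m'` (as `q ≠ r`), `N ≤ |m - m'| ≤ M ≤ V`.  `N (h + γ (m'-m)) = (m'-m)(Nγ - P)`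
(`N h = -(m'-m) P`), so `|m'-m| η ≤ N (m' ρ_q + m ρ_r) ≤ |m'-m| (m' ρ_q + m ρ_r)`,
`η ≤ m' ρ_q + m ρ_r`, `η/ρ_q ≤ m' + m ρ_r/ρ_q = m' + m' 2^{κ q - κ r} ≤ 2V`; the same for `r`.  So
`Z_q, Z_r ≤ 2V`. -/
theorem zero_same (γ : ℝ) (κ : ℕ → ℕ) (q r : ℕ) (hq : Adm κ q) (hr : Adm κ r) (hqr : q ≠ r)
    (x : ℝ) (h1 : nd (q * x - γ) ≤ rho κ q) (h2 : nd (r * x - γ) ≤ rho κ r)
    (hH : Hx γ κ q r x = 0) (hN : tN γ κ q = tN γ κ r) :
    tZ γ κ q ≤ 2 * VV κ q r ∧ tZ γ κ r ≤ 2 * VV κ q r := by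
  have hq1 := hq.1
  have hr1 := hr.1
  set m := rd q r with hm
  set m' := rd r q with hm'
  have hmpos : 0 < m := rd_pos hq1
  have hmpos' : 0 < m' := rd_pos hr1
  have hcop : Nat.Coprime m m' := rd_coprime hq1
  -- same numerators and etas
  have hden : den γ (tT κ q) = den γ (tT κ r) := hN
  have hP : tP γ κ q = tP γ κ r := by
    unfold tP num
    rw [hden]
  have heta : eta γ (tT κ q) = eta γ (tT κ r) := by
    unfold eta
    rw [hden]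
  set N := tN γ κ r with hNdef
  set P := tP γ κ r with hPdef
  have hN1 : 1 ≤ N := one_le_tN γ κ r hr
  have hcopN : IsCoprime (N : ℤ) P := num_coprime γ (tT κ r) (by linarith [one_le_tT κ r hr])
  set b : ℤ := round ((q : ℝ) * x - γ) with hb
  set b' : ℤ := round ((r : ℝ) * x - γ) with hb'
  have hH' : (N : ℤ) * m' * ((N : ℤ) * b + P) - (N : ℤ) * m * ((N : ℤ) * b' + P) = 0 := by
    have := hH
    unfold Hx HH at this
    rw [hN, hP] at this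
    exact this
  have hN0 : (N : ℤ) ≠ 0 := by
    have : N ≠ 0 := by omega
    exact_mod_cast this
  have hu : (m' : ℤ) * ((N : ℤ) * b + P) = (m : ℤ) * ((N : ℤ) * b' + P) := by
    have h3 : (N : ℤ) * ((m' : ℤ) * ((N : ℤ) * b + P) - (m : ℤ) * ((N : ℤ) * b' + P)) = 0 := by
      linear_combination hH'
    have h4 := (mul_eq_zero.1 h3).resolve_left hN0
    linarith
  have hcopZ : IsCoprime (m : ℤ) (m' : ℤ) := Nat.isCoprime_iff_coprime.2 hcop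
  obtain ⟨k, hk⟩ : (m : ℤ) ∣ (N : ℤ) * b + P := by
    have h3 : (m : ℤ) ∣ (m' : ℤ) * ((N : ℤ) * b + P) := ⟨_, hu⟩
    exact hcopZ.dvd_of_dvd_mul_left h3
  have hm0 : (m : ℤ) ≠ 0 := by exact_mod_cast hmpos.ne'
  have hk' : (N : ℤ) * b' + P = (m' : ℤ) * k := by
    have h3 : (m : ℤ) * ((N : ℤ) * b' + P) = (m : ℤ) * ((m' : ℤ) * k) := by
      rw [← hu, hk]
      ring
    exact mul_left_cancel₀ hm0 h3
  have hcopk : IsCoprime (N : ℤ) k := by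
    have h3 : IsCoprime (N : ℤ) ((N : ℤ) * b + P) := by
      have := hcopN.add_mul_left_right b
      rwa [add_comm] at this
    rw [hk] at h3
    exact h3.of_mul_right_right
  have hdvd : (N : ℤ) ∣ (m : ℤ) - m' := by
    have h3 : (N : ℤ) ∣ ((m : ℤ) - m') * k := ⟨b - b', by linear_combination hk' - hk⟩
    exact hcopk.dvd_of_dvd_mul_right h3
  have hne : m ≠ m' := by
    intro h
    have h3 : m * Nat.gcd q r = q := rd_mul_gcd q r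
    have h4 : m' * Nat.gcd q r = r := by
      have := rd_mul_gcd r q
      rwa [Nat.gcd_comm] at this
    exact hqr (h3.symm.trans ((congrArg (fun y => y * Nat.gcd q r) h).trans h4))
  have hneZ : (m : ℤ) - m' ≠ 0 := by
    intro h
    apply hne
    have : (m : ℤ) = m' := by linarith
    exact_mod_cast this
  have hNle : (N : ℤ) ≤ |(m : ℤ) - m'| :=
    Int.le_of_dvd (abs_pos.2 hneZ) ((dvd_abs _ _).2 hdvd)
  have hNleR : (N : ℝ) ≤ |(m : ℝ) - m'| := by exact_mod_cast hNle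
  have habsle : |(m : ℝ) - m'| ≤ max (m : ℝ) (m' : ℝ) := by
    rw [abs_le]
    have h1 : (0 : ℝ) < m := by exact_mod_cast hmpos
    have h2 : (0 : ℝ) < m' := by exact_mod_cast hmpos'
    constructor
    · have := le_max_right (m : ℝ) (m' : ℝ)
      linarith
    · have := le_max_left (m : ℝ) (m' : ℝ)
      linarith
  have hV1 := tg4_one_le κ q r hq1
  have hVmax := tg4_max_le κ q r
  have hNV : (N : ℝ) ≤ VV κ q r := (hNleR.trans habsle).trans hVmax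
  -- the bound for eta
  have hlin := tg4_lin γ κ q r x h1 h2
  have hη0 : 0 ≤ eta γ (tT κ r) := eta_nonneg _ _
  have hηdef : |(N : ℝ) * γ - P| = eta γ (tT κ r) := abs_den_sub_num γ (tT κ r)
  have hNh : (N : ℝ) * (((m' : ℝ) * (b : ℝ) - (m : ℝ) * (b' : ℝ)) + γ * ((m' : ℝ) - m)) =
      ((m' : ℝ) - m) * ((N : ℝ) * γ - P) := by
    have h3 : (m' : ℝ) * ((N : ℝ) * b + P) = (m : ℝ) * ((N : ℝ) * b' + P) := by
      exact_mod_cast hu
    linear_combination h3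
  have hNpos : (0 : ℝ) < N := by exact_mod_cast hN1
  have habspos : 0 < |(m : ℝ) - m'| := lt_of_lt_of_le hNpos hNleR
  have hη : eta γ (tT κ r) ≤ (m' : ℝ) * rho κ q + (m : ℝ) * rho κ r := by
    have h3 : |(m : ℝ) - m'| * eta γ (tT κ r) =
        (N : ℝ) * |((m' : ℝ) * (b : ℝ) - (m : ℝ) * (b' : ℝ)) + γ * ((m' : ℝ) - m)| := by
      have e : (N : ℝ) * |((m' : ℝ) * (b : ℝ) - (m : ℝ) * (b' : ℝ)) + γ * ((m' : ℝ) - m)| =
          |(N : ℝ) * (((m' : ℝ) * (b : ℝ) - (m : ℝ) * (b' : ℝ)) + γ * ((m' : ℝ) - m))| := by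
        rw [abs_mul, Nat.abs_cast]
      rw [e, hNh, abs_mul, hηdef, abs_sub_comm (m : ℝ) (m' : ℝ)]
    have h4 : |(m : ℝ) - m'| * eta γ (tT κ r) ≤
        |(m : ℝ) - m'| * ((m' : ℝ) * rho κ q + (m : ℝ) * rho κ r) := by
      rw [h3]
      have h5 : 0 ≤ (m' : ℝ) * rho κ q + (m : ℝ) * rho κ r := le_trans (abs_nonneg _) hlin
      exact (mul_le_mul_of_nonneg_left hlin hNpos.le).trans
        (mul_le_mul_of_nonneg_right hNleR h5)
    exact le_of_mul_le_mul_left h4 habspos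
  constructor
  · unfold tZ
    refine max_le ?_ ?_
    · rw [hN]
      linarith
    · rw [heta]
      refine tg4_eta_div (m' : ℝ) (m : ℝ)
        ((2 : ℝ) ^ ((κ q - κ r) + (κ r - κ q)) * (m' : ℝ)) _ _ (rho κ r) (rho_pos κ q hq1)
        hη (tg4_rho κ q r) _ (tg4_m'_le κ q r) (tg4_pow_m'_le κ q r)
  · unfold tZ
    refine max_le ?_ ?_
    · linarith
    · refine tg4_eta_div (m : ℝ) (m' : ℝ)
        ((2 : ℝ) ^ ((κ q - κ r) + (κ r - κ q)) * (m : ℝ)) _ _ (rho κ q) (rho_pos κ r hr1)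
        (by linarith) (tg4_rho' κ q r) _ (tg4_m_le κ q r) (tg4_pow_m_le κ q r)

/-- [IDE-TG4] **`H = 0`, different denominators.**

PROOF.  Let `N_q < N_r`; `T_q < T_r` (`two_den`).  `T_r/T_q = (ρ_q/ρ_r)^{7/16} ≤ V^{7/16} ≤ V`
(`ρ_q/ρ_r = (m/m') 2^{κ r - κ q} ≤ V`), `G = gcd(N_q, N_r) ≤ T_r/T_q + 1 ≤ 2V`.
`N_r m' u_q = N_q m u_r` and `gcd (u_q, N_q) = gcd (P_q, N_q) = 1`, so `N_q ∣ N_r m'`, `N_q/G ∣ m'`,
`N_q ≤ G M ≤ 2V²`; in the same way `N_r/G ∣ m`, `N_r ≤ 2V²`.  `two_den`: `1 ≤ 2 N_r η_q` and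
`η_q ≤ 1/T_q = ρ_q^{7/16}`, so `(1/ρ_q)^{7/16} ≤ 2 N_r ≤ 4V²`, `1/ρ_q ≤ (4V²)^{16/7} ≤ 24 V^5`,
`1/ρ_r ≤ V/ρ_q ≤ 24 V^6`.  As `eta ≤ 1/2`: `Z_q, Z_r ≤ max (2V², 12 V^6) ≤ 24 V^6`. -/
theorem zero_diff (γ : ℝ) (κ : ℕ → ℕ) (q r : ℕ) (hq : Adm κ q) (hr : Adm κ r) (hqr : q ≠ r)
    (x : ℝ) (h1 : nd (q * x - γ) ≤ rho κ q) (h2 : nd (r * x - γ) ≤ rho κ r)
    (hH : Hx γ κ q r x = 0) (hN : tN γ κ q < tN γ κ r) :
    tZ γ κ q ≤ 24 * (VV κ q r) ^ 6 ∧ tZ γ κ r ≤ 24 * (VV κ q r) ^ 6 := by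
  have hq1 := hq.1
  have hr1 := hr.1
  have hTq := one_le_tT κ q hq
  have hTr := one_le_tT κ r hr
  obtain ⟨-, hη1, -, hgcd⟩ := two_den γ (tT κ q) (tT κ r) hTq hTr hN
  set V := VV κ q r with hV
  have hV1 : 1 ≤ V := tg4_one_le κ q r hq1
  have hρq := rho_pos κ q hq1
  have hρr := rho_pos κ r hr1
  have hρ : rho κ q ≤ V * rho κ r := tg4_rho_le κ q r hq1 hr1
  -- the quotient of the scales
  have hTT : tT κ r / tT κ q ≤ V := by
    have e : tT κ r = (rho κ q / rho κ r) ^ ((7 : ℝ) / 16) * tT κ q := by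
      unfold tT
      rw [← Real.mul_rpow (by positivity) (by positivity)]
      congr 1
      field_simp
    have h3 : rho κ q / rho κ r ≤ V := by rwa [div_le_iff₀ hρr]
    have h4 : (rho κ q / rho κ r) ^ ((7 : ℝ) / 16) ≤ V := by
      calc (rho κ q / rho κ r) ^ ((7 : ℝ) / 16) ≤ V ^ ((7 : ℝ) / 16) :=
            Real.rpow_le_rpow (by positivity) h3 (by norm_num)
        _ ≤ V ^ (1 : ℝ) := Real.rpow_le_rpow_of_exponent_le hV1 (by norm_num)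
        _ = V := Real.rpow_one V
    rw [div_le_iff₀ (by linarith)]
    rw [e]
    exact mul_le_mul_of_nonneg_right h4 (by linarith)
  have hNq1 : 1 ≤ tN γ κ q := one_le_tN γ κ q hq
  have hNr1 : 1 ≤ tN γ κ r := one_le_tN γ κ r hr
  have hG : (Nat.gcd (tN γ κ q) (tN γ κ r) : ℝ) ≤ 2 * V := by
    have : (Nat.gcd (tN γ κ q) (tN γ κ r) : ℝ) ≤ tT κ r / tT κ q + 1 := hgcd
    linarith
  have hcq : IsCoprime ((tN γ κ q : ℕ) : ℤ) (tP γ κ q) :=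
    num_coprime γ (tT κ q) (by linarith)
  have hcr : IsCoprime ((tN γ κ r : ℕ) : ℤ) (tP γ κ r) :=
    num_coprime γ (tT κ r) (by linarith)
  set Nq := tN γ κ q with hNq
  set Nr := tN γ κ r with hNr
  set m := rd q r with hm
  set m' := rd r q with hm'
  have hmpos : 0 < m := rd_pos hq1
  have hmpos' : 0 < m' := rd_pos hr1
  set b : ℤ := round ((q : ℝ) * x - γ) with hb
  set b' : ℤ := round ((r : ℝ) * x - γ) with hb'
  have hH' : (Nr : ℤ) * m' * ((Nq : ℤ) * b + tP γ κ q) =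
      (Nq : ℤ) * m * ((Nr : ℤ) * b' + tP γ κ r) := by
    have := hH
    unfold Hx HH at this
    exact sub_eq_zero.1 this
  have hd1 : Nq ∣ Nr * m' := by
    have h3 : IsCoprime (Nq : ℤ) ((Nq : ℤ) * b + tP γ κ q) := by
      have := hcq.add_mul_left_right b
      rwa [add_comm] at this
    have h4 : (Nq : ℤ) ∣ (Nr : ℤ) * m' * ((Nq : ℤ) * b + tP γ κ q) :=
      ⟨m * ((Nr : ℤ) * b' + tP γ κ r), by rw [hH']; ring⟩
    have h5 := h3.dvd_of_dvd_mul_right h4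
    exact_mod_cast h5
  have hd2 : Nr ∣ Nq * m := by
    have h3 : IsCoprime (Nr : ℤ) ((Nr : ℤ) * b' + tP γ κ r) := by
      have := hcr.add_mul_left_right b'
      rwa [add_comm] at this
    have h4 : (Nr : ℤ) ∣ (Nq : ℤ) * m * ((Nr : ℤ) * b' + tP γ κ r) :=
      ⟨m' * ((Nq : ℤ) * b + tP γ κ q), by rw [← hH']; ring⟩
    have h5 := h3.dvd_of_dvd_mul_right h4
    exact_mod_cast h5
  have hb1 : Nq ≤ Nat.gcd Nq Nr * m' := by
    have h3 : Nq ∣ Nat.gcd (Nq * m') (Nr * m') := Nat.dvd_gcd (dvd_mul_right _ _) hd1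
    rw [Nat.gcd_mul_right] at h3
    refine Nat.le_of_dvd (Nat.mul_pos (Nat.gcd_pos_of_pos_left _ hNq1) hmpos') h3
  have hb2 : Nr ≤ Nat.gcd Nq Nr * m := by
    have h3 : Nr ∣ Nat.gcd (Nq * m) (Nr * m) := Nat.dvd_gcd hd2 (dvd_mul_right _ _)
    rw [Nat.gcd_mul_right] at h3
    refine Nat.le_of_dvd (Nat.mul_pos (Nat.gcd_pos_of_pos_left _ hNq1) hmpos) h3
  have hmV : (m : ℝ) ≤ V := tg4_m_le κ q r
  have hmV' : (m' : ℝ) ≤ V := tg4_m'_le κ q r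
  have hNqV : (Nq : ℝ) ≤ 2 * V ^ 2 := by
    have h3 : (Nq : ℝ) ≤ (Nat.gcd Nq Nr : ℝ) * m' := by exact_mod_cast hb1
    have h4 : (Nat.gcd Nq Nr : ℝ) * m' ≤ (2 * V) * V :=
      mul_le_mul hG hmV' (Nat.cast_nonneg _) (by linarith)
    linarith [h3.trans h4]
  have hNrV : (Nr : ℝ) ≤ 2 * V ^ 2 := by
    have h3 : (Nr : ℝ) ≤ (Nat.gcd Nq Nr : ℝ) * m := by exact_mod_cast hb2
    have h4 : (Nat.gcd Nq Nr : ℝ) * m ≤ (2 * V) * V :=
      mul_le_mul hG hmV (Nat.cast_nonneg _) (by linarith)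
    linarith [h3.trans h4]
  -- the size of 1/rho
  have hTq0 : 0 < tT κ q := by linarith
  have hT4 : tT κ q ≤ 4 * V ^ 2 := by
    have h3 : eta γ (tT κ q) ≤ 1 / tT κ q := eta_le γ _ hTq0
    have h4 : 1 ≤ 2 * (Nr : ℝ) * (1 / tT κ q) :=
      hη1.trans (mul_le_mul_of_nonneg_left h3 (by positivity))
    have h5 : 2 * (Nr : ℝ) * (1 / tT κ q) * tT κ q = 2 * (Nr : ℝ) := by
      field_simp
    nlinarith
  have hρinv : 1 / rho κ q ≤ 24 * V ^ 5 := by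
    have h3 : (1 / rho κ q) ^ 7 = (tT κ q) ^ 16 := by
      unfold tT
      rw [← Real.rpow_natCast ((1 / rho κ q) ^ ((7 : ℝ) / 16)) 16, ← Real.rpow_mul (by positivity),
        ← Real.rpow_natCast]
      norm_num
    have h4 : (tT κ q) ^ 16 ≤ (4 * V ^ 2) ^ 16 := pow_le_pow_left₀ hTq0.le hT4 16
    have h5 : (4 * V ^ 2) ^ 16 ≤ (24 * V ^ 5) ^ 7 := by
      have e1 : (4 * V ^ 2) ^ 16 = 4294967296 * V ^ 32 := by ring
      have e2 : (24 * V ^ 5) ^ 7 = 4586471424 * V ^ 35 := by ring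
      rw [e1, e2]
      have h6 : V ^ 32 ≤ V ^ 35 := pow_le_pow_right₀ hV1 (by norm_num)
      have h7 : 0 ≤ V ^ 32 := by positivity
      nlinarith
    have h6 : (1 / rho κ q) ^ 7 ≤ (24 * V ^ 5) ^ 7 := by
      rw [h3]
      exact h4.trans h5
    exact le_of_pow_le_pow_left₀ (by norm_num) (by positivity) h6
  have hV56 : V ^ 5 ≤ V ^ 6 := pow_le_pow_right₀ hV1 (by norm_num)
  have hV26 : V ^ 2 ≤ V ^ 6 := pow_le_pow_right₀ hV1 (by norm_num)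
  have hV6 : 0 ≤ V ^ 6 := by positivity
  have hρinv' : 1 / rho κ r ≤ 24 * V ^ 6 := by
    have h3 : 1 / rho κ r ≤ V * (1 / rho κ q) := by
      rw [div_le_iff₀ hρr]
      have e : V * (1 / rho κ q) * rho κ r = (V * rho κ r) / rho κ q := by ring
      rw [e, le_div_iff₀ hρq, one_mul]
      exact hρ
    have h4 : V * (1 / rho κ q) ≤ V * (24 * V ^ 5) :=
      mul_le_mul_of_nonneg_left hρinv (by linarith)
    have e : V * (24 * V ^ 5) = 24 * V ^ 6 := by ring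
    linarith
  have hηq : eta γ (tT κ q) ≤ 1 / 2 := nd_le_half _
  have hηr : eta γ (tT κ r) ≤ 1 / 2 := nd_le_half _
  constructor
  · unfold tZ
    refine max_le (by linarith) ?_
    have h3 : 1 / rho κ q * eta γ (tT κ q) ≤ 1 / rho κ q * (1 / 2) :=
      mul_le_mul_of_nonneg_left hηq (by positivity)
    linarith
  · unfold tZ
    refine max_le (by linarith) ?_
    have h3 : 1 / rho κ r * eta γ (tT κ r) ≤ 1 / rho κ r * (1 / 2) :=
      mul_le_mul_of_nonneg_left hηr (by positivity)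
    linarith

/-- [IDE-TG4] PROOF. The two cases (`HH_swap`; `VV` is symmetric and `≥ 1`). -/
theorem zero_bound (γ : ℝ) (κ : ℕ → ℕ) (q r : ℕ) (hq : Adm κ q) (hr : Adm κ r) (hqr : q ≠ r)
    (x : ℝ) (h1 : nd (q * x - γ) ≤ rho κ q) (h2 : nd (r * x - γ) ≤ rho κ r)
    (hH : Hx γ κ q r x = 0) :
    tZ γ κ q ≤ 24 * (VV κ q r) ^ 6 ∧ tZ γ κ r ≤ 24 * (VV κ q r) ^ 6 := by
  have hV1 : 1 ≤ VV κ q r := tg4_one_le κ q r hq.1
  rcases lt_trichotomy (tN γ κ q) (tN γ κ r) with h | h | h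
  · exact zero_diff γ κ q r hq hr hqr x h1 h2 hH h
  · obtain ⟨h3, h4⟩ := zero_same γ κ q r hq hr hqr x h1 h2 hH h
    have h5 : VV κ q r ≤ (VV κ q r) ^ 6 := le_self_pow₀ hV1 (by norm_num)
    constructor <;> linarith
  · have hH2 : Hx γ κ r q x = 0 := by
      unfold Hx at hH ⊢
      rw [HH_swap, hH, neg_zero]
    have h3 := zero_diff γ κ r q hr hq hqr.symm x h2 h1 hH2 h
    rw [tg4_symm] at h3
    exact ⟨h3.2, h3.1⟩

end Pool.Agent.IDE
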