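import Pool.Agent.IDE.SC1
import Pool.Agent.IDE.D3
import Pool.Agent.IDE.TG4

set_option autoImplicit false

namespace Pool.Agent.IDE

open Finset Pool.Agent.IDS

/-- the condition on `(q, r)` for a nonempty part `H = 0` -/
def SMc (γ : ℝ) (κ : ℕ → ℕ) (q r : ℕ) : Prop :=
  tZ γ κ q ≤ 24 * (VV κ q r) ^ 6 ∧ tZ γ κ r ≤ 24 * (VV κ q r) ^ 6 ∧
    (∀ p : ℕ, p.Prime → p ∣ rd q r → (p : ℝ) ≤ Real.log (tZ γ κ q) ∨ p ∣ tN γ κ r) ∧
    (∀ p : ℕ, p.Prime → p ∣ rd r q → (p : ℝ) ≤ Real.log (tZ γ κ r) ∨ p ∣ tN γ κ q)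

/-- the Schur kernel -/
noncomputable def KS (κ : ℕ → ℕ) (q r : ℕ) : ℝ :=
  2 * ((2 : ℝ) ^ ((κ q - κ r) + (κ r - κ q))) ^ (-(1 : ℝ) / 2) *
    ((rd q r : ℝ) * rd r q) ^ (-(1 : ℝ) / 2) * Real.sqrt (Fw (rd q r) * Fw (rd r q))

private theorem sr_Fw_nonneg (n : ℕ) : 0 ≤ Fw n := by unfold Fw; positivity

private theorem sr_Fw_one {n : ℕ} (hn : 1 ≤ n) : 1 ≤ Fw n := by
  unfold Fw
  have h1 : (0 : ℝ) < Nat.totient n := by exact_mod_cast Nat.totient_pos.2 (by omega)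
  rw [le_div_iff₀ h1, one_mul]
  exact_mod_cast Nat.totient_le n

private theorem sr_rd_pos {a : ℕ} (b : ℕ) (ha : 1 ≤ a) : 1 ≤ rd a b := by
  unfold rd
  exact Nat.div_pos (Nat.gcd_le_left b (by omega)) (Nat.gcd_pos_of_pos_left b (by omega))

private theorem sr_rd_mul (a b : ℕ) : b * rd a b = a * rd b a := by
  unfold rd
  rw [Nat.gcd_comm b a, ← Nat.mul_div_assoc b (Nat.gcd_dvd_left a b),
    ← Nat.mul_div_assoc a (Nat.gcd_dvd_right a b), mul_comm]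

/-- `VV` as a natural number -/
private def sr_V (κ : ℕ → ℕ) (q r : ℕ) : ℕ :=
  2 ^ ((κ q - κ r) + (κ r - κ q)) * max (rd q r) (rd r q)

private theorem sr_V_cast (κ : ℕ → ℕ) (q r : ℕ) : ((sr_V κ q r : ℕ) : ℝ) = VV κ q r := by
  unfold sr_V VV
  push_cast
  rfl

private noncomputable def sr_f (n : ℕ) : ℝ := (n : ℝ) ^ (-(1 : ℝ) / 4) * Fw n

private theorem sr_f_nonneg (n : ℕ) : 0 ≤ sr_f n :=
  mul_nonneg (Real.rpow_nonneg (Nat.cast_nonneg n) _) (sr_Fw_nonneg n)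

private theorem sr_kernel (κ : ℕ → ℕ) (q r : ℕ) (hq : 1 ≤ q) (hr : 1 ≤ r) :
    KS κ q r ≤ 2 * ((2 : ℝ) ^ (Nat.log 2 (sr_V κ q r))) ^ (-(1 : ℝ) / 4) *
      (sr_f (rd q r) * sr_f (rd r q)) := by
  have hm : 1 ≤ rd q r := sr_rd_pos r hq
  have hm' : 1 ≤ rd r q := sr_rd_pos q hr
  have hV0 : sr_V κ q r ≠ 0 := by
    unfold sr_V
    have : 0 < max (rd q r) (rd r q) := lt_max_of_lt_left (by omega)
    positivity
  have hJ : (2 : ℝ) ^ (Nat.log 2 (sr_V κ q r)) ≤ VV κ q r := by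
    rw [← sr_V_cast]
    exact_mod_cast Nat.pow_log_le_self 2 hV0
  unfold KS sr_f
  have hFm := sr_Fw_one hm
  have hFm' := sr_Fw_one hm'
  unfold VV at hJ
  set a : ℝ := (2 : ℝ) ^ ((κ q - κ r) + (κ r - κ q)) with ha
  set m : ℝ := (rd q r : ℝ) with hmdef
  set m' : ℝ := (rd r q : ℝ) with hmdef'
  have ha1 : 1 ≤ a := one_le_pow₀ (by norm_num)
  have hm1 : 1 ≤ m := by rw [hmdef]; exact_mod_cast hm
  have hm1' : 1 ≤ m' := by rw [hmdef']; exact_mod_cast hm'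
  have hM1 : 1 ≤ max m m' := le_max_of_le_left hm1
  have e1 : a ^ (-(1 : ℝ) / 2) ≤ a ^ (-(1 : ℝ) / 4) :=
    Real.rpow_le_rpow_of_exponent_le ha1 (by norm_num)
  have e2 : (m * m') ^ (-(1 : ℝ) / 2) ≤ (max m m') ^ (-(1 : ℝ) / 4) *
      (m ^ (-(1 : ℝ) / 4) * m' ^ (-(1 : ℝ) / 4)) := by
    have h1 : (m * m') ^ (-(1 : ℝ) / 2) = (m * m') ^ (-(1 : ℝ) / 4) * (m * m') ^ (-(1 : ℝ) / 4) := by
      rw [← Real.rpow_add (by positivity)]
      norm_num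
    have h2 : m ^ (-(1 : ℝ) / 4) * m' ^ (-(1 : ℝ) / 4) = (m * m') ^ (-(1 : ℝ) / 4) :=
      (Real.mul_rpow (by positivity) (by positivity)).symm
    rw [h1, h2]
    have pp : 0 ≤ (m * m') ^ (-(1 : ℝ) / 4) := by positivity
    refine mul_le_mul_of_nonneg_right ?_ pp
    refine Real.rpow_le_rpow_of_nonpos (by positivity) ?_ (by norm_num)
    exact max_le (by nlinarith) (by nlinarith)
  have e3 : Real.sqrt (Fw (rd q r) * Fw (rd r q)) ≤ Fw (rd q r) * Fw (rd r q) := by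
    rw [Real.sqrt_le_iff]
    have : 1 ≤ Fw (rd q r) * Fw (rd r q) := by nlinarith
    exact ⟨by linarith, by nlinarith⟩
  have e4 : a ^ (-(1 : ℝ) / 4) * (max m m') ^ (-(1 : ℝ) / 4) ≤
      ((2 : ℝ) ^ (Nat.log 2 (sr_V κ q r))) ^ (-(1 : ℝ) / 4) := by
    rw [← Real.mul_rpow (by positivity) (by positivity)]
    exact Real.rpow_le_rpow_of_nonpos (by positivity) hJ (by norm_num)
  have p1 : 0 ≤ a ^ (-(1 : ℝ) / 2) := by positivity
  have p2 : 0 ≤ (m * m') ^ (-(1 : ℝ) / 2) := by positivity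
  have p3 : 0 ≤ Real.sqrt (Fw (rd q r) * Fw (rd r q)) := Real.sqrt_nonneg _
  calc 2 * a ^ (-(1 : ℝ) / 2) * (m * m') ^ (-(1 : ℝ) / 2) * Real.sqrt (Fw (rd q r) * Fw (rd r q))
      ≤ 2 * a ^ (-(1 : ℝ) / 4) * ((max m m') ^ (-(1 : ℝ) / 4) *
        (m ^ (-(1 : ℝ) / 4) * m' ^ (-(1 : ℝ) / 4))) * (Fw (rd q r) * Fw (rd r q)) := by
        gcongr
    _ = 2 * (a ^ (-(1 : ℝ) / 4) * (max m m') ^ (-(1 : ℝ) / 4)) *
        (m ^ (-(1 : ℝ) / 4) * Fw (rd q r) * (m' ^ (-(1 : ℝ) / 4) * Fw (rd r q))) := by ring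
    _ ≤ 2 * ((2 : ℝ) ^ (Nat.log 2 (sr_V κ q r))) ^ (-(1 : ℝ) / 4) *
        (m ^ (-(1 : ℝ) / 4) * Fw (rd q r) * (m' ^ (-(1 : ℝ) / 4) * Fw (rd r q))) := by
        gcongr

private theorem sr_pairs (q : ℕ) (hq : 1 ≤ q) (G : Finset ℕ) :
    ∑ r ∈ G, sr_f (rd q r) * sr_f (rd r q) ≤
      (∑ a ∈ G.image (fun r => rd q r), sr_f a) * (∑ b ∈ G.image (fun r => rd r q), sr_f b) := by
  classical
  have hinj : Set.InjOn (fun r => (rd q r, rd r q)) (G : Set ℕ) := by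
    intro r _ s _ h
    simp only [Prod.mk.injEq] at h
    have h1 := sr_rd_mul q r
    have h2 := sr_rd_mul q s
    rw [h.1, h.2] at h1
    have h3 : 0 < rd q s := sr_rd_pos s hq
    exact Nat.eq_of_mul_eq_mul_right h3 (h1.trans h2.symm)
  rw [Finset.sum_mul_sum, ← Finset.sum_product']
  have : ∑ r ∈ G, sr_f (rd q r) * sr_f (rd r q) =
      ∑ p ∈ G.image (fun r => (rd q r, rd r q)), sr_f p.1 * sr_f p.2 := by
    rw [Finset.sum_image hinj]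
  rw [this]
  refine Finset.sum_le_sum_of_subset_of_nonneg ?_ fun p _ _ =>
    mul_nonneg (sr_f_nonneg _) (sr_f_nonneg _)
  intro p hp
  rw [Finset.mem_image] at hp
  obtain ⟨r, hr, rfl⟩ := hp
  exact Finset.mem_product.2 ⟨Finset.mem_image_of_mem _ hr, Finset.mem_image_of_mem _ hr⟩

private theorem sr_logE (j : ℕ) (x : ℝ) (hx : 1 ≤ x) (h : x ≤ 24 * (2 : ℝ) ^ (6 * (j + 1))) :
    0 ≤ Real.logb 2 x ∧ Real.logb 2 x ≤ 6 * j + 12 ∧ Real.log x ≤ 6 * j + 12 := by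
  have h0 : 0 ≤ Real.logb 2 x := Real.logb_nonneg (by norm_num) hx
  have h1 : Real.logb 2 x ≤ 6 * j + 11 := by
    have : x ≤ (2 : ℝ) ^ ((6 * j + 11 : ℕ) : ℝ) := by
      rw [Real.rpow_natCast]
      calc x ≤ 24 * (2 : ℝ) ^ (6 * (j + 1)) := h
        _ ≤ 32 * (2 : ℝ) ^ (6 * (j + 1)) := by gcongr; norm_num
        _ = (2 : ℝ) ^ (6 * j + 11) := by
          rw [show 6 * j + 11 = 5 + 6 * (j + 1) by ring, pow_add]; norm_num
    have h2 := (Real.logb_le_iff_le_rpow (b := 2) (by norm_num) (by linarith)).2 this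
    push_cast at h2
    exact h2
  refine ⟨h0, by linarith, ?_⟩
  have h2 : Real.log x = Real.logb 2 x * Real.log 2 := by
    rw [Real.logb, div_mul_cancel₀]
    exact (Real.log_pos (by norm_num)).ne'
  rw [h2]
  have h3 : Real.log 2 ≤ 1 := by linarith [Real.log_two_lt_d9]
  have h4 : 0 < Real.log 2 := Real.log_pos (by norm_num)
  nlinarith

/-- the sum over `j` -/
private noncomputable def sr_t (j : ℕ) : ℝ :=
  2 * ((2 : ℝ) ^ j) ^ (-(1 : ℝ) / 4) * (12 * j + 26) *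
    Real.exp (80 * (6 * (j : ℝ) + 12) ^ ((3 : ℝ) / 4))

private theorem sr_t_pos (j : ℕ) : 0 < sr_t j := by unfold sr_t; positivity

private theorem sr_young (x : ℝ) (hx : 0 ≤ x) : x ^ ((3 : ℝ) / 4) ≤ x / 6000 + 6000 ^ 3 := by
  rcases le_total x (6000 ^ 4) with h | h
  · have h1 : x ^ ((3 : ℝ) / 4) ≤ (6000 ^ 4) ^ ((3 : ℝ) / 4) :=
      Real.rpow_le_rpow hx h (by norm_num)
    have h2 : ((6000 : ℝ) ^ 4) ^ ((3 : ℝ) / 4) = 6000 ^ 3 := by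
      rw [← Real.rpow_natCast (6000 : ℝ) 4, ← Real.rpow_mul (by norm_num),
        ← Real.rpow_natCast (6000 : ℝ) 3]
      norm_num
    have : 0 ≤ x / 6000 := by positivity
    linarith
  · have hx0 : 0 < x := lt_of_lt_of_le (by norm_num) h
    have h1 : (6000 : ℝ) ≤ x ^ ((1 : ℝ) / 4) := by
      have : ((6000 : ℝ) ^ 4) ^ ((1 : ℝ) / 4) ≤ x ^ ((1 : ℝ) / 4) :=
        Real.rpow_le_rpow (by norm_num) h (by norm_num)
      have h2 : ((6000 : ℝ) ^ 4) ^ ((1 : ℝ) / 4) = 6000 := by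
        rw [← Real.rpow_natCast (6000 : ℝ) 4, ← Real.rpow_mul (by norm_num)]
        norm_num
      linarith
    have h2 : x ^ ((3 : ℝ) / 4) * x ^ ((1 : ℝ) / 4) = x := by
      rw [← Real.rpow_add hx0]
      norm_num
    have h3 : 0 ≤ x ^ ((3 : ℝ) / 4) := by positivity
    have h4 : x ^ ((3 : ℝ) / 4) * 6000 ≤ x := by nlinarith
    have h5 : (0 : ℝ) ≤ 6000 ^ 3 := by norm_num
    linarith

private theorem sr_summable : Summable sr_t := by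
  have hs0 : Summable (fun j : ℕ => ((j : ℝ) ^ 1) * Real.exp (-(9 / 100 : ℝ) * j)) :=
    Real.summable_pow_mul_exp_neg_nat_mul 1 (by norm_num)
  have hs1 : Summable (fun j : ℕ => ((j : ℝ) ^ 0) * Real.exp (-(9 / 100 : ℝ) * j)) :=
    Real.summable_pow_mul_exp_neg_nat_mul 0 (by norm_num)
  set K : ℝ := Real.exp (80 * (12 / 6000 + 6000 ^ 3)) with hK
  have hs : Summable (fun j : ℕ => (2 * K * 12) * (((j : ℝ) ^ 1) * Real.exp (-(9 / 100 : ℝ) * j)) +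
      (2 * K * 26) * (((j : ℝ) ^ 0) * Real.exp (-(9 / 100 : ℝ) * j))) :=
    (hs0.mul_left _).add (hs1.mul_left _)
  refine Summable.of_nonneg_of_le (fun j => (sr_t_pos j).le) (fun j => ?_) hs
  have h1 : ((2 : ℝ) ^ j) ^ (-(1 : ℝ) / 4) ≤ Real.exp (-(17 / 100 : ℝ) * j) := by
    have : ((2 : ℝ) ^ j) ^ (-(1 : ℝ) / 4) = Real.exp (Real.log 2 * (-(j : ℝ) / 4)) := by
      rw [← Real.rpow_natCast (2 : ℝ) j, ← Real.rpow_mul (by norm_num),
        Real.rpow_def_of_pos (by norm_num)]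
      congr 1
      ring
    rw [this]
    apply Real.exp_le_exp.2
    have := Real.log_two_gt_d9
    have hj : (0 : ℝ) ≤ j := Nat.cast_nonneg j
    nlinarith
  have h2 : Real.exp (80 * (6 * (j : ℝ) + 12) ^ ((3 : ℝ) / 4)) ≤
      K * Real.exp ((8 / 100 : ℝ) * j) := by
    rw [hK, ← Real.exp_add]
    apply Real.exp_le_exp.2
    have := sr_young (6 * (j : ℝ) + 12) (by positivity)
    linarith
  have h3 : Real.exp (-(17 / 100 : ℝ) * j) * Real.exp ((8 / 100 : ℝ) * j) =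
      Real.exp (-(9 / 100 : ℝ) * j) := by
    rw [← Real.exp_add]
    congr 1
    ring
  have hKp : 0 < K := Real.exp_pos _
  have hj : (0 : ℝ) ≤ 12 * j + 26 := by positivity
  calc sr_t j = 2 * ((2 : ℝ) ^ j) ^ (-(1 : ℝ) / 4) * (12 * j + 26) *
        Real.exp (80 * (6 * (j : ℝ) + 12) ^ ((3 : ℝ) / 4)) := rfl
    _ ≤ 2 * Real.exp (-(17 / 100 : ℝ) * j) * (12 * j + 26) *
        (K * Real.exp ((8 / 100 : ℝ) * j)) := by gcongr
    _ = 2 * K * (12 * j + 26) *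
        (Real.exp (-(17 / 100 : ℝ) * j) * Real.exp ((8 / 100 : ℝ) * j)) := by ring
    _ = 2 * K * (12 * j + 26) * Real.exp (-(9 / 100 : ℝ) * j) := by rw [h3]
    _ = _ := by ring

/-- [IDE-SC2] **Row sums of the Schur kernel.** -/
theorem schur_row :
    ∃ C : ℝ, 0 < C ∧ ∀ (γ : ℝ) (κ : ℕ → ℕ) (q : ℕ) (F : Finset ℕ), Adm κ q →
      (∀ r ∈ F, Adm κ r ∧ r ≠ q ∧ SMc γ κ q r) → ∑ r ∈ F, KS κ q r ≤ C := by
  classical
  refine ⟨∑' j, sr_t j, Summable.tsum_pos sr_summable (fun j => (sr_t_pos j).le) 0 (sr_t_pos 0),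
    fun γ κ q F hq hF => ?_⟩
  -- group by `j`
  set J : ℕ → ℕ := fun r => Nat.log 2 (sr_V κ q r) with hJ
  have hw : ∑ r ∈ F, KS κ q r ≤ ∑ r ∈ F, 2 * ((2 : ℝ) ^ (J r)) ^ (-(1 : ℝ) / 4) *
      (sr_f (rd q r) * sr_f (rd r q)) :=
    Finset.sum_le_sum fun r hr => sr_kernel κ q r hq.1 (hF r hr).1.1
  refine hw.trans ?_
  rw [← Finset.sum_fiberwise_of_maps_to (g := J) (t := F.image J)
    (fun r hr => Finset.mem_image_of_mem J hr)]
  refine le_trans ?_ (sr_summable.sum_le_tsum (F.image J) fun j _ => (sr_t_pos j).le)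
  refine Finset.sum_le_sum fun j _ => ?_
  -- bounds for `r` with `J r = j`
  set Fj := F.filter (fun r => J r = j) with hFj
  have hVj : ∀ r ∈ Fj, VV κ q r ≤ (2 : ℝ) ^ (j + 1) ∧ 0 ≤ VV κ q r := by
    intro r hr
    rw [hFj, Finset.mem_filter] at hr
    rw [← sr_V_cast]
    constructor
    · have := Nat.lt_pow_succ_log_self (b := 2) (by norm_num) (sr_V κ q r)
      have h2 : sr_V κ q r ≤ 2 ^ (j + 1) := by
        rw [← hr.2]; exact this.le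
      exact_mod_cast h2
    · positivity
  have hZj : ∀ r ∈ Fj, 24 * (VV κ q r) ^ 6 ≤ 24 * (2 : ℝ) ^ (6 * (j + 1)) := by
    intro r hr
    obtain ⟨h1, h2⟩ := hVj r hr
    have : (2 : ℝ) ^ (6 * (j + 1)) = ((2 : ℝ) ^ (j + 1)) ^ 6 := by rw [← pow_mul, mul_comm]
    rw [this]
    gcongr
  -- group by `N`
  rw [← Finset.sum_fiberwise_of_maps_to (g := fun r => tN γ κ r) (t := Fj.image (fun r => tN γ κ r))
    (fun r hr => Finset.mem_image_of_mem _ hr)]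
  have hcard : ((Fj.image (fun r => tN γ κ r)).card : ℝ) ≤ 12 * j + 26 := by
    have hE : (1 : ℝ) ≤ 24 * (2 : ℝ) ^ (6 * (j + 1)) := by
      have : (1 : ℝ) ≤ (2 : ℝ) ^ (6 * (j + 1)) := one_le_pow₀ (by norm_num)
      linarith
    have h := den_card γ (24 * (2 : ℝ) ^ (6 * (j + 1))) hE (Fj.image (fun r => tN γ κ r)) ?_
    · have h2 := (sr_logE j _ hE le_rfl).2.1
      linarith
    · intro N hN
      rw [Finset.mem_image] at hN
      obtain ⟨r, hr, rfl⟩ := hN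
      have hrF : r ∈ F := (Finset.mem_filter.1 hr).1
      refine ⟨⟨tT κ r, one_le_tT κ r (hF r hrF).1, rfl⟩, ?_⟩
      exact (tN_le_tZ γ κ r).trans ((hF r hrF).2.2.2.1.trans (hZj r hr))
  have hN : ∀ N ∈ Fj.image (fun r => tN γ κ r),
      ∑ r ∈ Fj.filter (fun r => tN γ κ r = N), 2 * ((2 : ℝ) ^ (J r)) ^ (-(1 : ℝ) / 4) *
        (sr_f (rd q r) * sr_f (rd r q)) ≤ 2 * ((2 : ℝ) ^ j) ^ (-(1 : ℝ) / 4) *
          Real.exp (80 * (6 * (j : ℝ) + 12) ^ ((3 : ℝ) / 4)) := by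
    intro N hN
    rw [Finset.mem_image] at hN
    obtain ⟨r₀, hr₀, hr₀N⟩ := hN
    have hr₀F : r₀ ∈ F := (Finset.mem_filter.1 hr₀).1
    set G := Fj.filter (fun r => tN γ κ r = N) with hG
    have hN1 : 1 ≤ N := by rw [← hr₀N]; exact one_le_tN γ κ r₀ (hF r₀ hr₀F).1
    have hNZ : (N : ℝ) ≤ 24 * (2 : ℝ) ^ (6 * (j + 1)) := by
      rw [← hr₀N]
      exact (tN_le_tZ γ κ r₀).trans ((hF r₀ hr₀F).2.2.2.1.trans (hZj r₀ hr₀))
    have hNq1 : 1 ≤ tN γ κ q := one_le_tN γ κ q hq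
    have hNqZ : (tN γ κ q : ℝ) ≤ 24 * (2 : ℝ) ^ (6 * (j + 1)) :=
      (tN_le_tZ γ κ q).trans ((hF r₀ hr₀F).2.2.1.trans (hZj r₀ hr₀))
    have hY : (0 : ℝ) ≤ 6 * (j : ℝ) + 12 := by positivity
    have hA := smooth_sum (6 * (j : ℝ) + 12) hY N hN1 (G.image (fun r => rd q r)) (by
      intro n hn
      rw [Finset.mem_image] at hn
      obtain ⟨r, hr, rfl⟩ := hn
      rw [hG, Finset.mem_filter] at hr
      have hrF : r ∈ F := (Finset.mem_filter.1 hr.1).1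
      refine ⟨sr_rd_pos r hq.1, fun p hp hpd => ?_⟩
      rcases (hF r hrF).2.2.2.2.1 p hp hpd with h | h
      · left
        refine h.trans ?_
        exact (sr_logE j _ (one_le_tZ γ κ q hq) ((hF r hrF).2.2.1.trans (hZj r hr.1))).2.2
      · right
        rw [← hr.2]; exact h)
    have hB := smooth_sum (6 * (j : ℝ) + 12) hY (tN γ κ q) hNq1 (G.image (fun r => rd r q)) (by
      intro n hn
      rw [Finset.mem_image] at hn
      obtain ⟨r, hr, rfl⟩ := hn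
      rw [hG, Finset.mem_filter] at hr
      have hrF : r ∈ F := (Finset.mem_filter.1 hr.1).1
      refine ⟨sr_rd_pos q (hF r hrF).1.1, fun p hp hpd => ?_⟩
      rcases (hF r hrF).2.2.2.2.2 p hp hpd with h | h
      · left
        refine h.trans ?_
        exact (sr_logE j _ (one_le_tZ γ κ r (hF r hrF).1)
          ((hF r hrF).2.2.2.1.trans (hZj r hr.1))).2.2
      · right
        exact h)
    have hlog : ∀ M : ℕ, 1 ≤ M → (M : ℝ) ≤ 24 * (2 : ℝ) ^ (6 * (j + 1)) →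
        Real.exp (20 * ((6 * (j : ℝ) + 12) ^ ((3 : ℝ) / 4) + (Real.logb 2 M) ^ ((3 : ℝ) / 4))) ≤
          Real.exp (40 * (6 * (j : ℝ) + 12) ^ ((3 : ℝ) / 4)) := by
      intro M hM hMZ
      obtain ⟨h1, h2, _⟩ := sr_logE j M (by exact_mod_cast hM) hMZ
      apply Real.exp_le_exp.2
      have : (Real.logb 2 M) ^ ((3 : ℝ) / 4) ≤ (6 * (j : ℝ) + 12) ^ ((3 : ℝ) / 4) :=
        Real.rpow_le_rpow h1 h2 (by norm_num)
      linarith
    have hA' : ∑ a ∈ G.image (fun r => rd q r), sr_f a ≤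
        Real.exp (40 * (6 * (j : ℝ) + 12) ^ ((3 : ℝ) / 4)) := hA.trans (hlog N hN1 hNZ)
    have hB' : ∑ b ∈ G.image (fun r => rd r q), sr_f b ≤
        Real.exp (40 * (6 * (j : ℝ) + 12) ^ ((3 : ℝ) / 4)) := hB.trans (hlog _ hNq1 hNqZ)
    have hJG : ∑ r ∈ G, 2 * ((2 : ℝ) ^ (J r)) ^ (-(1 : ℝ) / 4) *
        (sr_f (rd q r) * sr_f (rd r q)) = 2 * ((2 : ℝ) ^ j) ^ (-(1 : ℝ) / 4) *
          ∑ r ∈ G, (sr_f (rd q r) * sr_f (rd r q)) := by
      rw [Finset.mul_sum]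
      refine Finset.sum_congr rfl fun r hr => ?_
      rw [hG, Finset.mem_filter, hFj, Finset.mem_filter] at hr
      rw [hr.1.2]
    rw [hJG]
    refine mul_le_mul_of_nonneg_left ?_ (by positivity)
    calc ∑ r ∈ G, sr_f (rd q r) * sr_f (rd r q) ≤
        (∑ a ∈ G.image (fun r => rd q r), sr_f a) * (∑ b ∈ G.image (fun r => rd r q), sr_f b) :=
          sr_pairs q hq.1 G
      _ ≤ Real.exp (40 * (6 * (j : ℝ) + 12) ^ ((3 : ℝ) / 4)) *
          Real.exp (40 * (6 * (j : ℝ) + 12) ^ ((3 : ℝ) / 4)) :=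
          mul_le_mul hA' hB' (Finset.sum_nonneg fun b _ => sr_f_nonneg b) (Real.exp_pos _).le
      _ = Real.exp (80 * (6 * (j : ℝ) + 12) ^ ((3 : ℝ) / 4)) := by
          rw [← Real.exp_add]; congr 1; ring
  calc ∑ N ∈ Fj.image (fun r => tN γ κ r),
      ∑ r ∈ Fj.filter (fun r => tN γ κ r = N), 2 * ((2 : ℝ) ^ (J r)) ^ (-(1 : ℝ) / 4) *
        (sr_f (rd q r) * sr_f (rd r q))
      ≤ ∑ N ∈ Fj.image (fun r => tN γ κ r), 2 * ((2 : ℝ) ^ j) ^ (-(1 : ℝ) / 4) *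
          Real.exp (80 * (6 * (j : ℝ) + 12) ^ ((3 : ℝ) / 4)) := Finset.sum_le_sum hN
    _ = ((Fj.image (fun r => tN γ κ r)).card : ℝ) * (2 * ((2 : ℝ) ^ j) ^ (-(1 : ℝ) / 4) *
          Real.exp (80 * (6 * (j : ℝ) + 12) ^ ((3 : ℝ) / 4))) := by
        rw [Finset.sum_const, nsmul_eq_mul]
    _ ≤ (12 * j + 26) * (2 * ((2 : ℝ) ^ j) ^ (-(1 : ℝ) / 4) *
          Real.exp (80 * (6 * (j : ℝ) + 12) ^ ((3 : ℝ) / 4))) :=
        mul_le_mul_of_nonneg_right hcard (by positivity)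
    _ = sr_t j := by unfold sr_t; ring

end Pool.Agent.IDE
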