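import Pool.Agent.IDE.N1
import Pool.Agent.IDS.B2
import Pool.Agent.MP_2f88e5_nt.Selberg

set_option autoImplicit false

namespace Pool.Agent.IDE

open Finset Pool.Agent.IDS
open Pool.Agent.MP_2f88e5_nt (sum_moebius_interval sum_inv_totient)

/-- The squarefree numbers up to `z` coprime to `s`. -/
def sv1D (s z : ℕ) : Finset ℕ := (Icc 1 z).filter (fun d => Nat.Coprime d s ∧ Squarefree d)

/-- The Selberg sum `G`. -/
noncomputable def sv1G (s z : ℕ) : ℝ := ∑ n ∈ sv1D s z, (Nat.totient n : ℝ)⁻¹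

/-- The tail sums of `G`. -/
noncomputable def sv1S (s z d : ℕ) : ℝ :=
  ∑ e ∈ (sv1D s z).filter (fun e => d ∣ e), (Nat.totient e : ℝ)⁻¹

/-- The Selberg weights. -/
noncomputable def sv1L (s z d : ℕ) : ℝ :=
  (ArithmeticFunction.moebius d : ℝ) * (d / sv1G s z) * sv1S s z d

theorem sv1_mem {s z d : ℕ} :
    d ∈ sv1D s z ↔ (1 ≤ d ∧ d ≤ z) ∧ Nat.Coprime d s ∧ Squarefree d := by
  simp [sv1D]

theorem sv1_one_mem {s z : ℕ} (hz : 1 ≤ z) : 1 ∈ sv1D s z := by
  simp [sv1_mem, hz]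

theorem sv1_dvd {s z d e : ℕ} (hd : d ∈ sv1D s z) (h : e ∣ d) : e ∈ sv1D s z := by
  rw [sv1_mem] at hd ⊢
  obtain ⟨⟨h1, h2⟩, h3, h4⟩ := hd
  refine ⟨⟨Nat.pos_of_dvd_of_pos h (by omega), (Nat.le_of_dvd (by omega) h).trans h2⟩,
    Nat.Coprime.coprime_dvd_left h h3, h4.squarefree_of_dvd h⟩

theorem sv1_totient_pos {s z d : ℕ} (hd : d ∈ sv1D s z) : (0 : ℝ) < Nat.totient d := by
  rw [sv1_mem] at hd
  exact_mod_cast Nat.totient_pos.mpr (by omega)

theorem sv1G_pos {s z : ℕ} (hz : 1 ≤ z) : 0 < sv1G s z := by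
  apply Finset.sum_pos
  · intro n hn
    exact inv_pos.mpr (sv1_totient_pos hn)
  · exact ⟨1, sv1_one_mem hz⟩

theorem sv1S_one (s z : ℕ) : sv1S s z 1 = sv1G s z := by
  simp [sv1S, sv1G]

theorem sv1L_one {s z : ℕ} (hz : 1 ≤ z) : sv1L s z 1 = 1 := by
  have := (sv1G_pos (s := s) hz).ne'
  simp [sv1L, sv1S_one, this]

/-- The diagonalising sums. -/
theorem sv1_sum_div {s z e : ℕ} (he : e ∈ sv1D s z) :
    ∑ d ∈ (sv1D s z).filter (fun d => e ∣ d), sv1L s z d / d =
      (ArithmeticFunction.moebius e : ℝ) / (sv1G s z * Nat.totient e) := by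
  have h1 : ∀ d ∈ (sv1D s z).filter (fun d => e ∣ d), sv1L s z d / d =
      (sv1G s z)⁻¹ * ∑ f ∈ sv1D s z, if e ∣ d ∧ d ∣ f then
        (ArithmeticFunction.moebius d : ℝ) * (Nat.totient f : ℝ)⁻¹ else 0 := by
    intro d hd
    rw [mem_filter] at hd
    have hd0 : (d : ℝ) ≠ 0 := by
      have := (sv1_mem.mp hd.1).1.1
      positivity
    rw [sv1L, sv1S, Finset.sum_filter, Finset.mul_sum, Finset.mul_sum, Finset.sum_div]
    apply Finset.sum_congr rfl
    intro f _
    by_cases hdf : d ∣ f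
    · simp only [hdf, hd.2, and_self, if_true]
      field_simp
    · simp [hdf]
  rw [Finset.sum_congr rfl h1, ← Finset.mul_sum, Finset.sum_comm]
  have h2 : ∀ f ∈ sv1D s z, ∑ d ∈ (sv1D s z).filter (fun d => e ∣ d), (if e ∣ d ∧ d ∣ f then
        (ArithmeticFunction.moebius d : ℝ) * (Nat.totient f : ℝ)⁻¹ else 0) =
      if f = e then (ArithmeticFunction.moebius e : ℝ) * (Nat.totient e : ℝ)⁻¹ else 0 := by
    intro f hf
    by_cases hef : e ∣ f
    · have hsq : Squarefree f := (sv1_mem.mp hf).2.2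
      have := sum_moebius_interval e f hsq hef
      rw [← Finset.sum_filter, Finset.filter_filter]
      have hset : (sv1D s z).filter (fun d => e ∣ d ∧ e ∣ d ∧ d ∣ f) =
          f.divisors.filter (fun d => e ∣ d) := by
        ext d
        simp only [mem_filter, Nat.mem_divisors]
        constructor
        · rintro ⟨_, h1, _, h2⟩
          exact ⟨⟨h2, hsq.ne_zero⟩, h1⟩
        · rintro ⟨⟨h1, _⟩, h2⟩
          exact ⟨sv1_dvd hf h1, h2, h2, h1⟩
      rw [hset, ← Finset.sum_mul]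
      have hcast : (∑ d ∈ f.divisors.filter (fun d => e ∣ d),
          (ArithmeticFunction.moebius d : ℝ)) =
          ((if f = e then ArithmeticFunction.moebius e else 0 : ℤ) : ℝ) := by
        rw [← this]; push_cast; rfl
      rw [hcast]
      by_cases hfe : f = e
      · subst hfe; simp
      · simp [hfe]
    · have hfe : f ≠ e := by rintro rfl; exact hef dvd_rfl
      rw [if_neg hfe]
      apply Finset.sum_eq_zero
      intro d _
      rw [if_neg]
      rintro ⟨h1, h2⟩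
      exact hef (h1.trans h2)
  rw [Finset.sum_congr rfl h2, Finset.sum_ite_eq' (sv1D s z) e, if_pos he]
  rw [div_eq_mul_inv, mul_inv]
  ring

/-- The quadratic form takes the value `1/G`. -/
theorem sv1_quad {s z : ℕ} (hz : 1 ≤ z) :
    ∑ d1 ∈ sv1D s z, ∑ d2 ∈ sv1D s z, sv1L s z d1 * sv1L s z d2 / (Nat.lcm d1 d2 : ℝ) =
      (sv1G s z)⁻¹ := by
  have hG := sv1G_pos (s := s) hz
  have h1 : ∀ d1 ∈ sv1D s z, ∀ d2 ∈ sv1D s z,
      sv1L s z d1 * sv1L s z d2 / (Nat.lcm d1 d2 : ℝ) =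
      ∑ e ∈ sv1D s z, (Nat.totient e : ℝ) * ((if e ∣ d1 then sv1L s z d1 / d1 else 0) *
        (if e ∣ d2 then sv1L s z d2 / d2 else 0)) := by
    intro d1 hd1 d2 hd2
    have p1 : 0 < d1 := (sv1_mem.mp hd1).1.1
    have p2 : 0 < d2 := (sv1_mem.mp hd2).1.1
    have hlcm : (Nat.lcm d1 d2 : ℝ) * (Nat.gcd d1 d2 : ℝ) = d1 * d2 := by
      rw [mul_comm]; exact_mod_cast Nat.gcd_mul_lcm d1 d2
    have hgpos : 0 < Nat.gcd d1 d2 := Nat.gcd_pos_of_pos_left _ p1
    have hlpos : 0 < Nat.lcm d1 d2 := Nat.lcm_pos p1 p2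
    have hgcd : (Nat.gcd d1 d2 : ℝ) = ∑ e ∈ sv1D s z, if e ∣ d1 ∧ e ∣ d2 then
        (Nat.totient e : ℝ) else 0 := by
      rw [← Finset.sum_filter]
      have hset : (sv1D s z).filter (fun e => e ∣ d1 ∧ e ∣ d2) = (Nat.gcd d1 d2).divisors := by
        ext e
        simp only [mem_filter, Nat.mem_divisors]
        constructor
        · rintro ⟨_, h1, h2⟩
          exact ⟨Nat.dvd_gcd h1 h2, hgpos.ne'⟩
        · rintro ⟨h1, _⟩
          exact ⟨sv1_dvd hd1 (h1.trans (Nat.gcd_dvd_left _ _)), h1.trans (Nat.gcd_dvd_left _ _),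
            h1.trans (Nat.gcd_dvd_right _ _)⟩
      rw [hset]
      have := Nat.sum_totient (Nat.gcd d1 d2)
      exact_mod_cast this.symm
    have hmain : sv1L s z d1 * sv1L s z d2 / (Nat.lcm d1 d2 : ℝ) =
        (Nat.gcd d1 d2 : ℝ) * ((sv1L s z d1 / d1) * (sv1L s z d2 / d2)) := by
      have q1 : (d1 : ℝ) ≠ 0 := by positivity
      have q2 : (d2 : ℝ) ≠ 0 := by positivity
      have q3 : (Nat.lcm d1 d2 : ℝ) ≠ 0 := by positivity
      field_simp
      linear_combination (sv1L s z d1 * sv1L s z d2) * (-hlcm)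
    rw [hmain, hgcd, Finset.sum_mul]
    apply Finset.sum_congr rfl
    intro e _
    by_cases ha : e ∣ d1
    · by_cases hb : e ∣ d2
      · simp [ha, hb]
      · simp [hb]
    · simp [ha]
  calc ∑ d1 ∈ sv1D s z, ∑ d2 ∈ sv1D s z, sv1L s z d1 * sv1L s z d2 / (Nat.lcm d1 d2 : ℝ)
      = ∑ d1 ∈ sv1D s z, ∑ d2 ∈ sv1D s z, ∑ e ∈ sv1D s z,
        (Nat.totient e : ℝ) * ((if e ∣ d1 then sv1L s z d1 / d1 else 0) *
        (if e ∣ d2 then sv1L s z d2 / d2 else 0)) := by
        apply Finset.sum_congr rfl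
        intro d1 hd1
        exact Finset.sum_congr rfl (fun d2 hd2 => h1 d1 hd1 d2 hd2)
    _ = ∑ e ∈ sv1D s z, (Nat.totient e : ℝ) *
        ((∑ d ∈ sv1D s z, if e ∣ d then sv1L s z d / d else 0) *
          (∑ d ∈ sv1D s z, if e ∣ d then sv1L s z d / d else 0)) := by
        rw [Finset.sum_congr rfl (fun d1 _ => Finset.sum_comm), Finset.sum_comm]
        apply Finset.sum_congr rfl
        intro e _
        rw [Finset.sum_mul_sum, Finset.mul_sum]
        apply Finset.sum_congr rfl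
        intro d1 _
        rw [Finset.mul_sum]
    _ = ∑ e ∈ sv1D s z, (sv1G s z)⁻¹ * (sv1G s z)⁻¹ * (Nat.totient e : ℝ)⁻¹ := by
        apply Finset.sum_congr rfl
        intro e he
        rw [← Finset.sum_filter, sv1_sum_div he]
        have ht := (sv1_totient_pos he).ne'
        have hm : ((ArithmeticFunction.moebius e : ℝ)) ^ 2 = 1 := by
          exact_mod_cast ArithmeticFunction.moebius_sq_eq_one_of_squarefree (sv1_mem.mp he).2.2
        field_simp
        linear_combination hm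
    _ = (sv1G s z)⁻¹ := by
        rw [← Finset.mul_sum]
        change _ * sv1G s z = _
        field_simp

/-- The key inequality for the bound of the weights. -/
theorem sv1S_le {s z d : ℕ} (hd : d ∈ sv1D s z) : (d : ℝ) * sv1S s z d ≤ sv1G s z := by
  have hdm := sv1_mem.mp hd
  have hd0 : 0 < d := hdm.1.1
  have hsq : Squarefree d := hdm.2.2
  set Gd : Finset ℕ := (sv1D s z).filter (fun g => d * g ≤ z ∧ Nat.Coprime d g) with hGd
  have hφd := sv1_totient_pos hd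
  -- the tail sum
  have hS : sv1S s z d = (Nat.totient d : ℝ)⁻¹ * ∑ g ∈ Gd, (Nat.totient g : ℝ)⁻¹ := by
    rw [sv1S, Finset.mul_sum]
    symm
    apply Finset.sum_bij (fun g _ => d * g)
    · intro g hg
      simp only [hGd, mem_filter, sv1_mem] at hg ⊢
      obtain ⟨⟨⟨g1, g2⟩, g3, g4⟩, g5, g6⟩ := hg
      refine ⟨⟨⟨Nat.mul_pos hd0 g1, g5⟩, Nat.Coprime.mul_left hdm.2.1 g3, ?_⟩, Dvd.intro _ rfl⟩
      exact (Nat.squarefree_mul g6).mpr ⟨hsq, g4⟩
    · intro a _ b _ hab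
      exact Nat.eq_of_mul_eq_mul_left hd0 hab
    · intro e he
      simp only [mem_filter] at he
      obtain ⟨he1, c, rfl⟩ := he
      have hm := sv1_mem.mp he1
      refine ⟨c, ?_, rfl⟩
      simp only [hGd, mem_filter]
      exact ⟨sv1_dvd he1 (Dvd.intro_left _ rfl), hm.1.2, Nat.coprime_of_squarefree_mul hm.2.2⟩
    · intro g hg
      simp only [hGd, mem_filter] at hg
      rw [Nat.totient_mul hg.2.2, Nat.cast_mul, mul_inv]
  have hprod : (∑ k ∈ d.divisors, (Nat.totient k : ℝ)⁻¹) * (∑ g ∈ Gd, (Nat.totient g : ℝ)⁻¹) ≤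
      sv1G s z := by
    rw [Finset.sum_mul_sum, ← Finset.sum_product']
    have hinj : ∀ x ∈ d.divisors ×ˢ Gd, ∀ y ∈ d.divisors ×ˢ Gd,
        x.1 * x.2 = y.1 * y.2 → x = y := by
      have hg : ∀ x ∈ d.divisors ×ˢ Gd, Nat.gcd d (x.1 * x.2) = x.1 := by
        intro x hx
        simp only [mem_product, Nat.mem_divisors, hGd, mem_filter] at hx
        rw [Nat.Coprime.gcd_mul_right_cancel_right _ hx.2.2.2.symm]
        exact Nat.gcd_eq_right hx.1.1
      intro x hx y hy hxy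
      have h1 : x.1 = y.1 := by rw [← hg x hx, ← hg y hy, hxy]
      have hx1 : 0 < x.1 := by
        simp only [mem_product, Nat.mem_divisors] at hx
        exact Nat.pos_of_dvd_of_pos hx.1.1 hd0
      rw [h1] at hxy
      exact Prod.ext h1 (Nat.eq_of_mul_eq_mul_left (h1 ▸ hx1) hxy)
    calc ∑ x ∈ d.divisors ×ˢ Gd, (Nat.totient x.1 : ℝ)⁻¹ * (Nat.totient x.2 : ℝ)⁻¹
        = ∑ x ∈ d.divisors ×ˢ Gd, (Nat.totient (x.1 * x.2) : ℝ)⁻¹ := by
          apply Finset.sum_congr rfl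
          intro x hx
          simp only [mem_product, Nat.mem_divisors, hGd, mem_filter] at hx
          rw [Nat.totient_mul (hx.2.2.2.coprime_dvd_left hx.1.1), Nat.cast_mul, mul_inv]
      _ = ∑ n ∈ (d.divisors ×ˢ Gd).image (fun x => x.1 * x.2), (Nat.totient n : ℝ)⁻¹ := by
          rw [Finset.sum_image hinj]
      _ ≤ sv1G s z := by
          apply Finset.sum_le_sum_of_subset_of_nonneg
          · intro n hn
            simp only [mem_image, mem_product, Nat.mem_divisors, hGd, mem_filter] at hn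
            obtain ⟨x, ⟨⟨hx1, _⟩, hx2, hx3, hx4⟩, rfl⟩ := hn
            have hxm := sv1_mem.mp hx2
            have hx1m := sv1_mem.mp (sv1_dvd hd hx1)
            rw [sv1_mem]
            refine ⟨⟨Nat.mul_pos hx1m.1.1 hxm.1.1, ?_⟩,
              Nat.Coprime.mul_left hx1m.2.1 hxm.2.1, ?_⟩
            · exact (Nat.mul_le_mul_right _ (Nat.le_of_dvd hd0 hx1)).trans hx3
            · exact (Nat.squarefree_mul (hx4.coprime_dvd_left hx1)).mpr ⟨hx1m.2.2, hxm.2.2⟩
          · intro n _ _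
            positivity
  rw [sum_inv_totient d hsq] at hprod
  rw [hS]
  calc (d : ℝ) * ((Nat.totient d : ℝ)⁻¹ * ∑ g ∈ Gd, (Nat.totient g : ℝ)⁻¹)
      = (d : ℝ) / Nat.totient d * ∑ g ∈ Gd, (Nat.totient g : ℝ)⁻¹ := by ring
    _ ≤ sv1G s z := hprod

theorem sv1_abs_le {s z d : ℕ} (hz : 1 ≤ z) (hd : d ∈ sv1D s z) : |sv1L s z d| ≤ 1 := by
  have hG := sv1G_pos (s := s) hz
  have hS0 : 0 ≤ sv1S s z d := Finset.sum_nonneg (fun _ _ => by positivity)
  have hμ : |(ArithmeticFunction.moebius d : ℝ)| ≤ 1 := by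
    exact_mod_cast ArithmeticFunction.abs_moebius_le_one
  rw [sv1L, abs_mul, abs_mul, abs_of_nonneg hS0,
    abs_of_nonneg (by positivity : (0 : ℝ) ≤ d / sv1G s z)]
  have h1 := sv1S_le hd
  have h2 : (d / sv1G s z) * sv1S s z d ≤ 1 := by
    rw [div_mul_eq_mul_div, div_le_one hG]
    exact h1
  have h3 : 0 ≤ (d / sv1G s z) * sv1S s z d := by positivity
  calc |(ArithmeticFunction.moebius d : ℝ)| * (d / sv1G s z) * sv1S s z d
      = |(ArithmeticFunction.moebius d : ℝ)| * ((d / sv1G s z) * sv1S s z d) := by ring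
    _ ≤ 1 * 1 := mul_le_mul hμ h2 h3 zero_le_one
    _ = 1 := one_mul 1

/-- Sum of the reciprocals of the numbers with given radical. -/
theorem sv1_radical (z n : ℕ) (hn0 : 0 < n) (hsq : Squarefree n) :
    ∑ m ∈ (Icc 1 z).filter (fun m => m.primeFactors = n.primeFactors), (m : ℝ)⁻¹ ≤
      (Nat.totient n : ℝ)⁻¹ := by
  have hn0' : (n : ℝ) ≠ 0 := by positivity
  let f : ℕ →* ℝ :=
    { toFun := fun m => (m : ℝ)⁻¹
      map_one' := by simp
      map_mul' := by intro a b; push_cast; rw [mul_inv] }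
  have hf : ∀ {p : ℕ}, p.Prime → ‖f p‖ < 1 := by
    intro p hp
    have : (1 : ℝ) < p := by exact_mod_cast hp.one_lt
    change ‖((p : ℝ))⁻¹‖ < 1
    rw [norm_inv, Real.norm_of_nonneg (by positivity)]
    exact inv_lt_one_of_one_lt₀ this
  have hE := EulerProduct.summable_and_hasSum_factoredNumbers_prod_filter_prime_geometric
    hf n.primeFactors
  have hprod : ∏ p ∈ n.primeFactors with p.Prime, (1 - f p)⁻¹ = n / Nat.totient n := by
    have h1 : (n.primeFactors.filter fun p => p.Prime) = n.primeFactors := by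
      apply Finset.filter_true_of_mem
      intro p hp
      exact Nat.prime_of_mem_primeFactors hp
    rw [h1]
    have h2 := Nat.totient_eq_mul_prod_factors n
    have h3 : (Nat.totient n : ℝ) = n * ∏ p ∈ n.primeFactors, (1 - (p : ℝ)⁻¹) := by
      have h2' := congrArg (fun q : ℚ => (q : ℝ)) h2
      push_cast at h2'
      exact h2'
    rw [h3, Finset.prod_inv_distrib]
    have h4 : ∏ p ∈ n.primeFactors, (1 - (p : ℝ)⁻¹) ≠ 0 := by
      apply Finset.prod_ne_zero_iff.mpr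
      intro p hp
      have : (1 : ℝ) < p := by exact_mod_cast (Nat.prime_of_mem_primeFactors hp).one_lt
      have := inv_lt_one_of_one_lt₀ this
      linarith
    change (∏ p ∈ n.primeFactors, (1 - (p : ℝ)⁻¹))⁻¹ = _
    field_simp
  rw [hprod] at hE
  have hbound : ∀ s : Finset (Nat.factoredNumbers n.primeFactors),
      ∑ m ∈ s, ((m : ℕ) : ℝ)⁻¹ ≤ n / Nat.totient n := by
    intro s
    exact sum_le_hasSum s (fun _ _ => by change (0 : ℝ) ≤ _⁻¹; positivity) hE.2
  -- write m = n * j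
  set s0 := (Icc 1 z).filter (fun m => m.primeFactors = n.primeFactors) with hs0
  have hdvd : ∀ m ∈ s0, n ∣ m := by
    intro m hm
    simp only [hs0, mem_filter, mem_Icc] at hm
    have h1 : ∏ p ∈ n.primeFactors, p = n := Nat.prod_primeFactors_of_squarefree hsq
    rw [← h1, ← hm.2]
    exact Nat.prod_primeFactors_dvd m
  have hmem : ∀ m ∈ s0, m / n ∈ Nat.factoredNumbers n.primeFactors := by
    intro m hm
    have hd := hdvd m hm
    simp only [hs0, mem_filter, mem_Icc] at hm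
    rw [Nat.mem_factoredNumbers']
    intro p hp hpd
    rw [← hm.2, Nat.mem_primeFactors]
    exact ⟨hp, hpd.trans (Nat.div_dvd_of_dvd hd), by omega⟩
  have hsum : ∑ m ∈ s0, (m : ℝ)⁻¹ = (n : ℝ)⁻¹ * ∑ m ∈ s0.attach, (((m : ℕ) / n : ℕ) : ℝ)⁻¹ := by
    rw [Finset.mul_sum, ← Finset.sum_attach]
    apply Finset.sum_congr rfl
    intro m _
    have hd := hdvd m.1 m.2
    rw [Nat.cast_div hd hn0', inv_div, mul_comm]
    field_simp
  have himg : ∑ m ∈ s0.attach, (((m : ℕ) / n : ℕ) : ℝ)⁻¹ =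
      ∑ j ∈ s0.attach.image (fun m : {x // x ∈ s0} => (⟨(m : ℕ) / n, hmem m.1 m.2⟩ :
        Nat.factoredNumbers n.primeFactors)), ((j : ℕ) : ℝ)⁻¹ := by
    rw [Finset.sum_image]
    intro a _ b _ hab
    have hab' : (a : ℕ) / n = (b : ℕ) / n := congrArg Subtype.val hab
    apply Subtype.ext
    have ha := Nat.div_mul_cancel (hdvd a.1 a.2)
    have hb := Nat.div_mul_cancel (hdvd b.1 b.2)
    rw [← ha, ← hb, hab']
  rw [hsum, himg]
  calc (n : ℝ)⁻¹ * _ ≤ (n : ℝ)⁻¹ * (n / Nat.totient n) :=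
        mul_le_mul_of_nonneg_left (hbound _) (by positivity)
    _ = (Nat.totient n : ℝ)⁻¹ := by field_simp

/-- The harmonic sum is at most `G` (for `s = 1`). -/
theorem sv1_harmonic (z : ℕ) : ∑ m ∈ Icc 1 z, (m : ℝ)⁻¹ ≤ sv1G 1 z := by
  have h1 : ∑ m ∈ Icc 1 z, (m : ℝ)⁻¹ =
      ∑ n ∈ sv1D 1 z, ∑ m ∈ (Icc 1 z).filter (fun m => ∏ p ∈ m.primeFactors, p = n),
        (m : ℝ)⁻¹ := by
    rw [Finset.sum_fiberwise_of_maps_to]
    intro m hm
    rw [mem_Icc] at hm
    have hdv : ∏ p ∈ m.primeFactors, p ∣ m := Nat.prod_primeFactors_dvd m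
    rw [sv1_mem]
    refine ⟨⟨Nat.pos_of_dvd_of_pos hdv (by omega), (Nat.le_of_dvd (by omega) hdv).trans hm.2⟩,
      Nat.coprime_one_right _, ?_⟩
    apply Finset.squarefree_prod_of_pairwise_isCoprime
    · intro p hp q hq hpq
      have h1 := Nat.prime_of_mem_primeFactors (Finset.mem_coe.mp hp)
      have h2 := Nat.prime_of_mem_primeFactors (Finset.mem_coe.mp hq)
      exact Nat.coprime_iff_isRelPrime.mp ((Nat.coprime_primes h1 h2).mpr hpq)
    · intro p hp
      exact (Nat.prime_of_mem_primeFactors hp).squarefree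
  rw [h1]
  apply Finset.sum_le_sum
  intro n hn
  have hnm := sv1_mem.mp hn
  refine le_trans ?_ (sv1_radical z n hnm.1.1 hnm.2.2)
  apply Finset.sum_le_sum_of_subset_of_nonneg
  · intro m hm
    simp only [mem_filter] at hm ⊢
    refine ⟨hm.1, ?_⟩
    rw [← hm.2, Nat.primeFactors_prod]
    intro p hp
    exact Nat.prime_of_mem_primeFactors hp
  · intro m _ _
    positivity

/-- Splitting off the divisor of `s`. -/
theorem sv1_split (s z : ℕ) (hs : 1 ≤ s) :
    sv1G 1 z ≤ (s : ℝ) / Nat.totient s * sv1G s z := by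
  classical
  have h0 := sum_inv_tot s (by omega)
  rw [← h0]
  unfold sv1G
  rw [Finset.sum_mul_sum, ← Finset.sum_product']
  set e : ℕ → ℕ × ℕ := fun n => (Nat.gcd n s, n / Nat.gcd n s) with he
  have hfac : ∀ n ∈ sv1D 1 z, 0 < Nat.gcd n s ∧ Nat.gcd n s * (n / Nat.gcd n s) = n ∧
      Nat.Coprime (Nat.gcd n s) (n / Nat.gcd n s) := by
    intro n hn
    have hm := sv1_mem.mp hn
    have hg : Nat.gcd n s * (n / Nat.gcd n s) = n := Nat.mul_div_cancel' (Nat.gcd_dvd_left n s)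
    refine ⟨Nat.gcd_pos_of_pos_left _ hm.1.1, hg, ?_⟩
    apply Nat.coprime_of_squarefree_mul
    rw [hg]
    exact hm.2.2
  have hmap : ∀ n ∈ sv1D 1 z, e n ∈ (s.divisors.filter Squarefree) ×ˢ sv1D s z := by
    intro n hn
    obtain ⟨h1, h2, h3⟩ := hfac n hn
    have hm := sv1_mem.mp hn
    simp only [he, mem_product, mem_filter, Nat.mem_divisors]
    have hl : n / Nat.gcd n s ∣ n := Nat.div_dvd_of_dvd (Nat.gcd_dvd_left n s)
    refine ⟨⟨⟨Nat.gcd_dvd_right n s, by omega⟩,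
      hm.2.2.squarefree_of_dvd (Nat.gcd_dvd_left n s)⟩, ?_⟩
    rw [sv1_mem]
    refine ⟨⟨Nat.pos_of_dvd_of_pos hl hm.1.1, (Nat.le_of_dvd hm.1.1 hl).trans hm.1.2⟩, ?_,
      hm.2.2.squarefree_of_dvd hl⟩
    -- a prime dividing both divides the gcd
    apply Nat.coprime_of_dvd
    intro p hp hpl hps
    have hpn : p ∣ n := hpl.trans hl
    have hpg : p ∣ Nat.gcd n s := Nat.dvd_gcd hpn hps
    exact (Nat.Prime.one_lt hp).ne' (Nat.eq_one_of_dvd_coprimes h3 hpg hpl)
  have hinj : Set.InjOn e (sv1D 1 z : Set ℕ) := by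
    intro a ha b hb hab
    have h1 := (hfac a ha).2.1
    have h2 := (hfac b hb).2.1
    simp only [he, Prod.mk.injEq] at hab
    rw [← h1, ← h2, hab.2, hab.1]
  set g : ℕ × ℕ → ℝ := fun x => 1 / (Nat.totient x.1 : ℝ) * (Nat.totient x.2 : ℝ)⁻¹ with hg
  calc ∑ n ∈ sv1D 1 z, (Nat.totient n : ℝ)⁻¹ = ∑ n ∈ sv1D 1 z, g (e n) := by
        refine Finset.sum_congr rfl fun n hn => ?_
        obtain ⟨h1, h2, h3⟩ := hfac n hn
        simp only [hg, he]
        conv_lhs => rw [← h2]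
        rw [Nat.totient_mul h3, Nat.cast_mul, mul_inv, one_div]
    _ = ∑ x ∈ (sv1D 1 z).image e, g x := (Finset.sum_image hinj).symm
    _ ≤ ∑ x ∈ (s.divisors.filter Squarefree) ×ˢ sv1D s z, g x := by
        apply Finset.sum_le_sum_of_subset_of_nonneg
        · intro x hx
          obtain ⟨n, hn, rfl⟩ := Finset.mem_image.1 hx
          exact hmap n hn
        · intro x _ _
          simp only [hg]
          positivity

theorem sv1_log_le (s z : ℕ) (hs : 1 ≤ s) (hz : 1 ≤ z) :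
    (Nat.totient s : ℝ) / s * Real.log z ≤ sv1G s z := by
  have h1 := log_add_one_le_harmonic z
  have h2 : ((harmonic z : ℚ) : ℝ) = ∑ m ∈ Icc 1 z, (m : ℝ)⁻¹ := by
    rw [harmonic_eq_sum_Icc]
    push_cast
    rfl
  have h3 := sv1_harmonic z
  have h4 := sv1_split s z hs
  have hz0 : (0 : ℝ) < z := by exact_mod_cast (show 0 < z by omega)
  have h5 : Real.log (z : ℝ) ≤ Real.log ((z : ℝ) + 1) :=
    Real.log_le_log hz0 (by linarith)
  push_cast at h1
  rw [h2] at h1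
  have h6 : Real.log z ≤ (s : ℝ) / Nat.totient s * sv1G s z := by linarith
  have hs0 : (0 : ℝ) < s := by exact_mod_cast (show 0 < s by omega)
  have hφ : (0 : ℝ) < Nat.totient s := by exact_mod_cast Nat.totient_pos.mpr (by omega)
  calc (Nat.totient s : ℝ) / s * Real.log z
      ≤ (Nat.totient s : ℝ) / s * ((s : ℝ) / Nat.totient s * sv1G s z) :=
        mul_le_mul_of_nonneg_left h6 (by positivity)
    _ = sv1G s z := by field_simp

/-- [IDE-SV1] **Selberg weights for moduli coprime to `s`.**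

PROOF.  Port of `Pool/Agent/MP_2f88e5_nt/Selberg.lean` (there: odd `d`; here: `d` coprime to `s`).
`D = {d ∈ [1,z] : d squarefree, coprime to s}`, `G = ∑_{n∈D} 1/φ(n)`,
`λ_d = μ(d) (d/φ(d)) (1/G) ∑_{n ≤ z/d, (n, ds)=1, n squarefree} 1/φ(n)` for `d ∈ D`, `0` otherwise;
`λ_1 = 1`, `|λ_d| ≤ 1`, `∑∑ λ_d λ_e/lcm(d,e) = 1/G`, and
`G ≥ (φ(s)/s) log z`: `∑_{n ≤ z squarefree} 1/φ(n) ≥ ∑_{n≤z} 1/n ≥ log z`, and every squarefree
`n ≤ z` is `n = k l`, `k ∣ s` squarefree, `(l, s) = 1`, `l ≤ z`; so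
`∑_{n≤z sqfree} 1/φ(n) ≤ (∑_{k ∣ s sqfree} 1/φ(k)) G = (s/φ(s)) G` (`sum_inv_tot` of IDS.B2). -/
theorem selberg_weights (s z : ℕ) (hs : 1 ≤ s) (hz : 1 ≤ z) :
    ∃ lam : ℕ → ℝ, lam 1 = 1 ∧ (∀ d, |lam d| ≤ 1) ∧
      (∀ d, lam d ≠ 0 → 1 ≤ d ∧ d ≤ z ∧ Nat.Coprime d s) ∧
      (∑ d ∈ Icc 1 z, ∑ e ∈ Icc 1 z, lam d * lam e / (Nat.lcm d e : ℝ)) *
        ((Nat.totient s : ℝ) / s * Real.log z) ≤ 1 := by
  classical
  have hG := sv1G_pos (s := s) hz
  refine ⟨fun d => if d ∈ sv1D s z then sv1L s z d else 0, ?_, ?_, ?_, ?_⟩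
  · simp only [if_pos (sv1_one_mem (s := s) hz)]
    exact sv1L_one hz
  · intro d
    by_cases h : d ∈ sv1D s z
    · simp only [if_pos h]
      exact sv1_abs_le hz h
    · simp only [if_neg h, abs_zero]
      exact zero_le_one
  · intro d hd
    by_cases h : d ∈ sv1D s z
    · have hm := sv1_mem.mp h
      exact ⟨hm.1.1, hm.1.2, hm.2.1⟩
    · simp [h] at hd
  · have hsub : sv1D s z ⊆ Icc 1 z := Finset.filter_subset _ _
    have h1 : ∑ d ∈ Icc 1 z, ∑ e ∈ Icc 1 z, (if d ∈ sv1D s z then sv1L s z d else 0) *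
        (if e ∈ sv1D s z then sv1L s z e else 0) / (Nat.lcm d e : ℝ) = (sv1G s z)⁻¹ := by
      rw [← sv1_quad (s := s) hz]
      rw [← Finset.sum_subset hsub]
      · refine Finset.sum_congr rfl fun d hd => ?_
        rw [← Finset.sum_subset hsub]
        · refine Finset.sum_congr rfl fun e he => ?_
          rw [if_pos hd, if_pos he]
        · intro e _ he
          simp [he]
      · intro d _ hd
        simp [hd]
    rw [h1, inv_mul_le_iff₀ hG, mul_one]
    exact sv1_log_le s z hs hz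

end Pool.Agent.IDE
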