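import Pool.Agent.IDE.Base

set_option autoImplicit false

namespace Pool.Agent.IDE

open Finset Pool.Agent.IDS

/-- the number of integers in `[x, x + Y]` without prime factors in `P` -/
private noncomputable def sv3N (P : Finset ℕ) (x Y : ℝ) : ℕ :=
  ((Finset.Icc ⌈x⌉ ⌊x + Y⌋).filter (fun J : ℤ => ∀ p ∈ P, ¬ (p : ℤ) ∣ J)).card

private theorem sv3_base (x Y : ℝ) (hY : 0 ≤ Y) : |(sv3N ∅ x Y : ℝ) - Y| ≤ 1 := by
  have h0 : sv3N ∅ x Y = (⌊x + Y⌋ + 1 - ⌈x⌉).toNat := by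
    unfold sv3N
    rw [Finset.filter_true_of_mem (by simp), Int.card_Icc]
  have h1 := Int.floor_le (x + Y)
  have h2 := Int.lt_floor_add_one (x + Y)
  have h3 := Int.le_ceil x
  have h4 := Int.ceil_lt_add_one x
  rw [h0]
  rcases le_total 0 (⌊x + Y⌋ + 1 - ⌈x⌉) with h5 | h5
  · have h6 : (((⌊x + Y⌋ + 1 - ⌈x⌉).toNat : ℕ) : ℝ) = (⌊x + Y⌋ : ℝ) + 1 - (⌈x⌉ : ℝ) := by
      have h7 : (((⌊x + Y⌋ + 1 - ⌈x⌉).toNat : ℕ) : ℤ) = ⌊x + Y⌋ + 1 - ⌈x⌉ :=
        Int.toNat_of_nonneg h5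
      exact_mod_cast h7
    rw [h6, abs_le]
    constructor <;> linarith
  · have h6 : (⌊x + Y⌋ + 1 - ⌈x⌉).toNat = 0 := Int.toNat_of_nonpos h5
    have h7 : (⌊x + Y⌋ : ℝ) + 1 - (⌈x⌉ : ℝ) ≤ 0 := by exact_mod_cast h5
    rw [h6, Nat.cast_zero, abs_le]
    constructor <;> linarith

private theorem sv3_step (P : Finset ℕ) (p : ℕ) (hp : p.Prime) (hP : ∀ q ∈ P, q.Prime)
    (hpP : p ∉ P) (x Y : ℝ) :
    sv3N (insert p P) x Y + sv3N P (x / p) (Y / p) = sv3N P x Y := by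
  classical
  have hp0 : (0 : ℝ) < p := by exact_mod_cast hp.pos
  have e1 : sv3N P (x / p) (Y / p) = ((Finset.Icc ⌈x⌉ ⌊x + Y⌋).filter
      (fun J : ℤ => (∀ q ∈ P, ¬ (q : ℤ) ∣ J) ∧ (p : ℤ) ∣ J)).card := by
    unfold sv3N
    refine Finset.card_bij (fun J _ => (p : ℤ) * J) ?_ ?_ ?_
    · intro J hJ
      rw [Finset.mem_filter, Finset.mem_Icc, Int.ceil_le, Int.le_floor] at hJ ⊢
      obtain ⟨⟨h1, h2⟩, h3⟩ := hJ
      refine ⟨⟨?_, ?_⟩, ?_, dvd_mul_right _ _⟩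
      · push_cast
        rw [div_le_iff₀ hp0] at h1
        linarith
      · push_cast
        rw [← add_div, le_div_iff₀ hp0] at h2
        linarith
      · intro q hq hdvd
        have hqp := Nat.prime_iff_prime_int.1 (hP q hq)
        rcases hqp.dvd_or_dvd hdvd with h4 | h4
        · have h5 : q ∣ p := by exact_mod_cast h4
          have h6 := (Nat.prime_dvd_prime_iff_eq (hP q hq) hp).1 h5
          exact hpP (h6 ▸ hq)
        · exact h3 q hq h4
    · intro a _ b _ hab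
      have hp' : (p : ℤ) ≠ 0 := by exact_mod_cast hp.ne_zero
      exact mul_left_cancel₀ hp' hab
    · intro J hJ
      rw [Finset.mem_filter, Finset.mem_Icc, Int.ceil_le, Int.le_floor] at hJ
      obtain ⟨⟨h1, h2⟩, h3, ⟨K, rfl⟩⟩ := hJ
      refine ⟨K, ?_, rfl⟩
      push_cast at h1 h2
      rw [Finset.mem_filter, Finset.mem_Icc, Int.ceil_le, Int.le_floor]
      refine ⟨⟨?_, ?_⟩, fun q hq hdvd => h3 q hq (hdvd.mul_left _)⟩
      · rw [div_le_iff₀ hp0]
        linarith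
      · rw [← add_div, le_div_iff₀ hp0]
        linarith
  have e2 : sv3N (insert p P) x Y = ((Finset.Icc ⌈x⌉ ⌊x + Y⌋).filter
      (fun J : ℤ => (∀ q ∈ P, ¬ (q : ℤ) ∣ J) ∧ ¬ (p : ℤ) ∣ J)).card := by
    unfold sv3N
    congr 1
    refine Finset.filter_congr fun J _ => ?_
    rw [Finset.forall_mem_insert]
    exact and_comm
  rw [e1, e2]
  unfold sv3N
  rw [← Finset.filter_filter, ← Finset.filter_filter, add_comm]
  exact Finset.card_filter_add_card_filter_not (fun J : ℤ => (p : ℤ) ∣ J)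

private theorem sv3_count (P : Finset ℕ) (hP : ∀ q ∈ P, q.Prime) : ∀ x Y : ℝ, 0 ≤ Y →
    |(sv3N P x Y : ℝ) - Y * ∏ p ∈ P, (1 - (p : ℝ)⁻¹)| ≤ 2 ^ P.card := by
  induction P using Finset.induction_on with
  | empty =>
    intro x Y hY
    simpa using sv3_base x Y hY
  | insert p P hp ih =>
    intro x Y hY
    have hpp := hP p (Finset.mem_insert_self p P)
    have hP' : ∀ q ∈ P, q.Prime := fun q hq => hP q (Finset.mem_insert_of_mem hq)
    have hp0 : (0 : ℝ) < p := by exact_mod_cast hpp.pos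
    have h1 := ih hP' x Y hY
    have h2 := ih hP' (x / p) (Y / p) (by positivity)
    have h3 : (sv3N (insert p P) x Y : ℝ) = sv3N P x Y - sv3N P (x / p) (Y / p) := by
      rw [← sv3_step P p hpp hP' hp x Y]
      push_cast
      ring
    rw [h3, Finset.prod_insert hp, Finset.card_insert_of_notMem hp, pow_succ]
    rw [abs_le] at h1 h2 ⊢
    have h4 : Y * ((1 - (p : ℝ)⁻¹) * ∏ q ∈ P, (1 - (q : ℝ)⁻¹)) =
        Y * ∏ q ∈ P, (1 - (q : ℝ)⁻¹) - Y / p * ∏ q ∈ P, (1 - (q : ℝ)⁻¹) := by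
      rw [div_eq_mul_inv]
      ring
    rw [h4]
    constructor <;> linarith [h1.1, h1.2, h2.1, h2.2]

private theorem sv3_tot (s : ℕ) : (Nat.totient s : ℝ) = s * ∏ p ∈ s.primeFactors,
    (1 - (p : ℝ)⁻¹) := by
  have h := Nat.totient_eq_mul_prod_factors s
  have h2 : ((Nat.totient s : ℚ) : ℝ) = ((s * ∏ p ∈ s.primeFactors, (1 - (p : ℚ)⁻¹) : ℚ) : ℝ) := by
    rw [h]
  push_cast at h2
  exact h2

theorem coprime_interval (s : ℕ) (hs : 1 ≤ s) (x Y : ℝ) (hY : 0 ≤ Y) (F : Finset ℤ)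
    (hF : ∀ J ∈ F, x ≤ (J : ℝ) ∧ (J : ℝ) ≤ x + Y ∧ Int.gcd J s = 1) :
    (F.card : ℝ) ≤ Y * (Nat.totient s : ℝ) / s + 2 ^ s.primeFactors.card := by
  have hs0 : (s : ℝ) ≠ 0 := by
    have : (0 : ℝ) < s := by exact_mod_cast hs
    exact this.ne'
  have h1 : F.card ≤ sv3N s.primeFactors x Y := by
    unfold sv3N
    refine Finset.card_le_card fun J hJ => ?_
    obtain ⟨h1, h2, h3⟩ := hF J hJ
    rw [Finset.mem_filter, Finset.mem_Icc, Int.ceil_le, Int.le_floor]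
    refine ⟨⟨h1, h2⟩, fun p hp hdvd => ?_⟩
    have hpp := Nat.prime_of_mem_primeFactors hp
    have hps := Nat.dvd_of_mem_primeFactors hp
    have h4 : (p : ℤ) ∣ ((Int.gcd J s : ℕ) : ℤ) :=
      Int.dvd_coe_gcd hdvd (by exact_mod_cast hps)
    rw [h3] at h4
    have h5 : p ∣ 1 := by exact_mod_cast h4
    exact hpp.one_lt.ne' (Nat.dvd_one.1 h5)
  have h2 := sv3_count s.primeFactors (fun q hq => Nat.prime_of_mem_primeFactors hq) x Y hY
  rw [abs_le] at h2
  have h3 : (F.card : ℝ) ≤ (sv3N s.primeFactors x Y : ℝ) := by exact_mod_cast h1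
  have h4 : Y * (Nat.totient s : ℝ) / s = Y * ∏ p ∈ s.primeFactors, (1 - (p : ℝ)⁻¹) := by
    rw [sv3_tot]
    field_simp
  rw [h4]
  linarith [h2.2]

theorem coprime_arc (s : ℕ) (hs : 1 ≤ s) (r : ℤ) (hr : IsCoprime r (s : ℤ)) (κ ϑ : ℝ) (hκ : 0 ≤ κ)
    (F : Finset ℕ) (hF : ∀ a ∈ F, a < s ∧ Nat.Coprime a s ∧ nd ((r : ℝ) * a / s - ϑ) ≤ κ) :
    (F.card : ℝ) ≤ 2 * κ * Nat.totient s + 2 ^ s.primeFactors.card := by
  classical
  have hs0 : (0 : ℝ) < s := by exact_mod_cast hs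
  set f : ℕ → ℤ := fun a => r * a - round ((r : ℝ) * a / s - ϑ) * s with hf
  have hinj : Set.InjOn f F := by
    intro a ha b hb hab
    obtain ⟨ha1, _, _⟩ := hF a ha
    obtain ⟨hb1, _, _⟩ := hF b hb
    simp only [hf] at hab
    have h1 : (s : ℤ) ∣ r * ((a : ℤ) - b) := by
      refine ⟨round ((r : ℝ) * a / s - ϑ) - round ((r : ℝ) * b / s - ϑ), ?_⟩
      linear_combination hab
    have h2 : (s : ℤ) ∣ (a : ℤ) - b := hr.symm.dvd_of_dvd_mul_left h1
    have h3 : (a : ℤ) - b = 0 := by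
      refine Int.eq_zero_of_abs_lt_dvd h2 ?_
      rw [abs_lt]
      constructor <;> omega
    omega
  have hcard : F.card = (F.image f).card := (Finset.card_image_of_injOn hinj).symm
  have hmain := coprime_interval s hs (ϑ * s - κ * s) (2 * (κ * s)) (by positivity) (F.image f) ?_
  · rw [hcard]
    refine hmain.trans_eq ?_
    field_simp
  · intro J hJ
    rw [Finset.mem_image] at hJ
    obtain ⟨a, ha, rfl⟩ := hJ
    obtain ⟨_, ha2, ha3⟩ := hF a ha
    have h1 : ((f a : ℤ) : ℝ) - ϑ * s =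
        s * ((r : ℝ) * a / s - ϑ - round ((r : ℝ) * a / s - ϑ)) := by
      simp only [hf]
      push_cast
      field_simp
      ring
    have h2 : |(r : ℝ) * a / s - ϑ - round ((r : ℝ) * a / s - ϑ)| ≤ κ := ha3
    rw [abs_le] at h2
    have h3 : s * ((r : ℝ) * a / s - ϑ - round ((r : ℝ) * a / s - ϑ)) ≤ s * κ :=
      mul_le_mul_of_nonneg_left h2.2 hs0.le
    have h4 : s * (-κ) ≤ s * ((r : ℝ) * a / s - ϑ - round ((r : ℝ) * a / s - ϑ)) :=
      mul_le_mul_of_nonneg_left h2.1 hs0.le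
    refine ⟨by linarith, by linarith, ?_⟩
    rw [← Int.isCoprime_iff_gcd_eq_one]
    have h5 : IsCoprime (r * (a : ℤ)) (s : ℤ) :=
      hr.mul_left (Nat.isCoprime_iff_coprime.2 ha2)
    have h6 := h5.add_mul_right_left (-round ((r : ℝ) * a / s - ϑ))
    have h7 : f a = r * (a : ℤ) + -round ((r : ℝ) * a / s - ϑ) * (s : ℤ) := by
      simp only [hf]
      ring
    rw [h7]
    exact h6

private theorem sv3_prod (P : Finset ℕ) (hP : ∀ p ∈ P, p.Prime) :
    ∏ p ∈ P, (2 * Real.sqrt p / ((p : ℝ) - 1)) ≤ 6 := by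
  have h1 : ∀ p ∈ P, 2 * Real.sqrt p / ((p : ℝ) - 1) ≤
      ((if p = 2 then (2.83 : ℝ) else 1) * (if p = 3 then (1.74 : ℝ) else 1)) *
        (if p = 5 then (1.12 : ℝ) else 1) := by
    intro p hp
    have hpp := hP p hp
    have hp1 : (1 : ℝ) < p := by exact_mod_cast hpp.one_lt
    rw [div_le_iff₀ (by linarith)]
    by_cases h2 : p = 2
    · subst h2
      norm_num
      have : Real.sqrt 2 ≤ 1.415 := by
        rw [Real.sqrt_le_left (by norm_num)]
        norm_num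
      linarith
    by_cases h3 : p = 3
    · subst h3
      norm_num
      have : Real.sqrt 3 ≤ 1.74 := by
        rw [Real.sqrt_le_left (by norm_num)]
        norm_num
      linarith
    by_cases h5 : p = 5
    · subst h5
      norm_num
      have : Real.sqrt 5 ≤ 2.24 := by
        rw [Real.sqrt_le_left (by norm_num)]
        norm_num
      linarith
    · have h7 : 7 ≤ p := by
        by_contra hlt
        push Not at hlt
        have hmem : p = 0 ∨ p = 1 ∨ p = 4 ∨ p = 6 := by omega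
        rcases hmem with rfl | rfl | rfl | rfl <;> norm_num at hpp
      have h7' : (7 : ℝ) ≤ p := by exact_mod_cast h7
      rw [if_neg h2, if_neg h3, if_neg h5, one_mul, one_mul, one_mul]
      have h8 : Real.sqrt p ≤ ((p : ℝ) - 1) / 2 := by
        rw [Real.sqrt_le_left (by linarith)]
        nlinarith
      linarith
  have h2 : ∏ p ∈ P, (2 * Real.sqrt p / ((p : ℝ) - 1)) ≤ ∏ p ∈ P,
      (((if p = 2 then (2.83 : ℝ) else 1) * (if p = 3 then (1.74 : ℝ) else 1)) *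
        (if p = 5 then (1.12 : ℝ) else 1)) := by
    refine Finset.prod_le_prod (fun p hp => ?_) h1
    have hp1 : (1 : ℝ) < p := by exact_mod_cast (hP p hp).one_lt
    have : 0 < (p : ℝ) - 1 := by linarith
    positivity
  refine h2.trans ?_
  rw [Finset.prod_mul_distrib, Finset.prod_mul_distrib, Finset.prod_ite_eq', Finset.prod_ite_eq',
    Finset.prod_ite_eq']
  split_ifs <;> norm_num

theorem two_pow_omega_le (s : ℕ) (hs : 1 ≤ s) :
    (2 : ℝ) ^ s.primeFactors.card * Real.sqrt s ≤ 6 * Nat.totient s := by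
  have hs0 : (0 : ℝ) < s := by exact_mod_cast hs
  have hP : ∀ p ∈ s.primeFactors, p.Prime := fun p hp => Nat.prime_of_mem_primeFactors hp
  have h1 := sv3_prod s.primeFactors hP
  have h2 : (2 : ℝ) ^ s.primeFactors.card = (∏ p ∈ s.primeFactors,
      (2 * Real.sqrt p / ((p : ℝ) - 1))) * ∏ p ∈ s.primeFactors,
        (Real.sqrt p * (1 - (p : ℝ)⁻¹)) := by
    rw [← Finset.prod_mul_distrib, ← Finset.prod_const]
    refine Finset.prod_congr rfl fun p hp => ?_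
    have hp1 : (1 : ℝ) < p := by exact_mod_cast (hP p hp).one_lt
    have hp2 : (p : ℝ) - 1 ≠ 0 := by
      have : 0 < (p : ℝ) - 1 := by linarith
      exact this.ne'
    have hp3 : (p : ℝ) ≠ 0 := by linarith
    have hp4 : Real.sqrt p * Real.sqrt p = p := Real.mul_self_sqrt (by linarith)
    rw [div_mul_eq_mul_div, eq_div_iff hp2]
    calc 2 * ((p : ℝ) - 1) = 2 * p * (1 - (p : ℝ)⁻¹) := by
          field_simp
      _ = 2 * Real.sqrt p * (Real.sqrt p * (1 - (p : ℝ)⁻¹)) := by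
          rw [← hp4]
          rw [hp4]
          linear_combination (-2 * (1 - (p : ℝ)⁻¹)) * hp4
  have h3 : ∏ p ∈ s.primeFactors, (Real.sqrt p * (1 - (p : ℝ)⁻¹)) ≤
      Real.sqrt s * ∏ p ∈ s.primeFactors, (1 - (p : ℝ)⁻¹) := by
    rw [Finset.prod_mul_distrib]
    refine mul_le_mul_of_nonneg_right ?_ (Finset.prod_nonneg fun p hp => ?_)
    · have h4 : ∏ p ∈ s.primeFactors, Real.sqrt p = Real.sqrt (∏ p ∈ s.primeFactors, (p : ℝ)) := by
        rw [Real.sqrt_eq_rpow, ← Real.finsetProd_rpow _ _ (fun p _ => by positivity)]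
        exact Finset.prod_congr rfl fun p _ => Real.sqrt_eq_rpow _
      rw [h4]
      apply Real.sqrt_le_sqrt
      have h5 : ∏ p ∈ s.primeFactors, p ≤ s := Nat.le_of_dvd hs (Nat.prod_primeFactors_dvd s)
      have h6 : ((∏ p ∈ s.primeFactors, p : ℕ) : ℝ) ≤ (s : ℝ) := by exact_mod_cast h5
      rw [Nat.cast_prod] at h6
      exact h6
    · have hp1 : (1 : ℝ) < p := by exact_mod_cast (hP p hp).one_lt
      have : (p : ℝ)⁻¹ ≤ 1 := inv_le_one_of_one_le₀ hp1.le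
      linarith
  have h4 : 0 ≤ ∏ p ∈ s.primeFactors, (Real.sqrt p * (1 - (p : ℝ)⁻¹)) := by
    refine Finset.prod_nonneg fun p hp => ?_
    have hp1 : (1 : ℝ) < p := by exact_mod_cast (hP p hp).one_lt
    have : (p : ℝ)⁻¹ ≤ 1 := inv_le_one_of_one_le₀ hp1.le
    have : 0 ≤ 1 - (p : ℝ)⁻¹ := by linarith
    positivity
  have h5 : (2 : ℝ) ^ s.primeFactors.card ≤
      6 * (Real.sqrt s * ∏ p ∈ s.primeFactors, (1 - (p : ℝ)⁻¹)) := by
    rw [h2]
    calc _ ≤ 6 * ∏ p ∈ s.primeFactors, (Real.sqrt p * (1 - (p : ℝ)⁻¹)) :=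
          mul_le_mul_of_nonneg_right h1 h4
      _ ≤ _ := by linarith
  have h6 : Real.sqrt s * Real.sqrt s = s := Real.mul_self_sqrt hs0.le
  calc (2 : ℝ) ^ s.primeFactors.card * Real.sqrt s
      ≤ 6 * (Real.sqrt s * ∏ p ∈ s.primeFactors, (1 - (p : ℝ)⁻¹)) * Real.sqrt s :=
        mul_le_mul_of_nonneg_right h5 (Real.sqrt_nonneg _)
    _ = 6 * ((Real.sqrt s * Real.sqrt s) * ∏ p ∈ s.primeFactors, (1 - (p : ℝ)⁻¹)) := by ring
    _ = 6 * Nat.totient s := by rw [h6, sv3_tot]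

end Pool.Agent.IDE
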