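import Pool.Agent.IDE.SV2
import Pool.Agent.IDE.SV3

set_option autoImplicit false

namespace Pool.Agent.IDE

open Finset Pool.Agent.IDS

/-- [IDE-SV4a] **Primes in a Bohr set, large denominator.**

PROOF.  `ε = ω - r/s`, `|ε| ≤ 1/(s√P)`.  Let `Λ = min(P, 1/(Γ|ε|))` (`Λ = P` if `ε = 0`);
`Λ ≥ min(P, s√P/Γ)`, so `Λ/s ≥ √P/Γ ≥ P^{3/8} ≥ 2` (`s ≤ √P`, `P ≥ Γ^8 ≥ 2^8`).  Cover `[P, 2P)` by
`≤ P/Λ + 1 ≤ 2P/Λ` intervals `[y, y + Λ)`.  For `p` in one of them
`ω p - ϑ = (r/s) p - (ϑ - ε y) + ε (p - y)`, `|ε (p-y)| ≤ |ε| Λ ≤ 1/Γ`, so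
`nd ((r/s) p - (ϑ - ε y)) ≤ 2/Γ`; `p` is coprime to `s` (`p ≥ P > s`), so `p mod s` is one of at most
`4φ(s)/Γ + 2^{ω(s)} ≤ (4/Γ + 6/√s) φ(s) ≤ 10 Γ^{-1/32} φ(s)` residues (`coprime_arc` with `κ = 2/Γ`,
`two_pow_omega_le`, `s ≥ Γ^{1/16}`; `nd (r p/s - ..)` only depends on `p mod s`).  Each residue class
contains `≤ C Λ/(φ(s) log(Λ/s)) ≤ C Λ/(φ(s) (3/8) log P)` primes of the interval
(`brun_titchmarsh`).  Total number of primes `≤ (2P/Λ)(10 Γ^{-1/32} φ(s)) C Λ (8/3)/(φ(s) log P)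
≤ 54 C P Γ^{-1/32}/log P`, and `log p/p ≤ log(2P)/P ≤ 2 log P/P`.

(In the proof below `Λ = s√P/Γ`.) -/
theorem sv_large :
    ∃ C : ℝ, 0 < C ∧ ∀ (Γ P ω ϑ : ℝ) (s : ℕ) (r : ℤ) (F : Finset ℕ), 2 ≤ Γ → Γ ^ 8 ≤ P →
      1 ≤ s → (s : ℝ) ≤ Real.sqrt P → IsCoprime r (s : ℤ) →
      |ω - r / s| ≤ 1 / (s * Real.sqrt P) → Γ ^ ((1 : ℝ) / 16) ≤ s →
      (∀ p ∈ F, p.Prime ∧ P ≤ p ∧ (p : ℝ) < 2 * P ∧ nd (ω * p - ϑ) ≤ 1 / Γ) →
      ∑ p ∈ F, Real.log p / p ≤ C * Γ ^ (-(1 : ℝ) / 32) := by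
  obtain ⟨C, hC, hBT⟩ := brun_titchmarsh
  refine ⟨108 * C, by positivity, ?_⟩
  intro Γ P ω ϑ s r F hΓ hP hs hsP hr hε hΓs hF
  classical
  have hΓ0 : 0 < Γ := by linarith
  have hΓ1 : 1 ≤ Γ := by linarith
  have hP256 : 256 ≤ P := by
    have h1 : (2 : ℝ) ^ 8 ≤ Γ ^ 8 := pow_le_pow_left₀ (by norm_num) hΓ 8
    norm_num at h1
    linarith
  have hP0 : 0 < P := by linarith
  have hs0 : (0 : ℝ) < s := by exact_mod_cast hs
  have hs1 : (1 : ℝ) ≤ s := by exact_mod_cast hs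
  obtain ⟨q, hq⟩ : ∃ q : ℝ, q = Real.sqrt P := ⟨_, rfl⟩
  rw [← hq] at hsP hε
  have hqq : q * q = P := by rw [hq]; exact Real.mul_self_sqrt hP0.le
  have hqΓ : Γ ^ 4 ≤ q := by
    rw [hq]
    apply Real.le_sqrt_of_sq_le
    calc (Γ ^ 4) ^ 2 = Γ ^ 8 := by ring
      _ ≤ P := hP
  have hq0 : 0 < q := lt_of_lt_of_le (by positivity) hqΓ
  have hq8 : 8 * Γ ≤ q := by
    have h1 : (2 : ℝ) ^ 3 ≤ Γ ^ 3 := pow_le_pow_left₀ (by norm_num) hΓ 3
    nlinarith
  have hqP : q < P := by nlinarith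
  have hlogP : 0 < Real.log P := Real.log_pos (by linarith)
  have hφ : (0 : ℝ) < Nat.totient s := by exact_mod_cast Nat.totient_pos.2 (by omega)
  -- the length
  obtain ⟨Λ, hΛ⟩ : ∃ Λ : ℝ, Λ = s * q / Γ := ⟨_, rfl⟩
  have hΛ0 : 0 < Λ := by rw [hΛ]; positivity
  have hΛP : Λ ≤ P := by
    rw [hΛ, div_le_iff₀ hΓ0, ← hqq]
    nlinarith
  have hΛs : Λ / s = q / Γ := by rw [hΛ]; field_simp
  have hΛ2 : 2 * (s : ℝ) ≤ Λ := by
    rw [hΛ, le_div_iff₀ hΓ0]
    nlinarith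
  obtain ⟨ε, hεd⟩ : ∃ ε : ℝ, ε = ω - r / s := ⟨_, rfl⟩
  rw [← hεd] at hε
  have hεΛ : |ε| * Λ ≤ 1 / Γ := by
    calc |ε| * Λ ≤ 1 / (s * q) * Λ := mul_le_mul_of_nonneg_right hε hΛ0.le
      _ = 1 / Γ := by rw [hΛ]; field_simp
  have hlog : 3 / 8 * Real.log P ≤ Real.log (Λ / s) := by
    rw [hΛs, Real.log_div hq0.ne' hΓ0.ne', hq, Real.log_sqrt hP0.le]
    have h1 : 8 * Real.log Γ ≤ Real.log P := by
      have h2 := Real.log_le_log (by positivity) hP
      rw [Real.log_pow] at h2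
      exact_mod_cast h2
    linarith
  have hlog0 : 0 < Real.log (Λ / s) := lt_of_lt_of_le (by positivity) hlog
  -- G
  obtain ⟨G, hG⟩ : ∃ G : ℝ, G = Γ ^ (-(1 : ℝ) / 32) := ⟨_, rfl⟩
  rw [← hG]
  have hG0 : 0 < G := by rw [hG]; positivity
  have hG1 : 1 / Γ ≤ G := by
    rw [hG, one_div, ← Real.rpow_neg_one]
    exact Real.rpow_le_rpow_of_exponent_le hΓ1 (by norm_num)
  have hG2 : 1 ≤ Real.sqrt s * G := by
    have h1 : Γ ^ ((1 : ℝ) / 32) ≤ Real.sqrt s := by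
      apply Real.le_sqrt_of_sq_le
      rw [← Real.rpow_natCast, ← Real.rpow_mul hΓ0.le]
      convert hΓs using 2
      norm_num
    have h2 : Γ ^ ((1 : ℝ) / 32) * G = 1 := by
      rw [hG, ← Real.rpow_add hΓ0]
      norm_num
    nlinarith
  -- the bound of a residue class
  obtain ⟨B, hB⟩ : ∃ B : ℝ, B = C * Λ / ((Nat.totient s : ℝ) * Real.log (Λ / s)) := ⟨_, rfl⟩
  have hB0 : 0 < B := by rw [hB]; positivity
  -- one interval
  have hint : ∀ (y : ℝ) (F' : Finset ℕ), F' ⊆ F → (∀ p ∈ F', y ≤ (p : ℝ) ∧ (p : ℝ) ≤ y + Λ) →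
      (F'.card : ℝ) ≤ 10 * G * (Nat.totient s : ℝ) * B := by
    intro y F' hF'F hy
    have hcop : ∀ p ∈ F', Nat.Coprime p s := by
      intro p hp
      obtain ⟨h1, h2, _, _⟩ := hF p (hF'F hp)
      rw [Nat.Prime.coprime_iff_not_dvd h1]
      intro h3
      have h4 : p ≤ s := Nat.le_of_dvd hs h3
      have h5 : (p : ℝ) ≤ s := by exact_mod_cast h4
      linarith
    have hres : ∀ a ∈ F'.image (fun p => p % s), a < s ∧ Nat.Coprime a s ∧
        nd ((r : ℝ) * a / s - (ϑ - ε * y)) ≤ 2 / Γ := by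
      intro a ha
      rw [mem_image] at ha
      obtain ⟨p, hp, rfl⟩ := ha
      refine ⟨Nat.mod_lt _ hs, ?_, ?_⟩
      · rw [Nat.Coprime, ← Nat.gcd_rec, Nat.gcd_comm]
        exact hcop p hp
      · obtain ⟨_, _, _, h4⟩ := hF p (hF'F hp)
        obtain ⟨h5, h6⟩ := hy p hp
        obtain ⟨t, ht⟩ : ∃ t : ℕ, t = p / s := ⟨_, rfl⟩
        have hdm : (s : ℝ) * t + ((p % s : ℕ) : ℝ) = p := by
          rw [ht]
          exact_mod_cast Nat.div_add_mod p s
        have h7 : (r : ℝ) * ((p % s : ℕ) : ℝ) / s - (ϑ - ε * y) =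
            (ω * p - ϑ) - ε * (p - y) + ((-(r * t) : ℤ) : ℝ) := by
          have h8 : ((p % s : ℕ) : ℝ) = p - s * t := by linarith
          have h9 : ω = ε + r / s := by rw [hεd]; ring
          rw [h8, h9]
          push_cast
          field_simp
          ring
        rw [h7, nd_add_int]
        refine (nd_sub_le _ _).trans ?_
        have h10 : nd (ε * (p - y)) ≤ 1 / Γ := by
          refine (nd_le_abs (ε * (p - y)) 0).trans ?_
          rw [Int.cast_zero, sub_zero, abs_mul]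
          have h11 : |(p : ℝ) - y| ≤ Λ := by
            rw [abs_le]
            constructor <;> linarith
          exact le_trans (mul_le_mul_of_nonneg_left h11 (abs_nonneg _)) hεΛ
        have h12 : (2 : ℝ) / Γ = 1 / Γ + 1 / Γ := by ring
        linarith
    have hA := coprime_arc s hs r hr (2 / Γ) (ϑ - ε * y) (by positivity)
      (F'.image (fun p => p % s)) hres
    have hA2 : ((F'.image (fun p => p % s)).card : ℝ) ≤ 10 * G * (Nat.totient s : ℝ) := by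
      refine hA.trans ?_
      have h1 := two_pow_omega_le s hs
      have h2 : (2 : ℝ) ^ s.primeFactors.card ≤ 6 * G * (Nat.totient s : ℝ) := by
        have h3 : (2 : ℝ) ^ s.primeFactors.card * 1 ≤
            (2 : ℝ) ^ s.primeFactors.card * (Real.sqrt s * G) :=
          mul_le_mul_of_nonneg_left hG2 (by positivity)
        have h4 : (2 : ℝ) ^ s.primeFactors.card * Real.sqrt s * G ≤ 6 * (Nat.totient s : ℝ) * G :=
          mul_le_mul_of_nonneg_right h1 hG0.le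
        linarith
      have h5 : 2 * (2 / Γ) * (Nat.totient s : ℝ) ≤ 4 * G * (Nat.totient s : ℝ) := by
        apply mul_le_mul_of_nonneg_right _ hφ.le
        have h6 : 2 * (2 / Γ) = 4 * (1 / Γ) := by ring
        rw [h6]
        linarith
      linarith
    have hcl : ∀ a ∈ F'.image (fun p => p % s), ((F'.filter (fun p => p % s = a)).card : ℝ) ≤ B := by
      intro a ha
      obtain ⟨h1, h2, _⟩ := hres a ha
      rw [hB]
      refine hBT s a y Λ _ hs h2 hΛ2 ?_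
      intro p hp
      rw [mem_filter] at hp
      refine ⟨(hF p (hF'F hp.1)).1, (hy p hp.1).1, (hy p hp.1).2, ?_⟩
      rw [Nat.ModEq, hp.2, Nat.mod_eq_of_lt h1]
    have hsum : F'.card = ∑ a ∈ F'.image (fun p => p % s), (F'.filter (fun p => p % s = a)).card :=
      card_eq_sum_card_fiberwise (fun p hp => mem_image_of_mem _ hp)
    rw [hsum]
    push_cast
    calc ∑ a ∈ F'.image (fun p => p % s), ((F'.filter (fun p => p % s = a)).card : ℝ)
        ≤ ∑ a ∈ F'.image (fun p => p % s), B := sum_le_sum hcl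
      _ = ((F'.image (fun p => p % s)).card : ℝ) * B := by rw [sum_const, nsmul_eq_mul]
      _ ≤ 10 * G * (Nat.totient s : ℝ) * B := mul_le_mul_of_nonneg_right hA2 hB0.le
  -- all intervals
  obtain ⟨K, hK⟩ : ∃ K : ℕ, K = ⌈P / Λ⌉₊ := ⟨_, rfl⟩
  have hK2 : (K : ℝ) ≤ 2 * P / Λ := by
    have h1 := (Nat.ceil_lt_add_one (show (0 : ℝ) ≤ P / Λ by positivity)).le
    rw [← hK] at h1
    have h2 : (1 : ℝ) ≤ P / Λ := by rw [le_div_iff₀ hΛ0]; linarith
    have h3 : 2 * P / Λ = P / Λ + P / Λ := by ring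
    linarith
  have hmaps : ∀ p ∈ F, ⌊((p : ℝ) - P) / Λ⌋₊ ∈ range K := by
    intro p hp
    obtain ⟨_, h2, h3, _⟩ := hF p hp
    rw [mem_range, hK, Nat.lt_ceil]
    refine lt_of_le_of_lt (Nat.floor_le (div_nonneg (by linarith) hΛ0.le)) ?_
    exact div_lt_div_of_pos_right (by linarith) hΛ0
  have hcard : (F.card : ℝ) ≤ (2 * P / Λ) * (10 * G * (Nat.totient s : ℝ) * B) := by
    have hsum : F.card = ∑ i ∈ range K, (F.filter (fun p : ℕ => ⌊((p : ℝ) - P) / Λ⌋₊ = i)).card :=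
      card_eq_sum_card_fiberwise hmaps
    rw [hsum]
    push_cast
    calc ∑ i ∈ range K, ((F.filter (fun p : ℕ => ⌊((p : ℝ) - P) / Λ⌋₊ = i)).card : ℝ)
        ≤ ∑ i ∈ range K, (10 * G * (Nat.totient s : ℝ) * B) := by
          apply sum_le_sum
          intro i _
          apply hint (P + i * Λ) _ (filter_subset _ _)
          intro p hp
          rw [mem_filter] at hp
          obtain ⟨_, h2, h3, _⟩ := hF p hp.1
          have h4 := Nat.floor_le (show (0 : ℝ) ≤ ((p : ℝ) - P) / Λ from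
            div_nonneg (by linarith) hΛ0.le)
          have h5 := (Nat.lt_floor_add_one (((p : ℝ) - P) / Λ)).le
          rw [hp.2] at h4 h5
          rw [le_div_iff₀ hΛ0] at h4
          rw [div_le_iff₀ hΛ0] at h5
          constructor <;> linarith
      _ = (K : ℝ) * (10 * G * (Nat.totient s : ℝ) * B) := by
          rw [sum_const, nsmul_eq_mul, card_range]
      _ ≤ (2 * P / Λ) * (10 * G * (Nat.totient s : ℝ) * B) :=
          mul_le_mul_of_nonneg_right hK2 (by positivity)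
  have hcard2 : (F.card : ℝ) ≤ 54 * C * P * G / Real.log P := by
    refine hcard.trans ?_
    have h1 : (2 * P / Λ) * (10 * G * (Nat.totient s : ℝ) * B) =
        20 * C * P * G / Real.log (Λ / s) := by
      rw [hB]
      field_simp
      ring
    rw [h1, div_le_div_iff₀ hlog0 hlogP]
    have h2 : 0 < C * P * G := by positivity
    nlinarith [mul_le_mul_of_nonneg_left hlog h2.le, mul_pos h2 hlogP]
  have hterm : ∀ p ∈ F, Real.log p / p ≤ 2 * Real.log P / P := by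
    intro p hp
    obtain ⟨_, h2, h3, _⟩ := hF p hp
    have hp0 : (0 : ℝ) < p := by linarith
    have h4 : Real.log p ≤ 2 * Real.log P := by
      have h5 : (p : ℝ) ≤ P ^ 2 := by nlinarith
      have h6 := Real.log_le_log hp0 h5
      rw [Real.log_pow] at h6
      exact_mod_cast h6
    calc Real.log p / p ≤ 2 * Real.log P / p := div_le_div_of_nonneg_right h4 hp0.le
      _ ≤ 2 * Real.log P / P := div_le_div_of_nonneg_left (by positivity) hP0 h2
  calc ∑ p ∈ F, Real.log p / p ≤ ∑ p ∈ F, 2 * Real.log P / P := sum_le_sum hterm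
    _ = (F.card : ℝ) * (2 * Real.log P / P) := by rw [sum_const, nsmul_eq_mul]
    _ ≤ (54 * C * P * G / Real.log P) * (2 * Real.log P / P) :=
        mul_le_mul_of_nonneg_right hcard2 (by positivity)
    _ = 108 * C * G := by field_simp; norm_num

end Pool.Agent.IDE
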