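import Pool.Agent.IDE.D4

set_option autoImplicit false

namespace Pool.Agent.IDE

open Finset Pool.Agent.IDS

/-- alignment count hypothesis for numbers of size `M` at scale `R` -/
def AC (γ R : ℝ) (M : ℕ) (K : ℝ) : Prop :=
  ∀ (a : ℕ) (z : ℤ) (T : Finset ℕ), 1 ≤ a →
    (∀ b ∈ T, M ≤ a * b ∧ a * b < 2 * M ∧ nd (γ * ((a : ℝ) * b - z)) ≤ 2 / R) →
    (T.card : ℝ) ≤ K * M * R ^ (-(3 : ℝ) / 8)


theorem t1_gap_card (U : Finset ℕ) (N : ℕ) (hN : 1 ≤ N) (m L : ℕ)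
    (hU : ∀ x ∈ U, m ≤ x ∧ x ≤ m + L)
    (hgap : ∀ x ∈ U, ∀ y ∈ U, x < y → x + N ≤ y) : U.card ≤ L / N + 1 := by
  have h := Finset.card_le_card_of_injOn (s := U) (t := Finset.range (L / N + 1))
    (fun x => (x - m) / N) ?_ ?_
  · simpa using h
  · intro x hx
    have h1 := hU x hx
    simp only [Finset.coe_range, Set.mem_Iio]
    have : (x - m) / N ≤ L / N := Nat.div_le_div_right (by omega)
    omega
  · have key : ∀ x ∈ U, ∀ y ∈ U, x < y → (x - m) / N < (y - m) / N := by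
      intro x hx y hy hxy
      have h1 := hU x hx
      have h2 := hU y hy
      have h3 := hgap x hx y hy hxy
      have h4 : (x - m + N) / N ≤ (y - m) / N := Nat.div_le_div_right (by omega)
      rw [Nat.add_div_right _ (by omega)] at h4
      omega
    intro x hx y hy hxy
    simp only at hxy
    rcases lt_trichotomy x y with h | h | h
    · have := key x hx y hy h
      omega
    · exact h
    · have := key y hy x hx h
      omega

theorem t1_rpow38 {R : ℝ} (hR : 1 ≤ R) (h : R ≤ 256) : R ^ ((3 : ℝ) / 8) ≤ 8 := by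
  have h1 : R ^ ((3 : ℝ) / 8) ≤ (256 : ℝ) ^ ((3 : ℝ) / 8) :=
    Real.rpow_le_rpow (by linarith) h (by norm_num)
  have h2 : (256 : ℝ) ^ ((3 : ℝ) / 8) = 8 := by
    rw [show (256 : ℝ) = (2 : ℝ) ^ (8 : ℝ) by norm_num, ← Real.rpow_mul (by norm_num)]
    norm_num
  linarith

theorem t1_rpow58 {R : ℝ} (h : 256 ≤ R) : 32 ≤ R ^ ((5 : ℝ) / 8) := by
  have h1 : (256 : ℝ) ^ ((5 : ℝ) / 8) ≤ R ^ ((5 : ℝ) / 8) :=
    Real.rpow_le_rpow (by norm_num) h (by norm_num)
  have h2 : (256 : ℝ) ^ ((5 : ℝ) / 8) = 32 := by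
    rw [show (256 : ℝ) = (2 : ℝ) ^ (8 : ℝ) by norm_num, ← Real.rpow_mul (by norm_num)]
    norm_num
  linarith

theorem t1_nd (γ R : ℝ) (a : ℕ) (z : ℤ) (b b' : ℕ) (hbb : a * b ≤ a * b')
    (h : nd (γ * ((a : ℝ) * b - z)) ≤ 2 / R) (h' : nd (γ * ((a : ℝ) * b' - z)) ≤ 2 / R) :
    nd (((a * b' - a * b : ℕ) : ℝ) * γ) ≤ 4 / R := by
  have e : ((a * b' - a * b : ℕ) : ℝ) * γ = γ * ((a : ℝ) * b' - z) - γ * ((a : ℝ) * b - z) := by
    rw [Nat.cast_sub hbb]
    push_cast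
    ring
  rw [e]
  refine (nd_sub_le _ _).trans ?_
  have : 4 / R = 2 / R + 2 / R := by ring
  linarith

theorem t1_image_card (a : ℕ) (ha : 1 ≤ a) (T : Finset ℕ) :
    (T.image (fun b => a * b)).card = T.card := by
  apply Finset.card_image_of_injective
  intro x y hxy
  exact Nat.eq_of_mul_eq_mul_left (by omega) hxy

theorem t1_trivial (M a : ℕ) (ha : 1 ≤ a) (T : Finset ℕ)
    (hT : ∀ b ∈ T, M ≤ a * b ∧ a * b < 2 * M) : T.card ≤ M := by
  rw [← t1_image_card a ha T]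
  have h : T.image (fun b => a * b) ⊆ Finset.Ico M (2 * M) := by
    intro x hx
    obtain ⟨b, hb, rfl⟩ := Finset.mem_image.1 hx
    have := hT b hb
    exact Finset.mem_Ico.2 this
  have h2 := Finset.card_le_card h
  rw [Nat.card_Ico] at h2
  omega

/-- the case of a large denominator -/
theorem t1_large (γ R : ℝ) (hR : 1 ≤ R) (M : ℕ) (a : ℕ) (z : ℤ) (T : Finset ℕ) (ha : 1 ≤ a)
    (hT : ∀ b ∈ T, M ≤ a * b ∧ a * b < 2 * M ∧ nd (γ * ((a : ℝ) * b - z)) ≤ 2 / R)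
    (h1 : den γ (R / 8) ≤ 2 * M) :
    (T.card : ℝ) * den γ (R / 8) ≤ 3 * M := by
  set N := den γ (R / 8) with hNdef
  have hN : 1 ≤ N := den_pos γ (R / 8) (by linarith)
  have hc : (T.image (fun b => a * b)).card ≤ M / N + 1 := by
    apply t1_gap_card _ N hN M M
    · intro x hx
      obtain ⟨b, hb, rfl⟩ := Finset.mem_image.1 hx
      have := hT b hb
      exact ⟨this.1, by omega⟩
    · intro x hx y hy hxy
      obtain ⟨b, hb, rfl⟩ := Finset.mem_image.1 hx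
      obtain ⟨b', hb', rfl⟩ := Finset.mem_image.1 hy
      change a * b < a * b' at hxy
      have e := t1_nd γ R a z b b' hxy.le (hT b hb).2.2 (hT b' hb').2.2
      have h2 : nd (((a * b' - a * b : ℕ) : ℝ) * γ) ≤ 1 / (R / 8) := by
        refine e.trans ?_
        rw [one_div_div]
        gcongr
        norm_num
      have h3 := den_min γ (R / 8) (a * b' - a * b) (by omega) h2
      omega
  rw [t1_image_card a ha T] at hc
  have h4 : (T.card : ℝ) ≤ (M : ℝ) / N + 1 := by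
    have h5 : (T.card : ℝ) ≤ ((M / N + 1 : ℕ) : ℝ) := by exact_mod_cast hc
    refine h5.trans ?_
    push_cast
    have := @Nat.cast_div_le ℝ _ _ _ M N
    linarith
  have hNr : (0 : ℝ) < N := by exact_mod_cast hN
  have h6 : (T.card : ℝ) * N ≤ ((M : ℝ) / N + 1) * N := by gcongr
  have h7 : ((M : ℝ) / N + 1) * N = M + N := by field_simp
  have h8 : (N : ℝ) ≤ 2 * M := by exact_mod_cast h1
  linarith

/-- the case of a small denominator -/
theorem t1_small (γ R : ℝ) (hR : 256 ≤ R) (M : ℕ) (a : ℕ) (z : ℤ) (T : Finset ℕ)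
    (ha : 1 ≤ a)
    (hT : ∀ b ∈ T, M ≤ a * b ∧ a * b < 2 * M ∧ nd (γ * ((a : ℝ) * b - z)) ≤ 2 / R)
    (hN : (den γ (R / 8) : ℝ) ≤ R ^ ((3 : ℝ) / 8))
    (h2 : 1 ≤ 4 * (M : ℝ) * eta γ (R / 8)) :
    (T.card : ℝ) ≤ 120 * M / R := by
  set N := den γ (R / 8) with hNdef
  set η := eta γ (R / 8) with hη
  have hR0 : 0 < R := by linarith
  have hN1 : 1 ≤ N := den_pos γ (R / 8) (by linarith)
  have hNr : (1 : ℝ) ≤ N := by exact_mod_cast hN1
  have hM0 : (0 : ℝ) ≤ M := Nat.cast_nonneg M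
  have hη0 : 0 < η := by
    by_contra hcon
    push Not at hcon
    nlinarith
  have hη8 : η ≤ 8 / R := by
    have := eta_le γ (R / 8) (by linarith)
    rwa [one_div_div] at this
  have hRη : 0 < R * η := by positivity
  have h8 : R * η ≤ 8 := by
    have := mul_le_mul_of_nonneg_left hη8 hR0.le
    rwa [mul_div_cancel₀ _ hR0.ne'] at this
  -- the elements of a window
  set n : ℕ := ⌊4 / (R * η)⌋₊ + 1 with hn
  have hwin : ∀ w ∈ T.image (fun b : ℕ => ⌊2 * η * ((a : ℝ) * b)⌋₊),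
      (T.filter (fun b : ℕ => ⌊2 * η * ((a : ℝ) * b)⌋₊ = w)).card ≤ n := by
    intro w _
    set F := T.filter (fun b : ℕ => ⌊2 * η * ((a : ℝ) * b)⌋₊ = w) with hF
    rcases F.eq_empty_or_nonempty with h0 | hne
    · rw [h0]; simp
    -- differences
    have hdiff : ∀ b ∈ F, ∀ b' ∈ F, a * b < a * b' →
        ∃ s : ℕ, 1 ≤ s ∧ a * b' = a * b + s * N ∧ (s : ℝ) * (R * η) ≤ 4 := by
      intro b hb b' hb' hlt
      have hb1 := Finset.mem_filter.1 hb
      have hb1' := Finset.mem_filter.1 hb'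
      have e := t1_nd γ R a z b b' hlt.le (hT b hb1.1).2.2 (hT b' hb1'.1).2.2
      set m : ℕ := a * b' - a * b with hm
      have hmr : (m : ℝ) = (a : ℝ) * b' - (a : ℝ) * b := by
        rw [hm, Nat.cast_sub hlt.le]
        push_cast
        ring
      have hm1 : 1 ≤ m := by omega
      have hx0 : 0 ≤ 2 * η * ((a : ℝ) * b) := by positivity
      have hx0' : 0 ≤ 2 * η * ((a : ℝ) * b') := by positivity
      have f1 : (w : ℝ) ≤ 2 * η * ((a : ℝ) * b) := by
        have := Nat.floor_le hx0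
        rwa [hb1.2] at this
      have f2 : 2 * η * ((a : ℝ) * b') < w + 1 := by
        have := Nat.lt_floor_add_one (2 * η * ((a : ℝ) * b'))
        rwa [hb1'.2] at this
      have hmη : (m : ℝ) * η ≤ 1 / 2 := by
        rw [hmr]
        nlinarith
      have hdvd : N ∣ m := by
        by_contra hnd
        have g1 := nd_ge_of_not_dvd γ (R / 8) (by linarith) m hnd hmη
        have g2 : 1 / (2 * (N : ℝ)) ≤ 4 / R := g1.trans e
        rw [div_le_div_iff₀ (by positivity) hR0] at g2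
        have g3 : R ≤ 8 * R ^ ((3 : ℝ) / 8) := by linarith
        have g4 : R ^ ((5 : ℝ) / 8) * R ^ ((3 : ℝ) / 8) = R := by
          rw [← Real.rpow_add hR0]
          norm_num
        have g5 := t1_rpow58 hR
        have g6 : 0 < R ^ ((3 : ℝ) / 8) := Real.rpow_pos_of_pos hR0 _
        nlinarith
      obtain ⟨s, hs⟩ := hdvd
      have hs1 : 1 ≤ s := by
        rcases Nat.eq_zero_or_pos s with h | h
        · subst h; omega
        · exact h
      have hsm : (s : ℝ) ≤ m := by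
        rw [hs]
        push_cast
        nlinarith [(Nat.cast_nonneg s : (0 : ℝ) ≤ (s : ℝ))]
      have hsη : (s : ℝ) * η ≤ 1 / 2 := by
        have : (s : ℝ) * η ≤ m * η := by gcongr
        linarith
      have g7 := nd_mul_den γ (R / 8) s hsη
      refine ⟨s, hs1, ?_, ?_⟩
      · rw [mul_comm s N, ← hs]
        omega
      · have g8 : (s : ℝ) * η ≤ 4 / R := by
          rw [← hη] at g7
          rw [← g7, ← hNdef, mul_comm s N, ← hs]
          exact e
        rw [le_div_iff₀ hR0] at g8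
        linarith
    obtain ⟨b0, hb0, hmin⟩ := Finset.exists_min_image F (fun b => a * b) hne
    change ∀ x ∈ F, a * b0 ≤ a * x at hmin
    -- bound for the span
    have hspan : ∀ b ∈ F, a * b ≤ a * b0 + ⌊4 / (R * η)⌋₊ * N := by
      intro b hb
      rcases (hmin b hb).lt_or_eq with hlt | heq
      · obtain ⟨s, _, hs, hs4⟩ := hdiff b0 hb0 b hb hlt
        rw [hs]
        have : s ≤ ⌊4 / (R * η)⌋₊ := by
          apply Nat.le_floor
          rw [le_div_iff₀ hRη]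
          exact hs4
        gcongr
      · rw [← heq]
        omega
    have hc : (F.image (fun b => a * b)).card ≤ (⌊4 / (R * η)⌋₊ * N) / N + 1 := by
      apply t1_gap_card _ N hN1 (a * b0) (⌊4 / (R * η)⌋₊ * N)
      · intro x hx
        obtain ⟨b, hb, rfl⟩ := Finset.mem_image.1 hx
        exact ⟨hmin b hb, hspan b hb⟩
      · intro x hx y hy hxy
        obtain ⟨b, hb, rfl⟩ := Finset.mem_image.1 hx
        obtain ⟨b', hb', rfl⟩ := Finset.mem_image.1 hy
        change a * b < a * b' at hxy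
        obtain ⟨s, hs1, hs, _⟩ := hdiff b hb b' hb' hxy
        rw [hs]
        nlinarith
    rw [t1_image_card a ha F, Nat.mul_div_cancel _ (by omega)] at hc
    exact hc
  have hcard := Finset.card_le_mul_card_image T n hwin
  -- number of windows
  have himg : ((T.image (fun b : ℕ => ⌊2 * η * ((a : ℝ) * b)⌋₊)).card : ℝ) ≤ 2 * η * M + 2 := by
    have hsub : T.image (fun b : ℕ => ⌊2 * η * ((a : ℝ) * b)⌋₊) ⊆
        Finset.Icc ⌊2 * η * (M : ℝ)⌋₊ ⌊4 * η * (M : ℝ)⌋₊ := by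
      intro x hx
      obtain ⟨b, hb, rfl⟩ := Finset.mem_image.1 hx
      have hb1 := hT b hb
      have c1 : (M : ℝ) ≤ (a : ℝ) * b := by exact_mod_cast hb1.1
      have c2 : (a : ℝ) * b ≤ 2 * M := by exact_mod_cast hb1.2.1.le
      refine Finset.mem_Icc.2 ⟨Nat.floor_mono ?_, Nat.floor_mono ?_⟩
      · gcongr
      · nlinarith
    have hle := Finset.card_le_card hsub
    rw [Nat.card_Icc] at hle
    have hmono : ⌊2 * η * (M : ℝ)⌋₊ ≤ ⌊4 * η * (M : ℝ)⌋₊ := by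
      apply Nat.floor_mono
      nlinarith [mul_nonneg hη0.le hM0]
    have hle2 : (T.image (fun b : ℕ => ⌊2 * η * ((a : ℝ) * b)⌋₊)).card + ⌊2 * η * (M : ℝ)⌋₊ ≤
        ⌊4 * η * (M : ℝ)⌋₊ + 1 := by omega
    have hle3 : ((T.image (fun b : ℕ => ⌊2 * η * ((a : ℝ) * b)⌋₊)).card : ℝ) +
        (⌊2 * η * (M : ℝ)⌋₊ : ℝ) ≤ (⌊4 * η * (M : ℝ)⌋₊ : ℝ) + 1 := by exact_mod_cast hle2
    have c3 := Nat.lt_floor_add_one (2 * η * (M : ℝ))
    have c4 : (⌊4 * η * (M : ℝ)⌋₊ : ℝ) ≤ 4 * η * M := Nat.floor_le (by positivity)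
    linarith
  have hn2 : (n : ℝ) ≤ 12 / (R * η) := by
    rw [hn]
    push_cast
    have d1 : (⌊4 / (R * η)⌋₊ : ℝ) ≤ 4 / (R * η) := Nat.floor_le (by positivity)
    have d2 : 1 ≤ 8 / (R * η) := by
      rw [le_div_iff₀ hRη]
      linarith
    have d3 : 12 / (R * η) = 4 / (R * η) + 8 / (R * η) := by ring
    linarith
  have himg2 : ((T.image (fun b : ℕ => ⌊2 * η * ((a : ℝ) * b)⌋₊)).card : ℝ) ≤ 10 * (M * η) := by
    nlinarith
  have hcard2 : (T.card : ℝ) ≤ n * ((T.image (fun b : ℕ => ⌊2 * η * ((a : ℝ) * b)⌋₊)).card : ℝ) := by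
    exact_mod_cast hcard
  calc (T.card : ℝ) ≤ n * ((T.image (fun b : ℕ => ⌊2 * η * ((a : ℝ) * b)⌋₊)).card : ℝ) := hcard2
    _ ≤ (12 / (R * η)) * (10 * (M * η)) := by gcongr
    _ = 120 * M / R := by
      field_simp
      ring

/-- [IDE-T1] **Alignment count from gainfulness.**

PROOF.  `N = den γ (R/8)`, `η = eta γ (R/8) ≤ 8/R`.  The elements of `T` are `< 2M` and in
`[M/a, 2M/a)`, so always `card T ≤ M` (`a = 1`: `T ⊆ [M, 2M)`; `a ≥ 2`: `≤ M/a + 1 ≤ M` for `M ≥ 2`;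
`M = 1`: `1 ≤ ab < 2`).  If `R ≤ 256`: `M ≤ 100 M R^{-3/8}` since `256^{3/8} = 8`.  Let `R > 256`.
If `b < b'` in `T` then `n = a(b' - b) ≥ 1` has `nd (n γ) ≤ 4/R ≤ 8/R` (`nd_sub_le`), so `n ≥ N`
(`den_min`).
Case 1, `N > R^{3/8}`: the numbers `a b ∈ [M, 2M)` have gaps `≥ N`, so
`card T ≤ M/N + 1 ≤ 3M/N ≤ 3 M R^{-3/8}` (`N ≤ 2M`).
Case 2, `N ≤ R^{3/8}` and `1 ≤ 4 M η`: in a window of length `1/(2η)` (values of `a b`): for `b < b'`
in the window `n η ≤ 1/2`; if `N ∤ n` then `nd (nγ) ≥ 1/(2N) ≥ R^{-3/8}/2 > 4/R`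
(`nd_ge_of_not_dvd`; `R^{5/8} ≥ 32 > 8`), impossible; so `N ∣ n`, `n = t N`, `t η = nd (nγ) ≤ 4/R`
(`nd_mul_den`).  So the values `a b` in a window are `≡` mod `N` and span `≤ 4N/(Rη)`: at most
`4/(Rη) + 1 ≤ 12/(Rη)` elements (`η ≤ 8/R`).  There are `≤ 2Mη + 1 ≤ 6 M η` windows; total
`≤ 72 M/R ≤ 72 M R^{-3/8}`. -/
theorem ac_of_gainful (γ R : ℝ) (hR : 1 ≤ R) (M : ℕ) (hM : 1 ≤ M)
    (h1 : den γ (R / 8) ≤ 2 * M)
    (h2 : R ^ ((3 : ℝ) / 8) < den γ (R / 8) ∨ 1 ≤ 4 * (M : ℝ) * eta γ (R / 8)) :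
    AC γ R M 100 := by
  intro a z T ha hT
  have hR0 : 0 < R := by linarith
  have hM0 : (0 : ℝ) ≤ M := Nat.cast_nonneg M
  have hp : 0 < R ^ ((3 : ℝ) / 8) := Real.rpow_pos_of_pos hR0 _
  have hneg : R ^ (-(3 : ℝ) / 8) = (R ^ ((3 : ℝ) / 8))⁻¹ := by
    rw [← Real.rpow_neg hR0.le]
    congr 1
    ring
  rw [hneg, ← div_eq_mul_inv, le_div_iff₀ hp]
  by_cases hR2 : R ≤ 256
  · have h3 := t1_rpow38 hR hR2
    have h4 : (T.card : ℝ) ≤ M := by
      exact_mod_cast t1_trivial M a ha T (fun b hb => ⟨(hT b hb).1, (hT b hb).2.1⟩)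
    have h5 : (T.card : ℝ) * R ^ ((3 : ℝ) / 8) ≤ M * 8 := by gcongr
    linarith
  · push Not at hR2
    by_cases hN : R ^ ((3 : ℝ) / 8) < den γ (R / 8)
    · have h3 := t1_large γ R hR M a z T ha hT h1
      have h4 : (T.card : ℝ) * R ^ ((3 : ℝ) / 8) ≤ T.card * den γ (R / 8) := by gcongr
      linarith
    · have h5 : 1 ≤ 4 * (M : ℝ) * eta γ (R / 8) := h2.resolve_left hN
      push Not at hN
      have h6 := t1_small γ R hR2.le M a z T ha hT hN h5
      have h7 : (T.card : ℝ) * R ^ ((3 : ℝ) / 8) ≤ (120 * M / R) * R ^ ((3 : ℝ) / 8) := by gcongr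
      refine h7.trans ?_
      have g4 : R ^ ((5 : ℝ) / 8) * R ^ ((3 : ℝ) / 8) = R := by
        rw [← Real.rpow_add hR0]
        norm_num
      have g5 := t1_rpow58 hR2.le
      rw [div_mul_eq_mul_div, div_le_iff₀ hR0]
      have g6 : 32 * R ^ ((3 : ℝ) / 8) ≤ R := by nlinarith
      have g7 : 0 ≤ R := hR0.le
      nlinarith

end Pool.Agent.IDE
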