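import Pool.Agent.IDE.T9
import Pool.Agent.IDS.T10

set_option autoImplicit false

namespace Pool.Agent.IDE

open Finset Pool.Agent.IDS

theorem t10e_ac (γ R : ℝ) (hR : 1 ≤ R) (i j m m' : ℕ) (hne : m ≠ m')
    (hnd : nd (γ * ((m' : ℝ) - m)) ≤ 2 / R) (hgf : Gf γ R (max m m'))
    (hi : m < 2 ^ (i + 1)) (hj : m' < 2 ^ (j + 1)) : AC γ R (2 ^ (max i j)) 100 := by
  have hR0 : 0 < R := by linarith
  have hmi : 2 ^ i ≤ 2 ^ (max i j) := Nat.pow_le_pow_right (by norm_num) (le_max_left i j)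
  have hmj : 2 ^ j ≤ 2 ^ (max i j) := Nat.pow_le_pow_right (by norm_num) (le_max_right i j)
  rw [pow_succ] at hi hj
  have hm : m < 2 * 2 ^ (max i j) := by omega
  have hm' : m' < 2 * 2 ^ (max i j) := by omega
  obtain ⟨q, hq1, hqM, hqnd⟩ : ∃ q : ℕ, 1 ≤ q ∧ q ≤ 2 * 2 ^ (max i j) ∧ nd (q * γ) ≤ 2 / R := by
    rcases lt_or_gt_of_ne hne with hlt | hlt
    · refine ⟨m' - m, by omega, by omega, ?_⟩
      have e : ((m' - m : ℕ) : ℝ) * γ = γ * ((m' : ℝ) - m) := by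
        rw [Nat.cast_sub hlt.le]
        ring
      rw [e]
      exact hnd
    · refine ⟨m - m', by omega, by omega, ?_⟩
      have e : ((m - m' : ℕ) : ℝ) * γ = -(γ * ((m' : ℝ) - m)) := by
        rw [Nat.cast_sub hlt.le]
        ring
      rw [e, nd_neg]
      exact hnd
  have hqnd8 : nd (q * γ) ≤ 1 / (R / 8) := by
    refine hqnd.trans ?_
    rw [one_div_div]
    gcongr
    norm_num
  have hden := den_min γ (R / 8) q hq1 hqnd8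
  apply ac_of_gainful γ R hR (2 ^ (max i j)) Nat.one_le_two_pow (hden.trans hqM)
  rcases hgf with hgf | hgf
  · exact Or.inl hgf
  · right
    refine hgf.trans ?_
    have h1 : ((max m m' : ℕ) : ℝ) ≤ 2 * ((2 ^ (max i j) : ℕ) : ℝ) := by
      have : max m m' ≤ 2 * 2 ^ (max i j) := max_le hm.le hm'.le
      exact_mod_cast this
    have h2 : 0 ≤ eta γ (R / 8) := eta_nonneg γ (R / 8)
    nlinarith

/-- [IDE-T10] **Regime II, one dyadic piece.**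

PROOF.  If the edge set `E` is empty, trivial.  Otherwise take one edge `(v, w)`, `m = rd v w`,
`m' = rd w v`, `M = 2^{max i j}`, so `max m m' < 2M` and `n₀ = |m' - m| ≥ 1` (`v ≠ w`, coprime),
`n₀ < 2M`, `nd (n₀ γ) ≤ 2/R ≤ 8/R`, so `den γ (R/8) ≤ n₀ ≤ 2M` (`den_min`); `Gf γ R (max m m')` gives
`R^{3/8} < den γ (R/8)` or `1 ≤ 2 max(m,m') η ≤ 4 M η`.  So `ac_of_gainful` gives
`AC γ R (2^{max i j}) 100`.  The rest is a port of `Pool.Agent.IDS.kappaII_piece` (T10) with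
`labels_count` of this package (`trace_ineq`, `pow_bound` of IDS can be used as they are).  The
constants do not depend on `γ`. -/
theorem kappaII_piece (C1 : ℕ) :
    ∃ (n : ℕ) (C : ℝ), 1 ≤ n ∧ 1 ≤ C ∧
      ∀ (γ : ℝ) (S : Finset ℕ) (κ : ℕ → ℕ) (μ : ℕ → ℝ), (∀ v, 0 ≤ μ v) →
      (∀ v ∈ S, 0 < v ∧ μ v ≤ (Nat.totient v : ℝ) * (1 / 2 : ℝ) ^ κ v) →
      ∀ (R : ℝ), 1 ≤ R → ∀ (i j u : ℕ) (E : Finset (ℕ × ℕ)), E ⊆ S ×ˢ S →
      (∀ e ∈ E, κ e.2 = κ e.1 + u ∧ e.1 ≠ e.2 ∧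
        (Nat.lcm e.1 e.2 : ℝ) * (1 / 2 : ℝ) ^ κ e.1 ≤ 1 / R ∧
        nd (γ * ((rd e.2 e.1 : ℝ) - rd e.1 e.2)) ≤ 2 / R ∧
        Gf γ R (max (rd e.1 e.2) (rd e.2 e.1)) ∧
        (rd e.1 e.2 : ℝ) ≤ R ^ C1 ∧ (rd e.2 e.1 : ℝ) ≤ R ^ C1 ∧
        2 ^ i ≤ rd e.1 e.2 ∧ rd e.1 e.2 < 2 ^ (i + 1) ∧
        2 ^ j ≤ rd e.2 e.1 ∧ rd e.2 e.1 < 2 ^ (j + 1)) →
      em μ μ E ≤
        C * (ms μ S) ^ (1 + 1 / (2 * (n : ℝ))) * R ^ (-(1 + 1 / (n : ℝ))) *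
          ((1 / 2 : ℝ) ^ ((1 : ℝ) / 2)) ^ u := by
  obtain ⟨n0, hn0⟩ := labels_count C1
  obtain ⟨n, hnn⟩ : ∃ n, n = 2 ^ (n0 + 1) := ⟨_, rfl⟩
  have hn1 : 1 ≤ n := by
    rw [hnn]
    exact Nat.one_le_two_pow
  obtain ⟨C, hC, hcount⟩ := hn0 n (by
    rw [hnn]
    exact (Nat.le_succ n0).trans (Nat.lt_two_pow_self (n := n0 + 1)).le)
  refine ⟨n, C, hn1, hC, ?_⟩
  intro γ S κ μ hmu0 hmuS0 R hR i j u E hES hEp
  have hR0 : 0 < R := by linarith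
  have hW0 : 0 ≤ ms μ S := ms_nonneg hmu0 S
  have hrhs0 : 0 ≤ C * (ms μ S) ^ (1 + 1 / (2 * (n : ℝ))) *
      R ^ (-(1 + 1 / (n : ℝ))) * ((1 / 2 : ℝ) ^ ((1 : ℝ) / 2)) ^ u := by
    positivity
  rcases E.eq_empty_or_nonempty with hemp | hne
  · rw [hemp]
    unfold Pool.Agent.IDS.em
    rw [Finset.sum_empty]
    exact hrhs0
  rw [← pow_le_pow_iff_left₀ (em_nonneg hmu0 hmu0 E) hrhs0
    (by omega : 2 * n ≠ 0), t10_rhs _ hn1 C _ R u hW0 hR]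
  have hmem : ∀ v w, (v, w) ∈ E → v ∈ S ∧ w ∈ S ∧ κ w = κ v + u ∧ v ≠ w ∧
      (Nat.lcm v w : ℝ) * (1 / 2 : ℝ) ^ κ v ≤ 1 / R ∧
        nd (γ * ((rd w v : ℝ) - rd v w)) ≤ 2 / R ∧
        (rd v w : ℝ) ≤ R ^ C1 ∧ (rd w v : ℝ) ≤ R ^ C1 ∧
        2 ^ i ≤ rd v w ∧ rd v w < 2 ^ (i + 1) ∧
        2 ^ j ≤ rd w v ∧ rd w v < 2 ^ (j + 1) := by
    intro v w hvw
    have h1 := Finset.mem_product.1 (hES hvw)
    obtain ⟨a1, a2, a3, a4, _, a6, a7, a8, a9, a10, a11⟩ := hEp _ hvw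
    exact ⟨h1.1, h1.2, a1, a2, a3, a4, a6, a7, a8, a9, a10, a11⟩
  have hbR : (2 : ℝ) ^ j ≤ R ^ C1 := by
    obtain ⟨⟨v, w⟩, he⟩ := hne
    obtain ⟨-, -, -, -, -, -, -, h8, -, -, h11, -⟩ := hmem v w he
    have : ((2 ^ j : ℕ) : ℝ) ≤ (rd w v : ℝ) := by exact_mod_cast h11
    push_cast at this
    exact this.trans h8
  have hAC : AC γ R (2 ^ (max i j)) 100 := by
    obtain ⟨⟨v, w⟩, he⟩ := hne
    obtain ⟨h1, h2, h3, h4, h5, h6, h7, h8, h9, h10, h11, h12⟩ := hmem v w he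
    have hgf : Gf γ R (max (rd v w) (rd w v)) := (hEp _ he).2.2.2.2.1
    have hne' : rd v w ≠ rd w v := by
      intro heq
      apply h4
      have h13 := rd_mul w v
      rw [heq] at h13
      exact (Nat.eq_of_mul_eq_mul_right (rd_pos (hmuS0 w h2).1) h13)
    exact t10e_ac γ R hR i j (rd v w) (rd w v) hne' h6 hgf h10 h12
  -- the labels
  obtain ⟨Lam, hLam⟩ : ∃ Lam : Finset (ℕ × ℕ × ℕ × ℕ), ∀ l, l ∈ Lam ↔
      (LabOK γ R C1 i j l.1 l.2.1 ∧ LabOK γ R C1 i j l.2.2.1 l.2.2.2) := by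
    classical
    refine ⟨(Finset.range (2 ^ (i + 1)) ×ˢ Finset.range (2 ^ (j + 1)) ×ˢ
      Finset.range (2 ^ (i + 1)) ×ˢ Finset.range (2 ^ (j + 1))).filter (fun l =>
        LabOK γ R C1 i j l.1 l.2.1 ∧ LabOK γ R C1 i j l.2.2.1 l.2.2.2), fun l => ?_⟩
    rw [Finset.mem_filter, Finset.mem_product, Finset.mem_product, Finset.mem_product,
      Finset.mem_range, Finset.mem_range, Finset.mem_range, Finset.mem_range]
    constructor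
    · exact fun h => h.2
    · exact fun h => ⟨⟨h.1.2.2.2.1, h.1.2.2.2.2.2.1, h.2.2.2.2.1, h.2.2.2.2.2.2.1⟩, h⟩
  have hlab : ∀ v w, (v, w) ∈ E → LabOK γ R C1 i j (rd v w) (rd w v) := by
    intro v w hvw
    obtain ⟨h1, h2, h3, h4, h5, h6, h7, h8, h9, h10, h11, h12⟩ := hmem v w hvw
    refine ⟨rd_coprime (hmuS0 v h1).1, ?_, h9, h10, h11, h12, h6, h7, h8⟩
    intro heq
    apply h4
    have h13 := rd_mul w v
    rw [heq] at h13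
    exact (Nat.eq_of_mul_eq_mul_right (rd_pos (hmuS0 w h2).1) h13)
  have hVS : E.image Prod.fst ⊆ S := by
    intro v hv
    obtain ⟨⟨v', w⟩, he, rfl⟩ := Finset.mem_image.1 hv
    exact (hmem _ _ he).1
  have hWS : E.image Prod.snd ⊆ S := by
    intro w hw
    obtain ⟨⟨v, w'⟩, he, rfl⟩ := Finset.mem_image.1 hw
    exact (hmem _ _ he).2.1
  have hEVW : E ⊆ E.image Prod.fst ×ˢ E.image Prod.snd := by
    intro e he
    rw [Finset.mem_product]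
    exact ⟨Finset.mem_image_of_mem _ he, Finset.mem_image_of_mem _ he⟩
  have hmuS : ∀ v ∈ S, μ v ≤ v * (1 / 2 : ℝ) ^ κ v := by
    intro v hv
    refine (hmuS0 v hv).2.trans ?_
    apply mul_le_mul_of_nonneg_right _ (by positivity)
    exact_mod_cast Nat.totient_le v
  have htr := trace_ineq (n0 + 1) (by omega) (E.image Prod.fst) (E.image Prod.snd) μ μ
    hmu0 hmu0 E hEVW
  rw [← hnn] at htr
  have hpow := pow_bound (E.image Prod.fst) (E.image Prod.snd) μ μ hmu0 hmu0 E hEVW Lam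
    (1 / (R * 2 ^ j)) ((1 / 2 : ℝ) ^ u / (R * 2 ^ i)) ?_ ?_ ?_ ?_ (by positivity) n hn1
  · have hcd := hcount γ R hR i j Lam hAC (fun l hl => (hLam l).1 hl)
    have hVle : ms μ (E.image Prod.fst) ≤ ms μ S := ms_mono hmu0 hVS
    have hWle : ms μ (E.image Prod.snd) ≤ ms μ S := ms_mono hmu0 hWS
    have hV0 : 0 ≤ ms μ (E.image Prod.fst) := ms_nonneg hmu0 _
    have hW0' : 0 ≤ ms μ (E.image Prod.snd) := ms_nonneg hmu0 _
    rw [pow_add 2 i j] at hcd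
    have hx0 : (0 : ℝ) ≤ (1 / (R * 2 ^ j)) ^ (n - 1) := by positivity
    have hy0 : (0 : ℝ) ≤ ((1 / 2 : ℝ) ^ u / (R * 2 ^ i)) ^ n := by positivity
    refine t10_final n C1 R (ms μ S) ((1 / 2 : ℝ) ^ u) (2 ^ j) C _ _
      (ms μ S * (1 / (R * 2 ^ j)) ^ (n - 1) *
        ((1 / 2 : ℝ) ^ u / (R * 2 ^ i)) ^ n * _) hn1 hR hW0 (by positivity)
      (by positivity) hC (2 ^ i) (by positivity) hbR hcd le_rfl ?_
    exact t10_comb n _ _ _ _ _ _ _ _ hV0 hVle hW0' hWle hx0 hy0 (Nat.cast_nonneg _) hpow htr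
  · intro v hv
    obtain ⟨⟨v', w⟩, he, rfl⟩ := Finset.mem_image.1 hv
    obtain ⟨h1, h2, h3, h4, h5, h6, h7, h8, h9, h10, h11, h12⟩ := hmem v' w he
    refine ⟨(hmuS0 _ h1).1, (hmuS _ h1).trans ?_⟩
    show (v' : ℝ) * (1 / 2 : ℝ) ^ κ v' ≤ _
    rw [lcm_eq, Nat.cast_mul] at h5
    rw [le_div_iff₀ (by positivity)]
    rw [le_div_iff₀ hR0] at h5
    have h13 : ((2 : ℝ) ^ j) ≤ (rd w v' : ℝ) := by exact_mod_cast h11
    calc (v' : ℝ) * (1 / 2 : ℝ) ^ κ v' * (R * 2 ^ j) =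
        (v' : ℝ) * (1 / 2 : ℝ) ^ κ v' * R * 2 ^ j := by ring
      _ ≤ (v' : ℝ) * (1 / 2 : ℝ) ^ κ v' * R * rd w v' :=
        mul_le_mul_of_nonneg_left h13 (by positivity)
      _ = (v' : ℝ) * (rd w v' : ℝ) * (1 / 2 : ℝ) ^ κ v' * R := by ring
      _ ≤ 1 := h5
  · intro w hw
    obtain ⟨⟨v, w'⟩, he, rfl⟩ := Finset.mem_image.1 hw
    obtain ⟨h1, h2, h3, h4, h5, h6, h7, h8, h9, h10, h11, h12⟩ := hmem v w' he
    refine ⟨(hmuS0 _ h2).1, (hmuS _ h2).trans ?_⟩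
    show (w' : ℝ) * (1 / 2 : ℝ) ^ κ w' ≤ _
    rw [Nat.lcm_comm, lcm_eq, Nat.cast_mul] at h5
    rw [le_div_iff₀ (by positivity), h3, pow_add]
    rw [le_div_iff₀ hR0] at h5
    have h13 : ((2 : ℝ) ^ i) ≤ (rd v w' : ℝ) := by exact_mod_cast h9
    calc (w' : ℝ) * ((1 / 2 : ℝ) ^ κ v * (1 / 2 : ℝ) ^ u) * (R * 2 ^ i) =
        (w' : ℝ) * (1 / 2 : ℝ) ^ κ v * (1 / 2 : ℝ) ^ u * R * 2 ^ i := by ring
      _ ≤ (w' : ℝ) * (1 / 2 : ℝ) ^ κ v * (1 / 2 : ℝ) ^ u * R * rd v w' :=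
        mul_le_mul_of_nonneg_left h13 (by positivity)
      _ = ((w' : ℝ) * (rd v w' : ℝ) * (1 / 2 : ℝ) ^ κ v * R) * (1 / 2 : ℝ) ^ u := by ring
      _ ≤ 1 * (1 / 2 : ℝ) ^ u := mul_le_mul_of_nonneg_right h5 (by positivity)
      _ = _ := one_mul _
  · intro l hl
    obtain ⟨h1, h2⟩ := (hLam l).1 hl
    exact ⟨lt_of_lt_of_le (by positivity) h1.2.2.1, lt_of_lt_of_le (by positivity) h1.2.2.2.2.1,
      lt_of_lt_of_le (by positivity) h2.2.2.1, lt_of_lt_of_le (by positivity) h2.2.2.2.2.1⟩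
  · intro v v' w h1 h2
    exact (hLam _).2 ⟨hlab v w h1, hlab v' w h2⟩

end Pool.Agent.IDE
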