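import Pool.Agent.IDE.T4
import Pool.Agent.IDS.T4a

set_option autoImplicit false

namespace Pool.Agent.IDE

open Finset Pool.Agent.IDS

theorem t5e_card {α β γ' : Type} [DecidableEq α] [DecidableEq β] [DecidableEq γ'] (T : Finset α)
    (f : α → β) (g : α → γ') (F : ℝ)
    (hF : ∀ b ∈ T.image f, ∀ c ∈ T.image g,
      (((T.filter fun a => f a = b ∧ g a = c).card : ℕ) : ℝ) ≤ F) :
    (T.card : ℝ) ≤ ((T.image f).card : ℝ) * ((T.image g).card : ℝ) * F := by
  have h1 : T.card = ∑ p ∈ (T.image f) ×ˢ (T.image g),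
      (T.filter fun a => (f a, g a) = p).card :=
    Finset.card_eq_sum_card_fiberwise fun a ha => by
      simp only [Finset.coe_product, Set.mem_prod, Finset.mem_coe]
      exact ⟨Finset.mem_image_of_mem f ha, Finset.mem_image_of_mem g ha⟩
  rw [h1]
  push_cast
  calc ∑ p ∈ (T.image f) ×ˢ (T.image g), ((T.filter fun a => (f a, g a) = p).card : ℝ)
      ≤ ∑ p ∈ (T.image f) ×ˢ (T.image g), F := by
        refine Finset.sum_le_sum fun p hp => ?_
        rw [Finset.mem_product] at hp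
        have h2 := hF p.1 hp.1 p.2 hp.2
        have h3 : (T.filter fun a => (f a, g a) = p) =
            T.filter fun a => f a = p.1 ∧ g a = p.2 := by
          refine Finset.filter_congr fun a _ => ?_
          rw [Prod.ext_iff]
        rw [h3]
        exact h2
    _ = ((T.image f).card : ℝ) * ((T.image g).card : ℝ) * F := by
        rw [Finset.sum_const, Finset.card_product, nsmul_eq_mul]
        push_cast
        ring

/-- [IDE-T5] **Count of matrices with aligned rows in `I`.**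

PROOF.  Port of `Pool.Agent.IDS.matrix_count` (T5) with `free_count` of this package:
`rows_count` (IDS.T4a), `card_le_prod` (IDS.T3). -/
theorem matrix_count (C1 N t : ℕ) (δ : ℝ) (hδ : 0 < δ) :
    ∃ C : ℝ, 1 ≤ C ∧ ∀ (γ R : ℝ), 1 ≤ R → ∀ (I : Finset (Fin N)), I.card = t →
      ∀ (Y : Fin N → ℕ) (M : ℕ), (∀ i, 1 ≤ Y i ∧ (Y i : ℝ) ≤ R ^ C1) → (∀ i ∈ I, Y i = M) →
      1 ≤ M → (M : ℝ) ≤ R ^ C1 → AC γ R M 100 →
      ∀ (P : ℝ), 1 ≤ P → P ≤ R →
      ∀ (T : Finset (Fin N → Fin N → ℕ)),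
      (∀ d ∈ T, (∀ i j, 0 < d i j) ∧ (∀ i, Y i ≤ ∏ j, d i j ∧ ∏ j, d i j < 2 * Y i) ∧
        (∀ i ∈ I, nd (γ * (((∏ j, d i j : ℕ) : ℝ) - ((∏ k, d k i : ℕ) : ℝ))) ≤ 2 / R) ∧
        ((∏ i ∈ I, ∏ j ∈ I, d i j : ℕ) : ℝ) ≤ P) →
      (T.card : ℝ) ≤ C * (∏ i, (Y i : ℝ)) * P * R ^ δ * R ^ (-(3 * t : ℝ) / 8) := by
  classical
  have hδ3 : 0 < δ / 3 := by positivity
  obtain ⟨C₁, hC₁, H₁⟩ := rows_count N C1 (δ / 3) hδ3
  obtain ⟨C₂, hC₂, H₂⟩ := card_le_prod (t * t) (δ / 3) hδ3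
  obtain ⟨C₃, hC₃, H₃⟩ := free_count C1 N t (δ / 3) hδ3
  refine ⟨C₁ * C₂ * C₃, ?_, ?_⟩
  · exact one_le_mul_of_one_le_of_one_le (one_le_mul_of_one_le_of_one_le hC₁ hC₂) hC₃
  intro γ R hR I hI Y M hY hYM hM1 hMR hcR P hP1 hPR T hT
  have hR0 : 0 < R := lt_of_lt_of_le one_pos hR
  let f : (Fin N → Fin N → ℕ) → (Fin N → Fin N → ℕ) := fun d i j => if i ∈ I then 0 else d i j
  let g : (Fin N → Fin N → ℕ) → ({i // i ∈ I} × {i // i ∈ I} → ℕ) := fun d p => d p.1 p.2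
  have hA : ((T.image f).card : ℝ) ≤ C₁ * (∏ i ∈ univ \ I, (Y i : ℝ)) * R ^ (δ / 3) := by
    refine H₁ R hR (univ \ I) Y hY (T.image f) ?_
    intro a ha
    obtain ⟨d, hd, rfl⟩ := Finset.mem_image.1 ha
    refine ⟨?_, ?_⟩
    · intro i hi j
      have hi' : i ∈ I := by simpa using hi
      simp only [f, if_pos hi']
    · intro i hi
      have hi' : i ∉ I := by simpa using hi
      simp only [f, if_neg hi']
      exact (hT d hd).2.1 i
  have hB : ((T.image g).card : ℝ) ≤ C₂ * P * R ^ (δ / 3) := by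
    have h1 : ((T.image g).card : ℝ) ≤ C₂ * P * P ^ (δ / 3) := by
      refine H₂ ({i // i ∈ I} × {i // i ∈ I}) ?_ P (T.image g) hP1 ?_
      · rw [Fintype.card_prod, Fintype.card_coe, hI]
      · intro a ha
        obtain ⟨d, hd, rfl⟩ := Finset.mem_image.1 ha
        refine ⟨fun p => (hT d hd).1 _ _, ?_⟩
        have h2 : (∏ p : {i // i ∈ I} × {i // i ∈ I}, g d p) = ∏ i ∈ I, ∏ j ∈ I, d i j := by
          rw [Fintype.prod_prod_type]
          rw [← Finset.prod_coe_sort I]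
          refine Finset.prod_congr rfl fun i _ => ?_
          rw [← Finset.prod_coe_sort I]
        rw [h2]
        exact (hT d hd).2.2.2
    refine h1.trans ?_
    have h3 : P ^ (δ / 3) ≤ R ^ (δ / 3) :=
      Real.rpow_le_rpow (by linarith) hPR hδ3.le
    exact mul_le_mul_of_nonneg_left h3 (by positivity)
  have hFb : ∀ b ∈ T.image f, ∀ c' ∈ T.image g,
      (((T.filter fun a => f a = b ∧ g a = c').card : ℕ) : ℝ) ≤
        C₃ * ((M : ℝ) * R ^ (-(3 : ℝ) / 8)) ^ t * R ^ (δ / 3) := by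
    intro b _ c' _
    refine H₃ γ R hR I hI M hM1 hMR hcR _ ?_ ?_
    · intro d hd d' hd' i j hij
      rw [Finset.mem_filter] at hd hd'
      by_cases hi : i ∈ I
      · have hj : j ∈ I := by
          rcases hij with h' | h'
          · exact absurd hi h'
          · exact h'
        have h1 : g d = g d' := hd.2.2.trans hd'.2.2.symm
        exact congrFun h1 (⟨i, hi⟩, ⟨j, hj⟩)
      · have h1 : f d = f d' := hd.2.1.trans hd'.2.1.symm
        have h2 := congrFun (congrFun h1 i) j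
        simpa only [f, if_neg hi] using h2
    · intro d hd
      rw [Finset.mem_filter] at hd
      obtain ⟨h1, h2, h3, -⟩ := hT d hd.1
      refine ⟨h1, fun i hi => ⟨?_, ?_, h3 i hi⟩⟩
      · have := (h2 i).1
        rwa [hYM i hi] at this
      · have := (h2 i).2
        rwa [hYM i hi] at this
  have key := t5e_card T f g _ hFb
  refine key.trans ?_
  have hprod : (∏ i, (Y i : ℝ)) = (∏ i ∈ univ \ I, (Y i : ℝ)) * (M : ℝ) ^ t := by
    rw [← Finset.prod_sdiff (Finset.subset_univ I)]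
    congr 1
    rw [← hI, ← Finset.prod_const]
    exact Finset.prod_congr rfl fun i hi => by rw [hYM i hi]
  have hpow : (R ^ (-(3 : ℝ) / 8)) ^ t = R ^ (-(3 * t : ℝ) / 8) := by
    rw [← Real.rpow_natCast, ← Real.rpow_mul hR0.le]
    congr 1
    ring
  have hpow3 : R ^ (δ / 3) * R ^ (δ / 3) * R ^ (δ / 3) = R ^ δ := by
    rw [← Real.rpow_add hR0, ← Real.rpow_add hR0]
    congr 1
    ring
  have hF0 : 0 ≤ C₃ * ((M : ℝ) * R ^ (-(3 : ℝ) / 8)) ^ t * R ^ (δ / 3) := by positivity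
  have hB0 : 0 ≤ C₂ * P * R ^ (δ / 3) := by positivity
  have hA0 : 0 ≤ C₁ * (∏ i ∈ univ \ I, (Y i : ℝ)) * R ^ (δ / 3) := by positivity
  calc ((T.image f).card : ℝ) * ((T.image g).card : ℝ) *
        (C₃ * ((M : ℝ) * R ^ (-(3 : ℝ) / 8)) ^ t * R ^ (δ / 3))
      ≤ (C₁ * (∏ i ∈ univ \ I, (Y i : ℝ)) * R ^ (δ / 3)) * (C₂ * P * R ^ (δ / 3)) *
        (C₃ * ((M : ℝ) * R ^ (-(3 : ℝ) / 8)) ^ t * R ^ (δ / 3)) := by
        refine mul_le_mul_of_nonneg_right ?_ hF0
        exact mul_le_mul hA hB (Nat.cast_nonneg _) hA0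
    _ = C₁ * C₂ * C₃ * (∏ i, (Y i : ℝ)) * P * R ^ δ * R ^ (-(3 * t : ℝ) / 8) := by
        rw [hprod, mul_pow, hpow, ← hpow3]
        ring

end Pool.Agent.IDE
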