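import Pool.Agent.IDE.T6
import Pool.Agent.IDS.T9

set_option autoImplicit false

namespace Pool.Agent.IDE

open Finset Pool.Agent.IDS

/-- [IDE-T9] **Number of closed label sequences.**

PROOF.  Port of `Pool.Agent.IDS.labels_count` (T9) with `cw_count` of this package.  If `i ≤ j` take
`Lg = {k < n}`, `M = 2^j`; if `j < i` take `Lg = {k ≥ n}`, `M = 2^i`: in both cases
`M = 2^{max i j}`, so `AC` is the hypothesis. -/
theorem labels_count (C1 : ℕ) :
    ∃ n0 : ℕ, ∀ n : ℕ, n0 ≤ n → ∃ C : ℝ, 1 ≤ C ∧ ∀ (γ R : ℝ), 1 ≤ R → ∀ (i j : ℕ)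
      (Lam : Finset (ℕ × ℕ × ℕ × ℕ)), AC γ R (2 ^ (max i j)) 100 →
      (∀ l ∈ Lam, LabOK γ R C1 i j l.1 l.2.1 ∧ LabOK γ R C1 i j l.2.2.1 l.2.2.2) →
      (((Fintype.piFinset (fun _ : Fin n => Lam)).filter (fun f =>
          ∏ k, ((f k).1 * (f k).2.2.2) = ∏ k, ((f k).2.1 * (f k).2.2.1))).card : ℝ) ≤
        C * ((2 : ℝ) ^ (i + j)) ^ n * R ^ (-((C1 : ℝ) + 3)) := by
  classical
  obtain ⟨n0, hn0⟩ := cw_count C1
  refine ⟨max n0 1, fun n hn => ?_⟩
  obtain ⟨C, hC1, hC⟩ := hn0 n ((le_max_left _ _).trans hn)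
  have hn1 : 1 ≤ n := (le_max_right _ _).trans hn
  refine ⟨C, hC1, ?_⟩
  intro γ R hR i j Lam hAC hLam
  set F := (Fintype.piFinset (fun _ : Fin n => Lam)).filter (fun f =>
    ∏ k, ((f k).1 * (f k).2.2.2) = ∏ k, ((f k).2.1 * (f k).2.2.1)) with hF
  rcases F.eq_empty_or_nonempty with hFe | ⟨f0, hf0⟩
  · rw [hFe, card_empty, Nat.cast_zero]
    positivity
  have hFmem : ∀ f ∈ F, ∀ k, f k ∈ Lam := by
    intro f hf k
    rw [hF, mem_filter, Fintype.mem_piFinset] at hf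
    exact hf.1 k
  have hFprod : ∀ f ∈ F, ∏ k, ((f k).1 * (f k).2.2.2) = ∏ k, ((f k).2.1 * (f k).2.2.1) := by
    intro f hf
    rw [hF, mem_filter] at hf
    exact hf.2
  -- one label
  obtain ⟨⟨_, hne0, hi1, hi2, hj1, hj2, hnd0, hi3, hj3⟩, _⟩ := hLam _ (hFmem f0 hf0 ⟨0, hn1⟩)
  set m0 := (f0 ⟨0, hn1⟩).1 with hm0
  set m0' := (f0 ⟨0, hn1⟩).2.1 with hm0'
  have hiR : ((2 ^ i : ℕ) : ℝ) ≤ R ^ C1 := le_trans (by exact_mod_cast hi1) hi3
  have hjR : ((2 ^ j : ℕ) : ℝ) ≤ R ^ C1 := le_trans (by exact_mod_cast hj1) hj3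
  -- the pairs
  let P : (Fin n → ℕ × ℕ × ℕ × ℕ) → (Fin (2 * n) → ℕ) × (Fin (2 * n) → ℕ) := fun f =>
    (t9J (fun k => (f k).2.1) (fun k => (f k).2.2.1),
      t9J (fun k => (f k).1) (fun k => (f k).2.2.2))
  have hPinj : Function.Injective P := by
    intro f g hfg
    have h1 := t9J_inj (Prod.ext_iff.1 hfg).1
    have h2 := t9J_inj (Prod.ext_iff.1 hfg).2
    funext k
    have a1 := congrFun h1.1 k
    have a2 := congrFun h1.2 k
    have a3 := congrFun h2.1 k
    have a4 := congrFun h2.2 k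
    exact Prod.ext a3 (Prod.ext a1 (Prod.ext a2 a4))
  let Y : Fin (2 * n) → ℕ := t9J (fun _ => 2 ^ j) (fun _ => 2 ^ i)
  have hY : ∀ k, 1 ≤ Y k ∧ (Y k : ℝ) ≤ R ^ C1 := by
    apply t9_all
    · intro k
      simp only [Y, t9J_inl]
      exact ⟨Nat.one_le_two_pow, hjR⟩
    · intro k
      simp only [Y, t9J_inr]
      exact ⟨Nat.one_le_two_pow, hiR⟩
  have hT : ∀ p ∈ F.image P, (∀ k, Y k ≤ p.1 k ∧ p.1 k < 2 * Y k) ∧ (∀ k, 0 < p.2 k) ∧
        (∀ k, Nat.Coprime (p.1 k) (p.2 k)) ∧ ∏ k, p.1 k = ∏ k, p.2 k ∧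
        (∀ k, nd (γ * ((p.1 k : ℝ) - p.2 k)) ≤ 2 / R) ∧
        (∀ k, (p.1 k : ℝ) ≤ R ^ C1) := by
    intro p hp
    rw [mem_image] at hp
    obtain ⟨f, hf, rfl⟩ := hp
    have hl := fun k => hLam _ (hFmem f hf k)
    refine ⟨?_, ?_, ?_, ?_, ?_, ?_⟩
    · apply t9_all
      · intro k
        simp only [P, Y, t9J_inl]
        obtain ⟨⟨_, _, _, _, h5, h6, _, _, _⟩, _⟩ := hl k
        exact ⟨h5, by rw [pow_succ] at h6; omega⟩
      · intro k
        simp only [P, Y, t9J_inr]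
        obtain ⟨_, ⟨_, _, h5, h6, _, _, _, _, _⟩⟩ := hl k
        exact ⟨h5, by rw [pow_succ] at h6; omega⟩
    · apply t9_all
      · intro k
        simp only [P, t9J_inl]
        obtain ⟨⟨_, _, h5, _, _, _, _, _, _⟩, _⟩ := hl k
        exact lt_of_lt_of_le (by positivity) h5
      · intro k
        simp only [P, t9J_inr]
        obtain ⟨_, ⟨_, _, _, _, h5, _, _, _, _⟩⟩ := hl k
        exact lt_of_lt_of_le (by positivity) h5
    · apply t9_all
      · intro k
        simp only [P, t9J_inl]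
        exact (hl k).1.1.symm
      · intro k
        simp only [P, t9J_inr]
        exact (hl k).2.1
    · have h1 := t9J_prod (fun x => x) (fun k => (f k).2.1) (fun k => (f k).2.2.1)
      have h2 := t9J_prod (fun x => x) (fun k => (f k).1) (fun k => (f k).2.2.2)
      have h3 := hFprod f hf
      rw [prod_mul_distrib, prod_mul_distrib] at h3
      simp only [P]
      rw [h1, h2]
      exact h3.symm
    · apply t9_all
      · intro k
        simp only [P, t9J_inl]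
        exact (hl k).1.2.2.2.2.2.2.1
      · intro k
        simp only [P, t9J_inr]
        have h5 := (hl k).2.2.2.2.2.2.2.1
        rw [← nd_neg] at h5
        have e : -(γ * (((f k).2.2.2 : ℝ) - (f k).2.2.1)) =
            γ * (((f k).2.2.1 : ℝ) - (f k).2.2.2) := by ring
        rw [e] at h5
        exact h5
    · apply t9_all
      · intro k
        simp only [P, t9J_inl]
        exact (hl k).1.2.2.2.2.2.2.2.2
      · intro k
        simp only [P, t9J_inr]
        exact (hl k).2.2.2.2.2.2.2.2.1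
  have hprodY : ∏ k, (Y k : ℝ) = ((2 : ℝ) ^ (i + j)) ^ n := by
    have h1 := t9J_prod (n := n) (fun x => (x : ℝ)) (fun _ => 2 ^ j) (fun _ => 2 ^ i)
    simp only [Y]
    rw [h1]
    simp only [prod_const, card_univ, Fintype.card_fin]
    push_cast
    rw [← mul_pow, ← pow_add, add_comm j i]
  have hcard : (F.image P).card = F.card := card_image_of_injective _ hPinj
  rw [← hcard, ← hprodY]
  rcases le_or_gt i j with hij | hij
  · -- left half
    have hle : (2 : ℕ) ^ i ≤ 2 ^ j := Nat.pow_le_pow_right (by norm_num) hij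
    apply hC γ R hR (univ.map ((Function.Embedding.inl).trans (t9e n).toEmbedding))
      (by rw [card_map, card_univ, Fintype.card_fin]) Y (2 ^ j) hY ?_ Nat.one_le_two_pow hjR ?_
    · intro p hp
      obtain ⟨a1, a2, a3, a4, a5, a6⟩ := hT p hp
      exact ⟨a1, a2, a3, a4, fun k _ => a5 k, a6⟩
    · intro k hk
      rw [mem_map] at hk
      obtain ⟨k', _, rfl⟩ := hk
      exact t9J_inl _ _ k'
    · rwa [max_eq_right hij] at hAC
  · -- right half
    have hle : (2 : ℕ) ^ j ≤ 2 ^ i := Nat.pow_le_pow_right (by norm_num) hij.le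
    apply hC γ R hR (univ.map ((Function.Embedding.inr).trans (t9e n).toEmbedding))
      (by rw [card_map, card_univ, Fintype.card_fin]) Y (2 ^ i) hY ?_ Nat.one_le_two_pow hiR ?_
    · intro p hp
      obtain ⟨a1, a2, a3, a4, a5, a6⟩ := hT p hp
      exact ⟨a1, a2, a3, a4, fun k _ => a5 k, a6⟩
    · intro k hk
      rw [mem_map] at hk
      obtain ⟨k', _, rfl⟩ := hk
      exact t9J_inr _ _ k'
    · rwa [max_eq_left hij.le] at hAC

end Pool.Agent.IDE
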