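import Pool.Agent.IDE.D2
import Pool.Agent.IDS.O1

set_option autoImplicit false

namespace Pool.Agent.IDE

open Finset Pool.Agent.IDS MeasureTheory

/-- `ρ_q = q 2^{-κ q}` -/
noncomputable def rho (κ : ℕ → ℕ) (q : ℕ) : ℝ := q * (1 / 2 : ℝ) ^ κ q

/-- the scale `T_q = ρ_q^{-7/16}` -/
noncomputable def tT (κ : ℕ → ℕ) (q : ℕ) : ℝ := (1 / rho κ q) ^ ((7 : ℝ) / 16)

/-- denominator `N_q` -/
noncomputable def tN (γ : ℝ) (κ : ℕ → ℕ) (q : ℕ) : ℕ := den γ (tT κ q)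

/-- numerator `P_q` -/
noncomputable def tP (γ : ℝ) (κ : ℕ → ℕ) (q : ℕ) : ℤ := num γ (tT κ q)

/-- `Z_q = max (N_q, ‖N_q γ‖/ρ_q)` -/
noncomputable def tZ (γ : ℝ) (κ : ℕ → ℕ) (q : ℕ) : ℝ :=
  max (tN γ κ q : ℝ) (1 / rho κ q * eta γ (tT κ q))

/-- the sieving primes -/
noncomputable def tg (γ : ℝ) (κ : ℕ → ℕ) (q : ℕ) : Finset ℕ := by
  classical
  exact q.primeFactors.filter (fun p => Real.log (tZ γ κ q) < p ∧ ¬ p ∣ tN γ κ q)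

/-- the weight -/
noncomputable def tc (γ : ℝ) (κ : ℕ → ℕ) (q : ℕ) : ℝ :=
  (Nat.totient q : ℝ) / q / ∏ p ∈ tg γ κ q, (1 - 1 / (p : ℝ))

/-- a target set (1-periodic): `‖q x - γ‖ ≤ ρ` and `N b + P` is prime to the primes of `Q`, `b` the
integer nearest to `q x - γ` -/
def AS (γ : ℝ) (q : ℕ) (ρ : ℝ) (N : ℕ) (P : ℤ) (Q : Finset ℕ) : Set ℝ :=
  {x | nd (q * x - γ) ≤ ρ ∧ ∀ p ∈ Q, ¬ ((p : ℤ) ∣ (N : ℤ) * round (q * x - γ) + P)}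

/-- measure of the part in `[0,1]` -/
noncomputable def vl (A : Set ℝ) : ℝ := (volume (A ∩ Set.Icc (0 : ℝ) 1)).toReal

/-- the integer `N₂ m' u_q - N₁ m u_r` -/
noncomputable def HH (γ : ℝ) (q r : ℕ) (N₁ : ℕ) (P₁ : ℤ) (N₂ : ℕ) (P₂ : ℤ) (x : ℝ) : ℤ :=
  (N₂ : ℤ) * rd r q * ((N₁ : ℤ) * round (q * x - γ) + P₁) -
    (N₁ : ℤ) * rd q r * ((N₂ : ℤ) * round (r * x - γ) + P₂)

/-- the target set of `q` -/
noncomputable def Ax (γ : ℝ) (κ : ℕ → ℕ) (q : ℕ) : Set ℝ :=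
  AS γ q (rho κ q) (tN γ κ q) (tP γ κ q) (tg γ κ q)

/-- the integer `H` of the pair `(q, r)` -/
noncomputable def Hx (γ : ℝ) (κ : ℕ → ℕ) (q r : ℕ) (x : ℝ) : ℤ :=
  HH γ q r (tN γ κ q) (tP γ κ q) (tN γ κ r) (tP γ κ r) x

/-- the admissible indices -/
def Adm (κ : ℕ → ℕ) (q : ℕ) : Prop := 1 ≤ q ∧ rho κ q < 1 / 2

theorem rho_pos (κ : ℕ → ℕ) (q : ℕ) (hq : 1 ≤ q) : 0 < rho κ q := by
  unfold rho; positivity

/-- [IDE-TG1] PROOF. `1/ρ > 2`. -/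
theorem one_le_tT (κ : ℕ → ℕ) (q : ℕ) (h : Adm κ q) : 1 ≤ tT κ q := by
  unfold tT
  have h0 := rho_pos κ q h.1
  apply Real.one_le_rpow _ (by norm_num)
  rw [le_div_iff₀ h0]
  linarith [h.2]

/-- [IDE-TG1] PROOF. `den_pos`. -/
theorem one_le_tN (γ : ℝ) (κ : ℕ → ℕ) (q : ℕ) (h : Adm κ q) : 1 ≤ tN γ κ q :=
  den_pos γ _ (lt_of_lt_of_le one_pos (one_le_tT κ q h))

/-- [IDE-TG1] -/
theorem tN_le_tZ (γ : ℝ) (κ : ℕ → ℕ) (q : ℕ) : (tN γ κ q : ℝ) ≤ tZ γ κ q := le_max_left _ _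

/-- [IDE-TG1] -/
theorem one_le_tZ (γ : ℝ) (κ : ℕ → ℕ) (q : ℕ) (h : Adm κ q) : 1 ≤ tZ γ κ q := by
  have h1 : (1 : ℝ) ≤ tN γ κ q := by exact_mod_cast one_le_tN γ κ q h
  exact h1.trans (tN_le_tZ γ κ q)

/-- [IDE-TG1] -/
theorem mem_tg (γ : ℝ) (κ : ℕ → ℕ) (q p : ℕ) :
    p ∈ tg γ κ q ↔ p ∈ q.primeFactors ∧ Real.log (tZ γ κ q) < p ∧ ¬ p ∣ tN γ κ q := by
  unfold tg
  rw [Finset.mem_filter]

theorem tg_subset (γ : ℝ) (κ : ℕ → ℕ) (q : ℕ) : tg γ κ q ⊆ q.primeFactors := by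
  intro p hp
  exact ((mem_tg γ κ q p).1 hp).1

theorem tg_factor (q p : ℕ) (hp : p ∈ q.primeFactors) :
    0 < 1 - 1 / (p : ℝ) ∧ 1 - 1 / (p : ℝ) ≤ 1 := by
  have h2 : 2 ≤ p := (Nat.prime_of_mem_primeFactors hp).two_le
  have h2' : (2 : ℝ) ≤ p := by exact_mod_cast h2
  constructor
  · have : 1 / (p : ℝ) < 1 := by
      rw [div_lt_one (by linarith)]
      linarith
    linarith
  · have : 0 ≤ 1 / (p : ℝ) := by positivity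
    linarith

theorem tg_prod_pos (γ : ℝ) (κ : ℕ → ℕ) (q : ℕ) :
    0 < ∏ p ∈ tg γ κ q, (1 - 1 / (p : ℝ)) :=
  Finset.prod_pos fun p hp => (tg_factor q p (tg_subset γ κ q hp)).1

theorem tg_totient (q : ℕ) (h : 1 ≤ q) :
    (Nat.totient q : ℝ) / q = ∏ p ∈ q.primeFactors, (1 - 1 / (p : ℝ)) := by
  have h1 := Nat.totient_eq_mul_prod_factors q
  have h2 : ((Nat.totient q : ℚ) : ℝ) = ((q * ∏ p ∈ q.primeFactors, (1 - (p : ℚ)⁻¹) : ℚ) : ℝ) := by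
    rw [h1]
  push_cast at h2
  have hq : (q : ℝ) ≠ 0 := by
    have : (0 : ℝ) < q := by exact_mod_cast h
    exact this.ne'
  rw [h2]
  simp only [one_div]
  field_simp

/-- [IDE-TG1] PROOF. The factors `1 - 1/p` are positive. -/
theorem tc_mul (γ : ℝ) (κ : ℕ → ℕ) (q : ℕ) :
    tc γ κ q * ∏ p ∈ tg γ κ q, (1 - 1 / (p : ℝ)) = (Nat.totient q : ℝ) / q := by
  unfold tc
  exact div_mul_cancel₀ _ (tg_prod_pos γ κ q).ne'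

/-- [IDE-TG1] PROOF. `φ(q)/q = ∏_{p ∣ q} (1 - 1/p) ≤ ∏_{p ∈ tg} (1 - 1/p)`. -/
theorem tc_nonneg_le (γ : ℝ) (κ : ℕ → ℕ) (q : ℕ) (h : 1 ≤ q) :
    0 ≤ tc γ κ q ∧ tc γ κ q ≤ 1 := by
  have h0 := tg_prod_pos γ κ q
  constructor
  · unfold tc
    exact div_nonneg (by positivity) h0.le
  · unfold tc
    rw [div_le_one h0, tg_totient q h]
    rw [← Finset.prod_sdiff (tg_subset γ κ q)]
    have h1 : ∏ p ∈ q.primeFactors \ tg γ κ q, (1 - 1 / (p : ℝ)) ≤ 1 :=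
      Finset.prod_le_one
        (fun p hp => (tg_factor q p (Finset.mem_sdiff.1 hp).1).1.le)
        (fun p hp => (tg_factor q p (Finset.mem_sdiff.1 hp).1).2)
    nlinarith

/-- [IDE-TG1] -/
theorem HH_swap (γ : ℝ) (q r : ℕ) (N₁ : ℕ) (P₁ : ℤ) (N₂ : ℕ) (P₂ : ℤ) (x : ℝ) :
    HH γ r q N₂ P₂ N₁ P₁ x = - HH γ q r N₁ P₁ N₂ P₂ x := by
  unfold HH; ring

end Pool.Agent.IDE
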