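import Pool.Agent.IDE.VB2

set_option autoImplicit false

namespace Pool.Agent.IDE

open Finset Pool.Agent.IDS

private theorem sum_by_fst (P : Finset (ℕ × ℕ)) (f : ℕ → ℝ) (N : ℕ) (m : ℕ) (c : ℝ)
    (h1 : ∀ q ∈ P, m ≤ q.1 ∧ q.1 < m + N)
    (h2 : ∀ x, m ≤ x → x < m + N → ∑ o ∈ (P.filter (fun q => q.1 = x)).image Prod.snd, f o ≤ c) :
    ∑ q ∈ P, f q.2 ≤ N * c := by
  have h := Finset.sum_fiberwise_of_maps_to (s := P) (t := Finset.Ico m (m + N))
    (g := Prod.fst) (f := fun q => f q.2) (fun q hq => Finset.mem_Ico.2 (h1 q hq))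
  rw [← h]
  have h3 : ∀ x ∈ Finset.Ico m (m + N), ∑ q ∈ P.filter (fun q => q.1 = x), f q.2 ≤ c := by
    intro x hx
    rw [Finset.mem_Ico] at hx
    refine le_trans (le_of_eq ?_) (h2 x hx.1 hx.2)
    rw [Finset.sum_image]
    intro q hq q' hq' he
    rw [Finset.mem_coe, Finset.mem_filter] at hq hq'
    exact Prod.ext (hq.2.trans hq'.2.symm) he
  refine (Finset.sum_le_card_nsmul _ _ c h3).trans ?_
  simp

private theorem sum_by_snd (P : Finset (ℕ × ℕ)) (f : ℕ → ℝ) (M : ℝ) (hf : ∀ o, 0 ≤ f o)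
    (h2 : ∀ o ∈ P.image Prod.snd,
      (((P.filter (fun q => q.2 = o)).image Prod.fst).card : ℝ) ≤ M) :
    ∑ q ∈ P, f q.2 ≤ M * ∑ o ∈ P.image Prod.snd, f o := by
  have h := Finset.sum_fiberwise_of_maps_to (s := P) (t := P.image Prod.snd)
    (g := Prod.snd) (f := fun q => f q.2) (fun q hq => Finset.mem_image_of_mem _ hq)
  rw [← h, Finset.mul_sum]
  refine Finset.sum_le_sum fun o ho => ?_
  have h3 : ∑ q ∈ P.filter (fun q => q.2 = o), f q.2 =
      (P.filter (fun q => q.2 = o)).card * f o := by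
    rw [← nsmul_eq_mul]
    refine Finset.sum_eq_card_nsmul fun q hq => ?_
    rw [(Finset.mem_filter.1 hq).2]
  rw [h3]
  refine mul_le_mul_of_nonneg_right ?_ (hf o)
  refine le_trans (le_of_eq ?_) (h2 o ho)
  rw [Finset.card_image_of_injOn]
  intro q hq q' hq' he
  rw [Finset.mem_coe, Finset.mem_filter] at hq hq'
  exact Prod.ext he (hq.2.trans hq'.2.symm)

private theorem anat (b B : ℕ) (hb : 0 < b) (O : Finset ℕ)
    (hO : ∀ o ∈ O, o ∈ Sq b ∧ 2 ^ B ≤ o ∧ o < 2 ^ (B + 1)) :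
    ∑ o ∈ O, pb b o ≤ 18 / ((B : ℝ) + 1) := by
  refine le_trans ?_ (anatomy b B hb)
  refine Finset.sum_le_sum_of_subset_of_nonneg ?_ (fun o _ _ => pb_nonneg b o)
  intro o ho
  obtain ⟨h1, h2, h3⟩ := hO o ho
  exact Finset.mem_filter.2 ⟨h1, h2, h3⟩

/-- [IDE-V2] **Two-variable lemma.**

PROOF.  `X = 2^A`.  If `R < 2^48`: for each `x` the `o`'s contribute `≤ 18/(B+1)` (`anatomy`), so the
sum is `≤ 18·2^A/(B+1)` (choose `C ≥ 36`).  Let `R ≥ 2^48`.
(a) `2^A < R^20`: for each `x` use `verA` with `c1 = α x ≤ R^16 · 2 R^20 ≤ R^37`.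
(b) `2^A ≥ R^20`: call `o` special if `nd (j (γ α o)) < 16/(√R 2^A)` for some `1 ≤ j ≤ R^{1/64}`.  For
a non-special `o` there are at most `10 R^{-1/64} 2^A` numbers `x ∈ [2^A, 2^{A+1})` with
`nd (γ α o x - ϑ) ≤ 2/R` (`rot_generic64`), and `∑_o pb b o ≤ 18/(B+1)` (`anatomy`).  The special `o`
(occurring in a pair of `P`) satisfy `∑ pb b o ≤ C R^{-1/512}/(B+1)` by `verB`, with at most `2^A`
numbers `x` each. -/
theorem two_var :
    ∃ C : ℝ, 0 < C ∧ ∀ (γ R ϑ : ℝ) (α b A B : ℕ) (P : Finset (ℕ × ℕ)), 1 ≤ R → 1 ≤ α →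
      (α : ℝ) ≤ R ^ 16 → 0 < b →
      (∀ q ∈ P, 2 ^ A ≤ q.1 ∧ q.1 < 2 ^ (A + 1) ∧ q.2 ∈ Sq b ∧ 2 ^ B ≤ q.2 ∧ q.2 < 2 ^ (B + 1) ∧
        nd (γ * (α * q.1 * q.2) - ϑ) ≤ 2 / R ∧ R ^ 80 ≤ (α : ℝ) * q.1 * q.2 ∧
        Gf γ R (α * q.1 * q.2) ∧ Cop γ R (α * q.1 * q.2)) →
      ∑ q ∈ P, pb b q.2 ≤ C * 2 ^ A * R ^ (-(1 : ℝ) / 512) / ((B : ℝ) + 1) := by
  obtain ⟨C₁, hC₁, hA⟩ := verA
  obtain ⟨C₂, hC₂, hB⟩ := verB
  refine ⟨36 + C₁ + 180 + C₂, by positivity, ?_⟩
  intro γ R ϑ α b A B P hR hα hα2 hb hP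
  have hR0 : 0 < R := by linarith
  have hB0 : (0 : ℝ) < (B : ℝ) + 1 := by positivity
  have hsplit : 2 ^ (A + 1) = 2 ^ A + 2 ^ A := by rw [pow_succ]; ring
  have hP1 : ∀ q ∈ P, 2 ^ A ≤ q.1 ∧ q.1 < 2 ^ A + 2 ^ A := by
    intro q hq
    obtain ⟨h1, h2, -⟩ := hP q hq
    exact ⟨h1, by rw [← hsplit]; exact h2⟩
  set r : ℝ := R ^ (-(1 : ℝ) / 512) with hr
  have hr0 : 0 < r := Real.rpow_pos_of_pos hR0 _
  -- it suffices to bound by a smaller constant
  have key : ∀ C' : ℝ, C' ≤ 36 + C₁ + 180 + C₂ →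
      ∑ q ∈ P, pb b q.2 ≤ C' * 2 ^ A * r / ((B : ℝ) + 1) →
      ∑ q ∈ P, pb b q.2 ≤ (36 + C₁ + 180 + C₂) * 2 ^ A * r / ((B : ℝ) + 1) := by
    intro C' h1 h2
    refine h2.trans ?_
    gcongr
  rcases lt_or_ge R (2 ^ 48) with hR48 | hR48
  · -- small R
    refine key 36 (by linarith) ?_
    have h1 : ∑ q ∈ P, pb b q.2 ≤ (2 ^ A : ℕ) * (18 / ((B : ℝ) + 1)) := by
      refine sum_by_fst P (pb b) (2 ^ A) (2 ^ A) _ hP1 ?_
      intro x _ _
      refine anat b B hb _ ?_
      intro o ho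
      simp only [Finset.mem_image, Finset.mem_filter] at ho
      obtain ⟨q, ⟨hq, -⟩, rfl⟩ := ho
      obtain ⟨-, -, h3, h4, h5, -⟩ := hP q hq
      exact ⟨h3, h4, h5⟩
    refine h1.trans ?_
    have h2 : (1 : ℝ) / 2 ≤ r := by
      have e1 : ((2 : ℝ) ^ 48) ^ (-(1 : ℝ) / 512) ≤ r :=
        Real.rpow_le_rpow_of_nonpos hR0 hR48.le (by norm_num)
      have e2 : ((2 : ℝ) ^ 48) ^ (-(1 : ℝ) / 512) = (2 : ℝ) ^ (-(48 : ℝ) / 512) := by
        rw [← Real.rpow_natCast, ← Real.rpow_mul (by norm_num)]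
        norm_num
      have e3 : (2 : ℝ) ^ (-(1 : ℝ)) ≤ (2 : ℝ) ^ (-(48 : ℝ) / 512) :=
        Real.rpow_le_rpow_of_exponent_le (by norm_num) (by norm_num)
      rw [Real.rpow_neg_one] at e3
      rw [e2] at e1
      linarith
    push_cast
    rw [mul_div_assoc', div_le_div_iff_of_pos_right hB0]
    have h3 : (0 : ℝ) < 2 ^ A := by positivity
    nlinarith
  · have hR8 : 8 ≤ R := le_trans (by norm_num) hR48
    rcases lt_or_ge ((2 : ℝ) ^ A) (R ^ 20) with hXA | hXA
    · -- case (a)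
      refine key C₁ (by linarith) ?_
      have h1 : ∑ q ∈ P, pb b q.2 ≤ (2 ^ A : ℕ) * (C₁ * r / ((B : ℝ) + 1)) := by
        refine sum_by_fst P (pb b) (2 ^ A) (2 ^ A) _ hP1 ?_
        intro x hx1 hx2
        have hx0 : 1 ≤ x := le_trans Nat.one_le_two_pow hx1
        have hc1 : 1 ≤ α * x := Nat.one_le_iff_ne_zero.2 (by positivity)
        refine hA γ R ϑ (α * x) b B _ hR hc1 ?_ hb ?_ ?_
        · have hx3 : (x : ℝ) ≤ 2 * R ^ 20 := by
            have : (x : ℝ) < 2 ^ A + 2 ^ A := by exact_mod_cast hx2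
            linarith
          push_cast
          calc (α : ℝ) * x ≤ R ^ 16 * (2 * R ^ 20) := by gcongr
            _ = 2 * R ^ 36 := by ring
            _ ≤ R * R ^ 36 := by gcongr; linarith
            _ = R ^ 37 := by ring
        · intro o ho
          simp only [Finset.mem_image, Finset.mem_filter] at ho
          obtain ⟨q, ⟨hq, -⟩, rfl⟩ := ho
          exact (hP q hq).2.2.1
        · intro o ho
          simp only [Finset.mem_image, Finset.mem_filter] at ho
          obtain ⟨q, ⟨hq, hqx⟩, rfl⟩ := ho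
          obtain ⟨-, -, h3, h4, h5, h6, h7, h8, h9⟩ := hP q hq
          subst hqx
          refine ⟨h4, h5, ?_, ?_, h8, h9⟩
          · push_cast; exact h6
          · push_cast; exact h7
      refine h1.trans (le_of_eq ?_)
      push_cast
      ring
    · -- case (b)
      refine key (180 + C₂) (by linarith) ?_
      classical
      set sp : ℕ → Prop := fun o => ∃ j : ℕ, 1 ≤ j ∧ (j : ℝ) ≤ R ^ ((1 : ℝ) / 64) ∧
        nd ((j * (α * o) : ℕ) * γ) < 16 / (Real.sqrt R * (2 ^ A : ℕ)) with hsp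
      rw [← Finset.sum_filter_add_sum_filter_not P (fun q => sp q.2)]
      -- special part
      have hS : ∑ q ∈ P.filter (fun q => sp q.2), pb b q.2 ≤
          (2 ^ A) * (C₂ * r / ((B : ℝ) + 1)) := by
        refine (sum_by_snd _ (pb b) (2 ^ A) (pb_nonneg b) ?_).trans ?_
        · intro o _
          have hsub : ((P.filter (fun q => sp q.2)).filter (fun q => q.2 = o)).image Prod.fst ⊆
              Finset.Ico (2 ^ A) (2 ^ A + 2 ^ A) := by
            intro x hx
            simp only [Finset.mem_image, Finset.mem_filter] at hx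
            obtain ⟨q, ⟨⟨hq, -⟩, -⟩, rfl⟩ := hx
            exact Finset.mem_Ico.2 (hP1 q hq)
          have h3 := Finset.card_le_card hsub
          rw [Nat.card_Ico, Nat.add_sub_cancel] at h3
          exact_mod_cast h3
        · refine mul_le_mul_of_nonneg_left ?_ (by positivity)
          refine hB γ R (2 ^ A) α b B _ hR (by push_cast; exact hXA) hα hα2 hb ?_ ?_
          · intro o ho
            simp only [Finset.mem_image, Finset.mem_filter] at ho
            obtain ⟨q, ⟨hq, -⟩, rfl⟩ := ho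
            exact (hP q hq).2.2.1
          · intro o ho
            simp only [Finset.mem_image, Finset.mem_filter] at ho
            obtain ⟨q, ⟨hq, hqs⟩, rfl⟩ := ho
            obtain ⟨h1, h2, h3, h4, h5, h6, h7, h8, h9⟩ := hP q hq
            exact ⟨h4, h5, hqs, q.1, h1, by rw [two_mul, ← hsplit]; exact h2, h8, h9⟩
      have hN : ∑ q ∈ P.filter (fun q => ¬ sp q.2), pb b q.2 ≤
          (10 * R ^ (-(1 : ℝ) / 64) * 2 ^ A) * (18 / ((B : ℝ) + 1)) := by
        refine (sum_by_snd _ (pb b) (10 * R ^ (-(1 : ℝ) / 64) * 2 ^ A) (pb_nonneg b) ?_).trans ?_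
        · intro o ho
          simp only [Finset.mem_image, Finset.mem_filter] at ho
          obtain ⟨q0, ⟨hq0, hns⟩, rfl⟩ := ho
          have hX64 : R ^ ((1 : ℝ) / 64) ≤ ((2 ^ A : ℕ) : ℝ) := by
            push_cast
            refine le_trans ?_ hXA
            rw [← Real.rpow_natCast R 20]
            exact Real.rpow_le_rpow_of_exponent_le hR (by norm_num)
          have h10 := rot_generic64 R (γ * (α * q0.2)) ϑ (2 ^ A) hR hX64 (by
            intro j hj1 hj2
            by_contra hcon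
            push Not at hcon
            refine hns ⟨j, hj1, hj2, ?_⟩
            have e1 : ((j * (α * q0.2) : ℕ) : ℝ) * γ = j * (γ * (α * q0.2)) := by
              push_cast; ring
            rw [e1]; exact hcon) (2 ^ A)
          push_cast at h10
          refine le_trans ?_ h10
          have hsub : ((P.filter (fun q => ¬ sp q.2)).filter (fun q => q.2 = q0.2)).image
              Prod.fst ⊆ (Finset.Ico (2 ^ A) (2 ^ A + 2 ^ A)).filter
                (fun x : ℕ => nd (γ * (α * q0.2) * x - ϑ) ≤ 2 / R) := by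
            intro x hx
            simp only [Finset.mem_image, Finset.mem_filter] at hx
            obtain ⟨q, ⟨⟨hq, -⟩, hq2⟩, rfl⟩ := hx
            obtain ⟨h1, h2, h3, h4, h5, h6, h7, h8, h9⟩ := hP q hq
            refine Finset.mem_filter.2 ⟨Finset.mem_Ico.2 (hP1 q hq), ?_⟩
            have e1 : γ * ((α : ℝ) * q0.2) * q.1 = γ * (α * q.1 * q.2) := by
              rw [hq2]; ring
            rw [e1]; exact h6
          exact_mod_cast Finset.card_le_card hsub
        · refine mul_le_mul_of_nonneg_left ?_ (by positivity)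
          refine anat b B hb _ ?_
          intro o ho
          simp only [Finset.mem_image, Finset.mem_filter] at ho
          obtain ⟨q, ⟨hq, -⟩, rfl⟩ := ho
          obtain ⟨-, -, h3, h4, h5, -⟩ := hP q hq
          exact ⟨h3, h4, h5⟩
      have h64 : R ^ (-(1 : ℝ) / 64) ≤ r :=
        Real.rpow_le_rpow_of_exponent_le hR (by norm_num)
      have hN2 : (10 * R ^ (-(1 : ℝ) / 64) * 2 ^ A) * (18 / ((B : ℝ) + 1)) ≤
          (10 * r * 2 ^ A) * (18 / ((B : ℝ) + 1)) := by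
        gcongr
      refine (add_le_add hS (hN.trans hN2)).trans (le_of_eq ?_)
      ring

end Pool.Agent.IDE
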