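import Pool.Agent.IDE.LB2
import Pool.Agent.IDE.D4
import Pool.Agent.IDE.Rot

set_option autoImplicit false

namespace Pool.Agent.IDE

open Finset Pool.Agent.IDS

/-- [IDE-VA1] **Fixed `x`, small `B`.**

PROOF.  (All statements for `O ≠ ∅`.)  `c1 o ≥ R^80`, `c1 ≤ R^37` and `o < 2^{B+1}` give
`2^B ≥ R^43/2 ≥ R^42`.  Let `T = √R 2^B/32 ≥ R/8`.
Claim: `nd (j (γ c1)) ≥ 16/(√R 2^B) = 1/(2T)` for all `1 ≤ j ≤ R^{1/64}`.  Otherwise
`special_lt` (`s = j`, `c = c1`, `m = c1 o` for one `o ∈ O`; `j c1 eta γ T ≤ R^{38}/T ≤ 1/2`) gives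
`T j c1 < c1 o R^{3/8} < 2 c1 2^B R^{3/8}`, so `√R/32 < 2 R^{3/8}`, `R^{1/8} < 64`: false.
So `rot_generic64` with `X = 2^B`, `ω = γ c1`: `#O ≤ 10 R^{-1/64} 2^B`, and `pb b o ≤ 1/o ≤ 2^{-B}`:
the sum is `≤ 10 R^{-1/64} ≤ 20 R^{-1/64+1/256}/(B+1)` (`B + 1 ≤ 2 R^{1/256}`), `≤ 20 R^{-1/512}/(B+1)`. -/
theorem verA_small (γ R ϑ : ℝ) (c1 b B : ℕ) (O : Finset ℕ) (hR : 2 ^ 48 ≤ R)
    (hB : (B : ℝ) ≤ R ^ ((1 : ℝ) / 256)) (hc1 : 1 ≤ c1) (hc2 : (c1 : ℝ) ≤ R ^ 37) (hb : 0 < b)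
    (hO : O ⊆ Sq b)
    (h : ∀ o ∈ O, 2 ^ B ≤ o ∧ o < 2 ^ (B + 1) ∧ nd (γ * (c1 * o) - ϑ) ≤ 2 / R ∧
      R ^ 80 ≤ (c1 : ℝ) * o ∧ Gf γ R (c1 * o) ∧ Cop γ R (c1 * o)) :
    ∑ o ∈ O, pb b o ≤ 20 * R ^ (-(1 : ℝ) / 512) / ((B : ℝ) + 1) := by
  have hR1 : (1:ℝ) ≤ R := le_trans (by norm_num) hR
  have hR2 : (2:ℝ) ≤ R := le_trans (by norm_num) hR
  have hR0 : (0:ℝ) < R := by linarith
  rcases O.eq_empty_or_nonempty with rfl | ⟨o0, ho0⟩
  · simp only [Finset.sum_empty]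
    positivity
  obtain ⟨hl0, hu0, -, hbig, hGf0, hCop0⟩ := h o0 ho0
  have hc1r : (1:ℝ) ≤ c1 := by exact_mod_cast hc1
  have hl0r : ((2:ℝ) ^ B) ≤ o0 := by exact_mod_cast hl0
  have hu0r : (o0:ℝ) < 2 ^ (B + 1) := by exact_mod_cast hu0
  have hX0 : (0:ℝ) < 2 ^ B := by positivity
  have ho0pos : (0:ℝ) < o0 := lt_of_lt_of_le hX0 hl0r
  -- `2^B ≥ R^42`
  have hX : R ^ 42 ≤ (2:ℝ) ^ B := by
    have h1 : R ^ 80 ≤ R ^ 37 * (2 * 2 ^ B) := by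
      calc R ^ 80 ≤ (c1:ℝ) * o0 := hbig
        _ ≤ R ^ 37 * (2 * 2 ^ B) := by
          apply mul_le_mul hc2 _ ho0pos.le (by positivity)
          rw [pow_succ] at hu0r
          linarith
    have h2 : R ^ 80 = R ^ 37 * R ^ 43 := by ring
    rw [h2] at h1
    have h3 : R ^ 43 ≤ 2 * 2 ^ B := le_of_mul_le_mul_left h1 (by positivity)
    have h4 : 2 * R ^ 42 ≤ R ^ 43 := by
      rw [pow_succ R 42, mul_comm]
      exact mul_le_mul_of_nonneg_left hR2 (by positivity)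
    linarith
  have hsq1 : 1 ≤ Real.sqrt R := Real.one_le_sqrt.mpr hR1
  have hsq0 : 0 < Real.sqrt R := by linarith
  set T : ℝ := Real.sqrt R * 2 ^ B / 32 with hTdef
  have hT0 : 0 < T := by positivity
  have hR38 : (64:ℝ) * R ^ 38 ≤ R ^ 42 := by
    have e : R ^ 42 = R ^ 4 * R ^ 38 := by ring
    rw [e]
    apply mul_le_mul_of_nonneg_right _ (by positivity)
    calc (64:ℝ) ≤ (2 ^ 48) ^ 4 := by norm_num
      _ ≤ R ^ 4 := pow_le_pow_left₀ (by norm_num) hR 4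
  have hT38 : 2 * R ^ 38 ≤ T := by
    rw [hTdef]
    have : R ^ 42 ≤ Real.sqrt R * 2 ^ B := by
      calc R ^ 42 ≤ 2 ^ B := hX
        _ ≤ Real.sqrt R * 2 ^ B := le_mul_of_one_le_left hX0.le hsq1
    linarith
  have hTR : R / 8 ≤ T := by
    have : R ≤ R ^ 38 := le_self_pow₀ hR1 (by norm_num)
    linarith
  -- the claim
  have hclaim : ∀ j : ℕ, 1 ≤ j → (j : ℝ) ≤ R ^ ((1 : ℝ) / 64) →
      16 / (Real.sqrt R * ((2 ^ B : ℕ) : ℝ)) ≤ nd (j * (γ * c1)) := by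
    intro j hj hj2
    by_contra hcon
    rw [not_le] at hcon
    have hjr : (1:ℝ) ≤ j := by exact_mod_cast hj
    have hj8 : (j:ℝ) < R ^ ((1:ℝ) / 8) := by
      refine lt_of_le_of_lt hj2 ?_
      exact Real.rpow_lt_rpow_of_exponent_lt (by linarith) (by norm_num)
    have hjR : (j:ℝ) ≤ R := by
      refine hj2.trans ?_
      calc R ^ ((1:ℝ) / 64) ≤ R ^ (1:ℝ) := Real.rpow_le_rpow_of_exponent_le hR1 (by norm_num)
        _ = R := Real.rpow_one R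
    have e1 : nd (((j * c1 : ℕ) : ℝ) * γ) < 1 / (2 * T) := by
      have a1 : ((j * c1 : ℕ) : ℝ) * γ = j * (γ * c1) := by
        push_cast
        ring
      have a2 : 1 / (2 * T) = 16 / (Real.sqrt R * ((2 ^ B : ℕ) : ℝ)) := by
        rw [hTdef]
        push_cast
        field_simp
        norm_num
      rw [a1, a2]
      exact hcon
    have hjc : ((j * c1 : ℕ) : ℝ) ≤ R ^ 38 := by
      push_cast
      calc (j:ℝ) * c1 ≤ R * R ^ 37 := mul_le_mul hjR hc2 (by positivity) hR0.le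
        _ = R ^ 38 := by ring
    have e2 : ((j * c1 : ℕ) : ℝ) * eta γ T ≤ 1 / 2 := by
      have a1 := eta_le γ T hT0
      have a2 := eta_nonneg γ T
      calc ((j * c1 : ℕ) : ℝ) * eta γ T ≤ R ^ 38 * (1 / T) :=
            mul_le_mul hjc a1 a2 (by positivity)
        _ ≤ 1 / 2 := by
            rw [mul_one_div, div_le_iff₀ hT0]
            linarith
    have hkey := special_lt γ R T j c1 (c1 * o0) hR hTR hj hj8 hc1
      (Nat.mul_pos hc1 (by exact_mod_cast ho0pos)) (Nat.dvd_mul_right c1 o0) hCop0 hGf0 e1 e2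
    -- contradiction
    have hR38' : 0 < R ^ ((3:ℝ) / 8) := Real.rpow_pos_of_pos hR0 _
    have k1 : T * ((j * c1 : ℕ) : ℝ) ≥ T * c1 := by
      push_cast
      apply mul_le_mul_of_nonneg_left _ hT0.le
      exact le_mul_of_one_le_left (by positivity) hjr
    have k2 : (((c1 * o0 : ℕ) : ℝ)) * R ^ ((3:ℝ) / 8) ≤ c1 * (2 * 2 ^ B) * R ^ ((3:ℝ) / 8) := by
      push_cast
      apply mul_le_mul_of_nonneg_right _ hR38'.le
      apply mul_le_mul_of_nonneg_left _ (by positivity)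
      rw [pow_succ] at hu0r
      linarith
    have k3 : T * c1 < c1 * (2 * 2 ^ B) * R ^ ((3:ℝ) / 8) :=
      lt_of_le_of_lt k1 (lt_of_lt_of_le hkey k2)
    have k4 : Real.sqrt R < 64 * R ^ ((3:ℝ) / 8) := by
      rw [hTdef] at k3
      have k5 : Real.sqrt R * ((2:ℝ) ^ B * c1) < 64 * R ^ ((3:ℝ) / 8) * (2 ^ B * c1) := by
        nlinarith
      exact lt_of_mul_lt_mul_right k5 (by positivity)
    have k6 : Real.sqrt R = R ^ ((1:ℝ) / 8) * R ^ ((3:ℝ) / 8) := by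
      rw [← Real.rpow_add hR0, Real.sqrt_eq_rpow]
      norm_num
    rw [k6] at k4
    have k7 : R ^ ((1:ℝ) / 8) < 64 := lt_of_mul_lt_mul_right k4 hR38'.le
    have k8 : (64:ℝ) ≤ R ^ ((1:ℝ) / 8) := by
      calc (64:ℝ) = ((2:ℝ) ^ 48) ^ ((1:ℝ) / 8) := by
            rw [← Real.rpow_natCast, ← Real.rpow_mul (by norm_num)]
            norm_num
        _ ≤ R ^ ((1:ℝ) / 8) := Real.rpow_le_rpow (by norm_num) hR (by norm_num)
    linarith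
  have hXr : R ^ ((1 : ℝ) / 64) ≤ ((2 ^ B : ℕ) : ℝ) := by
    push_cast
    calc R ^ ((1:ℝ) / 64) ≤ R ^ ((42:ℕ):ℝ) :=
          Real.rpow_le_rpow_of_exponent_le hR1 (by norm_num)
      _ = R ^ 42 := Real.rpow_natCast R 42
      _ ≤ 2 ^ B := hX
  have hrot := rot_generic64 R (γ * c1) ϑ (2 ^ B) hR1 hXr hclaim (2 ^ B)
  have hsub : O ⊆ (Ico (2 ^ B) (2 ^ B + 2 ^ B)).filter
      (fun x : ℕ => nd (γ * c1 * x - ϑ) ≤ 2 / R) := by
    intro o ho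
    obtain ⟨h1, h2, h3, -⟩ := h o ho
    rw [mem_filter, mem_Ico]
    refine ⟨⟨h1, ?_⟩, ?_⟩
    · rw [pow_succ] at h2
      omega
    · rw [mul_assoc]
      exact h3
  have hcard : (O.card : ℝ) ≤ 10 * R ^ (-(1 : ℝ) / 64) * ((2 ^ B : ℕ) : ℝ) := by
    refine le_trans ?_ hrot
    exact_mod_cast card_le_card hsub
  have hpb : ∀ o ∈ O, pb b o ≤ 1 / 2 ^ B := by
    intro o ho
    refine (pb_le b o hb (hO ho)).trans ?_
    apply one_div_le_one_div_of_le hX0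
    exact_mod_cast (h o ho).1
  have hsum : ∑ o ∈ O, pb b o ≤ 10 * R ^ (-(1 : ℝ) / 64) := by
    calc ∑ o ∈ O, pb b o ≤ ∑ o ∈ O, 1 / (2:ℝ) ^ B := sum_le_sum hpb
      _ = O.card * (1 / (2:ℝ) ^ B) := by rw [sum_const, nsmul_eq_mul]
      _ ≤ (10 * R ^ (-(1 : ℝ) / 64) * ((2 ^ B : ℕ) : ℝ)) * (1 / (2:ℝ) ^ B) :=
          mul_le_mul_of_nonneg_right hcard (by positivity)
      _ = 10 * R ^ (-(1 : ℝ) / 64) := by
          push_cast
          field_simp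
  have hBp : (0:ℝ) < (B:ℝ) + 1 := by positivity
  rw [le_div_iff₀ hBp]
  have hB2 : (B:ℝ) + 1 ≤ 2 * R ^ ((1:ℝ) / 256) := by
    have : (1:ℝ) ≤ R ^ ((1:ℝ) / 256) := Real.one_le_rpow hR1 (by norm_num)
    linarith
  have hnn : 0 ≤ R ^ (-(1 : ℝ) / 64) := (Real.rpow_pos_of_pos hR0 _).le
  calc (∑ o ∈ O, pb b o) * ((B:ℝ) + 1) ≤ (10 * R ^ (-(1 : ℝ) / 64)) * (2 * R ^ ((1:ℝ) / 256)) :=
        mul_le_mul hsum hB2 hBp.le (by positivity)
    _ = 20 * R ^ (-(1 : ℝ) / 64 + 1 / 256) := by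
        rw [Real.rpow_add hR0]
        ring
    _ ≤ 20 * R ^ (-(1 : ℝ) / 512) := by
        apply mul_le_mul_of_nonneg_left _ (by norm_num)
        exact Real.rpow_le_rpow_of_exponent_le hR1 (by norm_num)

end Pool.Agent.IDE
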