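import Pool.Agent.IDE.VA

set_option autoImplicit false

namespace Pool.Agent.IDE

open Finset Pool.Agent.IDS

theorem va2_two_pow_log (o' : ℕ) (ho : 1 ≤ o') : (2 : ℝ) ^ Nat.log 2 o' ≤ o' := by
  have h : 2 ^ Nat.log 2 o' ≤ o' := Nat.pow_log_le_self 2 (by omega)
  exact_mod_cast h

/-- [IDE-VA2] PROOF.  `2^{log₂ o'} ≤ o' ≤ 2^{B+1}/p ≤ 2^{B+1}/R²`, so
`T = √(R/2) 2^B/(4·2^{log₂ o'}) ≥ √(R/2) R²/8 ≥ R/8`. -/
theorem TT_ge (R : ℝ) (B p o' : ℕ) (hR : 2 ≤ R) (ho : 1 ≤ o') (hp : R ^ 2 ≤ (p : ℝ))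
    (h : p * o' < 2 ^ (B + 1)) : R / 8 ≤ TT R B o' := by
  unfold TT
  have hq := va2_two_pow_log o' ho
  have hq0 : (0 : ℝ) < 2 ^ Nat.log 2 o' := by positivity
  have hD : (0 : ℝ) < 2 ^ B := by positivity
  have hs : 1 ≤ Real.sqrt (R / 2) := by
    rw [Real.one_le_sqrt]
    linarith
  have h1 : (p : ℝ) * o' < 2 * 2 ^ B := by
    have : ((p * o' : ℕ) : ℝ) < ((2 ^ (B + 1) : ℕ) : ℝ) := Nat.cast_lt.2 h
    push_cast at this
    rw [pow_succ] at this
    linarith
  set q : ℝ := 2 ^ Nat.log 2 o'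
  set D : ℝ := 2 ^ B
  rw [le_div_iff₀ (by positivity)]
  have h2 : R ^ 2 * q ≤ p * o' := mul_le_mul hp hq hq0.le (Nat.cast_nonneg _)
  have h3 : D ≤ Real.sqrt (R / 2) * D := by nlinarith
  have h4 : R * q ≤ R ^ 2 * q := by
    apply mul_le_mul_of_nonneg_right _ hq0.le
    nlinarith
  linarith

/-- [IDE-VA2] **Fixed `x`.**

PROOF.  `R < 2^48`: `anatomy` (`18/(B+1)`, `C ≥ 36`).  `R ≥ 2^48` and `B ≤ R^{1/256}`: `verA_small`.
`R ≥ 2^48`, `B ≥ R^{1/256}`: `large_B` (its third hypothesis with `j = 1`).  The last hypothesis of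
`large_B`: let `T = TT R B o' ≥ R/8` (`TT_ge`), `s' = s j < R^{1/8}` (`1/16 + 1/64 < 1/8`),
`c = c1 o'`, `m = c1 (p o') = c p`; if `s' c eta γ T ≤ 1/2` then `special_lt` gives
`T s' c < c p R^{3/8}`, so `√(R/2) 2^B < 4·2^{log₂ o'} p R^{3/8} ≤ 4 o' p R^{3/8} < 8·2^B R^{3/8}`,
`R^{1/8} < 8√2`, false for `R ≥ 2^48`. -/
theorem verA :
    ∃ C : ℝ, 0 < C ∧ ∀ (γ R ϑ : ℝ) (c1 b B : ℕ) (O : Finset ℕ), 1 ≤ R → 1 ≤ c1 →
      (c1 : ℝ) ≤ R ^ 37 → 0 < b → O ⊆ Sq b →
      (∀ o ∈ O, 2 ^ B ≤ o ∧ o < 2 ^ (B + 1) ∧ nd (γ * (c1 * o) - ϑ) ≤ 2 / R ∧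
        R ^ 80 ≤ (c1 : ℝ) * o ∧ Gf γ R (c1 * o) ∧ Cop γ R (c1 * o)) →
      ∑ o ∈ O, pb b o ≤ C * R ^ (-(1 : ℝ) / 512) / ((B : ℝ) + 1) := by
  obtain ⟨C0, hC0, hLB⟩ := large_B
  refine ⟨max C0 36, lt_of_lt_of_le hC0 (le_max_left _ _), ?_⟩
  intro γ R ϑ c1 b B O hR hc1 hc2 hb hO h
  have hR0 : 0 < R := by linarith
  have hRp : 0 < R ^ (-(1 : ℝ) / 512) := Real.rpow_pos_of_pos hR0 _
  have hB1 : (0 : ℝ) < (B : ℝ) + 1 := by positivity
  have hmono : ∀ c : ℝ, c ≤ max C0 36 →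
      c * R ^ (-(1 : ℝ) / 512) / ((B : ℝ) + 1) ≤ max C0 36 * R ^ (-(1 : ℝ) / 512) / ((B : ℝ) + 1) := by
    intro c hc
    apply div_le_div_of_nonneg_right _ hB1.le
    exact mul_le_mul_of_nonneg_right hc hRp.le
  rcases lt_or_ge R (2 ^ 48) with hR48 | hR48
  · -- small `R`
    have h1 : ∑ o ∈ O, pb b o ≤
        ∑ o ∈ (Sq b).filter (fun o => 2 ^ B ≤ o ∧ o < 2 ^ (B + 1)), pb b o := by
      apply Finset.sum_le_sum_of_subset_of_nonneg
      · intro o ho
        rw [Finset.mem_filter]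
        exact ⟨hO ho, (h o ho).1, (h o ho).2.1⟩
      · intro o _ _
        exact pb_nonneg b o
    refine h1.trans ((anatomy b B hb).trans ?_)
    refine le_trans ?_ (hmono 36 (le_max_right _ _))
    apply div_le_div_of_nonneg_right _ hB1.le
    have h2 : R ^ ((1 : ℝ) / 512) ≤ 2 := by
      have h3 : R ^ ((1 : ℝ) / 512) ≤ ((2 : ℝ) ^ (512 : ℕ)) ^ ((1 : ℝ) / 512) := by
        apply Real.rpow_le_rpow hR0.le _ (by norm_num)
        refine hR48.le.trans ?_
        exact pow_le_pow_right₀ (by norm_num) (by norm_num)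
      have h4 : ((2 : ℝ) ^ (512 : ℕ)) ^ ((1 : ℝ) / 512) = 2 := by
        rw [← Real.rpow_natCast, ← Real.rpow_mul (by norm_num)]
        norm_num
      rwa [h4] at h3
    have h5 : R ^ (-(1 : ℝ) / 512) * R ^ ((1 : ℝ) / 512) = 1 := by
      rw [← Real.rpow_add hR0]
      norm_num
    nlinarith
  · rcases le_or_gt (B : ℝ) (R ^ ((1 : ℝ) / 256)) with hBs | hBl
    · have h1 := verA_small γ R ϑ c1 b B O hR48 hBs hc1 hc2 hb hO h
      exact h1.trans (hmono 20 ((by norm_num : (20 : ℝ) ≤ 36).trans (le_max_right _ _)))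
    · refine (hLB γ R ϑ c1 b B O hR48 hBl.le hc1 hc2 hb hO ?_ ?_).trans (hmono C0 (le_max_left _ _))
      · intro o ho
        obtain ⟨h1, h2, h3, _⟩ := h o ho
        refine ⟨h1, h2, 1, le_refl 1, ?_, ?_⟩
        · rw [Nat.cast_one]
          exact Real.one_le_rpow hR (by norm_num)
        · rw [Nat.cast_one, mul_one]
          exact h3
      · intro p o' s j hp hpR hpo hs hs2 hj hj2 hnd
        by_contra hle
        rw [not_lt] at hle
        obtain ⟨hp1, hp2, _, _, hG, hC⟩ := h _ hpo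
        have ho' : 1 ≤ o' := by
          rcases Nat.eq_zero_or_pos o' with h0 | h0
          · rw [h0, mul_zero] at hp1
            have : 0 < 2 ^ B := by positivity
            omega
          · exact h0
        have hT := TT_ge R B p o' (by linarith) ho' hpR hp2
        have hsj : ((s * j : ℕ) : ℝ) < R ^ ((1 : ℝ) / 8) := by
          push_cast
          have h1 : (s : ℝ) * j ≤ R ^ ((1 : ℝ) / 16) * R ^ ((1 : ℝ) / 64) :=
            mul_le_mul hs2 hj2 (Nat.cast_nonneg _) (Real.rpow_pos_of_pos hR0 _).le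
          rw [← Real.rpow_add hR0] at h1
          refine lt_of_le_of_lt h1 ?_
          apply Real.rpow_lt_rpow_of_exponent_lt (by linarith)
          norm_num
        have e1 : s * j * c1 * o' = s * j * (c1 * o') := by ring
        rw [e1] at hnd hle
        have hmul : c1 * o' ∣ c1 * (p * o') := ⟨p, by ring⟩
        have hppos : 0 < p := hp.pos
        have hlt := special_lt γ R (TT R B o') (s * j) (c1 * o') (c1 * (p * o')) hR48 hT
          (Nat.mul_pos hs hj) hsj (Nat.mul_pos hc1 ho') (Nat.mul_pos hc1 (Nat.mul_pos hppos ho'))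
          hmul hC hG hnd hle
        -- `T < p R^{3/8}`
        have hTpos : 0 < TT R B o' := by
          have : 0 < R / 8 := by positivity
          linarith
        have hco : (0 : ℝ) < (c1 : ℝ) * o' := by
          have h1 : (0 : ℝ) < c1 := by exact_mod_cast hc1
          have h2 : (0 : ℝ) < o' := by exact_mod_cast ho'
          positivity
        have hsj1 : (1 : ℝ) ≤ (s : ℝ) * j := by
          have : 1 ≤ s * j := Nat.mul_pos hs hj
          exact_mod_cast this
        have hlt2 : TT R B o' < p * R ^ ((3 : ℝ) / 8) := by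
          push_cast at hlt
          have h1 : TT R B o' * ((c1 : ℝ) * o') ≤ TT R B o' * ((s : ℝ) * j * ((c1 : ℝ) * o')) := by
            apply mul_le_mul_of_nonneg_left _ hTpos.le
            nlinarith
          have h2 : TT R B o' * ((c1 : ℝ) * o') < p * R ^ ((3 : ℝ) / 8) * ((c1 : ℝ) * o') := by
            refine lt_of_le_of_lt h1 (lt_of_lt_of_eq hlt ?_)
            ring
          exact lt_of_mul_lt_mul_right h2 hco.le
        -- contradiction
        set y : ℝ := R ^ ((1 : ℝ) / 8) with hy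
        have hy0 : 0 < y := Real.rpow_pos_of_pos hR0 _
        have hy3 : R ^ ((3 : ℝ) / 8) = y ^ 3 := by
          rw [hy, ← Real.rpow_natCast, ← Real.rpow_mul hR0.le]
          norm_num
        have hy8 : R = y ^ 8 := by
          rw [hy, ← Real.rpow_natCast, ← Real.rpow_mul hR0.le]
          norm_num
        have hy64 : 64 ≤ y := by
          have h1 : ((2 : ℝ) ^ (48 : ℕ)) ^ ((1 : ℝ) / 8) ≤ y := by
            apply Real.rpow_le_rpow (by positivity) hR48 (by norm_num)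
          have h2 : ((2 : ℝ) ^ (48 : ℕ)) ^ ((1 : ℝ) / 8) = 64 := by
            rw [← Real.rpow_natCast, ← Real.rpow_mul (by norm_num)]
            norm_num
          linarith
        unfold TT at hlt2
        have hq := va2_two_pow_log o' ho'
        have hq0 : (0 : ℝ) < 2 ^ Nat.log 2 o' := by positivity
        have hD : (0 : ℝ) < 2 ^ B := by positivity
        have h1 : (p : ℝ) * o' < 2 * 2 ^ B := by
          have : ((p * o' : ℕ) : ℝ) < ((2 ^ (B + 1) : ℕ) : ℝ) := Nat.cast_lt.2 hp2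
          push_cast at this
          rw [pow_succ] at this
          linarith
        rw [div_lt_iff₀ (by positivity), hy3] at hlt2
        have hp0 : (0 : ℝ) < p := by exact_mod_cast hppos
        have h2 : (p : ℝ) * y ^ 3 * (4 * 2 ^ Nat.log 2 o') ≤ 4 * y ^ 3 * (p * o') := by
          have : (p : ℝ) * y ^ 3 * (4 * 2 ^ Nat.log 2 o') = 4 * y ^ 3 * (p * 2 ^ Nat.log 2 o') := by
            ring
          rw [this]
          apply mul_le_mul_of_nonneg_left _ (by positivity)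
          exact mul_le_mul_of_nonneg_left hq hp0.le
        have h3 : Real.sqrt (R / 2) * 2 ^ B < 8 * y ^ 3 * 2 ^ B := by
          have : 4 * y ^ 3 * ((p : ℝ) * o') < 4 * y ^ 3 * (2 * 2 ^ B) :=
            mul_lt_mul_of_pos_left h1 (by positivity)
          linarith
        have h4 : Real.sqrt (R / 2) < 8 * y ^ 3 := lt_of_mul_lt_mul_right h3 hD.le
        rw [Real.sqrt_lt' (by positivity), hy8] at h4
        have h5 : y ^ 6 * (y ^ 2 - 128) < 0 := by nlinarith
        have h6 : 0 ≤ y ^ 6 * (y ^ 2 - 128) := by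
          apply mul_nonneg (by positivity)
          nlinarith
        linarith

end Pool.Agent.IDE
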