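import Pool.Agent.IDE.VA2

set_option autoImplicit false

namespace Pool.Agent.IDE

open Finset Pool.Agent.IDS

/-- [IDE-VBa] **Special coefficients have a large denominator product.**  `T = √R X/32`.

PROOF.  `T ≥ R/8` (`X ≥ R^20`), `16/(√R X) = 1/(2T)`.  If `j α o eta γ T ≤ 1/2`, then `special_lt`
(`s = j`, `c = α o`, `m = α x o`) gives `T j α o < α x o R^{3/8} < 2 X α o R^{3/8}`, so
`√R/32 < 2 R^{3/8}`, `R^{1/8} < 64`, false. -/
theorem special_big (γ R : ℝ) (X α o j x : ℕ) (hR : 2 ^ 48 ≤ R) (hX : R ^ 20 ≤ (X : ℝ))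
    (hα : 1 ≤ α) (ho : 1 ≤ o) (hj : 1 ≤ j) (hj2 : (j : ℝ) ≤ R ^ ((1 : ℝ) / 64)) (hx : 1 ≤ x)
    (hx2 : x < 2 * X) (hG : Gf γ R (α * x * o)) (hC : Cop γ R (α * x * o))
    (h : nd ((j * (α * o) : ℕ) * γ) < 16 / (Real.sqrt R * X)) :
    1 / 2 < ((j * (α * o) : ℕ) : ℝ) * eta γ (Real.sqrt R * X / 32) := by
  have hR1 : (1 : ℝ) ≤ R := le_trans (by norm_num) hR
  have hR0 : (0 : ℝ) < R := by linarith
  have hs1 : 1 ≤ Real.sqrt R := by
    rw [show (1 : ℝ) = Real.sqrt 1 by simp]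
    exact Real.sqrt_le_sqrt hR1
  have hX1 : (1 : ℝ) ≤ X := le_trans (one_le_pow₀ hR1) hX
  have hX0 : (0 : ℝ) < X := by linarith
  by_contra hcon
  push Not at hcon
  have hT : R / 8 ≤ Real.sqrt R * X / 32 := by
    have h1 : R * 4 ≤ R ^ 20 := by
      have h2 : (4 : ℝ) ≤ R ^ 19 := by
        calc (4 : ℝ) ≤ R := le_trans (by norm_num) hR
          _ ≤ R ^ 19 := le_self_pow₀ hR1 (by norm_num)
      calc R * 4 ≤ R * R ^ 19 := by gcongr
        _ = R ^ 20 := by ring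
    have h3 : R * 4 ≤ Real.sqrt R * X := by
      calc R * 4 ≤ X := h1.trans hX
        _ = 1 * X := by ring
        _ ≤ Real.sqrt R * X := by gcongr
    linarith
  have hj8 : (j : ℝ) < R ^ ((1 : ℝ) / 8) := by
    refine lt_of_le_of_lt hj2 ?_
    apply Real.rpow_lt_rpow_of_exponent_lt (lt_of_lt_of_le (by norm_num) hR)
    norm_num
  have hT2 : 1 / (2 * (Real.sqrt R * X / 32)) = 16 / (Real.sqrt R * X) := by
    have : Real.sqrt R * X ≠ 0 := by positivity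
    field_simp
    norm_num
  have h1 : nd ((j * (α * o) : ℕ) * γ) < 1 / (2 * (Real.sqrt R * X / 32)) := by
    rw [hT2]; exact h
  have hlt := special_lt γ R (Real.sqrt R * X / 32) j (α * o) (α * x * o) hR hT hj hj8
    (Nat.mul_pos hα ho) (Nat.mul_pos (Nat.mul_pos hα hx) ho)
    ⟨x, by ring⟩ hC hG h1 hcon
  have h8 : (64 : ℝ) ≤ R ^ ((1 : ℝ) / 8) := by
    have h2 : ((2 : ℝ) ^ 48) ^ ((1 : ℝ) / 8) ≤ R ^ ((1 : ℝ) / 8) :=
      Real.rpow_le_rpow (by positivity) hR (by norm_num)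
    have h3 : ((2 : ℝ) ^ 48) ^ ((1 : ℝ) / 8) = 64 := by
      rw [← Real.rpow_natCast, ← Real.rpow_mul (by norm_num)]
      norm_num
    linarith
  have hsq : Real.sqrt R = R ^ ((3 : ℝ) / 8) * R ^ ((1 : ℝ) / 8) := by
    rw [Real.sqrt_eq_rpow, ← Real.rpow_add hR0]
    norm_num
  have h38 : 0 < R ^ ((3 : ℝ) / 8) := by positivity
  push_cast at hlt
  have hj1 : (1 : ℝ) ≤ j := by exact_mod_cast hj
  have hα1 : (1 : ℝ) ≤ α := by exact_mod_cast hα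
  have ho1 : (1 : ℝ) ≤ o := by exact_mod_cast ho
  have hx3 : (x : ℝ) ≤ 2 * X := by exact_mod_cast hx2.le
  have hAO : 0 < (α : ℝ) * o := by positivity
  have h5 : (α : ℝ) * x * o * R ^ ((3 : ℝ) / 8) ≤ (α * o) * (2 * X * R ^ ((3 : ℝ) / 8)) := by
    calc (α : ℝ) * x * o * R ^ ((3 : ℝ) / 8) = (α * o) * (x * R ^ ((3 : ℝ) / 8)) := by ring
      _ ≤ (α * o) * (2 * X * R ^ ((3 : ℝ) / 8)) := by gcongr
  have h6 : (α * o) * (2 * X * R ^ ((3 : ℝ) / 8)) ≤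
      Real.sqrt R * X / 32 * (j * ((α : ℝ) * o)) := by
    calc (α * o) * (2 * X * R ^ ((3 : ℝ) / 8)) =
        (R ^ ((3 : ℝ) / 8) * 64) * X / 32 * (1 * ((α : ℝ) * o)) := by ring
      _ ≤ (R ^ ((3 : ℝ) / 8) * R ^ ((1 : ℝ) / 8)) * X / 32 * (j * ((α : ℝ) * o)) := by gcongr
      _ = Real.sqrt R * X / 32 * (j * ((α : ℝ) * o)) := by rw [hsq]
  linarith

/-- [IDE-VBa] **Special coefficients, small `B`.**

PROOF.  `T = √R X/32`.  For each `j ≤ R^{1/64}`: the `o ∈ O` belonging to `j` number at most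
`18 j α 2^B/T ≤ 576 R^{16+1/64-1/2} 2^B/X ≤ 576 R^{-4} 2^B` (`window` with `c = j α`, `O = 2^B`,
`special_big`).  So `#O ≤ 576 R^{-3} 2^B`, `pb b o ≤ 2^{-B}` (`pb_le`), the sum is `≤ 576 R^{-3}`, and
`B + 1 ≤ 2 R^{1/256}`. -/
theorem verB_small (γ R : ℝ) (X α b B : ℕ) (O : Finset ℕ) (hR : 2 ^ 48 ≤ R)
    (hB : (B : ℝ) ≤ R ^ ((1 : ℝ) / 256)) (hX : R ^ 20 ≤ (X : ℝ)) (hα : 1 ≤ α)
    (hα2 : (α : ℝ) ≤ R ^ 16) (hb : 0 < b) (hO : O ⊆ Sq b)
    (h : ∀ o ∈ O, 2 ^ B ≤ o ∧ o < 2 ^ (B + 1) ∧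
      (∃ j : ℕ, 1 ≤ j ∧ (j : ℝ) ≤ R ^ ((1 : ℝ) / 64) ∧
        nd ((j * (α * o) : ℕ) * γ) < 16 / (Real.sqrt R * X)) ∧
      ∃ x : ℕ, X ≤ x ∧ x < 2 * X ∧ Gf γ R (α * x * o) ∧ Cop γ R (α * x * o)) :
    ∑ o ∈ O, pb b o ≤ R ^ (-(1 : ℝ)) / ((B : ℝ) + 1) * 1152 := by
  classical
  have hR1 : (1 : ℝ) ≤ R := le_trans (by norm_num) hR
  have hR0 : (0 : ℝ) < R := by linarith
  have hs1 : 1 ≤ Real.sqrt R := by
    rw [show (1 : ℝ) = Real.sqrt 1 by simp]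
    exact Real.sqrt_le_sqrt hR1
  have hs0 : 0 < Real.sqrt R := by linarith
  have hX1 : (1 : ℝ) ≤ X := le_trans (one_le_pow₀ hR1) hX
  have hX0 : (0 : ℝ) < X := by linarith
  have hXn : 1 ≤ X := by exact_mod_cast hX1
  have h64 : R ^ ((1 : ℝ) / 64) ≤ Real.sqrt R := by
    rw [Real.sqrt_eq_rpow]
    exact Real.rpow_le_rpow_of_exponent_le hR1 (by norm_num)
  have h64' : R ^ ((1 : ℝ) / 64) ≤ R := by
    calc R ^ ((1 : ℝ) / 64) ≤ R ^ (1 : ℝ) :=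
          Real.rpow_le_rpow_of_exponent_le hR1 (by norm_num)
      _ = R := Real.rpow_one R
  have h256 : R ^ ((1 : ℝ) / 256) ≤ R := by
    calc R ^ ((1 : ℝ) / 256) ≤ R ^ (1 : ℝ) :=
          Real.rpow_le_rpow_of_exponent_le hR1 (by norm_num)
      _ = R := Real.rpow_one R
  have hTT : (1 : ℝ) ≤ Real.sqrt R * X / 32 := by
    have h1 : (32 : ℝ) ≤ X := by
      calc (32 : ℝ) ≤ R := le_trans (by norm_num) hR
        _ ≤ R ^ 20 := le_self_pow₀ hR1 (by norm_num)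
        _ ≤ X := hX
    have h2 : (32 : ℝ) ≤ Real.sqrt R * X := by
      calc (32 : ℝ) ≤ 1 * X := by linarith
        _ ≤ Real.sqrt R * X := by gcongr
    linarith
  have hT2 : 1 / (2 * (Real.sqrt R * X / 32)) = 16 / (Real.sqrt R * X) := by
    have : Real.sqrt R * X ≠ 0 := by positivity
    field_simp
    norm_num
  have hcj : ∀ j ∈ Finset.Icc 1 ⌊R ^ ((1 : ℝ) / 64)⌋₊,
      ((O.filter (fun o => nd ((j * (α * o) : ℕ) * γ) < 16 / (Real.sqrt R * X))).card : ℝ) ≤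
        576 * 2 ^ B / R ^ 4 := by
    intro j hj
    rw [Finset.mem_Icc] at hj
    have hj2 : (j : ℝ) ≤ R ^ ((1 : ℝ) / 64) :=
      (Nat.le_floor_iff (by positivity)).mp hj.2
    have hw := window γ (Real.sqrt R * X / 32) hTT (j * α) (2 ^ B) (Nat.mul_pos hj.1 hα)
      Nat.one_le_two_pow (O.filter (fun o => nd ((j * (α * o) : ℕ) * γ) < 16 / (Real.sqrt R * X)))
      (by
        intro o ho
        rw [Finset.mem_filter] at ho
        obtain ⟨h1, h2, -, x, hx1, hx2, hG, hC⟩ := h o ho.1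
        have ho1 : 1 ≤ o := le_trans Nat.one_le_two_pow h1
        refine ⟨h1, by rw [pow_succ] at h2; omega, ?_, ?_⟩
        · rw [hT2, mul_assoc]
          exact ho.2
        · rw [mul_assoc]
          exact special_big γ R X α o j x hR hX hα ho1 hj.1 hj2 (le_trans hXn hx1) hx2 hG hC ho.2)
    refine hw.trans ?_
    push_cast
    rw [show 18 * ((j : ℝ) * α) * 2 ^ B / (Real.sqrt R * X / 32) =
      576 * 2 ^ B * (((j : ℝ) * α) / (Real.sqrt R * X)) by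
        have : Real.sqrt R * X ≠ 0 := by positivity
        field_simp
        ring]
    have h7 : ((j : ℝ) * α) / (Real.sqrt R * X) ≤ 1 / R ^ 4 := by
      rw [div_le_div_iff₀ (by positivity) (by positivity)]
      calc (j : ℝ) * α * R ^ 4 ≤ Real.sqrt R * R ^ 16 * R ^ 4 := by
            have := hj2.trans h64
            gcongr
        _ = Real.sqrt R * R ^ 20 := by ring
        _ ≤ Real.sqrt R * X := by gcongr
        _ = 1 * (Real.sqrt R * X) := by ring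
    calc 576 * 2 ^ B * (((j : ℝ) * α) / (Real.sqrt R * X)) ≤ 576 * 2 ^ B * (1 / R ^ 4) := by
          gcongr
      _ = 576 * 2 ^ B / R ^ 4 := by ring
  have hsub : O ⊆ (Finset.Icc 1 ⌊R ^ ((1 : ℝ) / 64)⌋₊).biUnion
      (fun j => O.filter (fun o => nd ((j * (α * o) : ℕ) * γ) < 16 / (Real.sqrt R * X))) := by
    intro o ho
    obtain ⟨-, -, ⟨j, hj1, hj2, hj3⟩, -⟩ := h o ho
    rw [Finset.mem_biUnion]
    refine ⟨j, Finset.mem_Icc.mpr ⟨hj1, Nat.le_floor hj2⟩, Finset.mem_filter.mpr ⟨ho, hj3⟩⟩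
  have hcard : (O.card : ℝ) ≤ R * (576 * 2 ^ B / R ^ 4) := by
    have h1 : (O.card : ℝ) ≤ ∑ j ∈ Finset.Icc 1 ⌊R ^ ((1 : ℝ) / 64)⌋₊,
        ((O.filter (fun o => nd ((j * (α * o) : ℕ) * γ) < 16 / (Real.sqrt R * X))).card : ℝ) := by
      exact_mod_cast (Finset.card_le_card hsub).trans Finset.card_biUnion_le
    refine h1.trans ((Finset.sum_le_sum hcj).trans ?_)
    rw [Finset.sum_const, Nat.card_Icc, nsmul_eq_mul, Nat.add_sub_cancel]
    have h2 : (⌊R ^ ((1 : ℝ) / 64)⌋₊ : ℝ) ≤ R := (Nat.floor_le (by positivity)).trans h64'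
    gcongr
  have hpb : ∀ o ∈ O, pb b o ≤ 1 / 2 ^ B := by
    intro o ho
    refine (pb_le b o hb (hO ho)).trans ?_
    have h1 : (2 : ℝ) ^ B ≤ o := by exact_mod_cast (h o ho).1
    gcongr
  have hsum : ∑ o ∈ O, pb b o ≤ (O.card : ℝ) * (1 / 2 ^ B) := by
    refine (Finset.sum_le_sum hpb).trans (le_of_eq ?_)
    rw [Finset.sum_const, nsmul_eq_mul]
  have hfin : (O.card : ℝ) * (1 / 2 ^ B) ≤ 576 / R ^ 3 := by
    calc (O.card : ℝ) * (1 / 2 ^ B) ≤ (R * (576 * 2 ^ B / R ^ 4)) * (1 / 2 ^ B) := by gcongr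
      _ = 576 / R ^ 3 := by
          field_simp
  refine (hsum.trans hfin).trans ?_
  rw [Real.rpow_neg hR0.le, Real.rpow_one]
  have hB1 : (B : ℝ) + 1 ≤ 2 * R ^ 2 := by
    have h1 : (B : ℝ) ≤ R := hB.trans h256
    nlinarith
  have hB0 : (0 : ℝ) < (B : ℝ) + 1 := by positivity
  rw [div_mul_eq_mul_div, div_le_div_iff₀ (by positivity) hB0]
  calc 576 * ((B : ℝ) + 1) ≤ 576 * (2 * R ^ 2) := by gcongr
    _ = R⁻¹ * 1152 * R ^ 3 := by
        field_simp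
        norm_num

end Pool.Agent.IDE
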