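import Pool.Agent.IDE.VB

set_option autoImplicit false

namespace Pool.Agent.IDE

open Finset Pool.Agent.IDS

private theorem vb2_root (R : ℝ) (hR : 2 ^ 48 ≤ R) :
    ∃ P : ℝ, 1 ≤ P ∧ 8 ≤ P ^ 4 ∧ R ^ ((1 : ℝ) / 64) = P ∧ R ^ ((3 : ℝ) / 8) = P ^ 24 ∧
      Real.sqrt R = P ^ 32 ∧ R ^ ((1 : ℝ) / 8) = P ^ 8 ∧ R ^ ((1 : ℝ) / 16) = P ^ 4 ∧ R = P ^ 64 := by
  have hR1 : (1 : ℝ) ≤ R := le_trans (by norm_num) hR
  have hR0 : (0 : ℝ) ≤ R := by linarith
  have key : ∀ n : ℕ, (R ^ ((1 : ℝ) / 64)) ^ n = R ^ ((n : ℝ) / 64) := by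
    intro n
    rw [← Real.rpow_natCast, ← Real.rpow_mul hR0]
    congr 1
    ring
  refine ⟨R ^ ((1 : ℝ) / 64), Real.one_le_rpow hR1 (by norm_num), ?_, rfl, ?_, ?_, ?_, ?_, ?_⟩
  · rw [key]
    have h2 : ((2 : ℝ) ^ 48) ^ (((4 : ℕ) : ℝ) / 64) ≤ R ^ (((4 : ℕ) : ℝ) / 64) :=
      Real.rpow_le_rpow (by positivity) hR (by norm_num)
    have h3 : ((2 : ℝ) ^ 48) ^ (((4 : ℕ) : ℝ) / 64) = 8 := by
      rw [← Real.rpow_natCast, ← Real.rpow_mul (by norm_num)]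
      norm_num
    linarith
  · rw [key]; norm_num
  · rw [key, Real.sqrt_eq_rpow]; norm_num
  · rw [key]; norm_num
  · rw [key]; norm_num
  · rw [key]; norm_num

/-- [IDE-VBb] **The last hypothesis of `large_B` for special coefficients.**

PROOF.  `T = TT R B o' ≥ R/8` (`TT_ge`).  Suppose `s j α o' eta γ T ≤ 1/2`.  `special` (with `s' = s j`,
`c = α o'`, `m = α x (p o')`; `s' < R^{1/8}`) gives, with `N = den γ T = den γ (R/8)`,
`η = eta γ T` (`= eta γ (R/8)`): `N ≤ R^{3/8}`, `1 ≤ 2 m η`, `s j α o' η < R^{3/8}/(2T)`.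
Let `n' = j' α p o'` (`j'` from `hj'`).  `n' η = p j' (α o' η) < p j' R^{3/8}/(2T)
= p j' R^{3/8} · 4·2^{log₂ o'}/(2 √(R/2) 2^B) ≤ R^{1/64} · 2 p o' R^{3/8}/(√(R/2) 2^B)
≤ 4√2 R^{1/64+3/8-1/2} ≤ 1/2` (`R^{7/64} ≥ 2^{5.25} ≥ 8√2`: `7/64·48 = 5.25`, `8√2 ≤ 2^{3.5}`).
If `N ∤ n'`: `nd (n' γ) ≥ 1/(2N) ≥ R^{-3/8}/2 > 16/(√R X)`, contradiction (`nd_ge_of_not_dvd`).
So `n' = t N`, `t η = nd (n' γ) < 16/(√R X)` (`nd_mul_den`), `n' η < 16 R^{3/8}/(√R X)`.  As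
`m = α x p o' < 2 X α p o' ≤ 2 X n'`: `2 m η < 4 X n' η < 64 R^{-1/8} ≤ 1`: contradiction to
`1 ≤ 2 m η`. -/
theorem special_no (γ R : ℝ) (X α B p o' s j j' x : ℕ) (hR : 2 ^ 48 ≤ R)
    (hX : R ^ 20 ≤ (X : ℝ)) (hα : 1 ≤ α) (ho : 1 ≤ o') (hp : p.Prime) (hp2 : R ^ 2 ≤ (p : ℝ))
    (hpo : p * o' < 2 ^ (B + 1)) (hs : 1 ≤ s) (hs2 : (s : ℝ) ≤ R ^ ((1 : ℝ) / 16)) (hj : 1 ≤ j)
    (hj2 : (j : ℝ) ≤ R ^ ((1 : ℝ) / 64)) (hj' : 1 ≤ j') (hj'2 : (j' : ℝ) ≤ R ^ ((1 : ℝ) / 64))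
    (hx : X ≤ x) (hx2 : x < 2 * X)
    (hG : Gf γ R (α * x * (p * o'))) (hC : Cop γ R (α * x * (p * o')))
    (h1 : nd ((j' * (α * (p * o')) : ℕ) * γ) < 16 / (Real.sqrt R * X))
    (h2 : nd ((s * j * α * o' : ℕ) * γ) < 1 / (2 * TT R B o')) :
    1 / 2 < ((s * j * α * o' : ℕ) : ℝ) * eta γ (TT R B o') := by
  obtain ⟨P, hP1, hP4, e64, e38, es, e8, e16, eR⟩ := vb2_root R hR
  have hR1 : (1 : ℝ) ≤ R := le_trans (by norm_num) hR
  have hR0 : (0 : ℝ) < R := by linarith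
  have hP0 : 0 < P := by linarith
  have hP2 : 2 ≤ P ^ 2 := by
    by_contra hc
    push Not at hc
    have h3 : P ^ 2 * P ^ 2 < 2 * 2 := mul_lt_mul'' hc hc (by positivity) (by positivity)
    have h4 : P ^ 4 = P ^ 2 * P ^ 2 := by ring
    linarith
  have hP1' : 1 < P := by
    by_contra hc
    push Not at hc
    have := pow_le_one₀ (n := 2) hP0.le hc
    linarith
  have hX1 : (1 : ℝ) ≤ X := le_trans (one_le_pow₀ hR1) hX
  have hX0 : (0 : ℝ) < X := by linarith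
  have hXn : 1 ≤ X := by exact_mod_cast hX1
  have hx1 : 1 ≤ x := le_trans hXn hx
  have hT := TT_ge R B p o' (le_trans (by norm_num) hR) ho hp2 hpo
  have hT0 : 0 < TT R B o' := lt_of_lt_of_le (by positivity) hT
  by_contra hcon
  push Not at hcon
  have hpp : 1 ≤ p := hp.one_lt.le
  have hsj : ((s * j : ℕ) : ℝ) < R ^ ((1 : ℝ) / 8) := by
    push_cast
    rw [e8]
    rw [e16] at hs2
    rw [e64] at hj2
    have h3 : P ^ 5 < P ^ 8 := pow_lt_pow_right₀ hP1' (by norm_num)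
    calc (s : ℝ) * j ≤ P ^ 4 * P := by gcongr
      _ = P ^ 5 := by ring
      _ < P ^ 8 := h3
  have ecast : s * j * α * o' = s * j * (α * o') := by ring
  rw [ecast] at h2 hcon
  obtain ⟨hd1, hd2, hd3, hd4⟩ := special γ R (TT R B o') (s * j) (α * o') (α * x * (p * o')) hR hT
    (Nat.mul_pos hs hj) hsj (Nat.mul_pos hα ho)
    (Nat.mul_pos (Nat.mul_pos hα hx1) (Nat.mul_pos hpp ho)) ⟨x * p, by ring⟩ hC hG h2 hcon
  have hη0 := eta_nonneg γ (TT R B o')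
  have hN1 := den_pos γ (TT R B o') hT0
  generalize hη : eta γ (TT R B o') = η at *
  generalize hN : den γ (TT R B o') = N at *
  rw [e38] at hd2 hd4
  rw [es] at h1
  rw [e64] at hj'2
  have hs1 : (1 : ℝ) ≤ s := by exact_mod_cast hs
  have hj1 : (1 : ℝ) ≤ j := by exact_mod_cast hj
  have hp1 : (1 : ℝ) ≤ p := by exact_mod_cast hpp
  have ho1 : (1 : ℝ) ≤ o' := by exact_mod_cast ho
  have hα1 : (1 : ℝ) ≤ α := by exact_mod_cast hα
  have hj'1 : (1 : ℝ) ≤ j' := by exact_mod_cast hj'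
  have hN1' : (1 : ℝ) ≤ N := by exact_mod_cast hN1
  have hpo' : (p : ℝ) * o' ≤ 2 * 2 ^ B := by
    have : ((p * o' : ℕ) : ℝ) ≤ ((2 ^ (B + 1) : ℕ) : ℝ) := by exact_mod_cast hpo.le
    push_cast at this
    rw [pow_succ] at this
    linarith
  have hlog : ((2 : ℝ) ^ Nat.log 2 o') ≤ o' := by
    exact_mod_cast Nat.pow_log_le_self 2 (by omega : o' ≠ 0)
  have hsqh : P ^ 32 / 2 ≤ Real.sqrt (R / 2) := by
    apply Real.le_sqrt_of_sq_le
    rw [eR]
    have h3 : 0 < P ^ 64 := by positivity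
    have h4 : (P ^ 32 / 2) ^ 2 = P ^ 64 / 4 := by ring
    linarith
  have hsq0 : 0 < Real.sqrt (R / 2) := lt_of_lt_of_le (by positivity) hsqh
  -- n' η ≤ 1/2
  have hTT : p * (j' * (P ^ 24 / (2 * TT R B o'))) ≤ 1 / 2 := by
    have e : P ^ 24 / (2 * TT R B o') =
        P ^ 24 * (2 * 2 ^ Nat.log 2 o') / (Real.sqrt (R / 2) * 2 ^ B) := by
      unfold TT
      field_simp
      try norm_num
    rw [e]
    calc (p : ℝ) * (j' * (P ^ 24 * (2 * 2 ^ Nat.log 2 o') / (Real.sqrt (R / 2) * 2 ^ B))) ≤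
        (p : ℝ) * (P * (P ^ 24 * (2 * o') / (P ^ 32 / 2 * 2 ^ B))) := by gcongr
      _ = (P ^ 25 * 4 / (P ^ 32 * 2 ^ B)) * (p * o') := by
          field_simp
          try ring
      _ ≤ (P ^ 25 * 4 / (P ^ 32 * 2 ^ B)) * (2 * 2 ^ B) := by gcongr
      _ = 8 / P ^ 7 := by
          field_simp
          try ring
      _ ≤ 1 / 2 := by
          rw [div_le_div_iff₀ (by positivity) (by norm_num)]
          have h7 : P ^ 7 = P ^ 4 * P ^ 2 * P := by ring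
          have h8 : 8 * 2 * 1 ≤ P ^ 4 * P ^ 2 * P := by gcongr
          rw [h7]
          linarith
  have hαo : (α : ℝ) * o' * η ≤ ((s * j * (α * o') : ℕ) : ℝ) * η := by
    push_cast
    have h3 : (1 : ℝ) * ((α : ℝ) * o') ≤ (s * j) * (α * o') := by
      have : (1 : ℝ) ≤ s * j := one_le_mul_of_one_le_of_one_le hs1 hj1
      gcongr
    calc (α : ℝ) * o' * η = (1 * ((α : ℝ) * o')) * η := by ring
      _ ≤ (s * j) * (α * o') * η := by gcongr
  have hn' : ((j' * (α * (p * o')) : ℕ) : ℝ) * η ≤ 1 / 2 := by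
    push_cast
    calc (j' : ℝ) * (α * (p * o')) * η = p * (j' * (α * o' * η)) := by ring
      _ ≤ p * (j' * (P ^ 24 / (2 * TT R B o'))) := by
          have := hαo.trans hd4.le
          gcongr
      _ ≤ 1 / 2 := hTT
  have h24 : P ^ 24 ≤ P ^ 32 := pow_le_pow_right₀ hP1 (by norm_num)
  have hX32 : (64 : ℝ) ≤ X := by
    calc (64 : ℝ) ≤ R := le_trans (by norm_num) hR
      _ ≤ R ^ 20 := le_self_pow₀ hR1 (by norm_num)
      _ ≤ X := hX
  by_cases hdv : N ∣ j' * (α * (p * o'))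
  · obtain ⟨t, ht⟩ := hdv
    have ht' : j' * (α * (p * o')) = t * N := by rw [ht]; ring
    have htle : (t : ℝ) ≤ ((j' * (α * (p * o')) : ℕ) : ℝ) := by
      have : t ≤ j' * (α * (p * o')) := by
        rw [ht']
        exact Nat.le_mul_of_pos_right t hN1
      exact_mod_cast this
    have htη : (t : ℝ) * η ≤ 1 / 2 := le_trans (by gcongr) hn'
    have hnd := nd_mul_den γ (TT R B o') t (by rw [hη]; exact htη)
    rw [hN, hη, ← ht'] at hnd
    rw [hnd] at h1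
    have h5 : ((j' * (α * (p * o')) : ℕ) : ℝ) * η < P ^ 24 * (16 / (P ^ 32 * X)) := by
      rw [ht']
      push_cast
      calc (t : ℝ) * N * η = N * (t * η) := by ring
        _ < N * (16 / (P ^ 32 * X)) := by gcongr
        _ ≤ P ^ 24 * (16 / (P ^ 32 * X)) := by gcongr
    have hxx : (x : ℝ) ≤ 2 * X := by exact_mod_cast hx2.le
    have h6 : 2 * ((α * x * (p * o') : ℕ) : ℝ) * η ≤
        4 * X * (((j' * (α * (p * o')) : ℕ) : ℝ) * η) := by
      push_cast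
      calc 2 * ((α : ℝ) * x * (p * o')) * η = (2 * x) * (1 * (α * (p * o'))) * η := by ring
        _ ≤ (2 * (2 * X)) * (j' * (α * (p * o'))) * η := by gcongr
        _ = 4 * X * (j' * (α * (p * o')) * η) := by ring
    have h7 : 4 * (X : ℝ) * (P ^ 24 * (16 / (P ^ 32 * X))) ≤ 1 := by
      have e : 4 * (X : ℝ) * (P ^ 24 * (16 / (P ^ 32 * X))) = 64 / P ^ 8 := by
        field_simp
        try norm_num
      rw [e, div_le_one (by positivity)]
      calc (64 : ℝ) = 8 * 8 := by norm_num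
        _ ≤ P ^ 4 * P ^ 4 := by gcongr
        _ = P ^ 8 := by ring
    have h8 : 4 * (X : ℝ) * (((j' * (α * (p * o')) : ℕ) : ℝ) * η) <
        4 * (X : ℝ) * (P ^ 24 * (16 / (P ^ 32 * X))) := by
      have : (0 : ℝ) < 4 * X := by positivity
      exact mul_lt_mul_of_pos_left h5 this
    linarith
  · have h5 := nd_ge_of_not_dvd γ (TT R B o') hT0 (j' * (α * (p * o'))) (by rw [hN]; exact hdv)
      (by rw [hη]; exact hn')
    rw [hN] at h5
    have h6 := lt_of_le_of_lt h5 h1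
    rw [div_lt_div_iff₀ (by positivity) (by positivity)] at h6
    have h7 : P ^ 32 * 64 ≤ P ^ 32 * X := by gcongr
    linarith [pow_pos hP0 32]

/-- [IDE-VBb] **Special coefficients.**

PROOF.  `R < 2^48`: `anatomy`.  `B ≤ R^{1/256}`: `verB_small`.  `B ≥ R^{1/256}`: `large_B` with
`c1 = α`, `ϑ = 0` (`16/(√R X) ≤ 2/R`), last hypothesis by `special_no`. -/
theorem verB :
    ∃ C : ℝ, 0 < C ∧ ∀ (γ R : ℝ) (X α b B : ℕ) (O : Finset ℕ), 1 ≤ R → R ^ 20 ≤ (X : ℝ) →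
      1 ≤ α → (α : ℝ) ≤ R ^ 16 → 0 < b → O ⊆ Sq b →
      (∀ o ∈ O, 2 ^ B ≤ o ∧ o < 2 ^ (B + 1) ∧
        (∃ j : ℕ, 1 ≤ j ∧ (j : ℝ) ≤ R ^ ((1 : ℝ) / 64) ∧
          nd ((j * (α * o) : ℕ) * γ) < 16 / (Real.sqrt R * X)) ∧
        ∃ x : ℕ, X ≤ x ∧ x < 2 * X ∧ Gf γ R (α * x * o) ∧ Cop γ R (α * x * o)) →
      ∑ o ∈ O, pb b o ≤ C * R ^ (-(1 : ℝ) / 512) / ((B : ℝ) + 1) := by
  obtain ⟨C, hC0, hC⟩ := large_B
  refine ⟨C + 1152 + 36, by linarith, ?_⟩
  intro γ R X α b B O hR1 hX hα hα2 hb hO h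
  have hR0 : (0 : ℝ) < R := by linarith
  have hB0 : (0 : ℝ) < (B : ℝ) + 1 := by positivity
  have hpos : 0 < R ^ (-(1 : ℝ) / 512) := by positivity
  rcases lt_or_ge R (2 ^ 48) with hR | hR
  · -- small R
    have hsub : O ⊆ (Sq b).filter (fun o => 2 ^ B ≤ o ∧ o < 2 ^ (B + 1)) := by
      intro o ho
      rw [Finset.mem_filter]
      exact ⟨hO ho, (h o ho).1, (h o ho).2.1⟩
    have h1 : ∑ o ∈ O, pb b o ≤ 18 / ((B : ℝ) + 1) :=
      (Finset.sum_le_sum_of_subset_of_nonneg hsub (fun o _ _ => pb_nonneg b o)).trans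
        (anatomy b B hb)
    have h2 : (1 / 2 : ℝ) ≤ R ^ (-(1 : ℝ) / 512) := by
      have h3 : ((2 : ℝ) ^ 48) ^ (-(1 : ℝ) / 512) ≤ R ^ (-(1 : ℝ) / 512) :=
        Real.rpow_le_rpow_of_nonpos hR0 hR.le (by norm_num)
      have h4 : ((2 : ℝ) ^ 48) ^ (-(1 : ℝ) / 512) = (2 : ℝ) ^ (-(3 : ℝ) / 32) := by
        rw [← Real.rpow_natCast, ← Real.rpow_mul (by norm_num)]
        norm_num
      have h5 : (2 : ℝ) ^ (-(1 : ℝ)) ≤ (2 : ℝ) ^ (-(3 : ℝ) / 32) :=
        Real.rpow_le_rpow_of_exponent_le (by norm_num) (by norm_num)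
      rw [Real.rpow_neg (by norm_num), Real.rpow_one] at h5
      rw [h4] at h3
      linarith
    refine h1.trans ?_
    have h6 : (18 : ℝ) ≤ (C + 1152 + 36) * R ^ (-(1 : ℝ) / 512) := by nlinarith
    gcongr
  · rcases le_or_gt (B : ℝ) (R ^ ((1 : ℝ) / 256)) with hB | hB
    · have h1 := verB_small γ R X α b B O hR hB hX hα hα2 hb hO h
      refine h1.trans ?_
      have h2 : R ^ (-(1 : ℝ)) ≤ R ^ (-(1 : ℝ) / 512) :=
        Real.rpow_le_rpow_of_exponent_le hR1 (by norm_num)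
      calc R ^ (-(1 : ℝ)) / ((B : ℝ) + 1) * 1152 = (1152 * R ^ (-(1 : ℝ))) / ((B : ℝ) + 1) := by ring
        _ ≤ ((C + 1152 + 36) * R ^ (-(1 : ℝ) / 512)) / ((B : ℝ) + 1) := by
            have h3 : 0 < R ^ (-(1 : ℝ)) := by positivity
            gcongr
            linarith
    · have hs1 : 1 ≤ Real.sqrt R := by
        rw [show (1 : ℝ) = Real.sqrt 1 by simp]
        exact Real.sqrt_le_sqrt hR1
      have hX1 : (1 : ℝ) ≤ X := le_trans (one_le_pow₀ hR1) hX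
      have hX0 : (0 : ℝ) < X := by linarith
      have h16 : 16 / (Real.sqrt R * X) ≤ 2 / R := by
        rw [div_le_div_iff₀ (by positivity) hR0]
        have h1 : R * 8 ≤ R ^ 20 := by
          have h2 : (8 : ℝ) ≤ R ^ 19 := by
            calc (8 : ℝ) ≤ R := le_trans (by norm_num) hR
              _ ≤ R ^ 19 := le_self_pow₀ hR1 (by norm_num)
          calc R * 8 ≤ R * R ^ 19 := by gcongr
            _ = R ^ 20 := by ring
        have h3 : R * 8 ≤ Real.sqrt R * X := by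
          calc R * 8 ≤ X := h1.trans hX
            _ = 1 * X := by ring
            _ ≤ Real.sqrt R * X := by gcongr
        linarith
      have hα37 : (α : ℝ) ≤ R ^ 37 := hα2.trans (pow_le_pow_right₀ hR1 (by norm_num))
      have h1 := hC γ R 0 α b B O hR hB.le hα hα37 hb hO
        (by
          intro o ho
          obtain ⟨h1, h2, ⟨j, hj1, hj2, hj3⟩, -⟩ := h o ho
          refine ⟨h1, h2, j, hj1, hj2, ?_⟩
          rw [sub_zero]
          have e : γ * ((α : ℝ) * j * o) = ((j * (α * o) : ℕ) : ℝ) * γ := by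
            push_cast; ring
          rw [e]
          exact hj3.le.trans h16)
        (by
          intro p o' s j hp hp2 hpo hs hs2 hj hj2 h2
          obtain ⟨h3, h4, ⟨j', hj'1, hj'2, hj'3⟩, x, hx1, hx2, hG, hCp⟩ := h (p * o') hpo
          have ho' : 1 ≤ o' := by
            rcases Nat.eq_zero_or_pos o' with h0 | h0
            · exfalso
              rw [h0, Nat.mul_zero] at h3
              have := Nat.one_le_two_pow (n := B)
              omega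
            · exact h0
          exact special_no γ R X α B p o' s j j' x hR hX hα ho' hp hp2 h4 hs hs2 hj hj2 hj'1 hj'2
            hx1 hx2 hG hCp hj'3 h2)
      refine h1.trans ?_
      have h2 : C * R ^ (-(1 : ℝ) / 512) ≤ (C + 1152 + 36) * R ^ (-(1 : ℝ) / 512) := by
        gcongr
        linarith
      gcongr

end Pool.Agent.IDE
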