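import Pool.Agent.IDE.FM
import Pool.Agent.IDS.Z3a

set_option autoImplicit false

namespace Pool.Agent.IDE

open Finset Pool.Agent.IDS MeasureTheory Filter

/-- [IDE-Z3] **Main theorem, general form, every real `γ`.** -/
theorem main_general (γ : ℝ) (ψ : ℕ → ℝ)
    (hψ : ∀ q, 0 ≤ ψ q) (ε : ℝ) (hε : 0 < ε) (La : ℕ → ℝ) (hL1 : ∀ k, 1 ≤ La k)
    (kk : ℕ → ℕ)
    (hkk : ∀ q, 1 ≤ q → 0 < ψ q → ψ q < 1 / 2 →
      (1 / 2 : ℝ) ^ kk q ≤ ψ q / q ∧ ψ q / q < 2 * (1 / 2 : ℝ) ^ kk q)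
    (hLS : ∀ (F : Finset ℕ) (k : ℕ), (∀ q ∈ F, 1 ≤ q ∧ 0 < ψ q ∧ ψ q < 1 / 2 ∧ kk q = k) →
      1 + Real.log ((F.image (Nat.log 2)).card : ℝ) ≤ La k ∨
        1 + Real.log (1 + Real.log ((k : ℝ) + 1)) ≤ La k)
    (hdiv : ¬ Summable (fun q : ℕ => (Nat.totient q : ℝ) * ψ q / q /
      (La (kk q)) ^ ε)) :
    volume (LimSet γ ψ) = 1 := by
  have hsub : LimSet γ ψ ⊆ Set.Icc (0 : ℝ) 1 := fun x hx => hx.1
  have hvol : volume (Set.Icc (0 : ℝ) 1) = 1 := by
    rw [Real.volume_Icc]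
    norm_num
  by_cases hbig : ∃ᶠ q : ℕ in atTop, 1 / 2 ≤ ψ q
  · -- infinitely many large values
    have heq : LimSet γ ψ = Set.Icc (0 : ℝ) 1 := by
      apply Set.Subset.antisymm hsub
      intro x hx
      refine ⟨hx, ?_⟩
      refine (hbig.and_eventually (eventually_ge_atTop 1)).mono fun q hq => ?_
      refine ⟨hq.2, ?_⟩
      rw [exists_residue_iff γ x (ψ q) q hq.2]
      exact (nd_le_half _).trans hq.1
    rw [heq, hvol]
  -- the levels
  have hsmall : ∀ᶠ q : ℕ in atTop, ψ q < 1 / 2 := by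
    rw [Filter.not_frequently] at hbig
    exact hbig.mono fun q hq => not_le.1 hq
  have hε' : 0 < min ε 1 := lt_min hε one_pos
  have hε1 : min ε 1 ≤ 1 := min_le_right _ _
  have hL0 : ∀ k, 0 < La k := fun k => lt_of_lt_of_le one_pos (hL1 k)
  have hfull := full_measure γ (min ε 1) hε' hε1
    {q | 1 ≤ q ∧ 0 < ψ q ∧ ψ q < 1 / 2} kk (fun k => (La k) ^ (-(min ε 1))) La ?_ hL1
    (fun k => Real.rpow_nonneg (hL0 k).le _) ?_ ?_ ?_
  · have h1 : ∀ᵐ x ∂(volume.restrict (Set.Icc (0 : ℝ) 1)), x ∈ LimSet γ ψ := by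
      have h2 : ∀ᵐ x ∂(volume.restrict (Set.Icc (0 : ℝ) 1)), x ∈ Set.Icc (0 : ℝ) 1 :=
        ae_restrict_mem measurableSet_Icc
      filter_upwards [hfull, h2] with x hx hx2
      refine ⟨hx2, hx.mono ?_⟩
      rintro q ⟨⟨hq1, hq2, hq3⟩, hq4⟩
      refine ⟨hq1, ?_⟩
      rw [exists_residue_iff γ x (ψ q) q hq1]
      refine hq4.trans ?_
      have h3 := (hkk q hq1 hq2 hq3).1
      have hq0 : (0 : ℝ) < q := by exact_mod_cast hq1
      rw [le_div_iff₀ hq0] at h3
      linarith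
    have h3 : volume ((LimSet γ ψ)ᶜ ∩ Set.Icc (0 : ℝ) 1) = 0 := by
      rw [ae_iff] at h1
      rw [Measure.restrict_apply' measurableSet_Icc] at h1
      exact h1
    apply le_antisymm
    · calc volume (LimSet γ ψ) ≤ volume (Set.Icc (0 : ℝ) 1) := measure_mono hsub
        _ = 1 := hvol
    · calc (1 : ENNReal) = volume (Set.Icc (0 : ℝ) 1) := hvol.symm
        _ ≤ volume (LimSet γ ψ ∪ ((LimSet γ ψ)ᶜ ∩ Set.Icc (0 : ℝ) 1)) := by
          apply measure_mono
          intro x hx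
          by_cases hxL : x ∈ LimSet γ ψ
          · exact Or.inl hxL
          · exact Or.inr ⟨hxL, hx⟩
        _ ≤ volume (LimSet γ ψ) + volume ((LimSet γ ψ)ᶜ ∩ Set.Icc (0 : ℝ) 1) :=
          measure_union_le _ _
        _ = volume (LimSet γ ψ) := by rw [h3, add_zero]
  · rintro q ⟨hq1, hq2, hq3⟩
    refine ⟨hq1, ?_⟩
    have h3 := (hkk q hq1 hq2 hq3).1
    have hq0 : (0 : ℝ) < q := by exact_mod_cast hq1
    rw [le_div_iff₀ hq0] at h3
    linarith
  · intro k
    rw [← Real.rpow_add (hL0 k), neg_add_cancel, Real.rpow_zero]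
  · intro F k hF
    exact hLS F k fun q hq => ⟨(hF q hq).1.1, (hF q hq).1.2.1, (hF q hq).1.2.2, (hF q hq).2⟩
  · intro hsum
    apply hdiv
    refine Summable.of_norm_bounded_eventually_nat (hsum.mul_left 2) ?_
    filter_upwards [hsmall] with q hq
    have hnn : 0 ≤ (Nat.totient q : ℝ) * ψ q / q / (La (kk q)) ^ ε := by
      have := hψ q
      have := (hL0 (kk q)).le
      positivity
    rw [Real.norm_of_nonneg hnn]
    rcases (hψ q).eq_or_lt with h0 | hpos
    · rw [← h0, mul_zero, zero_div, zero_div]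
      apply mul_nonneg (by norm_num)
      apply Set.indicator_nonneg
      intro q _
      have := Real.rpow_nonneg (hL0 (kk q)).le (-(min ε 1))
      positivity
    rcases Nat.eq_zero_or_pos q with rfl | hq1
    · rw [Nat.totient_zero, Nat.cast_zero, zero_mul, zero_div, zero_div]
      apply mul_nonneg (by norm_num)
      apply Set.indicator_nonneg
      intro q _
      have := Real.rpow_nonneg (hL0 (kk q)).le (-(min ε 1))
      positivity
    · have hmem : q ∈ {q | 1 ≤ q ∧ 0 < ψ q ∧ ψ q < 1 / 2} := ⟨hq1, hpos, hq⟩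
      rw [Set.indicator_of_mem hmem]
      have h3 := (hkk q hq1 hpos hq).2
      have h4 : (La (kk q)) ^ (min ε 1) ≤ (La (kk q)) ^ ε :=
        Real.rpow_le_rpow_of_exponent_le (hL1 _) (min_le_left _ _)
      have h5 : 0 < (La (kk q)) ^ (min ε 1) := Real.rpow_pos_of_pos (hL0 _) _
      rw [Real.rpow_neg (hL0 _).le]
      calc (Nat.totient q : ℝ) * ψ q / q / (La (kk q)) ^ ε ≤
          (Nat.totient q : ℝ) * ψ q / q / (La (kk q)) ^ (min ε 1) := by
            apply div_le_div_of_nonneg_left _ h5 h4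
            have := hψ q
            positivity
        _ = (Nat.totient q : ℝ) * (ψ q / q) / (La (kk q)) ^ (min ε 1) := by ring
        _ ≤ (Nat.totient q : ℝ) * (2 * (1 / 2 : ℝ) ^ kk q) /
            (La (kk q)) ^ (min ε 1) := by
            apply div_le_div_of_nonneg_right _ h5.le
            exact mul_le_mul_of_nonneg_left h3.le (by positivity)
        _ = _ := by
            rw [div_eq_mul_inv]
            ring

end Pool.Agent.IDE
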