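import Pool.Agent.IDE.Z3

set_option autoImplicit false

namespace Pool.Agent.IDE

open Finset Pool.Agent.IDS MeasureTheory Filter

private theorem z4_level {x : ℝ} (h0 : 0 < x) (h1 : x ≤ 1) :
    ∃ k : ℕ, (1 / 2 : ℝ) ^ k ≤ x ∧ x < 2 * (1 / 2 : ℝ) ^ k := by
  obtain ⟨n, hn1, hn2⟩ := exists_nat_pow_near_of_lt_one h0 h1 (y := (1 / 2 : ℝ)) (by norm_num)
    (by norm_num)
  rcases lt_or_eq_of_le hn2 with h | h
  · refine ⟨n + 1, hn1.le, ?_⟩
    rw [pow_succ]
    linarith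
  · refine ⟨n, h.ge, ?_⟩
    rw [h]
    have : (0 : ℝ) < (1 / 2) ^ n := by positivity
    linarith

private theorem z4_log {q q₀ b : ℕ} (hq : 1 ≤ q) (hq₀ : 1 ≤ q₀) (h : q ≤ b * q₀) :
    Nat.log 2 q ≤ Nat.log 2 q₀ + b := by
  have h1 : q₀ < 2 ^ (Nat.log 2 q₀ + 1) := Nat.lt_pow_succ_log_self (by norm_num) q₀
  have h2 : b < 2 ^ b := Nat.lt_two_pow_self
  have hb : 1 ≤ b := by
    by_contra hcon
    have : b = 0 := by omega
    rw [this, Nat.zero_mul] at h
    omega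
  have h3 : q < 2 ^ (Nat.log 2 q₀ + b + 1) := by
    calc q ≤ b * q₀ := h
      _ < 2 ^ b * 2 ^ (Nat.log 2 q₀ + 1) := Nat.mul_lt_mul'' h2 h1
      _ = 2 ^ (Nat.log 2 q₀ + b + 1) := by rw [← pow_add]; congr 1; omega
  have h4 := Nat.log_lt_of_lt_pow (by omega) h3
  omega

/-- the level of a ratio -/
private noncomputable def z4k (ψ : ℕ → ℝ) (q : ℕ) : ℕ :=
  open Classical in
  if h : ∃ k : ℕ, (1 / 2 : ℝ) ^ k ≤ ψ q / q then Nat.find h else 0

private theorem z4k_spec (ψ : ℕ → ℝ) (q : ℕ) (hq : 1 ≤ q) (h0 : 0 < ψ q) (h1 : ψ q < 1 / 2) :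
    1 ≤ z4k ψ q ∧ (1 / 2 : ℝ) ^ z4k ψ q ≤ ψ q / q ∧
      ψ q / q < 2 * (1 / 2 : ℝ) ^ z4k ψ q := by
  classical
  have hq0 : (0 : ℝ) < q := by exact_mod_cast hq
  have hq1 : (1 : ℝ) ≤ q := by exact_mod_cast hq
  have ht : 0 < ψ q / q := div_pos h0 hq0
  have ht1 : ψ q / q < 1 := by
    rw [div_lt_one hq0]
    linarith
  have hex : ∃ k : ℕ, (1 / 2 : ℝ) ^ k ≤ ψ q / q := by
    obtain ⟨k, hk⟩ := exists_pow_lt_of_lt_one ht (by norm_num : (1 / 2 : ℝ) < 1)
    exact ⟨k, hk.le⟩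
  have hdef : z4k ψ q = Nat.find hex := by
    unfold z4k
    rw [dif_pos hex]
  rw [hdef]
  have hs := Nat.find_spec hex
  have hpos : 1 ≤ Nat.find hex := by
    by_contra hcon
    have h2 : Nat.find hex = 0 := by omega
    rw [h2, pow_zero] at hs
    linarith
  refine ⟨hpos, hs, ?_⟩
  have hm := Nat.find_min hex (m := Nat.find hex - 1) (by omega)
  push Not at hm
  have h3 : (1 / 2 : ℝ) ^ (Nat.find hex - 1) = 2 * (1 / 2 : ℝ) ^ Nat.find hex := by
    obtain ⟨m, hm'⟩ : ∃ m, Nat.find hex = m + 1 := ⟨Nat.find hex - 1, by omega⟩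
    rw [hm', Nat.add_sub_cancel, pow_succ]
    ring
  rw [← h3]
  exact hm

private theorem z4_half (γ : ℝ) (ψ : ℕ → ℝ) (h : ∃ᶠ q : ℕ in atTop, 1 / 2 ≤ ψ q) :
    volume (LimSet γ ψ) = 1 := by
  have h1 : LimSet γ ψ = Set.Icc (0 : ℝ) 1 := by
    ext x
    constructor
    · exact fun hx => hx.1
    · intro hx
      refine ⟨hx, ?_⟩
      refine (h.and_eventually (eventually_ge_atTop 1)).mono ?_
      rintro q ⟨h2, h3⟩
      exact ⟨h3, (exists_residue_iff γ x (ψ q) q h3).2 ((nd_le_half _).trans h2)⟩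
  rw [h1, Real.volume_Icc]
  norm_num

/-- [IDE-Z4] **Comparable sizes.**  Port of `Pool.Agent.IDS.main_comparable` (Z3c): constant `La`. -/
theorem main_comparable (γ : ℝ) (ψ : ℕ → ℝ) (hψ : ∀ q, 0 ≤ ψ q) (B : ℝ)
    (hB : ∀ q r : ℕ, 1 ≤ q → 1 ≤ r → 0 < ψ q → 0 < ψ r → ψ q / q ≤ 2 * (ψ r / r) →
      ψ r / r ≤ 2 * (ψ q / q) → (q : ℝ) ≤ B * r)
    (hdiv : ¬ Summable (fun q : ℕ => (Nat.totient q : ℝ) * ψ q / q)) :
    volume (LimSet γ ψ) = 1 := by
  classical
  have hex : ∀ q : ℕ, ∃ k : ℕ, 1 ≤ q → 0 < ψ q → ψ q < 1 / 2 →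
      (1 / 2 : ℝ) ^ k ≤ ψ q / q ∧ ψ q / q < 2 * (1 / 2 : ℝ) ^ k := by
    intro q
    by_cases h : 1 ≤ q ∧ 0 < ψ q ∧ ψ q < 1 / 2
    · obtain ⟨h1, h2, h3⟩ := h
      have hq : (1 : ℝ) ≤ q := by exact_mod_cast h1
      obtain ⟨k, hk⟩ := z4_level (x := ψ q / q) (by positivity) (by
        rw [div_le_one (by linarith)]
        linarith)
      exact ⟨k, fun _ _ _ => hk⟩
    · exact ⟨0, fun h1 h2 h3 => absurd ⟨h1, h2, h3⟩ h⟩
  choose kk hkk using hex
  set b : ℕ := ⌈B⌉₊ with hb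
  have hBb : B ≤ b := Nat.le_ceil B
  have hb1 : (1 : ℝ) ≤ (b : ℝ) + 1 := by
    have : (0 : ℝ) ≤ b := Nat.cast_nonneg b
    linarith
  have hlog : 0 ≤ Real.log ((b : ℝ) + 1) := Real.log_nonneg hb1
  refine main_general γ ψ hψ 1 one_pos (fun _ => 1 + Real.log ((b : ℝ) + 1))
    (fun _ => by linarith) kk hkk ?_ ?_
  · intro F k hF
    left
    rcases F.eq_empty_or_nonempty with rfl | hne
    · simp only [image_empty, card_empty, Nat.cast_zero, Real.log_zero]
      linarith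
    · obtain ⟨q₀, hq₀, hmin⟩ := F.exists_min_image (fun q => q) hne
      have hsub : F.image (Nat.log 2) ⊆ Finset.Icc (Nat.log 2 q₀) (Nat.log 2 q₀ + b) := by
        intro x hx
        obtain ⟨q, hq, rfl⟩ := Finset.mem_image.1 hx
        rw [Finset.mem_Icc]
        refine ⟨Nat.log_mono_right (hmin q hq), ?_⟩
        obtain ⟨a1, a2, a3, a4⟩ := hF q hq
        obtain ⟨b1, b2, b3, b4⟩ := hF q₀ hq₀
        have c1 := hkk q a1 a2 a3
        have c2 := hkk q₀ b1 b2 b3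
        rw [a4] at c1
        rw [b4] at c2
        have d1 : (q : ℝ) ≤ B * q₀ := hB q q₀ a1 b1 a2 b2 (by linarith [c1.2, c2.1])
          (by linarith [c2.2, c1.1])
        refine z4_log a1 b1 ?_
        have d2 : (q : ℝ) ≤ b * q₀ :=
          d1.trans (mul_le_mul_of_nonneg_right hBb (Nat.cast_nonneg _))
        exact_mod_cast d2
      have hcard := Finset.card_le_card hsub
      rw [Nat.card_Icc] at hcard
      have h1 : (F.image (Nat.log 2)).card ≤ b + 1 := by omega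
      have h2 : ((F.image (Nat.log 2)).card : ℝ) ≤ (b : ℝ) + 1 := by exact_mod_cast h1
      have h3 : (0 : ℝ) < ((F.image (Nat.log 2)).card : ℝ) := by
        exact_mod_cast Finset.card_pos.2 (hne.image _)
      have h4 := Real.log_le_log h3 h2
      linarith
  · intro hsum
    apply hdiv
    have hne : (1 + Real.log ((b : ℝ) + 1)) ^ (1 : ℝ) ≠ 0 := by
      rw [Real.rpow_one]
      positivity
    exact (summable_div_const_iff hne).1 hsum

/-- [IDE-Z4] **Extra divergence by an arbitrary power of the triple logarithm.**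

PROOF.  Port of `Pool.Agent.IDS.main_log` (Z3d), with `La k = 1 + log (1 + log (k+1))` (second
alternative in `hLS`).  For `0 < ψ q < 1/2`, `kk q = k ≥ 1`, `y = q/ψ q > 2^{k-1}`, `y > 2`:
`k + 1 ≤ 3 (1 + log (1 + y))`, so `1 + log (k+1) ≤ 1 + log 3 + log (1 + log (1+y))
≤ 3 (1 + log (1 + log (1 + y)))` and
`La k ≤ 1 + log 3 + log (1 + log (1 + log (1+y))) ≤ 3 (1 + log (1 + log (1 + log (1 + y))))`. -/
theorem main_logloglog (γ : ℝ) (ψ : ℕ → ℝ) (hψ : ∀ q, 0 ≤ ψ q) (ε : ℝ) (hε : 0 < ε)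
    (hdiv : ¬ Summable (fun q : ℕ => (Nat.totient q : ℝ) * ψ q / q /
      (1 + Real.log (1 + Real.log (1 + Real.log (1 + q / ψ q)))) ^ ε)) :
    volume (LimSet γ ψ) = 1 := by
  by_cases hinf : ∃ᶠ q : ℕ in atTop, 1 / 2 ≤ ψ q
  · exact z4_half γ ψ hinf
  rw [not_frequently] at hinf
  have hlk : ∀ k : ℕ, 0 ≤ Real.log ((k : ℝ) + 1) := fun k => Real.log_nonneg (by
    have : (0 : ℝ) ≤ k := Nat.cast_nonneg k
    linarith)
  refine main_general γ ψ hψ ε hε (fun k => 1 + Real.log (1 + Real.log ((k : ℝ) + 1)))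
    (fun k => by
      have := Real.log_nonneg (by linarith [hlk k] : (1 : ℝ) ≤ 1 + Real.log ((k : ℝ) + 1))
      linarith) (z4k ψ) (fun q hq h0 h1 => (z4k_spec ψ q hq h0 h1).2)
    (fun F k _ => Or.inr le_rfl) ?_
  intro hsum
  apply hdiv
  refine Summable.of_norm_bounded_eventually_nat (hsum.mul_left (3 ^ ε)) ?_
  filter_upwards [hinf] with q hq
  push Not at hq
  rcases Nat.eq_zero_or_pos q with hq0 | hq1
  · subst hq0
    simp
  rcases (hψ q).lt_or_eq with h0 | h0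
  · obtain ⟨hk1, -, hk2⟩ := z4k_spec ψ q hq1 h0 hq
    set k := z4k ψ q with hk
    have hq0 : (0 : ℝ) < q := by exact_mod_cast hq1
    have hlog : (((k : ℝ) - 1) * Real.log 2) ≤ Real.log (1 + q / ψ q) := by
      have h3 : (2 : ℝ) ^ ((k : ℝ) - 1) ≤ 1 + q / ψ q := by
        have h4 : (2 : ℝ) ^ ((k : ℝ) - 1) = 2 ^ k / 2 := by
          rw [Real.rpow_sub (by norm_num), Real.rpow_one, Real.rpow_natCast]
        rw [h4]
        have h5 : ψ q / q * (q / ψ q) = 1 := by field_simp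
        have h6 : (1 / 2 : ℝ) ^ k * 2 ^ k = 1 := by
          rw [← mul_pow]
          norm_num
        have h7 : 0 < q / ψ q := div_pos hq0 h0
        have h8 : (0 : ℝ) < 2 ^ k := by positivity
        have h9 : 2 ^ k < 2 * (q / ψ q) := by
          have h13 := mul_lt_mul_of_pos_right hk2 h7
          have h10 : 1 < 2 * (1 / 2 : ℝ) ^ k * (q / ψ q) := by
            rwa [h5] at h13
          have h11 : (2 : ℝ) ^ k * 1 < 2 ^ k * (2 * (1 / 2 : ℝ) ^ k * (q / ψ q)) :=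
            mul_lt_mul_of_pos_left h10 h8
          have h12 : (2 : ℝ) ^ k * (2 * (1 / 2 : ℝ) ^ k * (q / ψ q)) = 2 * (q / ψ q) := by
            linear_combination 2 * (q / ψ q) * h6
          rw [h12, mul_one] at h11
          exact h11
        linarith
      have h4 := Real.log_le_log (by positivity) h3
      rwa [Real.log_rpow (by norm_num)] at h4
    have hlog2 := Real.log_two_gt_d9
    have hkr : (1 : ℝ) ≤ k := by exact_mod_cast hk1
    set A : ℝ := 1 + Real.log (1 + q / ψ q) with hA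
    have hmain : (k : ℝ) + 1 ≤ 3 * A := by
      nlinarith
    have hA1 : 1 ≤ A := by nlinarith
    have hlA : 0 ≤ Real.log A := Real.log_nonneg hA1
    have hk0 : (0 : ℝ) < (k : ℝ) + 1 := by linarith
    have hlk' := hlk k
    have hl3 : Real.log 3 ≤ 2 := by
      have := Real.log_le_sub_one_of_pos (by norm_num : (0:ℝ) < 3)
      linarith
    have hmain2 : 1 + Real.log ((k : ℝ) + 1) ≤ 3 * (1 + Real.log A) := by
      have h1 := Real.log_le_log hk0 hmain
      rw [Real.log_mul (by norm_num) (by linarith)] at h1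
      linarith
    have hB : 0 < 1 + Real.log A := by linarith
    have hlB : 0 ≤ Real.log (1 + Real.log A) := Real.log_nonneg (by linarith)
    have hk2' : 0 < 1 + Real.log ((k : ℝ) + 1) := by linarith
    have hlk2 : 0 ≤ Real.log (1 + Real.log ((k : ℝ) + 1)) := Real.log_nonneg (by linarith)
    have hmain3 : 1 + Real.log (1 + Real.log ((k : ℝ) + 1)) ≤ 3 * (1 + Real.log (1 + Real.log A)) := by
      have h1 := Real.log_le_log hk2' hmain2
      rw [Real.log_mul (by norm_num) (by linarith)] at h1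
      linarith
    have hC : 0 < 1 + Real.log (1 + Real.log A) := by linarith
    have hk3 : 0 < 1 + Real.log (1 + Real.log ((k : ℝ) + 1)) := by linarith
    have hpow : (1 + Real.log (1 + Real.log ((k : ℝ) + 1))) ^ ε ≤
        3 ^ ε * (1 + Real.log (1 + Real.log A)) ^ ε := by
      rw [← Real.mul_rpow (by norm_num) hC.le]
      exact Real.rpow_le_rpow hk3.le hmain3 hε.le
    have hT : 0 ≤ (Nat.totient q : ℝ) * ψ q / q := by positivity
    have hp1 : 0 < (1 + Real.log (1 + Real.log ((k : ℝ) + 1))) ^ ε := Real.rpow_pos_of_pos hk3 _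
    have hp2 : 0 < (1 + Real.log (1 + Real.log A)) ^ ε := Real.rpow_pos_of_pos hC _
    rw [Real.norm_of_nonneg (div_nonneg hT hp2.le)]
    rw [← mul_div_assoc, div_le_div_iff₀ hp2 hp1]
    have h5 := mul_le_mul_of_nonneg_left hpow hT
    linarith
  · rw [← h0]
    simp

end Pool.Agent.IDE
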